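import Mathlib

/-!
# Two competing random walks on the torus: definitions

`Tor d n` is the torus `(ℤ/n)^d`, `stp` the distribution of one step of the lazy walk, `hk r` the distribution of
the sum of `r` steps, `EP t g` the expectation of `g (path at times < t) (position at time t)` for the walk started
from the uniform distribution, `ER t F` the expectation of a function of the positions at times `< t`.

`frec η x t` is the first time `s < t` with `η s = x` (`none` if there is none), `lrec a η x t` the record of the two
sites `x + a 0`, `x + a 1`.  `pv a ψ k t r b` is the expectation of `ψ (final record)` if at time `t` the (centred)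
position is `b`, the record, with time `t` already processed, is `r`, and `k` more steps are made.
`chg` is the charge: the effect of recording a visit.  `rb` is the same for the reversed walk.
-/

open Finset

namespace CRW

/-- the torus `(ℤ/n)^d` -/
abbrev Tor (d n : ℕ) := Fin d → ZMod n

section
variable {d n : ℕ}

/-- the distribution of one step of the lazy simple random walk -/
noncomputable def stp (d n : ℕ) (z : Tor d n) : ℝ :=
  (if z = 0 then 1 / 2 else 0) +
    ∑ i : Fin d, ((if z = Pi.single i 1 then 1 else 0) + (if z = -Pi.single i 1 then 1 else 0)) /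
      (4 * (d : ℝ))

/-- the distribution of the sum of `r` steps -/
noncomputable def hk (d n : ℕ) [NeZero n] : ℕ → Tor d n → ℝ
  | 0, z => if z = 0 then 1 else 0
  | r + 1, z => ∑ w, stp d n w * hk d n r (z + w)

/-- the sup norm on the torus -/
def nrm (z : Tor d n) : ℕ := univ.sup fun i => (z i).valMinAbs.natAbs

/-- `1 + ` sup norm -/
noncomputable def rho (z : Tor d n) : ℝ := 1 + (nrm z : ℝ)

/-- the number of sites -/
noncomputable def NN (d n : ℕ) : ℝ := (n : ℝ) ^ d

/-- a record: the times of the first visits to the two sites of a pair -/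
abbrev Rec := Fin 2 → Option ℕ

/-- the empty record -/
def rec0 : Rec := fun _ => none

/-- some site of the pair has not been visited -/
def Inc (r : Rec) : Prop := ∃ j, r j = none

/-- the record `r` after a visit to `b` at time `t` -/
def upd (a : Fin 2 → Tor d n) (t : ℕ) (b : Tor d n) (r : Rec) : Rec :=
  fun j => (r j).orElse fun _ => if b = a j then some t else none

/-- the record `r` after an EARLIER visit to `b` at time `t` (which overrides later visits) -/
def ov (a : Fin 2 → Tor d n) (t : ℕ) (b : Tor d n) (r : Rec) : Rec :=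
  fun j => if b = a j then some t else r j

/-- the first time `s < t` with `η s = x` -/
def frec (η : ℕ → Tor d n) (x : Tor d n) : ℕ → Option ℕ
  | 0 => none
  | t + 1 => (frec η x t).orElse fun _ => if η t = x then some t else none

/-- the record of the pair at `x` -/
def lrec (a : Fin 2 → Tor d n) (η : ℕ → Tor d n) (x : Tor d n) (t : ℕ) : Rec :=
  fun j => frec η (x + a j) t

variable [NeZero n] {E : Type} [AddCommGroup E] [Module ℝ E]

/-- expectation of `g (path at times < t) (position at time t)`, uniform start -/
noncomputable def EP : ℕ → ((ℕ → Tor d n) → Tor d n → E) → E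
  | 0, g => (NN d n)⁻¹ • ∑ b, g (fun _ => 0) b
  | t + 1, g => EP t fun η b => ∑ w, stp d n w • g (Function.update η t b) (b + w)

/-- expectation of a function of the positions at times `< t` -/
noncomputable def ER (t : ℕ) (F : (ℕ → Tor d n) → E) : E := EP t fun η _ => F η

/-- conditional expectation of `F`, given the path at times `< t` and the position `b` at time `t`;
`k` more steps -/
noncomputable def cnd : ℕ → ℕ → ((ℕ → Tor d n) → E) → (ℕ → Tor d n) → Tor d n → E
  | 0, t, F, η, b => F (Function.update η t b)
  | k + 1, t, F, η, b => ∑ w, stp d n w • cnd k (t + 1) F (Function.update η t b) (b + w)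

/-- expected value of `ψ` at the final record; time `t` already processed, `k` more steps -/
noncomputable def pv (a : Fin 2 → Tor d n) (ψ : Rec → E) : ℕ → ℕ → Rec → Tor d n → E
  | 0, _, r, _ => ψ r
  | k + 1, t, r, b => ∑ w, stp d n w • pv a ψ k (t + 1) (upd a (t + 1) (b + w) r) (b + w)

/-- the same with time `t` not yet processed -/
noncomputable def val (a : Fin 2 → Tor d n) (ψ : Rec → E) (k t : ℕ) (r : Rec) (b : Tor d n) : E :=
  pv a ψ k t (upd a t b r) b

/-- the charge: the effect of recording a visit to `a j` at time `t` -/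
noncomputable def chg (a : Fin 2 → Tor d n) (ψ : Rec → E) (k t : ℕ) (r : Rec) (j : Fin 2) : E :=
  pv a ψ k t (upd a t (a j) r) (a j) - pv a ψ k t r (a j)

/-- the mean of `val` over the position -/
noncomputable def vbar (a : Fin 2 → Tor d n) (ψ : Rec → E) (k t : ℕ) (r : Rec) : E :=
  (NN d n)⁻¹ • ∑ b, val a ψ k t r b

/-- reversed walk: expected value of `ψ` at the record of all times, where `r` is the record of the times `≥ j`
and the position at time `j` is `b` -/
noncomputable def rb (a : Fin 2 → Tor d n) (ψ : Rec → E) : ℕ → Rec → Tor d n → E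
  | 0, r, _ => ψ r
  | i + 1, r, b => ∑ w, stp d n w • rb a ψ i (ov a i (b + w) r) (b + w)

/-- the charge of the reversed walk -/
noncomputable def rchg (a : Fin 2 → Tor d n) (ψ : Rec → E) (i : ℕ) (r : Rec) (j : Fin 2) : E :=
  rb a ψ i (ov a i (a j) r) (a j) - rb a ψ i r (a j)

/-- the probability that the walk started at `z` does not visit `0` at the times `0, ..., k` -/
noncomputable def nv (d n : ℕ) [NeZero n] : ℕ → Tor d n → ℝ
  | 0, z => if z = 0 then 0 else 1
  | k + 1, z => if z = 0 then 0 else ∑ w, stp d n w * nv d n k (z + w)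

/-- the gradient of `hk` -/
noncomputable def gr (r : ℕ) (z : Tor d n) : ℝ :=
  ∑ w : Tor d n, if stp d n w = 0 then 0 else |hk d n r (z + w) - hk d n r z|

/-- variance of `H (X₁)` for the walk started at `b` -/
noncomputable def Gam (H : Tor d n → ℝ) (b : Tor d n) : ℝ :=
  ∑ w, stp d n w * H (b + w) ^ 2 - (∑ w, stp d n w * H (b + w)) ^ 2

/-- covariance of `H (X₁)` and `K (X₁)` for the walk started at `b` -/
noncomputable def GamB (H K : Tor d n → ℝ) (b : Tor d n) : ℝ :=
  ∑ w, stp d n w * (H (b + w) * K (b + w)) -
    (∑ w, stp d n w * H (b + w)) * (∑ w, stp d n w * K (b + w))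

/-- variance of a function of the positions at times `< t` -/
noncomputable def VR (t : ℕ) (F : (ℕ → Tor d n) → ℝ) : ℝ := ER t (fun η => F η ^ 2) - ER t F ^ 2

end

/-- the sum which gives the order of the variance (divided by the number of sites) -/
noncomputable def S4 (d n : ℕ) [NeZero n] : ℝ := ∑ z : Tor d n, 1 / rho z ^ (2 * (d - 2))

/-- The bounds for the walk with constants `C`, `κ`. -/
structure HKB (d n : ℕ) [NeZero n] (C κ : ℝ) : Prop where
  hC : 1 ≤ C
  hκ : 0 < κ
  hκ1 : κ ≤ 1
  hn : 3 ≤ n
  green : ∀ z : Tor d n, ∑ r ∈ range (n ^ 2 + 1), hk d n r z ≤ C / rho z ^ (d - 2)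
  grad : ∀ (z : Tor d n) (M : ℕ), ∑ r ∈ range M, Real.exp (κ * r / NN d n) * gr r z ≤
    C / rho z ^ (d - 1)
  cent : ∀ (z : Tor d n) (M : ℕ), ∑ r ∈ range M, Real.exp (κ * r / NN d n) *
    |hk d n r z - (NN d n)⁻¹| ≤ C / rho z ^ (d - 2)
  dens : ∀ (r : ℕ) (z : Tor d n), n ^ 2 ≤ r → hk d n r z ≤ C / NN d n
  diag : ∀ (r : ℕ) (z : Tor d n), 1 ≤ r → hk d n r z ≤ C * (1 / (r * Real.sqrt r) + 1 / NN d n)
  mix : ∀ (r : ℕ) (z : Tor d n), n ^ 2 ≤ r →
    |hk d n r z - (NN d n)⁻¹| ≤ C / NN d n * Real.exp (-κ * r / n ^ 2)
  decay : ∀ (k : ℕ) (z : Tor d n), nv d n k z ≤ C * Real.exp (-κ * k / NN d n)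

end CRW
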