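import Pool.Agent.Lib.CRW.Defs

/-!
# Two competing random walks: colours, coins, environments, characters
-/

open Finset

namespace CRW

/-- the pair of sites `0`, `e_i` -/
def st {d n : ℕ} (i : Fin d) : Fin 2 → Tor d n := ![0, Pi.single i 1]

/-- comparison of two first visit times (`none` = never) and a coin: is the site marked `1`? -/
def colB : Option ℕ → Option ℕ → Bool → Bool
  | some s, some t, c => if s < t then true else if t < s then false else c
  | some _, none, _ => true
  | none, some _, _ => false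
  | none, none, c => c

/-- probability that a site is marked `1`, given the first visit times of the two walks -/
noncomputable def cw : Option ℕ → Option ℕ → ℝ
  | some s, some t => if s < t then 1 else if t < s then 0 else 1 / 2
  | some _, none => 1
  | none, some _ => 0
  | none, none => 1 / 2

/-- probability that the first site of the pair is marked `1`, given the records -/
noncomputable def fA (r1 r2 : Rec) : ℝ := cw (r1 0) (r2 0)

/-- probability that the two sites of the pair have different marks, given the records -/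
noncomputable def fB (r1 r2 : Rec) : ℝ :=
  cw (r1 0) (r2 0) * (1 - cw (r1 1) (r2 1)) + (1 - cw (r1 0) (r2 0)) * cw (r1 1) (r2 1)

section
variable {d n : ℕ} [NeZero n]

/-- expectation over the fair coins -/
noncomputable def cavg (G : (Tor d n → Bool) → ℝ) : ℝ :=
  ((2 : ℝ) ^ Fintype.card (Tor d n))⁻¹ * ∑ c : Tor d n → Bool, G c

/-- expectation over the two walks (positions at times `< H`) and the coins -/
noncomputable def E2 (H : ℕ) (G : (ℕ → Tor d n) → (ℕ → Tor d n) → (Tor d n → Bool) → ℝ) : ℝ :=
  ER H fun η => ER H fun η' => cavg fun c => G η η' c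

/-- variance -/
noncomputable def V2 (H : ℕ) (G : (ℕ → Tor d n) → (ℕ → Tor d n) → (Tor d n → Bool) → ℝ) : ℝ :=
  E2 H (fun η η' c => G η η' c ^ 2) - E2 H G ^ 2

/-- the data of the second walk and the coins at the pair at `x` -/
def dat (a : Fin 2 → Tor d n) (H : ℕ) (η : ℕ → Tor d n) (c : Tor d n → Bool) (x : Tor d n) :
    Rec × (Fin 2 → Bool) := (lrec a η x H, fun j => c (x + a j))

end

/-- A random environment with values in `Dat`: a translation invariant expectation for which the
data at two sites are nearly independent. -/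
structure Env (d n : ℕ) [NeZero n] (Dat : Type) (C2 : ℝ) where
  E : ((Tor d n → Dat) → ℝ) → ℝ
  add : ∀ g h, E (fun w => g w + h w) = E g + E h
  smul : ∀ (c : ℝ) g, E (fun w => c * g w) = c * E g
  mono : ∀ g h, (∀ w, g w ≤ h w) → E g ≤ E h
  one : E (fun _ => 1) = 1
  shift : ∀ (x : Tor d n) g, E (fun w => g fun y => w (y + x)) = E g
  tv : ∀ (z : Tor d n) (h : Dat → Dat → ℝ), (∀ u v, |h u v| ≤ 1) →
    |E (fun w => h (w 0) (w z)) - E (fun w => E fun w' => h (w 0) (w' 0))| ≤
      C2 / rho z ^ (d - 2)

section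
variable {d n : ℕ} [NeZero n]

/-- the sum of the value functions of all pairs, with the records of the times `< s` -/
noncomputable def HH (a : Fin 2 → Tor d n) {Dat : Type} (φ : Dat → Rec → ℝ) (w : Tor d n → Dat)
    (k t s : ℕ) (η : ℕ → Tor d n) (b : Tor d n) : ℝ :=
  ∑ x, val a (φ (w x)) k t (lrec a η x s) (b - x)

/-- the characters of the torus -/
noncomputable def ch (ξ x : Tor d n) : ℂ := ZMod.stdAddChar (∑ i, ξ i * x i)

/-- the eigenvalues of the walk -/
noncomputable def lam (ξ : Tor d n) : ℝ :=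
  1 / 2 + 1 / (2 * (d : ℝ)) * ∑ i, Real.cos (2 * Real.pi * ((ξ i).valMinAbs : ℝ) / n)

/-- the convolution sum which bounds the cross terms -/
noncomputable def Bx (ξ : Tor d n) : ℝ :=
  (NN d n)⁻¹ * ∑ η : Tor d n, if η = 0 ∨ η = ξ then 0 else
    1 / ((1 - lam η) * (1 - lam (ξ - η)))

/-- the charge at time `i`, anchor time `j`, horizon `H` -/
noncomputable def XX {E : Type} [AddCommGroup E] [Module ℝ E] (a : Fin 2 → Tor d n)
    (φ : Rec → E) (H j i : ℕ) (l : Fin 2) : E :=
  if i < j then rchg a (vbar a φ (H - 1 - j) j) i rec0 l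
  else ER j fun η => chg a φ (H - 1 - i) i (lrec a η 0 j) l

/-- replace all times `< s₁` by `e₀` -/
def kap (s₁ e₀ : ℕ) (r : Rec) : Rec := fun j => (r j).map fun s => if s < s₁ then e₀ else s

/-- the record with time `e₀` at the sites of `S` -/
def early (e₀ : ℕ) (S : Fin 2 → Bool) : Rec := fun j => if S j then some e₀ else none

/-- the set of visited sites -/
def vis (r : Rec) : Fin 2 → Bool := fun j => (r j).isSome

/-- add the site `l` -/
def ins (l : Fin 2) (S : Fin 2 → Bool) : Fin 2 → Bool := fun j => decide (j = l) || S j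

/-- `r` completed by `r'` -/
def cmb (r r' : Rec) : Rec := fun j => (r j).orElse fun _ => r' j

/-- shift of the times -/
def shr (s₁ : ℕ) (r : Rec) : Rec := fun j => (r j).map (· + s₁)

/-- expectation of `φ` at the record with the early visits `S` and the visits of a fresh walk
at the times `s₁ ≤ s < H` -/
noncomputable def fresh {E : Type} [AddCommGroup E] [Module ℝ E] (a : Fin 2 → Tor d n)
    (φ : Rec → E) (H s₁ e₀ : ℕ) (S : Fin 2 → Bool) : E :=
  ER (H - s₁) fun η => φ (cmb (early e₀ S) (shr s₁ (lrec a η 0 (H - s₁))))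

/-- the response of `φ` to an episode, computed with the first `s₀` steps -/
noncomputable def Xs {E : Type} [AddCommGroup E] [Module ℝ E] (a : Fin 2 → Tor d n)
    (φ : Rec → E) (H s₁ e₀ s₀ : ℕ) : E :=
  ∑ l, (pv a (fun r => fresh a φ H s₁ e₀ (ins l (vis r))) s₀ 0 rec0 (a l) -
    pv a (fun r => fresh a φ H s₁ e₀ (vis r)) s₀ 0 rec0 (a l))

/-- the low frequencies -/
noncomputable def XI (d n : ℕ) [NeZero n] (δ : ℝ) : Finset (Tor d n) :=
  univ.filter fun ξ => ξ ≠ 0 ∧ (nrm ξ : ℝ) ≤ δ * n

/-- the sum which gives the order of the variance -/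
noncomputable def SX (d n : ℕ) [NeZero n] (δ : ℝ) : ℝ := ∑ ξ ∈ XI d n δ, 1 / (1 - lam ξ) ^ 2

/-- the test statistic -/
noncomputable def Tst (δ : ℝ) (t₀ : ℕ) (η η' : ℕ → Tor d n) : ℝ :=
  (NN d n)⁻¹ * ∑ ξ ∈ XI d n δ, (∑ j ∈ Ico t₀ (2 * t₀), ∑ j' ∈ Ico (4 * t₀) (5 * t₀),
    ch ξ (η j - η' j')).re

end

/-- the order of the variance -/
noncomputable def hh (d n : ℕ) : ℝ :=
  if d = 3 then (n : ℝ) ^ 4 else if d = 4 then (n : ℝ) ^ 4 * Real.log n else (n : ℝ) ^ d

end CRW
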