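import Pool.Agent.Lib.CRW.PB1

/-!
# Module EA: the expectation `E2` and the variance `V2`

PROOFS.  `cavg` is a finite average (`card (Tor → Bool) = 2 ^ card Tor`).  `E2` is linear, monotone and `E2 1 = 1` (`EP_add`, `EP_smul`, `EP_mono`, `EP_const`, `EP_congr`,
`ER = EP`).  `E2_cs`: for all real `x`, `0 ≤ E2 ((F + x G)²) = E2 F² + 2x E2 (FG) + x² E2 G²` (`discrim_le_zero` or
`inner_mul_le_norm_mul_norm` style argument).  `V2_ge`: `E2 (F G) = E2 ((F - E2 F) G)` as `E2 G = 0`, `E2_cs`, `V2 F = E2 ((F - E2 F)²)`.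
`V2_sum_le`: `V2 F = E2 ((F - E2 F)²)` and `(∑_{i ∈ s} x_i)² ≤ #s ∑ x_i²` (`sq_sum_le_card_mul_sum_sq`).
`cavg_pair`: for `y 0 ≠ y 1` the map `c ↦ (c (y 0), c (y 1))` has fibres of equal size: for `u : Fin 2 → Bool` the involution which flips the coin at `y j`
(`Function.update c (y j) (!c (y j))`) is a bijection between fibres; so each of the 4 fibres has `2^card/4` elements.
`cavg_one`: the same for one site.
-/

open Finset

namespace CRW

variable {d n : ℕ} [NeZero n]

theorem cavg_add (F G : (Tor d n → Bool) → ℝ) :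
    cavg (fun c => F c + G c) = cavg F + cavg G := by
  unfold cavg
  rw [Finset.sum_add_distrib, mul_add]


theorem cavg_smul (x : ℝ) (F : (Tor d n → Bool) → ℝ) : cavg (fun c => x * F c) = x * cavg F := by
  unfold cavg
  rw [← Finset.mul_sum]
  ring


theorem cavg_const (x : ℝ) : cavg (fun _ : Tor d n → Bool => x) = x := by
  have h : Fintype.card (Tor d n → Bool) = 2 ^ Fintype.card (Tor d n) := by
    have := Fintype.card_fun (α := Tor d n) (β := Bool)
    rwa [Fintype.card_bool] at this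
  unfold cavg
  rw [Finset.sum_const, Finset.card_univ, h, nsmul_eq_mul, ← mul_assoc]
  push_cast
  rw [inv_mul_cancel₀ (by positivity), one_mul]


theorem cavg_mono {F G : (Tor d n → Bool) → ℝ} (h : ∀ c, F c ≤ G c) : cavg F ≤ cavg G := by
  unfold cavg
  exact mul_le_mul_of_nonneg_left (Finset.sum_le_sum fun c _ => h c) (by positivity)


theorem cavg_pair (G : (Fin 2 → Bool) → ℝ) (y : Fin 2 → Tor d n) (hy : y 0 ≠ y 1) :
    cavg (fun c => G fun j => c (y j)) = (∑ u, G u) / 4 := by
  classical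
  -- flipping the two coins
  let fl : (Fin 2 → Bool) → (Tor d n → Bool) → (Tor d n → Bool) := fun v c x =>
    xor (c x) (if x = y 0 then v 0 else if x = y 1 then v 1 else false)
  have hfl : ∀ v c, fl v (fl v c) = c := by
    intro v c
    funext x
    show xor (xor (c x) _) _ = c x
    rw [Bool.xor_assoc, Bool.xor_self, Bool.xor_false]
  have hinv : ∀ v, Function.Involutive (fl v) := fun v c => hfl v c
  have hpi : ∀ v c, (fun j => fl v c (y j)) = fun j => xor (c (y j)) (v j) := by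
    intro v c
    funext j
    fin_cases j
    · show xor (c (y 0)) (if y 0 = y 0 then v 0 else if y 0 = y 1 then v 1 else false) = _
      rw [if_pos rfl]
      rfl
    · show xor (c (y 1)) (if y 1 = y 0 then v 0 else if y 1 = y 1 then v 1 else false) = _
      rw [if_neg (Ne.symm hy), if_pos rfl]
      rfl
  have h1 : ∀ v : Fin 2 → Bool, ∑ c : Tor d n → Bool, G (fun j => c (y j)) =
      ∑ c : Tor d n → Bool, G (fun j => xor (c (y j)) (v j)) := by
    intro v
    rw [← Equiv.sum_comp (Function.Involutive.toPerm (fl v) (hinv v))]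
    apply Finset.sum_congr rfl
    intro c _
    show G (fun j => fl v c (y j)) = _
    rw [hpi]
  have h2 : ∀ w : Fin 2 → Bool, ∑ v : Fin 2 → Bool, G (fun j => xor (w j) (v j)) = ∑ u, G u := by
    intro w
    have hi : Function.Involutive (fun v : Fin 2 → Bool => fun j => xor (w j) (v j)) := by
      intro v
      funext j
      show xor (w j) (xor (w j) (v j)) = v j
      rw [← Bool.xor_assoc, Bool.xor_self, Bool.false_xor]
    exact Equiv.sum_comp (Function.Involutive.toPerm _ hi) G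
  have h3 : (4 : ℝ) * ∑ c : Tor d n → Bool, G (fun j => c (y j)) =
      (2 : ℝ) ^ Fintype.card (Tor d n) * ∑ u, G u := by
    calc (4 : ℝ) * ∑ c : Tor d n → Bool, G (fun j => c (y j)) =
          ∑ v : Fin 2 → Bool, ∑ c : Tor d n → Bool, G (fun j => c (y j)) := by
            rw [Finset.sum_const, Finset.card_univ, nsmul_eq_mul]
            norm_num [Fintype.card_fun]
      _ = ∑ v : Fin 2 → Bool, ∑ c : Tor d n → Bool, G (fun j => xor (c (y j)) (v j)) :=
          Finset.sum_congr rfl fun v _ => h1 v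
      _ = ∑ c : Tor d n → Bool, ∑ v : Fin 2 → Bool, G (fun j => xor (c (y j)) (v j)) :=
          Finset.sum_comm
      _ = ∑ c : Tor d n → Bool, ∑ u, G u :=
          Finset.sum_congr rfl fun c _ => h2 (fun j => c (y j))
      _ = _ := by
          rw [Finset.sum_const, Finset.card_univ, Fintype.card_fun, Fintype.card_bool, nsmul_eq_mul]
          push_cast
          rfl
  unfold cavg
  have h4 : ∑ c : Tor d n → Bool, G (fun j => c (y j)) =
      (2 : ℝ) ^ Fintype.card (Tor d n) * (∑ u, G u) / 4 := by linarith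
  rw [h4]
  field_simp


theorem E2_add (H : ℕ) (F G : (ℕ → Tor d n) → (ℕ → Tor d n) → (Tor d n → Bool) → ℝ) :
    E2 H (fun η η' c => F η η' c + G η η' c) = E2 H F + E2 H G := by
  unfold E2
  simp only [cavg_add]
  have h1 : ∀ η : ℕ → Tor d n, ER H (fun η' : ℕ → Tor d n => cavg (F η η') + cavg (G η η')) =
      ER H (fun η' => cavg (F η η')) + ER H (fun η' => cavg (G η η')) := fun η =>
    EP_add H (fun η' _ => cavg (F η η')) (fun η' _ => cavg (G η η'))
  simp only [h1]
  exact EP_add H (fun η _ => ER H fun η' => cavg (F η η'))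
    (fun η _ => ER H fun η' => cavg (G η η'))


theorem E2_smul (H : ℕ) (x : ℝ) (F : (ℕ → Tor d n) → (ℕ → Tor d n) → (Tor d n → Bool) → ℝ) :
    E2 H (fun η η' c => x * F η η' c) = x * E2 H F := by
  unfold E2
  simp only [cavg_smul]
  have h1 : ∀ η : ℕ → Tor d n, ER H (fun η' : ℕ → Tor d n => x * cavg (F η η')) =
      x * ER H (fun η' => cavg (F η η')) := fun η =>
    EP_smul H x (fun η' _ => cavg (F η η'))
  simp only [h1]
  exact EP_smul H x (fun η _ => ER H fun η' => cavg (F η η'))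


theorem E2_sum (H : ℕ) {ι : Type} (s : Finset ι)
    (F : ι → (ℕ → Tor d n) → (ℕ → Tor d n) → (Tor d n → Bool) → ℝ) :
    E2 H (fun η η' c => ∑ i ∈ s, F i η η' c) = ∑ i ∈ s, E2 H (F i) := by
  classical
  induction s using Finset.induction_on with
  | empty =>
    simp only [Finset.sum_empty]
    have := E2_smul H 0 (fun (_ _ : ℕ → Tor d n) _ => (0 : ℝ))
    simpa using this
  | insert i s his ih =>
    simp only [Finset.sum_insert his]
    rw [E2_add H (F i) (fun η η' c => ∑ i ∈ s, F i η η' c), ih]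


theorem E2_const (hd : 1 ≤ d) (H : ℕ) (x : ℝ) :
    E2 H (fun (_ _ : ℕ → Tor d n) _ => x) = x := by
  unfold E2
  simp only [cavg_const]
  have h1 : ER H (fun _ : ℕ → Tor d n => x) = x := EP_const hd H x
  rw [h1, h1]


theorem E2_mono (H : ℕ) (F G : (ℕ → Tor d n) → (ℕ → Tor d n) → (Tor d n → Bool) → ℝ)
    (h : ∀ η η' c, F η η' c ≤ G η η' c) : E2 H F ≤ E2 H G := by
  unfold E2
  exact EP_mono H _ _ fun η _ => EP_mono H _ _ fun η' _ => cavg_mono (h η η')


theorem E2_cs (H : ℕ) (F G : (ℕ → Tor d n) → (ℕ → Tor d n) → (Tor d n → Bool) → ℝ) :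
    E2 H (fun η η' c => F η η' c * G η η' c) ^ 2 ≤
      E2 H (fun η η' c => F η η' c ^ 2) * E2 H (fun η η' c => G η η' c ^ 2) := by
  have h0 : 0 = E2 H (fun (_ _ : ℕ → Tor d n) _ => (0 : ℝ)) := by
    have := E2_smul H 0 (fun (_ _ : ℕ → Tor d n) _ => (0 : ℝ))
    simpa using this.symm
  have h1 : ∀ x : ℝ, 0 ≤ E2 H (fun η η' c => G η η' c ^ 2) * (x * x) +
      (2 * E2 H (fun η η' c => F η η' c * G η η' c)) * x + E2 H (fun η η' c => F η η' c ^ 2) := by
    intro x
    have h2 : E2 H (fun η η' c => (F η η' c + x * G η η' c) ^ 2) =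
        E2 H (fun η η' c => G η η' c ^ 2) * (x * x) +
        (2 * E2 H (fun η η' c => F η η' c * G η η' c)) * x +
        E2 H (fun η η' c => F η η' c ^ 2) := by
      have h3 : (fun η η' c => (F η η' c + x * G η η' c) ^ 2) =
          fun η η' c => (x * x) * G η η' c ^ 2 + ((2 * x) * (F η η' c * G η η' c) +
            F η η' c ^ 2) := by
        funext η η' c
        ring
      rw [h3, E2_add H (fun η η' c => (x * x) * G η η' c ^ 2)
        (fun η η' c => (2 * x) * (F η η' c * G η η' c) + F η η' c ^ 2),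
        E2_add H (fun η η' c => (2 * x) * (F η η' c * G η η' c)) (fun η η' c => F η η' c ^ 2),
        E2_smul H (x * x) (fun η η' c => G η η' c ^ 2),
        E2_smul H (2 * x) (fun η η' c => F η η' c * G η η' c)]
      ring
    rw [← h2, h0]
    exact E2_mono H _ _ fun η η' c => sq_nonneg _
  have h2 := discrim_le_zero h1
  unfold discrim at h2
  nlinarith


theorem V2_eq (hd : 1 ≤ d) (H : ℕ)
    (F : (ℕ → Tor d n) → (ℕ → Tor d n) → (Tor d n → Bool) → ℝ) :
    V2 H F = E2 H fun η η' c => (F η η' c - E2 H F) ^ 2 := by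
  unfold V2
  have h3 : (fun η η' c => (F η η' c - E2 H F) ^ 2) =
      fun η η' c => F η η' c ^ 2 + ((-2 * E2 H F) * F η η' c + E2 H F ^ 2) := by
    funext η η' c
    ring
  rw [h3, E2_add H (fun η η' c => F η η' c ^ 2)
    (fun η η' c => (-2 * E2 H F) * F η η' c + E2 H F ^ 2),
    E2_add H (fun η η' c => (-2 * E2 H F) * F η η' c) (fun _ _ _ => E2 H F ^ 2),
    E2_smul H (-2 * E2 H F) F, E2_const hd]
  ring


theorem V2_nonneg (hd : 1 ≤ d) (H : ℕ)
    (F : (ℕ → Tor d n) → (ℕ → Tor d n) → (Tor d n → Bool) → ℝ) : 0 ≤ V2 H F := by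
  rw [V2_eq hd]
  have h0 := E2_const (d := d) (n := n) hd H 0
  rw [← h0]
  exact E2_mono H _ _ fun η η' c => sq_nonneg _


theorem V2_ge (hd : 1 ≤ d) (H : ℕ)
    (F G : (ℕ → Tor d n) → (ℕ → Tor d n) → (Tor d n → Bool) → ℝ) (hG : E2 H G = 0) :
    E2 H (fun η η' c => F η η' c * G η η' c) ^ 2 ≤ V2 H F * E2 H (fun η η' c => G η η' c ^ 2) := by
  have h1 : E2 H (fun η η' c => F η η' c * G η η' c) =
      E2 H (fun η η' c => (F η η' c - E2 H F) * G η η' c) := by
    have h3 : (fun η η' c => (F η η' c - E2 H F) * G η η' c) =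
        fun η η' c => F η η' c * G η η' c + (-E2 H F) * G η η' c := by
      funext η η' c
      ring
    rw [h3, E2_add H (fun η η' c => F η η' c * G η η' c) (fun η η' c => (-E2 H F) * G η η' c),
      E2_smul, hG]
    ring
  rw [h1, V2_eq hd]
  exact E2_cs H (fun η η' c => F η η' c - E2 H F) G


theorem V2_sum_le (hd : 1 ≤ d) (H : ℕ) {ι : Type} (s : Finset ι)
    (F : ι → (ℕ → Tor d n) → (ℕ → Tor d n) → (Tor d n → Bool) → ℝ) :
    V2 H (fun η η' c => ∑ i ∈ s, F i η η' c) ≤ s.card * ∑ i ∈ s, V2 H (F i) := by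
  rw [V2_eq hd, E2_sum]
  have h1 : ∀ i ∈ s, V2 H (F i) = E2 H fun η η' c => (F i η η' c - E2 H (F i)) ^ 2 :=
    fun i _ => V2_eq hd H (F i)
  rw [Finset.sum_congr rfl h1, ← E2_sum H s (fun i η η' c => (F i η η' c - E2 H (F i)) ^ 2),
    ← E2_smul]
  refine E2_mono H _ _ fun η η' c => ?_
  rw [← Finset.sum_sub_distrib]
  exact sq_sum_le_card_mul_sum_sq


end CRW
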