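import Pool.Agent.Lib.CRW.PA2

/-!
# Module PB1: the expectations `EP`, `ER`
-/

open Finset

namespace CRW

variable {d n : ℕ} [NeZero n]

section
variable {E : Type} [AddCommGroup E] [Module ℝ E]

private theorem EP_zero' (g : (ℕ → Tor d n) → Tor d n → E) :
    EP 0 g = (NN d n)⁻¹ • ∑ b, g (fun _ => 0) b := rfl

private theorem EP_succ' (t : ℕ) (g : (ℕ → Tor d n) → Tor d n → E) :
    EP (t + 1) g = EP t fun η b => ∑ w, stp d n w • g (Function.update η t b) (b + w) := rfl

theorem EP_add (t : ℕ) (g h : (ℕ → Tor d n) → Tor d n → E) :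
    EP t (fun η b => g η b + h η b) = EP t g + EP t h := by
  induction t generalizing g h with
  | zero => simp only [EP_zero', Finset.sum_add_distrib, smul_add]
  | succ t ih =>
    rw [EP_succ', EP_succ', EP_succ', ← ih]
    simp only [Finset.sum_add_distrib, smul_add]

theorem EP_smul (t : ℕ) (c : ℝ) (g : (ℕ → Tor d n) → Tor d n → E) :
    EP t (fun η b => c • g η b) = c • EP t g := by
  induction t generalizing g with
  | zero =>
    simp only [EP_zero']
    rw [← Finset.smul_sum, smul_comm]
  | succ t ih =>
    rw [EP_succ', EP_succ', ← ih]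
    congr 1
    funext η b
    rw [Finset.smul_sum]
    exact Finset.sum_congr rfl fun w _ => smul_comm _ _ _

theorem EP_sub (t : ℕ) (g h : (ℕ → Tor d n) → Tor d n → E) :
    EP t (fun η b => g η b - h η b) = EP t g - EP t h := by
  induction t generalizing g h with
  | zero => simp only [EP_zero', Finset.sum_sub_distrib, smul_sub]
  | succ t ih =>
    rw [EP_succ', EP_succ', EP_succ', ← ih]
    simp only [Finset.sum_sub_distrib, smul_sub]

private theorem EP_zero_fun (t : ℕ) :
    EP t (fun (_ : ℕ → Tor d n) (_ : Tor d n) => (0 : E)) = 0 := by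
  have h := EP_smul t (0 : ℝ) (fun (_ : ℕ → Tor d n) (_ : Tor d n) => (0 : E))
  simpa using h

theorem EP_sum {ι : Type} (t : ℕ) (s : Finset ι) (g : ι → (ℕ → Tor d n) → Tor d n → E) :
    EP t (fun η b => ∑ i ∈ s, g i η b) = ∑ i ∈ s, EP t (g i) := by
  classical
  induction s using Finset.induction_on with
  | empty => simp only [Finset.sum_empty]; exact EP_zero_fun t
  | insert i s his ih =>
    simp only [Finset.sum_insert his]
    rw [EP_add t (g i) (fun η b => ∑ i ∈ s, g i η b), ih]

private theorem sum_stp_shift (hd : 1 ≤ d) (h : Tor d n → E) :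
    ∑ b, ∑ w, stp d n w • h (b + w) = ∑ b, h b := by
  rw [Finset.sum_comm]
  have : ∀ w : Tor d n, ∑ b, stp d n w • h (b + w) = stp d n w • ∑ b, h b := by
    intro w
    rw [← Finset.smul_sum]
    congr 1
    exact Fintype.sum_equiv (Equiv.addRight w) _ _ (fun b => rfl)
  rw [Finset.sum_congr rfl fun w _ => this w, ← Finset.sum_smul, stp_sum hd, one_smul]

theorem EP_unif (t : ℕ) (hd : 1 ≤ d) (h : Tor d n → E) :
    EP t (fun _ b => h b) = (NN d n)⁻¹ • ∑ b, h b := by
  induction t generalizing h with
  | zero => rfl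
  | succ t ih =>
    rw [EP_succ', ih (fun b => ∑ w, stp d n w • h (b + w)), sum_stp_shift hd]

theorem EP_const (hd : 1 ≤ d) (t : ℕ) (c : E) : EP t (fun (_ : ℕ → Tor d n) _ => c) = c := by
  rw [EP_unif t hd (fun _ => c), Finset.sum_const, Finset.card_univ, ← Nat.cast_smul_eq_nsmul ℝ,
    smul_smul, card_tor, inv_mul_cancel₀ NN_pos.ne', one_smul]

theorem EP_congr (t : ℕ) (g h : (ℕ → Tor d n) → Tor d n → E)
    (H : ∀ η b, (∀ s, t ≤ s → η s = 0) → g η b = h η b) : EP t g = EP t h := by
  induction t generalizing g h with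
  | zero =>
    rw [EP_zero', EP_zero']
    congr 1
    exact Finset.sum_congr rfl fun b _ => H _ b fun _ _ => rfl
  | succ t ih =>
    rw [EP_succ', EP_succ']
    refine ih _ _ fun η b hη => ?_
    refine Finset.sum_congr rfl fun w _ => ?_
    congr 1
    refine H _ _ fun s hs => ?_
    rw [Function.update_of_ne (by omega)]
    exact hη s (by omega)

theorem ER_succ (hd : 1 ≤ d) (t : ℕ) (F : (ℕ → Tor d n) → E) :
    ER (t + 1) F = EP t fun η b => F (Function.update η t b) := by
  unfold ER
  rw [EP_succ']
  congr 1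
  funext η b
  rw [← Finset.sum_smul, stp_sum hd, one_smul]

theorem EP_map {E' : Type} [AddCommGroup E'] [Module ℝ E'] (f : E →ₗ[ℝ] E') (t : ℕ)
    (g : (ℕ → Tor d n) → Tor d n → E) : EP t (fun η b => f (g η b)) = f (EP t g) := by
  induction t generalizing g with
  | zero =>
    simp only [EP_zero', map_smul, map_sum]
  | succ t ih =>
    rw [EP_succ', EP_succ', ← ih]
    simp only [map_smul, map_sum]

end

private theorem EP_zeroR (g : (ℕ → Tor d n) → Tor d n → ℝ) :
    EP 0 g = (NN d n)⁻¹ * ∑ b, g (fun _ => 0) b := rfl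

private theorem EP_succR (t : ℕ) (g : (ℕ → Tor d n) → Tor d n → ℝ) :
    EP (t + 1) g = EP t fun η b => ∑ w, stp d n w * g (Function.update η t b) (b + w) := rfl

theorem EP_mono (t : ℕ) (g h : (ℕ → Tor d n) → Tor d n → ℝ) (H : ∀ η b, g η b ≤ h η b) :
    EP t g ≤ EP t h := by
  induction t generalizing g h with
  | zero =>
    rw [EP_zeroR, EP_zeroR]
    exact mul_le_mul_of_nonneg_left (Finset.sum_le_sum fun b _ => H _ b) (inv_nonneg.2 NN_pos.le)
  | succ t ih =>
    rw [EP_succR, EP_succR]
    refine ih _ _ fun η b => ?_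
    exact Finset.sum_le_sum fun w _ => mul_le_mul_of_nonneg_left (H _ _) (stp_nonneg w)

theorem EP_nonneg (t : ℕ) (g : (ℕ → Tor d n) → Tor d n → ℝ) (H : ∀ η b, 0 ≤ g η b) :
    0 ≤ EP t g := by
  have h := EP_mono t (fun _ _ => 0) g H
  rwa [EP_zero_fun] at h

theorem norm_EP_le {E : Type} [NormedAddCommGroup E] [NormedSpace ℝ E] (t : ℕ)
    (g : (ℕ → Tor d n) → Tor d n → E) : ‖EP t g‖ ≤ EP t fun η b => ‖g η b‖ := by
  induction t generalizing g with
  | zero =>
    rw [EP_zeroR, EP_zero', norm_smul, Real.norm_of_nonneg (inv_nonneg.2 NN_pos.le)]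
    exact mul_le_mul_of_nonneg_left (norm_sum_le _ _) (inv_nonneg.2 NN_pos.le)
  | succ t ih =>
    rw [EP_succR, EP_succ']
    refine (ih _).trans (EP_mono t _ _ fun η b => ?_)
    refine (norm_sum_le _ _).trans (Finset.sum_le_sum fun w _ => ?_)
    rw [norm_smul, Real.norm_of_nonneg (stp_nonneg w)]

private theorem EP_comm {E : Type} [AddCommGroup E] [Module ℝ E] (s t : ℕ)
    (G : (ℕ → Tor d n) → Tor d n → (ℕ → Tor d n) → Tor d n → E) :
    EP s (fun η a => EP t fun η' b => G η a η' b) = EP t fun η' b => EP s fun η a => G η a η' b := by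
  induction s generalizing G with
  | zero =>
    simp only [EP_zero']
    rw [← EP_sum t Finset.univ (fun a η' b => G (fun _ => 0) a η' b), ← EP_smul]
  | succ s ih =>
    rw [EP_succ']
    have h1 : ∀ (η : ℕ → Tor d n) (a : Tor d n),
        (∑ w, stp d n w • EP t fun η' b => G (Function.update η s a) (a + w) η' b) =
        EP t fun η' b => ∑ w, stp d n w • G (Function.update η s a) (a + w) η' b := by
      intro η a
      rw [EP_sum t Finset.univ (fun w η' b => stp d n w • G (Function.update η s a) (a + w) η' b)]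
      exact Finset.sum_congr rfl fun w _ => (EP_smul t _ _).symm
    simp only [h1]
    rw [ih (fun η a η' b => ∑ w, stp d n w • G (Function.update η s a) (a + w) η' b)]
    rfl

/-- two independent walks: the expectations commute -/
theorem ER_comm {E : Type} [AddCommGroup E] [Module ℝ E] (s t : ℕ)
    (G : (ℕ → Tor d n) → (ℕ → Tor d n) → E) :
    ER s (fun η => ER t fun η' => G η η') = ER t fun η' => ER s fun η => G η η' :=
  EP_comm s t fun η _ η' _ => G η η'

omit [NeZero n] in
theorem frec_congr {η η' : ℕ → Tor d n} (x : Tor d n) (t : ℕ) (h : ∀ s < t, η s = η' s) :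
    frec η x t = frec η' x t := by
  induction t with
  | zero => rfl
  | succ t ih =>
    unfold frec
    rw [ih fun s hs => h s (by omega), h t (by omega)]

omit [NeZero n] in
theorem frec_eq_none {η : ℕ → Tor d n} {x : Tor d n} {t : ℕ} :
    frec η x t = none ↔ ∀ s < t, η s ≠ x := by
  induction t with
  | zero => simp [frec]
  | succ t ih =>
    constructor
    · intro h s hs
      unfold frec at h
      cases hf : frec η x t with
      | some v => rw [hf] at h; simp at h
      | none =>
        rw [hf] at h
        rcases Nat.lt_succ_iff_lt_or_eq.1 hs with h1 | h1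
        · exact ih.1 hf s h1
        · subst h1
          intro he
          simp [he] at h
    · intro h
      unfold frec
      rw [ih.2 fun s hs => h s (by omega)]
      simp [h t (by omega)]

omit [NeZero n] in
theorem frec_lt {η : ℕ → Tor d n} {x : Tor d n} {t s : ℕ} (h : frec η x t = some s) :
    s < t ∧ η s = x ∧ ∀ s' < s, η s' ≠ x := by
  induction t with
  | zero => simp [frec] at h
  | succ t ih =>
    unfold frec at h
    cases hf : frec η x t with
    | some v =>
      rw [hf] at h
      simp at h
      subst h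
      obtain ⟨h1, h2, h3⟩ := ih hf
      exact ⟨by omega, h2, h3⟩
    | none =>
      rw [hf] at h
      by_cases he : η t = x
      · simp [he] at h
        subst h
        exact ⟨by omega, he, fun s' hs' => frec_eq_none.1 hf s' hs'⟩
      · simp [he] at h

omit [NeZero n] in
theorem lrec_congr (a : Fin 2 → Tor d n) {η η' : ℕ → Tor d n} (x : Tor d n) (t : ℕ)
    (h : ∀ s < t, η s = η' s) : lrec a η x t = lrec a η' x t := by
  funext j
  exact frec_congr (x + a j) t h

omit [NeZero n] in
theorem lrec_succ (a : Fin 2 → Tor d n) (η : ℕ → Tor d n) (x : Tor d n) (t : ℕ) :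
    lrec a η x (t + 1) = upd a t (η t - x) (lrec a η x t) := by
  funext j
  show (frec η (x + a j) t).orElse (fun _ => if η t = x + a j then some t else none) =
    (frec η (x + a j) t).orElse fun _ => if η t - x = a j then some t else none
  have : (η t = x + a j) ↔ (η t - x = a j) := by
    rw [sub_eq_iff_eq_add, add_comm]
  simp only [this]

omit [NeZero n] in
theorem lrec_update_succ (a : Fin 2 → Tor d n) (η : ℕ → Tor d n) (x b : Tor d n) (t : ℕ) :
    lrec a (Function.update η t b) x (t + 1) = upd a t (b - x) (lrec a η x t) := by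
  rw [lrec_succ, Function.update_self,
    lrec_congr a x t (η := Function.update η t b) (η' := η)
      (fun s hs => Function.update_of_ne (by omega) _ _)]

omit [NeZero n] in
theorem lrec_shift (a : Fin 2 → Tor d n) (η : ℕ → Tor d n) (x y : Tor d n) (t : ℕ) :
    lrec a (fun s => η s + y) (x + y) t = lrec a η x t := by
  induction t with
  | zero => rfl
  | succ t ih =>
    rw [lrec_succ, lrec_succ, ih]
    have : (fun s => η s + y) t - (x + y) = η t - x := by
      show η t + y - (x + y) = η t - x
      abel
    rw [this]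

end CRW
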