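import Pool.Agent.Lib.CRW.Model
import Pool.Agent.Lib.CRW.PB1

/-!
# Module F1: `ER` as a sum over paths

PROOF.  `ext H x` extends a path `x : Fin H → Tor` by `0`.  Prove by induction on `t`:
`EP t g = ∑ x : Fin (t+1) → Tor, pathP t (ext (t+1) x) * g (ext t (fun s => x s.castSucc)) (x (Fin.last t))`.
`t = 0`: `Fin 1 → Tor` is `Tor`, `pathP 0 = NN⁻¹`, `ext 0 _ = fun _ => 0`.  Step: `EP (t+1) g = EP t (fun η b => ∑ w, stp w * g (update η t b) (b + w))`;
`update (ext t (x ∘ castSucc)) t (x last) = ext (t+1) x`; substitute `y = x last + w`; `Fin.snocEquiv`/`Fin.snoc` to sum over `(x, y)`;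
`pathP (t+1) x' = pathP t x' * stp (x' (t+1) - x' t)` (`prod_range_succ`, the first factors only depend on times `≤ t`).
`ER (T+1) F = EP T (fun η b => F (update η T b))` (`ER_succ`) and `update (ext T ..) T (x last) = ext (T+1) x`.
-/

open Finset

namespace CRW

variable {d n : ℕ}

/-- extend a finite path by `0` -/
def ext (H : ℕ) (x : Fin H → Tor d n) : ℕ → Tor d n := fun t => if h : t < H then x ⟨t, h⟩ else 0

private theorem ext_lt {H : ℕ} (x : Fin H → Tor d n) {t : ℕ} (h : t < H) : ext H x t = x ⟨t, h⟩ := by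
  unfold ext
  rw [dif_pos h]

private theorem ext_ge {H : ℕ} (x : Fin H → Tor d n) {t : ℕ} (h : H ≤ t) : ext H x t = 0 := by
  unfold ext
  rw [dif_neg (by omega)]

private theorem update_ext (t : ℕ) (x : Fin (t + 1) → Tor d n) :
    Function.update (ext t (fun s => x s.castSucc)) t (x (Fin.last t)) = ext (t + 1) x := by
  funext s
  rcases lt_trichotomy s t with h | h | h
  · rw [Function.update_of_ne (by omega), ext_lt _ h, ext_lt _ (by omega)]
    rfl
  · subst h
    rw [Function.update_self, ext_lt _ (by omega)]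
    rfl
  · rw [Function.update_of_ne (by omega), ext_ge _ (by omega), ext_ge _ (by omega)]

theorem pathP_congr (T : ℕ) (x y : ℕ → Tor d n) (h : ∀ t ≤ T, x t = y t) :
    pathP T x = pathP T y := by
  unfold pathP
  congr 1
  refine Finset.prod_congr rfl fun t ht => ?_
  rw [Finset.mem_range] at ht
  rw [h t (by omega), h (t + 1) (by omega)]

theorem pathP_nonneg [NeZero n] (T : ℕ) (x : ℕ → Tor d n) : 0 ≤ pathP T x := by
  unfold pathP
  exact mul_nonneg (inv_nonneg.2 NN_pos.le) (Finset.prod_nonneg fun t _ => stp_nonneg _)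

private theorem ext_snoc (t : ℕ) (x : Fin (t + 1) → Tor d n) (y : Tor d n) {s : ℕ} (h : s ≤ t) :
    ext (t + 1 + 1) (Fin.snoc (α := fun _ => Tor d n) x y) s = ext (t + 1) x s := by
  rw [ext_lt _ (by omega), ext_lt _ (by omega)]
  have : (⟨s, by omega⟩ : Fin (t + 1 + 1)) = Fin.castSucc ⟨s, by omega⟩ := rfl
  rw [this, Fin.snoc_castSucc]

private theorem pathP_snoc (t : ℕ) (x : Fin (t + 1) → Tor d n) (y : Tor d n) :
    pathP (t + 1) (ext (t + 1 + 1) (Fin.snoc (α := fun _ => Tor d n) x y)) =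
      pathP t (ext (t + 1) x) * stp d n (y - x (Fin.last t)) := by
  have h1 : pathP (t + 1) (ext (t + 1 + 1) (Fin.snoc (α := fun _ => Tor d n) x y)) =
      pathP t (ext (t + 1 + 1) (Fin.snoc (α := fun _ => Tor d n) x y)) *
        stp d n (ext (t + 1 + 1) (Fin.snoc (α := fun _ => Tor d n) x y) (t + 1) -
          ext (t + 1 + 1) (Fin.snoc (α := fun _ => Tor d n) x y) t) := by
    unfold pathP
    rw [Finset.prod_range_succ, mul_assoc]
  rw [h1, pathP_congr t _ (ext (t + 1) x) fun s hs => ext_snoc t x y hs, ext_snoc t x y le_rfl]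
  congr 2
  have h2 : ext (t + 1 + 1) (Fin.snoc (α := fun _ => Tor d n) x y) (t + 1) = y := by
    rw [ext_lt _ (by omega)]
    have : (⟨t + 1, by omega⟩ : Fin (t + 1 + 1)) = Fin.last (t + 1) := rfl
    rw [this, Fin.snoc_last]
  have h3 : ext (t + 1) x t = x (Fin.last t) := by
    rw [ext_lt _ (by omega)]
    rfl
  rw [h2, h3]

private theorem EP_eq_sum [NeZero n] (t : ℕ) (g : (ℕ → Tor d n) → Tor d n → ℝ) :
    EP t g = ∑ x : Fin (t + 1) → Tor d n, pathP t (ext (t + 1) x) *
      g (ext t (fun s => x s.castSucc)) (x (Fin.last t)) := by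
  induction t generalizing g with
  | zero =>
    have h1 : EP 0 g = (NN d n)⁻¹ * ∑ b, g (fun _ => 0) b := rfl
    rw [h1, Finset.mul_sum]
    refine Fintype.sum_equiv (Equiv.funUnique (Fin 1) (Tor d n)).symm _ _ fun b => ?_
    have h2 : ∀ y : ℕ → Tor d n, pathP 0 y = (NN d n)⁻¹ := by
      intro y
      unfold pathP
      rw [Finset.range_zero, Finset.prod_empty, mul_one]
    rw [h2]
    have h3 : ∀ y : Fin 0 → Tor d n, ext 0 y = fun _ => 0 := by
      intro y
      funext s
      exact ext_ge _ (Nat.zero_le s)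
    rw [h3]
    rfl
  | succ t ih =>
    have h1 : EP (t + 1) g =
        EP t fun η b => ∑ w, stp d n w * g (Function.update η t b) (b + w) := rfl
    rw [h1, ih]
    rw [← (Fin.snocEquiv (fun _ : Fin (t + 1 + 1) => Tor d n)).sum_comp]
    rw [Fintype.sum_prod_type, Finset.sum_comm]
    refine Finset.sum_congr rfl fun x _ => ?_
    rw [update_ext, Finset.mul_sum]
    refine Fintype.sum_equiv (Equiv.addLeft (x (Fin.last t))) _ _ fun w => ?_
    have h2 : (Fin.snocEquiv (fun _ : Fin (t + 1 + 1) => Tor d n))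
        (Equiv.addLeft (x (Fin.last t)) w, x) =
        Fin.snoc (α := fun _ => Tor d n) x (x (Fin.last t) + w) := rfl
    rw [h2, pathP_snoc]
    simp only [Fin.snoc_castSucc, Fin.snoc_last]
    rw [add_sub_cancel_left, mul_assoc]

theorem ER_eq_sum [NeZero n] (hd : 1 ≤ d) (T : ℕ) (F : (ℕ → Tor d n) → ℝ) :
    ER (T + 1) F = ∑ x : Fin (T + 1) → Tor d n, pathP T (ext (T + 1) x) * F (ext (T + 1) x) := by
  rw [ER_succ hd, EP_eq_sum]
  refine Finset.sum_congr rfl fun x _ => ?_
  rw [update_ext]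

end CRW
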