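import Pool.Agent.Lib.CRW.F1

/-!
# Module F2: expectations under the model

PROOF.  Pointwise `G (X 0 ω) (X 1 ω) (coin ω) = ∑ x, ∑ y, ∑ c, indicator (S x y c) (fun _ => G (ext x) (ext y) c) ω`, where
`S x y c = {ω | (∀ t ≤ T, X 0 t ω = ext x t) ∧ (∀ t ≤ T, X 1 t ω = ext y t) ∧ ∀ z, coin z ω = c z}`, `x, y : Fin (T+1) → Tor`, `c : Tor → Bool`: exactly one term is present (`x t = X 0 t ω`
etc.), and `hG`.  The sets are measurable (`measX`, `measC`, finite intersections; `{coin = false}` is the complement), `integral_finset_sum`,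
`integral_indicator_const`, `law`, `ENNReal.toReal_ofReal` (`pathP_nonneg`).  Then `ER_eq_sum` for both walks and the definition of `cavg`
(`(1/2)^card = (2^card)⁻¹`).
-/

open Finset

namespace CRW

open MeasureTheory

variable {d n : ℕ} [NeZero n] {Ω : Type*} [MeasurableSpace Ω] {P : Measure Ω}

omit [NeZero n] in
private theorem f2_ext (T : ℕ) (x : Fin (T + 1) → Tor d n) (t : ℕ) (ht : t ≤ T) :
    ext (T + 1) x t = x ⟨t, Nat.lt_succ_of_le ht⟩ := by
  unfold ext
  rw [dif_pos (Nat.lt_succ_of_le ht)]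

private def f2_S (M : Model d n P) (T : ℕ)
    (v : (Fin (T + 1) → Tor d n) × (Fin (T + 1) → Tor d n) × (Tor d n → Bool)) : Set Ω :=
  {ω | (∀ t ≤ T, M.X 0 t ω = ext (T + 1) v.1 t) ∧ (∀ t ≤ T, M.X 1 t ω = ext (T + 1) v.2.1 t) ∧
    ∀ z, M.coin z ω = v.2.2 z}

private theorem f2_meas (M : Model d n P) (T : ℕ)
    (v : (Fin (T + 1) → Tor d n) × (Fin (T + 1) → Tor d n) × (Tor d n → Bool)) :
    MeasurableSet (f2_S M T v) := by
  have h1 : f2_S M T v = (⋂ t : ℕ, ⋂ _ : t ≤ T, {ω | M.X 0 t ω = ext (T + 1) v.1 t}) ∩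
      ((⋂ t : ℕ, ⋂ _ : t ≤ T, {ω | M.X 1 t ω = ext (T + 1) v.2.1 t}) ∩
        ⋂ z : Tor d n, {ω | M.coin z ω = v.2.2 z}) := by
    ext ω
    simp only [f2_S, Set.mem_ofPred_eq, Set.mem_inter_iff, Set.mem_iInter]
  rw [h1]
  refine MeasurableSet.inter (MeasurableSet.iInter fun t => MeasurableSet.iInter fun _ =>
    M.measX 0 t _) (MeasurableSet.inter (MeasurableSet.iInter fun t =>
      MeasurableSet.iInter fun _ => M.measX 1 t _) (MeasurableSet.iInter fun z => ?_))
  cases hz : v.2.2 z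
  · have h2 : {ω | M.coin z ω = false} = {ω | M.coin z ω = true}ᶜ := by
      ext ω
      simp
    rw [h2]
    exact (M.measC z).compl
  · exact M.measC z

private theorem f2_pt (M : Model d n P) (T : ℕ)
    (G : (ℕ → Tor d n) → (ℕ → Tor d n) → (Tor d n → Bool) → ℝ)
    (hG : ∀ η η' ζ ζ' c, (∀ t ≤ T, η t = ζ t) → (∀ t ≤ T, η' t = ζ' t) → G η η' c = G ζ ζ' c)
    (ω : Ω) :
    G (fun t => M.X 0 t ω) (fun t => M.X 1 t ω) (fun z => M.coin z ω) =
      ∑ v : (Fin (T + 1) → Tor d n) × (Fin (T + 1) → Tor d n) × (Tor d n → Bool),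
        (f2_S M T v).indicator (fun _ => G (ext (T + 1) v.1) (ext (T + 1) v.2.1) v.2.2) ω := by
  classical
  rw [Finset.sum_eq_single ((fun t => M.X 0 t ω, fun t => M.X 1 t ω, fun z => M.coin z ω) :
    (Fin (T + 1) → Tor d n) × (Fin (T + 1) → Tor d n) × (Tor d n → Bool))]
  · rw [Set.indicator_of_mem]
    · refine hG _ _ _ _ _ (fun t ht => ?_) (fun t ht => ?_)
      · rw [f2_ext T _ t ht]
      · rw [f2_ext T _ t ht]
    · refine ⟨fun t ht => ?_, fun t ht => ?_, fun z => rfl⟩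
      · rw [f2_ext T _ t ht]
      · rw [f2_ext T _ t ht]
  · intro v _ hv
    rw [Set.indicator_of_notMem]
    rintro ⟨h1, h2, h3⟩
    apply hv
    refine Prod.ext ?_ (Prod.ext ?_ ?_)
    · funext t
      have h4 := h1 t (Nat.le_of_lt_succ t.2)
      rw [f2_ext T _ t (Nat.le_of_lt_succ t.2)] at h4
      exact h4.symm
    · funext t
      have h4 := h2 t (Nat.le_of_lt_succ t.2)
      rw [f2_ext T _ t (Nat.le_of_lt_succ t.2)] at h4
      exact h4.symm
    · funext z
      exact (h3 z).symm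
  · intro h
    exact absurd (Finset.mem_univ _) h

theorem integral_eq [IsProbabilityMeasure P] (hd : 1 ≤ d) (M : Model d n P) (T : ℕ)
    (G : (ℕ → Tor d n) → (ℕ → Tor d n) → (Tor d n → Bool) → ℝ)
    (hG : ∀ η η' ζ ζ' c, (∀ t ≤ T, η t = ζ t) → (∀ t ≤ T, η' t = ζ' t) → G η η' c = G ζ ζ' c) :
    ∫ ω, G (fun t => M.X 0 t ω) (fun t => M.X 1 t ω) (fun z => M.coin z ω) ∂P =
      E2 (T + 1) G := by
  simp only [f2_pt M T G hG]
  rw [integral_finsetSum _ fun v _ => (integrable_const _).indicator (f2_meas M T v)]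
  simp only [integral_indicator_const _ (f2_meas M T _)]
  unfold E2
  rw [ER_eq_sum hd, Fintype.sum_prod_type]
  refine Finset.sum_congr rfl fun x _ => ?_
  rw [ER_eq_sum hd, Fintype.sum_prod_type, Finset.mul_sum]
  refine Finset.sum_congr rfl fun y _ => ?_
  unfold cavg
  rw [Finset.mul_sum, Finset.mul_sum, Finset.mul_sum]
  refine Finset.sum_congr rfl fun c _ => ?_
  have h1 : P.real (f2_S M T (x, y, c)) = pathP T (ext (T + 1) x) * pathP T (ext (T + 1) y) *
      (1 / 2) ^ Fintype.card (Tor d n) := by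
    rw [Measure.real]
    have h2 : P (f2_S M T (x, y, c)) = ENNReal.ofReal (pathP T (ext (T + 1) x) *
        pathP T (ext (T + 1) y) * (1 / 2) ^ Fintype.card (Tor d n)) :=
      M.law T (ext (T + 1) x) (ext (T + 1) y) c
    rw [h2, ENNReal.toReal_ofReal]
    exact mul_nonneg (mul_nonneg (pathP_nonneg _ _) (pathP_nonneg _ _)) (by positivity)
  rw [h1, smul_eq_mul, one_div, inv_pow]
  ring

/-- such functions are measurable -/
theorem measurable_of_local (M : Model d n P) (T : ℕ)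
    (G : (ℕ → Tor d n) → (ℕ → Tor d n) → (Tor d n → Bool) → ℝ)
    (hG : ∀ η η' ζ ζ' c, (∀ t ≤ T, η t = ζ t) → (∀ t ≤ T, η' t = ζ' t) → G η η' c = G ζ ζ' c) :
    Measurable fun ω => G (fun t => M.X 0 t ω) (fun t => M.X 1 t ω) (fun z => M.coin z ω) := by
  simp only [f2_pt M T G hG]
  exact Finset.measurable_sum _ fun v _ => measurable_const.indicator (f2_meas M T v)

end CRW
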