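import Pool.Agent.Lib.CRW.L7

/-!
# Module L8: the identity for `be`

PROOF.  Let `f = fB` (symmetric in its arguments, invariant under a common shift of the times), `a = st i`, `s₁ ≥ s₀ + n^2`, `H > s₁ + 1`.
For a path `η` let `r(η) = lrec a η 0 H`, and `r°(η)` the record of the times `1 ≤ s < H` (ignoring time `0`).
(1) `E f (r°, r°') = be (H-1)`: stationarity (`ER H (fun η => F (η (·+1))) = ER (H-1) F`, from `EP_unif`-type induction) and shift invariance of `f`.
(2) `be H - be (H-1) = E [f (r, r') - f (r°, r')] + E [f (r°, r') - f (r°, r°')]`.  For a bounded `φ`: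
`E [φ r - φ r°] = NN⁻¹ ∑ l, chg a φ (H-1) 0 rec0 l = NN⁻¹ ∑ l, XX a φ H 0 0 l` (`val a φ (H-1) 0 rec0 b - pv a φ (H-1) 0 rec0 b`, `val_split`).
First bracket: `φ r = ER H (fun η' => f r (lrec a η' 0 H))`; second (symmetry of `f`): `φ r = E f(r, r°')` after exchanging the walks.
(3) For both: if `r'` has no time `< s₁` then `f r r' = f (kap s₁ 0 r) (kap s₁ 1 r')` (as in `coarse_fB`), so with `φ' r = ER (H-s₁) (fun η' => f r (shr s₁ (lrec a η' 0 (H-s₁))))`
`|φ r - φ' (kap s₁ 0 r)| ≤ 4 * 2 s₁/NN` (walk 2 visits the pair before `s₁` with probability `≤ 2 s₁/NN`; the record of the times `≥ s₁` is the shifted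
record of a fresh walk; `f ≤ 1`).
`XX_coarse` with `j = i = 0`, `e₀ = 0`: `|∑ l, XX a (φ' ∘ kap) H 0 0 l - Xs a (φ' ∘ kap) H s₁ 0 s₀| ≤ C'(1/√s₀ + s₁/NN + e^(-κ(s₁-s₀)/n^2))`, and
`Xs a (φ' ∘ kap s₁ 0) = Xs a φ'` (in `fresh` the record is already coarse) `= u - 2 al be (H - s₁)` (`Xs_fB`).
(4) `|be H - be (H-1)| ≤ P(Inc of a record at H-1) * 2 ≤ C e^(-κ H/NN)` (complete records do not change; `ER_inc`).
Multiply by `NN`: `2 |u - 2 al be (H - s₁)| ≤ C NN e^(-κ H/NN) + C' (1/√s₀ + s₁/NN + e^(..))`.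
-/

open Finset

namespace CRW

variable {d : ℕ}

private theorem er_const {n : ℕ} [NeZero n] (hd : 1 ≤ d) (t : ℕ) (c : ℝ) :
    ER t (fun _ : ℕ → Tor d n => c) = c := EP_const hd t c

private theorem er_mono {n : ℕ} [NeZero n] (t : ℕ) (F G : (ℕ → Tor d n) → ℝ)
    (h : ∀ η, F η ≤ G η) : ER t F ≤ ER t G := EP_mono t _ _ fun η _ => h η

private theorem er_add {n : ℕ} [NeZero n] (t : ℕ) (F G : (ℕ → Tor d n) → ℝ) :
    ER t (fun η => F η + G η) = ER t F + ER t G := EP_add t (fun η _ => F η) (fun η _ => G η)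

private theorem er_mul {n : ℕ} [NeZero n] (t : ℕ) (c : ℝ) (F : (ℕ → Tor d n) → ℝ) :
    ER t (fun η => c * F η) = c * ER t F := EP_smul t c (fun η _ => F η)

private theorem er_sub {n : ℕ} [NeZero n] (t : ℕ) (F G : (ℕ → Tor d n) → ℝ) :
    ER t (fun η => F η - G η) = ER t F - ER t G := EP_sub t (fun η _ => F η) (fun η _ => G η)

private theorem er_abs {n : ℕ} [NeZero n] (t : ℕ) (F G : (ℕ → Tor d n) → ℝ)
    (h : ∀ η, |F η| ≤ G η) : |ER t F| ≤ ER t G := by
  have h1 := er_mono t F G fun η => (le_abs_self _).trans (h η)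
  have h2 := er_mono t (fun η => (-1) * F η) G fun η => by
    have := (neg_abs_le (F η)); have := h η; linarith [neg_le_abs (F η)]
  rw [er_mul] at h2
  rw [abs_le]
  constructor <;> linarith

/-! ### Symmetries of `fB` -/

private theorem cw_sum (x y : Option ℕ) : cw x y + cw y x = 1 := by
  rcases x with _ | x <;> rcases y with _ | y <;> simp only [cw] <;> try norm_num
  rcases lt_trichotomy x y with h | h | h
  · rw [if_pos h, if_neg (by omega), if_pos h]; norm_num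
  · subst h; simp; norm_num
  · rw [if_neg (by omega), if_pos h, if_pos h]; norm_num

private theorem fB_symm (r r' : Rec) : fB r r' = fB r' r := by
  unfold fB
  have h0 := cw_sum (r 0) (r' 0)
  have h1 := cw_sum (r 1) (r' 1)
  have e0 : cw (r' 0) (r 0) = 1 - cw (r 0) (r' 0) := by linarith
  have e1 : cw (r' 1) (r 1) = 1 - cw (r 1) (r' 1) := by linarith
  rw [e0, e1]
  ring

private theorem fB_shr (s : ℕ) (r r' : Rec) : fB (shr s r) (shr s r') = fB r r' := by
  have h : ∀ x y : Option ℕ, cw (x.map (· + s)) (y.map (· + s)) = cw x y := by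
    intro x y
    rcases x with _ | x <;> rcases y with _ | y <;> simp [cw]
  unfold fB shr
  simp only [h]

private theorem fB_kap (s₁ : ℕ) (r r' : Rec) (h : ∀ j s, r' j = some s → s₁ ≤ s) :
    fB (kap s₁ 0 r) r' = fB r r' := by
  have h1 : ∀ j, cw (kap s₁ 0 r j) (r' j) = cw (r j) (r' j) := by
    intro j
    unfold kap
    rcases hr : r j with _ | s
    · rfl
    · rcases hr' : r' j with _ | t
      · simp [cw]
      · have ht := h j t hr'
        simp only [Option.map_some, cw]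
        by_cases hs : s < s₁
        · rw [if_pos hs, if_pos (by omega), if_pos (by omega)]
        · rw [if_neg hs]
  unfold fB
  rw [h1, h1]

private theorem fB_abs (r r' : Rec) : |fB r r'| ≤ 1 := by
  have := fB_mem r r'
  rw [abs_le]
  constructor <;> linarith [this.1, this.2]

private theorem fB_sub_abs (r r' s s' : Rec) : |fB r r' - fB s s'| ≤ 1 := by
  have h1 := fB_mem r r'
  have h2 := fB_mem s s'
  rw [abs_le]
  constructor <;> linarith [h1.1, h1.2, h2.1, h2.2]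

private theorem kap_cmb' (s₁ e₀ : ℕ) (S : Fin 2 → Bool) (ρ : Rec) :
    kap s₁ e₀ (cmb (early e₀ S) (shr s₁ ρ)) = cmb (early e₀ S) (shr s₁ ρ) := by
  funext j
  unfold kap cmb early shr
  by_cases h : S j = true
  · simp [h]
  · rcases hρ : ρ j with _ | x
    · simp [h]
    · simp [h]

private theorem shr_zero (r : Rec) : shr 0 r = r := by
  funext j
  unfold shr
  rcases r j with _ | x <;> simp

/-! ### The first time step -/

private theorem er_vbar {n : ℕ} [NeZero n] (hd : 1 ≤ d) (a : Fin 2 → Tor d n) (ψ : Rec → ℝ) (H j : ℕ)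
    (hj : j < H) : ER (H - j) (fun η => ψ (shr j (lrec a η 0 (H - j)))) =
      vbar a ψ (H - 1 - j) j rec0 := by
  rw [vbar_fresh hd a ψ H j hj rec0]
  rfl

private theorem first_step {n : ℕ} [NeZero n] (hd : 1 ≤ d) (a : Fin 2 → Tor d n)
    (ha : a 0 ≠ a 1) (φ : Rec → ℝ) (H : ℕ) (hH : 2 ≤ H) :
    ER H (fun η => φ (lrec a η 0 H)) -
      ER (H - 1) (fun η => φ (shr 1 (lrec a η 0 (H - 1)))) =
      (NN d n)⁻¹ * ∑ l, XX a φ H 0 0 l := by
  have e0 := er_vbar hd a φ H 0 (by omega)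
  simp only [shr_zero, Nat.sub_zero] at e0
  rw [e0, er_vbar hd a φ H 1 (by omega)]
  have hXX : ∀ l, XX a φ H 0 0 l = chg a φ (H - 1) 0 rec0 l := by
    intro l
    unfold XX
    rw [if_neg (by omega)]
    exact EP_const hd 0 _
  simp only [hXX]
  unfold vbar
  obtain ⟨K, rfl⟩ : ∃ K, H = K + 2 := ⟨H - 2, by omega⟩
  have k1 : K + 2 - 1 = K + 1 := by omega
  have k2 : K + 2 - 1 - 1 = K := by omega
  rw [k2, k1]
  have h1 : ∑ b, val a φ (K + 1) 0 rec0 b =
      ∑ b, pv a φ (K + 1) 0 rec0 b + ∑ l, chg a φ (K + 1) 0 rec0 l := by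
    simp only [val_split ha φ (K + 1) 0 rec0]
    rw [Finset.sum_add_distrib]
    congr 1
    rw [Finset.sum_comm]
    refine Finset.sum_congr rfl fun l _ => ?_
    rw [Finset.sum_ite_eq']
    simp
  have h2 : ∑ b, pv a φ (K + 1) 0 rec0 b = ∑ b, val a φ K 1 rec0 b := by
    simp only [pv_succ, zero_add, smul_eq_mul]
    rw [Finset.sum_comm]
    have h3 : ∀ w : Tor d n, ∑ b, stp d n w * val a φ K 1 rec0 (b + w) =
        stp d n w * ∑ b, val a φ K 1 rec0 b := by
      intro w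
      rw [← Finset.mul_sum]
      congr 1
      exact Equiv.sum_comp (Equiv.addRight w) (fun b => val a φ K 1 rec0 b)
    simp only [h3]
    rw [← Finset.sum_mul, stp_sum hd, one_mul]
  rw [h1, h2, smul_eq_mul, smul_eq_mul]
  ring

/-! ### The response functions -/

private noncomputable def ph {n : ℕ} [NeZero n] (i : Fin d) (H j : ℕ) (r : Rec) : ℝ :=
  ER (H - j) fun η' : ℕ → Tor d n => fB r (shr j (lrec (st i) η' 0 (H - j)))

open Classical in
private theorem ph_close {n : ℕ} [NeZero n] (hd : 1 ≤ d) (i : Fin d) (H j s₁ : ℕ)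
    (hj : j ≤ s₁) (hH : s₁ < H) (r : Rec) :
    |ph (n := n) i H j r - ph (n := n) i H s₁ (kap s₁ 0 r)| ≤ 6 * s₁ / NN d n := by
  have hN : 0 < NN d n := NN_pos
  have h1 : |ph (n := n) i H j r - ER (H - j) (fun η' : ℕ → Tor d n =>
      fB (kap s₁ 0 r) (shr j (lrec (st i) η' 0 (H - j))))| ≤ 2 * s₁ / NN d n := by
    unfold ph
    rw [← er_sub]
    refine le_trans (er_abs _ _ (fun η' : ℕ → Tor d n =>
      if Win 0 s₁ (lrec (st i) η' 0 (H - j)) then (1 : ℝ) else 0) fun η' => ?_) ?_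
    · by_cases hW : Win 0 s₁ (lrec (st i) η' 0 (H - j))
      · rw [if_pos hW]
        exact fB_sub_abs _ _ _ _
      · rw [if_neg hW, fB_kap, sub_self, abs_zero]
        intro l s hs
        by_contra hlt
        apply hW
        unfold shr at hs
        rcases hx : lrec (st i) η' 0 (H - j) l with _ | x
        · rw [hx] at hs; simp at hs
        · rw [hx] at hs
          simp only [Option.map_some, Option.some.injEq] at hs
          exact ⟨l, x, hx, Nat.zero_le _, by omega⟩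
    · have h2 := ER_window (n := n) hd (st i) 0 s₁ (H - j)
      simpa using h2
  have h3 : |ER (H - j) (fun η' : ℕ → Tor d n =>
      fB (kap s₁ 0 r) (shr j (lrec (st i) η' 0 (H - j)))) -
        ph (n := n) i H s₁ (kap s₁ 0 r)| ≤ 4 * s₁ / NN d n := by
    have h4 := Q_mean (n := n) hd (E := ℝ) (st i) (fB (kap s₁ 0 r))
      (fun r' => fB_abs _ _) H s₁ j hH hj rec0
    unfold ph
    rw [er_vbar hd (st i) (fB (kap s₁ 0 r)) H j (by omega),
      er_vbar hd (st i) (fB (kap s₁ 0 r)) H s₁ hH]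
    rw [Real.norm_eq_abs] at h4
    refine h4.trans ?_
    have h5 : ((s₁ - j : ℕ) : ℝ) ≤ s₁ := by exact_mod_cast Nat.sub_le _ _
    gcongr
  have h6 := abs_sub_le (ph (n := n) i H j r) (ER (H - j) (fun η' : ℕ → Tor d n =>
      fB (kap s₁ 0 r) (shr j (lrec (st i) η' 0 (H - j))))) (ph (n := n) i H s₁ (kap s₁ 0 r))
  have h7 : 2 * s₁ / NN d n + 4 * s₁ / NN d n = 6 * s₁ / NN d n := by ring
  linarith

private theorem ph_abs {n : ℕ} [NeZero n] (hd : 1 ≤ d) (i : Fin d) (H j : ℕ) (r : Rec) :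
    |ph (n := n) i H j r| ≤ 1 := by
  unfold ph
  rw [← er_const (n := n) hd (H - j) 1]
  exact er_abs _ _ _ fun η => fB_abs _ _

private theorem Xs_ph {n : ℕ} [NeZero n] (hd : 1 ≤ d) (hn : 3 ≤ n) (i : Fin d)
    (H s₁ s₀ : ℕ) (h1 : 2 ≤ s₁) (hH : s₁ < H) :
    Xs (st (n := n) i) (fun r => ph (n := n) i H s₁ (kap s₁ 0 r)) H s₁ 0 s₀ =
      (2 * al (n := n) i s₀ - ga (n := n) i s₀) -
        2 * al (n := n) i s₀ * be (n := n) i (H - s₁) := by
  rw [← Xs_fB hd hn i H s₁ s₀ h1 hH]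
  unfold Xs fresh
  simp only [kap_cmb']
  rfl

private theorem XX_ph (hd : 3 ≤ d) (C κ : ℝ) : ∃ C' : ℝ, 1 ≤ C' ∧ ∀ (n : ℕ) [NeZero n],
    HKB d n C κ → ∀ (i : Fin d) (H s₁ s₀ j : ℕ), j ≤ 1 → 1 ≤ s₀ → s₀ + n ^ 2 ≤ s₁ →
      s₁ + 1 < H →
      |(∑ l, XX (st (n := n) i) (ph (n := n) i H j) H 0 0 l) -
        ((2 * al (n := n) i s₀ - ga (n := n) i s₀) -
        2 * al (n := n) i s₀ * be (n := n) i (H - s₁))| ≤
        C' * (1 / Real.sqrt s₀ + s₁ / NN d n +
          Real.exp (-κ * ((s₁ - s₀ : ℕ) : ℝ) / n ^ 2)) := by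
  obtain ⟨C2, hC2, hX⟩ := XX_coarse hd C κ
  refine ⟨C2 + 24, by linarith, ?_⟩
  intro n _ hb i H s₁ s₀ j hj hs0 hs1 hH
  have hN : 0 < NN d n := NN_pos
  have hn := hb.hn
  have hn2 : 9 ≤ n ^ 2 := by nlinarith
  have h1 := hX n hb ℝ (st i) (fun r => ph (n := n) i H s₁ r) (st_ne hn i)
    (fun r => ph_abs (by omega) i H s₁ r) H s₁ 0 s₀ 0 0 (by omega) (by omega) (by omega) hs0
    (by omega) (fun h => absurd h (lt_irrefl _))
  rw [Xs_ph (by omega) hn i H s₁ s₀ (by omega) (by omega), Real.norm_eq_abs, Nat.sub_zero] at h1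
  have h2 : |(∑ l, XX (st (n := n) i) (ph (n := n) i H j) H 0 0 l) -
      ∑ l, XX (st (n := n) i) (fun r => ph (n := n) i H s₁ (kap s₁ 0 r)) H 0 0 l| ≤
      24 * s₁ / NN d n := by
    have h3 : ∀ l, XX (st (n := n) i) (ph (n := n) i H j) H 0 0 l -
        XX (st (n := n) i) (fun r => ph (n := n) i H s₁ (kap s₁ 0 r)) H 0 0 l =
        XX (st (n := n) i) (fun r => ph (n := n) i H j r +
          (-1 : ℝ) • ph (n := n) i H s₁ (kap s₁ 0 r)) H 0 0 l := by
      intro l
      rw [XX_add (st i) (fun r => ph (n := n) i H j r)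
        (fun r => (-1 : ℝ) • ph (n := n) i H s₁ (kap s₁ 0 r)),
        XX_smul (st i) (-1 : ℝ) (fun r => ph (n := n) i H s₁ (kap s₁ 0 r))]
      rw [smul_eq_mul]
      ring
    have h4 : ∀ l, |XX (st (n := n) i) (ph (n := n) i H j) H 0 0 l -
        XX (st (n := n) i) (fun r => ph (n := n) i H s₁ (kap s₁ 0 r)) H 0 0 l| ≤
        2 * (6 * s₁ / NN d n) := by
      intro l
      rw [h3]
      refine norm_XX_le (E := ℝ) (B := 6 * s₁ / NN d n) (by omega) (st i) (fun r =>
        ph (n := n) i H j r + (-1 : ℝ) • ph (n := n) i H s₁ (kap s₁ 0 r)) (fun r => ?_) H 0 0 l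
      rw [Real.norm_eq_abs, smul_eq_mul, neg_one_mul, ← sub_eq_add_neg]
      exact ph_close (by omega) i H j s₁ (by omega) (by omega) r
    rw [← Finset.sum_sub_distrib]
    refine (Finset.abs_sum_le_sum_abs _ _).trans ?_
    refine (Finset.sum_le_sum fun l _ => h4 l).trans ?_
    simp only [Finset.sum_const, Finset.card_univ, Fintype.card_fin, nsmul_eq_mul]
    apply le_of_eq
    push_cast
    ring
  have h5 := abs_sub_le (∑ l, XX (st (n := n) i) (ph (n := n) i H j) H 0 0 l)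
    (∑ l, XX (st (n := n) i) (fun r => ph (n := n) i H s₁ (kap s₁ 0 r)) H 0 0 l)
    ((2 * al (n := n) i s₀ - ga (n := n) i s₀) -
        2 * al (n := n) i s₀ * be (n := n) i (H - s₁))
  have h6 : (24 : ℝ) * s₁ / NN d n ≤ 24 * (1 / Real.sqrt s₀ + s₁ / NN d n +
      Real.exp (-κ * ((s₁ - s₀ : ℕ) : ℝ) / n ^ 2)) := by
    have h7 : 0 ≤ 1 / Real.sqrt s₀ := by positivity
    have h8 := (Real.exp_pos (-κ * ((s₁ - s₀ : ℕ) : ℝ) / n ^ 2)).le
    have h9 : (24 : ℝ) * s₁ / NN d n = 24 * (s₁ / NN d n) := by ring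
    rw [h9]
    linarith
  have h10 : (C2 + 24) * (1 / Real.sqrt s₀ + s₁ / NN d n +
      Real.exp (-κ * ((s₁ - s₀ : ℕ) : ℝ) / n ^ 2)) = 24 * (1 / Real.sqrt s₀ + s₁ / NN d n +
      Real.exp (-κ * ((s₁ - s₀ : ℕ) : ℝ) / n ^ 2)) + C2 * (1 / Real.sqrt s₀ + s₁ / NN d n +
      Real.exp (-κ * ((s₁ - s₀ : ℕ) : ℝ) / n ^ 2)) := by ring
  rw [h10]
  linarith

/-! ### The decay of the increments -/

private theorem upd_complete {n : ℕ} (a : Fin 2 → Tor d n) (t : ℕ) (b : Tor d n) (r : Rec)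
    (h : ¬ Inc r) : upd a t b r = r := by
  funext j
  unfold upd
  rcases hr : r j with _ | s
  · exact absurd ⟨j, hr⟩ h
  · rfl

open Classical in
private theorem be_diff (hd : 3 ≤ d) (C κ : ℝ) : ∃ C' : ℝ, 1 ≤ C' ∧ ∀ (n : ℕ) [NeZero n],
    HKB d n C κ → ∀ (i : Fin d) (H : ℕ), 1 ≤ H →
      |be (n := n) i H - be (n := n) i (H - 1)| ≤ C' * Real.exp (-κ * H / NN d n) := by
  obtain ⟨C1, hC1, hI⟩ := ER_inc hd C κ
  refine ⟨6 * C1, by linarith, ?_⟩
  intro n _ hb i H hH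
  have hd1 : 1 ≤ d := by omega
  obtain ⟨K, rfl⟩ : ∃ K, H = K + 1 := ⟨H - 1, by omega⟩
  rw [Nat.add_sub_cancel]
  have hN : 0 < NN d n := NN_pos
  have hN1 : 1 ≤ NN d n := by
    unfold NN
    exact one_le_pow₀ (by exact_mod_cast (by have := hb.hn; omega : 1 ≤ n))
  -- `be K` with one more step
  have e1 : be (n := n) i K = ER (K + 1) fun η : ℕ → Tor d n => ER (K + 1)
      fun η' : ℕ → Tor d n => fB (lrec (st i) η 0 K) (lrec (st i) η' 0 K) := by
    unfold be
    have h1 : ∀ η : ℕ → Tor d n, ER (K + 1) (fun η' : ℕ → Tor d n =>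
        fB (lrec (st i) η 0 K) (lrec (st i) η' 0 K)) = ER K (fun η' : ℕ → Tor d n =>
        fB (lrec (st i) η 0 K) (lrec (st i) η' 0 K)) := by
      intro η
      refine ER_time K 1 _ ?_ hd1
      intro η1 η2 b hη
      simp only [lrec_congr (st i) 0 K hη]
    simp only [h1]
    symm
    refine ER_time K 1 _ ?_ hd1
    intro η1 η2 b hη
    simp only [lrec_congr (st i) 0 K hη]
  have e2 : ER (K + 1) (fun η : ℕ → Tor d n => if Inc (lrec (st i) η 0 K) then (1 : ℝ) else 0) ≤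
      C1 * Real.exp (-κ * K / NN d n) := by
    refine le_trans (le_of_eq ?_) (hI n hb (st i) 0 K)
    refine ER_time K 1 _ ?_ hd1
    intro η1 η2 b hη
    simp only [lrec_congr (st i) 0 K hη]
  have e3 : |be (n := n) i (K + 1) - be (n := n) i K| ≤ 2 * (C1 * Real.exp (-κ * K / NN d n)) := by
    rw [e1]
    unfold be
    rw [← er_sub]
    refine le_trans (er_abs _ _ (fun η : ℕ → Tor d n =>
      (if Inc (lrec (st i) η 0 K) then (1 : ℝ) else 0) + C1 * Real.exp (-κ * K / NN d n))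
      fun η => ?_) ?_
    · rw [← er_sub]
      refine le_trans (er_abs _ _ (fun η' : ℕ → Tor d n =>
        (if Inc (lrec (st i) η 0 K) then (1 : ℝ) else 0) +
          (if Inc (lrec (st i) η' 0 K) then (1 : ℝ) else 0)) fun η' => ?_) ?_
      · by_cases hA : Inc (lrec (st i) η 0 K)
        · rw [if_pos hA]
          refine (fB_sub_abs _ _ _ _).trans ?_
          split_ifs <;> norm_num
        · by_cases hB : Inc (lrec (st i) η' 0 K)
          · rw [if_pos hB]
            refine (fB_sub_abs _ _ _ _).trans ?_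
            split_ifs <;> norm_num
          · rw [if_neg hA, if_neg hB, lrec_succ, lrec_succ, upd_complete _ _ _ _ hA,
              upd_complete _ _ _ _ hB]
            simp
      · rw [er_add, er_const hd1]
        linarith
    · rw [er_add, er_const hd1]
      linarith
  refine e3.trans ?_
  have e4 : Real.exp (-κ * K / NN d n) ≤ 3 * Real.exp (-κ * ((K + 1 : ℕ) : ℝ) / NN d n) := by
    have h1 : -κ * K / NN d n = κ / NN d n + -κ * ((K + 1 : ℕ) : ℝ) / NN d n := by
      push_cast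
      ring
    rw [h1, Real.exp_add]
    have h2 : κ / NN d n ≤ 1 := by
      rw [div_le_one hN]
      exact hb.hκ1.trans hN1
    have h3 : Real.exp (κ / NN d n) ≤ 3 := by
      refine (Real.exp_le_exp.2 h2).trans ?_
      have := Real.exp_one_lt_d9
      linarith
    exact mul_le_mul_of_nonneg_right h3 (Real.exp_pos _).le
  have h4 : 0 ≤ C1 := by linarith
  nlinarith [mul_le_mul_of_nonneg_left e4 h4]

theorem be_identity (hd : 3 ≤ d) (C κ : ℝ) : ∃ C' : ℝ, 1 ≤ C' ∧ ∀ (n : ℕ) [NeZero n],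
    HKB d n C κ → ∀ (i : Fin d) (H s₁ s₀ : ℕ), 1 ≤ s₀ → s₀ + n ^ 2 ≤ s₁ → s₁ + 1 < H →
      |(2 * al (n := n) i s₀ - ga (n := n) i s₀) -
        2 * al (n := n) i s₀ * be (n := n) i (H - s₁)| ≤
        C' * (1 / Real.sqrt s₀ + s₁ / NN d n +
          Real.exp (-κ * ((s₁ - s₀ : ℕ) : ℝ) / n ^ 2) +
          NN d n * Real.exp (-κ * H / NN d n)) := by
  obtain ⟨C1, hC1, h1⟩ := XX_ph hd C κ
  obtain ⟨C2, hC2, h2⟩ := be_diff hd C κ
  refine ⟨C1 + C2, by linarith, ?_⟩
  intro n _ hb i H s₁ s₀ hs0 hs1 hH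
  have hd1 : 1 ≤ d := by omega
  have hn := hb.hn
  have hN : 0 < NN d n := NN_pos
  set Y : ℝ := (2 * al (n := n) i s₀ - ga (n := n) i s₀) -
        2 * al (n := n) i s₀ * be (n := n) i (H - s₁) with hY
  set R : ℝ := 1 / Real.sqrt s₀ + s₁ / NN d n +
          Real.exp (-κ * ((s₁ - s₀ : ℕ) : ℝ) / n ^ 2) with hR
  have hR0 : 0 ≤ R := by positivity
  have a0 := h1 n hb i H s₁ s₀ 0 (by omega) hs0 hs1 hH
  have a1 := h1 n hb i H s₁ s₀ 1 (by omega) hs0 hs1 hH
  rw [← hY, ← hR] at a0 a1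
  have f0 := first_step (n := n) hd1 (st i) (st_ne hn i) (ph (n := n) i H 0) H (by omega)
  have f1 := first_step (n := n) hd1 (st i) (st_ne hn i) (ph (n := n) i H 1) H (by omega)
  -- identification of the terms
  have g0 : ER H (fun η : ℕ → Tor d n => ph (n := n) i H 0 (lrec (st i) η 0 H)) =
      be (n := n) i H := by
    unfold ph be
    simp only [shr_zero, Nat.sub_zero]
  have g1 : ER (H - 1) (fun η : ℕ → Tor d n => ph (n := n) i H 0
      (shr 1 (lrec (st i) η 0 (H - 1)))) =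
      ER H (fun η : ℕ → Tor d n => ph (n := n) i H 1 (lrec (st i) η 0 H)) := by
    unfold ph
    simp only [shr_zero, Nat.sub_zero]
    rw [ER_comm]
    simp only [fB_symm (shr 1 _) _]
  have g2 : ER (H - 1) (fun η : ℕ → Tor d n => ph (n := n) i H 1
      (shr 1 (lrec (st i) η 0 (H - 1)))) = be (n := n) i (H - 1) := by
    unfold ph be
    simp only [fB_shr]
  rw [g0, g1] at f0
  rw [g2] at f1
  have h3 := h2 n hb i H (by omega)
  have h4 : be (n := n) i H - be (n := n) i (H - 1) = (NN d n)⁻¹ *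
      ((∑ l, XX (st (n := n) i) (ph (n := n) i H 0) H 0 0 l) +
        ∑ l, XX (st (n := n) i) (ph (n := n) i H 1) H 0 0 l) := by
    rw [mul_add, ← f0, ← f1]
    ring
  have h5 : (∑ l, XX (st (n := n) i) (ph (n := n) i H 0) H 0 0 l) +
        (∑ l, XX (st (n := n) i) (ph (n := n) i H 1) H 0 0 l) =
      NN d n * (be (n := n) i H - be (n := n) i (H - 1)) := by
    rw [h4, ← mul_assoc, mul_inv_cancel₀ hN.ne', one_mul]
  have h6 : |NN d n * (be (n := n) i H - be (n := n) i (H - 1))| ≤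
      C2 * (NN d n * Real.exp (-κ * H / NN d n)) := by
    rw [abs_mul, abs_of_pos hN]
    calc NN d n * |be (n := n) i H - be (n := n) i (H - 1)| ≤
        NN d n * (C2 * Real.exp (-κ * H / NN d n)) := mul_le_mul_of_nonneg_left h3 hN.le
      _ = _ := by ring
  rw [← h5] at h6
  have hE : 0 ≤ NN d n * Real.exp (-κ * H / NN d n) := by positivity
  rw [abs_le] at a0 a1 h6 ⊢
  have h7 : (C1 + C2) * (R + NN d n * Real.exp (-κ * H / NN d n)) =
      C1 * R + C2 * (NN d n * Real.exp (-κ * H / NN d n)) +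
        (C2 * R + C1 * (NN d n * Real.exp (-κ * H / NN d n))) := by ring
  have h8 : 0 ≤ C2 * R + C1 * (NN d n * Real.exp (-κ * H / NN d n)) := by positivity
  have h9 : 0 ≤ C2 * (NN d n * Real.exp (-κ * H / NN d n)) := by positivity
  rw [h7]
  constructor <;> linarith [a0.1, a0.2, a1.1, a1.2, h6.1, h6.2]

end CRW
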