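import Pool.Agent.Lib.CRW.L9
import Pool.Agent.Lib.CRW.L8

/-!
# Module L10: lower bounds for the responses
-/

open Finset

namespace CRW

variable {d : ℕ}

private theorem exists_exp_le {a b : ℝ} (ha : 0 < a) (hb : 0 < b) :
    ∃ N : ℕ, ∀ x : ℝ, (N : ℝ) ≤ x → Real.exp (-a * x) ≤ b := by
  refine ⟨⌈-Real.log b / a⌉₊, fun x hx => ?_⟩
  have h1 : -Real.log b / a ≤ x := (Nat.le_ceil _).trans hx
  rw [div_le_iff₀ ha] at h1
  calc Real.exp (-a * x) ≤ Real.exp (Real.log b) := Real.exp_le_exp.2 (by linarith)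
    _ = b := Real.exp_log hb

theorem DD_lower (hd : 3 ≤ d) (C κ : ℝ) : ∃ c : ℝ, 0 < c ∧ ∃ S0 n0 : ℕ,
    ∀ (n : ℕ) [NeZero n], n0 ≤ n → HKB d n C κ → ∀ (i : Fin d) (s₀ t₀ : ℕ), S0 ≤ s₀ →
      2 * s₀ ≤ n ^ 2 → 1 ≤ t₀ → ∃ H0 : ℕ, ∀ H : ℕ, H0 ≤ H →
        c ≤ DD (st (n := n) i) fA H (7 * t₀) s₀ ∧ c ≤ DD (st (n := n) i) fB H (7 * t₀) s₀ := by
  by_cases hκ : 0 < κ
  swap
  · exact ⟨1, one_pos, 0, 0, fun n _ _ hb => absurd hb.hκ hκ⟩
  obtain ⟨c₁, hc₁, S1, n1, hal⟩ := al_lower hd C κ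
  obtain ⟨C', hC', hbe⟩ := be_identity hd C κ
  set δ : ℝ := c₁ ^ 2 / (16 * C') with hδ
  have hC0 : 0 < C' := by linarith
  have hδ0 : 0 < δ := by positivity
  have hCδ : C' * (4 * δ) = c₁ ^ 2 / 4 := by
    rw [hδ]
    field_simp
    ring
  obtain ⟨K0, hK0⟩ := exists_exp_le hκ hδ0
  obtain ⟨K, hK⟩ : ∃ K : ℕ, K = K0 + 1 := ⟨_, rfl⟩
  refine ⟨c₁ ^ 2 / 2, by positivity, max (max S1 1) ⌈(1 / δ) ^ 2⌉₊,
    max (max n1 1) ⌈((K : ℝ) + 1) / δ⌉₊, ?_⟩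
  intro n _ hn hb i s₀ t₀ hs hs2 ht
  have hd1 : 1 ≤ d := by omega
  have hn1 : n1 ≤ n := (le_max_left _ _).trans ((le_max_left _ _).trans hn)
  have hn2 : ((K : ℝ) + 1) / δ ≤ n :=
    (Nat.le_ceil _).trans (by exact_mod_cast (le_max_right _ _).trans hn)
  have hS1 : S1 ≤ s₀ := (le_max_left _ _).trans ((le_max_left _ _).trans hs)
  have hS2 : 1 ≤ s₀ := (le_max_right _ _).trans ((le_max_left _ _).trans hs)
  have hS3 : (1 / δ) ^ 2 ≤ s₀ :=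
    (Nat.le_ceil _).trans (by exact_mod_cast (le_max_right _ _).trans hs)
  obtain ⟨ha1, ha2⟩ := hal n hn1 hb i s₀ hS1 hs2
  obtain ⟨hb1, hb2, hb3⟩ := al_le_ga (n := n) hd1 i s₀
  have hn3 := hb.hn
  have hnpos : (0 : ℝ) < n := by
    have : 0 < n := by omega
    exact_mod_cast this
  have hNN : (0 : ℝ) < NN d n := NN_pos
  have hNN3 : (n : ℝ) ^ 3 ≤ NN d n := by
    unfold NN
    exact pow_le_pow_right₀ (by exact_mod_cast (by omega : 1 ≤ n)) hd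
  obtain ⟨H1, hH1⟩ := exists_exp_le (div_pos hκ hNN) (div_pos hδ0 hNN)
  refine ⟨7 * t₀ + H1 + 2, fun H hH => ?_⟩
  set al' := al (n := n) i s₀ with hal'
  set ga' := ga (n := n) i s₀ with hga'
  constructor
  · rw [DD_fA hd1 hn3 i H (7 * t₀) s₀ (by omega) (by omega)]
    have : c₁ ≤ ga (n := n) i s₀ := ha1.trans hb2
    have h2 : c₁ ^ 2 ≤ ga (n := n) i s₀ ^ 2 := pow_le_pow_left₀ hc₁.le this 2
    linarith
  · rw [DD_fB hd1 hn3 i H (7 * t₀) s₀ (by omega) (by omega)]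
    set s₁ : ℕ := s₀ + K * n ^ 2 with hs1
    have hKn : n ^ 2 ≤ K * n ^ 2 := Nat.le_mul_of_pos_left _ (by omega)
    have hid := hbe n hb i (H - 7 * t₀ + s₁) s₁ s₀ hS2 (by omega) (by omega)
    have e1 : H - 7 * t₀ + s₁ - s₁ = H - 7 * t₀ := by omega
    rw [e1] at hid
    set B := be (n := n) i (H - 7 * t₀) with hB
    -- the four error terms
    have t1 : 1 / Real.sqrt s₀ ≤ δ := by
      have hs0 : (0 : ℝ) < s₀ := by exact_mod_cast (by omega : 0 < s₀)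
      have h1 : 1 / δ ≤ Real.sqrt s₀ := Real.le_sqrt_of_sq_le hS3
      rw [div_le_iff₀ (Real.sqrt_pos.2 hs0)]
      rw [div_le_iff₀ hδ0] at h1
      linarith
    have t2 : (s₁ : ℝ) / NN d n ≤ δ := by
      have h1 : (s₁ : ℝ) ≤ ((K : ℝ) + 1) * (n : ℝ) ^ 2 := by
        have h2 : s₁ ≤ (K + 1) * n ^ 2 := by
          have h3 : (K + 1) * n ^ 2 = K * n ^ 2 + n ^ 2 := by ring
          rw [h3]
          omega
        exact_mod_cast h2
      rw [div_le_iff₀ hNN]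
      have h3 : ((K : ℝ) + 1) ≤ δ * n := by
        rw [div_le_iff₀ hδ0] at hn2
        linarith
      calc (s₁ : ℝ) ≤ ((K : ℝ) + 1) * (n : ℝ) ^ 2 := h1
        _ ≤ (δ * n) * (n : ℝ) ^ 2 := mul_le_mul_of_nonneg_right h3 (by positivity)
        _ = δ * (n : ℝ) ^ 3 := by ring
        _ ≤ δ * NN d n := mul_le_mul_of_nonneg_left hNN3 hδ0.le
    have t3 : Real.exp (-κ * ((s₁ - s₀ : ℕ) : ℝ) / n ^ 2) ≤ δ := by
      have e2 : s₁ - s₀ = K * n ^ 2 := by omega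
      have e3 : -κ * ((s₁ - s₀ : ℕ) : ℝ) / n ^ 2 = -κ * (K : ℝ) := by
        rw [e2]
        push_cast
        field_simp
      rw [e3]
      exact hK0 K (by exact_mod_cast (by omega : K0 ≤ K))
    have t4 : NN d n * Real.exp (-κ * ((H - 7 * t₀ + s₁ : ℕ) : ℝ) / NN d n) ≤ δ := by
      have h1 := hH1 ((H - 7 * t₀ + s₁ : ℕ) : ℝ) (by exact_mod_cast (by omega))
      have e4 : -(κ / NN d n) * ((H - 7 * t₀ + s₁ : ℕ) : ℝ) =
          -κ * ((H - 7 * t₀ + s₁ : ℕ) : ℝ) / NN d n := by ring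
      rw [e4] at h1
      calc NN d n * Real.exp (-κ * ((H - 7 * t₀ + s₁ : ℕ) : ℝ) / NN d n) ≤ NN d n * (δ / NN d n) :=
            mul_le_mul_of_nonneg_left h1 hNN.le
        _ = δ := by field_simp
    have he : |(2 * al' - ga') - 2 * al' * B| ≤ c₁ ^ 2 / 4 := by
      refine hid.trans ?_
      rw [← hCδ]
      exact mul_le_mul_of_nonneg_left (by linarith) hC0.le
    have he1 : 2 * al' * B ≥ (2 * al' - ga') - c₁ ^ 2 / 4 := by
      have := (abs_le.1 he).2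
      linarith
    have h5 : 2 * al' * (2 * al' * B) ≥ 2 * al' * ((2 * al' - ga') - c₁ ^ 2 / 4) :=
      mul_le_mul_of_nonneg_left he1 (by linarith)
    have h6 : c₁ * c₁ ≤ (2 * al' - ga') * ga' :=
      mul_le_mul ha2 (ha1.trans hb2) hc₁.le (by linarith)
    have h7 : 2 * al' * (c₁ ^ 2 / 4) ≤ 2 * (c₁ ^ 2 / 4) := by
      have : al' ≤ 1 := hb2.trans hb3
      have h8 : (0 : ℝ) ≤ c₁ ^ 2 / 4 := by positivity
      have h9 := mul_le_mul_of_nonneg_right this h8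
      linarith
    have e5 : 4 * al' ^ 2 * B = 2 * al' * (2 * al' * B) := by ring
    have e6 : 2 * al' * ((2 * al' - ga') - c₁ ^ 2 / 4) =
        (2 * al' - ga') * ga' + (2 * al' - ga') ^ 2 - 2 * al' * (c₁ ^ 2 / 4) := by ring
    have e7 : c₁ * c₁ = c₁ ^ 2 := by ring
    rw [e5]
    linarith

end CRW
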