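import Pool.Agent.Lib.CRW.PA2

/-!
# Module FO1: characters and eigenvalues

PROOFS.  `ch_add` etc.: `AddChar.map_add_eq_mul`, `Finset.sum_add_distrib`, `mul_add`.  `ch_conj`: `|stdAddChar| = 1`, so the conjugate is the inverse
(`AddChar.map_neg_eq_conj` or `ZMod.stdAddChar` facts).  `sum_ch`: for `ξ ≠ 0` choose `i` with `ξ i ≠ 0`; `x ↦ ch ξ x` is a nontrivial
additive character of the finite group `Tor` (`AddChar.sum_eq_zero_of_ne_one` / multiply by `ch ξ (e_i) ≠ 1`).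
`ch_single`: `ch ξ (e_i) = exp (2 π i ξ_i / n)`, real part `cos (2 π (ξ i).valMinAbs / n)` (`ZMod.stdAddChar_coe`, `valMinAbs` lift).
`step_ch`: `stp_expand`, `ch ξ (e_i) + ch ξ (-e_i) = 2 cos`.  `hk_ch`: induction (`hk_succ_fun'`).  `lam_nonneg`: `cos ≥ -1`.
`one_sub_lam_ge`: `1 - cos θ ≥ 2 θ²/π²` for `|θ| ≤ π` (`Real.one_sub_sq_div_two_le_cos` is the other direction; use
`Real.cos_le_one_sub_mul_cos_sq`/`Real.mul_le_sin`: `1 - cos θ = 2 sin²(θ/2) ≥ 2 (θ/π)²`), for the coordinate with `|ξ_i| = nrm ξ`: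
`1 - lam = 1/(2d) ∑ (1 - cos) ≥ 1/(2d) * 8 nrm²/n²`.  `one_sub_lam_le`: `1 - cos θ ≤ θ²/2`: `≤ π² nrm²/n² ≤ 10 nrm²/n²`.
-/

open Finset

namespace CRW

variable {d n : ℕ} [NeZero n]

theorem ch_add (ξ x y : Tor d n) : ch ξ (x + y) = ch ξ x * ch ξ y := by
  unfold ch
  rw [← AddChar.map_add_eq_mul, ← Finset.sum_add_distrib]
  congr 1
  apply Finset.sum_congr rfl
  intro i _
  rw [Pi.add_apply]
  ring

theorem ch_comm (ξ x : Tor d n) : ch ξ x = ch x ξ := by
  unfold ch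
  congr 1
  apply Finset.sum_congr rfl
  intro i _
  ring

theorem ch_add_left (ξ η x : Tor d n) : ch (ξ + η) x = ch ξ x * ch η x := by
  rw [ch_comm, ch_add, ch_comm x ξ, ch_comm x η]

theorem ch_zero (ξ : Tor d n) : ch ξ 0 = 1 := by
  simp [ch]

theorem ch_zero_left (x : Tor d n) : ch 0 x = 1 := by
  rw [ch_comm, ch_zero]

theorem ch_neg (ξ x : Tor d n) : ch ξ (-x) = (starRingEnd ℂ) (ch ξ x) := by
  unfold ch
  rw [← AddChar.map_neg_eq_conj]
  congr 1
  rw [← Finset.sum_neg_distrib]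
  apply Finset.sum_congr rfl
  intro i _
  rw [Pi.neg_apply]
  ring

theorem ch_neg_left (ξ x : Tor d n) : ch (-ξ) x = (starRingEnd ℂ) (ch ξ x) := by
  rw [ch_comm, ch_neg, ch_comm]

theorem norm_ch (ξ x : Tor d n) : ‖ch ξ x‖ = 1 := by
  unfold ch
  exact AddChar.norm_apply _ _

/-- the character as an additive character -/
private noncomputable def chA (ξ : Tor d n) : AddChar (Tor d n) ℂ where
  toFun := ch ξ
  map_zero_eq_one' := ch_zero ξ
  map_add_eq_mul' := ch_add ξ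

private theorem ch_single_eq (ξ : Tor d n) (i : Fin d) :
    ch ξ (Pi.single i 1) = ZMod.stdAddChar (ξ i) := by
  unfold ch
  congr 1
  rw [Finset.sum_eq_single i]
  · simp
  · intro j _ hj
    simp [Pi.single_eq_of_ne hj]
  · intro h
    exact absurd (Finset.mem_univ i) h

theorem sum_ch (ξ : Tor d n) : ∑ x, ch ξ x = if ξ = 0 then (NN d n : ℂ) else 0 := by
  have h1 := AddChar.sum_eq_ite (chA ξ)
  have h2 : (∑ x, chA ξ x) = ∑ x, ch ξ x := rfl
  rw [h2] at h1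
  rw [h1]
  by_cases hξ : ξ = 0
  · have h3 : chA ξ = 0 := by
      ext x
      change ch ξ x = 1
      rw [hξ, ch_zero_left]
    rw [if_pos h3, if_pos hξ]
    have := card_tor (d := d) (n := n)
    exact_mod_cast congrArg (fun r : ℝ => (r : ℂ)) this
  · have h3 : chA ξ ≠ 0 := by
      intro h
      apply hξ
      funext i
      have h4 : chA ξ (Pi.single i 1) = 1 := by
        rw [h]
        rfl
      have h5 : ch ξ (Pi.single i 1) = 1 := h4
      rw [ch_single_eq] at h5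
      apply ZMod.injective_stdAddChar
      rw [h5]
      simp
    rw [if_neg h3, if_neg hξ]

private theorem std_eq (x : ZMod n) : (ZMod.stdAddChar x : ℂ) =
    Complex.exp ((2 * Real.pi * ((x.valMinAbs : ℝ)) / n : ℝ) * Complex.I) := by
  have h1 := ZMod.stdAddChar_coe (N := n) x.valMinAbs
  rw [ZMod.coe_valMinAbs] at h1
  rw [h1]
  congr 1
  push_cast
  ring

private theorem std_re (x : ZMod n) : (ZMod.stdAddChar x : ℂ).re =
    Real.cos (2 * Real.pi * ((x.valMinAbs : ℝ)) / n) := by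
  rw [std_eq, Complex.exp_ofReal_mul_I_re]

theorem norm_ch_single_sub_one (ξ : Tor d n) (i : Fin d) :
    ‖ch ξ (Pi.single i 1) - 1‖ ≤ 7 * nrm ξ / n := by
  rw [ch_single_eq, std_eq]
  have hn : (0:ℝ) < n := by exact_mod_cast Nat.pos_of_ne_zero (NeZero.ne n)
  have h1 : ‖Complex.exp ((2 * Real.pi * (((ξ i).valMinAbs : ℝ)) / n : ℝ) * Complex.I) - 1‖ ≤
      ‖(2 * Real.pi * (((ξ i).valMinAbs : ℝ)) / n : ℝ)‖ := by
    have := Real.norm_exp_I_mul_ofReal_sub_one_le (x := 2 * Real.pi * (((ξ i).valMinAbs : ℝ)) / n)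
    rwa [mul_comm Complex.I] at this
  refine h1.trans ?_
  rw [Real.norm_eq_abs, abs_div, abs_of_pos hn]
  apply div_le_div_of_nonneg_right _ hn.le
  rw [abs_mul, abs_of_pos (by positivity : (0:ℝ) < 2 * Real.pi)]
  have h2 : |((ξ i).valMinAbs : ℝ)| ≤ nrm ξ := by
    have h3 : (ξ i).valMinAbs.natAbs ≤ nrm ξ := Finset.le_sup (f := fun i => (ξ i).valMinAbs.natAbs)
      (Finset.mem_univ i)
    have h4 : |((ξ i).valMinAbs : ℝ)| = (((ξ i).valMinAbs.natAbs : ℕ) : ℝ) := by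
      rw [Nat.cast_natAbs]
      push_cast
      rfl
    rw [h4]
    exact_mod_cast h3
  have h5 : 2 * Real.pi ≤ 7 := by
    have := Real.pi_lt_d2
    linarith
  exact mul_le_mul h5 h2 (abs_nonneg _) (by norm_num)

theorem step_ch (hd : 1 ≤ d) (ξ b : Tor d n) :
    ∑ w, (stp d n w : ℂ) * ch ξ (b + w) = (lam ξ : ℂ) * ch ξ b := by
  have h1 := stp_expand (d := d) (n := n) (fun w => ch ξ (b + w))
  have h2 : ∑ w, stp d n w • ch ξ (b + w) = ∑ w, (stp d n w : ℂ) * ch ξ (b + w) := by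
    apply Finset.sum_congr rfl
    intro w _
    rw [Complex.real_smul]
  rw [← h2, h1]
  have h3 : ∀ i : Fin d, (1 / (4 * (d : ℝ))) • (ch ξ (b + Pi.single i 1) + ch ξ (b + -Pi.single i 1))
      = ((1 / (2 * (d : ℝ)) * Real.cos (2 * Real.pi * ((ξ i).valMinAbs : ℝ) / n) : ℝ) : ℂ) *
        ch ξ b := by
    intro i
    rw [ch_add, ch_add, ch_neg, ch_single_eq, ← mul_add, Complex.add_conj, std_re,
      Complex.real_smul]
    push_cast
    field_simp
    ring
  rw [Finset.sum_congr rfl (fun i _ => h3 i), ← Finset.sum_mul, Complex.real_smul, add_zero]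
  unfold lam
  push_cast
  rw [add_mul, Finset.mul_sum]

theorem hk_ch (hd : 1 ≤ d) (r : ℕ) (ξ y : Tor d n) :
    ∑ b, ch ξ b * (hk d n r (b - y) : ℂ) = (lam ξ : ℂ) ^ r * ch ξ y := by
  induction r with
  | zero =>
    rw [Finset.sum_eq_single y]
    · simp [hk]
    · intro b _ hb
      have : b - y ≠ 0 := sub_ne_zero.mpr hb
      simp [hk, this]
    · intro h
      exact absurd (Finset.mem_univ y) h
  | succ r ih =>
    have h1 := hk_succ_fun' (d := d) (n := n) r y (fun b => ch ξ b)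
    have h2 : ∑ b, ch ξ b * (hk d n (r + 1) (b - y) : ℂ) = ∑ b, hk d n (r + 1) (b - y) • ch ξ b := by
      apply Finset.sum_congr rfl
      intro b _
      rw [Complex.real_smul, mul_comm]
    have h3 : ∑ b, hk d n r (b - y) • ∑ w, stp d n w • ch ξ (b + w) =
        (lam ξ : ℂ) * ∑ b, ch ξ b * (hk d n r (b - y) : ℂ) := by
      rw [Finset.mul_sum]
      apply Finset.sum_congr rfl
      intro b _
      have h4 : ∑ w, stp d n w • ch ξ (b + w) = (lam ξ : ℂ) * ch ξ b := by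
        rw [← step_ch hd]
        apply Finset.sum_congr rfl
        intro w _
        rw [Complex.real_smul]
      rw [h4, Complex.real_smul]
      ring
    rw [h2, h1, h3, ih]
    ring

theorem hk_inv (hd : 1 ≤ d) (r : ℕ) (z : Tor d n) :
    (hk d n r z : ℂ) = (NN d n : ℂ)⁻¹ * ∑ ξ, (lam ξ : ℂ) ^ r * ch ξ z := by
  have h1 : ∀ ξ : Tor d n, (lam ξ : ℂ) ^ r = ∑ b, ch ξ b * (hk d n r b : ℂ) := by
    intro ξ
    have := hk_ch hd r ξ 0
    rw [ch_zero, mul_one] at this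
    rw [← this]
    apply Finset.sum_congr rfl
    intro b _
    rw [sub_zero]
  have h2 : ∑ ξ : Tor d n, (lam ξ : ℂ) ^ r * ch ξ z = (NN d n : ℂ) * (hk d n r z : ℂ) := by
    calc ∑ ξ : Tor d n, (lam ξ : ℂ) ^ r * ch ξ z
        = ∑ ξ : Tor d n, ∑ b, (hk d n r b : ℂ) * ch (b + z) ξ := by
          apply Finset.sum_congr rfl
          intro ξ _
          rw [h1 ξ, Finset.sum_mul]
          apply Finset.sum_congr rfl
          intro b _
          rw [ch_add_left, ch_comm b ξ, ch_comm z ξ]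
          ring
      _ = ∑ b, ∑ ξ : Tor d n, (hk d n r b : ℂ) * ch (b + z) ξ := Finset.sum_comm
      _ = ∑ b, (hk d n r b : ℂ) * (if b + z = 0 then (NN d n : ℂ) else 0) := by
          apply Finset.sum_congr rfl
          intro b _
          rw [← Finset.mul_sum, sum_ch]
      _ = (NN d n : ℂ) * (hk d n r z : ℂ) := by
          rw [Finset.sum_eq_single (-z)]
          · rw [if_pos (by simp), hk_neg]
            ring
          · intro b _ hb
            rw [if_neg (by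
              intro h
              exact hb (eq_neg_of_add_eq_zero_left h)), mul_zero]
          · intro h
            exact absurd (Finset.mem_univ _) h
  have hN : (NN d n : ℂ) ≠ 0 := by
    exact_mod_cast (NN_pos (d := d) (n := n)).ne'
  rw [h2]
  field_simp

theorem lam_zero (hd : 1 ≤ d) : lam (0 : Tor d n) = 1 := by
  unfold lam
  have hd' : (0:ℝ) < d := by exact_mod_cast hd
  simp only [Pi.zero_apply, ZMod.valMinAbs_zero, Int.cast_zero, mul_zero, zero_div, Real.cos_zero,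
    Finset.sum_const, Finset.card_univ, Fintype.card_fin, nsmul_eq_mul, mul_one]
  field_simp
  norm_num

theorem lam_neg (ξ : Tor d n) : lam (-ξ) = lam ξ := by
  unfold lam
  congr 2
  apply Finset.sum_congr rfl
  intro i _
  rw [← std_re, ← std_re, Pi.neg_apply, AddChar.map_neg_eq_conj, Complex.conj_re]

theorem lam_nonneg (hd : 1 ≤ d) (ξ : Tor d n) : 0 ≤ lam ξ := by
  unfold lam
  have hd' : (0:ℝ) < d := by exact_mod_cast hd
  have h1 : -(d:ℝ) ≤ ∑ i, Real.cos (2 * Real.pi * ((ξ i).valMinAbs : ℝ) / n) := by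
    have h2 : ∑ i : Fin d, (-1:ℝ) ≤ ∑ i, Real.cos (2 * Real.pi * ((ξ i).valMinAbs : ℝ) / n) :=
      Finset.sum_le_sum (fun i _ => Real.neg_one_le_cos _)
    simpa using h2
  have h3 : 1 / (2 * (d:ℝ)) * (-(d:ℝ)) = -(1/2) := by
    field_simp
  have h4 : 1 / (2 * (d:ℝ)) * (-(d:ℝ)) ≤
      1 / (2 * (d:ℝ)) * ∑ i, Real.cos (2 * Real.pi * ((ξ i).valMinAbs : ℝ) / n) :=
    mul_le_mul_of_nonneg_left h1 (by positivity)
  linarith

private theorem one_sub_lam (hd : 1 ≤ d) (ξ : Tor d n) : 1 - lam ξ =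
    1 / (2 * (d : ℝ)) * ∑ i, (1 - Real.cos (2 * Real.pi * ((ξ i).valMinAbs : ℝ) / n)) := by
  unfold lam
  have hd' : (0:ℝ) < d := by exact_mod_cast hd
  rw [Finset.sum_sub_distrib]
  simp only [Finset.sum_const, Finset.card_univ, Fintype.card_fin, nsmul_eq_mul, mul_one]
  field_simp
  ring

private theorem natAbs_le_nrm (ξ : Tor d n) (i : Fin d) :
    |((ξ i).valMinAbs : ℝ)| ≤ nrm ξ := by
  have h3 : (ξ i).valMinAbs.natAbs ≤ nrm ξ := Finset.le_sup (f := fun i => (ξ i).valMinAbs.natAbs)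
    (Finset.mem_univ i)
  have h4 : |((ξ i).valMinAbs : ℝ)| = (((ξ i).valMinAbs.natAbs : ℕ) : ℝ) := by
    rw [Nat.cast_natAbs]
    push_cast
    rfl
  rw [h4]
  exact_mod_cast h3

theorem one_sub_lam_ge (hd : 1 ≤ d) (ξ : Tor d n) :
    4 * (nrm ξ : ℝ) ^ 2 / (d * n ^ 2) ≤ 1 - lam ξ := by
  rw [one_sub_lam hd]
  have hd' : (0:ℝ) < d := by exact_mod_cast hd
  have hn : (0:ℝ) < n := by exact_mod_cast Nat.pos_of_ne_zero (NeZero.ne n)
  have hne : (Finset.univ : Finset (Fin d)).Nonempty := ⟨⟨0, hd⟩, Finset.mem_univ _⟩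
  obtain ⟨i, -, hi⟩ := Finset.exists_mem_eq_sup (Finset.univ : Finset (Fin d)) hne
    (fun i => (ξ i).valMinAbs.natAbs)
  have hi' : nrm ξ = (ξ i).valMinAbs.natAbs := hi
  have h1 : (1 - Real.cos (2 * Real.pi * ((ξ i).valMinAbs : ℝ) / n)) ≤
      ∑ i, (1 - Real.cos (2 * Real.pi * ((ξ i).valMinAbs : ℝ) / n)) :=
    Finset.single_le_sum (f := fun i => (1 - Real.cos (2 * Real.pi * ((ξ i).valMinAbs : ℝ) / n)))
      (fun j _ => sub_nonneg.mpr (Real.cos_le_one _)) (Finset.mem_univ i)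
  have h2 : |2 * Real.pi * ((ξ i).valMinAbs : ℝ) / n| ≤ Real.pi := by
    have h3 : 2 * |((ξ i).valMinAbs : ℝ)| ≤ n := by
      have h4 := two_nrm_le ξ
      have h5 : |((ξ i).valMinAbs : ℝ)| = (((ξ i).valMinAbs.natAbs : ℕ) : ℝ) := by
        rw [Nat.cast_natAbs]
        push_cast
        rfl
      rw [h5, ← hi']
      exact_mod_cast h4
    rw [abs_div, abs_mul, abs_of_pos hn, abs_of_pos (by positivity : (0:ℝ) < 2 * Real.pi),
      div_le_iff₀ hn]
    nlinarith [Real.pi_pos]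
  have h3 := Real.cos_le_one_sub_mul_cos_sq h2
  have h4 : ((nrm ξ : ℕ):ℝ)^2 = ((ξ i).valMinAbs : ℝ)^2 := by
    rw [hi', Nat.cast_natAbs]
    push_cast
    rw [sq_abs]
  have h5 : 8 * (nrm ξ : ℝ)^2 / n^2 ≤ 1 - Real.cos (2 * Real.pi * ((ξ i).valMinAbs : ℝ) / n) := by
    have h6 : 2 / Real.pi ^ 2 * (2 * Real.pi * ((ξ i).valMinAbs : ℝ) / n)^2 =
        8 * (nrm ξ : ℝ)^2 / n^2 := by
      rw [h4]
      have := Real.pi_pos
      field_simp
      ring
    linarith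
  calc 4 * (nrm ξ : ℝ) ^ 2 / (d * n ^ 2) = 1 / (2 * (d:ℝ)) * (8 * (nrm ξ : ℝ)^2 / n^2) := by
        field_simp
        ring
    _ ≤ _ := mul_le_mul_of_nonneg_left (h5.trans h1) (by positivity)

theorem one_sub_lam_le (hd : 1 ≤ d) (ξ : Tor d n) :
    1 - lam ξ ≤ 10 * (nrm ξ : ℝ) ^ 2 / n ^ 2 := by
  rw [one_sub_lam hd]
  have hd' : (0:ℝ) < d := by exact_mod_cast hd
  have hn : (0:ℝ) < n := by exact_mod_cast Nat.pos_of_ne_zero (NeZero.ne n)
  have h1 : ∀ i ∈ (Finset.univ : Finset (Fin d)),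
      (1 - Real.cos (2 * Real.pi * ((ξ i).valMinAbs : ℝ) / n)) ≤ 20 * (nrm ξ : ℝ)^2 / n^2 := by
    intro i _
    have h2 := Real.one_sub_sq_div_two_le_cos (x := 2 * Real.pi * ((ξ i).valMinAbs : ℝ) / n)
    have h3 : (2 * Real.pi * ((ξ i).valMinAbs : ℝ) / n)^2 / 2 =
        2 * Real.pi^2 * ((ξ i).valMinAbs : ℝ)^2 / n^2 := by
      field_simp
    have h4 : ((ξ i).valMinAbs : ℝ)^2 ≤ (nrm ξ : ℝ)^2 := by
      rw [← sq_abs]
      exact pow_le_pow_left₀ (abs_nonneg _) (natAbs_le_nrm ξ i) 2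
    have h5 : Real.pi^2 ≤ 10 := by
      have := Real.pi_lt_d2
      have := Real.pi_pos
      nlinarith
    have h6 : 2 * Real.pi^2 * ((ξ i).valMinAbs : ℝ)^2 ≤ 20 * (nrm ξ : ℝ)^2 := by
      have h7 : 0 ≤ ((ξ i).valMinAbs : ℝ)^2 := sq_nonneg _
      nlinarith
    have h8 : 2 * Real.pi^2 * ((ξ i).valMinAbs : ℝ)^2 / n^2 ≤ 20 * (nrm ξ : ℝ)^2 / n^2 :=
      div_le_div_of_nonneg_right h6 (by positivity)
    linarith
  have h2 := Finset.sum_le_sum h1
  simp only [Finset.sum_const, Finset.card_univ, Fintype.card_fin, nsmul_eq_mul] at h2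
  calc 1 / (2 * (d : ℝ)) * ∑ i, (1 - Real.cos (2 * Real.pi * ((ξ i).valMinAbs : ℝ) / n))
      ≤ 1 / (2 * (d : ℝ)) * (d * (20 * (nrm ξ : ℝ)^2 / n^2)) :=
        mul_le_mul_of_nonneg_left h2 (by positivity)
    _ = 10 * (nrm ξ : ℝ) ^ 2 / n ^ 2 := by
        field_simp
        ring

theorem lam_lt_one (hd : 1 ≤ d) {ξ : Tor d n} (h : ξ ≠ 0) : lam ξ < 1 := by
  have hd' : (0:ℝ) < d := by exact_mod_cast hd
  have hn : (0:ℝ) < n := by exact_mod_cast Nat.pos_of_ne_zero (NeZero.ne n)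
  have h1 := one_sub_lam_ge hd ξ
  have h2 : (0:ℝ) < nrm ξ := by
    have : nrm ξ ≠ 0 := fun h0 => h (nrm_eq_zero.mp h0)
    exact_mod_cast Nat.pos_of_ne_zero this
  have h3 : 0 < 4 * (nrm ξ : ℝ) ^ 2 / (d * n ^ 2) := by positivity
  linarith

end CRW
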