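import Pool.Agent.Lib.CRW.PB1

/-!
# Module PB2: Markov property, densities, translations
-/

open Finset

namespace CRW

variable {d n : ℕ} [NeZero n]

/-- `g` depends only on the positions at times `< t` (and on the position at time `t`) -/
def Loc {d n : ℕ} {E : Type} (t : ℕ) (g : (ℕ → Tor d n) → Tor d n → E) : Prop :=
  ∀ η η' b, (∀ s < t, η s = η' s) → g η b = g η' b

section
variable {E : Type} [AddCommGroup E] [Module ℝ E]

theorem EP_time (s k : ℕ) (g : (ℕ → Tor d n) → Tor d n → E) (hg : Loc s g) :
    EP (s + k) g = EP s fun η a => ∑ b, hk d n k (b - a) • g η b := by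
  induction k generalizing g with
  | zero =>
    congr 1
    funext η a
    have : ∀ b : Tor d n, hk d n 0 (b - a) • g η b = if b = a then g η a else 0 := by
      intro b
      show (if b - a = 0 then (1 : ℝ) else 0) • g η b = _
      by_cases h : b = a
      · subst h; simp
      · rw [if_neg (sub_ne_zero.2 h), if_neg h, zero_smul]
    rw [Finset.sum_congr rfl fun b _ => this b]
    simp
  | succ k ih =>
    have e : EP (s + (k + 1)) g = EP (s + k) fun η b => ∑ w, stp d n w • g η (b + w) := by
      show EP (s + k) (fun η b => ∑ w, stp d n w • g (Function.update η (s + k) b) (b + w)) = _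
      congr 1
      funext η b
      refine Finset.sum_congr rfl fun w _ => ?_
      congr 1
      refine hg _ _ _ fun u hu => ?_
      rw [Function.update_of_ne (by omega)]
    rw [e, ih]
    · congr 1
      funext η a
      -- sum over b of hk k (b - a) sum_w stp w g (b + w) = sum_b hk (k+1) (b - a) g b
      have h1 : ∀ b : Tor d n, hk d n k (b - a) • ∑ w, stp d n w • g η (b + w) =
          ∑ w, (stp d n w * hk d n k (b - a)) • g η (b + w) := by
        intro b
        rw [Finset.smul_sum]
        exact Finset.sum_congr rfl fun w _ => by rw [smul_smul, mul_comm]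
      rw [Finset.sum_congr rfl fun b _ => h1 b, Finset.sum_comm]
      have h2 : ∀ w : Tor d n, ∑ b, (stp d n w * hk d n k (b - a)) • g η (b + w) =
          ∑ b, (stp d n w * hk d n k (b - w - a)) • g η b := by
        intro w
        refine Fintype.sum_equiv (Equiv.addRight w) _ _ fun b => ?_
        simp
      rw [Finset.sum_congr rfl fun w _ => h2 w, Finset.sum_comm]
      refine Finset.sum_congr rfl fun b _ => ?_
      rw [← Finset.sum_smul]
      congr 1
      show _ = ∑ w, stp d n w * hk d n k (b - a + w)
      refine Fintype.sum_equiv (Equiv.neg _) _ _ fun w => ?_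
      show stp d n w * hk d n k (b - w - a) = stp d n (-w) * hk d n k (b - a + -w)
      rw [stp_neg]
      congr 2
      abel
    · intro η η' b h
      exact Finset.sum_congr rfl fun w _ => by rw [hg η η' (b + w) h]

theorem EP_shift (t : ℕ) (g : (ℕ → Tor d n) → Tor d n → E) (hg : Loc t g) (x : Tor d n) :
    EP t (fun η b => g (fun s => η s + x) (b + x)) = EP t g := by
  induction t generalizing g with
  | zero =>
    show (NN d n)⁻¹ • ∑ b, g (fun _ => 0 + x) (b + x) = (NN d n)⁻¹ • ∑ b, g (fun _ => 0) b
    congr 1
    refine Fintype.sum_equiv (Equiv.addRight x) _ _ fun b => ?_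
    exact hg _ _ _ fun s hs => absurd hs (Nat.not_lt_zero s)
  | succ t ih =>
    have hl : Loc t fun (η : ℕ → Tor d n) (b : Tor d n) =>
        ∑ w, stp d n w • g (Function.update η t b) (b + w) := by
      intro η η' b h
      refine Finset.sum_congr rfl fun w _ => ?_
      congr 1
      refine hg _ _ _ fun s hs => ?_
      rcases Nat.lt_succ_iff_lt_or_eq.1 hs with h1 | h1
      · rw [Function.update_of_ne (by omega), Function.update_of_ne (by omega), h s h1]
      · subst h1
        rw [Function.update_self, Function.update_self]
    have h := ih _ hl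
    show EP t (fun η b => ∑ w, stp d n w •
      g (fun s => Function.update η t b s + x) (b + w + x)) = EP t fun η b =>
        ∑ w, stp d n w • g (Function.update η t b) (b + w)
    rw [← h]
    congr 1
    funext η b
    refine Finset.sum_congr rfl fun w _ => ?_
    have e1 : b + w + x = b + x + w := by abel
    have e2 : (fun s => Function.update η t b s + x) =
        Function.update (fun s => η s + x) t (b + x) := by
      funext s
      by_cases hs : s = t
      · subst hs; simp
      · simp [Function.update_of_ne hs]
    rw [e1, e2]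

theorem ER_shift (t : ℕ) (F : (ℕ → Tor d n) → E) (hF : Loc t fun η (_ : Tor d n) => F η)
    (x : Tor d n) : ER t (fun η => F fun s => η s + x) = ER t F :=
  EP_shift t (fun η _ => F η) hF x

/-- a function of the path before `s` and of `k` further positions (only the last one is used) -/
theorem ER_time (s k : ℕ) (F : (ℕ → Tor d n) → E) (hF : Loc s fun η (_ : Tor d n) => F η)
    (hd : 1 ≤ d) : ER (s + k) F = ER s F := by
  unfold ER
  rw [EP_time s k _ hF]
  congr 1
  funext η a
  rw [← Finset.sum_smul]
  have : ∑ b : Tor d n, hk d n k (b - a) = 1 := by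
    rw [← hk_sum (n := n) hd k]
    exact Fintype.sum_equiv (Equiv.subRight a) _ _ fun b => rfl
  rw [this, one_smul]

end

theorem EP_dens (hd : 3 ≤ d) {C κ : ℝ} (hb : HKB d n C κ) {s t : ℕ} (hst : s + n ^ 2 ≤ t)
    (g : (ℕ → Tor d n) → Tor d n → ℝ) (hg : Loc s g) (h0 : ∀ η b, 0 ≤ g η b) :
    EP t g ≤ C / NN d n * ER s fun η => ∑ b, g η b := by
  have hts : t = s + (t - s) := by omega
  rw [hts, EP_time s (t - s) g hg]
  have h1 : C / NN d n * ER s (fun η => ∑ b, g η b) =
      EP s fun η (_ : Tor d n) => (C / NN d n) • ∑ b, g η b := by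
    rw [EP_smul]
    rfl
  rw [h1]
  refine EP_mono _ _ _ fun η a => ?_
  rw [smul_eq_mul, Finset.mul_sum]
  refine Finset.sum_le_sum fun b _ => ?_
  exact mul_le_mul_of_nonneg_right (hb.dens _ _ (by omega)) (h0 η b)

end CRW
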