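import Pool.Agent.Lib.CRW.EA
import Pool.Agent.Lib.CRW.FO1
import Pool.Agent.Lib.CRW.PB2

/-!
# Module L14: the second moment of the test statistic

PROOFS.  `ER_ch`: `ER H (fun η => ch ξ (η j)) = 0` for `ξ ≠ 0`, `j < H`: the function is local for `j + 1`: `ER_time`, `ER_succ`, `EP_unif`, `sum_ch`.
`ER_ch_ch`: for `j ≤ k < H`: `ER H (fun η => ch ξ (η j) * conj (ch ξ' (η k)))`: `ER_time` to time `k + 1`, `ER_succ`, `EP_time` from `k` to `j`
(the function of the position at time `k` and of `η j`; if `j = k` directly): `= NN⁻¹ ∑ b, ch ξ b * ∑ b', hk (k-j) (b'-b) conj (ch ξ' b')`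
`= NN⁻¹ ∑ b, ch ξ b lam ξ'^(k-j) conj (ch ξ' b)` (`hk_ch`) `= 0` if `ξ ≠ ξ'` and `lam^(k-j)` if `ξ = ξ'` (`sum_ch`, `ch_add_left`, `ch_neg_left`).
Let `L ξ = ∑_{j ∈ J} ch ξ (η j)`, `#J = t₀`, `J ⊆ range H`.  `ER (L ξ * conj (L ξ')) = 0` for `ξ ≠ ξ'` (for `k < j` take conjugates), and
`ER |L ξ|² = ∑_{j,k ∈ J} lam^|j-k| ≤ t₀ * 2/(1-lam ξ)` (`lam_nonneg`, geometric series).
`Tst_mean`: `Tst = Re (NN⁻¹ ∑ ξ, L ξ η * conj (L' ξ η'))`, `ER` over `η` is zero (`0 ∉ XI`).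
`Tst_sq`: with `Z = NN⁻¹ ∑_{ξ ∈ XI} L ξ η * conj (L' ξ η')`: `Tst² = (Re Z)² ≤ |Z|² = Re (Z conj Z)`, and
`E2 (Z conj Z) = NN⁻² ∑ ξ, ∑ ξ', ER (L ξ conj (L ξ')) * ER (conj (L' ξ) L' ξ') = NN⁻² ∑ ξ, ER|L ξ|² ER|L' ξ|² ≤ NN⁻² ∑ ξ, (2 t₀/(1-lam ξ))²`.
-/

open Finset

namespace CRW

variable {d n : ℕ} [NeZero n]

private theorem ER_mulL (H : ℕ) (c : ℂ) (F : (ℕ → Tor d n) → ℂ) :
    ER H (fun η => c * F η) = c * ER H F :=
  EP_map (LinearMap.mulLeft ℝ c) H (fun η _ => F η)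

private theorem ER_mulR (H : ℕ) (c : ℂ) (F : (ℕ → Tor d n) → ℂ) :
    ER H (fun η => F η * c) = ER H F * c :=
  EP_map (LinearMap.mulRight ℝ c) H (fun η _ => F η)

private theorem ER_sumE {E : Type} [AddCommGroup E] [Module ℝ E] {ι : Type} (H : ℕ) (s : Finset ι)
    (F : ι → (ℕ → Tor d n) → E) :
    ER H (fun η => ∑ i ∈ s, F i η) = ∑ i ∈ s, ER H (F i) :=
  EP_sum H s (fun i η _ => F i η)

private theorem ER_conj (H : ℕ) (F : (ℕ → Tor d n) → ℂ) :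
    ER H (fun η => (starRingEnd ℂ) (F η)) = (starRingEnd ℂ) (ER H F) :=
  EP_map (Complex.conjAe.toLinearMap) H (fun η _ => F η)

private theorem ER_reE (H : ℕ) (F : (ℕ → Tor d n) → ℂ) :
    ER H (fun η => (F η).re) = (ER H F).re :=
  EP_map Complex.reLm H (fun η _ => F η)

private theorem ER_ofR (H : ℕ) (F : (ℕ → Tor d n) → ℝ) :
    ER H (fun η => ((F η : ℝ) : ℂ)) = ((ER H F : ℝ) : ℂ) :=
  EP_map (Complex.ofRealCLM.toLinearMap) H (fun η _ => F η)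

private theorem ER_zeroE {E : Type} [AddCommGroup E] [Module ℝ E] (H : ℕ) :
    ER H (fun _ : ℕ → Tor d n => (0 : E)) = 0 := by
  have := ER_sumE (d := d) (n := n) (E := E) (ι := ℕ) H ∅ (fun _ _ => 0)
  simpa using this

private theorem ER_ch (hd : 1 ≤ d) (H j : ℕ) (hj : j < H) {ξ : Tor d n} (hξ : ξ ≠ 0) :
    ER H (fun η => ch ξ (η j)) = 0 := by
  obtain ⟨k, rfl⟩ : ∃ k, H = (j + 1) + k := ⟨H - (j + 1), by omega⟩
  rw [ER_time (j + 1) k _ (fun η η' b h => by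
    show ch ξ (η j) = ch ξ (η' j)
    rw [h j (by omega)]) hd, ER_succ hd]
  simp only [Function.update_self]
  rw [EP_unif j hd (fun b => ch ξ b), sum_ch, if_neg hξ, smul_zero]

private theorem sum_ch_ch (ξ ξ' : Tor d n) :
    ∑ b, ch ξ b * (starRingEnd ℂ) (ch ξ' b) = if ξ = ξ' then (NN d n : ℂ) else 0 := by
  have h : ∀ b, ch ξ b * (starRingEnd ℂ) (ch ξ' b) = ch (ξ + -ξ') b := by
    intro b
    rw [ch_add_left, ch_neg_left]
  simp only [h, sum_ch]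
  congr 1
  rw [← sub_eq_add_neg, sub_eq_zero]

private theorem ER_ch_ch_le (hd : 1 ≤ d) (H j k : ℕ) (hjk : j ≤ k) (hk' : k < H)
    (ξ ξ' : Tor d n) :
    ER H (fun η => ch ξ (η j) * (starRingEnd ℂ) (ch ξ' (η k))) =
      if ξ = ξ' then (lam ξ : ℂ) ^ (k - j) else 0 := by
  obtain ⟨m, rfl⟩ : ∃ m, H = (k + 1) + m := ⟨H - (k + 1), by omega⟩
  have hNN : (NN d n : ℂ) ≠ 0 := by exact_mod_cast (NN_pos (d := d) (n := n)).ne'
  rw [ER_time (k + 1) m _ (fun η η' b h => by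
    show ch ξ (η j) * (starRingEnd ℂ) (ch ξ' (η k)) = ch ξ (η' j) * (starRingEnd ℂ) (ch ξ' (η' k))
    rw [h j (by omega), h k (by omega)]) hd, ER_succ hd]
  -- the final computation
  have fin : ∀ (t r : ℕ), EP (d := d) (n := n) t (fun _ b => ch ξ b * ((lam ξ' : ℂ) ^ r *
      (starRingEnd ℂ) (ch ξ' b))) = if ξ = ξ' then (lam ξ : ℂ) ^ r else 0 := by
    intro t r
    rw [EP_unif t hd (fun b => ch ξ b * ((lam ξ' : ℂ) ^ r * (starRingEnd ℂ) (ch ξ' b)))]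
    have h2 : ∑ b, ch ξ b * ((lam ξ' : ℂ) ^ r * (starRingEnd ℂ) (ch ξ' b)) =
        (lam ξ' : ℂ) ^ r * ∑ b, ch ξ b * (starRingEnd ℂ) (ch ξ' b) := by
      rw [Finset.mul_sum]
      exact Finset.sum_congr rfl fun b _ => by ring
    rw [h2, sum_ch_ch, Complex.real_smul]
    by_cases hξ : ξ = ξ'
    · subst hξ
      rw [if_pos rfl, if_pos rfl]
      push_cast
      field_simp
    · rw [if_neg hξ, if_neg hξ, mul_zero, mul_zero]
  rcases Nat.eq_or_lt_of_le hjk with h | h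
  · subst h
    simp only [Function.update_self, Nat.sub_self, pow_zero]
    have := fin j 0
    simpa using this
  · have h0 : ∀ (η : ℕ → Tor d n) (b : Tor d n), ch ξ ((Function.update η k b) j) *
        (starRingEnd ℂ) (ch ξ' ((Function.update η k b) k)) =
        ch ξ (η j) * (starRingEnd ℂ) (ch ξ' b) := by
      intro η b
      rw [Function.update_self, Function.update_of_ne (by omega)]
    simp only [h0]
    obtain ⟨r, rfl⟩ : ∃ r, k = (j + 1) + r := ⟨k - (j + 1), by omega⟩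
    rw [EP_time (j + 1) r _ (fun η η' b h => by
      show ch ξ (η j) * (starRingEnd ℂ) (ch ξ' b) = ch ξ (η' j) * (starRingEnd ℂ) (ch ξ' b)
      rw [h j (by omega)])]
    have h1 : ∀ (η : ℕ → Tor d n) (a : Tor d n), ∑ b, hk d n r (b - a) •
        (ch ξ (η j) * (starRingEnd ℂ) (ch ξ' b)) =
        ch ξ (η j) * ((lam ξ' : ℂ) ^ r * (starRingEnd ℂ) (ch ξ' a)) := by
      intro η a
      have h2 := hk_ch hd r ξ' a
      have h3 : (starRingEnd ℂ) (∑ b, ch ξ' b * (hk d n r (b - a) : ℂ)) =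
          (lam ξ' : ℂ) ^ r * (starRingEnd ℂ) (ch ξ' a) := by
        rw [h2, map_mul, map_pow, Complex.conj_ofReal]
      rw [← h3, map_sum, Finset.mul_sum]
      apply Finset.sum_congr rfl
      intro b _
      rw [map_mul, Complex.conj_ofReal, Complex.real_smul]
      ring
    simp only [h1]
    show EP j (fun (η : ℕ → Tor d n) b => ∑ w, stp d n w • (ch ξ ((Function.update η j b) j) *
      ((lam ξ' : ℂ) ^ r * (starRingEnd ℂ) (ch ξ' (b + w))))) = _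
    have h2 : ∀ (η : ℕ → Tor d n) (b : Tor d n), ∑ w, stp d n w •
        (ch ξ ((Function.update η j b) j) *
        ((lam ξ' : ℂ) ^ r * (starRingEnd ℂ) (ch ξ' (b + w)))) =
        ch ξ b * ((lam ξ' : ℂ) ^ (r + 1) * (starRingEnd ℂ) (ch ξ' b)) := by
      intro η b
      rw [Function.update_self]
      have h3 := step_ch hd ξ' b
      have h4 : (starRingEnd ℂ) (∑ w, (stp d n w : ℂ) * ch ξ' (b + w)) =
          (lam ξ' : ℂ) * (starRingEnd ℂ) (ch ξ' b) := by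
        rw [h3, map_mul, Complex.conj_ofReal]
      rw [pow_succ, mul_assoc, ← h4, map_sum, Finset.mul_sum, Finset.mul_sum]
      apply Finset.sum_congr rfl
      intro w _
      rw [map_mul, Complex.conj_ofReal, Complex.real_smul]
      ring
    simp only [h2]
    rw [fin j (r + 1)]
    congr 2
    omega

private theorem ER_ch_ch (hd : 1 ≤ d) (H j k : ℕ) (hj : j < H) (hk' : k < H)
    (ξ ξ' : Tor d n) :
    ER H (fun η => ch ξ (η j) * (starRingEnd ℂ) (ch ξ' (η k))) =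
      if ξ = ξ' then ((lam ξ ^ ((k - j) + (j - k)) : ℝ) : ℂ) else 0 := by
  rcases le_total j k with h | h
  · rw [ER_ch_ch_le hd H j k h hk']
    rw [show k - j + (j - k) = k - j by omega]
    push_cast
    rfl
  · have h1 : ∀ η : ℕ → Tor d n, ch ξ (η j) * (starRingEnd ℂ) (ch ξ' (η k)) =
        (starRingEnd ℂ) (ch ξ' (η k) * (starRingEnd ℂ) (ch ξ (η j))) := by
      intro η
      rw [map_mul, Complex.conj_conj, mul_comm]
    simp only [h1]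
    rw [ER_conj H (fun η => ch ξ' (η k) * (starRingEnd ℂ) (ch ξ (η j))),
      ER_ch_ch_le hd H k j h hj]
    rw [show k - j + (j - k) = j - k by omega]
    by_cases hξ : ξ = ξ'
    · subst hξ
      rw [if_pos rfl, if_pos rfl, map_pow, Complex.conj_ofReal]
      push_cast
      rfl
    · rw [if_neg hξ, if_neg (Ne.symm hξ), map_zero]

/-- the sum of a character over the positions -/
private noncomputable def LL (J : Finset ℕ) (ξ : Tor d n) (η : ℕ → Tor d n) : ℂ :=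
  ∑ j ∈ J, ch ξ (η j)

private noncomputable def aa (J : Finset ℕ) (ξ : Tor d n) : ℝ :=
  ∑ j ∈ J, ∑ k ∈ J, lam ξ ^ ((k - j) + (j - k))

private theorem ER_LL (hd : 1 ≤ d) (H : ℕ) (J : Finset ℕ) (hJ : ∀ j ∈ J, j < H)
    (ξ ξ' : Tor d n) :
    ER H (fun η => LL J ξ η * (starRingEnd ℂ) (LL J ξ' η)) =
      if ξ = ξ' then ((aa J ξ : ℝ) : ℂ) else 0 := by
  have h1 : ∀ η : ℕ → Tor d n, LL J ξ η * (starRingEnd ℂ) (LL J ξ' η) =
      ∑ j ∈ J, ∑ k ∈ J, ch ξ (η j) * (starRingEnd ℂ) (ch ξ' (η k)) := by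
    intro η
    unfold LL
    rw [map_sum, Finset.sum_mul_sum]
  simp only [h1]
  rw [ER_sumE]
  have h2 : ∀ j ∈ J, ER H (fun η : ℕ → Tor d n => ∑ k ∈ J,
      ch ξ (η j) * (starRingEnd ℂ) (ch ξ' (η k))) =
      if ξ = ξ' then ((∑ k ∈ J, lam ξ ^ ((k - j) + (j - k)) : ℝ) : ℂ) else 0 := by
    intro j hj
    rw [ER_sumE, Finset.sum_congr rfl fun k hk => ER_ch_ch hd H j k (hJ j hj) (hJ k hk) ξ ξ']
    split_ifs
    · push_cast; rfl
    · simp
  rw [Finset.sum_congr rfl h2]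
  split_ifs
  · unfold aa; push_cast; rfl
  · simp

private theorem geo_le {x : ℝ} (h0 : 0 ≤ x) (h1 : x < 1) (m : ℕ) :
    ∑ i ∈ range m, x ^ i ≤ 1 / (1 - x) := by
  have h2 : 0 < 1 - x := by linarith
  rw [le_div_iff₀ h2, mul_comm, mul_neg_geom_sum]
  have := pow_nonneg h0 m
  linarith

private theorem geo_two {x : ℝ} (h0 : 0 ≤ x) (h1 : x < 1) (J : Finset ℕ) (j : ℕ) :
    ∑ k ∈ J, x ^ ((k - j) + (j - k)) ≤ 2 * (1 / (1 - x)) := by
  obtain ⟨M, hM⟩ : ∃ M, ∀ k ∈ J, k < j + M := by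
    refine ⟨J.sup id + 1, fun k hk => ?_⟩
    have : k ≤ J.sup id := Finset.le_sup (f := id) hk
    omega
  have h2 : ∑ k ∈ J, x ^ ((k - j) + (j - k)) ≤
      ∑ k ∈ range (j + M), x ^ ((k - j) + (j - k)) := by
    apply Finset.sum_le_sum_of_subset_of_nonneg
    · intro k hk
      exact Finset.mem_range.2 (hM k hk)
    · intro k _ _
      exact pow_nonneg h0 _
  refine h2.trans ?_
  rw [Finset.sum_range_add]
  have h3 : ∑ k ∈ range j, x ^ ((k - j) + (j - k)) ≤ 1 / (1 - x) := by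
    rw [← Finset.sum_range_reflect]
    refine le_trans (Finset.sum_le_sum fun k hk => ?_) (geo_le h0 h1 j)
    rw [Finset.mem_range] at hk
    refine pow_le_pow_of_le_one h0 h1.le ?_
    omega
  have h4 : ∑ k ∈ range M, x ^ ((j + k - j) + (j - (j + k))) ≤ 1 / (1 - x) := by
    refine le_trans (Finset.sum_le_sum fun k hk => ?_) (geo_le h0 h1 M)
    refine pow_le_pow_of_le_one h0 h1.le ?_
    omega
  linarith

private theorem aa_nonneg (hd : 1 ≤ d) (J : Finset ℕ) (ξ : Tor d n) : 0 ≤ aa J ξ :=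
  Finset.sum_nonneg fun _ _ => Finset.sum_nonneg fun _ _ => pow_nonneg (lam_nonneg hd ξ) _

private theorem aa_le (hd : 1 ≤ d) (J : Finset ℕ) {ξ : Tor d n} (hξ : ξ ≠ 0) :
    aa J ξ ≤ J.card * (2 * (1 / (1 - lam ξ))) := by
  unfold aa
  calc _ ≤ ∑ j ∈ J, 2 * (1 / (1 - lam ξ)) :=
        Finset.sum_le_sum fun j _ => geo_two (lam_nonneg hd ξ) (lam_lt_one hd hξ) J j
    _ = _ := by rw [Finset.sum_const, nsmul_eq_mul]

private theorem ch_sub (ξ x y : Tor d n) : ch ξ (x - y) = ch ξ x * (starRingEnd ℂ) (ch ξ y) := by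
  rw [sub_eq_add_neg, ch_add, ch_neg]

/-- the complex test statistic -/
private noncomputable def ZZ (δ : ℝ) (J J' : Finset ℕ) (η η' : ℕ → Tor d n) : ℂ :=
  ∑ ξ ∈ XI d n δ, LL J ξ η * (starRingEnd ℂ) (LL J' ξ η')

private theorem Tst_eq (δ : ℝ) (t₀ : ℕ) (η η' : ℕ → Tor d n) :
    Tst δ t₀ η η' = (NN d n)⁻¹ * (ZZ δ (Ico t₀ (2 * t₀)) (Ico (4 * t₀) (5 * t₀)) η η').re := by
  unfold Tst ZZ
  congr 1
  rw [Complex.re_sum]
  apply Finset.sum_congr rfl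
  intro ξ _
  congr 1
  unfold LL
  rw [map_sum, Finset.sum_mul_sum]
  apply Finset.sum_congr rfl
  intro j _
  apply Finset.sum_congr rfl
  intro k _
  exact ch_sub _ _ _

private theorem ne_zero_of_mem_XI {δ : ℝ} {ξ : Tor d n} (h : ξ ∈ XI d n δ) : ξ ≠ 0 := by
  unfold XI at h
  exact (Finset.mem_filter.1 h).2.1

theorem Tst_mean (hd : 1 ≤ d) (δ : ℝ) (t₀ H : ℕ) (hH : 5 * t₀ ≤ H) :
    E2 H (fun (η η' : ℕ → Tor d n) _ => Tst δ t₀ η η') = 0 := by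
  unfold E2
  simp only [cavg_const, Tst_eq]
  have h1 : ∀ η : ℕ → Tor d n, ER H (fun η' : ℕ → Tor d n => (NN d n)⁻¹ *
      (ZZ δ (Ico t₀ (2 * t₀)) (Ico (4 * t₀) (5 * t₀)) η η').re) = 0 := by
    intro η
    have h2 := EP_smul (d := d) (n := n) H ((NN d n)⁻¹)
      (fun η' _ => (ZZ δ (Ico t₀ (2 * t₀)) (Ico (4 * t₀) (5 * t₀)) η η').re)
    have h3 : ER H (fun η' : ℕ → Tor d n => (NN d n)⁻¹ *
      (ZZ δ (Ico t₀ (2 * t₀)) (Ico (4 * t₀) (5 * t₀)) η η').re) = (NN d n)⁻¹ *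
      ER H (fun η' : ℕ → Tor d n =>
        (ZZ δ (Ico t₀ (2 * t₀)) (Ico (4 * t₀) (5 * t₀)) η η').re) := h2
    rw [h3, ER_reE]
    unfold ZZ
    rw [ER_sumE, Finset.sum_eq_zero, Complex.zero_re, mul_zero]
    intro ξ hξ
    rw [ER_mulL, ER_conj]
    have h4 : ER H (LL (d := d) (n := n) (Ico (4 * t₀) (5 * t₀)) ξ) = 0 := by
      have h5 : ER H (fun η : ℕ → Tor d n => ∑ j ∈ Ico (4 * t₀) (5 * t₀), ch ξ (η j)) = 0 := by
        rw [ER_sumE]
        refine Finset.sum_eq_zero fun j hj => ?_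
        rw [Finset.mem_Ico] at hj
        exact ER_ch hd H j (by omega) (ne_zero_of_mem_XI hξ)
      exact h5
    rw [h4, map_zero, mul_zero]
  simp only [h1]
  exact ER_zeroE H

private theorem E2_normSq (hd : 1 ≤ d) (δ : ℝ) (J J' : Finset ℕ) (H : ℕ)
    (hJ : ∀ j ∈ J, j < H) (hJ' : ∀ j ∈ J', j < H) :
    ER H (fun η : ℕ → Tor d n => ER H fun η' : ℕ → Tor d n => Complex.normSq (ZZ δ J J' η η')) =
      ∑ ξ ∈ XI d n δ, aa J ξ * aa J' ξ := by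
  have hC : (((ER H (fun η : ℕ → Tor d n => ER H fun η' : ℕ → Tor d n =>
      Complex.normSq (ZZ δ J J' η η'))) : ℝ) : ℂ) =
      ((∑ ξ ∈ XI d n δ, aa J ξ * aa J' ξ : ℝ) : ℂ) := by
    rw [← ER_ofR]
    simp only [← ER_ofR]
    have h1 : ∀ η η' : ℕ → Tor d n, ((Complex.normSq (ZZ δ J J' η η') : ℝ) : ℂ) =
        ∑ ξ ∈ XI d n δ, ∑ ξ' ∈ XI d n δ, (LL J ξ η * (starRingEnd ℂ) (LL J ξ' η)) *
          (LL J' ξ' η' * (starRingEnd ℂ) (LL J' ξ η')) := by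
      intro η η'
      rw [← Complex.mul_conj]
      unfold ZZ
      rw [map_sum, Finset.sum_mul_sum]
      apply Finset.sum_congr rfl
      intro ξ _
      apply Finset.sum_congr rfl
      intro ξ' _
      rw [map_mul, Complex.conj_conj]
      ring
    simp only [h1]
    have h2 : ∀ η : ℕ → Tor d n, ER H (fun η' : ℕ → Tor d n =>
        ∑ ξ ∈ XI d n δ, ∑ ξ' ∈ XI d n δ, (LL J ξ η * (starRingEnd ℂ) (LL J ξ' η)) *
          (LL J' ξ' η' * (starRingEnd ℂ) (LL J' ξ η'))) =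
        ∑ ξ ∈ XI d n δ, (LL J ξ η * (starRingEnd ℂ) (LL J ξ η)) * ((aa J' ξ : ℝ) : ℂ) := by
      intro η
      rw [ER_sumE]
      apply Finset.sum_congr rfl
      intro ξ hξ
      rw [ER_sumE, Finset.sum_eq_single ξ]
      · rw [ER_mulL, ER_LL hd H J' hJ', if_pos rfl]
      · intro ξ' _ hne
        rw [ER_mulL, ER_LL hd H J' hJ', if_neg hne, mul_zero]
      · intro h
        exact absurd hξ h
    simp only [h2]
    rw [ER_sumE]
    push_cast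
    apply Finset.sum_congr rfl
    intro ξ _
    rw [ER_mulR, ER_LL hd H J hJ, if_pos rfl]
  exact_mod_cast hC

theorem Tst_sq (hd : 1 ≤ d) (δ : ℝ) (t₀ H : ℕ) (hH : 5 * t₀ ≤ H) :
    E2 H (fun (η η' : ℕ → Tor d n) _ => Tst δ t₀ η η' ^ 2) ≤
      4 * (t₀ / NN d n) ^ 2 * SX d n δ := by
  unfold E2
  simp only [cavg_const, Tst_eq]
  have hJ : ∀ j ∈ Ico t₀ (2 * t₀), j < H := fun j hj => by
    rw [Finset.mem_Ico] at hj; omega
  have hJ' : ∀ j ∈ Ico (4 * t₀) (5 * t₀), j < H := fun j hj => by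
    rw [Finset.mem_Ico] at hj; omega
  have hN := NN_pos (d := d) (n := n)
  have h1 : ER H (fun η : ℕ → Tor d n => ER H fun η' : ℕ → Tor d n =>
      ((NN d n)⁻¹ * (ZZ δ (Ico t₀ (2 * t₀)) (Ico (4 * t₀) (5 * t₀)) η η').re) ^ 2) ≤
      ER H (fun η : ℕ → Tor d n => ER H fun η' : ℕ → Tor d n =>
      ((NN d n)⁻¹) ^ 2 *
        Complex.normSq (ZZ δ (Ico t₀ (2 * t₀)) (Ico (4 * t₀) (5 * t₀)) η η')) := by
    refine EP_mono H _ _ fun η _ => EP_mono H _ _ fun η' _ => ?_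
    show ((NN d n)⁻¹ * (ZZ δ (Ico t₀ (2 * t₀)) (Ico (4 * t₀) (5 * t₀)) η η').re) ^ 2 ≤
      ((NN d n)⁻¹) ^ 2 *
        Complex.normSq (ZZ δ (Ico t₀ (2 * t₀)) (Ico (4 * t₀) (5 * t₀)) η η')
    rw [mul_pow]
    refine mul_le_mul_of_nonneg_left ?_ (by positivity)
    rw [Complex.normSq_apply]
    nlinarith [sq_nonneg (ZZ δ (Ico t₀ (2 * t₀)) (Ico (4 * t₀) (5 * t₀)) η η').im]
  refine h1.trans ?_
  have h2 : ER H (fun η : ℕ → Tor d n => ER H fun η' : ℕ → Tor d n =>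
      ((NN d n)⁻¹) ^ 2 *
        Complex.normSq (ZZ δ (Ico t₀ (2 * t₀)) (Ico (4 * t₀) (5 * t₀)) η η')) =
      ((NN d n)⁻¹) ^ 2 * ER H (fun η : ℕ → Tor d n => ER H fun η' : ℕ → Tor d n =>
        Complex.normSq (ZZ δ (Ico t₀ (2 * t₀)) (Ico (4 * t₀) (5 * t₀)) η η')) := by
    have h3 : ∀ η : ℕ → Tor d n, ER H (fun η' : ℕ → Tor d n => ((NN d n)⁻¹) ^ 2 *
        Complex.normSq (ZZ δ (Ico t₀ (2 * t₀)) (Ico (4 * t₀) (5 * t₀)) η η')) =
        ((NN d n)⁻¹) ^ 2 * ER H fun η' : ℕ → Tor d n =>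
        Complex.normSq (ZZ δ (Ico t₀ (2 * t₀)) (Ico (4 * t₀) (5 * t₀)) η η') := fun η =>
      EP_smul H (((NN d n)⁻¹) ^ 2) (fun η' _ =>
        Complex.normSq (ZZ δ (Ico t₀ (2 * t₀)) (Ico (4 * t₀) (5 * t₀)) η η'))
    simp only [h3]
    exact EP_smul H (((NN d n)⁻¹) ^ 2) (fun η _ => ER H fun η' : ℕ → Tor d n =>
        Complex.normSq (ZZ δ (Ico t₀ (2 * t₀)) (Ico (4 * t₀) (5 * t₀)) η η'))
  rw [h2, E2_normSq hd δ _ _ H hJ hJ']
  have h3 : ∀ ξ ∈ XI d n δ, aa (Ico t₀ (2 * t₀)) ξ * aa (Ico (4 * t₀) (5 * t₀)) ξ ≤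
      4 * (t₀ : ℝ) ^ 2 * (1 / (1 - lam ξ) ^ 2) := by
    intro ξ hξ
    have hne := ne_zero_of_mem_XI hξ
    have hl := lam_lt_one hd hne
    have h4 := aa_le hd (Ico t₀ (2 * t₀)) hne
    have h5 := aa_le hd (Ico (4 * t₀) (5 * t₀)) hne
    rw [Nat.card_Ico, show 2 * t₀ - t₀ = t₀ by omega] at h4
    rw [Nat.card_Ico, show 5 * t₀ - 4 * t₀ = t₀ by omega] at h5
    have h6 : 0 < 1 - lam ξ := by linarith
    calc _ ≤ (t₀ * (2 * (1 / (1 - lam ξ)))) * (t₀ * (2 * (1 / (1 - lam ξ)))) :=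
          mul_le_mul h4 h5 (aa_nonneg hd _ _) (by positivity)
      _ = _ := by
        field_simp
        norm_num
  calc _ ≤ ((NN d n)⁻¹) ^ 2 * ∑ ξ ∈ XI d n δ, 4 * (t₀ : ℝ) ^ 2 * (1 / (1 - lam ξ) ^ 2) :=
        mul_le_mul_of_nonneg_left (Finset.sum_le_sum h3) (by positivity)
    _ = _ := by
      rw [← Finset.mul_sum]
      unfold SX
      rw [div_pow, inv_pow]
      ring

end CRW
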