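import Pool.Agent.Lib.CRW.L13
import Pool.Agent.Lib.CRW.L14
import Pool.Agent.Lib.CRW.L10

/-!
# Module L15: the lower bound in terms of `SX`

PROOF.  Let `c₁, S0, n0` be as in `DD_lower`, `C', κ'` as in `cov_lower`.  Fix `s₀ ≥ max S0 1` with `C'/√s₀ ≤ c₁/8`, `ε ∈ (0,1]` with `C' ε ≤ c₁/8`, `δ > 0` with
`C' δ ≤ c₁/8`; `t₀ = ⌊ε NN⌋`.  For `n ≥ n1`: `2 s₀ ≤ n^2`, `4 s₀ ≤ t₀`, `4 n^2 ≤ t₀`, `t₀ ≥ ε NN/2` (`NN ≥ n^3`), and `C' e^(-κ' t₀/n^2) ≤ C' e^(-κ' ε n/2) ≤ c₁/8`.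
For `H ≥ max H0 (7t₀ + 1)`: `c₁ ≤ DD`, so by `cov_lower` `E2 (F_i * Tst) ≥ (t₀/NN)² SX (c₁/2)` where `F_i` is the sum over `x` for `gA` or `gB` and the direction `i`.
`NA = F_i` for `gA` with any direction `i` (`lrec (st i) η x H 0 = frec η (x + 0) H`), `NB = ∑ i, F_i` for `gB` (definition `lrec`; `x + st i 0 = x`).
`V2_ge` with `Tst_mean`, `Tst_sq`: `V2 NA ≥ ((t₀/NN)² SX c₁/2)² / (4 (t₀/NN)² SX) = c₁²/16 (t₀/NN)² SX ≥ c₁² ε²/64 SX` (if `SX = 0` the claim is `0 ≤ V2`).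
Same for `NB`: `E2 (NB Tst) = ∑ i, E2 (F_i Tst) ≥ (t₀/NN)² SX c₁/2` (`d ≥ 1` nonnegative terms, one of them at least this).
-/

open Finset

namespace CRW

variable {d : ℕ}

/-- the number of sites marked `1` -/
noncomputable def NA {n : ℕ} (H : ℕ) [NeZero n] (η η' : ℕ → Tor d n) (c : Tor d n → Bool) : ℝ :=
  ∑ x, if colB (frec η x H) (frec η' x H) (c x) then 1 else 0

/-- the number of edges with two different marks -/
noncomputable def NB {n : ℕ} (H : ℕ) [NeZero n] (η η' : ℕ → Tor d n) (c : Tor d n → Bool) : ℝ :=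
  ∑ i : Fin d, ∑ x, if colB (frec η x H) (frec η' x H) (c x) ≠
    colB (frec η (x + Pi.single i 1) H) (frec η' (x + Pi.single i 1) H)
      (c (x + Pi.single i 1)) then 1 else 0

theorem NA_eq {n : ℕ} [NeZero n] (i : Fin d) (H : ℕ) (η η' : ℕ → Tor d n)
    (c : Tor d n → Bool) : NA H η η' c =
      ∑ x, gA (lrec (st i) η x H) (lrec (st i) η' x H) fun j => c (x + st i j) := by
  unfold NA gA lrec
  refine Finset.sum_congr rfl fun x _ => ?_
  have h0 : x + (st (n := n) i) 0 = x := by simp [st]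
  simp only [h0]

theorem NB_eq {n : ℕ} [NeZero n] (H : ℕ) (η η' : ℕ → Tor d n) (c : Tor d n → Bool) :
    NB H η η' c = ∑ i, ∑ x,
      gB (lrec (st i) η x H) (lrec (st i) η' x H) fun j => c (x + st i j) := by
  unfold NB gB lrec
  refine Finset.sum_congr rfl fun i _ => Finset.sum_congr rfl fun x _ => ?_
  have h0 : x + (st (n := n) i) 0 = x := by simp [st]
  have h1 : (st (n := n) i) 1 = Pi.single i 1 := by simp [st]
  simp only [h0, h1]

private theorem final_ineq {V E r S c1 T : ℝ} (hr : 0 < r) (hS : 0 ≤ S) (hc : 0 < c1)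
    (hV : 0 ≤ V) (h1 : r * S * (c1 / 2) ≤ E) (h2 : E ^ 2 ≤ V * T) (h3 : T ≤ 4 * r * S) :
    c1 ^ 2 / 16 * r * S ≤ V := by
  rcases hS.eq_or_lt with h0 | h0
  · rw [← h0]; simpa using hV
  · have hrS : 0 < r * S := mul_pos hr h0
    have hE : (r * S * (c1 / 2)) ^ 2 ≤ E ^ 2 := by
      apply pow_le_pow_left₀ (by positivity) h1
    have h4 : (r * S * (c1 / 2)) ^ 2 ≤ V * (4 * r * S) :=
      hE.trans (h2.trans (mul_le_mul_of_nonneg_left h3 hV))
    have h5 : r * S * (r * S * c1 ^ 2 / 4) ≤ r * S * (4 * V) := by nlinarith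
    have h6 := le_of_mul_le_mul_left h5 hrS
    nlinarith

theorem lower_SX (hd : 3 ≤ d) (C κ : ℝ) : ∃ c δ : ℝ, 0 < c ∧ 0 < δ ∧ ∃ n0 : ℕ,
    ∀ (n : ℕ) [NeZero n], n0 ≤ n → HKB d n C κ → ∃ H0 : ℕ, ∀ H : ℕ, H0 ≤ H →
      c * SX d n δ ≤ V2 (d := d) (n := n) H (NA H) ∧
        c * SX d n δ ≤ V2 (d := d) (n := n) H (NB H) := by
  obtain ⟨c1, hc1, S0, n1, hD⟩ := DD_lower hd C κ
  obtain ⟨C', κ', hC', hκ', hcov⟩ := cov_lower hd C κ
  have hC0 : 0 < C' := by linarith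
  set δ : ℝ := c1 / (8 * C') with hδ
  have hδ0 : 0 < δ := by positivity
  set ε : ℝ := min 1 δ with hε
  have hε0 : 0 < ε := lt_min one_pos hδ0
  set s₀ : ℕ := max S0 (max 1 ⌈(1 / δ) ^ 2⌉₊) with hs₀
  have hs1 : 1 ≤ s₀ := le_trans (le_max_left _ _) (le_max_right _ _)
  have hsS : S0 ≤ s₀ := le_max_left _ _
  have hsr : 1 / Real.sqrt s₀ ≤ δ := by
    have h1 : (1 / δ) ^ 2 ≤ (s₀ : ℝ) := by
      refine (Nat.le_ceil _).trans ?_
      exact_mod_cast le_trans (le_max_right _ _) (le_max_right _ _)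
    have h2 : 1 / δ ≤ Real.sqrt s₀ := by
      apply Real.le_sqrt_of_sq_le h1
    rw [div_le_iff₀ (by positivity)]
    rw [div_le_iff₀ hδ0] at h2
    linarith
  set n0 : ℕ := max n1 (⌈8 / ε⌉₊ + s₀ + 2 + ⌈2 / (κ' * ε * δ)⌉₊) with hn0
  refine ⟨c1 ^ 2 / 16 * (ε / 2) ^ 2, δ, by positivity, hδ0, n0, ?_⟩
  intro n _ hn hb
  have hn1 : n1 ≤ n := le_trans (le_max_left _ _) hn
  have hnn : ⌈8 / ε⌉₊ + s₀ + 2 + ⌈2 / (κ' * ε * δ)⌉₊ ≤ n := le_trans (le_max_right _ _) hn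
  have hna : 8 / ε ≤ (n : ℝ) := by
    refine (Nat.le_ceil _).trans ?_
    exact_mod_cast (by omega : ⌈8 / ε⌉₊ ≤ n)
  have hnb : s₀ ≤ n := by omega
  have hnc : 2 ≤ n := by omega
  have hnd : 2 / (κ' * ε * δ) ≤ (n : ℝ) := by
    refine (Nat.le_ceil _).trans ?_
    exact_mod_cast (by omega : ⌈2 / (κ' * ε * δ)⌉₊ ≤ n)
  have hnR : (2 : ℝ) ≤ n := by exact_mod_cast hnc
  have hnsR : (s₀ : ℝ) ≤ n := by exact_mod_cast hnb
  have hN3 : (n : ℝ) ^ 3 ≤ NN d n := by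
    unfold NN
    exact pow_le_pow_right₀ (by linarith) hd
  have hNpos : 0 < NN d n := NN_pos
  set t₀ : ℕ := ⌊ε * NN d n⌋₊ with ht₀
  have h8 : 8 ≤ ε * n := by
    rw [div_le_iff₀ hε0] at hna
    linarith
  have hεN : 8 * (n : ℝ) ^ 2 ≤ ε * NN d n := by
    have h1 : ε * (n : ℝ) ^ 3 ≤ ε * NN d n := mul_le_mul_of_nonneg_left hN3 hε0.le
    have h2 : 8 * (n : ℝ) ^ 2 ≤ ε * n * n ^ 2 := mul_le_mul_of_nonneg_right h8 (by positivity)
    nlinarith
  have hn2 : (4 : ℝ) ≤ (n : ℝ) ^ 2 := by nlinarith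
  have htle : (t₀ : ℝ) ≤ ε * NN d n := Nat.floor_le (by positivity)
  have htge : ε * NN d n / 2 ≤ (t₀ : ℝ) := by
    have h1 := Nat.lt_floor_add_one (ε * NN d n)
    rw [← ht₀] at h1
    linarith
  have h4n : 4 * n ^ 2 ≤ t₀ := by
    have h1 : (4 * (n : ℝ) ^ 2) ≤ t₀ := by linarith
    exact_mod_cast h1
  have h4s : 4 * s₀ ≤ t₀ := by
    have h1 : (n : ℝ) ≤ (n : ℝ) ^ 2 := by nlinarith
    have h2 : (4 * (s₀ : ℝ)) ≤ t₀ := by linarith
    exact_mod_cast h2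
  have h2s : 2 * s₀ ≤ n ^ 2 := by nlinarith
  have ht1 : 1 ≤ t₀ := by omega
  have htN : (t₀ : ℝ) / NN d n ≤ δ := by
    rw [div_le_iff₀ hNpos]
    refine htle.trans ?_
    exact mul_le_mul_of_nonneg_right (min_le_right _ _) hNpos.le
  have htN' : ε / 2 ≤ (t₀ : ℝ) / NN d n := by
    rw [le_div_iff₀ hNpos]
    linarith
  have hexp : Real.exp (-κ' * t₀ / n ^ 2) ≤ δ := by
    have h1 : κ' * ε * n / 2 ≤ κ' * t₀ / n ^ 2 := by
      rw [le_div_iff₀ (by positivity)]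
      have h2 : ε * (n : ℝ) ^ 3 / 2 ≤ t₀ := by
        have := mul_le_mul_of_nonneg_left hN3 hε0.le
        linarith
      have h3 := mul_le_mul_of_nonneg_left h2 hκ'.le
      nlinarith
    have h2 : 1 / δ ≤ κ' * ε * n / 2 := by
      rw [div_le_iff₀ (by positivity)] at hnd
      rw [div_le_iff₀ hδ0]
      nlinarith
    have h3 : 1 / δ ≤ Real.exp (κ' * t₀ / n ^ 2) := by
      have := Real.add_one_le_exp (κ' * t₀ / n ^ 2)
      linarith
    have h4 : -κ' * t₀ / n ^ 2 = -(κ' * t₀ / n ^ 2) := by ring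
    rw [h4, Real.exp_neg]
    rw [inv_le_comm₀ (Real.exp_pos _) hδ0]
    rwa [one_div] at h3
  have herr : C' * (1 / Real.sqrt s₀ + t₀ / NN d n + Real.exp (-κ' * t₀ / n ^ 2) + δ) ≤
      c1 / 2 := by
    have h1 : C' * (1 / Real.sqrt s₀ + t₀ / NN d n + Real.exp (-κ' * t₀ / n ^ 2) + δ) ≤
        C' * (4 * δ) := by
      apply mul_le_mul_of_nonneg_left _ hC0.le
      linarith
    have h2 : C' * (4 * δ) = c1 / 2 := by
      rw [hδ]
      field_simp
      ring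
    linarith
  have hS : 0 ≤ SX d n δ := by
    unfold SX
    exact Finset.sum_nonneg fun ξ _ => by positivity
  choose! H1 hH1 using fun i : Fin d => hD n hn1 hb i s₀ t₀ hsS h2s ht1
  refine ⟨max (univ.sup H1) (7 * t₀ + 1), fun H hH => ?_⟩
  have hH7 : 7 * t₀ < H := by
    have := le_trans (le_max_right _ _) hH
    omega
  have hHi : ∀ i, H1 i ≤ H := fun i =>
    le_trans (Finset.le_sup (Finset.mem_univ i)) (le_trans (le_max_left _ _) hH)
  have hmul : 0 ≤ (t₀ / NN d n) ^ 2 * SX d n δ := by positivity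
  have keyA : ∀ i : Fin d, (t₀ / NN d n) ^ 2 * SX d n δ * (c1 / 2) ≤
      E2 H (fun η η' c => (∑ x, gA (lrec (st (n := n) i) η x H) (lrec (st i) η' x H)
        fun j => c (x + st i j)) * Tst δ t₀ η η') := by
    intro i
    have hDD := (hH1 i H (hHi i)).1
    have h := hcov n hb i fA gA t₀ s₀ H δ gA_avg
      (fun r r' => by
        rw [abs_le]
        constructor <;> linarith [(fA_mem r r').1, (fA_mem r r').2])
      (coarse_fA t₀ ht1) hs1 h4s h4n hH7 hδ0 (by linarith)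
    refine le_trans (mul_le_mul_of_nonneg_left ?_ hmul) h
    linarith
  have keyB : ∀ i : Fin d, (t₀ / NN d n) ^ 2 * SX d n δ * (c1 / 2) ≤
      E2 H (fun η η' c => (∑ x, gB (lrec (st (n := n) i) η x H) (lrec (st i) η' x H)
        fun j => c (x + st i j)) * Tst δ t₀ η η') := by
    intro i
    have hDD := (hH1 i H (hHi i)).2
    have h := hcov n hb i fB gB t₀ s₀ H δ gB_avg
      (fun r r' => by
        rw [abs_le]
        constructor <;> linarith [(fB_mem r r').1, (fB_mem r r').2])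
      (coarse_fB t₀ ht1) hs1 h4s h4n hH7 hδ0 (by linarith)
    refine le_trans (mul_le_mul_of_nonneg_left ?_ hmul) h
    linarith
  have hd1 : 1 ≤ d := by omega
  have hmean : E2 H (fun (η η' : ℕ → Tor d n) _ => Tst δ t₀ η η') = 0 :=
    Tst_mean hd1 δ t₀ H (by omega)
  have hsq : E2 H (fun (η η' : ℕ → Tor d n) _ => Tst δ t₀ η η' ^ 2) ≤
      4 * (t₀ / NN d n) ^ 2 * SX d n δ := Tst_sq hd1 δ t₀ H (by omega)
  have hr : 0 < (t₀ / NN d n) ^ 2 := by
    have : 0 < (t₀ : ℝ) / NN d n := by linarith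
    positivity
  have hrr : (ε / 2) ^ 2 ≤ (t₀ / NN d n) ^ 2 := pow_le_pow_left₀ (by positivity) htN' 2
  have hfin : ∀ V : ℝ, c1 ^ 2 / 16 * (t₀ / NN d n) ^ 2 * SX d n δ ≤ V →
      c1 ^ 2 / 16 * (ε / 2) ^ 2 * SX d n δ ≤ V := by
    intro V hV
    refine le_trans ?_ hV
    apply mul_le_mul_of_nonneg_right _ hS
    exact mul_le_mul_of_nonneg_left hrr (by positivity)
  constructor
  · apply hfin
    have i : Fin d := ⟨0, by omega⟩
    refine final_ineq hr hS hc1 (V2_nonneg hd1 H _) ?_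
      (V2_ge hd1 H (NA H) (fun η η' _ => Tst δ t₀ η η') hmean) hsq
    have h := keyA i
    have h2 : (fun (η η' : ℕ → Tor d n) (c : Tor d n → Bool) => NA H η η' c * Tst δ t₀ η η') =
        fun η η' c => (∑ x, gA (lrec (st (n := n) i) η x H) (lrec (st i) η' x H)
        fun j => c (x + st i j)) * Tst δ t₀ η η' := by
      funext η η' c
      rw [NA_eq i]
    rw [h2]
    exact h
  · apply hfin
    refine final_ineq hr hS hc1 (V2_nonneg hd1 H _) ?_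
      (V2_ge hd1 H (NB H) (fun η η' _ => Tst δ t₀ η η') hmean) hsq
    have h2 : (fun (η η' : ℕ → Tor d n) (c : Tor d n → Bool) => NB H η η' c * Tst δ t₀ η η') =
        fun η η' c => ∑ i, (∑ x, gB (lrec (st (n := n) i) η x H) (lrec (st i) η' x H)
        fun j => c (x + st i j)) * Tst δ t₀ η η' := by
      funext η η' c
      rw [NB_eq, Finset.sum_mul]
    rw [h2, E2_sum]
    calc (t₀ / NN d n) ^ 2 * SX d n δ * (c1 / 2)
        ≤ (d : ℝ) * ((t₀ / NN d n) ^ 2 * SX d n δ * (c1 / 2)) := by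
          have h1 : (1 : ℝ) ≤ d := by exact_mod_cast hd1
          have h3 : 0 ≤ (t₀ / NN d n) ^ 2 * SX d n δ * (c1 / 2) := by positivity
          nlinarith
      _ = ∑ _i : Fin d, (t₀ / NN d n) ^ 2 * SX d n δ * (c1 / 2) := by
          simp
      _ ≤ _ := Finset.sum_le_sum fun i _ => keyB i

end CRW
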