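import Pool.Agent.Lib.CRW.Model
import Pool.Agent.Lib.CRW.L15

/-!
# Module F3: the painting and the first visit times

PROOFS.  `paint_eq`: induction on `H`: `frec η x (H+1) = (frec η x H).orElse ..` and `paint X coin (H+1) x = (paint X coin H x).orElse ..`.  Cases: if one of
the two first visit times before `H` exists, say `some s`, the mark is decided: the new entry of the other record is at least `H > s` (`frec_lt`), so `colB`
does not change.  If both are `none`, the four cases of `X 0 H = x`, `X 1 H = x`.
`paint_mono`: `orElse`.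
`marked_ncard`: by `hvis` and `paint_eq` every site has a mark before `H`, so `x ∈ marked 0 ↔ paint H x = some 0 ↔ colB .. = true` (`paint_mono`: two different marks are
impossible); `Set.ncard` of a set of a finite type is the sum of the indicators.
`interface_ncard`: the edges: the map `(i, x) ↦ s(x, x + e_i)` is injective for `n ≥ 3` (`s(x, x+e_i) = s(y, y+e_j)`: either `x = y` and `e_i = e_j`, `i = j`; or
`x = y + e_j`, `y = x + e_i`, so `e_i + e_j = 0`, impossible: for `i ≠ j` look at the coordinate `i`: `1 = 0` in `ZMod n`; for `i = j`: `2 = 0`).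
`s(x, x+e_i)` is in the interface iff the marks of `x` and `x + e_i` are different; every edge of the interface is of this form.
So the interface is the image of the finite set of pairs `(i, x)` with different colours.
`marked_measurable` etc. are in F4.
-/

open Finset

namespace CRW

variable {d n : ℕ}

private theorem f3_frec_lt (η : ℕ → Tor d n) (x : Tor d n) (H s : ℕ)
    (h : frec η x H = some s) : s < H := by
  induction H with
  | zero => exact absurd h (by simp [frec])
  | succ H ih =>
    rw [frec] at h
    cases hf : frec η x H with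
    | some s' =>
      rw [hf] at h
      have h1 : some s' = some s := h
      rw [Option.some.injEq] at h1
      subst h1
      exact Nat.lt_succ_of_lt (ih hf)
    | none =>
      rw [hf] at h
      have h1 : (if η H = x then some H else none) = some s := h
      split_ifs at h1
      rw [Option.some.injEq] at h1
      omega

theorem paint_eq (X : Fin 2 → ℕ → Tor d n) (coin : Tor d n → Bool) (H : ℕ) (x : Tor d n) :
    paint X coin H x = if frec (X 0) x H = none ∧ frec (X 1) x H = none then none else
      if colB (frec (X 0) x H) (frec (X 1) x H) (coin x) then some 0 else some 1 := by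
  induction H with
  | zero => simp [paint, frec]
  | succ H ih =>
    rw [paint, ih, frec, frec]
    have h0 := f3_frec_lt (X 0) x H
    have h1 := f3_frec_lt (X 1) x H
    rcases hf0 : frec (X 0) x H with _ | s <;> rcases hf1 : frec (X 1) x H with _ | t
    · by_cases hx0 : X 0 H = x <;> by_cases hx1 : X 1 H = x <;> cases hc : coin x <;>
        simp [hx0, hx1, colB]
    · have ht := h1 t hf1
      have ht' : ¬ H < t := by omega
      by_cases hx0 : X 0 H = x <;> simp [hx0, colB, ht, ht']
    · have hs := h0 s hf0
      by_cases hx1 : X 1 H = x <;> simp [hx1, colB, hs]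
    · cases hc : colB (some s) (some t) (coin x) <;> simp [hc]

theorem paint_mono (X : Fin 2 → ℕ → Tor d n) (coin : Tor d n → Bool) {t t' : ℕ} (h : t ≤ t')
    {x : Tor d n} {i : Fin 2} (hp : paint X coin t x = some i) : paint X coin t' x = some i := by
  induction t', h using Nat.le_induction with
  | base => exact hp
  | succ t' _ ih =>
    rw [paint, ih]
    rfl

private theorem f3_mem (X : Fin 2 → ℕ → Tor d n) (coin : Tor d n → Bool) (H : ℕ) (x : Tor d n)
    (hvis : frec (X 0) x H ≠ none) :
    (x ∈ marked X coin 0 ↔ colB (frec (X 0) x H) (frec (X 1) x H) (coin x) = true) ∧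
      (x ∈ marked X coin 1 ↔ colB (frec (X 0) x H) (frec (X 1) x H) (coin x) = false) := by
  have h1 := paint_eq X coin H x
  rw [if_neg (fun h => hvis h.1)] at h1
  have huniq : ∀ (t t' : ℕ) (i i' : Fin 2), paint X coin t x = some i →
      paint X coin t' x = some i' → i = i' := by
    intro t t' i i' h h'
    have h2 := paint_mono X coin (le_max_left t t') h
    have h3 := paint_mono X coin (le_max_right t t') h'
    rw [h2] at h3
    exact Option.some.inj h3
  cases hc : colB (frec (X 0) x H) (frec (X 1) x H) (coin x)
  · rw [hc] at h1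
    have h2 : paint X coin H x = some 1 := by simpa using h1
    refine ⟨⟨fun ⟨t, ht⟩ => ?_, fun h => absurd h (by simp)⟩, ⟨fun _ => rfl, fun _ => ⟨H, h2⟩⟩⟩
    exact absurd (huniq _ _ _ _ ht h2) (by decide)
  · rw [hc] at h1
    have h2 : paint X coin H x = some 0 := by simpa using h1
    refine ⟨⟨fun _ => rfl, fun _ => ⟨H, h2⟩⟩, ⟨fun ⟨t, ht⟩ => ?_, fun h => absurd h (by simp)⟩⟩
    exact absurd (huniq _ _ _ _ ht h2) (by decide)

theorem marked_ncard [NeZero n] (X : Fin 2 → ℕ → Tor d n) (coin : Tor d n → Bool) (H : ℕ)
    (hvis : ∀ x, frec (X 0) x H ≠ none) :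
    ((marked X coin 0).ncard : ℝ) = NA H (X 0) (X 1) coin := by
  classical
  have h1 : marked X coin 0 =
      ((univ.filter fun x => colB (frec (X 0) x H) (frec (X 1) x H) (coin x) = true :
        Finset (Tor d n)) : Set (Tor d n)) := by
    ext x
    rw [(f3_mem X coin H x (hvis x)).1]
    simp
  rw [h1, Set.ncard_coe_finset, Finset.card_filter]
  unfold NA
  push_cast
  rfl

private theorem f3_inj [NeZero n] (hn : 3 ≤ n) :
    Function.Injective (fun p : Fin d × Tor d n => s(p.2, p.2 + Pi.single p.1 1)) := by
  have h10 : (1 : ZMod n) ≠ 0 := by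
    have : Fact (1 < n) := ⟨by omega⟩
    exact one_ne_zero
  have h20 : (1 : ZMod n) + 1 ≠ 0 := by
    intro h
    have h2 : ((2 : ℕ) : ZMod n) = 0 := by
      push_cast
      rw [← h]
      norm_num
    rw [ZMod.natCast_eq_zero_iff] at h2
    exact absurd (Nat.le_of_dvd (by norm_num) h2) (by omega)
  rintro ⟨i, x⟩ ⟨j, y⟩ h
  have h' : s(x, x + Pi.single i 1) = s(y, y + Pi.single j 1) := h
  rw [Sym2.eq_iff] at h'
  rcases h' with ⟨h1, h2⟩ | ⟨h1, h2⟩
  · subst h1
    have h3 : (Pi.single i (1 : ZMod n) : Tor d n) = Pi.single j 1 := add_left_cancel h2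
    have h4 := congrFun h3 i
    rw [Pi.single_eq_same] at h4
    by_cases hij : i = j
    · rw [hij]
    · rw [Pi.single_eq_of_ne hij] at h4
      exact absurd h4 h10
  · exfalso
    rw [h1] at h2
    have h3 : (Pi.single j (1 : ZMod n) : Tor d n) + Pi.single i 1 = 0 := by
      have h4 : y + ((Pi.single j (1 : ZMod n) : Tor d n) + Pi.single i 1) = y + 0 := by
        rw [add_zero, ← add_assoc]
        exact h2
      exact add_left_cancel h4
    have h4 := congrFun h3 i
    rw [Pi.add_apply, Pi.single_eq_same, Pi.zero_apply] at h4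
    by_cases hij : i = j
    · subst hij
      rw [Pi.single_eq_same] at h4
      exact h20 h4
    · rw [Pi.single_eq_of_ne hij, zero_add] at h4
      exact h10 h4

theorem interface_ncard [NeZero n] (hn : 3 ≤ n) (X : Fin 2 → ℕ → Tor d n)
    (coin : Tor d n → Bool) (H : ℕ) (hvis : ∀ x, frec (X 0) x H ≠ none) :
    ((interface X coin).ncard : ℝ) = NB H (X 0) (X 1) coin := by
  classical
  obtain ⟨col, hcol⟩ : ∃ col : Tor d n → Bool,
      ∀ x, col x = colB (frec (X 0) x H) (frec (X 1) x H) (coin x) := ⟨_, fun _ => rfl⟩
  have hm0 : ∀ x, x ∈ marked X coin 0 ↔ col x = true := fun x => by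
    rw [hcol]
    exact (f3_mem X coin H x (hvis x)).1
  have hm1 : ∀ x, x ∈ marked X coin 1 ↔ col x = false := fun x => by
    rw [hcol]
    exact (f3_mem X coin H x (hvis x)).2
  have h1 : interface X coin = (fun p : Fin d × Tor d n => s(p.2, p.2 + Pi.single p.1 1)) ''
      ((univ.filter fun p : Fin d × Tor d n => col p.2 ≠ col (p.2 + Pi.single p.1 1) :
        Finset (Fin d × Tor d n)) : Set (Fin d × Tor d n)) := by
    ext e
    simp only [interface, Set.mem_ofPred_eq, Set.mem_image, Finset.coe_filter, Finset.mem_univ,
      true_and, Prod.exists]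
    constructor
    · rintro ⟨x, y, ⟨i, hxy | hxy⟩, hx, hy, rfl⟩
      · rw [hm0] at hx
        rw [hm1] at hy
        refine ⟨i, x, ?_, ?_⟩
        · rw [← hxy, hx, hy]
          simp
        · rw [← hxy]
      · rw [hm0] at hx
        rw [hm1] at hy
        refine ⟨i, y, ?_, ?_⟩
        · rw [← hxy, hx, hy]
          simp
        · rw [← hxy]
          exact Sym2.eq_swap
    · rintro ⟨i, x, hne, rfl⟩
      cases hx : col x
      · have hy : col (x + Pi.single i 1) = true := by
          rw [hx] at hne
          cases hy : col (x + Pi.single i 1)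
          · exact absurd hy.symm hne
          · rfl
        exact ⟨x + Pi.single i 1, x, ⟨i, Or.inr rfl⟩, (hm0 _).2 hy, (hm1 _).2 hx, Sym2.eq_swap⟩
      · have hy : col (x + Pi.single i 1) = false := by
          rw [hx] at hne
          cases hy : col (x + Pi.single i 1)
          · rfl
          · exact absurd hy.symm hne
        exact ⟨x, x + Pi.single i 1, ⟨i, Or.inl rfl⟩, (hm0 _).2 hx, (hm1 _).2 hy, rfl⟩
  rw [h1, Set.ncard_image_of_injective _ (f3_inj hn), Set.ncard_coe_finset, Finset.card_filter,
    Fintype.sum_prod_type]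
  unfold NB
  push_cast
  refine Finset.sum_congr rfl fun i _ => Finset.sum_congr rfl fun x _ => ?_
  rw [hcol, hcol]

/-- the sites marked at the end and the size of the interface are bounded -/
theorem ncard_le [NeZero n] (X : Fin 2 → ℕ → Tor d n) (coin : Tor d n → Bool) :
    ((marked X coin 0).ncard : ℝ) ≤ Fintype.card (Tor d n) ∧
      ((interface X coin).ncard : ℝ) ≤ (Fintype.card (Sym2 (Tor d n)) : ℝ) := by
  constructor
  · have h1 := Set.ncard_le_ncard (Set.subset_univ (marked X coin 0))
    rw [Set.ncard_univ, Nat.card_eq_fintype_card] at h1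
    exact_mod_cast h1
  · have h1 := Set.ncard_le_ncard (Set.subset_univ (interface X coin))
    rw [Set.ncard_univ, Nat.card_eq_fintype_card] at h1
    exact_mod_cast h1

end CRW
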