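import Pool.Agent.Lib.CRW.F2
import Pool.Agent.Lib.CRW.F3

/-!
# Module F4: the horizon tends to infinity

PROOFS.  `tendsto_var`: let `Z H ω = G H (X 0 ω) (X 1 ω) (coin ω)`, `u H = ER H 1{∃ x, frec η x H = none}`.  For `H = T + 1`: `P (∃ x, frec (X 0 ω) x H = none) = u H` (`integral_eq` for the
indicator; `E2` of a function of the first walk is `ER`: `EP_const`, `cavg_const`; `frec_congr`).  `Z H = Z` outside of this event and `|Z|, |Z H| ≤ B`, so
`|∫ Z - ∫ Z H| ≤ 2 B u H → 0`, `|∫ Z² - ∫ (Z H)²| ≤ 2 B² u H → 0`.  `V2 H (G H) = ∫ (Z H)² - (∫ Z H)²` (`integral_eq`), `variance = ∫ Z² - (∫ Z)²`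
(`ProbabilityTheory.variance_eq_sub`, `Z` is bounded and measurable, `MemLp`).
`sizeA`: `marked .. 0` is the set of the `x` with `∃ t, paint .. t x = some 0`; `{ω | paint .. t x = some i}` is measurable (it depends on finitely many `X i s`, `s < t`, and
`coin x`; induction on `t`), countable union; `ncard` is a finite sum of indicators.  `sizeB` is a function of the finite family of the truth values of `x ∈ marked i`
(a function on a finite type; `measurable_of_finite`/`Measurable.comp` with the discrete space `Tor → Fin 2 → Prop`): write `sizeB ω = Φ (fun x i => decide (x ∈ marked i))`.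
Locality of `NA H`, `NB H`: `frec_congr`.
`var_A`, `var_B`: `tendsto_var` with `marked_ncard`, `interface_ncard`, `ncard_le` and the trivial bounds `|NA| ≤ card`, `|NB| ≤ d card`.
-/

open Finset

namespace CRW

open MeasureTheory ProbabilityTheory Filter

variable {d n : ℕ} [NeZero n] {Ω : Type*} [MeasurableSpace Ω] {P : Measure Ω}

private theorem E2_first (hd : 1 ≤ d) (H : ℕ) (F : (ℕ → Tor d n) → ℝ) :
    E2 H (fun (η _ : ℕ → Tor d n) _ => F η) = ER H F := by
  unfold E2
  congr 1
  funext η
  show (ER H fun _ : ℕ → Tor d n => cavg fun _ : Tor d n → Bool => F η) = F η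
  rw [cavg_const]
  exact EP_const hd H (F η)

open Classical in
theorem tendsto_var [IsProbabilityMeasure P] (hd : 1 ≤ d) (M : Model d n P) (Z : Ω → ℝ)
    (hZ : Measurable Z) (B : ℝ) (hB : ∀ ω, |Z ω| ≤ B)
    (G : ℕ → (ℕ → Tor d n) → (ℕ → Tor d n) → (Tor d n → Bool) → ℝ)
    (hGB : ∀ H η η' c, |G H η η' c| ≤ B)
    (hloc : ∀ H η η' ζ ζ' c, (∀ t < H, η t = ζ t) → (∀ t < H, η' t = ζ' t) →
      G H η η' c = G H ζ ζ' c)
    (hZG : ∀ H ω, (∀ x, frec (fun t => M.X 0 t ω) x H ≠ none) →
      Z ω = G H (fun t => M.X 0 t ω) (fun t => M.X 1 t ω) (fun z => M.coin z ω))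
    (hu : Tendsto (fun H => ER H fun η : ℕ → Tor d n =>
      if ∃ x, frec η x H = none then (1 : ℝ) else 0) atTop (nhds 0)) :
    Tendsto (fun H => V2 H (G H)) atTop (nhds (variance Z P)) := by
  obtain ⟨ω₀⟩ : Nonempty Ω := nonempty_of_isProbabilityMeasure P
  have hB0 : 0 ≤ B := le_trans (abs_nonneg _) (hB ω₀)
  rw [← tendsto_add_atTop_iff_nat 1]
  set W : ℕ → Ω → ℝ := fun T ω =>
    G (T + 1) (fun t => M.X 0 t ω) (fun t => M.X 1 t ω) (fun z => M.coin z ω) with hW
  set I : ℕ → Ω → ℝ := fun T ω =>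
    if ∃ x, frec (fun t => M.X 0 t ω) x (T + 1) = none then (1 : ℝ) else 0 with hI
  have hWB : ∀ T ω, |W T ω| ≤ B := fun T ω => hGB _ _ _ _
  have hWm : ∀ T, Measurable (W T) := fun T =>
    measurable_of_local M T (G (T + 1)) (fun η η' ζ ζ' c h h' =>
      hloc (T + 1) η η' ζ ζ' c (fun t ht => h t (by omega)) (fun t ht => h' t (by omega)))
  have hloc1 : ∀ T : ℕ, ∀ η η' ζ ζ' : ℕ → Tor d n, ∀ _ : Tor d n → Bool,
      (∀ t ≤ T, η t = ζ t) → (∀ t ≤ T, η' t = ζ' t) →
      (if ∃ x, frec η x (T + 1) = none then (1 : ℝ) else 0) =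
        (if ∃ x, frec ζ x (T + 1) = none then (1 : ℝ) else 0) := by
    intro T η η' ζ ζ' _ h _
    have : ∀ x, frec η x (T + 1) = frec ζ x (T + 1) := fun x =>
      frec_congr x (T + 1) (fun s hs => h s (by omega))
    simp only [this]
  have hIm : ∀ T, Measurable (I T) := fun T =>
    measurable_of_local M T (fun η _ _ => if ∃ x, frec η x (T + 1) = none then (1 : ℝ) else 0)
      (hloc1 T)
  have hI1 : ∀ T ω, |I T ω| ≤ 1 := by
    intro T ω
    simp only [hI]
    split_ifs <;> norm_num
  have hbdd : ∀ (f : Ω → ℝ) (K : ℝ), Measurable f → (∀ ω, |f ω| ≤ K) → Integrable f P := by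
    intro f K hf hK
    exact Integrable.of_bound hf.aestronglyMeasurable K
      (Filter.Eventually.of_forall fun ω => by rw [Real.norm_eq_abs]; exact hK ω)
  have hIint : ∀ T, ∫ ω, I T ω ∂P = ER (T + 1) fun η : ℕ → Tor d n =>
      if ∃ x, frec η x (T + 1) = none then (1 : ℝ) else 0 := by
    intro T
    rw [← E2_first hd]
    exact integral_eq hd M T
      (fun η _ _ => if ∃ x, frec η x (T + 1) = none then (1 : ℝ) else 0) (hloc1 T)
  have hu1 : Tendsto (fun T => ∫ ω, I T ω ∂P) atTop (nhds 0) := by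
    simp only [hIint]
    exact (tendsto_add_atTop_iff_nat 1).2 hu
  have hWZ : ∀ T ω, I T ω = 0 → W T ω = Z ω := by
    intro T ω h
    have h1 : ∀ x, frec (fun t => M.X 0 t ω) x (T + 1) ≠ none := by
      intro x hx
      have : I T ω = 1 := by
        simp only [hI]
        rw [if_pos ⟨x, hx⟩]
      rw [this] at h
      norm_num at h
    exact (hZG (T + 1) ω h1).symm
  have hI01 : ∀ T ω, I T ω = 0 ∨ I T ω = 1 := by
    intro T ω
    simp only [hI]
    split_ifs
    · right; rfl
    · left; rfl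
  have hd1 : ∀ T ω, |W T ω - Z ω| ≤ 2 * B * I T ω := by
    intro T ω
    rcases hI01 T ω with h | h
    · rw [hWZ T ω h, h]; simp
    · rw [h]
      have h1 := hWB T ω
      have h2 := hB ω
      rw [abs_le] at h1 h2 ⊢
      constructor <;> linarith
  have hd2 : ∀ T ω, |W T ω ^ 2 - Z ω ^ 2| ≤ 2 * B ^ 2 * I T ω := by
    intro T ω
    rcases hI01 T ω with h | h
    · rw [hWZ T ω h, h]; simp
    · rw [h]
      have h1 : W T ω ^ 2 ≤ B ^ 2 := by
        rw [← sq_abs]; exact pow_le_pow_left₀ (abs_nonneg _) (hWB T ω) 2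
      have h2 : Z ω ^ 2 ≤ B ^ 2 := by
        rw [← sq_abs]; exact pow_le_pow_left₀ (abs_nonneg _) (hB ω) 2
      have h3 := sq_nonneg (W T ω)
      have h4 := sq_nonneg (Z ω)
      rw [abs_le]
      constructor <;> linarith
  have hZi : Integrable Z P := hbdd Z B hZ hB
  have hZ2i : Integrable (fun ω => Z ω ^ 2) P := hbdd _ (B ^ 2) (hZ.pow_const 2) (fun ω => by
    rw [abs_pow]; exact pow_le_pow_left₀ (abs_nonneg _) (hB ω) 2)
  have hWi : ∀ T, Integrable (W T) P := fun T => hbdd _ B (hWm T) (hWB T)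
  have hW2i : ∀ T, Integrable (fun ω => W T ω ^ 2) P := fun T =>
    hbdd _ (B ^ 2) ((hWm T).pow_const 2) (fun ω => by
    rw [abs_pow]; exact pow_le_pow_left₀ (abs_nonneg _) (hWB T ω) 2)
  have hIi : ∀ T, Integrable (I T) P := fun T => hbdd _ 1 (hIm T) (hI1 T)
  have gen : ∀ (f : ℕ → Ω → ℝ) (g : Ω → ℝ) (K : ℝ), (∀ T, Integrable (f T) P) →
      Integrable g P → (∀ T ω, |f T ω - g ω| ≤ K * I T ω) →
      Tendsto (fun T => ∫ ω, f T ω ∂P) atTop (nhds (∫ ω, g ω ∂P)) := by
    intro f g K hf hg hfg
    rw [tendsto_iff_dist_tendsto_zero]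
    have h1 : Tendsto (fun T => K * ∫ ω, I T ω ∂P) atTop (nhds 0) := by
      have := hu1.const_mul K
      rwa [mul_zero] at this
    refine squeeze_zero (fun T => dist_nonneg) (fun T => ?_) h1
    rw [Real.dist_eq, ← integral_sub (hf T) hg, ← integral_const_mul]
    refine le_trans (abs_integral_le_integral_abs) ?_
    exact integral_mono ((hf T).sub hg).abs ((hIi T).const_mul K) (hfg T)
  have t1 : Tendsto (fun T => ∫ ω, W T ω ∂P) atTop (nhds (∫ ω, Z ω ∂P)) :=
    gen W Z (2 * B) hWi hZi hd1
  have t2 : Tendsto (fun T => ∫ ω, W T ω ^ 2 ∂P) atTop (nhds (∫ ω, Z ω ^ 2 ∂P)) :=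
    gen (fun T ω => W T ω ^ 2) (fun ω => Z ω ^ 2) (2 * B ^ 2) hW2i hZ2i hd2
  have hvar : variance Z P = (∫ ω, Z ω ^ 2 ∂P) - (∫ ω, Z ω ∂P) ^ 2 := by
    rw [variance_eq_sub]
    · rfl
    · exact MemLp.of_bound hZ.aestronglyMeasurable B
        (Filter.Eventually.of_forall fun ω => by rw [Real.norm_eq_abs]; exact hB ω)
  have hV2 : ∀ T, V2 (T + 1) (G (T + 1)) = (∫ ω, W T ω ^ 2 ∂P) - (∫ ω, W T ω ∂P) ^ 2 := by
    intro T
    unfold V2
    have h1 := integral_eq hd M T (G (T + 1)) (fun η η' ζ ζ' c h h' =>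
      hloc (T + 1) η η' ζ ζ' c (fun t ht => h t (by omega)) (fun t ht => h' t (by omega)))
    have h2 := integral_eq hd M T (fun η η' c => G (T + 1) η η' c ^ 2) (fun η η' ζ ζ' c h h' => by
      show G (T + 1) η η' c ^ 2 = G (T + 1) ζ ζ' c ^ 2
      rw [hloc (T + 1) η η' ζ ζ' c (fun t ht => h t (by omega)) (fun t ht => h' t (by omega))])
    rw [← h1, ← h2]
  simp only [hV2, hvar]
  exact t2.sub (t1.pow 2)

private theorem measurable_paint (M : Model d n P) (t : ℕ) (x : Tor d n) :
    @Measurable Ω (Option (Fin 2)) _ ⊤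
      (fun ω => paint (fun i t => M.X i t ω) (fun z => M.coin z ω) t x) := by
  letI : MeasurableSpace (Option (Fin 2)) := ⊤
  induction t with
  | zero => exact measurable_const
  | succ t ih =>
    have e : (fun ω => paint (fun i t => M.X i t ω) (fun z => M.coin z ω) (t + 1) x) =
        fun ω => if paint (fun i t => M.X i t ω) (fun z => M.coin z ω) t x = none then
          (if M.X 0 t ω = x then
            (if M.X 1 t ω = x then (if M.coin x ω = true then some 0 else some 1) else some 0)
            else if M.X 1 t ω = x then some 1 else none) else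
          paint (fun i t => M.X i t ω) (fun z => M.coin z ω) t x := by
      funext ω
      show (paint (fun i t => M.X i t ω) (fun z => M.coin z ω) t x).orElse _ = _
      cases h : paint (fun i t => M.X i t ω) (fun z => M.coin z ω) t x with
      | none => simp
      | some v => simp
    rw [e]
    refine Measurable.ite ?_ ?_ ih
    · exact ih (MeasurableSpace.measurableSet_top : MeasurableSet {(none : Option (Fin 2))})
    · refine Measurable.ite (M.measX 0 t x) ?_ ?_
      · refine Measurable.ite (M.measX 1 t x) ?_ measurable_const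
        exact Measurable.ite (M.measC x) measurable_const measurable_const
      · exact Measurable.ite (M.measX 1 t x) measurable_const measurable_const

private theorem measurableSet_marked (M : Model d n P) (i : Fin 2) (x : Tor d n) :
    MeasurableSet {ω | x ∈ marked (fun i t => M.X i t ω) (fun z => M.coin z ω) i} := by
  have e : {ω | x ∈ marked (fun i t => M.X i t ω) (fun z => M.coin z ω) i} =
      ⋃ t, (fun ω => paint (fun i t => M.X i t ω) (fun z => M.coin z ω) t x) ⁻¹' {some i} := by
    ext ω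
    simp [marked]
  rw [e]
  refine MeasurableSet.iUnion fun t => ?_
  exact measurable_paint M t x (MeasurableSpace.measurableSet_top)

open Classical in
private theorem measurable_of_marked (M : Model d n P) (Φ : (Fin 2 → Set (Tor d n)) → ℝ) :
    Measurable fun ω => Φ (marked (fun i t => M.X i t ω) (fun z => M.coin z ω)) := by
  have h1 : Measurable fun ω => (fun p : Fin 2 × Tor d n =>
      decide (p.2 ∈ marked (fun i t => M.X i t ω) (fun z => M.coin z ω) p.1)) := by
    refine measurable_pi_lambda _ fun p => ?_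
    refine measurable_to_bool ?_
    have e : (fun ω => decide (p.2 ∈ marked (fun i t => M.X i t ω) (fun z => M.coin z ω) p.1)) ⁻¹'
        {true} = {ω | p.2 ∈ marked (fun i t => M.X i t ω) (fun z => M.coin z ω) p.1} := by
      ext ω
      simp
    rw [e]
    exact measurableSet_marked M p.1 p.2
  have h2 : Measurable fun b : Fin 2 × Tor d n → Bool =>
      Φ (fun i => {x | b (i, x) = true}) := Measurable.of_discrete
  have h3 := h2.comp h1
  have e : (fun ω => Φ (marked (fun i t => M.X i t ω) (fun z => M.coin z ω))) =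
      (fun b : Fin 2 × Tor d n → Bool => Φ (fun i => {x | b (i, x) = true})) ∘
      (fun ω => (fun p : Fin 2 × Tor d n =>
      decide (p.2 ∈ marked (fun i t => M.X i t ω) (fun z => M.coin z ω) p.1))) := by
    funext ω
    simp only [Function.comp]
    congr 1
    funext i
    ext x
    simp
  rw [e]
  exact h3

theorem measurable_sizeA (M : Model d n P) : Measurable M.sizeA :=
  measurable_of_marked M (fun S => ((S 0).ncard : ℝ))

theorem measurable_sizeB (M : Model d n P) : Measurable M.sizeB :=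
  measurable_of_marked M (fun S =>
    (({e | ∃ x y, Adj x y ∧ x ∈ S 0 ∧ y ∈ S 1 ∧ e = s(x, y)} : Set (Sym2 (Tor d n))).ncard : ℝ))

private theorem NA_bd (H : ℕ) (η η' : ℕ → Tor d n) (c : Tor d n → Bool) :
    |NA H η η' c| ≤ Fintype.card (Tor d n) := by
  unfold NA
  refine le_trans (Finset.abs_sum_le_sum_abs _ _) ?_
  rw [← Finset.card_univ, Finset.card_eq_sum_ones, Nat.cast_sum]
  refine Finset.sum_le_sum fun x _ => ?_
  split_ifs <;> norm_num

private theorem NB_bd (H : ℕ) (η η' : ℕ → Tor d n) (c : Tor d n → Bool) :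
    |NB H η η' c| ≤ d * Fintype.card (Tor d n) := by
  unfold NB
  refine le_trans (Finset.abs_sum_le_sum_abs _ _) ?_
  have h : ∀ i ∈ (univ : Finset (Fin d)), |∑ x, if colB (frec η x H) (frec η' x H) (c x) ≠
    colB (frec η (x + Pi.single i 1) H) (frec η' (x + Pi.single i 1) H)
      (c (x + Pi.single i 1)) then (1 : ℝ) else 0| ≤ Fintype.card (Tor d n) := by
    intro i _
    refine le_trans (Finset.abs_sum_le_sum_abs _ _) ?_
    rw [← Finset.card_univ, Finset.card_eq_sum_ones, Nat.cast_sum]
    refine Finset.sum_le_sum fun x _ => ?_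
    split_ifs <;> norm_num
  refine le_trans (Finset.sum_le_sum h) ?_
  rw [Finset.sum_const, Finset.card_univ, Fintype.card_fin, nsmul_eq_mul]

open Classical in
theorem var_A [IsProbabilityMeasure P] (hd : 1 ≤ d) (M : Model d n P)
    (hu : Tendsto (fun H => ER H fun η : ℕ → Tor d n =>
      if ∃ x, frec η x H = none then (1 : ℝ) else 0) atTop (nhds 0)) :
    Tendsto (fun H => V2 (d := d) (n := n) H (NA H)) atTop (nhds (variance M.sizeA P)) := by
  refine tendsto_var hd M M.sizeA (measurable_sizeA M) (Fintype.card (Tor d n)) ?_ (fun H => NA H)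
    NA_bd ?_ ?_ hu
  · intro ω
    unfold Model.sizeA
    rw [abs_of_nonneg (Nat.cast_nonneg _)]
    exact (ncard_le _ _).1
  · intro H η η' ζ ζ' c h h'
    show NA H η η' c = NA H ζ ζ' c
    unfold NA
    refine Finset.sum_congr rfl fun x _ => ?_
    rw [frec_congr x H h, frec_congr x H h']
  · intro H ω h
    exact marked_ncard (fun i t => M.X i t ω) (fun z => M.coin z ω) H h

open Classical in
theorem var_B [IsProbabilityMeasure P] (hd : 1 ≤ d) (hn : 3 ≤ n) (M : Model d n P)
    (hu : Tendsto (fun H => ER H fun η : ℕ → Tor d n =>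
      if ∃ x, frec η x H = none then (1 : ℝ) else 0) atTop (nhds 0)) :
    Tendsto (fun H => V2 (d := d) (n := n) H (NB H)) atTop (nhds (variance M.sizeB P)) := by
  refine tendsto_var hd M M.sizeB (measurable_sizeB M)
    ((Fintype.card (Sym2 (Tor d n)) : ℝ) + d * Fintype.card (Tor d n)) ?_ (fun H => NB H)
    ?_ ?_ ?_ hu
  · intro ω
    unfold Model.sizeB
    rw [abs_of_nonneg (Nat.cast_nonneg _)]
    refine le_trans (ncard_le _ _).2 ?_
    have : (0 : ℝ) ≤ d * Fintype.card (Tor d n) := by positivity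
    linarith
  · intro H η η' c
    refine le_trans (NB_bd H η η' c) ?_
    have : (0 : ℝ) ≤ (Fintype.card (Sym2 (Tor d n)) : ℝ) := by positivity
    linarith
  · intro H η η' ζ ζ' c h h'
    show NB H η η' c = NB H ζ ζ' c
    unfold NB
    refine Finset.sum_congr rfl fun i _ => Finset.sum_congr rfl fun x _ => ?_
    rw [frec_congr x H h, frec_congr x H h', frec_congr (x + Pi.single i 1) H h,
      frec_congr (x + Pi.single i 1) H h']
  · intro H ω h
    exact interface_ncard hn (fun i t => M.X i t ω) (fun z => M.coin z ω) H h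

end CRW
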