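import Pool.Agent.Lib.CRW.Defs2

/-!
# Module PA1: the torus, the sup norm, the step distribution

PROOFS.  `nrm`: `ZMod.natAbs_valMinAbs_add_le`, `ZMod.natAbs_valMinAbs_neg`, `ZMod.natAbs_valMinAbs_le`
(`2 * natAbs ≤ n`).  `stp_expand`: expand the definition (`Finset.sum_add_distrib`, `ite_mul`, `Finset.sum_ite_eq`);
everything else about `stp` follows from it or directly from the definition.  `rho_le`: triangle inequality.
-/

open Finset

namespace CRW

variable {d n : ℕ}

theorem stp_nonneg (w : Tor d n) : 0 ≤ stp d n w := by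
  unfold stp
  refine add_nonneg (by split_ifs <;> norm_num) (Finset.sum_nonneg fun i _ =>
    div_nonneg (add_nonneg (by split_ifs <;> norm_num) (by split_ifs <;> norm_num))
      (by positivity))

theorem stp_neg (w : Tor d n) : stp d n (-w) = stp d n w := by
  unfold stp
  have h1 : ∀ i : Fin d, (-w = Pi.single i 1) = (w = -Pi.single i 1) := fun i =>
    propext neg_eq_iff_eq_neg
  have h2 : ∀ i : Fin d, (-w = -Pi.single i 1) = (w = Pi.single i 1) := fun i => propext neg_inj
  simp only [h1, h2, neg_eq_zero]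
  congr 1
  exact Finset.sum_congr rfl fun i _ => by rw [add_comm]

theorem stp_expand [NeZero n] {E : Type} [AddCommGroup E] [Module ℝ E] (G : Tor d n → E) :
    ∑ w, stp d n w • G w = (1 / 2 : ℝ) • G 0 +
      ∑ i : Fin d, (1 / (4 * (d : ℝ))) • (G (Pi.single i 1) + G (-Pi.single i 1)) := by
  unfold stp
  simp only [add_smul, Finset.sum_smul, Finset.sum_add_distrib]
  congr 1
  · simp only [ite_smul, zero_smul, Finset.sum_ite_eq', Finset.mem_univ, if_true]
  · rw [Finset.sum_comm]
    refine Finset.sum_congr rfl fun i _ => ?_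
    have h : ∀ w : Tor d n, (((if w = Pi.single i 1 then (1 : ℝ) else 0) +
        (if w = -Pi.single i 1 then 1 else 0)) / (4 * (d : ℝ))) • G w =
        (if w = Pi.single i 1 then (1 / (4 * (d : ℝ))) • G w else 0) +
          (if w = -Pi.single i 1 then (1 / (4 * (d : ℝ))) • G w else 0) := by
      intro w
      rw [add_div, add_smul]
      congr 1 <;> split_ifs <;> simp
    rw [Finset.sum_congr rfl fun w _ => h w, Finset.sum_add_distrib]
    simp only [Finset.sum_ite_eq', Finset.mem_univ, if_true, smul_add]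

theorem stp_sum [NeZero n] (hd : 1 ≤ d) : ∑ w : Tor d n, stp d n w = 1 := by
  have h := stp_expand (d := d) (n := n) (fun _ => (1 : ℝ))
  simp only [smul_eq_mul, mul_one] at h
  rw [h, Finset.sum_const, Finset.card_univ, Fintype.card_fin, nsmul_eq_mul]
  have : (d : ℝ) ≠ 0 := by positivity
  field_simp
  norm_num

private theorem one_ne {n : ℕ} (hn : 3 ≤ n) : (1 : ZMod n) ≠ 0 := by
  have : Fact (1 < n) := ⟨by omega⟩
  exact one_ne_zero

theorem stp_zero [NeZero n] (hn : 3 ≤ n) : stp d n 0 = 1 / 2 := by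
  unfold stp
  rw [if_pos rfl]
  have h : ∀ i : Fin d, (0 : Tor d n) ≠ Pi.single i 1 := by
    intro i h
    have := congrFun h i
    rw [Pi.zero_apply, Pi.single_eq_same] at this
    exact one_ne hn this.symm
  have h' : ∀ i : Fin d, (0 : Tor d n) ≠ -Pi.single i 1 := by
    intro i h1
    exact h i (by rw [eq_comm, neg_eq_zero] at h1; exact h1.symm)
  simp [h, h']

theorem nrm_zero : nrm (0 : Tor d n) = 0 := by
  unfold nrm
  simp

theorem nrm_neg (z : Tor d n) : nrm (-z) = nrm z := by
  unfold nrm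
  simp only [Pi.neg_apply, ZMod.natAbs_valMinAbs_neg]

private theorem coord_le_nrm (z : Tor d n) (i : Fin d) : (z i).valMinAbs.natAbs ≤ nrm z :=
  Finset.le_sup (f := fun i => (z i).valMinAbs.natAbs) (Finset.mem_univ i)

theorem nrm_add_le (x y : Tor d n) : nrm (x + y) ≤ nrm x + nrm y := by
  refine Finset.sup_le fun i _ => ?_
  calc ((x + y) i).valMinAbs.natAbs ≤ ((x i).valMinAbs + (y i).valMinAbs).natAbs :=
        ZMod.natAbs_valMinAbs_add_le _ _
    _ ≤ (x i).valMinAbs.natAbs + (y i).valMinAbs.natAbs := Int.natAbs_add_le _ _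
    _ ≤ _ := Nat.add_le_add (coord_le_nrm x i) (coord_le_nrm y i)

theorem nrm_eq_zero [NeZero n] {z : Tor d n} : nrm z = 0 ↔ z = 0 := by
  constructor
  · intro h
    funext i
    have h1 := coord_le_nrm z i
    rw [h] at h1
    have h2 : (z i).valMinAbs = 0 := by omega
    exact (ZMod.valMinAbs_eq_zero _).1 h2
  · rintro rfl
    exact nrm_zero

theorem two_nrm_le [NeZero n] (z : Tor d n) : 2 * nrm z ≤ n := by
  have : nrm z ≤ n / 2 := Finset.sup_le fun i _ => ZMod.natAbs_valMinAbs_le _
  omega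

private theorem natAbs_one (n : ℕ) : ((1 : ZMod n).valMinAbs).natAbs ≤ 1 := by
  rcases Nat.eq_zero_or_pos n with rfl | hn
  · rfl
  · have : NeZero n := ⟨hn.ne'⟩
    rw [ZMod.valMinAbs_natAbs_eq_min]
    refine (min_le_left _ _).trans ?_
    rw [ZMod.val_one_eq_one_mod]
    exact Nat.mod_le _ _

private theorem nrm_single (i : Fin d) : nrm (Pi.single i 1 : Tor d n) ≤ 1 := by
  refine Finset.sup_le fun j _ => ?_
  by_cases h : j = i
  · subst h
    rw [Pi.single_eq_same]
    exact natAbs_one n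
  · rw [Pi.single_eq_of_ne h]
    simp

theorem nrm_step {w : Tor d n} (h : stp d n w ≠ 0) : nrm w ≤ 1 := by
  by_contra hw
  apply h
  unfold stp
  have h0 : w ≠ 0 := by
    rintro rfl
    rw [nrm_zero] at hw
    omega
  have h1 : ∀ i : Fin d, w ≠ Pi.single i 1 := by
    rintro i rfl
    exact hw (nrm_single i)
  have h2 : ∀ i : Fin d, w ≠ -Pi.single i 1 := by
    rintro i rfl
    rw [nrm_neg] at hw
    exact hw (nrm_single i)
  simp [h0, h1, h2]

theorem one_le_rho (z : Tor d n) : 1 ≤ rho z := by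
  unfold rho
  have : (0 : ℝ) ≤ nrm z := Nat.cast_nonneg _
  linarith

theorem rho_pos (z : Tor d n) : 0 < rho z := lt_of_lt_of_le one_pos (one_le_rho z)

theorem rho_neg (z : Tor d n) : rho (-z) = rho z := by
  unfold rho
  rw [nrm_neg]

theorem rho_add_le (x y : Tor d n) : rho (x + y) ≤ rho x + rho y := by
  unfold rho
  have : (nrm (x + y) : ℝ) ≤ nrm x + nrm y := by exact_mod_cast nrm_add_le x y
  linarith

theorem rho_le_two_mul {a : Tor d n} (ha : nrm a ≤ 1) (z : Tor d n) : rho z ≤ 2 * rho (z - a) := by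
  unfold rho
  have h1 : nrm z ≤ nrm (z - a) + nrm a := by
    have := nrm_add_le (z - a) a
    rwa [sub_add_cancel] at this
  have h2 : (nrm z : ℝ) ≤ nrm (z - a) + 1 := by exact_mod_cast h1.trans (by omega)
  have : (0 : ℝ) ≤ nrm (z - a) := Nat.cast_nonneg _
  linarith

theorem rho_le_mul_step {w : Tor d n} (hw : stp d n w ≠ 0) (z : Tor d n) :
    rho z ≤ 2 * rho (z + w) := by
  have := rho_le_two_mul (a := -w) (by rw [nrm_neg]; exact nrm_step hw) z
  rwa [sub_neg_eq_add] at this

theorem card_tor [NeZero n] : (Fintype.card (Tor d n) : ℝ) = NN d n := by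
  unfold NN
  rw [Fintype.card_fun, ZMod.card, Fintype.card_fin]
  push_cast
  rfl

theorem NN_pos [NeZero n] : 0 < NN d n := by
  unfold NN
  have : 0 < n := Nat.pos_of_ne_zero (NeZero.ne n)
  positivity

theorem sq_le_NN [NeZero n] (hd : 2 ≤ d) : (n : ℝ) ^ 2 ≤ NN d n := by
  unfold NN
  have : 0 < n := Nat.pos_of_ne_zero (NeZero.ne n)
  exact pow_le_pow_right₀ (by exact_mod_cast this) hd

theorem st_nrm [NeZero n] (i : Fin d) (j : Fin 2) : nrm (st (n := n) i j) ≤ 1 := by
  unfold st
  fin_cases j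
  · show nrm (0 : Tor d n) ≤ 1
    rw [nrm_zero]
    omega
  · exact nrm_single i

theorem st_ne [NeZero n] (hn : 3 ≤ n) (i : Fin d) : st (n := n) i 0 ≠ st i 1 := by
  intro h
  have h1 : (0 : Tor d n) = Pi.single i 1 := h
  have := congrFun h1 i
  rw [Pi.zero_apply, Pi.single_eq_same] at this
  exact one_ne hn this.symm

end CRW
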