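import Pool.Agent.Lib.CRW.Model
import Pool.Agent.Lib.CRW.PA1

/-!
# Module F6: the model exists

`Ω = (Fin 2 × ℕ → Tor) × (Tor → Bool)`: start and steps of the two walks, coins.
-/

open Finset

namespace CRW

open MeasureTheory

private theorem stp_sum_ofReal (d n : ℕ) [NeZero n] (hd : 1 ≤ d) :
    ∑ z : Tor d n, ENNReal.ofReal (stp d n z) = 1 := by
  rw [← ENNReal.ofReal_sum_of_nonneg fun z _ => stp_nonneg z, stp_sum hd, ENNReal.ofReal_one]

private theorem unif_sum_ofReal (d n : ℕ) [NeZero n] :
    ∑ _z : Tor d n, ENNReal.ofReal (NN d n)⁻¹ = 1 := by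
  rw [← ENNReal.ofReal_sum_of_nonneg fun z _ => (inv_nonneg.2 NN_pos.le), Finset.sum_const,
    Finset.card_univ, nsmul_eq_mul, card_tor, mul_inv_cancel₀ NN_pos.ne', ENNReal.ofReal_one]

/-- the law of the start (`0`) or of a step -/
private noncomputable def stepPMF (d n : ℕ) [NeZero n] (hd : 1 ≤ d) : ℕ → PMF (Tor d n)
  | 0 => PMF.ofFintype (fun _ => ENNReal.ofReal (NN d n)⁻¹) (unif_sum_ofReal d n)
  | _ + 1 => PMF.ofFintype (fun z => ENNReal.ofReal (stp d n z)) (stp_sum_ofReal d n hd)

private theorem coin_sum : ∑ _b : Bool, ENNReal.ofReal (1 / 2 : ℝ) = 1 := by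
  rw [← ENNReal.ofReal_sum_of_nonneg fun _ _ => by norm_num]
  norm_num

private noncomputable def coinPMF : PMF Bool :=
  PMF.ofFintype (fun _ => ENNReal.ofReal (1 / 2 : ℝ)) coin_sum

private noncomputable def mu1 (d n : ℕ) [NeZero n] (hd : 1 ≤ d) :
    Measure (Fin 2 × ℕ → Tor d n) :=
  Measure.infinitePi fun i : Fin 2 × ℕ => (stepPMF d n hd i.2).toMeasure

private noncomputable def mu2 (d n : ℕ) [NeZero n] : Measure (Tor d n → Bool) :=
  Measure.pi fun _ : Tor d n => coinPMF.toMeasure

private instance mu1_prob (d n : ℕ) [NeZero n] (hd : 1 ≤ d) : IsProbabilityMeasure (mu1 d n hd) := by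
  unfold mu1
  infer_instance

private instance mu2_prob (d n : ℕ) [NeZero n] : IsProbabilityMeasure (mu2 d n) := by
  unfold mu2
  infer_instance

/-- the walk -/
private def walk {d n : ℕ} (i : Fin 2) (t : ℕ) (ω : (Fin 2 × ℕ → Tor d n) × (Tor d n → Bool)) :
    Tor d n := ∑ s ∈ range (t + 1), ω.1 (i, s)

/-- the increments of a path -/
private def incr {d n : ℕ} (x : ℕ → Tor d n) : ℕ → Tor d n
  | 0 => x 0
  | s + 1 => x (s + 1) - x s

private theorem sum_incr {d n : ℕ} (x : ℕ → Tor d n) (t : ℕ) :
    ∑ s ∈ range (t + 1), incr x s = x t := by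
  induction t with
  | zero => simp [incr]
  | succ t ih => rw [Finset.sum_range_succ, ih]; simp [incr]

private theorem walk_iff {d n : ℕ} (i : Fin 2) (T : ℕ) (x : ℕ → Tor d n)
    (ω : (Fin 2 × ℕ → Tor d n) × (Tor d n → Bool)) :
    (∀ t ≤ T, walk i t ω = x t) ↔ ∀ s ∈ range (T + 1), ω.1 (i, s) = incr x s := by
  constructor
  · intro h s hs
    have hs' : s ≤ T := Nat.lt_succ_iff.1 (mem_range.1 hs)
    cases s with
    | zero =>
      have h0 := h 0 (Nat.zero_le _)
      simpa [walk, incr] using h0
    | succ s =>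
      have h1 := h (s + 1) hs'
      have h2 := h s (by omega)
      unfold walk at h1 h2
      rw [Finset.sum_range_succ, h2] at h1
      show _ = x (s + 1) - x s
      rw [← h1]
      abel
  · intro h t ht
    rw [← sum_incr x t]
    unfold walk
    exact Finset.sum_congr rfl fun s hs => h s (mem_range.2 (by have := mem_range.1 hs; omega))

private theorem prod_step (d n : ℕ) [NeZero n] (hd : 1 ≤ d) (T : ℕ) (x : ℕ → Tor d n) :
    ∏ s ∈ range (T + 1), (stepPMF d n hd s) (incr x s) = ENNReal.ofReal (pathP T x) := by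
  rw [Finset.prod_range_succ']
  unfold pathP
  rw [mul_comm, ENNReal.ofReal_mul (inv_nonneg.2 NN_pos.le),
    ENNReal.ofReal_prod_of_nonneg fun t _ => stp_nonneg _]
  rfl

theorem exists_model (d n : ℕ) [NeZero n] (hd : 1 ≤ d) :
    ∃ (Ω : Type) (_ : MeasurableSpace Ω) (P : Measure Ω), IsProbabilityMeasure P ∧
      Nonempty (Model d n P) := by
  refine ⟨(Fin 2 × ℕ → Tor d n) × (Tor d n → Bool), inferInstance, (mu1 d n hd).prod (mu2 d n),
    inferInstance, ⟨?_⟩⟩
  refine
    { X := walk
      coin := fun z ω => ω.2 z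
      measX := ?_
      measC := ?_
      law := ?_ }
  · intro i t z
    have hm : Measurable fun ω : (Fin 2 × ℕ → Tor d n) × (Tor d n → Bool) => walk i t ω := by
      have h1 : Measurable fun ω : (Fin 2 × ℕ → Tor d n) × (Tor d n → Bool) =>
          fun s : Fin (t + 1) => ω.1 (i, (s : ℕ)) :=
        measurable_pi_lambda _ fun s => (measurable_pi_apply (i, (s : ℕ))).comp measurable_fst
      have h2 : Measurable fun f : Fin (t + 1) → Tor d n => ∑ s, f s :=
        measurable_of_countable _
      have h3 := h2.comp h1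
      have heq : (fun ω : (Fin 2 × ℕ → Tor d n) × (Tor d n → Bool) => walk i t ω) =
          (fun f : Fin (t + 1) → Tor d n => ∑ s, f s) ∘
            fun ω : (Fin 2 × ℕ → Tor d n) × (Tor d n → Bool) =>
              fun s : Fin (t + 1) => ω.1 (i, (s : ℕ)) := by
        funext ω
        show ∑ s ∈ range (t + 1), ω.1 (i, s) = ∑ s : Fin (t + 1), ω.1 (i, (s : ℕ))
        rw [Finset.sum_range]
      rw [heq]
      exact h3
    exact hm (measurableSet_singleton z)
  · intro z
    have hm : Measurable fun ω : (Fin 2 × ℕ → Tor d n) × (Tor d n → Bool) => ω.2 z :=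
      (measurable_pi_apply z).comp measurable_snd
    exact hm (measurableSet_singleton true)
  · intro T x y c
    let ξ : Fin 2 × ℕ → Tor d n := fun i => if i.1 = 0 then incr x i.2 else incr y i.2
    have hset : {ω : (Fin 2 × ℕ → Tor d n) × (Tor d n → Bool) | (∀ t ≤ T, walk 0 t ω = x t) ∧
        (∀ t ≤ T, walk 1 t ω = y t) ∧ ∀ z, ω.2 z = c z} =
        (Set.pi ((Finset.univ ×ˢ range (T + 1) : Finset (Fin 2 × ℕ)) : Set (Fin 2 × ℕ))
          fun i => {ξ i}) ×ˢ {c} := by
      ext ω
      rw [Set.mem_ofPred_eq, walk_iff, walk_iff, Set.mem_prod, Set.mem_pi, Set.mem_singleton_iff]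
      constructor
      · rintro ⟨h1, h2, h3⟩
        refine ⟨?_, funext h3⟩
        rintro ⟨i, s⟩ his
        have hs : s ∈ range (T + 1) := (Finset.mem_product.1 (Finset.mem_coe.1 his)).2
        show ω.1 (i, s) = if i = 0 then incr x s else incr y s
        fin_cases i
        · simpa using h1 s hs
        · simpa using h2 s hs
      · rintro ⟨h1, h2⟩
        refine ⟨?_, ?_, fun z => congrFun h2 z⟩
        · intro s hs
          have h := h1 (0, s) (Finset.mem_coe.2 (Finset.mem_product.2 ⟨Finset.mem_univ _, hs⟩))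
          have h' : ω.1 (0, s) = if (0 : Fin 2) = 0 then incr x s else incr y s := h
          simpa using h'
        · intro s hs
          have h := h1 (1, s) (Finset.mem_coe.2 (Finset.mem_product.2 ⟨Finset.mem_univ _, hs⟩))
          have h' : ω.1 (1, s) = if (1 : Fin 2) = 0 then incr x s else incr y s := h
          simpa using h'
    rw [hset, Measure.prod_prod]
    have e1 : mu1 d n hd (Set.pi ((Finset.univ ×ˢ range (T + 1) : Finset (Fin 2 × ℕ)) :
        Set (Fin 2 × ℕ)) fun i => {ξ i}) = ENNReal.ofReal (pathP T x) * ENNReal.ofReal (pathP T y) := by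
      unfold mu1
      rw [Measure.infinitePi_pi _ (fun i _ => measurableSet_singleton _), Finset.prod_product,
        Fin.prod_univ_two]
      congr 1
      · rw [← prod_step d n hd T x]
        refine Finset.prod_congr rfl fun s _ => ?_
        rw [PMF.toMeasure_apply_singleton _ _ (measurableSet_singleton _)]
        rfl
      · rw [← prod_step d n hd T y]
        refine Finset.prod_congr rfl fun s _ => ?_
        rw [PMF.toMeasure_apply_singleton _ _ (measurableSet_singleton _)]
        rfl
    have e2 : mu2 d n {c} = ENNReal.ofReal ((1 / 2) ^ Fintype.card (Tor d n)) := by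
      unfold mu2
      rw [Measure.pi_singleton]
      have : ∀ z : Tor d n, coinPMF.toMeasure {c z} = ENNReal.ofReal (1 / 2) := by
        intro z
        rw [PMF.toMeasure_apply_singleton _ _ (measurableSet_singleton _)]
        rfl
      rw [Finset.prod_congr rfl fun z _ => this z, Finset.prod_const, Finset.card_univ,
        ENNReal.ofReal_pow (by norm_num)]
    have hp : ∀ x : ℕ → Tor d n, 0 ≤ pathP T x := fun x =>
      mul_nonneg (inv_nonneg.2 NN_pos.le) (Finset.prod_nonneg fun t _ => stp_nonneg _)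
    rw [e1, e2, ← ENNReal.ofReal_mul (hp x), ← ENNReal.ofReal_mul (mul_nonneg (hp x) (hp y))]

end CRW
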