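import Pool.Agent.Lib.CRW.KH

/-!
# Kernel group, KI: decay of the probability of no visit

`nv_green`: `∑_{r ≤ T} hk r z ≤ (1 - nv T z) ∑_{r ≤ T} hk r 0` by induction on `T` for all `z`: for `z = 0` both
sides agree (`nv T 0 = 0`); for `z ≠ 0`, `∑_{r ≤ T+1} hk r z = ∑_w stp w ∑_{r ≤ T} hk r (z+w)` (`hk 0 z = 0`) and
`nv (T+1) z = ∑_w stp w nv T (z+w)`; the last sum is monotone in `T`.
With `hk_diag` the last sum is `≤ C (1 + T/N)`; with `hk_long`, `hk r z ≥ 1/(2N)` for `r ≥ A n²`
(`C e^{-cA} ≤ 1/2`), so for `T = ⌈2 A N⌉ + ..` the left side is `≥ c'`: `nv T z ≤ 1 - q` for all `z`.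
`nv (k + m) z ≤ (sup nv m) nv k z`-type submultiplicativity (induction on `k`), iterate.
-/

open Finset

namespace CRW

theorem nv_nonneg {d n : ℕ} [NeZero n] (k : ℕ) (z : Tor d n) : 0 ≤ nv d n k z := by
  induction k generalizing z with
  | zero => unfold nv; split_ifs <;> norm_num
  | succ k ih =>
    unfold nv
    split_ifs
    · exact le_rfl
    · exact Finset.sum_nonneg fun w _ => mul_nonneg (stp_nonneg w) (ih _)

theorem nv_le_one {d n : ℕ} [NeZero n] (hd : 1 ≤ d) (k : ℕ) (z : Tor d n) : nv d n k z ≤ 1 := by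
  induction k generalizing z with
  | zero => unfold nv; split_ifs <;> norm_num
  | succ k ih =>
    unfold nv
    split_ifs
    · exact zero_le_one
    · calc ∑ w, stp d n w * nv d n k (z + w) ≤ ∑ w, stp d n w * 1 :=
          Finset.sum_le_sum fun w _ => mul_le_mul_of_nonneg_left (ih _) (stp_nonneg w)
        _ = 1 := by simp only [mul_one]; exact stp_sum hd

private theorem nv_zero' {d n : ℕ} [NeZero n] (k : ℕ) : nv d n k 0 = 0 := by
  cases k <;> simp [nv]

private theorem nv_succ' {d n : ℕ} [NeZero n] (k : ℕ) {z : Tor d n} (h : z ≠ 0) :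
    nv d n (k + 1) z = ∑ w, stp d n w * nv d n k (z + w) := by
  rw [nv, if_neg h]

theorem nv_anti {d n : ℕ} [NeZero n] (hd : 1 ≤ d) (k : ℕ) (z : Tor d n) :
    nv d n (k + 1) z ≤ nv d n k z := by
  induction k generalizing z with
  | zero =>
    by_cases h : z = 0
    · rw [h, nv_zero', nv_zero']
    · refine (nv_le_one hd _ _).trans ?_
      unfold nv
      rw [if_neg h]
  | succ k ih =>
    by_cases h : z = 0
    · rw [h, nv_zero', nv_zero']
    · rw [nv_succ' _ h, nv_succ' _ h]
      exact Finset.sum_le_sum fun w _ => mul_le_mul_of_nonneg_left (ih _) (stp_nonneg w)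

theorem nv_green {d n : ℕ} [NeZero n] (hd : 1 ≤ d) (T : ℕ) (z : Tor d n) :
    ∑ r ∈ range (T + 1), hk d n r z ≤
      (1 - nv d n T z) * ∑ r ∈ range (T + 1), hk d n r (0 : Tor d n) := by
  induction T generalizing z with
  | zero =>
    by_cases h : z = 0
    · rw [h, nv_zero']; simp
    · have h1 : hk d n 0 z = 0 := by unfold hk; rw [if_neg h]
      have h2 : nv d n 0 z = 1 := by unfold nv; rw [if_neg h]
      rw [zero_add, Finset.sum_range_one, h1, h2]
      simp
  | succ T ih =>
    by_cases h : z = 0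
    · rw [h, nv_zero']; simp
    · have h1 : hk d n 0 z = 0 := by unfold hk; rw [if_neg h]
      have h3 : ∑ r ∈ range (T + 1 + 1), hk d n r z =
          ∑ w, stp d n w * ∑ r ∈ range (T + 1), hk d n r (z + w) := by
        rw [Finset.sum_range_succ', h1, add_zero]
        simp only [Finset.mul_sum]
        rw [Finset.sum_comm]
        rfl
      have h4 : ∑ w, stp d n w * ((1 - nv d n T (z + w)) *
          ∑ r ∈ range (T + 1), hk d n r (0 : Tor d n)) =
          (1 - nv d n (T + 1) z) * ∑ r ∈ range (T + 1), hk d n r (0 : Tor d n) := by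
        simp only [← mul_assoc]
        rw [← Finset.sum_mul]
        congr 1
        rw [nv_succ' _ h]
        simp only [mul_sub, mul_one]
        rw [Finset.sum_sub_distrib, stp_sum hd]
      rw [h3]
      calc ∑ w, stp d n w * ∑ r ∈ range (T + 1), hk d n r (z + w)
          ≤ ∑ w, stp d n w * ((1 - nv d n T (z + w)) *
            ∑ r ∈ range (T + 1), hk d n r (0 : Tor d n)) :=
            Finset.sum_le_sum fun w _ => mul_le_mul_of_nonneg_left (ih _) (stp_nonneg w)
        _ = (1 - nv d n (T + 1) z) * ∑ r ∈ range (T + 1), hk d n r (0 : Tor d n) := h4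
        _ ≤ (1 - nv d n (T + 1) z) * ∑ r ∈ range (T + 1 + 1), hk d n r (0 : Tor d n) := by
            refine mul_le_mul_of_nonneg_left ?_ (sub_nonneg.2 (nv_le_one hd _ _))
            rw [Finset.sum_range_succ _ (T + 1)]
            exact le_add_of_nonneg_right (hk_nonneg _ _)

theorem nv_submul {d n : ℕ} [NeZero n] (hd : 1 ≤ d) (k m : ℕ) (q : ℝ)
    (hq : ∀ z : Tor d n, nv d n m z ≤ q) (z : Tor d n) :
    nv d n (k + m) z ≤ q * nv d n k z := by
  induction k generalizing z with
  | zero =>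
    by_cases h : z = 0
    · rw [h, nv_zero', nv_zero', mul_zero]
    · have h2 : nv d n 0 z = 1 := by unfold nv; rw [if_neg h]
      rw [h2, mul_one, zero_add]
      exact hq z
  | succ k ih =>
    by_cases h : z = 0
    · rw [h, nv_zero', nv_zero', mul_zero]
    · rw [show k + 1 + m = k + m + 1 by ring, nv_succ' _ h, nv_succ' _ h, Finset.mul_sum]
      refine Finset.sum_le_sum fun w _ => ?_
      calc stp d n w * nv d n (k + m) (z + w) ≤ stp d n w * (q * nv d n k (z + w)) :=
            mul_le_mul_of_nonneg_left (ih _) (stp_nonneg w)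
        _ = q * (stp d n w * nv d n k (z + w)) := by ring

theorem nv_decay (d : ℕ) (hd : 3 ≤ d) : ∃ c C : ℝ, 0 < c ∧ 1 ≤ C ∧
    ∀ n : ℕ, [NeZero n] → 3 ≤ n → ∀ (k : ℕ) (z : Tor d n),
      nv d n k z ≤ C * Real.exp (-c * k / NN d n) := by
  obtain ⟨C1, hC1, hdiag⟩ := hk_diag d hd
  obtain ⟨c2, C2, hc2, hC2, hlong⟩ := hk_long d hd
  obtain ⟨A, hA⟩ := exists_nat_ge (max 1 (Real.log (2 * C2) / c2))
  have hA1 : (1 : ℝ) ≤ A := (le_max_left _ _).trans hA
  have hA1' : 1 ≤ A := by exact_mod_cast hA1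
  have hA2 : Real.log (2 * C2) ≤ c2 * A := by
    have h := (le_max_right _ _).trans hA
    rw [div_le_iff₀ hc2] at h
    linarith
  have hexpA : C2 * Real.exp (-(c2 * A)) ≤ 1 / 2 := by
    have h1 : 2 * C2 ≤ Real.exp (c2 * A) := (Real.log_le_iff_le_exp (by linarith)).1 hA2
    rw [Real.exp_neg]
    have h2 : 0 < Real.exp (c2 * A) := Real.exp_pos _
    rw [← div_eq_mul_inv, div_le_iff₀ h2]
    linarith
  have hsum : Summable fun r : ℕ => 1 / ((r : ℝ) * Real.sqrt r) := by
    have h1 := (Real.summable_one_div_nat_rpow (p := 3 / 2)).2 (by norm_num)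
    refine h1.congr fun r => ?_
    rcases Nat.eq_zero_or_pos r with rfl | hr
    · rw [Nat.cast_zero, Real.zero_rpow (by norm_num), zero_mul]
    · have hr' : (0 : ℝ) < r := by exact_mod_cast hr
      rw [show (3 / 2 : ℝ) = 1 + 1 / 2 by norm_num, Real.rpow_add hr', Real.rpow_one,
        Real.sqrt_eq_rpow]
  set K0 : ℝ := ∑' r : ℕ, 1 / ((r : ℝ) * Real.sqrt r) with hK0
  have hterm0 : ∀ r : ℕ, 0 ≤ 1 / ((r : ℝ) * Real.sqrt r) := fun r => by positivity
  have hK0nn : 0 ≤ K0 := tsum_nonneg hterm0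
  set D : ℝ := 1 + C1 * (K0 + 2 * A) with hD
  have hDpos : 0 < D := by
    have : 0 ≤ C1 * (K0 + 2 * A) := by positivity
    linarith
  set p : ℝ := (A : ℝ) / 2 / D with hp
  have hppos : 0 < p := by positivity
  refine ⟨p / (2 * A), Real.exp p, by positivity, Real.one_le_exp hppos.le, ?_⟩
  intro n _ hn k z
  have hd1 : 1 ≤ d := by omega
  have hn0 : (0 : ℝ) < n := by
    have : 0 < n := by omega
    exact_mod_cast this
  have hNpos : 0 < NN d n := NN_pos
  have hNcast : ((n ^ d : ℕ) : ℝ) = NN d n := by unfold NN; push_cast; rfl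
  set T : ℕ := 2 * A * n ^ d with hT
  have hTcast : (T : ℝ) = 2 * A * NN d n := by rw [hT]; push_cast; unfold NN; ring
  have hTpos : 0 < T := by
    rw [hT]
    have h1 : 0 < n ^ d := pow_pos (by omega) d
    exact Nat.mul_pos (Nat.mul_pos two_pos (by omega)) h1
  -- upper bound for the Green function at zero
  have hG0 : ∑ r ∈ range (T + 1), hk d n r (0 : Tor d n) ≤ D := by
    rw [Finset.sum_range_succ']
    have h1 : hk d n 0 (0 : Tor d n) = 1 := by unfold hk; rw [if_pos rfl]
    have h2 : ∑ r ∈ range T, hk d n (r + 1) (0 : Tor d n) ≤ C1 * (K0 + 2 * A) := by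
      calc ∑ r ∈ range T, hk d n (r + 1) (0 : Tor d n)
          ≤ ∑ r ∈ range T, C1 * (1 / (((r + 1 : ℕ) : ℝ) * Real.sqrt ((r + 1 : ℕ) : ℝ)) +
            1 / NN d n) := Finset.sum_le_sum fun r _ => hdiag n hn (r + 1) 0 (by omega)
        _ = C1 * (∑ r ∈ range T, 1 / (((r + 1 : ℕ) : ℝ) * Real.sqrt ((r + 1 : ℕ) : ℝ)) +
            T * (1 / NN d n)) := by
            rw [← Finset.mul_sum, Finset.sum_add_distrib, Finset.sum_const, Finset.card_range,
              nsmul_eq_mul]
        _ ≤ C1 * (K0 + 2 * A) := by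
            refine mul_le_mul_of_nonneg_left (add_le_add ?_ ?_) (by linarith)
            · calc ∑ r ∈ range T, 1 / (((r + 1 : ℕ) : ℝ) * Real.sqrt ((r + 1 : ℕ) : ℝ))
                  ≤ ∑ r ∈ range (T + 1), 1 / ((r : ℝ) * Real.sqrt (r : ℝ)) := by
                    rw [Finset.sum_range_succ']
                    exact le_add_of_nonneg_right (by simp)
                _ ≤ K0 := hsum.sum_le_tsum _ fun r _ => hterm0 r
            · rw [hTcast, mul_one_div, mul_div_assoc, div_self hNpos.ne', mul_one]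
    rw [h1]
    linarith
  -- lower bound for the Green function
  have hGz : ∀ z : Tor d n, (A : ℝ) / 2 ≤ ∑ r ∈ range (T + 1), hk d n r z := by
    intro z
    have hn2d : n ^ 2 ≤ n ^ d := Nat.pow_le_pow_right (by omega) (by omega)
    have hsub : Finset.Ico (A * n ^ 2) (T + 1) ⊆ range (T + 1) := by
      intro r hr
      exact Finset.mem_range.2 (Finset.mem_Ico.1 hr).2
    have h1 : ∀ r ∈ Finset.Ico (A * n ^ 2) (T + 1), 1 / 2 * (NN d n)⁻¹ ≤ hk d n r z := by
      intro r hr
      have hr1 := (Finset.mem_Ico.1 hr).1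
      have hr2 : n ^ 2 ≤ r := le_trans (Nat.le_mul_of_pos_left _ (by omega)) hr1
      have h2 := hlong n hn r z hr2
      have h3 : Real.exp (-c2 * r / (n : ℝ) ^ 2) ≤ Real.exp (-(c2 * A)) := by
        apply Real.exp_le_exp.2
        rw [neg_mul, neg_div]
        apply neg_le_neg
        rw [le_div_iff₀ (by positivity), mul_assoc]
        refine mul_le_mul_of_nonneg_left ?_ hc2.le
        exact_mod_cast hr1
      have h4 : C2 / NN d n * Real.exp (-c2 * r / (n : ℝ) ^ 2) ≤ 1 / 2 * (NN d n)⁻¹ := by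
        calc C2 / NN d n * Real.exp (-c2 * r / (n : ℝ) ^ 2)
            ≤ C2 / NN d n * Real.exp (-(c2 * A)) :=
              mul_le_mul_of_nonneg_left h3 (by positivity)
          _ = (C2 * Real.exp (-(c2 * A))) * (NN d n)⁻¹ := by ring
          _ ≤ 1 / 2 * (NN d n)⁻¹ := mul_le_mul_of_nonneg_right hexpA (by positivity)
      have h5 := (abs_le.1 (h2.trans h4)).1
      linarith
    calc (A : ℝ) / 2 = (A * NN d n) * (1 / 2 * (NN d n)⁻¹) := by field_simp
      _ ≤ ((Finset.Ico (A * n ^ 2) (T + 1)).card : ℝ) * (1 / 2 * (NN d n)⁻¹) := by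
          refine mul_le_mul_of_nonneg_right ?_ (by positivity)
          rw [Nat.card_Ico, ← hNcast]
          have h6 : A * n ^ d ≤ T + 1 - A * n ^ 2 := by
            have h7 : A * n ^ 2 ≤ A * n ^ d := Nat.mul_le_mul_left A hn2d
            have h8 : T = A * n ^ d + A * n ^ d := by rw [hT]; ring
            omega
          exact_mod_cast h6
      _ ≤ ∑ r ∈ Finset.Ico (A * n ^ 2) (T + 1), hk d n r z := by
          rw [← nsmul_eq_mul]
          exact Finset.card_nsmul_le_sum _ _ _ h1
      _ ≤ ∑ r ∈ range (T + 1), hk d n r z :=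
          Finset.sum_le_sum_of_subset_of_nonneg hsub fun r _ _ => hk_nonneg r z
  have hq : ∀ z : Tor d n, nv d n T z ≤ Real.exp (-p) := by
    intro z
    have h1 := (hGz z).trans (nv_green hd1 T z)
    have h2 : (1 - nv d n T z) * ∑ r ∈ range (T + 1), hk d n r (0 : Tor d n) ≤
        (1 - nv d n T z) * D :=
      mul_le_mul_of_nonneg_left hG0 (sub_nonneg.2 (nv_le_one hd1 T z))
    have h3 : p ≤ 1 - nv d n T z := by
      rw [hp, div_le_iff₀ hDpos]
      exact h1.trans h2
    have h4 := Real.add_one_le_exp (-p)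
    linarith
  have hpow : ∀ (j : ℕ) (z : Tor d n), nv d n (j * T) z ≤ Real.exp (-p * j) := by
    intro j
    induction j with
    | zero =>
      intro z
      simp only [zero_mul, Nat.cast_zero, mul_zero, Real.exp_zero]
      exact nv_le_one hd1 0 z
    | succ j ih =>
      intro z
      rw [show (j + 1) * T = j * T + T by ring]
      refine (nv_submul hd1 (j * T) T _ hq z).trans ?_
      refine (mul_le_mul_of_nonneg_left (ih z) (Real.exp_pos _).le).trans ?_
      rw [← Real.exp_add]
      apply le_of_eq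
      congr 1
      push_cast
      ring
  have hmono : ∀ (i m : ℕ), nv d n (m + i) z ≤ nv d n m z := by
    intro i m
    induction i with
    | zero => exact le_rfl
    | succ i ih => exact (nv_anti hd1 (m + i) z).trans ih
  have hk1 : k = (k / T) * T + k % T := by
    rw [mul_comm]
    exact (Nat.div_add_mod k T).symm
  have hk2 : (k : ℝ) / T - 1 ≤ ((k / T : ℕ) : ℝ) := by
    have hTr : (0 : ℝ) < T := by exact_mod_cast hTpos
    have h1 : (k : ℝ) = ((k / T : ℕ) : ℝ) * T + ((k % T : ℕ) : ℝ) := by exact_mod_cast hk1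
    have h2 : ((k % T : ℕ) : ℝ) ≤ T := by
      have := Nat.mod_lt k hTpos
      exact_mod_cast this.le
    rw [sub_le_iff_le_add, div_le_iff₀ hTr]
    linarith
  calc nv d n k z = nv d n ((k / T) * T + k % T) z := by rw [← hk1]
    _ ≤ nv d n ((k / T) * T) z := hmono _ _
    _ ≤ Real.exp (-p * ((k / T : ℕ) : ℝ)) := hpow _ z
    _ ≤ Real.exp (p + -(p / (2 * A)) * k / NN d n) := by
        apply Real.exp_le_exp.2
        have h1 : -(p / (2 * A)) * k / NN d n = -p * (k / T) := by
          rw [hTcast]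
          field_simp
        rw [h1]
        have h2 := mul_le_mul_of_nonneg_left hk2 hppos.le
        linarith
    _ = Real.exp p * Real.exp (-(p / (2 * A)) * k / NN d n) := Real.exp_add _ _

end CRW
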