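import Pool.Agent.Lib.CRW.KG
import Pool.Agent.Lib.CRW.KI

/-!
# Kernel group, KJ: the structure `HKB`

Take `κ` small (`≤` the constants `c` of `hk_long`, `nv_decay`, and `≤ c/2` of `hk_long`,
`hk_long_grad`), `C` large.  Weights: `exp(κ r/N) ≤ e` for `r < n²` (`n² ≤ N`), and for `r ≥ n²`,
`κ r/N ≤ (c/2) r/n²`, so `∑_{r ≥ n²} exp(κr/N) C/N e^{-cr/n²} ≤ (C/N) ∑ e^{-(c/2) r/n²} ≤ C' n²/N ≤ C''/rho z^{d-2}`
(`rho z ≤ n`), and with the gradient `C' n/N ≤ C''/rho z^{d-1}`.
`cent`, `r < n²`: `|hk - N⁻¹| ≤ hk + N⁻¹` and `short_sum`.  `gr` is a sum of at most `2d+1` terms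
(`stp w ≠ 0`).  `green`: `short_sum` plus the term `r = n²` (`hk_long`).
`dens`: `hk_long`.
-/

open Finset

namespace CRW

private theorem wsum (n : ℕ) (hn : 1 ≤ n) (N κ c B S : ℝ) (hN : (n : ℝ) ^ 2 ≤ N) (hκ0 : 0 ≤ κ)
    (hκ1 : κ ≤ 1) (hc : 0 < c) (hκc : κ ≤ c / 2) (hB : 0 ≤ B) (f : ℕ → ℝ) (hf : ∀ r, 0 ≤ f r)
    (hS : ∑ r ∈ range (n ^ 2), f r ≤ S)
    (hl : ∀ r : ℕ, n ^ 2 ≤ r → f r ≤ B * Real.exp (-c * r / n ^ 2)) (M : ℕ) :
    ∑ r ∈ range M, Real.exp (κ * r / N) * f r ≤
      Real.exp 1 * S + B * ((1 + 2 / c) * (n : ℝ) ^ 2) := by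
  have hn0 : (1 : ℝ) ≤ n := by exact_mod_cast hn
  have hn2 : (1 : ℝ) ≤ (n : ℝ) ^ 2 := by nlinarith
  have hn2' : (0 : ℝ) < (n : ℝ) ^ 2 := by linarith
  have hN0 : 0 < N := lt_of_lt_of_le hn2' hN
  have h1 : ∑ r ∈ range M, Real.exp (κ * r / N) * f r ≤
      ∑ r ∈ range (n ^ 2 + M), Real.exp (κ * r / N) * f r := by
    apply Finset.sum_le_sum_of_subset_of_nonneg
    · exact Finset.range_mono (by omega)
    · intro r _ _
      exact mul_nonneg (Real.exp_pos _).le (hf r)
  refine h1.trans ?_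
  rw [Finset.sum_range_add]
  refine add_le_add ?_ ?_
  · calc ∑ r ∈ range (n ^ 2), Real.exp (κ * r / N) * f r
        ≤ ∑ r ∈ range (n ^ 2), Real.exp 1 * f r := by
          refine Finset.sum_le_sum fun r hr => ?_
          refine mul_le_mul_of_nonneg_right ?_ (hf r)
          apply Real.exp_le_exp.2
          rw [div_le_one hN0]
          have h2 : (r : ℝ) ≤ (n : ℝ) ^ 2 := by
            rw [Finset.mem_range] at hr
            exact_mod_cast hr.le
          have h3 : (0 : ℝ) ≤ r := Nat.cast_nonneg r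
          nlinarith
      _ ≤ _ := by
          rw [← Finset.mul_sum]
          exact mul_le_mul_of_nonneg_left hS (Real.exp_pos _).le
  · set x : ℝ := c / 2 / (n : ℝ) ^ 2 with hx
    have hx0 : 0 < x := by positivity
    set q : ℝ := Real.exp (-x) with hq
    have hq0 : 0 < q := Real.exp_pos _
    have h2 : q * (1 + x) ≤ 1 := by
      have h3 : 1 + x ≤ Real.exp x := by
        have := Real.add_one_le_exp x
        linarith
      calc q * (1 + x) ≤ q * Real.exp x := mul_le_mul_of_nonneg_left h3 hq0.le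
        _ = 1 := by rw [hq, ← Real.exp_add]; simp
    have hq1 : q < 1 := by nlinarith
    have h4 : ∀ k ∈ range M, Real.exp (κ * ((n ^ 2 + k : ℕ) : ℝ) / N) * f (n ^ 2 + k) ≤
        B * q ^ k := by
      intro k _
      have h5 := hl (n ^ 2 + k) (by omega)
      set R : ℝ := ((n ^ 2 + k : ℕ) : ℝ) with hR
      have hR0 : 0 ≤ R := Nat.cast_nonneg _
      have hRk : (k : ℝ) ≤ R := by rw [hR]; push_cast; nlinarith
      calc Real.exp (κ * R / N) * f (n ^ 2 + k)
          ≤ Real.exp (κ * R / N) * (B * Real.exp (-c * R / n ^ 2)) :=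
            mul_le_mul_of_nonneg_left h5 (Real.exp_pos _).le
        _ = B * Real.exp (κ * R / N + -c * R / n ^ 2) := by rw [Real.exp_add]; ring
        _ ≤ B * Real.exp (k * -x) := by
            refine mul_le_mul_of_nonneg_left (Real.exp_le_exp.2 ?_) hB
            have h6 : κ * R / N ≤ (c / 2) * R / (n : ℝ) ^ 2 := by
              refine div_le_div₀ (by positivity) ?_ hn2' hN
              exact mul_le_mul_of_nonneg_right hκc hR0
            have h7 : (k : ℝ) * x ≤ (c / 2) * R / (n : ℝ) ^ 2 := by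
              rw [hx, mul_div_assoc', mul_comm (k : ℝ)]
              refine div_le_div_of_nonneg_right ?_ hn2'.le
              exact mul_le_mul_of_nonneg_left hRk (by positivity)
            have h8 : -c * R / (n : ℝ) ^ 2 = -(2 * ((c / 2) * R / (n : ℝ) ^ 2)) := by ring
            rw [h8]
            linarith
        _ = B * q ^ k := by rw [hq, ← Real.exp_nat_mul]
    calc _ ≤ ∑ k ∈ range M, B * q ^ k := Finset.sum_le_sum h4
      _ = B * ∑ k ∈ range M, q ^ k := by rw [Finset.mul_sum]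
      _ ≤ _ := by
        refine mul_le_mul_of_nonneg_left ?_ hB
        have h5 : (1 - q) * ∑ k ∈ range M, q ^ k ≤ 1 := by
          rw [mul_neg_geom_sum]
          have := pow_nonneg hq0.le M
          linarith
        have h6 : x / (1 + x) ≤ 1 - q := by
          rw [div_le_iff₀ (by linarith)]
          nlinarith
        have h7 : 0 ≤ ∑ k ∈ range M, q ^ k := Finset.sum_nonneg fun k _ => pow_nonneg hq0.le k
        have h8 : x / (1 + x) * ∑ k ∈ range M, q ^ k ≤ 1 :=
          (mul_le_mul_of_nonneg_right h6 h7).trans h5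
        have h9 : ∑ k ∈ range M, q ^ k ≤ (1 + x) / x := by
          rw [le_div_iff₀ hx0]
          rw [div_mul_eq_mul_div, div_le_one (by linarith)] at h8
          linarith
        refine h9.trans ?_
        have h10 : (1 + x) / x = 1 + 2 / c * (n : ℝ) ^ 2 := by
          rw [hx]
          field_simp
          ring
        rw [h10]
        nlinarith

private theorem card_stp (d n : ℕ) [NeZero n] :
    ((univ.filter fun w : Tor d n => stp d n w ≠ 0).card : ℝ) ≤ 2 * d + 1 := by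
  classical
  have h1 : (univ.filter fun w : Tor d n => stp d n w ≠ 0) ⊆
      insert 0 ((univ.image fun i : Fin d => (Pi.single i 1 : Tor d n)) ∪
        (univ.image fun i : Fin d => (-Pi.single i 1 : Tor d n))) := by
    intro w hw
    rw [Finset.mem_filter] at hw
    by_contra hcon
    apply hw.2
    simp only [Finset.mem_insert, Finset.mem_union, Finset.mem_image, Finset.mem_univ, true_and,
      not_or, not_exists] at hcon
    unfold stp
    rw [if_neg hcon.1, zero_add]
    refine Finset.sum_eq_zero fun i _ => ?_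
    rw [if_neg (fun h => hcon.2.1 i h.symm), if_neg (fun h => hcon.2.2 i h.symm)]
    simp
  have h2 := Finset.card_le_card h1
  have h3 := Finset.card_insert_le (0 : Tor d n) ((univ.image fun i : Fin d =>
    (Pi.single i 1 : Tor d n)) ∪ (univ.image fun i : Fin d => (-Pi.single i 1 : Tor d n)))
  have h4 := Finset.card_union_le (univ.image fun i : Fin d => (Pi.single i 1 : Tor d n))
    (univ.image fun i : Fin d => (-Pi.single i 1 : Tor d n))
  have h5 := Finset.card_image_le (s := (univ : Finset (Fin d)))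
    (f := fun i : Fin d => (Pi.single i 1 : Tor d n))
  have h6 := Finset.card_image_le (s := (univ : Finset (Fin d)))
    (f := fun i : Fin d => (-Pi.single i 1 : Tor d n))
  rw [Finset.card_univ, Fintype.card_fin] at h5 h6
  have h7 : (univ.filter fun w : Tor d n => stp d n w ≠ 0).card ≤ 2 * d + 1 := by omega
  exact_mod_cast h7

theorem hkb_exists (d : ℕ) (hd : 3 ≤ d) : ∃ (C κ : ℝ) (n₀ : ℕ), ∀ n : ℕ, n₀ ≤ n →
    ∀ [NeZero n], HKB d n C κ := by
  have hd1 : 1 ≤ d := by omega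
  obtain ⟨C1, hC1, hdiag⟩ := hk_diag d hd
  obtain ⟨c2, C2, hc2, hC2, hlong⟩ := hk_long d hd
  obtain ⟨c3, C3, hc3, hC3, hgr⟩ := hk_long_grad d hd
  obtain ⟨c4, C4, hc4, hC4, hnv⟩ := nv_decay d hd
  obtain ⟨C5, hC5, hss⟩ := short_sum d hd
  obtain ⟨C6, hC6, hsg⟩ := short_grad d hd
  obtain ⟨κ, hκ0, hκ1, hκ2, hκ3, hκ4⟩ : ∃ κ : ℝ, 0 < κ ∧ κ ≤ 1 ∧ κ ≤ c2 / 2 ∧ κ ≤ c3 / 2 ∧
      κ ≤ c4 := by
    refine ⟨min (min 1 (c2 / 2)) (min (c3 / 2) c4), ?_, ?_, ?_, ?_, ?_⟩
    · exact lt_min (lt_min one_pos (by positivity)) (lt_min (by positivity) hc4)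
    · exact (min_le_left _ _).trans (min_le_left _ _)
    · exact (min_le_left _ _).trans (min_le_right _ _)
    · exact (min_le_right _ _).trans (min_le_left _ _)
    · exact (min_le_right _ _).trans (min_le_right _ _)
  set Kg : ℝ := Real.exp 1 * C6 + C3 * (1 + 2 / c3) with hKg
  set Kc : ℝ := Real.exp 1 * (C5 + 1) + C2 * (1 + 2 / c2) with hKc
  have he : 0 < Real.exp 1 := Real.exp_pos 1
  have hKg0 : 0 ≤ Kg := by positivity
  have hKc0 : 0 ≤ Kc := by positivity
  have hdR : (0 : ℝ) ≤ 2 * d + 1 := by positivity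
  have hKg1 : 0 ≤ (2 * (d : ℝ) + 1) * Kg := mul_nonneg hdR hKg0
  refine ⟨(2 * d + 1) * Kg + Kc + (C5 + 1 + C2) + C1 + C4, κ, 3, fun n hn _ => ?_⟩
  set C : ℝ := (2 * d + 1) * Kg + Kc + (C5 + 1 + C2) + C1 + C4 with hC
  have hn0 : (3 : ℝ) ≤ n := by exact_mod_cast hn
  have hn1 : (1 : ℝ) ≤ n := by linarith
  have hnpos : (0 : ℝ) < n := by linarith
  have hN : 0 < NN d n := NN_pos
  have hNd : NN d n = (n : ℝ) ^ 2 * (n : ℝ) ^ (d - 2) := by
    unfold NN
    rw [← pow_add]
    congr 1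
    omega
  have hNd1 : NN d n = (n : ℝ) * (n : ℝ) ^ (d - 1) := by
    unfold NN
    rw [← pow_succ']
    congr 1
    omega
  have hN2 : (n : ℝ) ^ 2 ≤ NN d n := by
    rw [hNd]
    have h1 : (1 : ℝ) ≤ (n : ℝ) ^ (d - 2) := one_le_pow₀ hn1
    have h2 : (0 : ℝ) ≤ (n : ℝ) ^ 2 := by positivity
    nlinarith
  have hrn : ∀ z : Tor d n, rho z ≤ n := by
    intro z
    unfold rho
    have h1 : (2 : ℝ) * nrm z ≤ n := by exact_mod_cast two_nrm_le z
    linarith
  have hr0 : ∀ z : Tor d n, 0 < rho z := rho_pos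
  have hr1 : ∀ z : Tor d n, 1 ≤ rho z := one_le_rho
  -- `n^2 / N ≤ 1 / rho^(d-2)`
  have hq2 : ∀ z : Tor d n, (n : ℝ) ^ 2 / NN d n ≤ 1 / rho z ^ (d - 2) := by
    intro z
    have h1 : rho z ^ (d - 2) ≤ (n : ℝ) ^ (d - 2) := pow_le_pow_left₀ (hr0 z).le (hrn z) _
    rw [hNd, div_mul_eq_div_div, div_self (by positivity)]
    exact one_div_le_one_div_of_le (pow_pos (hr0 z) _) h1
  have hq1 : ∀ z : Tor d n, (n : ℝ) / NN d n ≤ 1 / rho z ^ (d - 1) := by
    intro z
    have h1 : rho z ^ (d - 1) ≤ (n : ℝ) ^ (d - 1) := pow_le_pow_left₀ (hr0 z).le (hrn z) _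
    rw [hNd1, div_mul_eq_div_div, div_self hnpos.ne']
    exact one_div_le_one_div_of_le (pow_pos (hr0 z) _) h1
  have hq0 : ∀ z : Tor d n, 1 / NN d n ≤ 1 / rho z ^ (d - 2) := by
    intro z
    refine le_trans ?_ (hq2 z)
    refine div_le_div_of_nonneg_right ?_ hN.le
    nlinarith
  have hexp : ∀ (c : ℝ) (r : ℕ), 0 ≤ c → Real.exp (-c * r / (n : ℝ) ^ 2) ≤ 1 := by
    intro c r hc
    rw [Real.exp_le_one_iff, div_le_iff₀ (by positivity)]
    have : (0 : ℝ) ≤ r := Nat.cast_nonneg r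
    nlinarith
  have hdens : ∀ (r : ℕ) (z : Tor d n), n ^ 2 ≤ r → hk d n r z ≤ (1 + C2) / NN d n := by
    intro r z hr
    have h1 := (abs_le.1 (hlong n hn r z hr)).2
    have h2 : C2 / NN d n * Real.exp (-c2 * r / n ^ 2) ≤ C2 / NN d n * 1 :=
      mul_le_mul_of_nonneg_left (hexp c2 r hc2.le) (by positivity)
    have h3 : (1 + C2) / NN d n = (NN d n)⁻¹ + C2 / NN d n := by rw [add_div, one_div]
    rw [h3]
    linarith
  refine ⟨?_, hκ0, hκ1, hn, ?_, ?_, ?_, ?_, ?_, ?_, ?_⟩
  · rw [hC]; linarith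
  · -- green
    intro z
    rw [Finset.sum_range_succ]
    have h1 := hss n hn z
    have h2 := hdens (n ^ 2) z le_rfl
    have h3 : (1 + C2) / NN d n ≤ (1 + C2) * (1 / rho z ^ (d - 2)) := by
      rw [div_eq_mul_one_div]
      exact mul_le_mul_of_nonneg_left (hq0 z) (by linarith)
    have h4 : (0 : ℝ) ≤ 1 / rho z ^ (d - 2) := by
      have := hr0 z
      positivity
    rw [div_eq_mul_one_div] at h1 ⊢
    have h5 : (C5 + (1 + C2)) * (1 / rho z ^ (d - 2)) ≤ C * (1 / rho z ^ (d - 2)) :=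
      mul_le_mul_of_nonneg_right (by rw [hC]; linarith) h4
    linarith
  · -- grad
    intro z M
    have hρ : (0 : ℝ) ≤ 1 / rho z ^ (d - 1) := by
      have := hr0 z
      positivity
    have h1 : ∀ w : Tor d n, stp d n w ≠ 0 → ∑ r ∈ range M, Real.exp (κ * r / NN d n) *
        |hk d n r (z + w) - hk d n r z| ≤ Kg * (1 / rho z ^ (d - 1)) := by
      intro w hw
      have h2 := wsum n (by omega) (NN d n) κ c3 (C3 / (n * NN d n)) (C6 / rho z ^ (d - 1)) hN2
        hκ0.le hκ1 hc3 hκ3 (by positivity) (fun r => |hk d n r (z + w) - hk d n r z|)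
        (fun r => abs_nonneg _) (hsg n hn z w hw) (fun r hr => hgr n hn r z w hr hw) M
      refine h2.trans ?_
      have h3 : C3 / (n * NN d n) * ((1 + 2 / c3) * (n : ℝ) ^ 2) =
          C3 * (1 + 2 / c3) * (n / NN d n) := by
        field_simp
      have h4 : C3 * (1 + 2 / c3) * (n / NN d n) ≤ C3 * (1 + 2 / c3) * (1 / rho z ^ (d - 1)) :=
        mul_le_mul_of_nonneg_left (hq1 z) (by positivity)
      rw [h3, hKg, div_eq_mul_one_div C6]
      linarith
    have h2 : ∑ r ∈ range M, Real.exp (κ * r / NN d n) * gr r z =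
        ∑ w ∈ univ.filter (fun w : Tor d n => stp d n w ≠ 0),
          ∑ r ∈ range M, Real.exp (κ * r / NN d n) * |hk d n r (z + w) - hk d n r z| := by
      rw [Finset.sum_comm]
      apply Finset.sum_congr rfl
      intro r _
      unfold gr
      rw [← Finset.mul_sum, Finset.sum_filter]
      congr 1
      apply Finset.sum_congr rfl
      intro w _
      by_cases h : stp d n w = 0
      · rw [if_pos h, if_neg (not_not.2 h)]
      · rw [if_neg h, if_pos h]
    rw [h2]
    calc _ ≤ ∑ w ∈ univ.filter (fun w : Tor d n => stp d n w ≠ 0), Kg * (1 / rho z ^ (d - 1)) :=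
          Finset.sum_le_sum fun w hw => h1 w (Finset.mem_filter.1 hw).2
      _ = ((univ.filter fun w : Tor d n => stp d n w ≠ 0).card : ℝ) *
            (Kg * (1 / rho z ^ (d - 1))) := by rw [Finset.sum_const, nsmul_eq_mul]
      _ ≤ (2 * d + 1) * (Kg * (1 / rho z ^ (d - 1))) :=
          mul_le_mul_of_nonneg_right (card_stp d n) (mul_nonneg hKg0 hρ)
      _ = ((2 * d + 1) * Kg) * (1 / rho z ^ (d - 1)) := by ring
      _ ≤ C * (1 / rho z ^ (d - 1)) :=
          mul_le_mul_of_nonneg_right (by rw [hC]; linarith) hρ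
      _ = C / rho z ^ (d - 1) := by rw [mul_one_div]
  · -- cent
    intro z M
    have hρ : (0 : ℝ) ≤ 1 / rho z ^ (d - 2) := by
      have := hr0 z
      positivity
    have h0 : ∑ r ∈ range (n ^ 2), |hk d n r z - (NN d n)⁻¹| ≤
        (C5 + 1) * (1 / rho z ^ (d - 2)) := by
      have h1 : ∑ r ∈ range (n ^ 2), |hk d n r z - (NN d n)⁻¹| ≤
          ∑ r ∈ range (n ^ 2), (hk d n r z + (NN d n)⁻¹) := by
        refine Finset.sum_le_sum fun r _ => ?_
        have h2 := hk_nonneg (d := d) (n := n) r z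
        have h3 : 0 ≤ (NN d n)⁻¹ := by positivity
        rw [abs_le]
        constructor <;> linarith
      refine h1.trans ?_
      rw [Finset.sum_add_distrib, Finset.sum_const, Finset.card_range, nsmul_eq_mul]
      have h2 := hss n hn z
      have h3 := hq2 z
      rw [div_eq_mul_one_div] at h2
      rw [div_eq_mul_inv] at h3
      push_cast
      linarith
    have h2 := wsum n (by omega) (NN d n) κ c2 (C2 / NN d n) ((C5 + 1) * (1 / rho z ^ (d - 2))) hN2
        hκ0.le hκ1 hc2 hκ2 (by positivity) (fun r => |hk d n r z - (NN d n)⁻¹|)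
        (fun r => abs_nonneg _) h0 (fun r hr => hlong n hn r z hr) M
    refine h2.trans ?_
    have h3 : C2 / NN d n * ((1 + 2 / c2) * (n : ℝ) ^ 2) =
        C2 * (1 + 2 / c2) * ((n : ℝ) ^ 2 / NN d n) := by
      field_simp
    have h4 : C2 * (1 + 2 / c2) * ((n : ℝ) ^ 2 / NN d n) ≤
        C2 * (1 + 2 / c2) * (1 / rho z ^ (d - 2)) :=
      mul_le_mul_of_nonneg_left (hq2 z) (by positivity)
    have h5 : Kc * (1 / rho z ^ (d - 2)) ≤ C * (1 / rho z ^ (d - 2)) :=
      mul_le_mul_of_nonneg_right (by rw [hC]; linarith) hρ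
    rw [h3, div_eq_mul_one_div C]
    rw [hKc] at h5
    linarith
  · -- dens
    intro r z hr
    refine (hdens r z hr).trans ?_
    refine div_le_div_of_nonneg_right ?_ hN.le
    rw [hC]; linarith
  · -- diag
    intro r z hr
    refine (hdiag n hn r z hr).trans ?_
    refine mul_le_mul_of_nonneg_right ?_ (by positivity)
    rw [hC]; linarith
  · -- mix
    intro r z hr
    refine (hlong n hn r z hr).trans ?_
    refine mul_le_mul ?_ ?_ (Real.exp_pos _).le (by rw [hC]; positivity)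
    · refine div_le_div_of_nonneg_right ?_ hN.le
      rw [hC]; linarith
    · apply Real.exp_le_exp.2
      refine div_le_div_of_nonneg_right ?_ (by positivity)
      have : (0 : ℝ) ≤ r := Nat.cast_nonneg r
      nlinarith
  · -- decay
    intro k z
    refine (hnv n hn k z).trans ?_
    refine mul_le_mul ?_ ?_ (Real.exp_pos _).le (by rw [hC]; positivity)
    · rw [hC]; linarith
    · apply Real.exp_le_exp.2
      refine div_le_div_of_nonneg_right ?_ hN.le
      have : (0 : ℝ) ≤ k := Nat.cast_nonneg k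
      nlinarith

end CRW
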