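import Pool.Agent.Lib.CRW.TV3

/-!
# Module U7: the second walk and the coins as an environment

PROOF.  `E g = ER H (fun η => cavg (fun c => g (dat a H η c)))`.  `add, smul, mono, one`: linearity (`EP_add` etc., `cavg`: finite
sum; `card (Tor → Bool) = 2 ^ card`).  `shift`: `dat a H η c (y + x) = dat a H (η - x) (c (· + x)) y`: reindex the coins by the
translation (`Equiv.sum_comp`) and `ER_shift`.
`tv`: let `z` be given.  If `rho z ≤ 3` (`nrm z ≤ 2`): `|..| ≤ 2 ≤ 2 * 3^(d-2) / rho z^(d-2)`.  Otherwise the four sites `a 0, a 1, z + a 0, z + a 1` are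
different (`nrm (a j) ≤ 1`, `a 0 ≠ a 1`), so for every `G : (Fin 2 → Bool) → (Fin 2 → Bool) → ℝ`:
`cavg (fun c => G (c ∘ a) (c (z + a ·))) = 1/16 ∑ u, ∑ u', G u u'`, and `cavg (fun c => G (c ∘ a) ..)` for one pair is `1/4 ∑ u`.
So both expectations are `ER` expectations of `h' r r' = 1/16 ∑ u u', h (r, u) (r', u')`, `|h'| ≤ 1`: `tv`.
-/

open Finset

namespace CRW

variable {d : ℕ}

section
variable {n : ℕ} [NeZero n]

private theorem cavg_add (G G' : (Tor d n → Bool) → ℝ) :
    cavg (fun c => G c + G' c) = cavg G + cavg G' := by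
  unfold cavg
  rw [sum_add_distrib, mul_add]

private theorem cavg_smul (k : ℝ) (G : (Tor d n → Bool) → ℝ) :
    cavg (fun c => k * G c) = k * cavg G := by
  unfold cavg
  rw [← mul_sum]
  ring

private theorem cavg_mono {G G' : (Tor d n → Bool) → ℝ} (h : ∀ c, G c ≤ G' c) :
    cavg G ≤ cavg G' := by
  unfold cavg
  exact mul_le_mul_of_nonneg_left (sum_le_sum fun c _ => h c) (by positivity)

private theorem cavg_const (k : ℝ) : cavg (fun _ : Tor d n → Bool => k) = k := by
  have e : Fintype.card (Tor d n → Bool) = 2 ^ Fintype.card (Tor d n) :=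
    (Fintype.card_fun : Fintype.card (Tor d n → Bool) = _).trans (by rw [Fintype.card_bool])
  unfold cavg
  rw [sum_const, card_univ, nsmul_eq_mul, e, Nat.cast_pow,
    Nat.cast_ofNat, inv_mul_cancel_left₀ (by positivity)]

private theorem cavg_bij (e : (Tor d n → Bool) ≃ (Tor d n → Bool)) (G : (Tor d n → Bool) → ℝ) :
    cavg (fun c => G (e c)) = cavg G := by
  unfold cavg
  rw [Equiv.sum_comp e G]

private theorem cavg_sum {ι : Type} (s : Finset ι) (G : ι → (Tor d n → Bool) → ℝ) :
    cavg (fun c => ∑ i ∈ s, G i c) = ∑ i ∈ s, cavg (G i) := by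
  unfold cavg
  rw [sum_comm, mul_sum]

private theorem cavg_ER (H : ℕ) (G : (Tor d n → Bool) → (ℕ → Tor d n) → ℝ) :
    cavg (fun c => ER H fun η => G c η) = ER H fun η => cavg fun c => G c η := by
  unfold cavg ER
  have h1 := EP_smul (d := d) (n := n) H ((2 : ℝ) ^ Fintype.card (Tor d n))⁻¹
    (fun η (_ : Tor d n) => ∑ c, G c η)
  have h2 := EP_sum (d := d) (n := n) H (univ : Finset (Tor d n → Bool))
    (fun c η (_ : Tor d n) => G c η)
  simp only [smul_eq_mul] at h1
  rw [h1, h2]

/-- the average over the coins of a function of the coins at different sites -/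
private theorem cavg_marg {ι : Type} [Fintype ι] [DecidableEq ι] (p : ι → Tor d n)
    (hp : Function.Injective p) (F : (ι → Bool) → ℝ) :
    cavg (fun c => F fun i => c (p i)) = ((2 : ℝ) ^ Fintype.card ι)⁻¹ * ∑ u, F u := by
  have h1 : ∀ u : ι → Bool, cavg (fun c : Tor d n → Bool => F fun i => c (p i)) =
      cavg (fun c : Tor d n → Bool => F fun i => xor (c (p i)) (u i)) := by
    intro u
    let e : (Tor d n → Bool) ≃ (Tor d n → Bool) :=
      { toFun := fun c y => xor (c y) (Function.extend p u (fun _ => false) y)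
        invFun := fun c y => xor (c y) (Function.extend p u (fun _ => false) y)
        left_inv := fun c => by funext y; simp
        right_inv := fun c => by funext y; simp }
    rw [← cavg_bij e]
    congr 1
    funext c
    congr 1
    funext i
    change xor (c (p i)) (Function.extend p u (fun _ => false) (p i)) = _
    rw [hp.extend_apply]
  have h2 : ∀ c : Tor d n → Bool, ∑ u : ι → Bool, F (fun i => xor (c (p i)) (u i)) =
      ∑ u : ι → Bool, F u := by
    intro c
    let e : (ι → Bool) ≃ (ι → Bool) :=
      { toFun := fun u i => xor (c (p i)) (u i)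
        invFun := fun u i => xor (c (p i)) (u i)
        left_inv := fun u => by funext y; simp
        right_inv := fun u => by funext y; simp }
    exact Equiv.sum_comp e F
  have h3 : (2 : ℝ) ^ Fintype.card ι * cavg (fun c : Tor d n → Bool => F fun i => c (p i)) =
      ∑ u : ι → Bool, F u := by
    calc (2 : ℝ) ^ Fintype.card ι * cavg (fun c : Tor d n → Bool => F fun i => c (p i))
        = ∑ _u : ι → Bool, cavg (fun c : Tor d n → Bool => F fun i => c (p i)) := by
          rw [sum_const, card_univ, nsmul_eq_mul, Fintype.card_fun, Fintype.card_bool,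
            Nat.cast_pow, Nat.cast_ofNat]
      _ = ∑ u : ι → Bool, cavg (fun c : Tor d n → Bool => F fun i => xor (c (p i)) (u i)) :=
          sum_congr rfl fun u _ => h1 u
      _ = cavg (fun c : Tor d n → Bool => ∑ u : ι → Bool, F fun i => xor (c (p i)) (u i)) :=
          (cavg_sum _ _).symm
      _ = cavg (fun _ : Tor d n → Bool => ∑ u : ι → Bool, F u) := by
          congr 1
          funext c
          exact h2 c
      _ = ∑ u : ι → Bool, F u := cavg_const _
  rw [← h3, inv_mul_cancel_left₀ (by positivity)]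

/-- the function of the records after averaging over the coins -/
private noncomputable def hav (h : (Rec × (Fin 2 → Bool)) → (Rec × (Fin 2 → Bool)) → ℝ)
    (r r' : Rec) : ℝ :=
  ((2 : ℝ) ^ Fintype.card (Fin 2 ⊕ Fin 2))⁻¹ * ∑ u : Fin 2 ⊕ Fin 2 → Bool,
    h (r, fun j => u (Sum.inl j)) (r', fun j => u (Sum.inr j))

private theorem hav_le (h : (Rec × (Fin 2 → Bool)) → (Rec × (Fin 2 → Bool)) → ℝ)
    (hh : ∀ u v, |h u v| ≤ 1) (r r' : Rec) : |hav h r r'| ≤ 1 := by
  unfold hav
  rw [abs_mul, abs_of_nonneg (by positivity)]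
  have h1 : |∑ u : Fin 2 ⊕ Fin 2 → Bool,
      h (r, fun j => u (Sum.inl j)) (r', fun j => u (Sum.inr j))| ≤
      (2 : ℝ) ^ Fintype.card (Fin 2 ⊕ Fin 2) := by
    refine (abs_sum_le_sum_abs _ _).trans ((sum_le_sum fun u _ => hh _ _).trans ?_)
    rw [sum_const, card_univ, nsmul_eq_mul, mul_one, Fintype.card_fun, Fintype.card_bool,
      Nat.cast_pow, Nat.cast_ofNat]
  calc ((2 : ℝ) ^ Fintype.card (Fin 2 ⊕ Fin 2))⁻¹ * _
      ≤ ((2 : ℝ) ^ Fintype.card (Fin 2 ⊕ Fin 2))⁻¹ * (2 : ℝ) ^ Fintype.card (Fin 2 ⊕ Fin 2) :=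
        mul_le_mul_of_nonneg_left h1 (by positivity)
    _ = 1 := inv_mul_cancel₀ (by positivity)

/-- the coins at the two pairs are independent -/
private theorem cavg_two (a : Fin 2 → Tor d n) (ha1 : ∀ j, nrm (a j) ≤ 1) (ha : a 0 ≠ a 1)
    (z : Tor d n) (hz : 2 < nrm z)
    (h : (Rec × (Fin 2 → Bool)) → (Rec × (Fin 2 → Bool)) → ℝ) (r r' : Rec) :
    cavg (fun c : Tor d n → Bool => h (r, fun j => c (0 + a j)) (r', fun j => c (z + a j))) =
      hav h r r' := by
  have hinj : Function.Injective a := by
    intro i j hij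
    fin_cases i <;> fin_cases j
    · rfl
    · exact absurd hij ha
    · exact absurd hij.symm ha
    · rfl
  have hne : ∀ i j, a i ≠ z + a j := by
    intro i j hij
    have h1 : z = a i + -a j := by rw [hij]; abel
    have h2 := nrm_add_le (a i) (-a j)
    rw [← h1, nrm_neg] at h2
    have := ha1 i
    have := ha1 j
    omega
  have hp : Function.Injective (Sum.elim (fun j => 0 + a j) (fun j => z + a j) :
      Fin 2 ⊕ Fin 2 → Tor d n) := by
    rintro (i | i) (j | j) hij
    · simp only [Sum.elim_inl, zero_add] at hij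
      rw [hinj hij]
    · simp only [Sum.elim_inl, Sum.elim_inr, zero_add] at hij
      exact absurd hij (hne i j)
    · simp only [Sum.elim_inl, Sum.elim_inr, zero_add] at hij
      exact absurd hij.symm (hne j i)
    · simp only [Sum.elim_inr] at hij
      rw [hinj (add_left_cancel hij)]
  exact cavg_marg _ hp (fun u => h (r, fun j => u (Sum.inl j)) (r', fun j => u (Sum.inr j)))

/-- independent coins -/
private theorem cavg_prod (a : Fin 2 → Tor d n) (ha : a 0 ≠ a 1)
    (h : (Rec × (Fin 2 → Bool)) → (Rec × (Fin 2 → Bool)) → ℝ) (r r' : Rec) :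
    cavg (fun c : Tor d n → Bool => cavg (fun c' : Tor d n → Bool =>
      h (r, fun j => c (0 + a j)) (r', fun j => c' (0 + a j)))) = hav h r r' := by
  have hp : Function.Injective (fun j => 0 + a j : Fin 2 → Tor d n) := by
    intro i j hij
    simp only [zero_add] at hij
    fin_cases i <;> fin_cases j
    · rfl
    · exact absurd hij ha
    · exact absurd hij.symm ha
    · rfl
  have h1 : ∀ v : Fin 2 → Bool, cavg (fun c' : Tor d n → Bool =>
      h (r, v) (r', fun j => c' (0 + a j))) =
      ((2 : ℝ) ^ Fintype.card (Fin 2))⁻¹ * ∑ u : Fin 2 → Bool, h (r, v) (r', u) :=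
    fun v => cavg_marg _ hp (fun u => h (r, v) (r', u))
  simp only [h1]
  rw [cavg_marg _ hp (fun v => ((2 : ℝ) ^ Fintype.card (Fin 2))⁻¹ *
    ∑ u : Fin 2 → Bool, h (r, v) (r', u))]
  unfold hav
  rw [← mul_sum, ← mul_assoc]
  congr 1
  · rw [Fintype.card_sum, pow_add, mul_inv]
  · rw [← Fintype.sum_prod_type']
    rw [← Equiv.sum_comp (Equiv.sumArrowEquivProdArrow (Fin 2) (Fin 2) Bool)]
    rfl

end

theorem exists_env (hd : 3 ≤ d) (C κ : ℝ) : ∃ C2 : ℝ, 1 ≤ C2 ∧ ∀ (n : ℕ) [NeZero n],
    HKB d n C κ → ∀ (a : Fin 2 → Tor d n), (∀ j, nrm (a j) ≤ 1) → a 0 ≠ a 1 → ∀ H : ℕ,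
      ∃ env : Env d n (Rec × (Fin 2 → Bool)) C2, ∀ g,
        env.E g = ER H fun η => cavg fun c => g (dat a H η c) := by
  obtain ⟨C', hC', htv⟩ := tv hd C κ
  have hd1 : 1 ≤ d := by omega
  refine ⟨max C' (2 * 3 ^ (d - 2)), hC'.trans (le_max_left _ _), ?_⟩
  intro n _ hb a ha1 ha H
  have hmono : ∀ g h : (Tor d n → Rec × (Fin 2 → Bool)) → ℝ, (∀ w, g w ≤ h w) →
      (ER H fun η => cavg fun c => g (dat a H η c)) ≤
        ER H fun η => cavg fun c => h (dat a H η c) := fun g h hgh =>
    EP_mono _ _ _ fun η _ => cavg_mono fun c => hgh _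
  have hone : ∀ k : ℝ, (ER H fun η : ℕ → Tor d n => cavg fun _ : Tor d n → Bool => k) = k := by
    intro k
    simp only [cavg_const]
    exact EP_const hd1 H k
  refine ⟨{ E := fun g => ER H fun η => cavg fun c => g (dat a H η c)
            add := ?_, smul := ?_, mono := hmono, one := hone 1, shift := ?_, tv := ?_ },
    fun g => rfl⟩
  · intro g h
    simp only [cavg_add]
    exact EP_add _ _ _
  · intro c g
    simp only [cavg_smul]
    have h1 := EP_smul (d := d) (n := n) H c
      (fun η (_ : Tor d n) => cavg fun c => g (dat a H η c))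
    simp only [smul_eq_mul] at h1
    exact h1
  · intro x g
    have h1 : ∀ (η : ℕ → Tor d n) (c : Tor d n → Bool),
        (fun y => dat a H η c (y + x)) =
          dat a H (fun s => η s + -x) (fun u => c (u + x)) := by
      intro η c
      funext y
      unfold dat
      refine Prod.ext ?_ ?_
      · have h2 := lrec_shift a (fun s => η s + -x) y x H
        simp only [neg_add_cancel_right] at h2
        exact h2
      · funext j
        change c (y + x + a j) = c (y + a j + x)
        congr 1
        abel
    simp only [h1]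
    have h3 : ∀ η : ℕ → Tor d n,
        (cavg fun c => g (dat a H (fun s => η s + -x) fun u => c (u + x))) =
          cavg fun c => g (dat a H (fun s => η s + -x) c) := by
      intro η
      let e : (Tor d n → Bool) ≃ (Tor d n → Bool) :=
        { toFun := fun c u => c (u + x)
          invFun := fun c u => c (u - x)
          left_inv := fun c => by funext u; simp
          right_inv := fun c => by funext u; simp }
      exact cavg_bij e (fun c => g (dat a H (fun s => η s + -x) c))
    simp only [h3]
    refine ER_shift H (fun η => cavg fun c => g (dat a H η c)) ?_ (-x)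
    intro η η' b hηη'
    change (cavg fun c => g (dat a H η c)) = cavg fun c => g (dat a H η' c)
    congr 1
    funext c
    congr 1
    funext y
    unfold dat
    rw [lrec_congr a y H hηη']
  · intro z h hh
    have hrho : 0 < rho z ^ (d - 2) := pow_pos (rho_pos z) _
    by_cases hz : nrm z ≤ 2
    · have hr3 : rho z ≤ 3 := by
        unfold rho
        have : (nrm z : ℝ) ≤ 2 := by exact_mod_cast hz
        linarith
      have h1 : ∀ g : (Tor d n → Rec × (Fin 2 → Bool)) → ℝ, (∀ w, |g w| ≤ 1) →
          |ER H fun η => cavg fun c => g (dat a H η c)| ≤ 1 := by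
        intro g hg
        rw [abs_le]
        constructor
        · rw [← hone (-1)]
          exact hmono (fun _ => -1) g fun w => (abs_le.mp (hg w)).1
        · rw [← hone 1]
          exact hmono g (fun _ => 1) fun w => (abs_le.mp (hg w)).2
      have h2 : (2 : ℝ) ≤ max C' (2 * 3 ^ (d - 2)) / rho z ^ (d - 2) := by
        rw [le_div_iff₀ hrho]
        refine le_trans ?_ (le_max_right _ _)
        exact mul_le_mul_of_nonneg_left (pow_le_pow_left₀ (rho_pos z).le hr3 _) (by norm_num)
      refine le_trans ?_ h2
      refine (abs_sub _ _).trans ?_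
      have h3 := h1 (fun w => h (w 0) (w z)) fun w => hh _ _
      have h4 := h1 (fun w => ER H fun η => cavg fun c => h (w 0) (dat a H η c 0))
        fun w => h1 (fun w' => h (w 0) (w' 0)) fun w' => hh _ _
      linarith
    · push Not at hz
      have h1 : (ER H fun η => cavg fun c => h (dat a H η c 0) (dat a H η c z)) =
          ER H fun η => hav h (lrec a η 0 H) (lrec a η z H) := by
        congr 1
        funext η
        exact cavg_two a ha1 ha z hz h _ _
      have h2 : (ER H fun η => cavg fun c => ER H fun η' => cavg fun c' =>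
          h (dat a H η c 0) (dat a H η' c' 0)) =
          ER H fun η : ℕ → Tor d n => ER H fun η' : ℕ → Tor d n =>
            hav h (lrec a η 0 H) (lrec a η' 0 H) := by
        congr 1
        funext η
        rw [cavg_ER]
        congr 1
        funext η'
        exact cavg_prod a ha h _ _
      change |(ER H fun η => cavg fun c => h (dat a H η c 0) (dat a H η c z)) -
        ER H fun η => cavg fun c => ER H fun η' => cavg fun c' =>
          h (dat a H η c 0) (dat a H η' c' 0)| ≤ _
      rw [h1, h2]
      refine (htv n hb a (hav h) ha1 ha (hav_le h hh) z H).trans ?_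
      exact div_le_div_of_nonneg_right (le_max_left _ _) hrho.le

end CRW
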