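import Pool.Agent.Lib.CRW.U6
import Pool.Agent.Lib.CRW.U7

/-!
# Module U8: THEOREM U2, the upper bound for the variance

PROOF.  Let `F η η' c = ∑ x, f (lrec a η x H) (lrec a η' x H) (c at x + a)`, `E1, E2', E3` the three expectations.
`V2 = [E F² - E2'E3 (E1 F)²] + [E2'E3 (E1 F)² - E3 (E1E2' F)²] + [E3 (E1E2'F)² - (E F)²]`.
First bracket: `E2'E3 VR(F(·,η',c)) ≤ C' N S4`: `one_walk_variance` with `exists_env` (the second walk and the coins are the
environment, `φ (r', u) r = f r r' u`), after `ER_comm`.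
Second: `E3 Var_2 (E1 F) ≤ E3 E1 Var_2 F` (convexity of the variance), `one_walk_variance` with the roles of
the walks exchanged.
Third: `Var_3 (E1E2' F) ≤ E1E2' Var_3 F`; the covariance of the terms `x`, `x'` w.r.t. the coins vanishes unless
`x' - x ∈ {0, ±(a 0 - a 1)}`, and each covariance is at most `2`: `≤ 6 N ≤ 6 N S4`.
-/

open Finset

namespace CRW

variable {d : ℕ}

/-- a positive linear functional of mass one -/
private structure Sta {Ω : Type} (L : (Ω → ℝ) → ℝ) : Prop where
  add : ∀ g h, L (fun x => g x + h x) = L g + L h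
  smul : ∀ (c : ℝ) g, L (fun x => c * g x) = c * L g
  mono : ∀ g h, (∀ x, g x ≤ h x) → L g ≤ L h
  one : L (fun _ => 1) = 1

private theorem Sta.const {Ω : Type} {L : (Ω → ℝ) → ℝ} (h : Sta L) (c : ℝ) :
    L (fun _ => c) = c := by
  have := h.smul c (fun _ => 1)
  simpa [h.one] using this

private theorem Sta.sub {Ω : Type} {L : (Ω → ℝ) → ℝ} (h : Sta L) (g k : Ω → ℝ) :
    L (fun x => g x - k x) = L g - L k := by
  have h1 := h.add (fun x => g x - k x) k
  have h2 : (fun x => g x - k x + k x) = g := by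
    funext x
    ring
  rw [h2] at h1
  linarith

/-- the expectation of the square of a deviation -/
private theorem Sta.dev {Ω : Type} {L : (Ω → ℝ) → ℝ} (h : Sta L) (g : Ω → ℝ) :
    L (fun x => (g x - L g) ^ 2) = L (fun x => g x ^ 2) - L g ^ 2 := by
  have e : (fun x => (g x - L g) ^ 2) =
      fun x => (g x ^ 2 - (2 * L g) * g x) + (L g) ^ 2 := by
    funext x
    ring
  rw [e, h.add, h.sub, h.smul, h.const]
  ring

private theorem Sta.sq {Ω : Type} {L : (Ω → ℝ) → ℝ} (h : Sta L) (g : Ω → ℝ) :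
    L g ^ 2 ≤ L (fun x => g x ^ 2) := by
  have h1 := h.mono (fun _ => 0) (fun x => (g x - L g) ^ 2) (fun x => sq_nonneg _)
  rw [h.const, h.dev] at h1
  linarith

/-- convexity of the variance -/
private theorem var_conv {Ω₁ Ω₂ : Type} {L₁ : (Ω₁ → ℝ) → ℝ} {L₂ : (Ω₂ → ℝ) → ℝ} (h₁ : Sta L₁)
    (h₂ : Sta L₂) (hc : ∀ G : Ω₁ → Ω₂ → ℝ, L₁ (fun x => L₂ fun y => G x y) =
      L₂ fun y => L₁ fun x => G x y) (G : Ω₁ → Ω₂ → ℝ) :
    L₂ (fun y => (L₁ fun x => G x y) ^ 2) - (L₂ fun y => L₁ fun x => G x y) ^ 2 ≤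
      L₁ fun x => L₂ (fun y => G x y ^ 2) - (L₂ fun y => G x y) ^ 2 := by
  have h3 : L₂ (fun y => (L₁ fun x => G x y - L₂ (G x)) ^ 2) ≤
      L₂ (fun y => L₁ fun x => (G x y - L₂ (G x)) ^ 2) :=
    h₂.mono _ _ fun y => h₁.sq _
  have h4 : (fun y => (L₁ fun x => G x y - L₂ (G x)) ^ 2) =
      fun y => ((fun y => L₁ fun x => G x y) y - L₂ (fun y => L₁ fun x => G x y)) ^ 2 := by
    funext y
    rw [h₁.sub (fun x => G x y) (fun x => L₂ (G x))]
    have := hc G
    rw [show (fun x => L₂ (G x)) = fun x => L₂ fun y => G x y from rfl, this]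
  rw [h4, h₂.dev, ← hc G, ← hc fun x y => (G x y - L₂ (G x)) ^ 2] at h3
  have h5 : (fun x => L₂ fun y => (G x y - L₂ (G x)) ^ 2) =
      fun x => L₂ (fun y => G x y ^ 2) - (L₂ fun y => G x y) ^ 2 := by
    funext x
    exact h₂.dev (G x)
  rw [h5, hc G] at h3
  exact h3

/-- tensorisation of the variance -/
private theorem tens {Ω₁ Ω₂ Ω₃ : Type} {L₁ : (Ω₁ → ℝ) → ℝ} {L₂ : (Ω₂ → ℝ) → ℝ}
    {L₃ : (Ω₃ → ℝ) → ℝ} (h₁ : Sta L₁) (h₂ : Sta L₂) (h₃ : Sta L₃)
    (c12 : ∀ G : Ω₁ → Ω₂ → ℝ, L₁ (fun x => L₂ fun y => G x y) = L₂ fun y => L₁ fun x => G x y)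
    (c13 : ∀ G : Ω₁ → Ω₃ → ℝ, L₁ (fun x => L₃ fun y => G x y) = L₃ fun y => L₁ fun x => G x y)
    (c23 : ∀ G : Ω₂ → Ω₃ → ℝ, L₂ (fun x => L₃ fun y => G x y) = L₃ fun y => L₂ fun x => G x y)
    (G : Ω₁ → Ω₂ → Ω₃ → ℝ) (B1 B2 B3 : ℝ)
    (H1 : (L₂ fun y => L₃ fun z => L₁ (fun x => G x y z ^ 2) - (L₁ fun x => G x y z) ^ 2) ≤ B1)
    (H2 : (L₁ fun x => L₃ fun z => L₂ (fun y => G x y z ^ 2) - (L₂ fun y => G x y z) ^ 2) ≤ B2)
    (H3 : ∀ x y, L₃ (fun z => G x y z ^ 2) - (L₃ fun z => G x y z) ^ 2 ≤ B3) :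
    (L₁ fun x => L₂ fun y => L₃ fun z => G x y z ^ 2) -
      (L₁ fun x => L₂ fun y => L₃ fun z => G x y z) ^ 2 ≤ B1 + B2 + B3 := by
  -- first bracket
  have a1 : (L₁ fun x => L₂ fun y => L₃ fun z => G x y z ^ 2) =
      L₂ fun y => L₃ fun z => L₁ fun x => G x y z ^ 2 := by
    rw [c12]
    congr 1
    funext y
    exact c13 fun x z => G x y z ^ 2
  have a2 : (L₂ fun y => L₃ fun z => L₁ (fun x => G x y z ^ 2) - (L₁ fun x => G x y z) ^ 2) =
      (L₂ fun y => L₃ fun z => L₁ fun x => G x y z ^ 2) -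
        L₂ fun y => L₃ fun z => (L₁ fun x => G x y z) ^ 2 := by
    rw [← h₂.sub]
    congr 1
    funext y
    exact h₃.sub _ _
  rw [a2] at H1
  -- second bracket
  have b1 : (L₂ fun y => L₃ fun z => (L₁ fun x => G x y z) ^ 2) =
      L₃ fun z => L₂ fun y => (L₁ fun x => G x y z) ^ 2 := c23 fun y z => (L₁ fun x => G x y z) ^ 2
  have b2 : L₃ (fun z => L₂ (fun y => (L₁ fun x => G x y z) ^ 2) -
      (L₂ fun y => L₁ fun x => G x y z) ^ 2) ≤
        L₃ fun z => L₁ fun x => L₂ (fun y => G x y z ^ 2) - (L₂ fun y => G x y z) ^ 2 :=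
    h₃.mono _ _ fun z => var_conv h₁ h₂ c12 fun x y => G x y z
  rw [h₃.sub (fun z => L₂ (fun y => (L₁ fun x => G x y z) ^ 2))
    (fun z => (L₂ fun y => L₁ fun x => G x y z) ^ 2),
    ← c13 (fun x z => L₂ (fun y => G x y z ^ 2) - (L₂ fun y => G x y z) ^ 2)] at b2
  -- third bracket
  have hp : Sta (fun g : Ω₁ × Ω₂ → ℝ => L₁ fun x => L₂ fun y => g (x, y)) := by
    refine ⟨fun g h => ?_, fun c g => ?_, fun g h hh => ?_, ?_⟩
    · show (L₁ fun x => L₂ fun y => g (x, y) + h (x, y)) = _
      rw [← h₁.add]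
      congr 1
      funext x
      exact h₂.add _ _
    · show (L₁ fun x => L₂ fun y => c * g (x, y)) = _
      rw [← h₁.smul]
      congr 1
      funext x
      exact h₂.smul _ _
    · exact h₁.mono _ _ fun x => h₂.mono _ _ fun y => hh _
    · show (L₁ fun _ => L₂ fun _ => (1 : ℝ)) = 1
      rw [h₂.one, h₁.one]
  have hcc : ∀ K : Ω₁ × Ω₂ → Ω₃ → ℝ, (fun g : Ω₁ × Ω₂ → ℝ => L₁ fun x => L₂ fun y => g (x, y))
      (fun p => L₃ fun z => K p z) =
      L₃ fun z => (fun g : Ω₁ × Ω₂ → ℝ => L₁ fun x => L₂ fun y => g (x, y)) fun p => K p z := by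
    intro K
    show (L₁ fun x => L₂ fun y => L₃ fun z => K (x, y) z) =
      L₃ fun z => L₁ fun x => L₂ fun y => K (x, y) z
    rw [← c13 fun x z => L₂ fun y => K (x, y) z]
    congr 1
    funext x
    exact c23 fun y z => K (x, y) z
  have d1 := var_conv hp h₃ hcc fun p z => G p.1 p.2 z
  have d2 : (L₁ fun x => L₂ fun y => L₃ (fun z => G x y z ^ 2) - (L₃ fun z => G x y z) ^ 2) ≤
      B3 := by
    have := hp.mono (fun p => L₃ (fun z => G p.1 p.2 z ^ 2) - (L₃ fun z => G p.1 p.2 z) ^ 2)
      (fun _ => B3) (fun p => H3 p.1 p.2)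
    rw [hp.const B3] at this
    exact this
  have d3 : L₃ (fun z => (L₁ fun x => L₂ fun y => G x y z) ^ 2) -
      (L₃ fun z => L₁ fun x => L₂ fun y => G x y z) ^ 2 ≤ B3 := le_trans d1 d2
  have d4 : (fun z => (L₂ fun y => L₁ fun x => G x y z) ^ 2) =
      fun z => (L₁ fun x => L₂ fun y => G x y z) ^ 2 := by
    funext z
    rw [c12 fun x y => G x y z]
  have d5 : (L₁ fun x => L₂ fun y => L₃ fun z => G x y z) =
      L₃ fun z => L₁ fun x => L₂ fun y => G x y z := hcc fun p z => G p.1 p.2 z
  rw [d4] at b2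
  rw [a1, d5]
  rw [b1] at H1
  linarith

section
variable {n : ℕ} [NeZero n]

private theorem cardB : (0 : ℝ) < (2 : ℝ) ^ Fintype.card (Tor d n) := by positivity

private theorem card_eq : ((Fintype.card (Tor d n → Bool) : ℕ) : ℝ) =
    (2 : ℝ) ^ Fintype.card (Tor d n) := by
  rw [Fintype.card_fun, Fintype.card_bool]
  push_cast
  rfl

private theorem sta_cavg : Sta (cavg (d := d) (n := n)) := by
  refine ⟨fun g h => ?_, fun c g => ?_, fun g h hh => ?_, ?_⟩
  · unfold cavg
    rw [Finset.sum_add_distrib, mul_add]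
  · unfold cavg
    rw [← Finset.mul_sum]
    ring
  · unfold cavg
    exact mul_le_mul_of_nonneg_left (Finset.sum_le_sum fun c _ => hh c)
      (inv_nonneg.2 (le_of_lt cardB))
  · unfold cavg
    rw [Finset.sum_const, Finset.card_univ, nsmul_eq_mul, card_eq, mul_one]
    exact inv_mul_cancel₀ (ne_of_gt cardB)

private theorem sta_ER (hd : 3 ≤ d) (H : ℕ) :
    Sta (fun F : (ℕ → Tor d n) → ℝ => ER H F) := by
  refine ⟨fun g h => ?_, fun c g => ?_, fun g h hh => ?_, ?_⟩
  · exact EP_add H _ _
  · exact EP_smul H c _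
  · exact EP_mono H _ _ fun η _ => hh η
  · exact EP_const (by omega) H 1

private theorem ER_cavg (H : ℕ) (G : (ℕ → Tor d n) → (Tor d n → Bool) → ℝ) :
    ER H (fun η => cavg fun c => G η c) = cavg fun c => ER H fun η => G η c := by
  unfold cavg ER
  have h1 := EP_smul H ((2 : ℝ) ^ Fintype.card (Tor d n))⁻¹
    (fun (η : ℕ → Tor d n) (_ : Tor d n) => ∑ c, G η c)
  have h2 := EP_sum H (univ : Finset (Tor d n → Bool))
    (fun c (η : ℕ → Tor d n) (_ : Tor d n) => G η c)
  rw [h2] at h1
  simpa [smul_eq_mul] using h1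

/-- functions of disjoint sets of coins are independent -/
private theorem cavg_mul (S : Finset (Tor d n)) (F G : (Tor d n → Bool) → ℝ)
    (hF : ∀ c c', (∀ y ∈ S, c y = c' y) → F c = F c')
    (hG : ∀ c c', (∀ y, y ∉ S → c y = c' y) → G c = G c') :
    cavg (fun c => F c * G c) = cavg F * cavg G := by
  classical
  have hinv : Function.Involutive (fun p : (Tor d n → Bool) × (Tor d n → Bool) =>
      ((fun y => if y ∈ S then p.1 y else p.2 y), fun y => if y ∈ S then p.2 y else p.1 y)) := by
    rintro ⟨c, c'⟩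
    simp only [Prod.mk.injEq]
    constructor
    · funext y
      by_cases hy : y ∈ S <;> simp [hy]
    · funext y
      by_cases hy : y ∈ S <;> simp [hy]
  have h1 : ∑ p : (Tor d n → Bool) × (Tor d n → Bool), F p.1 * G p.2 =
      ∑ p : (Tor d n → Bool) × (Tor d n → Bool), F p.1 * G p.1 := by
    refine Fintype.sum_equiv hinv.toPerm _ _ ?_
    rintro ⟨c, c'⟩
    show F c * G c' = F (fun y => if y ∈ S then c y else c' y) *
      G (fun y => if y ∈ S then c y else c' y)
    rw [hF c (fun y => if y ∈ S then c y else c' y) (fun y hy => by simp [hy]),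
      hG c' (fun y => if y ∈ S then c y else c' y) (fun y hy => by simp [hy])]
  rw [Fintype.sum_prod_type, Fintype.sum_prod_type] at h1
  simp only [Finset.sum_const, Finset.card_univ, nsmul_eq_mul, card_eq] at h1
  rw [← Finset.mul_sum] at h1
  have h2 : (∑ c, F c) * (∑ c, G c) = (2 : ℝ) ^ Fintype.card (Tor d n) * ∑ c, F c * G c := by
    rw [← h1, Finset.sum_mul]
    exact Finset.sum_congr rfl fun c _ => by rw [Finset.mul_sum]
  unfold cavg
  have h3 := cardB (d := d) (n := n)
  field_simp
  linarith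

/-- the variance with respect to the coins -/
private theorem coin_var (a : Fin 2 → Tor d n) (g : Tor d n → (Fin 2 → Bool) → ℝ)
    (hg : ∀ x u, |g x u| ≤ 1) :
    cavg (fun c => (∑ x, g x fun j => c (x + a j)) ^ 2) -
      (cavg fun c => ∑ x, g x fun j => c (x + a j)) ^ 2 ≤ 6 * NN d n := by
  classical
  have hS := sta_cavg (d := d) (n := n)
  -- linearity
  have hsum : ∀ (s : Finset (Tor d n)) (X : Tor d n → (Tor d n → Bool) → ℝ),
      cavg (fun c => ∑ x ∈ s, X x c) = ∑ x ∈ s, cavg (X x) := by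
    intro s X
    unfold cavg
    rw [Finset.sum_comm, Finset.mul_sum]
  have e1 : cavg (fun c => (∑ x, g x fun j => c (x + a j)) ^ 2) =
      ∑ x, ∑ x', cavg fun c => (g x fun j => c (x + a j)) * (g x' fun j => c (x' + a j)) := by
    have : (fun c : Tor d n → Bool => (∑ x, g x fun j => c (x + a j)) ^ 2) =
        fun c => ∑ x, ∑ x', (g x fun j => c (x + a j)) * (g x' fun j => c (x' + a j)) := by
      funext c
      rw [sq, Finset.sum_mul_sum]
    rw [this, hsum]
    exact Finset.sum_congr rfl fun x _ => hsum _ _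
  have e2 : (cavg fun c => ∑ x, g x fun j => c (x + a j)) ^ 2 =
      ∑ x, ∑ x', (cavg fun c => g x fun j => c (x + a j)) *
        (cavg fun c => g x' fun j => c (x' + a j)) := by
    rw [hsum, sq, Finset.sum_mul_sum]
  rw [e1, e2, ← Finset.sum_sub_distrib]
  have hterm : ∀ x x' : Tor d n,
      (cavg fun c => (g x fun j => c (x + a j)) * (g x' fun j => c (x' + a j))) -
        (cavg fun c => g x fun j => c (x + a j)) * (cavg fun c => g x' fun j => c (x' + a j)) ≤
      (if x' = x then 2 else 0) + (if x' = x + (a 0 - a 1) then 2 else 0) +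
        (if x' = x + (a 1 - a 0) then 2 else 0) := by
    intro x x'
    by_cases hx : x' = x ∨ x' = x + (a 0 - a 1) ∨ x' = x + (a 1 - a 0)
    · have hr : (2 : ℝ) ≤ (if x' = x then 2 else 0) + (if x' = x + (a 0 - a 1) then 2 else 0) +
          (if x' = x + (a 1 - a 0) then 2 else 0) := by
        have p1 : (0 : ℝ) ≤ if x' = x then 2 else 0 := by split_ifs <;> norm_num
        have p2 : (0 : ℝ) ≤ if x' = x + (a 0 - a 1) then 2 else 0 := by split_ifs <;> norm_num
        have p3 : (0 : ℝ) ≤ if x' = x + (a 1 - a 0) then 2 else 0 := by split_ifs <;> norm_num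
        rcases hx with h | h | h
        · rw [if_pos h] at *
          linarith
        · have : (if x' = x + (a 0 - a 1) then (2 : ℝ) else 0) = 2 := if_pos h
          linarith
        · have : (if x' = x + (a 1 - a 0) then (2 : ℝ) else 0) = 2 := if_pos h
          linarith
      refine le_trans ?_ hr
      have q1 : (cavg fun c => (g x fun j => c (x + a j)) * (g x' fun j => c (x' + a j))) ≤ 1 := by
        have := hS.mono (fun c => (g x fun j => c (x + a j)) * (g x' fun j => c (x' + a j)))
          (fun _ => 1) (fun c => by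
            have h1 := hg x fun j => c (x + a j)
            have h2 := hg x' fun j => c (x' + a j)
            calc (g x fun j => c (x + a j)) * (g x' fun j => c (x' + a j))
                ≤ |(g x fun j => c (x + a j)) * (g x' fun j => c (x' + a j))| := le_abs_self _
              _ = |(g x fun j => c (x + a j))| * |(g x' fun j => c (x' + a j))| := abs_mul _ _
              _ ≤ 1 := mul_le_one₀ h1 (abs_nonneg _) h2)
        rwa [hS.const] at this
      have q2 : ∀ x : Tor d n, |cavg fun c => g x fun j => c (x + a j)| ≤ 1 := by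
        intro x
        rw [abs_le]
        constructor
        · have := hS.mono (fun _ => -1) (fun c => g x fun j => c (x + a j))
            (fun c => (abs_le.1 (hg x fun j => c (x + a j))).1)
          rwa [hS.const] at this
        · have := hS.mono (fun c => g x fun j => c (x + a j)) (fun _ => 1)
            (fun c => (abs_le.1 (hg x fun j => c (x + a j))).2)
          rwa [hS.const] at this
      have q3 : -((cavg fun c => g x fun j => c (x + a j)) *
          (cavg fun c => g x' fun j => c (x' + a j))) ≤ 1 := by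
        calc -((cavg fun c => g x fun j => c (x + a j)) *
              (cavg fun c => g x' fun j => c (x' + a j)))
            ≤ |(cavg fun c => g x fun j => c (x + a j)) *
              (cavg fun c => g x' fun j => c (x' + a j))| := neg_le_abs _
          _ = |(cavg fun c => g x fun j => c (x + a j))| *
              |(cavg fun c => g x' fun j => c (x' + a j))| := abs_mul _ _
          _ ≤ 1 := mul_le_one₀ (q2 x) (abs_nonneg _) (q2 x')
      linarith
    · push Not at hx
      obtain ⟨n1, n2, n3⟩ := hx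
      rw [if_neg n1, if_neg n2, if_neg n3]
      have key := cavg_mul (univ.image fun j => x + a j) (fun c => g x fun j => c (x + a j))
        (fun c => g x' fun j => c (x' + a j))
        (fun c c' hcc => by
          have : (fun j => c (x + a j)) = fun j => c' (x + a j) := by
            funext j
            exact hcc _ (Finset.mem_image_of_mem _ (Finset.mem_univ j))
          show g x _ = g x _
          rw [this])
        (fun c c' hcc => by
          have : (fun j => c (x' + a j)) = fun j => c' (x' + a j) := by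
            funext j
            refine hcc _ fun hmem => ?_
            obtain ⟨i, -, hi⟩ := Finset.mem_image.1 hmem
            fin_cases i <;> fin_cases j
            · exact n1 (add_right_cancel hi).symm
            · apply n2
              have hi' : x + a 0 = x' + a 1 := hi
              rw [← add_sub_assoc, hi', add_sub_cancel_right]
            · apply n3
              have hi' : x + a 1 = x' + a 0 := hi
              rw [← add_sub_assoc, hi', add_sub_cancel_right]
            · exact n1 (add_right_cancel hi).symm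
          show g x' _ = g x' _
          rw [this])
      rw [key]
      simp
  calc ∑ x, ((∑ x', cavg fun c => (g x fun j => c (x + a j)) * (g x' fun j => c (x' + a j))) -
        ∑ x', (cavg fun c => g x fun j => c (x + a j)) *
          (cavg fun c => g x' fun j => c (x' + a j)))
      ≤ ∑ _x : Tor d n, (6 : ℝ) := by
        refine Finset.sum_le_sum fun x _ => ?_
        rw [← Finset.sum_sub_distrib]
        refine le_trans (Finset.sum_le_sum fun x' _ => hterm x x') ?_
        rw [Finset.sum_add_distrib, Finset.sum_add_distrib]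
        simp only [Finset.sum_ite_eq', Finset.mem_univ, if_true]
        norm_num
    _ = 6 * NN d n := by
        rw [Finset.sum_const, Finset.card_univ, nsmul_eq_mul]
        have : Fintype.card (Tor d n) = n ^ d := by
          rw [Fintype.card_fun, ZMod.card, Fintype.card_fin]
        rw [this]
        unfold NN
        push_cast
        ring

end

theorem two_walk_variance (hd : 3 ≤ d) (C κ : ℝ) : ∃ C' : ℝ, 1 ≤ C' ∧ ∀ (n : ℕ) [NeZero n],
    HKB d n C κ → ∀ (a : Fin 2 → Tor d n), (∀ j, nrm (a j) ≤ 1) → a 0 ≠ a 1 →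
      ∀ (f : Rec → Rec → (Fin 2 → Bool) → ℝ), (∀ r r' u, |f r r' u| ≤ 1) → ∀ H : ℕ,
      V2 H (fun η η' c => ∑ x, f (lrec a η x H) (lrec a η' x H) fun j => c (x + a j)) ≤
        C' * NN d n * S4 d n := by
  obtain ⟨C2, -, hC2⟩ := exists_env hd C κ
  obtain ⟨C1, hC1, hone⟩ := one_walk_variance hd C κ C2
  refine ⟨2 * C1 + 6, by linarith, ?_⟩
  intro n _ hb a ha hne f hf H
  obtain ⟨env, henv⟩ := hC2 n hb a ha hne H
  have h1 := hone n hb a ha hne _ env (fun u r => f r u.1 u.2) (fun u r => hf _ _ _) H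
  have h2 := hone n hb a ha hne _ env (fun u r => f u.1 r u.2) (fun u r => hf _ _ _) H
  rw [henv] at h1 h2
  have hS4 : 1 ≤ S4 d n := one_le_S4 n
  have hN : 0 ≤ NN d n := by
    unfold NN
    positivity
  have key := tens (sta_ER (n := n) hd H) (sta_ER (n := n) hd H) (sta_cavg (d := d) (n := n))
    (fun G => ER_comm H H G) (fun G => ER_cavg H G) (fun G => ER_cavg H G)
    (fun η η' c => ∑ x, f (lrec a η x H) (lrec a η' x H) fun j => c (x + a j))
    (C1 * NN d n * S4 d n) (C1 * NN d n * S4 d n) (6 * NN d n) h1 h2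
    (fun η η' => coin_var a (fun x u => f (lrec a η x H) (lrec a η' x H) u)
      (fun x u => hf _ _ _))
  have h6 : 6 * NN d n ≤ 6 * NN d n * S4 d n := by
    have : 0 ≤ 6 * NN d n := by linarith
    nlinarith
  calc V2 H (fun η η' c => ∑ x, f (lrec a η x H) (lrec a η' x H) fun j => c (x + a j))
      ≤ C1 * NN d n * S4 d n + C1 * NN d n * S4 d n + 6 * NN d n := key
    _ ≤ (2 * C1 + 6) * NN d n * S4 d n := by
        have : (2 * C1 + 6) * NN d n * S4 d n = C1 * NN d n * S4 d n + C1 * NN d n * S4 d n +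
          6 * NN d n * S4 d n := by ring
        rw [this]
        linarith

end CRW
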