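import Pool.Agent.Lib.CRW.TS
import Pool.Agent.Lib.CRW.FO1

/-!
# Torus sums, YA: the order of `S4` and of `SX`

`S4_upper`: `sum_rho_le` with `f k = 1/(1+k)^(2(d-2))`: `∑ k^{d-1}/(1+k)^{2d-4} ≤ ∑_{k ≤ n} (1+k)^{3-d}`
(`≤ n`; `≤ 1 + log n ≤ 2 log n` for `n ≥ 3`; `≤ 2`).
`SX_lower`: `1 - lam ξ ≤ 10 (nrm ξ)²/n²` (`one_sub_lam_le`), so `1/(1-lam)² ≥ n⁴/(100 k⁴)` for `nrm ξ = k`, and for
`1 ≤ k`, `2k < n` at least `k^{d-1}` frequencies have `nrm ξ = k` (first coordinate `= k`, the other ones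
in `{0,..,k-1}`); only `k ≤ min(δ,1/3) n` are used.  `∑_{k ≤ K} k^{d-5}` with `K = ⌊min(δ,1/3) n⌋`:
`≥ 1` (`d = 3`), `≥ c log n` (`d = 4`, `n ≥ n₀`); for `d ≥ 5` all terms of `SX` are at least `1`.
-/

open Finset

namespace CRW

private theorem one_le_log {n : ℕ} (hn : 3 ≤ n) : 1 ≤ Real.log n := by
  rw [Real.le_log_iff_exp_le (by positivity)]
  have h1 := Real.exp_one_lt_d9
  have h2 : (3 : ℝ) ≤ n := by exact_mod_cast hn
  linarith

private theorem sum_inv_sq (n : ℕ) : ∑ k ∈ Icc 1 n, 1 / (1 + (k : ℝ)) ^ 2 ≤ 1 := by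
  have h : ∀ n : ℕ, ∑ k ∈ Icc 1 n, 1 / (1 + (k : ℝ)) ^ 2 ≤ 1 - 1 / (1 + (n : ℝ)) := by
    intro n
    induction n with
    | zero => simp
    | succ n ih =>
      rw [Finset.sum_Icc_succ_top (by omega)]
      refine (add_le_add_left ih _).trans ?_
      have h1 : (0 : ℝ) < 1 + n := by positivity
      have h2 : (0 : ℝ) < 1 + ((n + 1 : ℕ) : ℝ) := by positivity
      have h3 : 1 / (1 + ((n + 1 : ℕ) : ℝ)) ^ 2 ≤ 1 / (1 + (n : ℝ)) - 1 / (1 + ((n + 1 : ℕ) : ℝ)) := by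
        rw [div_sub_div _ _ h1.ne' h2.ne', div_le_div_iff₀ (by positivity) (by positivity)]
        push_cast
        nlinarith
      linarith
  refine (h n).trans ?_
  have : (0 : ℝ) ≤ 1 / (1 + (n : ℝ)) := by positivity
  linarith

private theorem term_le (d : ℕ) (hd : 3 ≤ d) (k : ℕ) :
    (k : ℝ) ^ (d - 1) * (1 / (1 + (k : ℝ)) ^ (2 * (d - 2))) ≤ 1 / (1 + (k : ℝ)) ^ (d - 3) := by
  have h1 : (0 : ℝ) < 1 + k := by positivity
  rw [mul_one_div, div_le_div_iff₀ (by positivity) (by positivity), one_mul]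
  have h2 : 2 * (d - 2) = (d - 1) + (d - 3) := by omega
  rw [h2, pow_add]
  exact mul_le_mul_of_nonneg_right (pow_le_pow_left₀ (by positivity) (by linarith) _) (by positivity)

theorem S4_upper (d : ℕ) (hd : 3 ≤ d) : ∃ C : ℝ, ∀ n : ℕ, 3 ≤ n → ∀ [NeZero n],
    NN d n * S4 d n ≤ C * hh d n := by
  obtain ⟨C, hC, hS⟩ := sum_rho_le (d := d) (by omega)
  refine ⟨1 + 2 * C, fun n hn _ => ?_⟩
  have hn' : (3 : ℝ) ≤ n := by exact_mod_cast hn
  have h1 : S4 d n ≤ 1 + C * ∑ k ∈ Icc 1 n, 1 / (1 + (k : ℝ)) ^ (d - 3) := by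
    have h2 := hS n (fun k => 1 / (1 + (k : ℝ)) ^ (2 * (d - 2))) (fun k => by positivity)
    have h3 : S4 d n = ∑ z : Tor d n, 1 / (1 + (nrm z : ℝ)) ^ (2 * (d - 2)) := rfl
    rw [h3]
    refine h2.trans ?_
    simp only [Nat.cast_zero, add_zero, one_pow, div_one]
    apply add_le_add_right
    apply mul_le_mul_of_nonneg_left _ (by linarith)
    exact Finset.sum_le_sum fun k _ => term_le d hd k
  have hN : 0 < NN d n := NN_pos
  refine (mul_le_mul_of_nonneg_left h1 hN.le).trans ?_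
  unfold hh NN
  split_ifs with h3 h4
  · subst h3
    have h5 : ∑ k ∈ Icc 1 n, 1 / (1 + (k : ℝ)) ^ (3 - 3) = (n : ℝ) := by simp
    rw [h5]
    have h6 : (1 : ℝ) + C * n ≤ (1 + 2 * C) * n := by nlinarith
    calc (n : ℝ) ^ 3 * (1 + C * n) ≤ (n : ℝ) ^ 3 * ((1 + 2 * C) * n) :=
          mul_le_mul_of_nonneg_left h6 (by positivity)
      _ = _ := by ring
  · subst h4
    have h5 : ∑ k ∈ Icc 1 n, 1 / (1 + (k : ℝ)) ^ (4 - 3) ≤ 1 + Real.log n := by
      refine le_trans ?_ (harmonic_le_one_add_log n)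
      rw [harmonic_eq_sum_Icc]
      push_cast
      refine Finset.sum_le_sum fun k hk => ?_
      rw [Finset.mem_Icc] at hk
      have h6 : (0 : ℝ) < k := by exact_mod_cast hk.1
      norm_num
      apply inv_anti₀ h6
      linarith
    have h7 := one_le_log hn
    have h8 : 1 + C * ∑ k ∈ Icc 1 n, 1 / (1 + (k : ℝ)) ^ (4 - 3) ≤ (1 + 2 * C) * Real.log n := by
      have : C * ∑ k ∈ Icc 1 n, 1 / (1 + (k : ℝ)) ^ (4 - 3) ≤ C * (1 + Real.log n) :=
        mul_le_mul_of_nonneg_left h5 (by linarith)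
      nlinarith
    calc (n : ℝ) ^ 4 * _ ≤ (n : ℝ) ^ 4 * ((1 + 2 * C) * Real.log n) :=
          mul_le_mul_of_nonneg_left h8 (by positivity)
      _ = _ := by ring
  · have h5 : ∑ k ∈ Icc 1 n, 1 / (1 + (k : ℝ)) ^ (d - 3) ≤ 1 := by
      refine le_trans (Finset.sum_le_sum fun k _ => ?_) (sum_inv_sq n)
      apply one_div_le_one_div_of_le (by positivity)
      have h6 : (0 : ℝ) ≤ k := by positivity
      exact pow_le_pow_right₀ (by linarith) (by omega)
    have h8 : 1 + C * ∑ k ∈ Icc 1 n, 1 / (1 + (k : ℝ)) ^ (d - 3) ≤ 1 + 2 * C := by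
      have : C * ∑ k ∈ Icc 1 n, 1 / (1 + (k : ℝ)) ^ (d - 3) ≤ C * 1 :=
        mul_le_mul_of_nonneg_left h5 (by linarith)
      linarith
    calc (n : ℝ) ^ d * _ ≤ (n : ℝ) ^ d * (1 + 2 * C) :=
          mul_le_mul_of_nonneg_left h8 (by positivity)
      _ = _ := by ring

private theorem castk {n j : ℕ} (h : 2 * j < n) :
    (((j : ℕ) : ZMod n).valMinAbs).natAbs = j := by
  rw [ZMod.valMinAbs_natCast_of_le_half (by omega), Int.natAbs_natCast]

private theorem card_im (n m : ℕ) (h : 2 * m < n + 2) :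
    ((Finset.range m).image (fun j : ℕ => ((j : ℕ) : ZMod n))).card = m := by
  rw [Finset.card_image_of_injOn, Finset.card_range]
  intro i hi j hj hij
  have hi' := Finset.mem_range.1 (Finset.mem_coe.1 hi)
  have hj' := Finset.mem_range.1 (Finset.mem_coe.1 hj)
  have h1 := congrArg (fun x : ZMod n => x.valMinAbs.natAbs) hij
  simp only at h1
  rwa [castk (by omega), castk (by omega)] at h1

theorem card_shell_ge (d n k : ℕ) [NeZero n] (hd : 1 ≤ d) (hk : 1 ≤ k) (hkn : 2 * k < n) :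
    k ^ (d - 1) ≤ (univ.filter fun ξ : Tor d n => nrm ξ = k).card := by
  classical
  set i0 : Fin d := ⟨0, hd⟩
  set A : Finset (ZMod n) := (Finset.range k).image (fun j : ℕ => ((j : ℕ) : ZMod n)) with hA
  set S : Finset (Tor d n) := Fintype.piFinset fun i : Fin d =>
    if i = i0 then {((k : ℕ) : ZMod n)} else A with hS
  have hcard : S.card = k ^ (d - 1) := by
    rw [hS, Fintype.card_piFinset, ← Finset.mul_prod_erase univ _ (Finset.mem_univ i0),
      if_pos rfl, Finset.card_singleton, one_mul]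
    have h1 : ∀ j ∈ univ.erase i0,
        (if j = i0 then ({((k : ℕ) : ZMod n)} : Finset (ZMod n)) else A).card = k := by
      intro j hj
      rw [if_neg (Finset.ne_of_mem_erase hj)]
      exact card_im n k (by omega)
    rw [Finset.prod_congr rfl h1, Finset.prod_const,
      Finset.card_erase_of_mem (Finset.mem_univ i0), Finset.card_univ, Fintype.card_fin]
  rw [← hcard]
  apply Finset.card_le_card
  intro ξ hξ
  rw [Finset.mem_filter]
  refine ⟨Finset.mem_univ _, ?_⟩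
  rw [hS, Fintype.mem_piFinset] at hξ
  apply le_antisymm
  · refine Finset.sup_le fun i _ => ?_
    have h1 := hξ i
    by_cases hi : i = i0
    · rw [if_pos hi, Finset.mem_singleton] at h1
      rw [h1, castk hkn]
    · rw [if_neg hi, hA, Finset.mem_image] at h1
      obtain ⟨j, hj, hjx⟩ := h1
      rw [Finset.mem_range] at hj
      rw [← hjx, castk (by omega)]
      exact hj.le
  · have h1 := hξ i0
    rw [if_pos rfl, Finset.mem_singleton] at h1
    have h2 : (ξ i0).valMinAbs.natAbs ≤ nrm ξ :=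
      Finset.le_sup (f := fun i => (ξ i).valMinAbs.natAbs) (Finset.mem_univ i0)
    rw [h1, castk hkn] at h2
    exact h2

/-- shells up to radius `K` -/
private theorem SX_shells (d n K : ℕ) [NeZero n] (hd : 1 ≤ d) (δ : ℝ) (hK : (K : ℝ) ≤ δ * n)
    (hKn : 2 * K < n) :
    (n : ℝ) ^ 4 / 100 * ∑ k ∈ Icc 1 K, (k : ℝ) ^ (d - 1) / (k : ℝ) ^ 4 ≤ SX d n δ := by
  classical
  set Y : Finset (Tor d n) := univ.filter fun ξ => nrm ξ ∈ Icc 1 K with hY
  have hn : (0 : ℝ) < n := by exact_mod_cast Nat.pos_of_ne_zero (NeZero.ne n)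
  have hsub : Y ⊆ XI d n δ := by
    intro ξ hξ
    rw [hY, Finset.mem_filter, Finset.mem_Icc] at hξ
    unfold XI
    rw [Finset.mem_filter]
    refine ⟨Finset.mem_univ _, ?_, ?_⟩
    · intro h0
      rw [h0, nrm_zero] at hξ
      omega
    · refine le_trans ?_ hK
      exact_mod_cast hξ.2.2
  have h1 : ∑ ξ ∈ Y, 1 / (1 - lam ξ) ^ 2 ≤ SX d n δ := by
    unfold SX
    exact Finset.sum_le_sum_of_subset_of_nonneg hsub fun ξ _ _ => by positivity
  refine le_trans ?_ h1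
  rw [← Finset.sum_fiberwise_of_maps_to (s := Y) (t := Icc 1 K) (g := nrm)
    (fun ξ hξ => (Finset.mem_filter.1 hξ).2), Finset.mul_sum]
  refine Finset.sum_le_sum fun k hk => ?_
  rw [Finset.mem_Icc] at hk
  have hk0 : (0 : ℝ) < k := by exact_mod_cast hk.1
  have h2 : Y.filter (fun ξ => nrm ξ = k) = univ.filter fun ξ : Tor d n => nrm ξ = k := by
    ext ξ
    rw [hY, Finset.mem_filter, Finset.mem_filter, Finset.mem_filter, Finset.mem_Icc]
    constructor
    · rintro ⟨-, h⟩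
      exact ⟨Finset.mem_univ _, h⟩
    · rintro ⟨-, h⟩
      exact ⟨⟨Finset.mem_univ _, by omega⟩, h⟩
  rw [h2]
  have h3 : ∀ ξ ∈ univ.filter (fun ξ : Tor d n => nrm ξ = k),
      (n : ℝ) ^ 4 / (100 * (k : ℝ) ^ 4) ≤ 1 / (1 - lam ξ) ^ 2 := by
    intro ξ hξ
    have hξk : nrm ξ = k := (Finset.mem_filter.1 hξ).2
    have hne : ξ ≠ 0 := by
      intro h0
      rw [h0, nrm_zero] at hξk
      omega
    have h4 := lam_lt_one hd hne
    have h5 := one_sub_lam_le hd ξ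
    rw [hξk] at h5
    have h6 : 0 < 1 - lam ξ := by linarith
    have h7 : (1 - lam ξ) ^ 2 ≤ (10 * (k : ℝ) ^ 2 / (n : ℝ) ^ 2) ^ 2 :=
      pow_le_pow_left₀ h6.le h5 2
    have h8 : (n : ℝ) ^ 4 / (100 * (k : ℝ) ^ 4) = 1 / (10 * (k : ℝ) ^ 2 / (n : ℝ) ^ 2) ^ 2 := by
      field_simp
      ring
    rw [h8]
    exact one_div_le_one_div_of_le (by positivity) h7
  have h4 := Finset.card_nsmul_le_sum _ _ _ h3
  refine le_trans ?_ h4
  rw [nsmul_eq_mul]
  have h5 : ((k : ℝ)) ^ (d - 1) ≤ ((univ.filter fun ξ : Tor d n => nrm ξ = k).card : ℝ) := by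
    have := card_shell_ge d n k hd hk.1 (by omega)
    exact_mod_cast this
  calc (n : ℝ) ^ 4 / 100 * ((k : ℝ) ^ (d - 1) / (k : ℝ) ^ 4) =
      (k : ℝ) ^ (d - 1) * ((n : ℝ) ^ 4 / (100 * (k : ℝ) ^ 4)) := by
        field_simp
    _ ≤ _ := mul_le_mul_of_nonneg_right h5 (by positivity)

/-- all terms are at least `1` -/
private theorem SX_card (d n K : ℕ) [NeZero n] (hd : 1 ≤ d) (δ : ℝ) (hK : (K : ℝ) ≤ δ * n)
    (hKn : 2 * K < n) : ((K : ℝ) + 1) ^ d - 1 ≤ SX d n δ := by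
  classical
  set A : Finset (ZMod n) := (Finset.range (K + 1)).image (fun j : ℕ => ((j : ℕ) : ZMod n)) with hA
  set S : Finset (Tor d n) := Fintype.piFinset fun _ : Fin d => A with hS
  have hcard : S.card = (K + 1) ^ d := by
    rw [hS, Fintype.card_piFinset, Finset.prod_const, Finset.card_univ, Fintype.card_fin,
      card_im n (K + 1) (by omega)]
  have hsub : S.erase 0 ⊆ XI d n δ := by
    intro ξ hξ
    rw [Finset.mem_erase, hS, Fintype.mem_piFinset] at hξ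
    unfold XI
    rw [Finset.mem_filter]
    refine ⟨Finset.mem_univ _, hξ.1, ?_⟩
    refine le_trans ?_ hK
    have : nrm ξ ≤ K := by
      refine Finset.sup_le fun i _ => ?_
      have h1 := hξ.2 i
      rw [hA, Finset.mem_image] at h1
      obtain ⟨j, hj, hjx⟩ := h1
      rw [Finset.mem_range] at hj
      rw [← hjx, castk (by omega)]
      omega
    exact_mod_cast this
  have h1 : ∑ ξ ∈ S.erase 0, (1 : ℝ) ≤ SX d n δ := by
    unfold SX
    calc ∑ ξ ∈ S.erase 0, (1 : ℝ) ≤ ∑ ξ ∈ S.erase 0, 1 / (1 - lam ξ) ^ 2 := by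
          refine Finset.sum_le_sum fun ξ hξ => ?_
          rw [Finset.mem_erase] at hξ
          have h2 := lam_lt_one hd hξ.1
          have h3 := lam_nonneg hd ξ
          have h4 : 0 < 1 - lam ξ := by linarith
          rw [one_le_div (by positivity)]
          exact pow_le_one₀ h4.le (by linarith)
      _ ≤ _ := Finset.sum_le_sum_of_subset_of_nonneg hsub fun ξ _ _ => by positivity
  refine le_trans ?_ h1
  rw [Finset.sum_const, nsmul_eq_mul, mul_one]
  have h2 := Finset.pred_card_le_card_erase (s := S) (a := (0 : Tor d n))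
  have h3 : ((K + 1) ^ d : ℕ) ≤ (S.erase 0).card + 1 := by omega
  have h4 : (((K + 1) ^ d : ℕ) : ℝ) ≤ (((S.erase 0).card + 1 : ℕ) : ℝ) := by exact_mod_cast h3
  push_cast at h4
  linarith

theorem SX_lower (d : ℕ) (hd : 3 ≤ d) (δ : ℝ) (hδ : 0 < δ) : ∃ c : ℝ, 0 < c ∧ ∃ n₀ : ℕ,
    ∀ n : ℕ, n₀ ≤ n → ∀ [NeZero n], c * hh d n ≤ SX d n δ := by
  set e : ℝ := min δ (1 / 3) with he
  have he0 : 0 < e := lt_min hδ (by norm_num)
  have heδ : e ≤ δ := min_le_left _ _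
  have he3 : e ≤ 1 / 3 := min_le_right _ _
  obtain ⟨n₁, hn₁⟩ := exists_nat_ge (2 / e ^ d + 1 / e ^ 2 + 1 / e + 3)
  have hKall : ∀ n : ℕ, n₁ ≤ n → (1 / e ≤ (n : ℝ)) ∧ (1 / e ^ 2 ≤ (n : ℝ)) ∧
      (2 / e ^ d ≤ (n : ℝ)) ∧ (3 : ℝ) ≤ n ∧ ((⌊e * n⌋₊ : ℕ) : ℝ) ≤ δ * n ∧ 2 * ⌊e * n⌋₊ < n := by
    intro n hn
    have h1 : (n₁ : ℝ) ≤ n := by exact_mod_cast hn
    have ha : 0 < 2 / e ^ d := by positivity
    have hb : 0 < 1 / e ^ 2 := by positivity
    have hc : 0 < 1 / e := by positivity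
    have hnn : (0 : ℝ) ≤ n := by positivity
    have hfl : ((⌊e * n⌋₊ : ℕ) : ℝ) ≤ e * n := Nat.floor_le (by positivity)
    refine ⟨by linarith, by linarith, by linarith, by linarith, ?_, ?_⟩
    · exact hfl.trans (mul_le_mul_of_nonneg_right heδ hnn)
    · have h2 : e * (n : ℝ) ≤ 1 / 3 * n := mul_le_mul_of_nonneg_right he3 hnn
      have h3 : ((2 * ⌊e * n⌋₊ : ℕ) : ℝ) < ((n : ℕ) : ℝ) := by
        push_cast
        linarith
      exact_mod_cast h3
  by_cases h3 : d = 3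
  · subst h3
    refine ⟨1 / 100, by norm_num, n₁, fun n hn _ => ?_⟩
    obtain ⟨ha, hb, hc, hn3, hK1, hK2⟩ := hKall n hn
    have h1 := SX_shells 3 n ⌊e * n⌋₊ (by norm_num) δ hK1 hK2
    refine le_trans ?_ h1
    have h2 : (1 : ℝ) ≤ ∑ k ∈ Icc 1 ⌊e * n⌋₊, (k : ℝ) ^ (3 - 1) / (k : ℝ) ^ 4 := by
      have h4 : 1 ∈ Icc 1 ⌊e * (n : ℝ)⌋₊ := by
        rw [Finset.mem_Icc]
        refine ⟨le_refl _, Nat.le_floor ?_⟩
        rw [div_le_iff₀ he0] at ha
        push_cast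
        linarith
      have h5 := Finset.single_le_sum (f := fun k : ℕ => (k : ℝ) ^ (3 - 1) / (k : ℝ) ^ 4)
        (fun k _ => by positivity) h4
      simpa using h5
    unfold hh
    rw [if_pos rfl]
    have h6 : (0 : ℝ) ≤ (n : ℝ) ^ 4 / 100 := by positivity
    nlinarith
  by_cases h4 : d = 4
  · subst h4
    refine ⟨1 / 200, by norm_num, n₁, fun n hn _ => ?_⟩
    obtain ⟨ha, hb, hc, hn3, hK1, hK2⟩ := hKall n hn
    have h1 := SX_shells 4 n ⌊e * n⌋₊ (by norm_num) δ hK1 hK2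
    refine le_trans ?_ h1
    have hn0 : (0 : ℝ) < n := by linarith
    have h2 : Real.log (((⌊e * n⌋₊ + 1 : ℕ)) : ℝ) ≤
        ∑ k ∈ Icc 1 ⌊e * n⌋₊, (k : ℝ) ^ (4 - 1) / (k : ℝ) ^ 4 := by
      refine (log_add_one_le_harmonic _).trans (le_of_eq ?_)
      rw [harmonic_eq_sum_Icc]
      push_cast
      refine Finset.sum_congr rfl fun k hk => ?_
      rw [Finset.mem_Icc] at hk
      have h6 : (0 : ℝ) < k := by exact_mod_cast hk.1
      field_simp
    have h5 : e * (n : ℝ) ≤ ((⌊e * n⌋₊ + 1 : ℕ) : ℝ) := by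
      push_cast
      exact (Nat.lt_floor_add_one _).le
    have h6 : Real.log (e * n) ≤ Real.log (((⌊e * n⌋₊ + 1 : ℕ)) : ℝ) :=
      Real.log_le_log (by positivity) h5
    have h7 : 1 / 2 * Real.log n ≤ Real.log (e * n) := by
      have h8 : (n : ℝ) ≤ (e * n) ^ 2 := by
        rw [div_le_iff₀ (by positivity)] at hb
        nlinarith
      have h9 := Real.log_le_log hn0 h8
      rw [Real.log_pow] at h9
      push_cast at h9
      linarith
    unfold hh
    rw [if_neg (by norm_num), if_pos rfl]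
    have h8 : 1 / 2 * Real.log n ≤ ∑ k ∈ Icc 1 ⌊e * n⌋₊, (k : ℝ) ^ (4 - 1) / (k : ℝ) ^ 4 :=
      h7.trans (h6.trans h2)
    calc 1 / 200 * ((n : ℝ) ^ 4 * Real.log n) = (n : ℝ) ^ 4 / 100 * (1 / 2 * Real.log n) := by ring
      _ ≤ _ := mul_le_mul_of_nonneg_left h8 (by positivity)
  · refine ⟨e ^ d / 2, by positivity, n₁, fun n hn _ => ?_⟩
    obtain ⟨ha, hb, hc, hn3, hK1, hK2⟩ := hKall n hn
    have h1 := SX_card d n ⌊e * n⌋₊ (by omega) δ hK1 hK2
    refine le_trans ?_ h1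
    have hn0 : (0 : ℝ) < n := by linarith
    have h5 : e * (n : ℝ) ≤ (⌊e * n⌋₊ : ℝ) + 1 := (Nat.lt_floor_add_one _).le
    have h6 : (e * (n : ℝ)) ^ d ≤ ((⌊e * n⌋₊ : ℝ) + 1) ^ d :=
      pow_le_pow_left₀ (by positivity) h5 d
    have h7 : 2 ≤ (e * (n : ℝ)) ^ d := by
      rw [mul_pow]
      rw [div_le_iff₀ (by positivity)] at hc
      have h8 : (n : ℝ) ≤ (n : ℝ) ^ d := by
        have := pow_le_pow_right₀ (a := (n : ℝ)) (by linarith) (show 1 ≤ d by omega)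
        simpa using this
      have h9 : 0 ≤ e ^ d := by positivity
      nlinarith
    unfold hh
    rw [if_neg h3, if_neg h4]
    have h8 : e ^ d / 2 * (n : ℝ) ^ d = (e * (n : ℝ)) ^ d / 2 := by
      rw [mul_pow]
      ring
    rw [h8]
    linarith

end CRW
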