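import Pool.Agent.Lib.CRW.L15
import Pool.Agent.Lib.CRW.U8
import Pool.Agent.Lib.CRW.YA
import Pool.Agent.Lib.CRW.KJ

/-!
# Module L16: both variances have the order `hh`, for a finite horizon

PROOF.  `hkb_exists`, `lower_SX`, `SX_lower`: lower bounds.  Upper bounds for all `H`: `two_walk_variance` with `f r r' u = gA r r' u`, `gB r r' u` (values `0, 1`), `NA_eq`, `NB_eq`,
`V2_sum_le` (`d` directions), `S4_upper`.  (`st_nrm`, `st_ne`.)
`unvisited_tendsto`: union bound over `x`: for the degenerate pair `a = fun _ => 0` (both sites equal) `Inc (lrec a η x H) ↔ frec η x H = none`, so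
`ER H (..) ≤ ∑ x, ER H 1{frec η x H = none} ≤ NN * C' e^(-κ H/NN)` (`ER_inc`, no injectivity needed) `→ 0`.
-/

open Finset

namespace CRW

private theorem hh_pos (d n : ℕ) (hn : 3 ≤ n) : 0 < hh d n := by
  have h1 : (0 : ℝ) < n := by exact_mod_cast (by omega : 0 < n)
  have h2 : 0 < Real.log n := Real.log_pos (by exact_mod_cast (by omega : 1 < n))
  unfold hh
  split_ifs <;> positivity

private theorem gA_abs (r r' : Rec) (u : Fin 2 → Bool) : |gA r r' u| ≤ 1 := by
  unfold gA
  split_ifs <;> simp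

private theorem gB_abs (r r' : Rec) (u : Fin 2 → Bool) : |gB r r' u| ≤ 1 := by
  unfold gB
  split_ifs <;> simp

theorem finite_horizon (d : ℕ) (hd : 3 ≤ d) : ∃ c C : ℝ, 0 < c ∧ 0 < C ∧ ∃ n0 : ℕ,
    ∀ (n : ℕ) [NeZero n], n0 ≤ n → 3 ≤ n ∧ 0 < hh d n ∧ ∃ H0 : ℕ, ∀ H : ℕ, H0 ≤ H →
      c * hh d n ≤ V2 (d := d) (n := n) H (NA H) ∧ V2 (d := d) (n := n) H (NA H) ≤ C * hh d n ∧
      c * hh d n ≤ V2 (d := d) (n := n) H (NB H) ∧ V2 (d := d) (n := n) H (NB H) ≤ C * hh d n := by
  obtain ⟨C0, κ, n1, hK⟩ := hkb_exists d hd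
  obtain ⟨c1, δ, hc1, hδ, n2, hL⟩ := lower_SX hd C0 κ
  obtain ⟨c2, hc2, n3, hX⟩ := SX_lower d hd δ hδ
  obtain ⟨C1, hC1, hU⟩ := two_walk_variance hd C0 κ
  obtain ⟨C2, hS⟩ := S4_upper d hd
  have hd1 : 1 ≤ d := by omega
  have hdR : (1 : ℝ) ≤ d := by exact_mod_cast hd1
  set C3 : ℝ := max C2 1 with hC3
  have hC3' : 1 ≤ C3 := le_max_right _ _
  refine ⟨c1 * c2, (d : ℝ) * d * (C1 * C3), by positivity, by positivity,
    max 3 (max n1 (max n2 n3)), ?_⟩
  intro n _ hn
  have hn3 : 3 ≤ n := le_trans (le_max_left _ _) hn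
  have hn' := le_trans (le_max_right _ _) hn
  have hn1 : n1 ≤ n := le_trans (le_max_left _ _) hn'
  have hn'' := le_trans (le_max_right _ _) hn'
  have hn2 : n2 ≤ n := le_trans (le_max_left _ _) hn''
  have hn33 : n3 ≤ n := le_trans (le_max_right _ _) hn''
  have hh0 : 0 < hh d n := hh_pos d n hn3
  have hb := hK n hn1
  obtain ⟨H0, hH0⟩ := hL n hn2 hb
  have hX' := hX n hn33
  have hS' : NN d n * S4 d n ≤ C3 * hh d n :=
    (hS n hn3).trans (mul_le_mul_of_nonneg_right (le_max_left _ _) hh0.le)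
  have hlow : c1 * c2 * hh d n ≤ c1 * SX d n δ := by
    have := mul_le_mul_of_nonneg_left hX' hc1.le
    linarith
  have hup : C1 * NN d n * S4 d n ≤ C1 * C3 * hh d n := by
    have := mul_le_mul_of_nonneg_left hS' (by linarith : (0 : ℝ) ≤ C1)
    linarith
  have hp : 0 ≤ C1 * C3 * hh d n := by positivity
  have hFA : ∀ (i : Fin d) (H : ℕ), V2 H (fun η η' c => ∑ x,
      gA (lrec (st (n := n) i) η x H) (lrec (st i) η' x H) fun j => c (x + st i j)) ≤
        C1 * C3 * hh d n := fun i H =>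
    (hU n hb (st i) (st_nrm i) (st_ne hn3 i) gA gA_abs H).trans hup
  have hFB : ∀ (i : Fin d) (H : ℕ), V2 H (fun η η' c => ∑ x,
      gB (lrec (st (n := n) i) η x H) (lrec (st i) η' x H) fun j => c (x + st i j)) ≤
        C1 * C3 * hh d n := fun i H =>
    (hU n hb (st i) (st_nrm i) (st_ne hn3 i) gB gB_abs H).trans hup
  refine ⟨hn3, hh0, H0, fun H hH => ⟨hlow.trans (hH0 H hH).1, ?_, hlow.trans (hH0 H hH).2, ?_⟩⟩
  · have i : Fin d := ⟨0, by omega⟩
    have h2 : (NA (d := d) (n := n) H) = fun η η' c => ∑ x,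
        gA (lrec (st (n := n) i) η x H) (lrec (st i) η' x H) fun j => c (x + st i j) := by
      funext η η' c
      rw [NA_eq i]
    rw [h2]
    refine (hFA i H).trans ?_
    have h3 : (1 : ℝ) ≤ (d : ℝ) * d := by nlinarith
    nlinarith
  · have h2 : (NB (d := d) (n := n) H) = fun η η' c => ∑ i, ∑ x,
        gB (lrec (st (n := n) i) η x H) (lrec (st i) η' x H) fun j => c (x + st i j) := by
      funext η η' c
      rw [NB_eq]
    rw [h2]
    refine (V2_sum_le hd1 H univ _).trans ?_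
    have h3 : ∑ i : Fin d, V2 H (fun η η' c => ∑ x,
        gB (lrec (st (n := n) i) η x H) (lrec (st i) η' x H) fun j => c (x + st i j)) ≤
        (d : ℝ) * (C1 * C3 * hh d n) := by
      refine (Finset.sum_le_sum fun i _ => hFB i H).trans ?_
      simp
    have h4 : ((univ : Finset (Fin d)).card : ℝ) = d := by simp
    rw [h4]
    have h5 := mul_le_mul_of_nonneg_left h3 (by linarith : (0 : ℝ) ≤ d)
    refine h5.trans (le_of_eq ?_)
    ring

open Classical in
/-- the probability that some site is not visited by the first walk tends to zero -/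
theorem unvisited_tendsto (d : ℕ) (hd : 3 ≤ d) : ∃ n0 : ℕ, ∀ (n : ℕ) [NeZero n], n0 ≤ n →
    Filter.Tendsto (fun H => ER H fun η : ℕ → Tor d n =>
      if ∃ x, frec η x H = none then (1 : ℝ) else 0) Filter.atTop (nhds 0) := by
  obtain ⟨C0, κ, n1, hK⟩ := hkb_exists d hd
  obtain ⟨C1, hC1, hI⟩ := ER_inc hd C0 κ
  refine ⟨n1, fun n _ hn => ?_⟩
  have hb := hK n hn
  have hN : 0 < NN d n := NN_pos
  have hle : ∀ H, (ER H fun η : ℕ → Tor d n => if ∃ x, frec η x H = none then (1 : ℝ) else 0) ≤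
      (Fintype.card (Tor d n) : ℝ) * (C1 * Real.exp (-κ * H / NN d n)) := by
    intro H
    have h1 : (ER H fun η : ℕ → Tor d n => if ∃ x, frec η x H = none then (1 : ℝ) else 0) ≤
        ER H fun η : ℕ → Tor d n => ∑ x : Tor d n,
          if Inc (lrec (fun _ : Fin 2 => (0 : Tor d n)) η x H) then (1 : ℝ) else 0 := by
      refine EP_mono H _ _ fun η b => ?_
      have h0 : ∀ x : Tor d n, 0 ≤ (if Inc (lrec (fun _ : Fin 2 => (0 : Tor d n)) η x H)
          then (1 : ℝ) else 0) := by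
        intro x
        split_ifs <;> norm_num
      beta_reduce
      split_ifs with h
      · obtain ⟨x, hx⟩ := h
        have hi : Inc (lrec (fun _ : Fin 2 => (0 : Tor d n)) η x H) := by
          refine ⟨0, ?_⟩
          simpa [lrec] using hx
        calc (1 : ℝ) = if Inc (lrec (fun _ : Fin 2 => (0 : Tor d n)) η x H) then (1 : ℝ) else 0 := by
              rw [if_pos hi]
          _ ≤ _ := Finset.single_le_sum (fun y _ => h0 y) (Finset.mem_univ x)
      · exact Finset.sum_nonneg fun x _ => h0 x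
    refine h1.trans ?_
    have h2 : (ER H fun η : ℕ → Tor d n => ∑ x : Tor d n,
          if Inc (lrec (fun _ : Fin 2 => (0 : Tor d n)) η x H) then (1 : ℝ) else 0) =
        ∑ x : Tor d n, ER H fun η : ℕ → Tor d n =>
          if Inc (lrec (fun _ : Fin 2 => (0 : Tor d n)) η x H) then (1 : ℝ) else 0 := by
      unfold ER
      rw [← EP_sum]
    rw [h2]
    refine (Finset.sum_le_sum fun x _ => hI n hb (fun _ => 0) x H).trans ?_
    simp
  have h0 : ∀ H, 0 ≤ ER H fun η : ℕ → Tor d n =>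
      if ∃ x, frec η x H = none then (1 : ℝ) else 0 := by
    intro H
    refine EP_nonneg H _ fun η b => ?_
    beta_reduce
    split_ifs <;> norm_num
  have ht : Filter.Tendsto (fun H : ℕ => (Fintype.card (Tor d n) : ℝ) *
      (C1 * Real.exp (-κ * H / NN d n))) Filter.atTop (nhds 0) := by
    have h3 : Filter.Tendsto (fun H : ℕ => -κ * (H : ℝ) / NN d n) Filter.atTop Filter.atBot := by
      have h4 : (fun H : ℕ => -κ * (H : ℝ) / NN d n) = fun H : ℕ => -((κ / NN d n) * (H : ℝ)) := by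
        funext H
        ring
      rw [h4]
      refine Filter.tendsto_neg_atTop_atBot.comp ?_
      exact Filter.Tendsto.const_mul_atTop (div_pos hb.hκ hN) tendsto_natCast_atTop_atTop
    have h5 := Real.tendsto_exp_atBot.comp h3
    have h6 := (h5.const_mul C1).const_mul (Fintype.card (Tor d n) : ℝ)
    simpa using h6
  exact squeeze_zero h0 hle ht

end CRW
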