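import Pool.Agent.Lib.CRW.F4
import Pool.Agent.Lib.CRW.F6
import Pool.Agent.Lib.CRW.L16

/-!
# Module F5: THE THEOREM

PROOF.  `finite_horizon`, `unvisited_tendsto`, `var_A`, `var_B`, `ge_of_tendsto`, `le_of_tendsto`.
-/

open Finset

namespace CRW

open MeasureTheory ProbabilityTheory

theorem main_orders (d : ℕ) (hd : 3 ≤ d) : ∃ c C : ℝ, 0 < c ∧ 0 < C ∧ ∃ n0 : ℕ,
    ∀ (n : ℕ) [NeZero n], n0 ≤ n → 0 < hh d n ∧
      ∀ {Ω : Type*} [MeasurableSpace Ω] (P : Measure Ω) [IsProbabilityMeasure P]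
        (M : Model d n P),
        c * hh d n ≤ variance M.sizeA P ∧ variance M.sizeA P ≤ C * hh d n ∧
        c * hh d n ≤ variance M.sizeB P ∧ variance M.sizeB P ≤ C * hh d n := by
  obtain ⟨c, C, hc, hC, n1, h1⟩ := finite_horizon d hd
  obtain ⟨n2, h2⟩ := unvisited_tendsto d hd
  refine ⟨c, C, hc, hC, max n1 n2, fun n _ hn => ?_⟩
  obtain ⟨hn3, hh0, H0, hH⟩ := h1 n (le_trans (le_max_left _ _) hn)
  have hu := h2 n (le_trans (le_max_right _ _) hn)
  refine ⟨hh0, fun P _ M => ?_⟩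
  have hA := var_A (by omega) M hu
  have hB := var_B (by omega) hn3 M hu
  have hev : ∀ᶠ H in Filter.atTop, H0 ≤ H := Filter.eventually_ge_atTop H0
  refine ⟨?_, ?_, ?_, ?_⟩
  · exact ge_of_tendsto hA (hev.mono fun H h => (hH H h).1)
  · exact le_of_tendsto hA (hev.mono fun H h => (hH H h).2.1)
  · exact ge_of_tendsto hB (hev.mono fun H h => (hH H h).2.2.1)
  · exact le_of_tendsto hB (hev.mono fun H h => (hH H h).2.2.2)

end CRW
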