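import Pool.Agent.Lib.CRW.PA1

/-!
# Module TS: sums over the torus

PROOFS.  `shell`: `#{z | nrm z = k} ≤ 2 d (2k+1)^(d-1)` for `k ≥ 1`: choose the coordinate with `|z_i| = k` (2 values), the
others have at most `2k+1` values (`valMinAbs` injective, values in `[-k, k]`).  `sum_rho_le`: sum over the shells, `nrm z ≤ n`.
`sum_grad_grad` (S1): split by `nrm a ≥ nrm (a - z)` or not; by symmetry (`a ↦ z - a`) it is enough to bound the sum over
`R1 = {nrm a ≥ nrm (a - z)}`; there `rho a ≥ rho z / 2` and `rho a ≥ rho (a - z)`; group by `k = rho (a - z)`: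
`∑_k C k^(d-1) k^(1-d) min((rho z/2)^(1-d), k^(1-d)) ≤ C (∑_{k ≤ rho z} (rho z)^(1-d) 2^(d-1) + ∑_{k > rho z} k^(1-d)) ≤ C (rho z)^(2-d)` (`d ≥ 3`:
`∑_{k > R} k^(1-d) ≤ R^(3-d) ∑_{k > R} k^(-2) ≤ R^(2-d)`).
`sum_sq` (S2): `∑ k^(d-1) k^(2-2d) ≤ ∑ k^(1-d) ≤ ∑ k^(-2) ≤ 2`.
`sum_green`: `∑_{k ≤ n} k^(d-1) k^(2-d) ≤ C n^2`.
`sum_green_green`: `rho z ≤ rho b + rho (b - z)`, so one of the two is `≥ rho z / 2`:
`rho(b)^(2-d) rho(b-z)^(2-d) ≤ 2^(d-2) rho(z)^(2-d) (rho(b)^(2-d) + rho(b-z)^(2-d))`, then `sum_green`.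
`sum_conv`: for `u = z - b`, `|u|^(2-d) |z|^(1-d) ≤ rho(u)^(3-2d) + rho(z)^(3-2d)`.
`L_sq`: Cauchy-Schwarz: `rho^(3-2d) = rho^(2-d) rho^(1-d)`, `sum_sq`.
`one_le_S4`: the term `z = 0`.
-/

open Finset

namespace CRW

variable {d : ℕ}

private theorem card_le (n k : ℕ) [NeZero n] :
    (univ.filter fun x : ZMod n => x.valMinAbs.natAbs ≤ k).card ≤ 2 * k + 1 := by
  have h1 : (univ.filter fun x : ZMod n => x.valMinAbs.natAbs ≤ k).card ≤
      (Finset.Icc (-(k : ℤ)) k).card := by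
    refine Finset.card_le_card_of_injOn (fun x => x.valMinAbs) ?_ ?_
    · intro x hx
      have hx' : x.valMinAbs.natAbs ≤ k := by
        have := Finset.mem_coe.1 hx
        exact (Finset.mem_filter.1 this).2
      have : x.valMinAbs ∈ Finset.Icc (-(k : ℤ)) k := by
        rw [Finset.mem_Icc]
        omega
      exact this
    · intro x _ y _ hxy
      exact ZMod.injective_valMinAbs hxy
  refine h1.trans ?_
  rw [Int.card_Icc]
  omega

private theorem card_eq (n k : ℕ) [NeZero n] :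
    (univ.filter fun x : ZMod n => x.valMinAbs.natAbs = k).card ≤ 2 := by
  have h1 : (univ.filter fun x : ZMod n => x.valMinAbs.natAbs = k).card ≤
      ({(k : ℤ), -(k : ℤ)} : Finset ℤ).card := by
    refine Finset.card_le_card_of_injOn (fun x => x.valMinAbs) ?_ ?_
    · intro x hx
      have hx' : x.valMinAbs.natAbs = k := by
        have := Finset.mem_coe.1 hx
        exact (Finset.mem_filter.1 this).2
      have : x.valMinAbs ∈ ({(k : ℤ), -(k : ℤ)} : Finset ℤ) := by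
        rw [Finset.mem_insert, Finset.mem_singleton]
        omega
      exact this
    · intro x _ y _ hxy
      exact ZMod.injective_valMinAbs hxy
  exact h1.trans Finset.card_le_two

private theorem nrm_coord {n : ℕ} (z : Tor d n) (i : Fin d) : (z i).valMinAbs.natAbs ≤ nrm z :=
  Finset.le_sup (f := fun i => (z i).valMinAbs.natAbs) (Finset.mem_univ i)

private theorem shell (n k : ℕ) [NeZero n] (hk : 1 ≤ k) :
    ((univ.filter fun z : Tor d n => nrm z = k).card : ℝ) ≤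
      2 * d * 3 ^ (d - 1) * (k : ℝ) ^ (d - 1) := by
  classical
  set A : Finset (ZMod n) := univ.filter fun x : ZMod n => x.valMinAbs.natAbs ≤ k
  set B : Finset (ZMod n) := univ.filter fun x : ZMod n => x.valMinAbs.natAbs = k
  have hsub : (univ.filter fun z : Tor d n => nrm z = k) ⊆
      univ.biUnion fun i : Fin d => Fintype.piFinset fun j => if j = i then B else A := by
    intro z hz
    have hz' : nrm z = k := (Finset.mem_filter.1 hz).2
    obtain ⟨i, hi⟩ : ∃ i, (z i).valMinAbs.natAbs = k := by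
      have hne : (univ : Finset (Fin d)).Nonempty := by
        by_contra h
        rw [Finset.not_nonempty_iff_eq_empty] at h
        have : nrm z = 0 := by
          unfold nrm
          rw [h, Finset.sup_empty]
          rfl
        omega
      obtain ⟨i, _, hi⟩ := Finset.exists_mem_eq_sup univ hne fun i => (z i).valMinAbs.natAbs
      exact ⟨i, by rw [← hi]; exact hz'⟩
    rw [Finset.mem_biUnion]
    refine ⟨i, Finset.mem_univ _, ?_⟩
    rw [Fintype.mem_piFinset]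
    intro j
    by_cases hj : j = i
    · subst hj
      rw [if_pos rfl]
      exact Finset.mem_filter.2 ⟨Finset.mem_univ _, hi⟩
    · rw [if_neg hj]
      exact Finset.mem_filter.2 ⟨Finset.mem_univ _, by rw [← hz']; exact nrm_coord z j⟩
  have h1 : (univ.filter fun z : Tor d n => nrm z = k).card ≤
      ∑ i : Fin d, (Fintype.piFinset fun j : Fin d => if j = i then B else A).card :=
    (Finset.card_le_card hsub).trans Finset.card_biUnion_le
  have h2 : ∀ i : Fin d, (Fintype.piFinset fun j : Fin d => if j = i then B else A).card ≤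
      2 * (2 * k + 1) ^ (d - 1) := by
    intro i
    rw [Fintype.card_piFinset]
    rw [← Finset.mul_prod_erase univ _ (Finset.mem_univ i), if_pos rfl]
    refine Nat.mul_le_mul (card_eq n k) ?_
    have : ∀ j ∈ univ.erase i, (if j = i then B else A).card ≤ 2 * k + 1 := by
      intro j hj
      rw [if_neg (Finset.ne_of_mem_erase hj)]
      exact card_le n k
    refine (Finset.prod_le_pow_card _ _ _ this).trans ?_
    rw [Finset.card_erase_of_mem (Finset.mem_univ i), Finset.card_univ, Fintype.card_fin]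
  have h3 : (univ.filter fun z : Tor d n => nrm z = k).card ≤ d * (2 * (2 * k + 1) ^ (d - 1)) := by
    refine h1.trans ?_
    refine (Finset.sum_le_sum fun i _ => h2 i).trans ?_
    rw [Finset.sum_const, Finset.card_univ, Fintype.card_fin, smul_eq_mul]
  have h4 : ((univ.filter fun z : Tor d n => nrm z = k).card : ℝ) ≤
      d * (2 * (2 * (k : ℝ) + 1) ^ (d - 1)) := by
    have := (Nat.cast_le (α := ℝ)).2 h3
    push_cast at this
    exact this
  refine h4.trans ?_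
  have hk' : (1 : ℝ) ≤ k := by exact_mod_cast hk
  have h5 : (2 * (k : ℝ) + 1) ^ (d - 1) ≤ (3 * (k : ℝ)) ^ (d - 1) :=
    pow_le_pow_left₀ (by positivity) (by linarith) _
  rw [mul_pow] at h5
  have h6 : (0 : ℝ) ≤ 2 * d := by positivity
  calc (d : ℝ) * (2 * (2 * (k : ℝ) + 1) ^ (d - 1)) = 2 * d * (2 * (k : ℝ) + 1) ^ (d - 1) := by ring
    _ ≤ 2 * d * (3 ^ (d - 1) * (k : ℝ) ^ (d - 1)) := mul_le_mul_of_nonneg_left h5 h6
    _ = _ := by ring

theorem sum_rho_le (hd : 1 ≤ d) : ∃ C : ℝ, 1 ≤ C ∧ ∀ (n : ℕ) [NeZero n] (f : ℕ → ℝ),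
    (∀ k, 0 ≤ f k) → ∑ z : Tor d n, f (nrm z) ≤
      f 0 + C * ∑ k ∈ Icc 1 n, (k : ℝ) ^ (d - 1) * f k := by
  classical
  have hd' : (1 : ℝ) ≤ d := by exact_mod_cast hd
  refine ⟨2 * d * 3 ^ (d - 1), ?_, ?_⟩
  · have : (1 : ℝ) ≤ 3 ^ (d - 1) := one_le_pow₀ (by norm_num)
    nlinarith
  intro n _ f hf
  rw [Finset.sum_comp f (fun z : Tor d n => nrm z)]
  have hsub : (univ.image fun z : Tor d n => nrm z) ⊆ insert 0 (Icc 1 n) := by
    intro k hk
    obtain ⟨z, _, rfl⟩ := Finset.mem_image.1 hk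
    have := two_nrm_le z
    rw [Finset.mem_insert, Finset.mem_Icc]
    omega
  refine (Finset.sum_le_sum_of_subset_of_nonneg hsub fun k _ _ => ?_).trans ?_
  · rw [nsmul_eq_mul]
    exact mul_nonneg (Nat.cast_nonneg _) (hf k)
  rw [Finset.sum_insert (by simp), Finset.mul_sum]
  refine add_le_add ?_ (Finset.sum_le_sum fun k hk => ?_)
  · have : (univ.filter fun z : Tor d n => nrm z = 0) = {0} := by
      ext z
      rw [Finset.mem_filter, Finset.mem_singleton, nrm_eq_zero]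
      exact ⟨fun h => h.2, fun h => ⟨Finset.mem_univ _, h⟩⟩
    rw [this, Finset.card_singleton, one_smul]
  · rw [nsmul_eq_mul, ← mul_assoc]
    exact mul_le_mul_of_nonneg_right (shell n k (Finset.mem_Icc.1 hk).1) (hf k)

private theorem tail (m n : ℕ) :
    ∑ k ∈ Icc 1 n, min (1 / ((m : ℝ) + 1) ^ 2) (1 / ((k : ℝ) + 1) ^ 2) ≤ 2 / ((m : ℝ) + 1) := by
  have hm : (0 : ℝ) < (m : ℝ) + 1 := by positivity
  have h1 : ∀ n : ℕ, ∑ k ∈ Icc 1 n, min (1 / ((m : ℝ) + 1) ^ 2) (1 / ((k : ℝ) + 1) ^ 2) ≤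
      (n : ℝ) / ((m : ℝ) + 1) ^ 2 := by
    intro n
    refine (Finset.sum_le_sum fun k _ => min_le_left _ _).trans ?_
    rw [Finset.sum_const, Nat.card_Icc, nsmul_eq_mul]
    simp only [Nat.add_sub_cancel]
    rw [mul_one_div]
  have h2 : ∀ j : ℕ, ∑ k ∈ Icc 1 (m + j), min (1 / ((m : ℝ) + 1) ^ 2) (1 / ((k : ℝ) + 1) ^ 2) ≤
      2 / ((m : ℝ) + 1) - 1 / ((m + j : ℕ) + 1 : ℝ) := by
    intro j
    induction j with
    | zero =>
      refine (h1 (m + 0)).trans ?_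
      rw [Nat.add_zero]
      have : (m : ℝ) / ((m : ℝ) + 1) ^ 2 ≤ 1 / ((m : ℝ) + 1) := by
        rw [div_le_div_iff₀ (by positivity) hm]
        nlinarith
      calc (m : ℝ) / ((m : ℝ) + 1) ^ 2 ≤ 1 / ((m : ℝ) + 1) := this
        _ = 2 / ((m : ℝ) + 1) - 1 / ((m : ℝ) + 1) := by ring
    | succ j ih =>
      rw [← Nat.add_assoc, Finset.sum_Icc_succ_top (by omega)]
      have h3 : min (1 / ((m : ℝ) + 1) ^ 2) (1 / (((m + j + 1 : ℕ) : ℝ) + 1) ^ 2) ≤
          1 / (((m + j : ℕ) : ℝ) + 1) - 1 / (((m + j + 1 : ℕ) : ℝ) + 1) := by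
        refine (min_le_right _ _).trans ?_
        have hx : (0 : ℝ) < ((m + j : ℕ) : ℝ) + 1 := by positivity
        have hc : (((m + j + 1 : ℕ) : ℝ) + 1) = (((m + j : ℕ) : ℝ) + 1) + 1 := by push_cast; ring
        rw [hc]
        generalize (((m + j : ℕ) : ℝ) + 1) = x at hx
        rw [div_sub_div _ _ (by positivity) (by positivity), div_le_div_iff₀ (by positivity)
          (by positivity)]
        nlinarith
      linarith
  by_cases h : n ≤ m
  · refine (h1 n).trans ?_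
    have hn : (n : ℝ) ≤ m := by exact_mod_cast h
    rw [div_le_div_iff₀ (by positivity) hm]
    nlinarith
  · obtain ⟨j, rfl⟩ := Nat.exists_eq_add_of_le (le_of_not_ge h)
    refine (h2 j).trans ?_
    have : (0 : ℝ) ≤ 1 / (((m + j : ℕ) : ℝ) + 1) := by positivity
    linarith

private theorem tail0 (n : ℕ) : ∑ k ∈ Icc 1 n, 1 / ((k : ℝ) + 1) ^ 2 ≤ 2 := by
  have h := tail 0 n
  have h2 : ∀ k ∈ Icc 1 n, 1 / ((k : ℝ) + 1) ^ 2 ≤
      min (1 / (((0 : ℕ) : ℝ) + 1) ^ 2) (1 / ((k : ℝ) + 1) ^ 2) := by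
    intro k _
    refine le_min ?_ le_rfl
    have hk : (0 : ℝ) ≤ k := Nat.cast_nonneg k
    rw [div_le_div_iff₀ (by positivity) (by positivity)]
    push_cast
    nlinarith
  refine (Finset.sum_le_sum h2).trans (h.trans ?_)
  norm_num

private theorem rho_tri {n : ℕ} (a z : Tor d n) : rho z ≤ rho a + rho (a - z) := by
  have h := rho_add_le a (-(a - z))
  rw [rho_neg] at h
  have e : a + -(a - z) = z := by abel
  rw [e] at h
  exact h

private theorem sum_shift {n : ℕ} [NeZero n] (f : Tor d n → ℝ) (z : Tor d n) :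
    ∑ a, f (a - z) = ∑ a, f a :=
  Equiv.sum_comp (Equiv.subRight z) f

private theorem pow_inv_le {x y : ℝ} (hx : 0 < x) (h : x ≤ y) (p : ℕ) :
    1 / y ^ p ≤ 1 / x ^ p :=
  one_div_le_one_div_of_le (pow_pos hx p) (pow_le_pow_left₀ hx.le h p)

/-- the majorant for `sum_grad_grad` -/
private theorem gg_term {p : ℕ} {x R : ℝ} (hx : 1 ≤ x) (hR : 1 ≤ R) {y : ℝ} (h1 : x ≤ y)
    (h2 : R ≤ 2 * y) : 1 / y ^ (p + 2) * (1 / x ^ (p + 2)) ≤
      1 / x ^ (p + 2) * (2 ^ (p + 2) / R ^ p * min (1 / R ^ 2) (1 / x ^ 2)) := by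
  have hy : 0 < y := by linarith
  have hx0 : 0 < x := by linarith
  have hR0 : 0 < R := by linarith
  rw [mul_comm]
  refine mul_le_mul_of_nonneg_left ?_ (by positivity)
  have hy2 : 1 / y ≤ 2 / R := by
    rw [div_le_div_iff₀ hy hR0]
    linarith
  have hyp : 1 / y ^ p ≤ 2 ^ p / R ^ p := by
    rw [← one_div_pow, ← div_pow]
    exact pow_le_pow_left₀ (by positivity) hy2 p
  have e : 1 / y ^ (p + 2) = 1 / y ^ p * (1 / y ^ 2) := by
    rw [pow_add]
    field_simp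
  have e2 : (2 : ℝ) ^ (p + 2) / R ^ p * min (1 / R ^ 2) (1 / x ^ 2) =
      2 ^ p / R ^ p * (4 * min (1 / R ^ 2) (1 / x ^ 2)) := by
    rw [pow_add]
    ring
  rw [e, e2]
  refine mul_le_mul hyp ?_ (by positivity) (by positivity)
  rcases min_choice (1 / R ^ 2) (1 / x ^ 2) with h | h
  · rw [h, ← one_div_pow, ← one_div_pow]
    have h3 : (1 / y) ^ 2 ≤ (2 / R) ^ 2 := pow_le_pow_left₀ (by positivity) hy2 2
    calc (1 / y) ^ 2 ≤ (2 / R) ^ 2 := h3
      _ = 4 * (1 / R) ^ 2 := by ring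
  · rw [h]
    have h3 := pow_inv_le hx0 h1 2
    have h4 : (0 : ℝ) ≤ 1 / x ^ 2 := by positivity
    linarith

theorem sum_grad_grad (hd : 3 ≤ d) : ∃ C : ℝ, 1 ≤ C ∧ ∀ (n : ℕ) [NeZero n] (z : Tor d n),
    ∑ a : Tor d n, 1 / rho a ^ (d - 1) * (1 / rho (a - z) ^ (d - 1)) ≤ C / rho z ^ (d - 2) := by
  obtain ⟨p, rfl⟩ : ∃ p, d = p + 3 := ⟨d - 3, by omega⟩
  obtain ⟨C, hC, hS⟩ := sum_rho_le (d := p + 3) (by omega)
  refine ⟨2 * (2 ^ (p + 2) * (1 + C * 2)), ?_, ?_⟩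
  · have : (1 : ℝ) ≤ 2 ^ (p + 2) := one_le_pow₀ (by norm_num)
    nlinarith
  intro n _ z
  have e1 : p + 3 - 1 = p + 2 := rfl
  have e2 : p + 3 - 2 = p + 1 := rfl
  rw [e1, e2]
  set m := nrm z with hm
  have hR : rho z = (m : ℝ) + 1 := by unfold rho; rw [hm]; ring
  set g : ℕ → ℝ := fun k => 1 / ((k : ℝ) + 1) ^ (p + 2) *
    (2 ^ (p + 2) / ((m : ℝ) + 1) ^ p * min (1 / ((m : ℝ) + 1) ^ 2) (1 / ((k : ℝ) + 1) ^ 2)) with hg
  have hg0 : ∀ k, 0 ≤ g k := by
    intro k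
    have : (0 : ℝ) ≤ min (1 / ((m : ℝ) + 1) ^ 2) (1 / ((k : ℝ) + 1) ^ 2) :=
      le_min (by positivity) (by positivity)
    rw [hg]
    positivity
  have hterm : ∀ a : Tor (p + 3) n, 1 / rho a ^ (p + 2) * (1 / rho (a - z) ^ (p + 2)) ≤
      g (nrm a) + g (nrm (a - z)) := by
    intro a
    have ha : rho a = (nrm a : ℝ) + 1 := by unfold rho; ring
    have hb : rho (a - z) = (nrm (a - z) : ℝ) + 1 := by unfold rho; ring
    have htri := rho_tri a z
    rcases le_total (rho (a - z)) (rho a) with h | h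
    · have := gg_term (p := p) (one_le_rho (a - z)) (one_le_rho z) h (by linarith)
      have h3 := hg0 (nrm a)
      have h4 : g (nrm (a - z)) = 1 / rho (a - z) ^ (p + 2) *
          (2 ^ (p + 2) / rho z ^ p * min (1 / rho z ^ 2) (1 / rho (a - z) ^ 2)) := by
        rw [hg, hR, hb]
      rw [h4]
      linarith
    · have := gg_term (p := p) (one_le_rho a) (one_le_rho z) h (by linarith)
      have h3 := hg0 (nrm (a - z))
      have h4 : g (nrm a) = 1 / rho a ^ (p + 2) *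
          (2 ^ (p + 2) / rho z ^ p * min (1 / rho z ^ 2) (1 / rho a ^ 2)) := by
        rw [hg, hR, ha]
      rw [h4]
      rw [mul_comm] at this
      linarith
  refine (Finset.sum_le_sum fun a _ => hterm a).trans ?_
  rw [Finset.sum_add_distrib, sum_shift (fun a => g (nrm a)) z]
  have hs := hS n g hg0
  have hb0 : g 0 ≤ 2 ^ (p + 2) / rho z ^ (p + 1) := by
    have h1 : g 0 = 2 ^ (p + 2) / ((m : ℝ) + 1) ^ p * min (1 / ((m : ℝ) + 1) ^ 2) 1 := by
      rw [hg]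
      simp
    rw [h1, hR]
    have h2 : min (1 / ((m : ℝ) + 1) ^ 2) 1 ≤ 1 / ((m : ℝ) + 1) := by
      refine (min_le_left _ _).trans ?_
      have hm0 : (1 : ℝ) ≤ (m : ℝ) + 1 := by
        have : (0 : ℝ) ≤ m := Nat.cast_nonneg m
        linarith
      rw [div_le_div_iff₀ (by positivity) (by positivity)]
      nlinarith
    calc (2 : ℝ) ^ (p + 2) / ((m : ℝ) + 1) ^ p * min (1 / ((m : ℝ) + 1) ^ 2) 1 ≤
        2 ^ (p + 2) / ((m : ℝ) + 1) ^ p * (1 / ((m : ℝ) + 1)) :=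
          mul_le_mul_of_nonneg_left h2 (by positivity)
      _ = 2 ^ (p + 2) / ((m : ℝ) + 1) ^ (p + 1) := by
          rw [pow_succ ((m : ℝ) + 1) p]
          field_simp
  have hbs : ∑ k ∈ Icc 1 n, (k : ℝ) ^ (p + 3 - 1) * g k ≤
      2 ^ (p + 2) / rho z ^ (p + 1) * 2 := by
    have h1 : ∀ k ∈ Icc 1 n, (k : ℝ) ^ (p + 3 - 1) * g k ≤
        2 ^ (p + 2) / ((m : ℝ) + 1) ^ p *
          min (1 / ((m : ℝ) + 1) ^ 2) (1 / ((k : ℝ) + 1) ^ 2) := by
      intro k _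
      rw [e1, hg]
      have hk : (0 : ℝ) ≤ k := Nat.cast_nonneg k
      have h2 : (k : ℝ) ^ (p + 2) * (1 / ((k : ℝ) + 1) ^ (p + 2)) ≤ 1 := by
        rw [mul_one_div]
        exact div_le_one_of_le₀ (pow_le_pow_left₀ hk (by linarith) _) (by positivity)
      have h3 : (0 : ℝ) ≤ min (1 / ((m : ℝ) + 1) ^ 2) (1 / ((k : ℝ) + 1) ^ 2) :=
        le_min (by positivity) (by positivity)
      have h4 : (0 : ℝ) ≤ 2 ^ (p + 2) / ((m : ℝ) + 1) ^ p *
          min (1 / ((m : ℝ) + 1) ^ 2) (1 / ((k : ℝ) + 1) ^ 2) := by positivity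
      calc (k : ℝ) ^ (p + 2) * (1 / ((k : ℝ) + 1) ^ (p + 2) * (2 ^ (p + 2) / ((m : ℝ) + 1) ^ p *
            min (1 / ((m : ℝ) + 1) ^ 2) (1 / ((k : ℝ) + 1) ^ 2))) =
          ((k : ℝ) ^ (p + 2) * (1 / ((k : ℝ) + 1) ^ (p + 2))) *
            (2 ^ (p + 2) / ((m : ℝ) + 1) ^ p *
            min (1 / ((m : ℝ) + 1) ^ 2) (1 / ((k : ℝ) + 1) ^ 2)) := by ring
        _ ≤ 1 * _ := mul_le_mul_of_nonneg_right h2 h4
        _ = _ := one_mul _
    refine (Finset.sum_le_sum h1).trans ?_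
    rw [← Finset.mul_sum, hR]
    have h5 := tail m n
    calc (2 : ℝ) ^ (p + 2) / ((m : ℝ) + 1) ^ p *
          ∑ k ∈ Icc 1 n, min (1 / ((m : ℝ) + 1) ^ 2) (1 / ((k : ℝ) + 1) ^ 2) ≤
        2 ^ (p + 2) / ((m : ℝ) + 1) ^ p * (2 / ((m : ℝ) + 1)) :=
          mul_le_mul_of_nonneg_left h5 (by positivity)
      _ = 2 ^ (p + 2) / ((m : ℝ) + 1) ^ (p + 1) * 2 := by
          rw [pow_succ ((m : ℝ) + 1) p]
          field_simp
  have hC0 : (0 : ℝ) ≤ C := by linarith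
  have h6 : ∑ a : Tor (p + 3) n, g (nrm a) ≤
      2 ^ (p + 2) / rho z ^ (p + 1) + C * (2 ^ (p + 2) / rho z ^ (p + 1) * 2) :=
    hs.trans (add_le_add hb0 (mul_le_mul_of_nonneg_left hbs hC0))
  calc ∑ a : Tor (p + 3) n, g (nrm a) + ∑ a : Tor (p + 3) n, g (nrm a) ≤
      2 * (2 ^ (p + 2) / rho z ^ (p + 1) + C * (2 ^ (p + 2) / rho z ^ (p + 1) * 2)) := by linarith
    _ = 2 * (2 ^ (p + 2) * (1 + C * 2)) / rho z ^ (p + 1) := by ring

theorem sum_sq (hd : 3 ≤ d) : ∃ C : ℝ, 1 ≤ C ∧ ∀ (n : ℕ) [NeZero n],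
    ∑ a : Tor d n, 1 / rho a ^ (2 * (d - 1)) ≤ C := by
  obtain ⟨p, rfl⟩ : ∃ p, d = p + 3 := ⟨d - 3, by omega⟩
  obtain ⟨C, hC, hS⟩ := sum_rho_le (d := p + 3) (by omega)
  refine ⟨1 + C * 2, by linarith, ?_⟩
  intro n _
  have e1 : p + 3 - 1 = p + 2 := rfl
  have hs := hS n (fun k => 1 / ((k : ℝ) + 1) ^ (2 * (p + 3 - 1))) (fun k => by positivity)
  have h0 : ∀ a : Tor (p + 3) n, 1 / rho a ^ (2 * (p + 3 - 1)) =
      1 / ((nrm a : ℝ) + 1) ^ (2 * (p + 3 - 1)) := by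
    intro a
    unfold rho
    rw [add_comm]
  rw [Finset.sum_congr rfl fun a _ => h0 a]
  refine hs.trans ?_
  have h1 : ∀ k ∈ Icc 1 n, (k : ℝ) ^ (p + 3 - 1) * (1 / ((k : ℝ) + 1) ^ (2 * (p + 3 - 1))) ≤
      1 / ((k : ℝ) + 1) ^ 2 := by
    intro k _
    rw [e1]
    have hk : (0 : ℝ) ≤ k := Nat.cast_nonneg k
    have h2 : (k : ℝ) ^ (p + 2) / ((k : ℝ) + 1) ^ (p + 2) ≤ 1 :=
      div_le_one_of_le₀ (pow_le_pow_left₀ hk (by linarith) _) (by positivity)
    have h3 : 1 / ((k : ℝ) + 1) ^ (p + 2) ≤ 1 / ((k : ℝ) + 1) ^ 2 :=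
      one_div_le_one_div_of_le (by positivity)
        (pow_le_pow_right₀ (by linarith) (by omega))
    calc (k : ℝ) ^ (p + 2) * (1 / ((k : ℝ) + 1) ^ (2 * (p + 2))) =
        (k : ℝ) ^ (p + 2) / ((k : ℝ) + 1) ^ (p + 2) * (1 / ((k : ℝ) + 1) ^ (p + 2)) := by
          rw [div_mul_div_comm, mul_one, ← pow_add, ← two_mul, mul_one_div]
      _ ≤ 1 * (1 / ((k : ℝ) + 1) ^ 2) := mul_le_mul h2 h3 (by positivity) (by norm_num)
      _ = _ := one_mul _
  have h4 := (Finset.sum_le_sum h1).trans (tail0 n)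
  have hC0 : (0 : ℝ) ≤ C := by linarith
  have h5 : (1 : ℝ) / (((0 : ℕ) : ℝ) + 1) ^ (2 * (p + 3 - 1)) = 1 := by norm_num
  rw [h5]
  linarith [mul_le_mul_of_nonneg_left h4 hC0]

theorem sum_green (hd : 3 ≤ d) : ∃ C : ℝ, 1 ≤ C ∧ ∀ (n : ℕ) [NeZero n],
    ∑ a : Tor d n, 1 / rho a ^ (d - 2) ≤ C * n ^ 2 := by
  obtain ⟨p, rfl⟩ : ∃ p, d = p + 3 := ⟨d - 3, by omega⟩
  obtain ⟨C, hC, hS⟩ := sum_rho_le (d := p + 3) (by omega)
  refine ⟨1 + C, by linarith, ?_⟩
  intro n hn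
  have e1 : p + 3 - 1 = p + 2 := rfl
  have e2 : p + 3 - 2 = p + 1 := rfl
  have hs := hS n (fun k => 1 / ((k : ℝ) + 1) ^ (p + 3 - 2)) (fun k => by positivity)
  have h0 : ∀ a : Tor (p + 3) n, 1 / rho a ^ (p + 3 - 2) =
      1 / ((nrm a : ℝ) + 1) ^ (p + 3 - 2) := by
    intro a
    unfold rho
    rw [add_comm]
  rw [Finset.sum_congr rfl fun a _ => h0 a]
  refine hs.trans ?_
  have hn1 : (1 : ℝ) ≤ n := by exact_mod_cast (NeZero.one_le (n := n))
  have h1 : ∀ k ∈ Icc 1 n, (k : ℝ) ^ (p + 3 - 1) * (1 / ((k : ℝ) + 1) ^ (p + 3 - 2)) ≤ (n : ℝ) := by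
    intro k hk
    rw [e1, e2]
    have hk0 : (0 : ℝ) ≤ k := Nat.cast_nonneg k
    have hkn : (k : ℝ) ≤ n := by exact_mod_cast (Finset.mem_Icc.1 hk).2
    have h2 : (k : ℝ) ^ (p + 1) / ((k : ℝ) + 1) ^ (p + 1) ≤ 1 :=
      div_le_one_of_le₀ (pow_le_pow_left₀ hk0 (by linarith) _) (by positivity)
    calc (k : ℝ) ^ (p + 2) * (1 / ((k : ℝ) + 1) ^ (p + 1)) =
        (k : ℝ) * ((k : ℝ) ^ (p + 1) / ((k : ℝ) + 1) ^ (p + 1)) := by
          rw [pow_succ (k : ℝ) (p + 1)]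
          ring
      _ ≤ n * 1 := mul_le_mul hkn h2 (by positivity) (by linarith)
      _ = _ := mul_one _
  have h4 := Finset.sum_le_sum h1
  rw [Finset.sum_const, Nat.card_Icc, nsmul_eq_mul] at h4
  simp only [Nat.add_sub_cancel] at h4
  have hC0 : (0 : ℝ) ≤ C := by linarith
  have h5 : (1 : ℝ) / (((0 : ℕ) : ℝ) + 1) ^ (p + 3 - 2) = 1 := by norm_num
  rw [h5]
  have h6 := mul_le_mul_of_nonneg_left h4 hC0
  nlinarith

theorem sum_green_green (hd : 3 ≤ d) : ∃ C : ℝ, 1 ≤ C ∧ ∀ (n : ℕ) [NeZero n] (z : Tor d n),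
    ∑ b : Tor d n, 1 / rho b ^ (d - 2) * (1 / rho (b - z) ^ (d - 2)) ≤
      C * n ^ 2 / rho z ^ (d - 2) := by
  obtain ⟨C, hC, hS⟩ := sum_green hd
  refine ⟨2 * 2 ^ (d - 2) * C, ?_, ?_⟩
  · have : (1 : ℝ) ≤ 2 ^ (d - 2) := one_le_pow₀ (by norm_num)
    nlinarith
  intro n _ z
  set p := d - 2
  have hterm : ∀ b : Tor d n, 1 / rho b ^ p * (1 / rho (b - z) ^ p) ≤
      2 ^ p / rho z ^ p * (1 / rho b ^ p + 1 / rho (b - z) ^ p) := by
    intro b
    have hb := rho_pos b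
    have hbz := rho_pos (b - z)
    have hz := rho_pos z
    have htri := rho_tri b z
    have h1 : ∀ x : ℝ, 0 < x → rho z ≤ 2 * x → 1 / x ^ p ≤ 2 ^ p / rho z ^ p := by
      intro x hx h
      rw [← one_div_pow, ← div_pow]
      refine pow_le_pow_left₀ (by positivity) ?_ p
      rw [div_le_div_iff₀ hx hz]
      linarith
    rcases le_total (rho b) (rho (b - z)) with h | h
    · have h2 := h1 _ hbz (by linarith)
      calc 1 / rho b ^ p * (1 / rho (b - z) ^ p) ≤ 1 / rho b ^ p * (2 ^ p / rho z ^ p) :=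
            mul_le_mul_of_nonneg_left h2 (by positivity)
        _ = 2 ^ p / rho z ^ p * (1 / rho b ^ p + 0) := by ring
        _ ≤ _ := mul_le_mul_of_nonneg_left (by
            have : (0 : ℝ) ≤ 1 / rho (b - z) ^ p := by positivity
            linarith) (by positivity)
    · have h2 := h1 _ hb (by linarith)
      calc 1 / rho b ^ p * (1 / rho (b - z) ^ p) ≤ 2 ^ p / rho z ^ p * (1 / rho (b - z) ^ p) :=
            mul_le_mul_of_nonneg_right h2 (by positivity)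
        _ = 2 ^ p / rho z ^ p * (0 + 1 / rho (b - z) ^ p) := by ring
        _ ≤ _ := mul_le_mul_of_nonneg_left (by
            have : (0 : ℝ) ≤ 1 / rho b ^ p := by positivity
            linarith) (by positivity)
  refine (Finset.sum_le_sum fun b _ => hterm b).trans ?_
  rw [← Finset.mul_sum, Finset.sum_add_distrib, sum_shift (fun b => 1 / rho b ^ p) z]
  have hs := hS n
  have hz := rho_pos z
  calc 2 ^ p / rho z ^ p * (∑ b : Tor d n, 1 / rho b ^ p + ∑ b : Tor d n, 1 / rho b ^ p) ≤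
      2 ^ p / rho z ^ p * (C * n ^ 2 + C * n ^ 2) :=
        mul_le_mul_of_nonneg_left (add_le_add hs hs) (by positivity)
    _ = 2 * 2 ^ p * C * n ^ 2 / rho z ^ p := by ring

theorem sum_conv (hd : 3 ≤ d) (n : ℕ) [NeZero n] (b : Tor d n) :
    ∑ z : Tor d n, 1 / rho (z - b) ^ (d - 2) * (1 / rho z ^ (d - 1)) ≤
      2 * ∑ z : Tor d n, 1 / rho z ^ (2 * d - 3) := by
  obtain ⟨p, rfl⟩ : ∃ p, d = p + 3 := ⟨d - 3, by omega⟩
  have e1 : p + 3 - 1 = p + 2 := rfl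
  have e2 : p + 3 - 2 = p + 1 := rfl
  have e3 : 2 * (p + 3) - 3 = (p + 1) + (p + 2) := by omega
  rw [e1, e2, e3]
  have hterm : ∀ z : Tor (p + 3) n, 1 / rho (z - b) ^ (p + 1) * (1 / rho z ^ (p + 2)) ≤
      1 / rho (z - b) ^ (p + 1 + (p + 2)) + 1 / rho z ^ (p + 1 + (p + 2)) := by
    intro z
    have hx := rho_pos (z - b)
    have hy := rho_pos z
    have e4 : ∀ x : ℝ, 1 / x ^ (p + 1 + (p + 2)) = 1 / x ^ (p + 1) * (1 / x ^ (p + 2)) := by
      intro x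
      rw [pow_add, one_div_mul_one_div]
    rcases le_total (rho (z - b)) (rho z) with h | h
    · have h1 := pow_inv_le hx h (p + 2)
      have h2 : (0 : ℝ) ≤ 1 / rho z ^ (p + 1 + (p + 2)) := by positivity
      have h3 := mul_le_mul_of_nonneg_left h1 (a := 1 / rho (z - b) ^ (p + 1)) (by positivity)
      rw [← e4] at h3
      linarith
    · have h1 := pow_inv_le hy h (p + 1)
      have h2 : (0 : ℝ) ≤ 1 / rho (z - b) ^ (p + 1 + (p + 2)) := by positivity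
      have h3 := mul_le_mul_of_nonneg_right h1 (a := 1 / rho z ^ (p + 2)) (by positivity)
      rw [← e4] at h3
      linarith
  refine (Finset.sum_le_sum fun z _ => hterm z).trans ?_
  rw [Finset.sum_add_distrib, sum_shift (fun z => 1 / rho z ^ (p + 1 + (p + 2))) b, two_mul]

theorem L_sq (hd : 3 ≤ d) : ∃ C : ℝ, 1 ≤ C ∧ ∀ (n : ℕ) [NeZero n],
    (∑ z : Tor d n, 1 / rho z ^ (2 * d - 3)) ^ 2 ≤ C * S4 d n := by
  obtain ⟨C, hC, hS⟩ := sum_sq hd
  refine ⟨C, hC, ?_⟩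
  intro n _
  have h1 := Finset.sum_mul_sq_le_sq_mul_sq (univ : Finset (Tor d n))
    (fun z => 1 / rho z ^ (d - 2)) (fun z => 1 / rho z ^ (d - 1))
  have h2 : ∀ z : Tor d n, 1 / rho z ^ (2 * d - 3) = 1 / rho z ^ (d - 2) * (1 / rho z ^ (d - 1)) := by
    intro z
    rw [one_div_mul_one_div, ← pow_add]
    congr 2
    omega
  rw [Finset.sum_congr rfl fun z _ => h2 z]
  refine h1.trans ?_
  have h3 : ∑ z : Tor d n, (1 / rho z ^ (d - 2)) ^ 2 = S4 d n := by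
    unfold S4
    refine Finset.sum_congr rfl fun z _ => ?_
    rw [one_div_pow, ← pow_mul, mul_comm (d - 2) 2]
  have h4 : ∑ z : Tor d n, (1 / rho z ^ (d - 1)) ^ 2 ≤ C := by
    refine le_trans (le_of_eq ?_) (hS n)
    refine Finset.sum_congr rfl fun z _ => ?_
    rw [one_div_pow, ← pow_mul, mul_comm (d - 1) 2]
  have h5 : 0 ≤ S4 d n := by
    rw [← h3]
    exact Finset.sum_nonneg fun z _ => sq_nonneg _
  rw [h3, mul_comm C]
  exact mul_le_mul_of_nonneg_left h4 h5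

theorem one_le_S4 (n : ℕ) [NeZero n] : 1 ≤ S4 d n := by
  unfold S4
  have h : (1 : ℝ) / rho (0 : Tor d n) ^ (2 * (d - 2)) ≤
      ∑ z : Tor d n, 1 / rho z ^ (2 * (d - 2)) := by
    refine Finset.single_le_sum (f := fun z : Tor d n => 1 / rho z ^ (2 * (d - 2)))
      (fun z _ => ?_) (Finset.mem_univ _)
    have := rho_pos z
    positivity
  have h0 : rho (0 : Tor d n) = 1 := by
    unfold rho
    rw [nrm_zero]
    norm_num
  rw [h0, one_pow, div_one] at h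
  exact h

end CRW
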