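import Pool.Agent.Lib.CRW.FO1
import Pool.Agent.Lib.CRW.TS

/-!
# Module FO2: the bound for the cross terms

PROOF.  `cross_fourier`: Fourier inversion for both factors (`hk_inv`: `hk r z - NN⁻¹ = NN⁻¹ ∑_{η ≠ 0} lam η^r ch η z`), `sum_ch` over `b`:
the sum is `NN⁻¹ ∑_{η ≠ 0, -ξ-η ≠ 0} lam η^s lam(-ξ-η)^r * (phase)`, absolute value `≤ NN⁻¹ ∑_{η ≠ 0, η ≠ ξ} lam η^s lam(ξ-η)^r` (substitute
`η → -η`, `lam_neg`).
`cross_sum`: sum over `s < S` and `1 ≤ r ≤ R` (geometric series, `0 ≤ lam < 1`).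
`Bx_le`: `one_sub_lam_ge`: `Bx ξ ≤ NN⁻¹ (d n²/4)² ∑_{η ≠ 0, ξ} 1/(nrm η² nrm (ξ-η)²)`.  By symmetry `η ↔ ξ - η` twice the sum over
`nrm η ≤ nrm (ξ - η)`; there `nrm (ξ-η) ≥ nrm ξ / 2` and `≥ nrm η`.  Shells (`sum_rho_le`): `nrm η ≤ nrm ξ`: `≤ 4 nrm ξ^(-2) C ∑_{k ≤ nrm ξ} k^(d-3) ≤ C nrm ξ^(d-4)`;
`nrm η > nrm ξ`: `C ∑_{nrm ξ < k ≤ n} k^(d-5) ≤ C n^(d-3) ∑_{k > nrm ξ} k^(-2) ≤ C n^(d-3)/nrm ξ`.  Both are `≤ C n^(d-3)/nrm ξ` (`nrm ξ ≤ n`); so
`Bx ξ ≤ C n^(-d) n^4 n^(d-3)/nrm ξ = C n/nrm ξ`.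
-/

open Finset

namespace CRW

variable {d : ℕ}

/-- Fourier coefficients of the centred kernel -/
private noncomputable def Aco {n : ℕ} [NeZero n] (s : ℕ) (η : Tor d n) : ℝ :=
  if η = 0 then 0 else lam η ^ s

private theorem hk_cent (hd : 1 ≤ d) {n : ℕ} [NeZero n] (s : ℕ) (z : Tor d n) :
    ((hk d n s z - (NN d n)⁻¹ : ℝ) : ℂ) = (NN d n : ℂ)⁻¹ * ∑ η, (Aco s η : ℂ) * ch η z := by
  have h1 := hk_inv hd s z
  have h2 : ∑ η : Tor d n, (lam η : ℂ) ^ s * ch η z =
      1 + ∑ η : Tor d n, (Aco s η : ℂ) * ch η z := by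
    rw [← Finset.add_sum_erase _ _ (Finset.mem_univ (0 : Tor d n)),
      ← Finset.add_sum_erase _ (fun η : Tor d n => (Aco s η : ℂ) * ch η z)
        (Finset.mem_univ (0 : Tor d n))]
    have h3 : (lam (0 : Tor d n) : ℂ) ^ s * ch 0 z = 1 := by
      rw [lam_zero hd, ch_zero_left]
      simp
    have h4 : (Aco s (0 : Tor d n) : ℂ) * ch 0 z = 0 := by
      simp [Aco]
    rw [h3, h4, zero_add]
    congr 1
    apply Finset.sum_congr rfl
    intro η hη
    have h5 : η ≠ 0 := Finset.ne_of_mem_erase hη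
    simp [Aco, h5]
  push_cast
  rw [h1, h2]
  ring

theorem cross_fourier (hd : 1 ≤ d) {n : ℕ} [NeZero n] (s r : ℕ) (ξ c c' : Tor d n)
    (hξ : ξ ≠ 0) :
    ‖∑ b, ch ξ b * (((hk d n s (b - c) - (NN d n)⁻¹) * (hk d n r (b - c') - (NN d n)⁻¹) : ℝ) :
        ℂ)‖ ≤ (NN d n)⁻¹ * ∑ η : Tor d n, if η = 0 ∨ η = ξ then 0 else
          lam η ^ s * lam (ξ - η) ^ r := by
  have hN := NN_pos (d := d) (n := n)
  have hN' : (NN d n : ℂ) ≠ 0 := by exact_mod_cast hN.ne'
  have h1 : ∑ b, ch ξ b * (((hk d n s (b - c) - (NN d n)⁻¹) *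
      (hk d n r (b - c') - (NN d n)⁻¹) : ℝ) : ℂ) =
      (NN d n : ℂ)⁻¹ * ∑ η : Tor d n, (Aco s η : ℂ) * (Aco r (-ξ - η) : ℂ) *
        (ch η (-c) * ch (-ξ - η) (-c')) := by
    calc ∑ b, ch ξ b * (((hk d n s (b - c) - (NN d n)⁻¹) *
          (hk d n r (b - c') - (NN d n)⁻¹) : ℝ) : ℂ)
        = ∑ b, ∑ η : Tor d n, ∑ θ : Tor d n, (NN d n : ℂ)⁻¹ * ((NN d n : ℂ)⁻¹ *
            (((Aco s η : ℂ) * (Aco r θ : ℂ)) * (ch η (-c) * ch θ (-c')))) *
              ch (ξ + η + θ) b := by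
          apply Finset.sum_congr rfl
          intro b _
          rw [Complex.ofReal_mul, hk_cent hd s (b - c), hk_cent hd r (b - c')]
          have e1 : ∀ η : Tor d n, ch η (b - c) = ch η b * ch η (-c) := fun η => by
            rw [sub_eq_add_neg, ch_add]
          have e2 : ∀ η : Tor d n, ch η (b - c') = ch η b * ch η (-c') := fun η => by
            rw [sub_eq_add_neg, ch_add]
          simp_rw [e1, e2]
          rw [show ch ξ b * ((NN d n : ℂ)⁻¹ * (∑ η : Tor d n, (Aco s η : ℂ) * (ch η b * ch η (-c))) *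
            ((NN d n : ℂ)⁻¹ * ∑ θ : Tor d n, (Aco r θ : ℂ) * (ch θ b * ch θ (-c')))) =
            ((NN d n : ℂ)⁻¹ * ((NN d n : ℂ)⁻¹ * ch ξ b)) *
              ((∑ η : Tor d n, (Aco s η : ℂ) * (ch η b * ch η (-c))) *
                ∑ θ : Tor d n, (Aco r θ : ℂ) * (ch θ b * ch θ (-c'))) by ring]
          rw [Finset.sum_mul_sum, Finset.mul_sum]
          apply Finset.sum_congr rfl
          intro η _
          rw [Finset.mul_sum]
          apply Finset.sum_congr rfl
          intro θ _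
          rw [ch_add_left, ch_add_left]
          ring
      _ = ∑ η : Tor d n, ∑ θ : Tor d n, (NN d n : ℂ)⁻¹ * ((NN d n : ℂ)⁻¹ *
            (((Aco s η : ℂ) * (Aco r θ : ℂ)) * (ch η (-c) * ch θ (-c')))) *
              (if ξ + η + θ = 0 then (NN d n : ℂ) else 0) := by
          rw [Finset.sum_comm]
          apply Finset.sum_congr rfl
          intro η _
          rw [Finset.sum_comm]
          apply Finset.sum_congr rfl
          intro θ _
          rw [← Finset.mul_sum, sum_ch]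
      _ = (NN d n : ℂ)⁻¹ * ∑ η : Tor d n, (Aco s η : ℂ) * (Aco r (-ξ - η) : ℂ) *
        (ch η (-c) * ch (-ξ - η) (-c')) := by
          rw [Finset.mul_sum]
          apply Finset.sum_congr rfl
          intro η _
          rw [Finset.sum_eq_single (-ξ - η)]
          · rw [if_pos (by abel)]
            field_simp
          · intro θ _ hθ
            rw [if_neg, mul_zero]
            intro h
            apply hθ
            have : θ = -(ξ + η) := eq_neg_of_add_eq_zero_right h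
            rw [this]
            abel
          · intro h
            exact absurd (Finset.mem_univ _) h
  rw [h1, norm_mul, norm_inv, Complex.norm_real, Real.norm_eq_abs, abs_of_pos hN]
  apply mul_le_mul_of_nonneg_left _ (inv_pos.mpr hN).le
  calc ‖∑ η : Tor d n, (Aco s η : ℂ) * (Aco r (-ξ - η) : ℂ) * (ch η (-c) * ch (-ξ - η) (-c'))‖
      ≤ ∑ η : Tor d n, |Aco s η| * |Aco r (-ξ - η)| := by
        apply norm_sum_le_of_le
        intro η _
        rw [norm_mul, norm_mul, norm_mul, norm_ch, norm_ch, Complex.norm_real, Complex.norm_real,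
          Real.norm_eq_abs, Real.norm_eq_abs, mul_one, mul_one]
    _ = ∑ η : Tor d n, |Aco s (-η)| * |Aco r (-ξ - -η)| :=
        (Equiv.sum_comp (Equiv.neg (Tor d n)) (fun η => |Aco s η| * |Aco r (-ξ - η)|)).symm
    _ ≤ ∑ η : Tor d n, if η = 0 ∨ η = ξ then 0 else lam η ^ s * lam (ξ - η) ^ r := by
        apply Finset.sum_le_sum
        intro η _
        have e1 : -ξ - -η = -(ξ - η) := by abel
        rw [e1]
        unfold Aco
        by_cases h0 : η = 0
        · simp [h0]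
        by_cases h2 : η = ξ
        · simp [h2]
        have h3 : -η ≠ 0 := neg_ne_zero.mpr h0
        have h4 : -(ξ - η) ≠ 0 := by
          rw [neg_sub]
          exact sub_ne_zero.mpr h2
        rw [if_neg h3, if_neg h4, if_neg (by tauto), lam_neg, lam_neg,
          abs_of_nonneg (pow_nonneg (lam_nonneg hd _) _),
          abs_of_nonneg (pow_nonneg (lam_nonneg hd _) _)]

private theorem geom_le {x : ℝ} (h0 : 0 ≤ x) (h1 : x < 1) (S : ℕ) :
    ∑ s ∈ range S, x ^ s ≤ 1 / (1 - x) := by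
  rw [le_div_iff₀ (by linarith), geom_sum_mul_neg]
  have := pow_nonneg h0 S
  linarith

theorem cross_sum (hd : 1 ≤ d) {n : ℕ} [NeZero n] (S R : ℕ) (ξ : Tor d n) :
    ∑ s ∈ range S, ∑ r ∈ range R, (NN d n)⁻¹ * ∑ η : Tor d n, (if η = 0 ∨ η = ξ then 0 else
      lam η ^ s * lam (ξ - η) ^ r) ≤ Bx ξ := by
  unfold Bx
  have hN := NN_pos (d := d) (n := n)
  calc ∑ s ∈ range S, ∑ r ∈ range R, (NN d n)⁻¹ * ∑ η : Tor d n, (if η = 0 ∨ η = ξ then 0 else
      lam η ^ s * lam (ξ - η) ^ r)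
      = (NN d n)⁻¹ * ∑ η : Tor d n, ∑ s ∈ range S, ∑ r ∈ range R,
          (if η = 0 ∨ η = ξ then 0 else lam η ^ s * lam (ξ - η) ^ r) := by
        simp_rw [← Finset.mul_sum]
        congr 1
        rw [Finset.sum_congr rfl (fun s _ => Finset.sum_comm), Finset.sum_comm]
    _ ≤ _ := by
        apply mul_le_mul_of_nonneg_left _ (inv_pos.mpr hN).le
        apply Finset.sum_le_sum
        intro η _
        by_cases h : η = 0 ∨ η = ξ
        · simp [h]
        · simp only [if_neg h]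
          push Not at h
          have h1 := lam_lt_one hd h.1
          have h2 : lam (ξ - η) < 1 := lam_lt_one hd (sub_ne_zero.mpr (Ne.symm h.2))
          have h3 := lam_nonneg hd η
          have h4 := lam_nonneg hd (ξ - η)
          rw [← Finset.sum_mul_sum, ← one_div_mul_one_div]
          exact mul_le_mul (geom_le h3 h1 S) (geom_le h4 h2 R)
            (Finset.sum_nonneg fun i _ => pow_nonneg h4 i) (by
              have : 0 < 1 - lam η := by linarith
              positivity)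

private noncomputable def phi (m k : ℕ) : ℝ := if k ≤ m then 4 / (m:ℝ)^2 else 1 / (k:ℝ)^2

private theorem phi_nonneg (m k : ℕ) : 0 ≤ phi m k := by
  unfold phi
  split_ifs <;> positivity

private theorem tele {x : ℝ} (hx : 0 < x) : 1 / (x + 1)^2 + 1 / (x + 1) ≤ 1 / x := by
  have h1 : 1 / x - (1 / (x + 1)^2 + 1 / (x + 1)) = 1 / (x * (x + 1)^2) := by
    field_simp
    ring
  have h2 : 0 < 1 / (x * (x + 1)^2) := by positivity
  linarith

private theorem sum_phi {m : ℕ} (hm : 1 ≤ m) (N : ℕ) :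
    ∑ k ∈ Icc 1 N, phi m k ≤ if N ≤ m then 4 * N / (m:ℝ)^2 else 5 / (m:ℝ) - 1 / (N:ℝ) := by
  have hm' : (0:ℝ) < m := by exact_mod_cast hm
  induction N with
  | zero => simp
  | succ N ih =>
    rw [Finset.sum_Icc_succ_top (by omega)]
    by_cases h1 : N + 1 ≤ m
    · rw [if_pos h1]
      rw [if_pos (by omega)] at ih
      have h2 : phi m (N + 1) = 4 / (m:ℝ)^2 := by simp [phi, h1]
      rw [h2]
      push_cast
      have h3 : 4 * ((N:ℝ) + 1) / (m:ℝ)^2 = 4 * (N:ℝ) / (m:ℝ)^2 + 4 / (m:ℝ)^2 := by ring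
      linarith
    · rw [if_neg h1]
      have h2 : phi m (N + 1) = 1 / ((N:ℝ) + 1)^2 := by
        simp [phi, h1]
      rw [h2]
      push_cast
      by_cases h3 : N ≤ m
      · have h4 : N = m := by omega
        rw [if_pos h3, h4] at ih
        rw [h4]
        have h5 := tele hm'
        have h6 : 4 * (m:ℝ) / (m:ℝ)^2 = 4 / (m:ℝ) := by
          field_simp
        have h7 : 5 / (m:ℝ) = 4 / (m:ℝ) + 1 / (m:ℝ) := by ring
        rw [h6] at ih
        linarith
      · rw [if_neg h3] at ih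
        have hN : (0:ℝ) < N := by
          have : 0 < N := by omega
          exact_mod_cast this
        have h5 := tele hN
        linarith

private theorem sum_phi_le {m : ℕ} (hm : 1 ≤ m) (N : ℕ) :
    ∑ k ∈ Icc 1 N, phi m k ≤ 5 / (m:ℝ) := by
  have hm' : (0:ℝ) < m := by exact_mod_cast hm
  refine (sum_phi hm N).trans ?_
  split_ifs with h
  · have h1 : (N:ℝ) ≤ m := by exact_mod_cast h
    rw [div_le_div_iff₀ (by positivity) hm']
    nlinarith
  · have : (0:ℝ) ≤ 1 / (N:ℝ) := by positivity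
    linarith

private noncomputable def gg (m k : ℕ) : ℝ := if k = 0 then 0 else phi m k / (k:ℝ)^2

private theorem gg_nonneg (m k : ℕ) : 0 ≤ gg m k := by
  unfold gg
  split_ifs
  · exact le_rfl
  · exact div_nonneg (phi_nonneg m k) (by positivity)

private theorem gg_half {m a b : ℕ} (hm : 1 ≤ m) (ha : 1 ≤ a) (hab : a ≤ b) (h : m ≤ a + b) :
    1 / (a:ℝ)^2 * (1 / (b:ℝ)^2) ≤ gg m a := by
  have ha' : (0:ℝ) < a := by exact_mod_cast ha
  have hb' : (0:ℝ) < b := by exact_mod_cast (by omega : 0 < b)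
  have hm' : (0:ℝ) < m := by exact_mod_cast hm
  have h1 : 1 / (b:ℝ)^2 ≤ phi m a := by
    unfold phi
    split_ifs with h2
    · have h3 : (m:ℝ) ≤ 2 * b := by
        have : m ≤ 2 * b := by omega
        exact_mod_cast this
      rw [div_le_div_iff₀ (by positivity) (by positivity)]
      nlinarith
    · apply one_div_le_one_div_of_le (by positivity)
      have : (a:ℝ) ≤ b := by exact_mod_cast hab
      exact pow_le_pow_left₀ ha'.le this 2
  unfold gg
  rw [if_neg (by omega)]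
  calc 1 / (a:ℝ)^2 * (1 / (b:ℝ)^2) ≤ 1 / (a:ℝ)^2 * phi m a :=
        mul_le_mul_of_nonneg_left h1 (by positivity)
    _ = phi m a / (a:ℝ)^2 := by ring

private theorem gg_le {m a b : ℕ} (hm : 1 ≤ m) (ha : 1 ≤ a) (hb : 1 ≤ b) (h : m ≤ a + b) :
    1 / (a:ℝ)^2 * (1 / (b:ℝ)^2) ≤ gg m a + gg m b := by
  have h1 := gg_nonneg m a
  have h2 := gg_nonneg m b
  rcases le_total a b with hab | hab
  · have := gg_half hm ha hab h
    linarith
  · have := gg_half hm hb hab (by omega)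
    rw [mul_comm] at this
    linarith

theorem Bx_le (hd : 3 ≤ d) : ∃ C : ℝ, 1 ≤ C ∧ ∀ (n : ℕ) [NeZero n] (ξ : Tor d n), ξ ≠ 0 →
    0 ≤ Bx ξ ∧ Bx ξ ≤ C * n / nrm ξ := by
  obtain ⟨C, hC1, hC⟩ := sum_rho_le (d := d) (by omega)
  have hd' : (3:ℝ) ≤ d := by exact_mod_cast hd
  refine ⟨(d:ℝ)^2 * C, by nlinarith, ?_⟩
  intro n _ ξ hξ
  have hd1 : 1 ≤ d := by omega
  have hn0 : 0 < n := Nat.pos_of_ne_zero (NeZero.ne n)
  have hn : (0:ℝ) < n := by exact_mod_cast hn0
  have hN := NN_pos (d := d) (n := n)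
  have hm1 : 1 ≤ nrm ξ := Nat.pos_of_ne_zero fun h0 => hξ (nrm_eq_zero.mp h0)
  have hm : (0:ℝ) < nrm ξ := by exact_mod_cast hm1
  constructor
  · unfold Bx
    apply mul_nonneg (inv_pos.mpr hN).le
    apply Finset.sum_nonneg
    intro η _
    split_ifs with h
    · exact le_rfl
    · push Not at h
      have h1 := lam_lt_one hd1 h.1
      have h2 : lam (ξ - η) < 1 := lam_lt_one hd1 (sub_ne_zero.mpr (Ne.symm h.2))
      have h3 : 0 < 1 - lam η := by linarith
      have h4 : 0 < 1 - lam (ξ - η) := by linarith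
      positivity
  · -- the upper bound
    have key : ∀ η : Tor d n, η ≠ 0 → 1 / (1 - lam η) ≤ (d * n^2 / 4) * (1 / (nrm η : ℝ)^2) := by
      intro η hη
      have h1 := one_sub_lam_ge hd1 η
      have h2 : 1 ≤ nrm η := Nat.pos_of_ne_zero fun h0 => hη (nrm_eq_zero.mp h0)
      have h3 : (0:ℝ) < nrm η := by exact_mod_cast h2
      have h4 : 0 < 4 * (nrm η : ℝ) ^ 2 / (d * n ^ 2) := by positivity
      calc 1 / (1 - lam η) ≤ 1 / (4 * (nrm η : ℝ) ^ 2 / (d * n ^ 2)) :=
            one_div_le_one_div_of_le h4 h1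
        _ = (d * n^2 / 4) * (1 / (nrm η : ℝ)^2) := by
            field_simp
    have h1 : ∑ η : Tor d n, (if η = 0 ∨ η = ξ then 0 else
        1 / ((1 - lam η) * (1 - lam (ξ - η)))) ≤
        (d * n^2 / 4)^2 * ∑ η : Tor d n, (gg (nrm ξ) (nrm η) + gg (nrm ξ) (nrm (ξ - η))) := by
      rw [Finset.mul_sum]
      apply Finset.sum_le_sum
      intro η _
      split_ifs with h
      · exact mul_nonneg (by positivity) (add_nonneg (gg_nonneg _ _) (gg_nonneg _ _))
      · push Not at h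
        have h2 : ξ - η ≠ 0 := sub_ne_zero.mpr (Ne.symm h.2)
        have h3 := key η h.1
        have h4 := key (ξ - η) h2
        have h5 : 1 ≤ nrm η := Nat.pos_of_ne_zero fun h0 => h.1 (nrm_eq_zero.mp h0)
        have h6 : 1 ≤ nrm (ξ - η) := Nat.pos_of_ne_zero fun h0 => h2 (nrm_eq_zero.mp h0)
        have h7 : nrm ξ ≤ nrm η + nrm (ξ - η) := by
          calc nrm ξ = nrm (η + (ξ - η)) := by
                congr 1
                abel
            _ ≤ _ := nrm_add_le _ _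
        have h8 := gg_le hm1 h5 h6 h7
        have h9 : 0 < 1 - lam (ξ - η) := by
          have := lam_lt_one hd1 h2
          linarith
        rw [← one_div_mul_one_div]
        calc 1 / (1 - lam η) * (1 / (1 - lam (ξ - η)))
            ≤ ((d * n^2 / 4) * (1 / (nrm η : ℝ)^2)) *
              ((d * n^2 / 4) * (1 / (nrm (ξ - η) : ℝ)^2)) :=
              mul_le_mul h3 h4 (by positivity) (by positivity)
          _ = (d * n^2 / 4)^2 * (1 / (nrm η : ℝ)^2 * (1 / (nrm (ξ - η) : ℝ)^2)) := by ring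
          _ ≤ _ := mul_le_mul_of_nonneg_left h8 (by positivity)
    have h2 : ∑ η : Tor d n, (gg (nrm ξ) (nrm η) + gg (nrm ξ) (nrm (ξ - η))) =
        2 * ∑ η : Tor d n, gg (nrm ξ) (nrm η) := by
      rw [Finset.sum_add_distrib]
      have : ∑ η : Tor d n, gg (nrm ξ) (nrm (ξ - η)) = ∑ η : Tor d n, gg (nrm ξ) (nrm η) :=
        Equiv.sum_comp (Equiv.subLeft ξ) (fun η => gg (nrm ξ) (nrm η))
      rw [this]
      ring
    have h3 : ∑ η : Tor d n, gg (nrm ξ) (nrm η) ≤ C * ((n:ℝ)^(d-3) * (5 / (nrm ξ : ℝ))) := by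
      have h4 := hC n (gg (nrm ξ)) (gg_nonneg _)
      have h5 : gg (nrm ξ) 0 = 0 := by simp [gg]
      rw [h5, zero_add] at h4
      refine h4.trans ?_
      apply mul_le_mul_of_nonneg_left _ (by linarith)
      calc ∑ k ∈ Icc 1 n, (k:ℝ)^(d-1) * gg (nrm ξ) k
          ≤ ∑ k ∈ Icc 1 n, (n:ℝ)^(d-3) * phi (nrm ξ) k := by
            apply Finset.sum_le_sum
            intro k hk
            rw [Finset.mem_Icc] at hk
            have hk' : (0:ℝ) < k := by exact_mod_cast (by omega : 0 < k)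
            have hkn : (k:ℝ) ≤ n := by exact_mod_cast hk.2
            unfold gg
            rw [if_neg (by omega)]
            have e1 : (k:ℝ)^(d-1) = (k:ℝ)^(d-3) * (k:ℝ)^2 := by
              rw [← pow_add]
              congr 1
              omega
            rw [e1]
            calc (k:ℝ)^(d-3) * (k:ℝ)^2 * (phi (nrm ξ) k / (k:ℝ)^2)
                = (k:ℝ)^(d-3) * phi (nrm ξ) k := by field_simp
              _ ≤ (n:ℝ)^(d-3) * phi (nrm ξ) k :=
                mul_le_mul_of_nonneg_right (pow_le_pow_left₀ hk'.le hkn _) (phi_nonneg _ _)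
        _ = (n:ℝ)^(d-3) * ∑ k ∈ Icc 1 n, phi (nrm ξ) k := by rw [Finset.mul_sum]
        _ ≤ _ := mul_le_mul_of_nonneg_left (sum_phi_le hm1 n) (by positivity)
    have h4 : Bx ξ ≤ (NN d n)⁻¹ * ((d * n^2 / 4)^2 *
        (2 * (C * ((n:ℝ)^(d-3) * (5 / (nrm ξ : ℝ)))))) := by
      unfold Bx
      apply mul_le_mul_of_nonneg_left _ (inv_pos.mpr hN).le
      refine h1.trans ?_
      rw [h2]
      apply mul_le_mul_of_nonneg_left _ (by positivity)
      linarith
    refine h4.trans ?_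
    have e1 : NN d n = (n:ℝ)^(d-3) * (n:ℝ)^3 := by
      unfold NN
      rw [← pow_add]
      congr 1
      omega
    rw [e1]
    have e2 : ((n:ℝ)^(d-3) * (n:ℝ)^3)⁻¹ * ((d * n^2 / 4)^2 *
        (2 * (C * ((n:ℝ)^(d-3) * (5 / (nrm ξ : ℝ)))))) =
        (10 / 16) * ((d:ℝ)^2 * C * n / nrm ξ) := by
      have hp : (n:ℝ)^(d-3) ≠ 0 := by positivity
      field_simp
      ring
    rw [e2]
    have h5 : 0 ≤ (d:ℝ)^2 * C * n / nrm ξ := by positivity
    linarith

end CRW
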