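import Pool.Agent.Lib.CRW.PA2

/-!
# Module GA: the variance `Gam` of one step

PROOFS.  `Gam_eq`: `Gam H b = ∑ w, stp w * (H (b+w) - m)^2`, `m = ∑ w, stp w * H (b+w)` (`∑ stp = 1`).
`Gam_le_center`: `∑ stp (X - m)^2 ≤ ∑ stp (X - c)^2` for every `c`.
`Gam_add_le`: `(x+y)^2 ≤ 2x^2 + 2y^2` in `Gam_eq`.
`GamB_le`: with `X = H(b+w) - H b`, `Y = K (b+w) - K b` (the covariance is unchanged by constants):
`|cov| ≤ ∑ stp |X| |Y| + (∑ stp |X|)(∑ stp |Y|) ≤ 2 g g'` (only steps with `stp w ≠ 0` matter).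
`Gam_le`: `Gam H b = GamB H H b`.
`Gam_sum`: bilinearity.
-/

open Finset

namespace CRW

variable {d n : ℕ} [NeZero n]

/-- the one step expectation -/
private noncomputable def GA_m (H : Tor d n → ℝ) (b : Tor d n) : ℝ := ∑ w, stp d n w * H (b + w)

private lemma GA_cov (hd : 1 ≤ d) (H K : Tor d n → ℝ) (b : Tor d n) (c c' : ℝ) :
    GamB H K b = ∑ w, stp d n w * ((H (b + w) - c) * (K (b + w) - c')) -
      (∑ w, stp d n w * (H (b + w) - c)) * (∑ w, stp d n w * (K (b + w) - c')) := by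
  have h1 : ∑ w, stp d n w = 1 := stp_sum hd
  have e1 : ∑ w, stp d n w * ((H (b + w) - c) * (K (b + w) - c')) =
      ∑ w, stp d n w * (H (b + w) * K (b + w)) - c' * ∑ w, stp d n w * H (b + w) -
        c * ∑ w, stp d n w * K (b + w) + c * c' * ∑ w, stp d n w := by
    rw [Finset.mul_sum, Finset.mul_sum, Finset.mul_sum, ← Finset.sum_sub_distrib,
      ← Finset.sum_sub_distrib, ← Finset.sum_add_distrib]
    exact Finset.sum_congr rfl fun w _ => by ring
  have e2 : ∑ w, stp d n w * (H (b + w) - c) =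
      ∑ w, stp d n w * H (b + w) - c * ∑ w, stp d n w := by
    rw [Finset.mul_sum, ← Finset.sum_sub_distrib]
    exact Finset.sum_congr rfl fun w _ => by ring
  have e3 : ∑ w, stp d n w * (K (b + w) - c') =
      ∑ w, stp d n w * K (b + w) - c' * ∑ w, stp d n w := by
    rw [Finset.mul_sum, ← Finset.sum_sub_distrib]
    exact Finset.sum_congr rfl fun w _ => by ring
  rw [e1, e2, e3, h1, GamB]
  ring

theorem Gam_eq_GamB (H : Tor d n → ℝ) (b : Tor d n) : Gam H b = GamB H H b := by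
  rw [Gam, GamB, pow_two (∑ w, stp d n w * H (b + w))]
  congr 1
  exact Finset.sum_congr rfl fun w _ => by rw [pow_two]

private lemma GA_var (hd : 1 ≤ d) (H : Tor d n → ℝ) (b : Tor d n) :
    Gam H b = ∑ w, stp d n w * (H (b + w) - GA_m H b) ^ 2 := by
  rw [Gam_eq_GamB, GA_cov hd H H b (GA_m H b) (GA_m H b)]
  have e : ∑ w, stp d n w * (H (b + w) - GA_m H b) = 0 := by
    have h1 : ∑ w, stp d n w = 1 := stp_sum hd
    have h2 : ∑ w, stp d n w * (H (b + w) - GA_m H b) =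
        ∑ w, stp d n w * H (b + w) - GA_m H b * ∑ w, stp d n w := by
      rw [Finset.mul_sum, ← Finset.sum_sub_distrib]
      exact Finset.sum_congr rfl fun w _ => by ring
    rw [h2, h1, GA_m]
    ring
  rw [e, zero_mul, sub_zero]
  exact Finset.sum_congr rfl fun w _ => by rw [pow_two]

theorem Gam_nonneg (hd : 1 ≤ d) (H : Tor d n → ℝ) (b : Tor d n) : 0 ≤ Gam H b := by
  rw [GA_var hd]
  exact Finset.sum_nonneg fun w _ => mul_nonneg (stp_nonneg w) (sq_nonneg _)

theorem Gam_add_le (hd : 1 ≤ d) (H K : Tor d n → ℝ) (b : Tor d n) :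
    Gam (fun x => H x + K x) b ≤ 2 * Gam H b + 2 * Gam K b := by
  rw [GA_var hd, GA_var hd, GA_var hd]
  have hm : GA_m (fun x => H x + K x) b = GA_m H b + GA_m K b := by
    rw [GA_m, GA_m, GA_m, ← Finset.sum_add_distrib]
    exact Finset.sum_congr rfl fun w _ => by ring
  rw [hm, Finset.mul_sum, Finset.mul_sum, ← Finset.sum_add_distrib]
  refine Finset.sum_le_sum fun w _ => ?_
  have h1 : (H (b + w) + K (b + w) - (GA_m H b + GA_m K b)) ^ 2 ≤
      2 * (H (b + w) - GA_m H b) ^ 2 + 2 * (K (b + w) - GA_m K b) ^ 2 := by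
    nlinarith [sq_nonneg ((H (b + w) - GA_m H b) - (K (b + w) - GA_m K b))]
  have h2 := mul_le_mul_of_nonneg_left h1 (stp_nonneg (d := d) (n := n) w)
  linarith

theorem GamB_le (hd : 1 ≤ d) (H K : Tor d n → ℝ) (b : Tor d n) {g g' : ℝ} (hg : 0 ≤ g)
    (hg' : 0 ≤ g') (h : ∀ w, stp d n w ≠ 0 → |H (b + w) - H b| ≤ g)
    (h' : ∀ w, stp d n w ≠ 0 → |K (b + w) - K b| ≤ g') : |GamB H K b| ≤ 2 * (g * g') := by
  have h1 : ∑ w, stp d n w = 1 := stp_sum hd
  rw [GA_cov hd H K b (H b) (K b)]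
  have key : ∀ (X : Tor d n → ℝ) (γ : ℝ), (∀ w, stp d n w ≠ 0 → |X w| ≤ γ) →
      |∑ w, stp d n w * X w| ≤ γ := by
    intro X γ hX
    calc |∑ w, stp d n w * X w| ≤ ∑ w, |stp d n w * X w| := Finset.abs_sum_le_sum_abs _ _
      _ ≤ ∑ w, stp d n w * γ := by
          refine Finset.sum_le_sum fun w _ => ?_
          rw [abs_mul, abs_of_nonneg (stp_nonneg w)]
          by_cases hw : stp d n w = 0
          · rw [hw, zero_mul, zero_mul]
          · exact mul_le_mul_of_nonneg_left (hX w hw) (stp_nonneg w)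
      _ = γ := by rw [← Finset.sum_mul, h1, one_mul]
  have k1 := key (fun w => (H (b + w) - H b) * (K (b + w) - K b)) (g * g') (fun w hw => by
    rw [abs_mul]
    exact mul_le_mul (h w hw) (h' w hw) (abs_nonneg _) hg)
  have k2 := key (fun w => H (b + w) - H b) g h
  have k3 := key (fun w => K (b + w) - K b) g' h'
  have k4 : |(∑ w, stp d n w * (H (b + w) - H b)) * (∑ w, stp d n w * (K (b + w) - K b))| ≤
      g * g' := by
    rw [abs_mul]
    exact mul_le_mul k2 k3 (abs_nonneg _) hg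
  refine (abs_sub _ _).trans ?_
  linarith

theorem Gam_le (hd : 1 ≤ d) (H : Tor d n → ℝ) (b : Tor d n) {g : ℝ} (hg : 0 ≤ g)
    (h : ∀ w, stp d n w ≠ 0 → |H (b + w) - H b| ≤ g) : Gam H b ≤ 2 * g ^ 2 := by
  rw [Gam_eq_GamB, pow_two]
  exact (le_abs_self _).trans (GamB_le hd H H b hg hg h h)

theorem GamB_sum_right {ι : Type} (s : Finset ι) (H : Tor d n → ℝ) (K : ι → Tor d n → ℝ)
    (b : Tor d n) : GamB H (fun x => ∑ i ∈ s, K i x) b = ∑ i ∈ s, GamB H (K i) b := by
  have e : ∀ i, GamB H (K i) b = ∑ w, stp d n w * (H (b + w) * K i (b + w)) -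
      (∑ w, stp d n w * H (b + w)) * (∑ w, stp d n w * K i (b + w)) := fun i => rfl
  simp only [e]
  rw [Finset.sum_sub_distrib, ← Finset.mul_sum, GamB, Finset.sum_comm,
    Finset.sum_comm (s := s) (t := Finset.univ) (f := fun i w => stp d n w * K i (b + w))]
  congr 1
  · exact Finset.sum_congr rfl fun w _ => by rw [Finset.mul_sum, Finset.mul_sum]
  · congr 1
    exact Finset.sum_congr rfl fun w _ => by rw [Finset.mul_sum]

private lemma GA_comm (H K : Tor d n → ℝ) (b : Tor d n) : GamB H K b = GamB K H b := by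
  rw [GamB, GamB, mul_comm (∑ w, stp d n w * H (b + w))]
  congr 1
  exact Finset.sum_congr rfl fun w _ => by ring

theorem Gam_sum {ι : Type} (s : Finset ι) (H : ι → Tor d n → ℝ) (b : Tor d n) :
    Gam (fun x => ∑ i ∈ s, H i x) b = ∑ i ∈ s, ∑ j ∈ s, GamB (H i) (H j) b := by
  rw [Gam_eq_GamB, GamB_sum_right, Finset.sum_comm]
  refine Finset.sum_congr rfl fun j _ => ?_
  rw [GA_comm, GamB_sum_right]
  exact Finset.sum_congr rfl fun i _ => GA_comm _ _ _

theorem GamB_const (hd : 1 ≤ d) (H : Tor d n → ℝ) (c : ℝ) (b : Tor d n) :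
    GamB H (fun _ => c) b = 0 := by
  have h1 : ∑ w, stp d n w = 1 := stp_sum hd
  rw [GamB]
  have e1 : ∑ w, stp d n w * (H (b + w) * c) = (∑ w, stp d n w * H (b + w)) * c := by
    rw [Finset.sum_mul]
    exact Finset.sum_congr rfl fun w _ => by ring
  rw [e1, ← Finset.sum_mul, h1]
  ring

theorem GamB_shift (H K : Tor d n → ℝ) (x b : Tor d n) :
    GamB (fun y => H (y - x)) (fun y => K (y - x)) b = GamB H K (b - x) := by
  have e : ∀ w : Tor d n, b + w - x = b - x + w := fun w => by abel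
  simp only [GamB, e]

end CRW
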