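import Pool.Agent.Lib.CRW.PA2

/-!
# Kernel group, KA: unimodality and the sign of the gradient

`hk r` is even in every coordinate (`hk_even`: induction on `r`; reflecting the coordinate `i`
permutes the step distribution) and for `m : ℕ` with `2 (m+1) ≤ n`
`hk r (z with z_i = m+1) ≤ hk r (z with z_i = m)` (`hk_uni`).
Induction on `r` with `stp_expand`: `hk (r+1) z = 1/2 hk r z + 1/(4d) ∑_l (hk r (z+e_l) + hk r (z-e_l))`.
For `l ≠ i` the differences `Δ(x) = hk r x - hk r (x+e_i)` at `x = z ± e_l` are `≥ 0`.  For `l = i` the two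
terms `Δ(z ± e_i)/(4d)` are `≥ 0`, or `≥ -Δ(z)/(4d)` at the ends by evenness: `m = 0`: `Δ(z-e_i) = -Δ(z)`;
`2(m+1) = n`: `Δ(z+e_i) = -Δ(z)`; `2(m+1) = n-1`: `Δ(z+e_i) = 0`; and `1/2 - 2/(4d) ≥ 0`.
`hk_grad_sign`: `w = 0` trivial; `w = ± e_i`: write `z_i` as `m` or `-m` with `2 m ≤ n`, `z_i ± 1` is then
the next or the previous one in absolute value; use `hk_even`, `hk_uni`.
-/

open Finset

namespace CRW

variable {d n : ℕ} [NeZero n]

private theorem ka_rec (r : ℕ) (z : Tor d n) :
    hk d n (r + 1) z = 1 / 2 * hk d n r z + ∑ l : Fin d, 1 / (4 * (d : ℝ)) *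
      (hk d n r (z + Pi.single l 1) + hk d n r (z + -Pi.single l 1)) := by
  have h := stp_expand (d := d) (n := n) (fun w => hk d n r (z + w))
  simp only [smul_eq_mul, add_zero] at h
  exact h

private theorem ka_upd_single (z : Tor d n) (i : Fin d) (a b : ZMod n) :
    Function.update z i a + Pi.single i b = Function.update z i (a + b) := by
  funext j
  by_cases hj : j = i
  · subst hj
    simp
  · simp [hj]

private theorem ka_upd_single_ne (z : Tor d n) {i l : Fin d} (h : l ≠ i) (a b : ZMod n) :
    Function.update z i a + Pi.single l b = Function.update (z + Pi.single l b) i a := by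
  funext j
  by_cases hj : j = i
  · subst hj
    simp [Pi.single_eq_of_ne' h]
  · simp [hj]

private theorem ka_neg_single (l : Fin d) : -(Pi.single l 1 : Tor d n) = Pi.single l (-1) := by
  rw [Pi.single_neg]

theorem hk_even (r : ℕ) (z : Tor d n) (i : Fin d) :
    hk d n r (Function.update z i (-(z i))) = hk d n r z := by
  induction r generalizing z with
  | zero =>
    have h : Function.update z i (-(z i)) = 0 ↔ z = 0 := by
      constructor
      · intro h
        funext j
        have h1 := congrFun h j
        by_cases hj : j = i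
        · subst hj
          simpa using h1
        · simpa [hj] using h1
      · rintro rfl
        funext j
        by_cases hj : j = i
        · subst hj
          simp
        · simp [hj]
    change (if Function.update z i (-(z i)) = 0 then (1 : ℝ) else 0) = if z = 0 then 1 else 0
    simp only [h]
  | succ r ih =>
    rw [ka_rec, ka_rec, ih]
    congr 1
    refine Finset.sum_congr rfl fun l _ => ?_
    congr 1
    simp only [ka_neg_single]
    by_cases hl : l = i
    · subst hl
      rw [ka_upd_single, ka_upd_single, ← ih (z + Pi.single l 1), ← ih (z + Pi.single l (-1))]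
      have h1 : Function.update (z + Pi.single l 1) l (-((z + Pi.single l 1 : Tor d n) l)) =
          Function.update z l (-(z l) + -1) := by
        funext j
        by_cases hj : j = l
        · subst hj
          simp [add_comm]
        · simp [hj]
      have h2 : Function.update (z + Pi.single l (-1)) l (-((z + Pi.single l (-1) : Tor d n) l)) =
          Function.update z l (-(z l) + 1) := by
        funext j
        by_cases hj : j = l
        · subst hj
          simp [add_comm]
        · simp [hj]
      rw [h1, h2, add_comm]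
    · rw [ka_upd_single_ne z hl, ka_upd_single_ne z hl, ← ih (z + Pi.single l 1),
        ← ih (z + Pi.single l (-1))]
      simp only [Pi.add_apply, Pi.single_eq_of_ne' hl, add_zero]

private theorem ka_even' (r : ℕ) (z : Tor d n) (i : Fin d) {a b : ZMod n} (h : a = -b) :
    hk d n r (Function.update z i a) = hk d n r (Function.update z i b) := by
  have h1 := hk_even r (Function.update z i b) i
  rw [Function.update_self, Function.update_idem] at h1
  rw [h, h1]

private theorem ka_cast_ne {m : ℕ} (hm : 2 * (m + 1) ≤ n) : ((m + 1 : ℕ) : ZMod n) ≠ 0 := by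
  intro h
  rw [ZMod.natCast_eq_zero_iff] at h
  have := Nat.le_of_dvd (by omega) h
  omega

theorem hk_uni (hd : 1 ≤ d) (r : ℕ) (z : Tor d n) (i : Fin d) (m : ℕ) (hm : 2 * (m + 1) ≤ n) :
    hk d n r (Function.update z i ((m + 1 : ℕ) : ZMod n)) ≤
      hk d n r (Function.update z i ((m : ℕ) : ZMod n)) := by
  induction r generalizing z m with
  | zero =>
    have h : Function.update z i ((m + 1 : ℕ) : ZMod n) ≠ 0 := by
      intro h
      have h1 := congrFun h i
      rw [Function.update_self] at h1
      exact ka_cast_ne hm h1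
    have h2 : hk d n 0 (Function.update z i ((m + 1 : ℕ) : ZMod n)) = 0 := if_neg h
    rw [h2]
    exact hk_nonneg _ _
  | succ r ih =>
    have hd0 : (1 : ℝ) ≤ d := by exact_mod_cast hd
    set f : ZMod n → ℝ := fun c => hk d n r (Function.update z i c) with hf
    set Δ : ℝ := f (m : ℕ) - f ((m + 1 : ℕ) : ZMod n) with hΔ
    have hΔ0 : 0 ≤ Δ := sub_nonneg.2 (ih z m hm)
    have hA : -Δ ≤ f ((m : ℕ) + -1) - f (m : ℕ) := by
      rcases Nat.eq_zero_or_pos m with h0 | h0
      · have h1 : f ((m : ℕ) + -1) = f ((m + 1 : ℕ) : ZMod n) :=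
          ka_even' r z i (by rw [h0]; push_cast; ring)
        rw [h1, hΔ]
        linarith
      · have h1 := ih z (m - 1) (by omega)
        have h2 : (((m - 1 + 1 : ℕ)) : ZMod n) = (m : ℕ) := by
          congr 1
          omega
        have h3 : ((m - 1 : ℕ) : ZMod n) = (m : ℕ) + -1 := by
          rw [Nat.cast_sub (by omega)]
          push_cast
          ring
        rw [h2, h3] at h1
        have h4 : f (m : ℕ) ≤ f ((m : ℕ) + -1) := h1
        linarith
    have hB : -Δ ≤ f ((m + 1 : ℕ) : ZMod n) - f (((m + 1 : ℕ) : ZMod n) + 1) := by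
      have e1 : ((m + 1 : ℕ) : ZMod n) + 1 = ((m + 1 + 1 : ℕ) : ZMod n) := by
        push_cast
        ring
      by_cases h2 : 2 * (m + 1 + 1) ≤ n
      · have h1 := ih z (m + 1) h2
        rw [e1]
        have h4 : f ((m + 1 + 1 : ℕ) : ZMod n) ≤ f ((m + 1 : ℕ) : ZMod n) := h1
        linarith
      · have h3 : n = 2 * m + 2 ∨ n = 2 * m + 3 := by omega
        rcases h3 with h3 | h3
        · have e2 : (((m + 1 : ℕ) : ZMod n) + 1) = -((m : ℕ) : ZMod n) := by
            rw [eq_neg_iff_add_eq_zero]
            have : ((2 * m + 2 : ℕ) : ZMod n) = 0 := by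
              rw [← h3]
              exact ZMod.natCast_self n
            rw [← this]
            push_cast
            ring
          have h5 : f (((m + 1 : ℕ) : ZMod n) + 1) = f (m : ℕ) := ka_even' r z i e2
          rw [h5, hΔ]
          linarith
        · have e2 : (((m + 1 : ℕ) : ZMod n) + 1) = -((m + 1 : ℕ) : ZMod n) := by
            rw [eq_neg_iff_add_eq_zero]
            have : ((2 * m + 3 : ℕ) : ZMod n) = 0 := by
              rw [← h3]
              exact ZMod.natCast_self n
            rw [← this]
            push_cast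
            ring
          have h5 : f (((m + 1 : ℕ) : ZMod n) + 1) = f ((m + 1 : ℕ) : ZMod n) := ka_even' r z i e2
          rw [h5]
          linarith
    rw [ka_rec, ka_rec]
    set T : Fin d → ZMod n → ℝ := fun l c => 1 / (4 * (d : ℝ)) *
      (hk d n r (Function.update z i c + Pi.single l 1) +
        hk d n r (Function.update z i c + -Pi.single l 1)) with hT
    have hpt : ∀ l : Fin d, (if l = i then -(1 / (2 * (d : ℝ)) * Δ) else 0) ≤
        T l (m : ℕ) - T l ((m + 1 : ℕ) : ZMod n) := by
      intro l
      have hd4 : (0 : ℝ) ≤ 1 / (4 * (d : ℝ)) := by positivity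
      by_cases hl : l = i
      · rw [if_pos hl, hT]
        subst hl
        simp only [ka_neg_single, ka_upd_single]
        have e3 : f ((m : ℕ) + 1) = f ((m + 1 : ℕ) : ZMod n) := by
          congr 1
          push_cast
          ring
        have e4 : f (((m + 1 : ℕ) : ZMod n) + -1) = f (m : ℕ) := by
          congr 1
          push_cast
          ring
        change _ ≤ 1 / (4 * (d : ℝ)) * (f ((m : ℕ) + 1) + f ((m : ℕ) + -1)) - 1 / (4 * (d : ℝ)) *
          (f (((m + 1 : ℕ) : ZMod n) + 1) + f (((m + 1 : ℕ) : ZMod n) + -1))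
        rw [e3, e4, ← mul_sub]
        have h6 : -(2 * Δ) ≤ f ((m + 1 : ℕ) : ZMod n) + f ((m : ℕ) + -1) -
            (f (((m + 1 : ℕ) : ZMod n) + 1) + f (m : ℕ)) := by linarith
        refine le_trans (le_of_eq ?_) (mul_le_mul_of_nonneg_left h6 hd4)
        field_simp
        ring
      · rw [if_neg hl, hT]
        simp only [ka_neg_single, ka_upd_single_ne z hl]
        rw [← mul_sub]
        refine mul_nonneg hd4 ?_
        have h7 := ih (z + Pi.single l 1) m hm
        have h8 := ih (z + Pi.single l (-1)) m hm
        linarith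
    have hsum := Finset.sum_le_sum fun l (_ : l ∈ Finset.univ) => hpt l
    rw [Finset.sum_ite_eq' Finset.univ i, if_pos (Finset.mem_univ i), Finset.sum_sub_distrib] at hsum
    have h9 : 1 / (2 * (d : ℝ)) * Δ ≤ 1 / 2 * Δ := by
      refine mul_le_mul_of_nonneg_right ?_ hΔ0
      apply one_div_le_one_div_of_le <;> linarith
    change 1 / 2 * f ((m + 1 : ℕ) : ZMod n) + ∑ l, T l ((m + 1 : ℕ) : ZMod n) ≤
      1 / 2 * f (m : ℕ) + ∑ l, T l (m : ℕ)
    rw [hΔ] at h9 hsum
    linarith

private theorem ka_key (hd : 1 ≤ d) (z : Tor d n) (i : Fin d) (c : ZMod n) :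
    (∀ r, hk d n r (Function.update z i (c + 1)) ≤ hk d n r (Function.update z i c)) ∨
      (∀ r, hk d n r (Function.update z i c) ≤ hk d n r (Function.update z i (c + 1))) := by
  have hn : 0 < n := Nat.pos_of_ne_zero (NeZero.ne n)
  have hv : ((c.valMinAbs : ℤ) : ZMod n) = c := ZMod.coe_valMinAbs c
  have hab : c.valMinAbs.natAbs ≤ n / 2 := ZMod.natAbs_valMinAbs_le c
  obtain ⟨m, hm⟩ : ∃ m, c.valMinAbs.natAbs = m := ⟨_, rfl⟩
  rw [hm] at hab
  by_cases h0 : 0 ≤ c.valMinAbs
  · have hc : c = (m : ℕ) := by
      rw [← hv, ← hm]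
      have : c.valMinAbs = (c.valMinAbs.natAbs : ℤ) := (Int.natAbs_of_nonneg h0).symm
      rw [this]
      simp
    have e1 : c + 1 = ((m + 1 : ℕ) : ZMod n) := by
      rw [hc]
      push_cast
      ring
    by_cases h2 : 2 * (m + 1) ≤ n
    · left
      intro r
      rw [e1, hc]
      exact hk_uni hd r z i m h2
    · have h3 : n = 2 * m ∨ n = 2 * m + 1 := by omega
      rcases h3 with h3 | h3
      · right
        intro r
        have hm1 : 1 ≤ m := by omega
        have e2 : c + 1 = -((m - 1 : ℕ) : ZMod n) := by
          rw [e1, eq_neg_iff_add_eq_zero, Nat.cast_sub hm1]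
          have : ((2 * m : ℕ) : ZMod n) = 0 := by
            rw [← h3]
            exact ZMod.natCast_self n
          rw [← this]
          push_cast
          ring
        rw [ka_even' r z i e2, hc]
        have h4 := hk_uni hd r z i (m - 1) (by omega)
        rwa [Nat.sub_add_cancel hm1] at h4
      · left
        intro r
        have e2 : c + 1 = -((m : ℕ) : ZMod n) := by
          rw [e1, eq_neg_iff_add_eq_zero]
          have : ((2 * m + 1 : ℕ) : ZMod n) = 0 := by
            rw [← h3]
            exact ZMod.natCast_self n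
          rw [← this]
          push_cast
          ring
        rw [ka_even' r z i e2, hc]
  · right
    intro r
    have hm1 : 1 ≤ m := by
      rw [← hm]
      omega
    have hc : c = -((m : ℕ) : ZMod n) := by
      rw [← hv, ← hm]
      have : c.valMinAbs = -(c.valMinAbs.natAbs : ℤ) := by omega
      rw [this]
      simp
    have e2 : c + 1 = -((m - 1 : ℕ) : ZMod n) := by
      rw [hc, Nat.cast_sub hm1]
      push_cast
      ring
    rw [ka_even' r z i e2, ka_even' r z i hc]
    have h4 := hk_uni hd r z i (m - 1) (by omega)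
    rwa [Nat.sub_add_cancel hm1] at h4

private theorem ka_pos (hd : 1 ≤ d) (z : Tor d n) (i : Fin d) :
    (∀ r, hk d n r (z + Pi.single i 1) ≤ hk d n r z) ∨
      (∀ r, hk d n r z ≤ hk d n r (z + Pi.single i 1)) := by
  have h := ka_key hd z i (z i)
  rw [Function.update_eq_self] at h
  have e : Function.update z i (z i + 1) = z + Pi.single i 1 := by
    rw [← ka_upd_single, Function.update_eq_self]
  rwa [e] at h

/-- the sign of the increment does not depend on the time -/
theorem hk_grad_sign (hd : 1 ≤ d) (z w : Tor d n) (hw : stp d n w ≠ 0) :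
    (∀ r, hk d n r (z + w) ≤ hk d n r z) ∨ (∀ r, hk d n r z ≤ hk d n r (z + w)) := by
  by_cases h0 : w = 0
  · left
    intro r
    rw [h0, add_zero]
  by_cases h1 : ∃ i : Fin d, w = Pi.single i 1
  · obtain ⟨i, rfl⟩ := h1
    exact ka_pos hd z i
  by_cases h2 : ∃ i : Fin d, w = -Pi.single i 1
  · obtain ⟨i, rfl⟩ := h2
    have h := ka_pos hd (z + -Pi.single i 1) i
    rw [neg_add_cancel_right] at h
    exact h.symm
  · exfalso
    apply hw
    unfold stp
    rw [if_neg h0, zero_add]
    refine Finset.sum_eq_zero fun i _ => ?_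
    rw [if_neg fun h => h1 ⟨i, h⟩, if_neg fun h => h2 ⟨i, h⟩]
    simp

end CRW
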