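import Pool.Agent.Lib.CRW.KA
import Pool.Agent.Lib.CRW.FO1

/-!
# Kernel group, KB: Poissonisation

`qc n s a`: kernel at time `s` of the one-dimensional continuous time walk on `ZMod n`.
`pois_prod`: real part of `hk_inv`; `∑_r e^{-s} s^r/r! lam^r = e^{-s(1-lam)}`, and
`1 - lam ξ = d⁻¹ ∑ sin²(π ξ_i/n)` (`1 - cos 2x = 2 sin² x`), so the sum over `ξ` factorises:
work with complex exponentials `ch ξ z = ∏ stdAddChar (ξ_i z_i)` and `Fintype.piFinset`/`Finset.prod_univ_sum`;
`∑_k e^{-s sin²} stdAddChar(k a)` is real (pair `k`, `-k`) and equals `n * qc n s a`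
(`stdAddChar(k a)` has real part `cos(2π k a/n)`).
`qc_one` is the case `d = 1`; together with `hk_nonneg`, `hk_uni`, `hk_sum` it gives the rest.
-/

open Finset

namespace CRW

noncomputable def qc (n : ℕ) [NeZero n] (s : ℝ) (a : ZMod n) : ℝ :=
  (n : ℝ)⁻¹ * ∑ k : ZMod n, Real.exp (-(s * Real.sin (Real.pi * k.valMinAbs / n) ^ 2)) *
    Real.cos (2 * Real.pi * ((k.valMinAbs : ℝ) * (a.valMinAbs : ℝ)) / n)

/-- the multiplier -/
private noncomputable def ex (n : ℕ) (s : ℝ) (k : ZMod n) : ℝ :=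
  Real.exp (-(s * Real.sin (Real.pi * k.valMinAbs / n) ^ 2))

private theorem vma_neg {n : ℕ} (k : ZMod n) :
    ((-k).valMinAbs : ℝ) = (k.valMinAbs : ℝ) ∨ ((-k).valMinAbs : ℝ) = -(k.valMinAbs : ℝ) := by
  have h := ZMod.natAbs_valMinAbs_neg k
  rcases Int.natAbs_eq_natAbs_iff.1 h with h | h
  · left; rw [h]
  · right; rw [h]; push_cast; ring

private theorem ex_neg {n : ℕ} (s : ℝ) (k : ZMod n) : ex n s (-k) = ex n s k := by
  unfold ex
  rcases vma_neg k with h | h
  · rw [h]
  · rw [h]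
    congr 2
    rw [show Real.pi * -(k.valMinAbs : ℝ) / n = -(Real.pi * (k.valMinAbs : ℝ) / n) by ring,
      Real.sin_neg]
    ring

private theorem ex_add {n : ℕ} (s t : ℝ) (k : ZMod n) : ex n (s + t) k = ex n s k * ex n t k := by
  unfold ex
  rw [← Real.exp_add]
  congr 1
  ring

private theorem std_mul {n : ℕ} [NeZero n] (k a : ZMod n) : (ZMod.stdAddChar (k * a) : ℂ) =
    Complex.exp ((2 * Real.pi * ((k.valMinAbs : ℝ) * (a.valMinAbs : ℝ)) / n : ℝ) * Complex.I) := by
  have h1 := ZMod.stdAddChar_coe (N := n) (k.valMinAbs * a.valMinAbs)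
  rw [Int.cast_mul, ZMod.coe_valMinAbs, ZMod.coe_valMinAbs] at h1
  rw [h1]
  congr 1
  push_cast
  ring

private theorem std_mul_re {n : ℕ} [NeZero n] (k a : ZMod n) : (ZMod.stdAddChar (k * a) : ℂ).re =
    Real.cos (2 * Real.pi * ((k.valMinAbs : ℝ) * (a.valMinAbs : ℝ)) / n) := by
  rw [std_mul, Complex.exp_ofReal_mul_I_re]

private theorem conj_sum {n : ℕ} [NeZero n] (s : ℝ) (a : ZMod n) :
    (starRingEnd ℂ) (∑ k : ZMod n, (ex n s k : ℂ) * ZMod.stdAddChar (k * a)) =
      ∑ k : ZMod n, (ex n s k : ℂ) * ZMod.stdAddChar (k * a) := by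
  rw [map_sum, ← Equiv.sum_comp (Equiv.neg (ZMod n))]
  apply Finset.sum_congr rfl
  intro k _
  rw [map_mul, Complex.conj_ofReal, Equiv.neg_apply, ex_neg, neg_mul, AddChar.map_neg_eq_conj,
    Complex.conj_conj]

private theorem qc_complex {n : ℕ} [NeZero n] (s : ℝ) (a : ZMod n) :
    (qc n s a : ℂ) = (n : ℂ)⁻¹ * ∑ k : ZMod n, (ex n s k : ℂ) * ZMod.stdAddChar (k * a) := by
  have h1 : ((∑ k : ZMod n, (ex n s k : ℂ) * ZMod.stdAddChar (k * a)).re : ℂ) =
      ∑ k : ZMod n, (ex n s k : ℂ) * ZMod.stdAddChar (k * a) :=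
    Complex.conj_eq_iff_re.1 (conj_sum s a)
  rw [← h1, Complex.re_sum]
  unfold qc
  push_cast
  congr 1
  apply Finset.sum_congr rfl
  intro k _
  rw [Complex.re_ofReal_mul, std_mul_re]
  unfold ex
  push_cast
  ring

private theorem one_sub_lam' {d n : ℕ} [NeZero n] (hd : 1 ≤ d) (ξ : Tor d n) : 1 - lam ξ =
    (d : ℝ)⁻¹ * ∑ i, Real.sin (Real.pi * (ξ i).valMinAbs / n) ^ 2 := by
  unfold lam
  have hd' : (0:ℝ) < d := by exact_mod_cast hd
  have h1 : ∀ i, Real.sin (Real.pi * (ξ i).valMinAbs / n) ^ 2 =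
      1 / 2 - Real.cos (2 * Real.pi * ((ξ i).valMinAbs : ℝ) / n) / 2 := by
    intro i
    rw [Real.sin_sq_eq_half_sub]
    congr 3
    ring
  rw [Finset.sum_congr rfl fun i _ => h1 i, Finset.sum_sub_distrib,
    ← Finset.sum_div _ (fun i => Real.cos (2 * Real.pi * ((ξ i).valMinAbs : ℝ) / n))]
  simp only [Finset.sum_const, Finset.card_univ, Fintype.card_fin, nsmul_eq_mul]
  generalize ∑ i, Real.cos (2 * Real.pi * ((ξ i).valMinAbs : ℝ) / n) = S
  field_simp
  ring

private theorem exp_lam {d n : ℕ} [NeZero n] (hd : 1 ≤ d) (s : ℝ) (ξ : Tor d n) :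
    Real.exp (-(s * (1 - lam ξ))) = ∏ i, ex n (s / d) (ξ i) := by
  unfold ex
  rw [← Real.exp_sum, one_sub_lam' hd, Finset.sum_neg_distrib, ← Finset.mul_sum]
  congr 2
  ring

private theorem ch_prod {d n : ℕ} [NeZero n] (ξ z : Tor d n) :
    ch ξ z = ∏ i, (ZMod.stdAddChar (ξ i * z i) : ℂ) := by
  unfold ch
  induction (Finset.univ : Finset (Fin d)) using Finset.induction_on with
  | empty => simp
  | insert a s ha ih => rw [Finset.sum_insert ha, Finset.prod_insert ha, AddChar.map_add_eq_mul, ih]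

private theorem pois_exp (s x : ℝ) :
    HasSum (fun r : ℕ => Real.exp (-s) * s ^ r / r.factorial * x ^ r)
      (Real.exp (-(s * (1 - x)))) := by
  have h := NormedSpace.expSeries_div_hasSum_exp (𝔸 := ℝ) (s * x)
  rw [← Real.exp_eq_exp_ℝ] at h
  have h2 := h.mul_left (Real.exp (-s))
  rw [← Real.exp_add, show -s + s * x = -(s * (1 - x)) by ring] at h2
  have h3 : (fun r : ℕ => Real.exp (-s) * s ^ r / r.factorial * x ^ r) =
      fun r : ℕ => Real.exp (-s) * ((s * x) ^ r / r.factorial) := by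
    funext r
    rw [mul_pow]
    ring
  rw [h3]
  exact h2

theorem pois_prod (d n : ℕ) [NeZero n] (hd : 1 ≤ d) (s : ℝ) (hs : 0 ≤ s) (z : Tor d n) :
    HasSum (fun r : ℕ => Real.exp (-s) * s ^ r / r.factorial * hk d n r z)
      (∏ i, qc n (s / d) (z i)) := by
  rw [← Complex.hasSum_ofReal]
  have h1 : ((∏ i, qc n (s / d) (z i) : ℝ) : ℂ) = (NN d n : ℂ)⁻¹ * ∑ ξ : Tor d n,
      ((Real.exp (-(s * (1 - lam ξ))) : ℝ) : ℂ) * ch ξ z := by
    push_cast
    simp only [qc_complex]
    rw [Finset.prod_mul_distrib, Finset.prod_const, Finset.card_univ, Fintype.card_fin,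
      Finset.prod_univ_sum, Fintype.piFinset_univ]
    unfold NN
    push_cast
    rw [inv_pow]
    congr 1
    apply Finset.sum_congr rfl
    intro ξ _
    rw [Finset.prod_mul_distrib, ← ch_prod]
    congr 1
    have := exp_lam hd s ξ
    rw [← Complex.ofReal_prod, ← this]
    push_cast
    rfl
  rw [h1]
  have h2 : ∀ r : ℕ, (((Real.exp (-s) * s ^ r / r.factorial * hk d n r z : ℝ)) : ℂ) =
      (NN d n : ℂ)⁻¹ * ∑ ξ : Tor d n,
        ((Real.exp (-s) * s ^ r / r.factorial * lam ξ ^ r : ℝ) : ℂ) * ch ξ z := by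
    intro r
    have := hk_inv hd r z
    rw [Complex.ofReal_mul, this, mul_left_comm, Finset.mul_sum]
    congr 1
    apply Finset.sum_congr rfl
    intro ξ _
    push_cast
    ring
  simp only [h2]
  refine HasSum.mul_left _ ?_
  refine hasSum_sum fun ξ _ => ?_
  refine HasSum.mul_right _ ?_
  rw [Complex.hasSum_ofReal]
  exact pois_exp s (lam ξ)

theorem qc_one (n : ℕ) [NeZero n] (s : ℝ) (hs : 0 ≤ s) (a : ZMod n) :
    HasSum (fun r : ℕ => Real.exp (-s) * s ^ r / r.factorial * hk 1 n r (fun _ => a))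
      (qc n s a) := by
  have h := pois_prod 1 n le_rfl s hs (fun _ => a)
  simpa using h

theorem qc_nonneg (n : ℕ) [NeZero n] (s : ℝ) (hs : 0 ≤ s) (a : ZMod n) : 0 ≤ qc n s a := by
  refine (qc_one n s hs a).nonneg fun r => ?_
  have := hk_nonneg (d := 1) (n := n) r (fun _ => a)
  positivity

theorem qc_neg (n : ℕ) [NeZero n] (s : ℝ) (hs : 0 ≤ s) (a : ZMod n) :
    qc n s (-a) = qc n s a := by
  unfold qc
  congr 1
  apply Finset.sum_congr rfl
  intro k _
  congr 1
  rcases vma_neg a with h | h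
  · rw [h]
  · rw [h, ← Real.cos_neg]
    congr 1
    ring

theorem qc_uni (n : ℕ) [NeZero n] (s : ℝ) (hs : 0 ≤ s) (m : ℕ) (hm : 2 * (m + 1) ≤ n) :
    qc n s ((m + 1 : ℕ) : ZMod n) ≤ qc n s ((m : ℕ) : ZMod n) := by
  refine hasSum_le (fun r => ?_) (qc_one n s hs _) (qc_one n s hs _)
  have h := hk_uni (d := 1) (n := n) le_rfl r (fun _ => 0) 0 m hm
  have hu : ∀ b : ZMod n, Function.update (fun _ => 0 : Tor 1 n) 0 b = fun _ => b := by
    intro b
    funext i
    rw [Subsingleton.elim i 0, Function.update_self]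
  rw [hu, hu] at h
  refine mul_le_mul_of_nonneg_left h ?_
  positivity

private theorem sum_std {n : ℕ} [NeZero n] (k : ZMod n) :
    ∑ b : ZMod n, (ZMod.stdAddChar (k * b) : ℂ) = if k = 0 then (n : ℂ) else 0 := by
  have h := AddChar.sum_mulShift (R := ZMod n) (R' := ℂ) (ψ := ZMod.stdAddChar) k
    (ZMod.isPrimitive_stdAddChar n)
  simp only [ZMod.card] at h
  have h2 : ∑ b : ZMod n, (ZMod.stdAddChar (k * b) : ℂ) = ∑ b : ZMod n, ZMod.stdAddChar (b * k) := by
    apply Finset.sum_congr rfl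
    intro b _
    rw [mul_comm]
  rw [h2, h]
  split_ifs <;> simp

theorem sum_qc (n : ℕ) [NeZero n] (s : ℝ) (hs : 0 ≤ s) : ∑ a : ZMod n, qc n s a = 1 := by
  have hn : (n : ℂ) ≠ 0 := by exact_mod_cast NeZero.ne n
  have h : ((∑ a : ZMod n, qc n s a : ℝ) : ℂ) = 1 := by
    push_cast
    simp only [qc_complex]
    rw [← Finset.mul_sum, Finset.sum_comm]
    simp only [← Finset.mul_sum, sum_std]
    simp only [mul_ite, mul_zero, Finset.sum_ite_eq', Finset.mem_univ, if_true]
    unfold ex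
    simp
  exact_mod_cast h

/-- semigroup property (Fourier) -/
theorem qc_add (n : ℕ) [NeZero n] (s t : ℝ) (a : ZMod n) :
    qc n (s + t) a = ∑ b : ZMod n, qc n s b * qc n t (a - b) := by
  have hn : (n : ℂ) ≠ 0 := by exact_mod_cast NeZero.ne n
  have h : ((qc n (s + t) a : ℝ) : ℂ) = ((∑ b : ZMod n, qc n s b * qc n t (a - b) : ℝ) : ℂ) := by
    push_cast
    simp only [qc_complex]
    have h1 : ∀ b : ZMod n,
        ((n : ℂ)⁻¹ * ∑ k : ZMod n, (ex n s k : ℂ) * ZMod.stdAddChar (k * b)) *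
        ((n : ℂ)⁻¹ * ∑ l : ZMod n, (ex n t l : ℂ) * ZMod.stdAddChar (l * (a - b))) =
        (n : ℂ)⁻¹ * (n : ℂ)⁻¹ * ∑ k : ZMod n, ∑ l : ZMod n,
          ((ex n s k : ℂ) * (ex n t l : ℂ) * ZMod.stdAddChar (l * a)) *
            ZMod.stdAddChar ((k - l) * b) := by
      intro b
      rw [mul_mul_mul_comm, Finset.sum_mul_sum]
      congr 1
      apply Finset.sum_congr rfl
      intro k _
      apply Finset.sum_congr rfl
      intro l _
      have h2 : (ZMod.stdAddChar (k * b) : ℂ) * ZMod.stdAddChar (l * (a - b)) =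
          ZMod.stdAddChar (l * a) * ZMod.stdAddChar ((k - l) * b) := by
        rw [← AddChar.map_add_eq_mul, ← AddChar.map_add_eq_mul]
        congr 1
        ring
      calc _ = (ex n s k : ℂ) * (ex n t l : ℂ) *
            ((ZMod.stdAddChar (k * b) : ℂ) * ZMod.stdAddChar (l * (a - b))) := by ring
        _ = _ := by rw [h2]; ring
    simp only [h1]
    rw [← Finset.mul_sum, Finset.sum_comm]
    have h3 : ∀ k : ZMod n, ∑ b : ZMod n, ∑ l : ZMod n,
          ((ex n s k : ℂ) * (ex n t l : ℂ) * ZMod.stdAddChar (l * a)) *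
            ZMod.stdAddChar ((k - l) * b) =
        (n : ℂ) * ((ex n (s + t) k : ℂ) * ZMod.stdAddChar (k * a)) := by
      intro k
      rw [Finset.sum_comm]
      simp only [← Finset.mul_sum, sum_std]
      rw [Finset.sum_eq_single k]
      · rw [sub_self, if_pos rfl, ex_add]
        push_cast
        ring
      · intro l _ hl
        rw [if_neg (sub_ne_zero.2 (Ne.symm hl)), mul_zero]
      · intro h
        exact absurd (Finset.mem_univ _) h
    simp only [h3]
    rw [← Finset.mul_sum]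
    field_simp
  exact_mod_cast h

private noncomputable def Gf : ℕ → ℝ → ℝ
  | 0, x => -Real.exp (-x)
  | r + 1, x => Gf r x - Real.exp (-x) * x ^ (r + 1) / (r + 1).factorial

private theorem Gf_deriv (r : ℕ) (x : ℝ) :
    HasDerivAt (Gf r) (Real.exp (-x) * x ^ r / r.factorial) x := by
  induction r with
  | zero =>
    have h := ((hasDerivAt_neg x).exp).neg
    have e : Gf 0 = -fun x => Real.exp (-x) := rfl
    rw [e]
    refine h.congr_deriv ?_
    simp
  | succ r ih =>
    have h := ih.sub ((((hasDerivAt_neg x).exp).mul (hasDerivAt_pow (r + 1) x)).div_const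
      ((r + 1).factorial : ℝ))
    have e : Gf (r + 1) = fun x => Gf r x - Real.exp (-x) * x ^ (r + 1) / (r + 1).factorial := rfl
    rw [e]
    refine HasDerivAt.congr_deriv h ?_
    have hf : ((r + 1).factorial : ℝ) = (r + 1) * r.factorial := by
      rw [Nat.factorial_succ]; push_cast; ring
    have h0 : (r.factorial : ℝ) ≠ 0 := by positivity
    have h1 : ((r : ℝ) + 1) ≠ 0 := by positivity
    rw [hf]
    simp only [Nat.add_sub_cancel]
    push_cast
    field_simp
    ring

private theorem Gf_eq (r : ℕ) (x : ℝ) :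
    Gf r x = -(Real.exp (-x) * ∑ k ∈ range (r + 1), x ^ k / k.factorial) := by
  induction r with
  | zero => simp [Gf]
  | succ r ih =>
    rw [Finset.sum_range_succ, mul_add, neg_add, ← ih]
    show Gf r x - _ = _
    ring

/-- `P(Gamma(r+1) ≤ L) ≥ 1/2`, by Markov: `∫_0^∞ e^{-s}s^r/r! = 1`, `∫_0^∞ s e^{-s}s^r/r! = r+1` -/
theorem pois_cut (L : ℝ) (r : ℕ) (h : 2 * ((r : ℝ) + 1) ≤ L) :
    1 / 2 ≤ ∫ s in (0 : ℝ)..L, Real.exp (-s) * s ^ r / r.factorial := by
  have hL : 0 < L := by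
    have : (0:ℝ) ≤ r := Nat.cast_nonneg r
    linarith
  have h1 : ∫ s in (0 : ℝ)..L, Real.exp (-s) * s ^ r / r.factorial = Gf r L - Gf r 0 := by
    apply intervalIntegral.integral_eq_sub_of_hasDerivAt
    · intro x _
      exact Gf_deriv r x
    · apply Continuous.intervalIntegrable
      fun_prop
  have h2 : Gf r 0 = -1 := by
    rw [Gf_eq, Finset.sum_range_succ']
    simp
  -- comparison of the two halves
  have h3 : ∀ k ≤ r, L ^ k / k.factorial ≤ L ^ (2 * r + 1 - k) / (2 * r + 1 - k).factorial := by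
    intro k hk
    -- generic monotonicity
    have h4 : ∀ j : ℕ, k + j ≤ 2 * r + 1 → L ^ k / k.factorial ≤ L ^ (k + j) / (k + j).factorial := by
      intro j
      induction j with
      | zero => intro _; simp
      | succ j ih =>
        intro hj
        refine (ih (by omega)).trans ?_
        have h5 : L ^ (k + (j + 1)) / (k + (j + 1)).factorial =
            L ^ (k + j) / (k + j).factorial * (L / (k + j + 1 : ℕ)) := by
          rw [← Nat.add_assoc, Nat.factorial_succ, pow_succ]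
          push_cast
          field_simp
        rw [h5]
        have h6 : 1 ≤ L / (k + j + 1 : ℕ) := by
          rw [le_div_iff₀ (by positivity)]
          have : ((k + j + 1 : ℕ) : ℝ) ≤ ((2 * r + 1 : ℕ) : ℝ) := by exact_mod_cast (by omega)
          push_cast at this ⊢
          linarith
        have h7 : 0 ≤ L ^ (k + j) / (k + j).factorial := by positivity
        exact le_mul_of_one_le_right h7 h6
    have := h4 (2 * r + 1 - k - k) (by omega)
    rwa [show k + (2 * r + 1 - k - k) = 2 * r + 1 - k by omega] at this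
  have h4 : ∑ k ∈ range (r + 1), L ^ k / k.factorial ≤
      ∑ k ∈ range (r + 1), L ^ (r + 1 + k) / (r + 1 + k).factorial := by
    rw [← Finset.sum_range_reflect (fun k => L ^ (r + 1 + k) / ((r + 1 + k).factorial : ℝ)) (r + 1)]
    apply Finset.sum_le_sum
    intro k hk
    rw [Finset.mem_range] at hk
    have := h3 k (by omega)
    rwa [show r + 1 + (r + 1 - 1 - k) = 2 * r + 1 - k by omega]
  have h5 : ∑ k ∈ range (r + 1), L ^ k / k.factorial +
      ∑ k ∈ range (r + 1), L ^ (r + 1 + k) / (r + 1 + k).factorial ≤ Real.exp L := by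
    rw [← Finset.sum_range_add (fun k => L ^ k / (k.factorial : ℝ)) (r + 1) (r + 1)]
    exact Real.sum_le_exp_of_nonneg hL.le _
  have h6 : Real.exp (-L) * ∑ k ∈ range (r + 1), L ^ k / k.factorial ≤ 1 / 2 := by
    have h7 : ∑ k ∈ range (r + 1), L ^ k / k.factorial ≤ Real.exp L / 2 := by linarith
    calc _ ≤ Real.exp (-L) * (Real.exp L / 2) :=
          mul_le_mul_of_nonneg_left h7 (Real.exp_pos _).le
      _ = 1 / 2 := by
        rw [← mul_div_assoc, ← Real.exp_add]
        simp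
  rw [h1, h2, Gf_eq]
  linarith

end CRW
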