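import Pool.Agent.Lib.CRW.KB

/-!
# Kernel group, KC: sup bounds in dimension one

`theta_sum`: `∑_{k≥1} e^{-a k²} ≤ ∫_0^∞ e^{-a x²} dx = √(π/a)/2` (antitone sum/integral comparison), or
elementary: `≤ 2/√a` in total.  Jordan: `sin²(π k/n) ≥ 4k²/n²` for `|k| ≤ n/2` (`Real.mul_le_sin`).
`qc ≤ n⁻¹ ∑ exp(-4 s k²/n²) ≤ 1/n + C/√s` and `≤ 1` (`sum_qc`, `qc_nonneg`); for `s ≤ 3n²` this is
`≤ C (1+s)^{-1/2}`.  Gradient: `|cos - cos| ≤ 2π|k|/n` (`a ↦ a+1`; use that `cos(2π k a/n)` only depends on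
`k`, `a` mod `n`), `n⁻¹ ∑ exp(-4 s k²/n²) 2π|k|/n ≤ C/s` for `0 < s ≤ 3 n²`
(`|k| e^{-αk²} ≤ α^{-1/2} e^{-αk²/2}`), and `≤ 1`.
`qc_grad_l1`: by `qc_uni`, `qc_neg` the sum of the absolute increments telescopes on both halves of
the circle.
-/

open Finset

namespace CRW

/-- `exp (-(a k²)) ≤ (arctan (√a k) - arctan (√a (k - 1))) / √a` -/
private theorem kc_term {a : ℝ} (ha : 0 < a) (k : ℕ) :
    Real.exp (-(a * ((k + 1 : ℕ) : ℝ) ^ 2)) ≤
      (Real.arctan (Real.sqrt a * ((k + 1 : ℕ) : ℝ)) - Real.arctan (Real.sqrt a * (k : ℝ))) /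
        Real.sqrt a := by
  have hs : 0 < Real.sqrt a := Real.sqrt_pos.2 ha
  have hlt : Real.sqrt a * (k : ℝ) < Real.sqrt a * ((k + 1 : ℕ) : ℝ) := by
    push_cast
    nlinarith
  obtain ⟨c, hc, hce⟩ := exists_hasDerivAt_eq_slope Real.arctan (fun x => 1 / (1 + x ^ 2)) hlt
    Real.continuous_arctan.continuousOn (fun x _ => Real.hasDerivAt_arctan x)
  have hd : Real.sqrt a * ((k + 1 : ℕ) : ℝ) - Real.sqrt a * (k : ℝ) = Real.sqrt a := by
    push_cast; ring
  rw [hd] at hce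
  rw [← hce]
  have hk : (0 : ℝ) ≤ k := Nat.cast_nonneg k
  have hc0 : 0 ≤ c := (mul_nonneg hs.le hk).trans hc.1.le
  have hc2 : c ^ 2 ≤ a * ((k + 1 : ℕ) : ℝ) ^ 2 := by
    have h1 : c ^ 2 ≤ (Real.sqrt a * ((k + 1 : ℕ) : ℝ)) ^ 2 := pow_le_pow_left₀ hc0 hc.2.le 2
    rwa [mul_pow, Real.sq_sqrt ha.le] at h1
  have h2 : a * ((k + 1 : ℕ) : ℝ) ^ 2 + 1 ≤ Real.exp (a * ((k + 1 : ℕ) : ℝ) ^ 2) :=
    Real.add_one_le_exp _
  rw [Real.exp_neg, inv_eq_one_div]
  apply one_div_le_one_div_of_le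
  · positivity
  · linarith

private theorem kc_sum {a : ℝ} (ha : 0 < a) (N : ℕ) :
    ∑ k ∈ range N, Real.exp (-(a * ((k + 1 : ℕ) : ℝ) ^ 2)) ≤ 2 / Real.sqrt a := by
  have hs : 0 < Real.sqrt a := Real.sqrt_pos.2 ha
  have h1 : ∑ k ∈ range N, Real.exp (-(a * ((k + 1 : ℕ) : ℝ) ^ 2)) ≤
      ∑ k ∈ range N, (Real.arctan (Real.sqrt a * ((k + 1 : ℕ) : ℝ)) / Real.sqrt a -
        Real.arctan (Real.sqrt a * (k : ℝ)) / Real.sqrt a) := by
    refine Finset.sum_le_sum fun k _ => (kc_term ha k).trans_eq (sub_div _ _ _)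
  refine h1.trans ?_
  rw [Finset.sum_range_sub (fun k : ℕ => Real.arctan (Real.sqrt a * (k : ℝ)) / Real.sqrt a)]
  simp only [Nat.cast_zero, mul_zero, Real.arctan_zero, zero_div, sub_zero]
  apply div_le_div_of_nonneg_right _ hs.le
  have h2 := Real.arctan_lt_pi_div_two (Real.sqrt a * (N : ℝ))
  have h3 := Real.pi_lt_four
  linarith

/-- a sum over `ZMod n` of a function of `|valMinAbs|` -/
private theorem kc_fold (n : ℕ) [NeZero n] (f : ℕ → ℝ) (hf : ∀ k, 0 ≤ f k) :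
    ∑ m : ZMod n, f m.valMinAbs.natAbs ≤ f 0 + 2 * ∑ k ∈ range n, f (k + 1) := by
  classical
  rw [← Finset.add_sum_erase Finset.univ (fun m : ZMod n => f m.valMinAbs.natAbs)
    (Finset.mem_univ 0)]
  simp only [ZMod.valMinAbs_zero, Int.natAbs_zero]
  apply add_le_add le_rfl
  have hmaps : ∀ m ∈ (Finset.univ : Finset (ZMod n)).erase 0,
      m.valMinAbs.natAbs ∈ Finset.Icc 1 n := by
    intro m hm
    rw [Finset.mem_Icc]
    have h1 := ZMod.natAbs_valMinAbs_le m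
    have h2 : m.valMinAbs ≠ 0 := by
      intro h0
      exact (Finset.mem_erase.1 hm).1 ((ZMod.valMinAbs_eq_zero m).1 h0)
    have h3 := Int.natAbs_pos.2 h2
    omega
  rw [← Finset.sum_fiberwise_of_maps_to hmaps]
  have hle : ∀ k ∈ Finset.Icc 1 n,
      ∑ m ∈ ((Finset.univ : Finset (ZMod n)).erase 0).filter (fun m => m.valMinAbs.natAbs = k),
        f m.valMinAbs.natAbs ≤ 2 * f k := by
    intro k _
    have h1 : ∀ m ∈ ((Finset.univ : Finset (ZMod n)).erase 0).filter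
        (fun m => m.valMinAbs.natAbs = k), f m.valMinAbs.natAbs = f k := by
      intro m hm
      rw [(Finset.mem_filter.1 hm).2]
    rw [Finset.sum_congr rfl h1, Finset.sum_const, nsmul_eq_mul]
    apply mul_le_mul_of_nonneg_right _ (hf k)
    have hsub : ((Finset.univ : Finset (ZMod n)).erase 0).filter
        (fun m => m.valMinAbs.natAbs = k) ⊆ {((k : ℕ) : ZMod n), -((k : ℕ) : ZMod n)} := by
      intro m hm
      have h2 := (Finset.mem_filter.1 hm).2
      have h3 : (m.valMinAbs : ZMod n) = m := ZMod.coe_valMinAbs m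
      rcases Int.natAbs_eq m.valMinAbs with h4 | h4
      · rw [h4, h2] at h3
        rw [Finset.mem_insert]
        left
        rw [← h3]
        push_cast
        rfl
      · rw [h4, h2] at h3
        rw [Finset.mem_insert, Finset.mem_singleton]
        right
        rw [← h3]
        push_cast
        rfl
    have h4 := (Finset.card_le_card hsub).trans Finset.card_le_two
    exact_mod_cast h4
  refine (Finset.sum_le_sum hle).trans ?_
  rw [← Finset.mul_sum]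
  apply le_of_eq
  congr 1
  rw [Finset.range_eq_Ico, Finset.sum_Ico_add' f 0 n 1]
  rfl

private theorem kc_cast (n : ℕ) [NeZero n] (m : ZMod n) :
    (m.valMinAbs : ℝ) ^ 2 = ((m.valMinAbs.natAbs : ℕ) : ℝ) ^ 2 := by
  rw [Nat.cast_natAbs, Int.cast_abs, sq_abs]

private theorem kc_theta (n : ℕ) [NeZero n] (a : ℝ) (ha : 0 < a) :
    ∑ m : ZMod n, Real.exp (-(a * (m.valMinAbs : ℝ) ^ 2)) ≤ 1 + 4 / Real.sqrt a := by
  have h1 := kc_fold n (fun k => Real.exp (-(a * (k : ℝ) ^ 2))) (fun k => (Real.exp_pos _).le)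
  have h2 := kc_sum ha n
  simp only [kc_cast]
  refine h1.trans ?_
  simp only [Nat.cast_zero, ne_eq, OfNat.ofNat_ne_zero, not_false_eq_true, zero_pow, mul_zero,
    neg_zero, Real.exp_zero]
  have h3 : 4 / Real.sqrt a = 2 * (2 / Real.sqrt a) := by ring
  rw [h3]
  linarith

theorem theta_sum : ∃ C : ℝ, 1 ≤ C ∧ ∀ n : ℕ, [NeZero n] → ∀ a : ℝ, 0 < a →
    ∑ m : ZMod n, Real.exp (-(a * (m.valMinAbs : ℝ) ^ 2)) ≤ 1 + C / Real.sqrt a :=
  ⟨4, by norm_num, fun n _ a ha => kc_theta n a ha⟩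

/-- Jordan's inequality for the exponents -/
private theorem kc_jordan (n : ℕ) [NeZero n] {s : ℝ} (hs : 0 ≤ s) (k : ZMod n) :
    Real.exp (-(s * Real.sin (Real.pi * k.valMinAbs / n) ^ 2)) ≤
      Real.exp (-((4 * s / (n : ℝ) ^ 2) * (k.valMinAbs : ℝ) ^ 2)) := by
  have hn : (0 : ℝ) < n := by
    have := Nat.pos_of_ne_zero (NeZero.ne n)
    exact_mod_cast this
  apply Real.exp_le_exp.2
  apply neg_le_neg
  set v : ℝ := (k.valMinAbs : ℝ) with hv
  have habs : |v| ≤ n / 2 := by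
    have h1 := ZMod.natAbs_valMinAbs_le k
    have h2 : ((k.valMinAbs.natAbs : ℕ) : ℝ) ≤ ((n / 2 : ℕ) : ℝ) := by exact_mod_cast h1
    have h3 : ((n / 2 : ℕ) : ℝ) ≤ (n : ℝ) / 2 := Nat.cast_div_le
    rw [Nat.cast_natAbs, Int.cast_abs] at h2
    exact h2.trans h3
  have hx0 : 0 ≤ Real.pi * |v| / n := by positivity
  have hx1 : Real.pi * |v| / n ≤ Real.pi / 2 := by
    rw [div_le_iff₀ hn]
    have := Real.pi_pos
    nlinarith
  have hj := Real.mul_le_sin hx0 hx1
  have e1 : 2 / Real.pi * (Real.pi * |v| / n) = 2 * |v| / n := by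
    have := Real.pi_ne_zero
    field_simp
  rw [e1] at hj
  have hsq : Real.sin (Real.pi * v / n) ^ 2 = Real.sin (Real.pi * |v| / n) ^ 2 := by
    rcases abs_cases v with ⟨h, _⟩ | ⟨h, _⟩
    · rw [h]
    · rw [h]
      have : Real.pi * -v / n = -(Real.pi * v / n) := by ring
      rw [this, Real.sin_neg, neg_sq]
  rw [hsq]
  have h4 : (2 * |v| / n) ^ 2 ≤ Real.sin (Real.pi * |v| / n) ^ 2 :=
    pow_le_pow_left₀ (by positivity) hj 2
  have h5 : 4 * s / (n : ℝ) ^ 2 * v ^ 2 = s * (2 * |v| / n) ^ 2 := by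
    rw [div_pow, mul_pow, sq_abs]
    ring
  rw [h5]
  exact mul_le_mul_of_nonneg_left h4 hs

private theorem kc_npos (n : ℕ) [NeZero n] : (0 : ℝ) < n := by
  have := Nat.pos_of_ne_zero (NeZero.ne n)
  exact_mod_cast this

private theorem kc_one_le (n : ℕ) [NeZero n] : (1 : ℝ) ≤ n := by
  have := Nat.pos_of_ne_zero (NeZero.ne n)
  exact_mod_cast this

private theorem kc_le_one (n : ℕ) [NeZero n] {s : ℝ} (hs : 0 ≤ s) (a : ZMod n) :
    qc n s a ≤ 1 := by
  rw [← sum_qc n s hs]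
  exact Finset.single_le_sum (fun b _ => qc_nonneg n s hs b) (Finset.mem_univ a)

/-- `√n²` and the bound `1 / n ≤ 2 / √s` -/
private theorem kc_sqrt {n s : ℝ} (hn : 0 < n) (hs : 0 < s) (hsn : s ≤ 3 * n ^ 2) :
    1 / n ≤ 2 / Real.sqrt s := by
  have h1 : Real.sqrt s ≤ 2 * n := by
    rw [Real.sqrt_le_left (by positivity)]
    nlinarith
  rw [div_le_div_iff₀ hn (Real.sqrt_pos.2 hs)]
  linarith

theorem qc_sup : ∃ C : ℝ, 1 ≤ C ∧ ∀ n : ℕ, [NeZero n] → ∀ s : ℝ, 0 ≤ s → s ≤ 3 * (n : ℝ) ^ 2 →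
    ∀ a : ZMod n, qc n s a ≤ C * (Real.sqrt (1 + s))⁻¹ := by
  refine ⟨8, by norm_num, fun n _ s hs hsn a => ?_⟩
  have hn := kc_npos n
  have hsq : 0 < Real.sqrt (1 + s) := Real.sqrt_pos.2 (by linarith)
  rcases le_or_gt s 1 with h1 | h1
  · refine (kc_le_one n hs a).trans ?_
    have h2 : Real.sqrt (1 + s) ≤ 2 := by
      rw [Real.sqrt_le_left (by norm_num)]
      linarith
    rw [← div_eq_mul_inv, le_div_iff₀ hsq]
    linarith
  · have hs0 : 0 < s := by linarith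
    have hss : 0 < Real.sqrt s := Real.sqrt_pos.2 hs0
    have h2 : qc n s a ≤ (n : ℝ)⁻¹ *
        ∑ k : ZMod n, Real.exp (-((4 * s / (n : ℝ) ^ 2) * (k.valMinAbs : ℝ) ^ 2)) := by
      unfold qc
      apply mul_le_mul_of_nonneg_left _ (by positivity)
      refine Finset.sum_le_sum fun k _ => ?_
      have h3 : Real.exp (-(s * Real.sin (Real.pi * k.valMinAbs / n) ^ 2)) *
          Real.cos (2 * Real.pi * ((k.valMinAbs : ℝ) * (a.valMinAbs : ℝ)) / n) ≤
          Real.exp (-(s * Real.sin (Real.pi * k.valMinAbs / n) ^ 2)) * 1 :=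
        mul_le_mul_of_nonneg_left (Real.cos_le_one _) (Real.exp_pos _).le
      rw [mul_one] at h3
      exact h3.trans (kc_jordan n hs k)
    have h3 := kc_theta n (4 * s / (n : ℝ) ^ 2) (by positivity)
    have h4 : Real.sqrt (4 * s / (n : ℝ) ^ 2) = 2 * Real.sqrt s / n := by
      rw [Real.sqrt_div (by positivity), Real.sqrt_sq hn.le, Real.sqrt_mul (by norm_num)]
      have : Real.sqrt 4 = 2 := by
        rw [show (4 : ℝ) = 2 ^ 2 by norm_num, Real.sqrt_sq (by norm_num)]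
      rw [this]
    rw [h4] at h3
    have h5 : qc n s a ≤ (n : ℝ)⁻¹ * (1 + 4 / (2 * Real.sqrt s / n)) :=
      h2.trans (mul_le_mul_of_nonneg_left h3 (by positivity))
    have h6 : (n : ℝ)⁻¹ * (1 + 4 / (2 * Real.sqrt s / n)) = 1 / n + 2 / Real.sqrt s := by
      field_simp
      ring
    rw [h6] at h5
    have h7 := kc_sqrt hn hs0 hsn
    have h8 : Real.sqrt (1 + s) ≤ 2 * Real.sqrt s := by
      rw [Real.sqrt_le_left (by positivity), mul_pow, Real.sq_sqrt hs]
      linarith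
    have h9 : 4 / Real.sqrt s ≤ 8 * (Real.sqrt (1 + s))⁻¹ := by
      rw [← div_eq_mul_inv, div_le_div_iff₀ hss hsq]
      linarith
    have h10 : 4 / Real.sqrt s = 2 / Real.sqrt s + 2 / Real.sqrt s := by ring
    linarith

/-- the cosine only depends on the residue -/
private theorem kc_cos (n : ℕ) [NeZero n] (k : ℤ) (a : ZMod n) :
    Real.cos (2 * Real.pi * ((k : ℝ) * ((a + 1).valMinAbs : ℝ)) / n) =
      Real.cos (2 * Real.pi * ((k : ℝ) * ((a.valMinAbs : ℝ) + 1)) / n) := by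
  have hn := kc_npos n
  have h1 : (((a + 1).valMinAbs - (a.valMinAbs + 1) : ℤ) : ZMod n) = 0 := by
    simp
  rw [ZMod.intCast_zmod_eq_zero_iff_dvd] at h1
  obtain ⟨j, hj⟩ := h1
  have h2 : ((a + 1).valMinAbs : ℝ) = (a.valMinAbs : ℝ) + 1 + n * j := by
    have h3 : (a + 1).valMinAbs = a.valMinAbs + 1 + n * j := by linarith
    rw [h3]
    push_cast
    ring
  rw [h2]
  have h4 : 2 * Real.pi * ((k : ℝ) * ((a.valMinAbs : ℝ) + 1 + n * j)) / n =
      2 * Real.pi * ((k : ℝ) * ((a.valMinAbs : ℝ) + 1)) / n + ((k * j : ℤ) : ℝ) * (2 * Real.pi) := by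
    push_cast
    field_simp
  rw [h4, Real.cos_add_int_mul_two_pi]

private theorem kc_lin {α x : ℝ} (hα : 0 < α) :
    x * Real.exp (-(α * x ^ 2)) ≤ Real.exp (-(α / 2 * x ^ 2)) / Real.sqrt α := by
  have hs : 0 < Real.sqrt α := Real.sqrt_pos.2 hα
  have h1 : Real.sqrt α * x ≤ Real.exp (α / 2 * x ^ 2) := by
    have h2 := Real.add_one_le_exp (α / 2 * x ^ 2)
    have h3 : Real.sqrt α * x ≤ α / 2 * x ^ 2 + 1 := by
      have h4 : (Real.sqrt α * x) ^ 2 = α * x ^ 2 := by rw [mul_pow, Real.sq_sqrt hα.le]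
      nlinarith [sq_nonneg (Real.sqrt α * x - 1)]
    linarith
  rw [le_div_iff₀ hs]
  have h5 : Real.exp (-(α * x ^ 2)) = Real.exp (-(α / 2 * x ^ 2)) * Real.exp (-(α / 2 * x ^ 2)) := by
    rw [← Real.exp_add]
    congr 1
    ring
  have h6 : Real.exp (α / 2 * x ^ 2) * Real.exp (-(α / 2 * x ^ 2)) = 1 := by
    rw [← Real.exp_add, add_neg_cancel, Real.exp_zero]
  rw [h5]
  calc x * (Real.exp (-(α / 2 * x ^ 2)) * Real.exp (-(α / 2 * x ^ 2))) * Real.sqrt α
      = (Real.sqrt α * x) * Real.exp (-(α / 2 * x ^ 2)) * Real.exp (-(α / 2 * x ^ 2)) := by ring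
    _ ≤ Real.exp (α / 2 * x ^ 2) * Real.exp (-(α / 2 * x ^ 2)) * Real.exp (-(α / 2 * x ^ 2)) := by
        gcongr
    _ = Real.exp (-(α / 2 * x ^ 2)) := by rw [h6, one_mul]

theorem qc_grad_sup : ∃ C : ℝ, 1 ≤ C ∧ ∀ n : ℕ, [NeZero n] → ∀ s : ℝ, 0 ≤ s →
    s ≤ 3 * (n : ℝ) ^ 2 → ∀ a : ZMod n, |qc n s a - qc n s (a + 1)| ≤ C * (1 + s)⁻¹ := by
  refine ⟨60, by norm_num, fun n _ s hs hsn a => ?_⟩
  have hn := kc_npos n
  have hs1 : 0 < 1 + s := by linarith
  rcases le_or_gt s 1 with h1 | h1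
  · have h2 : |qc n s a - qc n s (a + 1)| ≤ 1 := by
      rw [abs_le]
      constructor
      · linarith [qc_nonneg n s hs a, kc_le_one n hs (a + 1)]
      · linarith [qc_nonneg n s hs (a + 1), kc_le_one n hs a]
    refine h2.trans ?_
    rw [← div_eq_mul_inv, le_div_iff₀ hs1]
    linarith
  · have hs0 : 0 < s := by linarith
    have hss : 0 < Real.sqrt s := Real.sqrt_pos.2 hs0
    set α : ℝ := 4 * s / (n : ℝ) ^ 2 with hα
    have hα0 : 0 < α := by positivity
    have hterm : ∀ k : ZMod n, |Real.exp (-(s * Real.sin (Real.pi * k.valMinAbs / n) ^ 2)) *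
          Real.cos (2 * Real.pi * ((k.valMinAbs : ℝ) * (a.valMinAbs : ℝ)) / n) -
          Real.exp (-(s * Real.sin (Real.pi * k.valMinAbs / n) ^ 2)) *
          Real.cos (2 * Real.pi * ((k.valMinAbs : ℝ) * ((a + 1).valMinAbs : ℝ)) / n)| ≤
        (2 * Real.pi / n / Real.sqrt α) * Real.exp (-(α / 2 * (k.valMinAbs : ℝ) ^ 2)) := by
      intro k
      rw [kc_cos, ← mul_sub, abs_mul, abs_of_pos (Real.exp_pos _)]
      have h3 := Real.abs_cos_sub_cos_le
        (2 * Real.pi * ((k.valMinAbs : ℝ) * (a.valMinAbs : ℝ)) / n)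
        (2 * Real.pi * ((k.valMinAbs : ℝ) * ((a.valMinAbs : ℝ) + 1)) / n)
      have h4 : |2 * Real.pi * ((k.valMinAbs : ℝ) * (a.valMinAbs : ℝ)) / n -
          2 * Real.pi * ((k.valMinAbs : ℝ) * ((a.valMinAbs : ℝ) + 1)) / n| =
          2 * Real.pi / n * |(k.valMinAbs : ℝ)| := by
        have e : 2 * Real.pi * ((k.valMinAbs : ℝ) * (a.valMinAbs : ℝ)) / n -
          2 * Real.pi * ((k.valMinAbs : ℝ) * ((a.valMinAbs : ℝ) + 1)) / n =
          -(2 * Real.pi / n * (k.valMinAbs : ℝ)) := by ring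
        rw [e, abs_neg, abs_mul, abs_of_pos (by positivity)]
      rw [h4] at h3
      have h5 := kc_jordan n hs k
      have h6 := kc_lin (x := |(k.valMinAbs : ℝ)|) hα0
      rw [sq_abs] at h6
      calc _ ≤ Real.exp (-(α * (k.valMinAbs : ℝ) ^ 2)) *
            (2 * Real.pi / n * |(k.valMinAbs : ℝ)|) :=
            mul_le_mul h5 h3 (abs_nonneg _) (Real.exp_pos _).le
        _ = 2 * Real.pi / n * (|(k.valMinAbs : ℝ)| * Real.exp (-(α * (k.valMinAbs : ℝ) ^ 2))) := by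
            ring
        _ ≤ 2 * Real.pi / n * (Real.exp (-(α / 2 * (k.valMinAbs : ℝ) ^ 2)) / Real.sqrt α) :=
            mul_le_mul_of_nonneg_left h6 (by positivity)
        _ = _ := by ring
    have h2 : |qc n s a - qc n s (a + 1)| ≤ (n : ℝ)⁻¹ *
        ((2 * Real.pi / n / Real.sqrt α) *
          ∑ k : ZMod n, Real.exp (-(α / 2 * (k.valMinAbs : ℝ) ^ 2))) := by
      unfold qc
      rw [← mul_sub, abs_mul, abs_of_pos (by positivity), ← Finset.sum_sub_distrib, Finset.mul_sum]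
      apply mul_le_mul_of_nonneg_left _ (by positivity)
      exact (Finset.abs_sum_le_sum_abs _ _).trans (Finset.sum_le_sum fun k _ => hterm k)
    have h3 := kc_theta n (α / 2) (by positivity)
    have h4 : Real.sqrt α = 2 * Real.sqrt s / n := by
      rw [hα, Real.sqrt_div (by positivity), Real.sqrt_sq hn.le, Real.sqrt_mul (by norm_num)]
      have : Real.sqrt 4 = 2 := by
        rw [show (4 : ℝ) = 2 ^ 2 by norm_num, Real.sqrt_sq (by norm_num)]
      rw [this]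
    have h5 : Real.sqrt s / n ≤ Real.sqrt (α / 2) := by
      apply Real.le_sqrt_of_sq_le
      rw [div_pow, Real.sq_sqrt hs, hα]
      rw [div_div, div_le_div_iff₀ (by positivity) (by positivity)]
      nlinarith [mul_pos hs0 (pow_pos hn 2)]
    have h6 : 4 / Real.sqrt (α / 2) ≤ 4 / (Real.sqrt s / n) :=
      div_le_div_of_nonneg_left (by norm_num) (by positivity) h5
    have h7 : (n : ℝ)⁻¹ * ((2 * Real.pi / n / Real.sqrt α) *
          ∑ k : ZMod n, Real.exp (-(α / 2 * (k.valMinAbs : ℝ) ^ 2))) ≤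
        (n : ℝ)⁻¹ * ((2 * Real.pi / n / Real.sqrt α) * (1 + 4 / (Real.sqrt s / n))) := by
      apply mul_le_mul_of_nonneg_left _ (by positivity)
      apply mul_le_mul_of_nonneg_left _ (by positivity)
      linarith
    have h8 : (n : ℝ)⁻¹ * ((2 * Real.pi / n / Real.sqrt α) * (1 + 4 / (Real.sqrt s / n))) =
        Real.pi * ((1 / n) * (1 / Real.sqrt s) + 4 * ((1 / Real.sqrt s) * (1 / Real.sqrt s))) := by
      rw [h4]
      field_simp
    have h9 : (1 / Real.sqrt s) * (1 / Real.sqrt s) = 1 / s := by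
      rw [one_div_mul_one_div, Real.mul_self_sqrt hs]
    have h10 : (1 / (n : ℝ)) * (1 / Real.sqrt s) ≤ 2 * (1 / s) := by
      have h11 := kc_sqrt hn hs0 hsn
      calc (1 / (n : ℝ)) * (1 / Real.sqrt s) ≤ (2 / Real.sqrt s) * (1 / Real.sqrt s) :=
            mul_le_mul_of_nonneg_right h11 (by positivity)
        _ = 2 * ((1 / Real.sqrt s) * (1 / Real.sqrt s)) := by ring
        _ = 2 * (1 / s) := by rw [h9]
    have h12 : |qc n s a - qc n s (a + 1)| ≤ Real.pi * (6 * (1 / s)) := by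
      refine (h2.trans h7).trans ?_
      rw [h8, h9]
      apply mul_le_mul_of_nonneg_left _ Real.pi_pos.le
      linarith
    refine h12.trans ?_
    have h13 : Real.pi * (6 * (1 / s)) ≤ 4 * (6 * (1 / s)) :=
      mul_le_mul_of_nonneg_right Real.pi_lt_four.le (by positivity)
    refine h13.trans ?_
    have h14 : 4 * (6 * (1 / s)) = 24 / s := by ring
    rw [h14, ← div_eq_mul_inv, div_le_div_iff₀ hs0 hs1]
    linarith

private theorem kc_range (n : ℕ) [NeZero n] (f : ZMod n → ℝ) :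
    ∑ a : ZMod n, f a = ∑ j ∈ range n, f ((j : ℕ) : ZMod n) := by
  refine Finset.sum_nbij' (fun a : ZMod n => a.val) (fun j => ((j : ℕ) : ZMod n)) ?_ ?_ ?_ ?_ ?_
  · intro a _
    exact Finset.mem_range.2 (ZMod.val_lt a)
  · intro j _
    exact Finset.mem_univ _
  · intro a _
    exact ZMod.natCast_zmod_val a
  · intro j hj
    exact ZMod.val_cast_of_lt (Finset.mem_range.1 hj)
  · intro a _
    show f a = f ((a.val : ℕ) : ZMod n)
    rw [ZMod.natCast_zmod_val a]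

theorem qc_grad_l1 (n : ℕ) [NeZero n] (s : ℝ) (hs : 0 ≤ s) :
    ∑ a : ZMod n, |qc n s a - qc n s (a + 1)| ≤ 4 * qc n s 0 := by
  rw [kc_range]
  set q : ℕ → ℝ := fun j => qc n s ((j : ℕ) : ZMod n) with hq
  have hcast : ∀ j : ℕ, qc n s (((j : ℕ) : ZMod n) + 1) = q (j + 1) := by
    intro j
    simp only [hq]
    push_cast
    rfl
  have hsum : ∑ j ∈ range n, |qc n s ((j : ℕ) : ZMod n) - qc n s (((j : ℕ) : ZMod n) + 1)| =
      ∑ j ∈ range n, |q j - q (j + 1)| :=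
    Finset.sum_congr rfl fun j _ => by rw [hcast]
  rw [hsum]
  have hrefl : ∀ j : ℕ, j ≤ n → q j = q (n - j) := by
    intro j hj
    simp only [hq]
    rw [← qc_neg n s hs]
    congr 1
    have h1 : ((n - j : ℕ) : ZMod n) = ((n : ℕ) : ZMod n) - ((j : ℕ) : ZMod n) := Nat.cast_sub hj
    rw [h1, ZMod.natCast_self, zero_sub]
  have hdec : ∀ j, 2 * (j + 1) ≤ n → q (j + 1) ≤ q j := fun j hj => qc_uni n s hs j hj
  have hinc : ∀ j, n ≤ 2 * j + 1 → j < n → q j ≤ q (j + 1) := by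
    intro j hj hjn
    rcases Nat.lt_or_ge (2 * j) n with h1 | h1
    · have h2 : n = 2 * j + 1 := by omega
      have h3 := hrefl j (by omega)
      have h4 : n - j = j + 1 := by omega
      rw [h4] at h3
      exact h3.le
    · have h3 := hrefl j (by omega)
      have h4 := hrefl (j + 1) (by omega)
      have h5 : n - j = (n - (j + 1)) + 1 := by omega
      rw [h3, h4, h5]
      exact hdec _ (by omega)
  set h : ℕ := n / 2 with hh
  have hsplit : ∑ j ∈ range n, |q j - q (j + 1)| =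
      ∑ j ∈ range h, |q j - q (j + 1)| + ∑ j ∈ Finset.Ico h n, |q j - q (j + 1)| := by
    rw [Finset.range_eq_Ico, Finset.range_eq_Ico,
      Finset.sum_Ico_consecutive _ (Nat.zero_le h) (Nat.div_le_self n 2)]
  have e1 : ∑ j ∈ range h, |q j - q (j + 1)| = q 0 - q h := by
    have h1 : ∑ j ∈ range h, |q j - q (j + 1)| = ∑ j ∈ range h, (q j - q (j + 1)) := by
      refine Finset.sum_congr rfl fun j hj => ?_
      have hj' := Finset.mem_range.1 hj
      rw [abs_of_nonneg]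
      linarith [hdec j (by omega)]
    rw [h1, Finset.sum_range_sub' q h]
  have e2 : ∑ j ∈ Finset.Ico h n, |q j - q (j + 1)| = q n - q h := by
    have h1 : ∑ j ∈ Finset.Ico h n, |q j - q (j + 1)| =
        ∑ j ∈ Finset.Ico h n, (q (j + 1) - q j) := by
      refine Finset.sum_congr rfl fun j hj => ?_
      have hj' := Finset.mem_Ico.1 hj
      rw [abs_sub_comm, abs_of_nonneg]
      linarith [hinc j (by omega) hj'.2]
    rw [h1, Finset.sum_Ico_sub q (Nat.div_le_self n 2)]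
  have e3 : q n = q 0 := by
    simp only [hq]
    rw [ZMod.natCast_self, Nat.cast_zero]
  have e4 : q 0 = qc n s 0 := by
    simp only [hq]
    rw [Nat.cast_zero]
  rw [hsplit, e1, e2, e3, ← e4]
  have h5 : 0 ≤ q h := qc_nonneg n s hs _
  have h6 : 0 ≤ q 0 := qc_nonneg n s hs _
  linarith

end CRW
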