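import Pool.Agent.Lib.CRW.KC

/-!
# Kernel group, KD: moments and tail in dimension one

Discrete time: `M_m(r) = ∑_a |a|^{2m} hk 1 n r a`, `|a| = a.valMinAbs.natAbs`.  One step:
`M_m(r+1) - M_m(r) = 1/4 ∑_a hk(a) (|a+1|^{2m} + |a-1|^{2m} - 2|a|^{2m})`.  The bracket is
`≤ C_m(|a|^{2m-2}+1)`.  Hence `M_m(r) ≤ C_m (1+r)^m` by induction on `m`.
Poisson average with `qc_one`: `(1+r)^m ≤ m! (1+s)^m e^{(1+r)/(1+s)}` and the exponential series.
`qc_tail`: `qc s b ≥ qc s a` for the points `b = j`, `|a|/2 ≤ j ≤ |a|`.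
-/

open Finset

namespace CRW

/-- absolute value on the circle -/
private def na {n : ℕ} (a : ZMod n) : ℕ := a.valMinAbs.natAbs

private theorem na_le_of_int {n : ℕ} [NeZero n] (a : ZMod n) (y : ℤ) (h : (y : ZMod n) = a) :
    na a ≤ y.natAbs := by
  unfold na
  apply ZMod.natAbs_min_of_le_div_two n
  · rw [ZMod.coe_valMinAbs, h]
  · exact ZMod.natAbs_valMinAbs_le a

private theorem na_neg {n : ℕ} (a : ZMod n) : na (-a) = na a := ZMod.natAbs_valMinAbs_neg a

private theorem na_add_one_le {n : ℕ} [NeZero n] (a : ZMod n) : na (a + 1) ≤ na a + 1 := by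
  have := na_le_of_int (a + 1) (a.valMinAbs + 1) (by push_cast; simp)
  unfold na at *
  omega

private theorem na_sub_one_le {n : ℕ} [NeZero n] (a : ZMod n) : na (a - 1) ≤ na a + 1 := by
  have := na_le_of_int (a - 1) (a.valMinAbs - 1) (by push_cast; simp)
  unfold na at *
  omega

private theorem na_near {n : ℕ} [NeZero n] (a : ZMod n) (h : 1 ≤ na a) :
    na (a + 1) + 1 ≤ na a ∨ na (a - 1) + 1 ≤ na a := by
  rcases lt_or_ge 0 a.valMinAbs with h0 | h0
  · right
    have := na_le_of_int (a - 1) (a.valMinAbs - 1) (by push_cast; simp)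
    unfold na at *
    omega
  · left
    have := na_le_of_int (a + 1) (a.valMinAbs + 1) (by push_cast; simp)
    unfold na at *
    omega

/-- second difference of even powers -/
private theorem pow_second_diff (m : ℕ) : ∃ c e : ℝ, 0 ≤ c ∧ 0 ≤ e ∧ ∀ x : ℝ, 1 ≤ x →
    ((x + 1) ^ (2 * m) - (x - 1) ^ (2 * m)) * x ≤ c * x ^ (2 * m) ∧
    ((x + 1) ^ (2 * m) + (x - 1) ^ (2 * m) - 2 * x ^ (2 * m)) * x ^ 2 ≤ e * x ^ (2 * m) := by
  induction m with
  | zero =>
    refine ⟨0, 0, le_refl _, le_refl _, fun x _ => ?_⟩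
    simp
    norm_num
  | succ m ih =>
    obtain ⟨c, e, hc, he, h⟩ := ih
    refine ⟨2 * c + 4 * 4 ^ m, e + 2 * 4 ^ m + 2 * c, by positivity, by positivity,
      fun x hx => ?_⟩
    obtain ⟨h1, h2⟩ := h x hx
    have hx0 : 0 ≤ x := by linarith
    have e1 : (x + 1) ^ (2 * (m + 1)) = (x + 1) ^ (2 * m) * (x + 1) ^ 2 := by ring
    have e2 : (x - 1) ^ (2 * (m + 1)) = (x - 1) ^ (2 * m) * (x - 1) ^ 2 := by ring
    have e3 : x ^ (2 * (m + 1)) = x ^ (2 * m) * x ^ 2 := by ring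
    rw [e1, e2, e3]
    have hA : (x + 1) ^ (2 * m) ≤ 4 ^ m * x ^ (2 * m) := by
      have : (x + 1) ^ (2 * m) ≤ (2 * x) ^ (2 * m) :=
        pow_le_pow_left₀ (by linarith) (by linarith) _
      calc (x + 1) ^ (2 * m) ≤ (2 * x) ^ (2 * m) := this
        _ = 4 ^ m * x ^ (2 * m) := by rw [mul_pow, pow_mul]; norm_num
    have hB : (x - 1) ^ (2 * m) ≤ 4 ^ m * x ^ (2 * m) := by
      have : (x - 1) ^ (2 * m) ≤ (2 * x) ^ (2 * m) :=
        pow_le_pow_left₀ (by linarith) (by linarith) _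
      calc (x - 1) ^ (2 * m) ≤ (2 * x) ^ (2 * m) := this
        _ = 4 ^ m * x ^ (2 * m) := by rw [mul_pow, pow_mul]; norm_num
    have hA0 : 0 ≤ (x + 1) ^ (2 * m) := by positivity
    have hB0 : 0 ≤ (x - 1) ^ (2 * m) := pow_nonneg (by linarith) _
    have hX0 : 0 ≤ x ^ (2 * m) := by positivity
    set A := (x + 1) ^ (2 * m)
    set Bm := (x - 1) ^ (2 * m)
    set X := x ^ (2 * m)
    have h4 : (0 : ℝ) ≤ 4 ^ m := by positivity
    have hx2 : 1 ≤ x ^ 2 := by nlinarith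
    constructor
    · have k1 : (A * (x + 1) ^ 2 - Bm * (x - 1) ^ 2) * x =
          (x ^ 2 + 1) * ((A - Bm) * x) + 2 * x ^ 2 * (A + Bm) := by ring
      rw [k1]
      have k2 : (x ^ 2 + 1) * ((A - Bm) * x) ≤ (x ^ 2 + 1) * (c * X) :=
        mul_le_mul_of_nonneg_left h1 (by positivity)
      have k3 : (x ^ 2 + 1) * (c * X) ≤ (2 * x ^ 2) * (c * X) :=
        mul_le_mul_of_nonneg_right (by linarith) (by positivity)
      have k4 : 2 * x ^ 2 * (A + Bm) ≤ 2 * x ^ 2 * (2 * (4 ^ m * X)) :=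
        mul_le_mul_of_nonneg_left (by linarith) (by positivity)
      calc _ ≤ (2 * x ^ 2) * (c * X) + 2 * x ^ 2 * (2 * (4 ^ m * X)) := by linarith
        _ = _ := by ring
    · have k1 : (A * (x + 1) ^ 2 + Bm * (x - 1) ^ 2 - 2 * (X * x ^ 2)) * x ^ 2 =
          x ^ 2 * ((A + Bm - 2 * X) * x ^ 2) + (A + Bm) * x ^ 2 +
            2 * x ^ 2 * ((A - Bm) * x) := by ring
      rw [k1]
      have k2 : x ^ 2 * ((A + Bm - 2 * X) * x ^ 2) ≤ x ^ 2 * (e * X) :=
        mul_le_mul_of_nonneg_left h2 (by positivity)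
      have k3 : (A + Bm) * x ^ 2 ≤ (2 * (4 ^ m * X)) * x ^ 2 :=
        mul_le_mul_of_nonneg_right (by linarith) (by positivity)
      have k4 : 2 * x ^ 2 * ((A - Bm) * x) ≤ 2 * x ^ 2 * (c * X) :=
        mul_le_mul_of_nonneg_left h1 (by positivity)
      calc _ ≤ x ^ 2 * (e * X) + (2 * (4 ^ m * X)) * x ^ 2 + 2 * x ^ 2 * (c * X) := by linarith
        _ = _ := by ring

/-- the bracket -/
private theorem bracket (m : ℕ) : ∃ e : ℝ, 0 ≤ e ∧ ∀ n : ℕ, [NeZero n] → ∀ a : ZMod n,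
    (na (a + 1) : ℝ) ^ (2 * (m + 1)) + (na (a - 1) : ℝ) ^ (2 * (m + 1)) -
      2 * (na a : ℝ) ^ (2 * (m + 1)) ≤ e * ((na a : ℝ) ^ (2 * m) + 1) := by
  obtain ⟨c, e, hc, he, h⟩ := pow_second_diff (m + 1)
  refine ⟨e + 2, by linarith, fun n _ a => ?_⟩
  rcases Nat.eq_zero_or_pos (na a) with h0 | h0
  · have h1 := na_add_one_le a
    have h2 := na_sub_one_le a
    rw [h0] at h1 h2
    have h3 : (na (a + 1) : ℝ) ^ (2 * (m + 1)) ≤ 1 :=
      pow_le_one₀ (by positivity) (by exact_mod_cast h1)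
    have h4 : (na (a - 1) : ℝ) ^ (2 * (m + 1)) ≤ 1 :=
      pow_le_one₀ (by positivity) (by exact_mod_cast h2)
    rw [h0]
    have h5 : (0 : ℝ) ≤ ((0 : ℕ) : ℝ) ^ (2 * m) := by positivity
    have h6 : ((0 : ℕ) : ℝ) ^ (2 * (m + 1)) = 0 := by simp
    rw [h6]
    nlinarith
  · have h1 := na_add_one_le a
    have h2 := na_sub_one_le a
    set k := na a
    have hk : (1 : ℝ) ≤ (k : ℝ) := by exact_mod_cast h0
    obtain ⟨-, h3⟩ := h (k : ℝ) hk
    have h4 : (na (a + 1) : ℝ) ^ (2 * (m + 1)) + (na (a - 1) : ℝ) ^ (2 * (m + 1)) ≤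
        ((k : ℝ) + 1) ^ (2 * (m + 1)) + ((k : ℝ) - 1) ^ (2 * (m + 1)) := by
      rcases na_near a h0 with h5 | h5
      · have h6 : (na (a + 1) : ℝ) ≤ (k : ℝ) - 1 := by
          have : ((na (a + 1) + 1 : ℕ) : ℝ) ≤ (k : ℝ) := by exact_mod_cast h5
          push_cast at this; linarith
        have h7 : (na (a - 1) : ℝ) ≤ (k : ℝ) + 1 := by exact_mod_cast h2
        have h8 := pow_le_pow_left₀ (by positivity) h6 (2 * (m + 1))
        have h9 := pow_le_pow_left₀ (by positivity) h7 (2 * (m + 1))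
        linarith
      · have h6 : (na (a - 1) : ℝ) ≤ (k : ℝ) - 1 := by
          have : ((na (a - 1) + 1 : ℕ) : ℝ) ≤ (k : ℝ) := by exact_mod_cast h5
          push_cast at this; linarith
        have h7 : (na (a + 1) : ℝ) ≤ (k : ℝ) + 1 := by exact_mod_cast h1
        have h8 := pow_le_pow_left₀ (by positivity) h6 (2 * (m + 1))
        have h9 := pow_le_pow_left₀ (by positivity) h7 (2 * (m + 1))
        linarith
    have h5 : (k : ℝ) ^ (2 * (m + 1)) = (k : ℝ) ^ (2 * m) * (k : ℝ) ^ 2 := by ring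
    have hk2 : (0 : ℝ) < (k : ℝ) ^ 2 := by positivity
    have h6 : ((k : ℝ) + 1) ^ (2 * (m + 1)) + ((k : ℝ) - 1) ^ (2 * (m + 1)) -
        2 * (k : ℝ) ^ (2 * (m + 1)) ≤ e * (k : ℝ) ^ (2 * m) := by
      have h7 : (((k : ℝ) + 1) ^ (2 * (m + 1)) + ((k : ℝ) - 1) ^ (2 * (m + 1)) -
        2 * (k : ℝ) ^ (2 * (m + 1))) * (k : ℝ) ^ 2 ≤ (e * (k : ℝ) ^ (2 * m)) * (k : ℝ) ^ 2 := by
        calc _ ≤ e * (k : ℝ) ^ (2 * (m + 1)) := h3
          _ = _ := by rw [h5]; ring
      exact le_of_mul_le_mul_right h7 hk2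
    have h8 : (0 : ℝ) ≤ (k : ℝ) ^ (2 * m) := by positivity
    nlinarith

private theorem hk1_succ {n : ℕ} [NeZero n] (r : ℕ) (a : ZMod n) :
    hk 1 n (r + 1) (fun _ => a) = 1 / 2 * hk 1 n r (fun _ => a) +
      1 / 4 * (hk 1 n r (fun _ => a + 1) + hk 1 n r (fun _ => a - 1)) := by
  have h := stp_expand (d := 1) (n := n) (fun w => hk 1 n r ((fun _ => a) + w))
  simp only [smul_eq_mul] at h
  show ∑ w, stp 1 n w * hk 1 n r ((fun _ => a) + w) = _
  rw [h]
  have e1 : ((fun _ => a : Tor 1 n) + Pi.single (0 : Fin 1) 1) = fun _ => a + 1 := by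
    funext i
    have : i = 0 := Subsingleton.elim _ _
    subst this
    simp
  have e2 : ((fun _ => a : Tor 1 n) + -Pi.single (0 : Fin 1) 1) = fun _ => a - 1 := by
    funext i
    have : i = 0 := Subsingleton.elim _ _
    subst this
    simp [sub_eq_add_neg]
  simp only [Fin.sum_univ_one, Fin.isValue, add_zero, e1, e2, Nat.cast_one]
  ring

private theorem sum_hk1 {n : ℕ} [NeZero n] (r : ℕ) :
    ∑ a : ZMod n, hk 1 n r (fun _ => a) = 1 := by
  rw [← hk_sum (d := 1) (n := n) (le_refl 1) r]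
  exact Equiv.sum_comp (Equiv.funUnique (Fin 1) (ZMod n)).symm (fun z => hk 1 n r z)

/-- discrete moments -/
private theorem moment_disc (m : ℕ) : ∃ C : ℝ, 1 ≤ C ∧ ∀ n : ℕ, [NeZero n] → ∀ r : ℕ,
    ∑ a : ZMod n, (na a : ℝ) ^ (2 * m) * hk 1 n r (fun _ => a) ≤ C * (1 + r) ^ m := by
  induction m with
  | zero =>
    refine ⟨1, le_refl _, fun n _ r => ?_⟩
    simp [sum_hk1]
  | succ m ih =>
    obtain ⟨C, hC, hM⟩ := ih
    obtain ⟨e, he, hb⟩ := bracket m
    refine ⟨e * (C + 1) + 1, by nlinarith, fun n _ r => ?_⟩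
    have step : ∀ r : ℕ, ∑ a : ZMod n, (na a : ℝ) ^ (2 * (m + 1)) * hk 1 n (r + 1) (fun _ => a) ≤
        ∑ a : ZMod n, (na a : ℝ) ^ (2 * (m + 1)) * hk 1 n r (fun _ => a) +
          e * (C + 1) * (1 + r) ^ m := by
      intro r
      have s1 : ∑ a : ZMod n, (na a : ℝ) ^ (2 * (m + 1)) * hk 1 n r (fun _ => a + 1) =
          ∑ a : ZMod n, (na (a - 1) : ℝ) ^ (2 * (m + 1)) * hk 1 n r (fun _ => a) := by
        rw [← Equiv.sum_comp (Equiv.addRight (1 : ZMod n))
          (fun a => (na (a - 1) : ℝ) ^ (2 * (m + 1)) * hk 1 n r (fun _ => a))]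
        simp
      have s2 : ∑ a : ZMod n, (na a : ℝ) ^ (2 * (m + 1)) * hk 1 n r (fun _ => a - 1) =
          ∑ a : ZMod n, (na (a + 1) : ℝ) ^ (2 * (m + 1)) * hk 1 n r (fun _ => a) := by
        rw [← Equiv.sum_comp (Equiv.subRight (1 : ZMod n))
          (fun a => (na (a + 1) : ℝ) ^ (2 * (m + 1)) * hk 1 n r (fun _ => a))]
        simp
      have s3 : ∑ a : ZMod n, (na a : ℝ) ^ (2 * (m + 1)) * hk 1 n (r + 1) (fun _ => a) =
          ∑ a : ZMod n, (na a : ℝ) ^ (2 * (m + 1)) * hk 1 n r (fun _ => a) +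
          1 / 4 * ∑ a : ZMod n, ((na (a + 1) : ℝ) ^ (2 * (m + 1)) +
            (na (a - 1) : ℝ) ^ (2 * (m + 1)) - 2 * (na a : ℝ) ^ (2 * (m + 1))) *
              hk 1 n r (fun _ => a) := by
        have : ∀ a : ZMod n, (na a : ℝ) ^ (2 * (m + 1)) * hk 1 n (r + 1) (fun _ => a) =
            1 / 2 * ((na a : ℝ) ^ (2 * (m + 1)) * hk 1 n r (fun _ => a)) +
            1 / 4 * ((na a : ℝ) ^ (2 * (m + 1)) * hk 1 n r (fun _ => a + 1)) +
            1 / 4 * ((na a : ℝ) ^ (2 * (m + 1)) * hk 1 n r (fun _ => a - 1)) := by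
          intro a; rw [hk1_succ]; ring
        simp only [this, Finset.sum_add_distrib, ← Finset.mul_sum, s1, s2]
        simp only [add_mul, sub_mul, Finset.sum_add_distrib, Finset.sum_sub_distrib, mul_assoc,
          ← Finset.mul_sum]
        ring
      rw [s3]
      have s4 : ∑ a : ZMod n, ((na (a + 1) : ℝ) ^ (2 * (m + 1)) +
            (na (a - 1) : ℝ) ^ (2 * (m + 1)) - 2 * (na a : ℝ) ^ (2 * (m + 1))) *
              hk 1 n r (fun _ => a) ≤
          ∑ a : ZMod n, e * ((na a : ℝ) ^ (2 * m) + 1) * hk 1 n r (fun _ => a) :=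
        Finset.sum_le_sum fun a _ => mul_le_mul_of_nonneg_right (hb n a) (hk_nonneg _ _)
      have s5 : ∑ a : ZMod n, e * ((na a : ℝ) ^ (2 * m) + 1) * hk 1 n r (fun _ => a) =
          e * (∑ a : ZMod n, (na a : ℝ) ^ (2 * m) * hk 1 n r (fun _ => a) + 1) := by
        have t1 : ∑ a : ZMod n, ((na a : ℝ) ^ (2 * m) * hk 1 n r (fun _ => a) +
            hk 1 n r (fun _ => a)) =
            ∑ a : ZMod n, (na a : ℝ) ^ (2 * m) * hk 1 n r (fun _ => a) + 1 := by
          rw [Finset.sum_add_distrib, sum_hk1]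
        rw [← t1, Finset.mul_sum]
        refine Finset.sum_congr rfl fun a _ => ?_
        ring
      have s6 := hM n r
      have s7 : (1 : ℝ) ≤ (1 + (r : ℝ)) ^ m := one_le_pow₀ (by linarith [Nat.cast_nonneg (α := ℝ) r])
      have s8 : e * (∑ a : ZMod n, (na a : ℝ) ^ (2 * m) * hk 1 n r (fun _ => a) + 1) ≤
          e * ((C + 1) * (1 + r) ^ m) :=
        mul_le_mul_of_nonneg_left (by nlinarith) he
      have s9 : 0 ≤ e * ((C + 1) * (1 + (r : ℝ)) ^ m) := by positivity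
      nlinarith
    have key : ∀ r : ℕ, ∑ a : ZMod n, (na a : ℝ) ^ (2 * (m + 1)) * hk 1 n r (fun _ => a) ≤
        e * (C + 1) * (r : ℝ) * (1 + r) ^ m := by
      intro r
      induction r with
      | zero =>
        have : ∑ a : ZMod n, (na a : ℝ) ^ (2 * (m + 1)) * hk 1 n 0 (fun _ => a) = 0 := by
          refine Finset.sum_eq_zero fun a _ => ?_
          by_cases ha : a = 0
          · subst ha
            simp [na]
          · have : ¬ ((fun _ => a : Tor 1 n) = 0) := by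
              intro h; exact ha (congrFun h 0)
            show _ * (if (fun _ => a : Tor 1 n) = 0 then (1 : ℝ) else 0) = 0
            rw [if_neg this, mul_zero]
        rw [this]
        simp
      | succ r ih =>
        refine (step r).trans ?_
        have h1 : (1 + (r : ℝ)) ^ m ≤ (1 + ((r + 1 : ℕ) : ℝ)) ^ m :=
          pow_le_pow_left₀ (by positivity) (by push_cast; linarith) _
        have h2 : 0 ≤ e * (C + 1) := by positivity
        have h3 : e * (C + 1) * (r : ℝ) * (1 + r) ^ m ≤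
            e * (C + 1) * (r : ℝ) * (1 + ((r + 1 : ℕ) : ℝ)) ^ m :=
          mul_le_mul_of_nonneg_left h1 (by positivity)
        have h4 : e * (C + 1) * (1 + (r : ℝ)) ^ m ≤ e * (C + 1) * (1 + ((r + 1 : ℕ) : ℝ)) ^ m :=
          mul_le_mul_of_nonneg_left h1 h2
        calc _ ≤ e * (C + 1) * (r : ℝ) * (1 + ((r + 1 : ℕ) : ℝ)) ^ m +
              e * (C + 1) * (1 + ((r + 1 : ℕ) : ℝ)) ^ m := by linarith
          _ = _ := by push_cast; ring
    refine (key r).trans ?_
    have h1 : (0 : ℝ) ≤ (1 + (r : ℝ)) ^ m := by positivity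
    have h2 : (r : ℝ) ≤ 1 + r := by linarith
    have h3 : 0 ≤ e * (C + 1) := by positivity
    calc e * (C + 1) * (r : ℝ) * (1 + r) ^ m ≤ e * (C + 1) * (1 + r) * (1 + r) ^ m :=
          mul_le_mul_of_nonneg_right (mul_le_mul_of_nonneg_left h2 h3) h1
      _ = e * (C + 1) * (1 + r) ^ (m + 1) := by ring
      _ ≤ (e * (C + 1) + 1) * (1 + r) ^ (m + 1) :=
          mul_le_mul_of_nonneg_right (by linarith) (by positivity)

/-- Poisson moments -/
private theorem pois_moment (m : ℕ) (s : ℝ) (hs : 0 ≤ s) (x : ℕ → ℝ) (C : ℝ) (hC : 0 ≤ C)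
    (hx : ∀ r, x r ≤ C * (1 + (r : ℝ)) ^ m) (y : ℝ)
    (hy : HasSum (fun r : ℕ => Real.exp (-s) * s ^ r / r.factorial * x r) y) :
    y ≤ C * (m.factorial * Real.exp 3) * (1 + s) ^ m := by
  have hs1 : 0 < 1 + s := by linarith
  set q : ℝ := Real.exp (1 / (1 + s)) with hq
  have hz : HasSum (fun r : ℕ => C * m.factorial * (1 + s) ^ m * q * Real.exp (-s) *
      ((s * q) ^ r / r.factorial)) (C * m.factorial * (1 + s) ^ m * q * Real.exp (-s) *
        Real.exp (s * q)) := by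
    have : HasSum (fun r : ℕ => (s * q) ^ r / r.factorial) (Real.exp (s * q)) := by
      have := NormedSpace.expSeries_div_hasSum_exp (𝔸 := ℝ) (s * q)
      rwa [← Real.exp_eq_exp_ℝ] at this
    exact this.mul_left _
  have hle : ∀ r : ℕ, Real.exp (-s) * s ^ r / r.factorial * x r ≤
      C * m.factorial * (1 + s) ^ m * q * Real.exp (-s) * ((s * q) ^ r / r.factorial) := by
    intro r
    have h1 : (1 + (r : ℝ)) ^ m ≤ m.factorial * (1 + s) ^ m * Real.exp ((1 + r) / (1 + s)) := by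
      have h2 := Real.pow_div_factorial_le_exp ((1 + (r : ℝ)) / (1 + s)) (by positivity) m
      rw [div_pow, div_div, div_le_iff₀ (by positivity)] at h2
      calc (1 + (r : ℝ)) ^ m ≤ _ := h2
        _ = _ := by ring
    have h3 : Real.exp ((1 + (r : ℝ)) / (1 + s)) = q * q ^ r := by
      rw [hq, ← Real.exp_nat_mul, ← Real.exp_add]
      congr 1
      field_simp
    rw [h3] at h1
    have h4 : x r ≤ C * (m.factorial * (1 + s) ^ m * (q * q ^ r)) :=
      (hx r).trans (mul_le_mul_of_nonneg_left h1 hC)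
    have h5 : 0 ≤ Real.exp (-s) * s ^ r / r.factorial := by positivity
    calc _ ≤ Real.exp (-s) * s ^ r / r.factorial *
          (C * (m.factorial * (1 + s) ^ m * (q * q ^ r))) := mul_le_mul_of_nonneg_left h4 h5
      _ = _ := by rw [mul_pow]; ring
  have hyz := hasSum_le hle hy hz
  refine hyz.trans ?_
  have h6 : q * Real.exp (-s) * Real.exp (s * q) ≤ Real.exp 3 := by
    rw [hq, ← Real.exp_add, ← Real.exp_add]
    apply Real.exp_le_exp.2
    have h7 : (1 : ℝ) / (1 + s) ≤ 1 := by rw [div_le_one hs1]; linarith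
    have h8 : Real.exp (1 / (1 + s)) ≤ 1 + 2 * (1 / (1 + s)) := by
      have h9 := Real.abs_exp_sub_one_le (x := 1 / (1 + s)) (by
        rw [abs_of_nonneg (by positivity)]; exact h7)
      have h10 : |1 / (1 + s)| = 1 / (1 + s) := abs_of_nonneg (by positivity)
      rw [h10] at h9
      have := (abs_le.1 h9).2
      linarith
    have h11 : s * Real.exp (1 / (1 + s)) ≤ s * (1 + 2 * (1 / (1 + s))) :=
      mul_le_mul_of_nonneg_left h8 hs
    have h12 : s * (1 / (1 + s)) ≤ 1 := by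
      rw [mul_one_div, div_le_one hs1]; linarith
    nlinarith
  have h13 : 0 ≤ C * m.factorial * (1 + s) ^ m := by positivity
  calc C * m.factorial * (1 + s) ^ m * q * Real.exp (-s) * Real.exp (s * q) =
      C * m.factorial * (1 + s) ^ m * (q * Real.exp (-s) * Real.exp (s * q)) := by ring
    _ ≤ C * m.factorial * (1 + s) ^ m * Real.exp 3 := mul_le_mul_of_nonneg_left h6 h13
    _ = _ := by ring

theorem qc_moment (m : ℕ) : ∃ C : ℝ, 1 ≤ C ∧ ∀ n : ℕ, [NeZero n] → ∀ s : ℝ, 0 ≤ s →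
    ∑ a : ZMod n, ((a.valMinAbs.natAbs : ℝ) ^ (2 * m)) * qc n s a ≤ C * (1 + s) ^ m := by
  obtain ⟨C, hC, hM⟩ := moment_disc m
  refine ⟨C * (m.factorial * Real.exp 3), ?_, fun n _ s hs => ?_⟩
  · have h1 : (1 : ℝ) ≤ m.factorial := by exact_mod_cast Nat.factorial_pos m
    have h2 : (1 : ℝ) ≤ Real.exp 3 := Real.one_le_exp (by norm_num)
    have h3 : (1 : ℝ) ≤ m.factorial * Real.exp 3 := by nlinarith
    nlinarith
  · refine pois_moment m s hs (fun r => ∑ a : ZMod n, (na a : ℝ) ^ (2 * m) * hk 1 n r (fun _ => a))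
      C (by linarith) (fun r => hM n r) _ ?_
    have h1 : HasSum (fun r : ℕ => ∑ a : ZMod n, ((a.valMinAbs.natAbs : ℝ) ^ (2 * m)) *
        (Real.exp (-s) * s ^ r / r.factorial * hk 1 n r (fun _ => a)))
        (∑ a : ZMod n, ((a.valMinAbs.natAbs : ℝ) ^ (2 * m)) * qc n s a) :=
      hasSum_sum fun a _ => (qc_one n s hs a).mul_left _
    convert h1 using 2 with r
    rw [Finset.mul_sum]
    refine Finset.sum_congr rfl fun a _ => ?_
    unfold na
    ring

/-- monotone along the half circle -/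
private theorem qc_mono (n : ℕ) [NeZero n] (s : ℝ) (hs : 0 ≤ s) (k : ℕ) (hk : 2 * k ≤ n) :
    ∀ j ≤ k, qc n s ((k : ℕ) : ZMod n) ≤ qc n s ((j : ℕ) : ZMod n) := by
  intro j hj
  induction k with
  | zero => have : j = 0 := by omega
            subst this; exact le_refl _
  | succ k ih =>
    rcases Nat.eq_or_lt_of_le hj with h | h
    · rw [h]
    · exact (qc_uni n s hs k hk).trans (ih (by omega) (by omega))

private theorem qc_na (n : ℕ) [NeZero n] (s : ℝ) (hs : 0 ≤ s) (a : ZMod n) :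
    qc n s a = qc n s ((na a : ℕ) : ZMod n) := by
  have h : ((a.valMinAbs : ℤ) : ZMod n) = a := ZMod.coe_valMinAbs a
  rcases Int.natAbs_eq a.valMinAbs with h1 | h1
  · have : ((na a : ℕ) : ZMod n) = a := by
      unfold na
      have h2 : (((a.valMinAbs.natAbs : ℕ) : ℤ) : ZMod n) = a := by rw [← h1]; exact h
      simpa using h2
    rw [this]
  · have : ((na a : ℕ) : ZMod n) = -a := by
      unfold na
      have h2 : (((a.valMinAbs.natAbs : ℕ) : ℤ) : ZMod n) = -a := by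
        have h3 : ((a.valMinAbs.natAbs : ℕ) : ℤ) = - a.valMinAbs := by omega
        rw [h3, Int.cast_neg, h]
      simpa using h2
    rw [this, qc_neg n s hs]

theorem qc_tail (m : ℕ) : ∃ C : ℝ, 1 ≤ C ∧ ∀ n : ℕ, [NeZero n] → ∀ s : ℝ, 0 ≤ s →
    s ≤ 3 * (n : ℝ) ^ 2 → ∀ a : ZMod n,
      qc n s a ≤ C * (Real.sqrt (1 + s))⁻¹ * ((1 + s) / (1 + (a.valMinAbs.natAbs : ℝ)) ^ 2) ^ m := by
  obtain ⟨C1, hC1, hM⟩ := qc_moment m
  obtain ⟨C2, hC2, hS⟩ := qc_sup
  refine ⟨2 * 16 ^ m * C1 + C2, ?_, fun n _ s hs hsn a => ?_⟩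
  · have : (0 : ℝ) ≤ 2 * 16 ^ m * C1 := by positivity
    linarith
  set k : ℕ := na a with hk
  have hkk : (a.valMinAbs.natAbs : ℝ) = (k : ℝ) := rfl
  rw [hkk]
  have hs1 : 0 < 1 + s := by linarith
  have hsq : 0 < Real.sqrt (1 + s) := Real.sqrt_pos.2 hs1
  have hk1 : (0 : ℝ) < 1 + k := by positivity
  have h2k : 2 * k ≤ n := by
    have := ZMod.natAbs_valMinAbs_le a
    have h3 : k ≤ n / 2 := this
    omega
  by_cases hc : (1 + (k : ℝ)) ^ 2 ≤ 1 + s
  · have h1 : (1 : ℝ) ≤ ((1 + s) / (1 + (k : ℝ)) ^ 2) ^ m := by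
      apply one_le_pow₀
      rw [one_le_div (by positivity)]
      exact hc
    have h2 := hS n s hs hsn a
    have h3 : 0 ≤ C2 * (Real.sqrt (1 + s))⁻¹ := by positivity
    calc qc n s a ≤ C2 * (Real.sqrt (1 + s))⁻¹ := h2
      _ ≤ (2 * 16 ^ m * C1 + C2) * (Real.sqrt (1 + s))⁻¹ := by
          apply mul_le_mul_of_nonneg_right _ (by positivity)
          have : (0 : ℝ) ≤ 2 * 16 ^ m * C1 := by positivity
          linarith
      _ ≤ (2 * 16 ^ m * C1 + C2) * (Real.sqrt (1 + s))⁻¹ * ((1 + s) / (1 + (k : ℝ)) ^ 2) ^ m :=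
          le_mul_of_one_le_right (by positivity) h1
  · push Not at hc
    have hk0 : 1 ≤ k := by
      by_contra h
      have : k = 0 := by omega
      rw [this] at hc
      norm_num at hc
      linarith
    -- the points between `(k+1)/2` and `k`
    have hsum : ∑ j ∈ Finset.Icc ((k + 1) / 2) k, ((j : ℝ) ^ (2 * m)) * qc n s ((j : ℕ) : ZMod n) ≤
        C1 * (1 + s) ^ m := by
      refine le_trans ?_ (hM n s hs)
      have hinj : Set.InjOn (fun j : ℕ => ((j : ℕ) : ZMod n)) (Finset.Icc ((k + 1) / 2) k : Set ℕ) := by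
        intro i hi j hj hij
        have hi' := (Finset.mem_coe.1 hi)
        have hj' := (Finset.mem_coe.1 hj)
        rw [Finset.mem_Icc] at hi' hj'
        have h1 := congrArg ZMod.valMinAbs hij
        simp only at h1
        rw [ZMod.valMinAbs_natCast_of_le_half (by omega),
          ZMod.valMinAbs_natCast_of_le_half (by omega)] at h1
        exact_mod_cast h1
      have himg : ∑ j ∈ Finset.Icc ((k + 1) / 2) k, ((j : ℝ) ^ (2 * m)) * qc n s ((j : ℕ) : ZMod n) =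
          ∑ b ∈ (Finset.Icc ((k + 1) / 2) k).image (fun j : ℕ => ((j : ℕ) : ZMod n)),
            ((b.valMinAbs.natAbs : ℝ) ^ (2 * m)) * qc n s b := by
        rw [Finset.sum_image hinj]
        refine Finset.sum_congr rfl fun j hj => ?_
        rw [Finset.mem_Icc] at hj
        rw [ZMod.valMinAbs_natCast_of_le_half (by omega)]
        simp
      rw [himg]
      exact Finset.sum_le_sum_of_subset_of_nonneg (Finset.subset_univ _)
        fun b _ _ => mul_nonneg (by positivity) (qc_nonneg n s hs b)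
    have hq0 := qc_nonneg n s hs a
    have hlow : ((k : ℝ) + 1) / 2 * ((((k : ℝ) + 1) / 4) ^ (2 * m) * qc n s a) ≤
        ∑ j ∈ Finset.Icc ((k + 1) / 2) k, ((j : ℝ) ^ (2 * m)) * qc n s ((j : ℕ) : ZMod n) := by
      have h1 : ∀ j ∈ Finset.Icc ((k + 1) / 2) k, (((k : ℝ) + 1) / 4) ^ (2 * m) * qc n s a ≤
          ((j : ℝ) ^ (2 * m)) * qc n s ((j : ℕ) : ZMod n) := by
        intro j hj
        rw [Finset.mem_Icc] at hj
        have h2 : ((k : ℝ) + 1) / 4 ≤ (j : ℝ) := by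
          have : (k : ℝ) + 1 ≤ 4 * (j : ℝ) := by
            have : k + 1 ≤ 4 * j := by omega
            exact_mod_cast this
          linarith
        have h3 := qc_mono n s hs k h2k j hj.2
        rw [qc_na n s hs a]
        exact mul_le_mul (pow_le_pow_left₀ (by positivity) h2 _) h3 (qc_nonneg n s hs _)
          (by positivity)
      have h4 := Finset.card_nsmul_le_sum _ _ _ h1
      refine le_trans ?_ h4
      rw [nsmul_eq_mul, Nat.card_Icc]
      apply mul_le_mul_of_nonneg_right _ (by positivity)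
      have : k + 1 ≤ 2 * (k + 1 - (k + 1) / 2) := by omega
      have h5 : ((k + 1 : ℕ) : ℝ) ≤ ((2 * (k + 1 - (k + 1) / 2) : ℕ) : ℝ) := by exact_mod_cast this
      rw [Nat.cast_mul] at h5
      push_cast at h5 ⊢
      linarith
    have hmain := hlow.trans hsum
    -- solve for qc
    have h6 : ((k : ℝ) + 1) / 2 * ((((k : ℝ) + 1) / 4) ^ (2 * m) * qc n s a) =
        ((1 + (k : ℝ)) ^ (2 * m) * (1 + k)) / (2 * 16 ^ m) * qc n s a := by
      rw [div_pow, pow_mul (4 : ℝ)]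
      norm_num
      ring
    rw [h6] at hmain
    have hPos : (0 : ℝ) < (1 + (k : ℝ)) ^ (2 * m) * (1 + k) := by positivity
    have h7 : qc n s a ≤ (2 * 16 ^ m * C1) * (1 + s) ^ m / ((1 + (k : ℝ)) ^ (2 * m) * (1 + k)) := by
      rw [le_div_iff₀ hPos]
      rw [div_mul_eq_mul_div, div_le_iff₀ (by positivity)] at hmain
      calc qc n s a * ((1 + (k : ℝ)) ^ (2 * m) * (1 + k)) =
          (1 + (k : ℝ)) ^ (2 * m) * (1 + k) * qc n s a := by ring
        _ ≤ C1 * (1 + s) ^ m * (2 * 16 ^ m) := hmain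
        _ = _ := by ring
    have h8 : (1 + (k : ℝ))⁻¹ ≤ (Real.sqrt (1 + s))⁻¹ := by
      apply inv_anti₀ hsq
      rw [Real.sqrt_le_left (by positivity)]
      exact hc.le
    calc qc n s a ≤ (2 * 16 ^ m * C1) * (1 + s) ^ m / ((1 + (k : ℝ)) ^ (2 * m) * (1 + k)) := h7
      _ = (2 * 16 ^ m * C1) * (1 + (k : ℝ))⁻¹ * ((1 + s) / (1 + (k : ℝ)) ^ 2) ^ m := by
          rw [div_pow, ← pow_mul]
          field_simp
      _ ≤ (2 * 16 ^ m * C1 + C2) * (Real.sqrt (1 + s))⁻¹ * ((1 + s) / (1 + (k : ℝ)) ^ 2) ^ m := by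
          apply mul_le_mul_of_nonneg_right _ (by positivity)
          apply mul_le_mul _ h8 (by positivity) (by positivity)
          linarith

end CRW
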