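import Pool.Agent.Lib.CRW.KD

/-!
# Kernel group, KE: gradient tail in dimension one

Let `h = qc n (s/2)`; by `qc_add` and a shift, `qc s a - qc s (a+1) = ∑_b (h(b) - h(b+1)) h(a-b)`.
For `|b| ≤ |a|/2` we have `|a-b| ≥ |a|/2`, so `h(a-b)` is small by `qc_tail` (with a constant `4^m`), and
`∑ |h(b)-h(b+1)| ≤ 4 h(0) ≤ C (1+s)^{-1/2}`.  For `|b| > |a|/2` the increments telescope:
`∑ |h(b) - h(b+1)| ≤ 2 h(⌊|a|/2⌋)`, small by `qc_tail`, and `h(a-b) ≤ C(1+s)^{-1/2}`.
-/

open Finset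

namespace CRW

/-- absolute value on the circle -/
private def nb {n : ℕ} (a : ZMod n) : ℕ := a.valMinAbs.natAbs

private theorem nb_le_of_int {n : ℕ} [NeZero n] (a : ZMod n) (y : ℤ) (h : (y : ZMod n) = a) :
    nb a ≤ y.natAbs := by
  unfold nb
  apply ZMod.natAbs_min_of_le_div_two n
  · rw [ZMod.coe_valMinAbs, h]
  · exact ZMod.natAbs_valMinAbs_le a

private theorem nb_tri {n : ℕ} [NeZero n] (a b : ZMod n) : nb a ≤ nb (a - b) + nb b := by
  have h := nb_le_of_int a ((a - b).valMinAbs + b.valMinAbs) (by push_cast; simp)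
  unfold nb at *
  omega

private theorem grad_cases {n : ℕ} [NeZero n] (f : ZMod n → ℝ) (hev : ∀ a, f (-a) = f a)
    (b : ZMod n) : f b = f (b + 1) ∨ ∃ k : ℕ, 2 * (k + 1) ≤ n ∧
      (b = ((k : ℕ) : ZMod n) ∨ b = -((k + 1 : ℕ) : ZMod n)) ∧
      |f b - f (b + 1)| = |f ((k : ℕ) : ZMod n) - f ((k + 1 : ℕ) : ZMod n)| ∧ nb b ≤ k + 1 := by
  have hv : ((b.val : ℕ) : ZMod n) = b := ZMod.natCast_zmod_val b
  have hlt : b.val < n := ZMod.val_lt b
  have hself : ((n : ℕ) : ZMod n) = 0 := ZMod.natCast_self n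
  rcases le_or_gt (2 * (b.val + 1)) n with h1 | h1
  · right
    refine ⟨b.val, h1, Or.inl hv.symm, ?_, ?_⟩
    · push_cast
      rw [hv]
    · have := nb_le_of_int b (b.val : ℤ) (by simp)
      simp only [Int.natAbs_natCast] at this
      omega
  · rcases le_or_gt n (2 * b.val) with h2 | h2
    · right
      obtain ⟨k, hk⟩ : ∃ k : ℕ, n = b.val + (k + 1) := ⟨n - b.val - 1, by omega⟩
      have hb : b = -((k + 1 : ℕ) : ZMod n) := by
        have h3 : ((b.val + (k + 1) : ℕ) : ZMod n) = 0 := by rw [← hk]; exact hself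
        rw [Nat.cast_add, hv] at h3
        exact eq_neg_of_add_eq_zero_left h3
      have hb1 : b + 1 = -((k : ℕ) : ZMod n) := by
        rw [hb]; push_cast; ring
      refine ⟨k, by omega, Or.inr hb, ?_, ?_⟩
      · rw [hb1, hev, hb, hev, abs_sub_comm]
      · have := nb_le_of_int b (-((k + 1 : ℕ) : ℤ)) (by rw [hb]; push_cast; ring)
        rw [Int.natAbs_neg, Int.natAbs_natCast] at this
        exact this
    · left
      have h3 : ((b.val + (b.val + 1) : ℕ) : ZMod n) = 0 := by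
        have : b.val + (b.val + 1) = n := by omega
        rw [this]; exact hself
      push_cast at h3
      rw [hv] at h3
      have h4 : b + 1 = -b := by
        rw [eq_neg_iff_add_eq_zero, ← h3]; ring
      rw [h4, hev]

/-- the total increment outside an arc -/
private theorem grad_l1_tail {n : ℕ} [NeZero n] (f : ZMod n → ℝ) (hev : ∀ a, f (-a) = f a)
    (hf0 : ∀ a, 0 ≤ f a)
    (huni : ∀ k : ℕ, 2 * (k + 1) ≤ n → f ((k + 1 : ℕ) : ZMod n) ≤ f ((k : ℕ) : ZMod n))
    (l : ℕ) (hl : 2 * l ≤ n) :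
    ∑ b ∈ Finset.univ.filter (fun b : ZMod n => l < nb b), |f b - f (b + 1)| ≤
      2 * f ((l : ℕ) : ZMod n) := by
  classical
  set c : ℕ → ℝ := fun k => f ((k : ℕ) : ZMod n) - f ((k + 1 : ℕ) : ZMod n) with hc
  have hc0 : ∀ k ∈ Finset.Ico l (n / 2), 0 ≤ c k := by
    intro k hk
    rw [Finset.mem_Ico] at hk
    have := huni k (by omega)
    simp only [hc]
    linarith
  have hpt : ∀ b ∈ Finset.univ.filter (fun b : ZMod n => l < nb b), |f b - f (b + 1)| ≤
      ∑ k ∈ Finset.Ico l (n / 2), ((if b = ((k : ℕ) : ZMod n) then c k else 0) +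
        (if b = -((k + 1 : ℕ) : ZMod n) then c k else 0)) := by
    intro b hb
    rw [Finset.mem_filter] at hb
    have hnn : ∀ k ∈ Finset.Ico l (n / 2), 0 ≤ ((if b = ((k : ℕ) : ZMod n) then c k else 0) +
        (if b = -((k + 1 : ℕ) : ZMod n) then c k else 0)) := by
      intro k hk
      have := hc0 k hk
      split_ifs <;> linarith
    rcases grad_cases f hev b with h | ⟨k, hk, hbk, habs, hnb⟩
    · rw [h, sub_self, abs_zero]
      exact Finset.sum_nonneg hnn
    · have hkm : k ∈ Finset.Ico l (n / 2) := by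
        rw [Finset.mem_Ico]
        omega
      refine le_trans ?_ (Finset.single_le_sum hnn hkm)
      have h1 := hc0 k hkm
      rw [habs, abs_of_nonneg (by simpa [hc] using h1)]
      rcases hbk with h | h
      · rw [if_pos h]
        simp only [hc] at h1 ⊢
        split_ifs <;> linarith
      · rw [if_pos h]
        simp only [hc] at h1 ⊢
        split_ifs <;> linarith
  calc _ ≤ ∑ b ∈ Finset.univ.filter (fun b : ZMod n => l < nb b),
        ∑ k ∈ Finset.Ico l (n / 2), ((if b = ((k : ℕ) : ZMod n) then c k else 0) +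
        (if b = -((k + 1 : ℕ) : ZMod n) then c k else 0)) := Finset.sum_le_sum hpt
    _ ≤ ∑ b : ZMod n, ∑ k ∈ Finset.Ico l (n / 2), ((if b = ((k : ℕ) : ZMod n) then c k else 0) +
        (if b = -((k + 1 : ℕ) : ZMod n) then c k else 0)) := by
        refine Finset.sum_le_sum_of_subset_of_nonneg (Finset.subset_univ _) fun b _ _ => ?_
        refine Finset.sum_nonneg fun k hk => ?_
        have := hc0 k hk
        split_ifs <;> linarith
    _ = ∑ k ∈ Finset.Ico l (n / 2), ∑ b : ZMod n, ((if b = ((k : ℕ) : ZMod n) then c k else 0) +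
        (if b = -((k + 1 : ℕ) : ZMod n) then c k else 0)) := Finset.sum_comm
    _ = ∑ k ∈ Finset.Ico l (n / 2), 2 * c k := by
        refine Finset.sum_congr rfl fun k _ => ?_
        rw [Finset.sum_add_distrib, Finset.sum_ite_eq' , Finset.sum_ite_eq']
        simp only [Finset.mem_univ, if_true]
        ring
    _ = 2 * ∑ k ∈ Finset.Ico l (n / 2), c k := by rw [Finset.mul_sum]
    _ ≤ 2 * f ((l : ℕ) : ZMod n) := by
        have h1 : ∑ k ∈ Finset.Ico l (n / 2), c k =
            f ((l : ℕ) : ZMod n) - f ((n / 2 : ℕ) : ZMod n) := by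
          have h2 := Finset.sum_Ico_sub (fun k : ℕ => f ((k : ℕ) : ZMod n))
            (show l ≤ n / 2 by omega)
          have h3 : ∑ k ∈ Finset.Ico l (n / 2), c k =
              - ∑ k ∈ Finset.Ico l (n / 2), (f ((k + 1 : ℕ) : ZMod n) - f ((k : ℕ) : ZMod n)) := by
            rw [← Finset.sum_neg_distrib]
            refine Finset.sum_congr rfl fun k _ => ?_
            simp only [hc]
            ring
          rw [h3, h2]
          ring
        rw [h1]
        have := hf0 ((n / 2 : ℕ) : ZMod n)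
        linarith

theorem qc_grad_tail (m : ℕ) : ∃ C : ℝ, 1 ≤ C ∧ ∀ n : ℕ, [NeZero n] → ∀ s : ℝ, 0 ≤ s →
    s ≤ 3 * (n : ℝ) ^ 2 → ∀ a : ZMod n,
      |qc n s a - qc n s (a + 1)| ≤
        C * (1 + s)⁻¹ * ((1 + s) / (1 + (a.valMinAbs.natAbs : ℝ)) ^ 2) ^ m := by
  obtain ⟨C1, hC1, hT⟩ := qc_tail m
  obtain ⟨C2, hC2, hS⟩ := qc_sup
  refine ⟨4 * (4 * C2) * (C1 * 4 ^ m) + 4 * (2 * C2) * (C1 * 4 ^ m), ?_, fun n _ s hs hsn a => ?_⟩
  · have h4 : (1 : ℝ) ≤ 4 ^ m := one_le_pow₀ (by norm_num)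
    have h5 : (1 : ℝ) ≤ C1 * 4 ^ m := by nlinarith
    have h6 : (1 : ℝ) ≤ C2 * (C1 * 4 ^ m) := by nlinarith
    nlinarith
  have hs2 : 0 ≤ s / 2 := by linarith
  have hs2n : s / 2 ≤ 3 * (n : ℝ) ^ 2 := by linarith
  have hs1 : 0 < 1 + s := by linarith
  have hsq : 0 < Real.sqrt (1 + s) := Real.sqrt_pos.2 hs1
  set h : ZMod n → ℝ := qc n (s / 2) with hh
  set q : ℝ := (Real.sqrt (1 + s))⁻¹ with hq
  have hq0 : 0 < q := inv_pos.2 hsq
  have hqq : q * q = (1 + s)⁻¹ := by
    rw [hq, ← mul_inv, Real.mul_self_sqrt hs1.le]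
  set ρ : ℝ := ((1 + s) / (1 + (nb a : ℝ)) ^ 2) ^ m with hρ
  have hρ0 : 0 ≤ ρ := by positivity
  have hsqh : (Real.sqrt (1 + s / 2))⁻¹ ≤ 2 * q := by
    rw [hq]
    have h1 : Real.sqrt (1 + s) ≤ 2 * Real.sqrt (1 + s / 2) := by
      rw [Real.sqrt_le_left (by positivity), mul_pow, Real.sq_sqrt (by linarith)]
      linarith
    have h2 : 0 < Real.sqrt (1 + s / 2) := Real.sqrt_pos.2 (by linarith)
    rw [inv_eq_one_div, div_le_iff₀ h2, mul_assoc, mul_comm (Real.sqrt (1 + s))⁻¹,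
      ← mul_assoc, ← div_eq_mul_inv, le_div_iff₀ hsq]
    linarith
  have h0 : ∀ b, 0 ≤ h b := fun b => qc_nonneg n (s / 2) hs2 b
  have hev : ∀ b, h (-b) = h b := fun b => qc_neg n (s / 2) hs2 b
  have hsup : ∀ b, h b ≤ C2 * (2 * q) := fun b =>
    (hS n (s / 2) hs2 hs2n b).trans (mul_le_mul_of_nonneg_left hsqh (by linarith))
  have htail : ∀ b : ZMod n, nb a ≤ 2 * nb b + 1 → h b ≤ (C1 * 4 ^ m) * (2 * q) * ρ := by
    intro b hb
    have h1 := hT n (s / 2) hs2 hs2n b
    have h2 : (1 + (nb a : ℝ)) ≤ 2 * (1 + (nb b : ℝ)) := by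
      have : ((nb a : ℕ) : ℝ) ≤ ((2 * nb b + 1 : ℕ) : ℝ) := by exact_mod_cast hb
      push_cast at this
      linarith
    have h3 : (1 + s / 2) / (1 + (nb b : ℝ)) ^ 2 ≤ 4 * ((1 + s) / (1 + (nb a : ℝ)) ^ 2) := by
      have ha : (0 : ℝ) < 1 + (nb a : ℝ) := by positivity
      have hbp : (0 : ℝ) < 1 + (nb b : ℝ) := by positivity
      rw [← mul_div_assoc, div_le_div_iff₀ (by positivity) (by positivity)]
      have h4 : (1 + (nb a : ℝ)) ^ 2 ≤ 4 * (1 + (nb b : ℝ)) ^ 2 := by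
        calc (1 + (nb a : ℝ)) ^ 2 ≤ (2 * (1 + (nb b : ℝ))) ^ 2 :=
              pow_le_pow_left₀ ha.le h2 2
          _ = _ := by ring
      have h5 : (1 + s / 2) * (1 + (nb a : ℝ)) ^ 2 ≤ (1 + s) * (4 * (1 + (nb b : ℝ)) ^ 2) :=
        mul_le_mul (by linarith) h4 (by positivity) (by linarith)
      linarith
    have h6 : ((1 + s / 2) / (1 + (nb b : ℝ)) ^ 2) ^ m ≤ 4 ^ m * ρ := by
      rw [hρ, ← mul_pow]
      exact pow_le_pow_left₀ (by positivity) h3 m
    have h7 : h b ≤ C1 * (Real.sqrt (1 + s / 2))⁻¹ * ((1 + s / 2) / (1 + (nb b : ℝ)) ^ 2) ^ m := h1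
    calc h b ≤ _ := h7
      _ ≤ C1 * (2 * q) * (4 ^ m * ρ) := by
          apply mul_le_mul _ h6 (by positivity) (by positivity)
          exact mul_le_mul_of_nonneg_left hsqh (by linarith)
      _ = _ := by ring
  -- the convolution formula
  have hadd : ∀ x : ZMod n, qc n s x = ∑ b : ZMod n, h b * h (x - b) := by
    intro x
    have := qc_add n (s / 2) (s / 2) x
    rw [add_halves] at this
    exact this
  have hD : qc n s a - qc n s (a + 1) = ∑ b : ZMod n, (h b - h (b + 1)) * h (a - b) := by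
    rw [hadd a, hadd (a + 1)]
    have h1 : ∑ b : ZMod n, h b * h (a + 1 - b) = ∑ b : ZMod n, h (b + 1) * h (a - b) := by
      rw [← Equiv.sum_comp (Equiv.addRight (1 : ZMod n)) (fun b => h b * h (a + 1 - b))]
      refine Finset.sum_congr rfl fun b _ => ?_
      simp only [Equiv.coe_addRight]
      congr 2
      ring
    rw [h1, ← Finset.sum_sub_distrib]
    refine Finset.sum_congr rfl fun b _ => ?_
    ring
  rw [show (a.valMinAbs.natAbs : ℝ) = (nb a : ℝ) from rfl, hD]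
  have hl1 := qc_grad_l1 n (s / 2) hs2
  have hl2 : ∑ b ∈ Finset.univ.filter (fun b : ZMod n => nb a / 2 < nb b), |h b - h (b + 1)| ≤
      2 * h ((nb a / 2 : ℕ) : ZMod n) := by
    refine grad_l1_tail h hev h0 (fun k hk => qc_uni n (s / 2) hs2 k hk) (nb a / 2) ?_
    have : nb a ≤ n / 2 := ZMod.natAbs_valMinAbs_le a
    omega
  have hmid : h ((nb a / 2 : ℕ) : ZMod n) ≤ (C1 * 4 ^ m) * (2 * q) * ρ := by
    apply htail
    have h1 : nb a ≤ n / 2 := ZMod.natAbs_valMinAbs_le a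
    have h2 : ∀ j : ℕ, j ≤ n / 2 → nb ((j : ℕ) : ZMod n) = j := by
      intro j hj
      unfold nb
      rw [ZMod.valMinAbs_natCast_of_le_half hj, Int.natAbs_natCast]
    rw [h2 _ (by omega)]
    omega
  calc |∑ b : ZMod n, (h b - h (b + 1)) * h (a - b)| ≤
        ∑ b : ZMod n, |h b - h (b + 1)| * h (a - b) := by
        refine (Finset.abs_sum_le_sum_abs _ _).trans (Finset.sum_le_sum fun b _ => ?_)
        rw [abs_mul, abs_of_nonneg (h0 (a - b))]
    _ = ∑ b ∈ Finset.univ.filter (fun b : ZMod n => nb a / 2 < nb b),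
          |h b - h (b + 1)| * h (a - b) +
        ∑ b ∈ Finset.univ.filter (fun b : ZMod n => ¬ (nb a / 2 < nb b)),
          |h b - h (b + 1)| * h (a - b) :=
        (Finset.sum_filter_add_sum_filter_not _ _ _).symm
    _ ≤ ∑ b ∈ Finset.univ.filter (fun b : ZMod n => nb a / 2 < nb b),
          |h b - h (b + 1)| * (C2 * (2 * q)) +
        ∑ b ∈ Finset.univ.filter (fun b : ZMod n => ¬ (nb a / 2 < nb b)),
          |h b - h (b + 1)| * ((C1 * 4 ^ m) * (2 * q) * ρ) := by
        apply add_le_add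
        · exact Finset.sum_le_sum fun b _ =>
            mul_le_mul_of_nonneg_left (hsup _) (abs_nonneg _)
        · refine Finset.sum_le_sum fun b hb => mul_le_mul_of_nonneg_left ?_ (abs_nonneg _)
          rw [Finset.mem_filter] at hb
          apply htail
          have := nb_tri a b
          omega
    _ ≤ (2 * ((C1 * 4 ^ m) * (2 * q) * ρ)) * (C2 * (2 * q)) +
        (4 * (C2 * (2 * q))) * ((C1 * 4 ^ m) * (2 * q) * ρ) := by
        rw [← Finset.sum_mul, ← Finset.sum_mul]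
        have hP : 0 ≤ (C1 * 4 ^ m) * (2 * q) * ρ := by positivity
        have hQ : 0 ≤ C2 * (2 * q) := by positivity
        apply add_le_add
        · exact mul_le_mul_of_nonneg_right (by linarith) hQ
        · apply mul_le_mul_of_nonneg_right _ hP
          calc _ ≤ ∑ b : ZMod n, |h b - h (b + 1)| :=
                Finset.sum_le_sum_of_subset_of_nonneg (Finset.subset_univ _)
                  fun b _ _ => abs_nonneg _
            _ ≤ 4 * h 0 := hl1
            _ ≤ 4 * (C2 * (2 * q)) := by linarith [hsup 0]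
    _ = (4 * (2 * C2) * (C1 * 4 ^ m) + 4 * (4 * C2) * (C1 * 4 ^ m)) * (q * q) * ρ := by ring
    _ = _ := by rw [hqq]; ring

end CRW
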