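import Pool.Agent.Lib.CRW.KE

/-!
# Kernel group, KF: short times `r < n²`

Let `R = rho z`, `R = 1 + |z_i|` for some `i`.  With `qc_sup`, `qc_tail`, `qc_grad_sup`, `qc_grad_tail` (`m = d`),
for `0 ≤ s ≤ 3 n²` (apply them at `s/d`):
`∏ qc (z_i) ≤ C (1+s)^{-d/2} min(1, ((1+s)/R²)^d)` and, as only one factor changes,
`|∏ qc(z_i) - ∏ qc((z+w)_i)| ≤ C (1+s)^{-(d+1)/2} min(1, ((1+s)/R²)^d)`, `w = ± e_l`.
(`prod_int`): integrate over `s ≤ R²` and `s ≥ R²`; `d ≥ 3`.
`short_sum`, `short_grad`: `pois_cut` with `L = 3 n²` (for `r < n²`, `2(r+1) ≤ 3n²`), so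
`∑_{r<n²} x_r ≤ 2 ∫_0^{3n²} ∑_r e^{-s}s^r/r! x_r ds` for `x_r ≥ 0`; for the gradient take
`x_r = |hk r (z+w) - hk r z|`, whose Poisson sum is the absolute value of the difference of the
products because of `hk_grad_sign` and `pois_prod`.
-/

open Finset

namespace CRW

private theorem kf_step {d n : ℕ} [NeZero n] {w : Tor d n} (hw : stp d n w ≠ 0) :
    w = 0 ∨ ∃ l : Fin d, w = Pi.single l 1 ∨ w = -Pi.single l 1 := by
  by_contra hcon
  push Not at hcon
  obtain ⟨h0, h1⟩ := hcon
  apply hw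
  unfold stp
  rw [if_neg h0, zero_add]
  refine Finset.sum_eq_zero fun i _ => ?_
  rw [if_neg (h1 i).1, if_neg (h1 i).2]
  simp

/-- the majorant -/
private noncomputable def kfy (d : ℕ) (R s : ℝ) : ℝ := 1 + (1 + s / d) / R ^ 2

private theorem kfy_one_le {d : ℕ} {R s : ℝ} (hs : 0 ≤ s) : 1 ≤ kfy d R s := by
  unfold kfy
  have : 0 ≤ (1 + s / d) / R ^ 2 := by positivity
  linarith

private theorem kf_deriv {d : ℕ} (hd : 0 < d) {R : ℝ} (hR : 0 < R) {s : ℝ} (hs : 0 ≤ s) :
    HasDerivAt (fun s => -(2 * d * R ^ 2) / Real.sqrt (kfy d R s))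
      (1 / (kfy d R s * Real.sqrt (kfy d R s))) s := by
  have hy : 0 < kfy d R s := lt_of_lt_of_le one_pos (kfy_one_le hs)
  have h1 : HasDerivAt (fun s => kfy d R s) (1 / (d * R ^ 2)) s := by
    unfold kfy
    have h := ((((hasDerivAt_id s).div_const (d : ℝ)).const_add 1).div_const (R ^ 2)).const_add 1
    refine h.congr_deriv ?_
    field_simp
  have h2 := h1.sqrt hy.ne'
  have h3 := (h2.fun_inv (Real.sqrt_pos.2 hy).ne').const_mul (-(2 * (d : ℝ) * R ^ 2))
  have hsq : Real.sqrt (kfy d R s) ^ 2 = kfy d R s := Real.sq_sqrt hy.le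
  have hsp : 0 < Real.sqrt (kfy d R s) := Real.sqrt_pos.2 hy
  refine (h3.congr_deriv ?_).congr_of_eventuallyEq ?_
  · rw [hsq]
    have hd' : (0 : ℝ) < d := by exact_mod_cast hd
    field_simp
  · exact Filter.Eventually.of_forall fun t => by
      change _ / _ = _ * _
      rw [div_eq_mul_inv]

private theorem kf_cont {d : ℕ} {R : ℝ} (s : Set ℝ) (hs : ∀ x ∈ s, 0 ≤ x) :
    ContinuousOn (fun s => 1 / (kfy d R s * Real.sqrt (kfy d R s))) s := by
  have h : Continuous fun s => kfy d R s := by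
    unfold kfy
    fun_prop
  refine ContinuousOn.div continuousOn_const (h.mul h.sqrt).continuousOn fun x hx => ?_
  have hy : 0 < kfy d R x := lt_of_lt_of_le one_pos (kfy_one_le (hs x hx))
  exact (mul_pos hy (Real.sqrt_pos.2 hy)).ne'

private theorem kf_int {d : ℕ} (hd : 0 < d) {R : ℝ} (hR : 0 < R) {L : ℝ} (hL : 0 ≤ L) :
    ∫ s in (0 : ℝ)..L, 1 / (kfy d R s * Real.sqrt (kfy d R s)) ≤ 2 * d * R ^ 2 := by
  have hI : IntervalIntegrable (fun s => 1 / (kfy d R s * Real.sqrt (kfy d R s)))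
      MeasureTheory.volume 0 L := by
    apply ContinuousOn.intervalIntegrable
    rw [Set.uIcc_of_le hL]
    exact kf_cont _ fun x hx => hx.1
  rw [intervalIntegral.integral_eq_sub_of_hasDerivAt (fun s hs => by
    rw [Set.uIcc_of_le hL] at hs
    exact kf_deriv hd hR hs.1) hI]
  have h0 : 1 ≤ kfy d R 0 := kfy_one_le le_rfl
  have h1 : 1 ≤ Real.sqrt (kfy d R 0) := Real.one_le_sqrt.2 h0
  have h2 : 0 ≤ 2 * (d : ℝ) * R ^ 2 / Real.sqrt (kfy d R L) := by positivity
  have h3 : 2 * (d : ℝ) * R ^ 2 / Real.sqrt (kfy d R 0) ≤ 2 * d * R ^ 2 :=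
    div_le_self (by positivity) h1
  rw [neg_div, neg_div]
  linarith

private theorem kf_pt {u R B : ℝ} (hu : 1 ≤ u) (hR : 0 < R) {e m : ℕ} (he : 3 ≤ e)
    (hm : e ≤ 2 * m) (h1 : B ≤ (Real.sqrt u)⁻¹ ^ e) (h2 : B ≤ (Real.sqrt u)⁻¹ ^ e * (u / R ^ 2) ^ m) :
    B ≤ 3 * R⁻¹ ^ e * (1 / ((1 + u / R ^ 2) * Real.sqrt (1 + u / R ^ 2))) := by
  obtain ⟨t, ht⟩ : ∃ t, t = Real.sqrt u / R := ⟨_, rfl⟩
  have hu0 : 0 < Real.sqrt u := Real.sqrt_pos.2 (by linarith)
  have ht0 : 0 < t := by rw [ht]; positivity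
  have hx : u / R ^ 2 = t ^ 2 := by
    rw [ht, div_pow, Real.sq_sqrt (by linarith)]
  have hv : (Real.sqrt u)⁻¹ = R⁻¹ * t⁻¹ := by
    rw [ht]
    field_simp
  rw [hx] at h2 ⊢
  rw [hv, mul_pow] at h1 h2
  have hRe : 0 < R⁻¹ ^ e := by positivity
  have hy0 : 0 < 1 + t ^ 2 := by positivity
  have hs0 : 0 < Real.sqrt (1 + t ^ 2) := Real.sqrt_pos.2 hy0
  rw [mul_comm (3 : ℝ), mul_assoc]
  rcases le_total 1 t with h | h
  · refine h1.trans (mul_le_mul_of_nonneg_left ?_ hRe.le)
    have h3 : t⁻¹ ^ e ≤ t⁻¹ ^ 3 := pow_le_pow_of_le_one (by positivity) (inv_le_one_of_one_le₀ h) he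
    refine h3.trans ?_
    have h4 : Real.sqrt (1 + t ^ 2) ≤ 3 / 2 * t := by
      rw [show 3 / 2 * t = Real.sqrt ((3 / 2 * t) ^ 2) from (Real.sqrt_sq (by positivity)).symm]
      apply Real.sqrt_le_sqrt
      nlinarith
    have h5 : (1 + t ^ 2) * Real.sqrt (1 + t ^ 2) ≤ 3 * t ^ 3 := by
      have h6 : 1 + t ^ 2 ≤ 2 * t ^ 2 := by nlinarith
      calc (1 + t ^ 2) * Real.sqrt (1 + t ^ 2) ≤ (2 * t ^ 2) * (3 / 2 * t) :=
            mul_le_mul h6 h4 hs0.le (by positivity)
        _ = 3 * t ^ 3 := by ring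
    rw [mul_one_div, le_div_iff₀ (mul_pos hy0 hs0), inv_pow, inv_mul_le_iff₀ (by positivity)]
    linarith
  · have h3 : t⁻¹ ^ e * (t ^ 2) ^ m ≤ 1 := by
      rw [← pow_mul, inv_pow, inv_mul_le_iff₀ (by positivity), mul_one]
      exact pow_le_pow_of_le_one ht0.le h hm
    refine h2.trans ?_
    rw [mul_assoc]
    refine mul_le_mul_of_nonneg_left (h3.trans ?_) hRe.le
    have h4 : Real.sqrt (1 + t ^ 2) ≤ 3 / 2 := by
      rw [show (3 / 2 : ℝ) = Real.sqrt ((3 / 2) ^ 2) from (Real.sqrt_sq (by positivity)).symm]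
      apply Real.sqrt_le_sqrt
      nlinarith
    have h5 : (1 + t ^ 2) * Real.sqrt (1 + t ^ 2) ≤ 2 * (3 / 2) :=
      mul_le_mul (by nlinarith) h4 hs0.le (by norm_num)
    rw [mul_one_div, le_div_iff₀ (mul_pos hy0 hs0)]
    linarith

private theorem qc_cont (n : ℕ) [NeZero n] (a : ZMod n) : Continuous fun s => qc n s a := by
  unfold qc
  fun_prop

/-- integral of a function bounded by the majorant -/
private theorem kf_final {d : ℕ} (hd : 3 ≤ d) {R : ℝ} (hR : 0 < R) {L : ℝ} (hL : 0 ≤ L) {K : ℝ}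
    (hK : 0 ≤ K) {e : ℕ} (he : 3 ≤ e) (he2 : e ≤ 2 * d) {f : ℝ → ℝ} (hf : Continuous f)
    (h : ∀ s, 0 ≤ s → s ≤ L → f s ≤ K * (Real.sqrt (1 + s / d))⁻¹ ^ e ∧
      f s ≤ K * ((Real.sqrt (1 + s / d))⁻¹ ^ e * ((1 + s / d) / R ^ 2) ^ d)) :
    ∫ s in (0 : ℝ)..L, f s ≤ 6 * d * K / R ^ (e - 2) := by
  have hd0 : (0 : ℝ) < d := by exact_mod_cast (by omega : 0 < d)
  have hpt : ∀ s ∈ Set.Icc 0 L, f s ≤
      K * (3 * R⁻¹ ^ e) * (1 / (kfy d R s * Real.sqrt (kfy d R s))) := by
    intro s hs
    obtain ⟨h1, h2⟩ := h s hs.1 hs.2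
    have hs0 : 0 ≤ s / d := div_nonneg hs.1 hd0.le
    have h3 := kf_pt (B := min ((Real.sqrt (1 + s / d))⁻¹ ^ e)
      ((Real.sqrt (1 + s / d))⁻¹ ^ e * ((1 + s / d) / R ^ 2) ^ d)) (u := 1 + s / d)
      (by linarith) hR he he2 (min_le_left _ _) (min_le_right _ _)
    have h4 : f s ≤ K * min ((Real.sqrt (1 + s / d))⁻¹ ^ e)
        ((Real.sqrt (1 + s / d))⁻¹ ^ e * ((1 + s / d) / R ^ 2) ^ d) := by
      rw [mul_min_of_nonneg _ _ hK]
      exact le_min h1 h2
    refine h4.trans ((mul_le_mul_of_nonneg_left h3 hK).trans_eq ?_)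
    rw [mul_assoc K]
    rfl
  have hI : IntervalIntegrable (fun s => K * (3 * R⁻¹ ^ e) *
      (1 / (kfy d R s * Real.sqrt (kfy d R s)))) MeasureTheory.volume 0 L := by
    apply ContinuousOn.intervalIntegrable
    rw [Set.uIcc_of_le hL]
    exact (continuousOn_const).mul (kf_cont _ fun x hx => hx.1)
  refine (intervalIntegral.integral_mono_on hL (hf.intervalIntegrable _ _) hI hpt).trans ?_
  rw [intervalIntegral.integral_const_mul]
  refine (mul_le_mul_of_nonneg_left (kf_int (by omega) hR hL) (by positivity)).trans_eq ?_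
  have hR2 : R ^ e = R ^ (e - 2) * R ^ 2 := by
    rw [← pow_add]
    congr 1
    omega
  rw [inv_pow, hR2]
  field_simp
  ring

theorem prod_int (d : ℕ) (hd : 3 ≤ d) : ∃ C : ℝ, 1 ≤ C ∧ ∀ n : ℕ, [NeZero n] → 3 ≤ n →
    ∀ z : Tor d n,
      (∫ s in (0 : ℝ)..(3 * (n : ℝ) ^ 2), ∏ i, qc n (s / d) (z i)) ≤ C / rho z ^ (d - 2) ∧
      ∀ w : Tor d n, stp d n w ≠ 0 →
        (∫ s in (0 : ℝ)..(3 * (n : ℝ) ^ 2),
          |∏ i, qc n (s / d) ((z + w) i) - ∏ i, qc n (s / d) (z i)|) ≤ C / rho z ^ (d - 1) := by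
  obtain ⟨C0, hC0, h0⟩ := qc_sup
  obtain ⟨C1, hC1, h1⟩ := qc_tail d
  obtain ⟨C2, hC2, h2⟩ := qc_grad_sup
  obtain ⟨C3, hC3, h3⟩ := qc_grad_tail d
  obtain ⟨K, hKdef⟩ : ∃ K, K = C0 + C1 + C2 + C3 := ⟨_, rfl⟩
  have hK0 : 0 ≤ K := by linarith
  have hK1 : 1 ≤ K := by linarith
  have hdR : (1 : ℝ) ≤ d := by exact_mod_cast (by omega : 1 ≤ d)
  have hKd : (1 : ℝ) ≤ K ^ d := one_le_pow₀ hK1
  refine ⟨6 * d * K ^ d, by nlinarith, fun n _ hn z => ?_⟩
  have hL : (0 : ℝ) ≤ 3 * (n : ℝ) ^ 2 := by positivity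
  have hR : 0 < rho z := rho_pos z
  have hne : (Finset.univ : Finset (Fin d)).Nonempty := ⟨⟨0, by omega⟩, Finset.mem_univ _⟩
  obtain ⟨i0, -, hi0⟩ := Finset.exists_mem_eq_sup Finset.univ hne
    (fun i => (z i).valMinAbs.natAbs)
  have hR0 : rho z = 1 + ((z i0).valMinAbs.natAbs : ℝ) := by
    unfold rho nrm
    rw [hi0]
  -- the bounds of one factor
  have hq : ∀ s : ℝ, 0 ≤ s → s ≤ 3 * (n : ℝ) ^ 2 → 0 ≤ s / d ∧ s / d ≤ 3 * (n : ℝ) ^ 2 :=
    fun s hs hs' => ⟨div_nonneg hs (by linarith), (div_le_self hs hdR).trans hs'⟩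
  constructor
  · refine kf_final hd hR hL (K := K ^ d) (by positivity) (e := d) hd (by omega)
      (f := fun s => ∏ i, qc n (s / d) (z i)) ?_ ?_
    · exact continuous_finsetProd _ fun i _ =>
        (qc_cont n (z i)).comp (continuous_id.div_const _)
    · intro s hs hs'
      obtain ⟨ha, hb⟩ := hq s hs hs'
      have hv : 0 ≤ (Real.sqrt (1 + s / d))⁻¹ := by positivity
      constructor
      · calc ∏ i, qc n (s / d) (z i) ≤ ∏ _i : Fin d, (K * (Real.sqrt (1 + s / d))⁻¹) :=
              Finset.prod_le_prod (fun i _ => qc_nonneg n _ ha _) fun i _ =>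
                (h0 n _ ha hb _).trans (mul_le_mul_of_nonneg_right (by linarith) hv)
          _ = K ^ d * (Real.sqrt (1 + s / d))⁻¹ ^ d := by
              rw [Finset.prod_const, Finset.card_univ, Fintype.card_fin, mul_pow]
      · calc ∏ i, qc n (s / d) (z i) ≤ ∏ i : Fin d, ((K * (Real.sqrt (1 + s / d))⁻¹) *
                (if i = i0 then ((1 + s / d) / rho z ^ 2) ^ d else 1)) :=
              Finset.prod_le_prod (fun i _ => qc_nonneg n _ ha _) fun i _ => by
                by_cases hi : i = i0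
                · rw [if_pos hi, hi, hR0]
                  exact (h1 n _ ha hb _).trans (mul_le_mul_of_nonneg_right
                    (mul_le_mul_of_nonneg_right (by linarith) hv) (by positivity))
                · rw [if_neg hi, mul_one]
                  exact (h0 n _ ha hb _).trans (mul_le_mul_of_nonneg_right (by linarith) hv)
          _ = K ^ d * ((Real.sqrt (1 + s / d))⁻¹ ^ d * ((1 + s / d) / rho z ^ 2) ^ d) := by
              rw [Finset.prod_mul_distrib, Finset.prod_const, Finset.card_univ, Fintype.card_fin,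
                mul_pow, Finset.prod_ite_eq', if_pos (Finset.mem_univ _), mul_assoc]
  · intro w hw
    have e1 : d - 1 = d + 1 - 2 := by omega
    rw [e1]
    refine kf_final hd hR hL (K := K ^ d) (by positivity) (e := d + 1) (by omega) (by omega)
      (f := fun s => |∏ i, qc n (s / d) ((z + w) i) - ∏ i, qc n (s / d) (z i)|) ?_ ?_
    · exact ((continuous_finsetProd _ fun i _ =>
        (qc_cont n _).comp (continuous_id.div_const _)).sub (continuous_finsetProd _ fun i _ =>
        (qc_cont n (z i)).comp (continuous_id.div_const _))).abs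
    · intro s hs hs'
      obtain ⟨ha, hb⟩ := hq s hs hs'
      have hv : 0 ≤ (Real.sqrt (1 + s / d))⁻¹ := by positivity
      have hvv : (1 + s / d)⁻¹ = (Real.sqrt (1 + s / d))⁻¹ * (Real.sqrt (1 + s / d))⁻¹ := by
        rw [← mul_inv, Real.mul_self_sqrt (by linarith)]
      have hX : 0 ≤ ((1 + s / d) / rho z ^ 2) ^ d := by positivity
      rcases kf_step hw with rfl | ⟨l, hl⟩
      · simp only [add_zero, sub_self, abs_zero]
        constructor <;> positivity
      -- the difference at `l`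
      have hne' : ∀ i, i ≠ l → (z + w) i = z i := by
        intro i hi
        rcases hl with rfl | rfl
        · simp [hi]
        · simp [hi]
      obtain ⟨a, haa, hab⟩ : ∃ a : ZMod n, a.valMinAbs.natAbs = (z l).valMinAbs.natAbs ∧
          |qc n (s / d) ((z + w) l) - qc n (s / d) (z l)| =
            |qc n (s / d) a - qc n (s / d) (a + 1)| := by
        rcases hl with rfl | rfl
        · refine ⟨z l, rfl, ?_⟩
          rw [abs_sub_comm]
          simp
        · refine ⟨-(z l), ZMod.natAbs_valMinAbs_neg _, ?_⟩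
          rw [abs_sub_comm, qc_neg n _ ha (z l)]
          congr 2
          rw [← qc_neg n _ ha]
          congr 1
          simp [add_comm]
      have hprod : |∏ i, qc n (s / d) ((z + w) i) - ∏ i, qc n (s / d) (z i)| =
          ∏ i, if i = l then |qc n (s / d) a - qc n (s / d) (a + 1)| else qc n (s / d) (z i) := by
        rw [← Finset.mul_prod_erase Finset.univ _ (Finset.mem_univ l),
          ← Finset.mul_prod_erase Finset.univ (fun i => qc n (s / d) (z i)) (Finset.mem_univ l),
          ← Finset.mul_prod_erase Finset.univ (fun i => if i = l then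
            |qc n (s / d) a - qc n (s / d) (a + 1)| else qc n (s / d) (z i)) (Finset.mem_univ l)]
        have e2 : ∏ i ∈ Finset.univ.erase l, qc n (s / d) ((z + w) i) =
            ∏ i ∈ Finset.univ.erase l, qc n (s / d) (z i) :=
          Finset.prod_congr rfl fun i hi => by rw [hne' i (Finset.ne_of_mem_erase hi)]
        have e3 : (∏ i ∈ Finset.univ.erase l, if i = l then
            |qc n (s / d) a - qc n (s / d) (a + 1)| else qc n (s / d) (z i)) =
            ∏ i ∈ Finset.univ.erase l, qc n (s / d) (z i) :=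
          Finset.prod_congr rfl fun i hi => if_neg (Finset.ne_of_mem_erase hi)
        rw [e2, e3, if_pos rfl, ← sub_mul, abs_mul, hab]
        congr 1
        exact abs_of_nonneg (Finset.prod_nonneg fun i _ => qc_nonneg n _ ha _)
      have hnn : ∀ i, 0 ≤ if i = l then |qc n (s / d) a - qc n (s / d) (a + 1)|
          else qc n (s / d) (z i) := by
        intro i
        split_ifs
        · exact abs_nonneg _
        · exact qc_nonneg n _ ha _
      rw [hprod]
      constructor
      · calc (∏ i, if i = l then |qc n (s / d) a - qc n (s / d) (a + 1)|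
                else qc n (s / d) (z i))
            ≤ ∏ i : Fin d, ((K * (Real.sqrt (1 + s / d))⁻¹) *
                (if i = l then (Real.sqrt (1 + s / d))⁻¹ else 1)) :=
              Finset.prod_le_prod (fun i _ => hnn i) fun i _ => by
                by_cases hi : i = l
                · rw [if_pos hi, if_pos hi, mul_assoc, ← hvv]
                  exact (h2 n _ ha hb _).trans (mul_le_mul_of_nonneg_right (by linarith)
                    (by positivity))
                · rw [if_neg hi, if_neg hi, mul_one]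
                  exact (h0 n _ ha hb _).trans (mul_le_mul_of_nonneg_right (by linarith) hv)
          _ = K ^ d * (Real.sqrt (1 + s / d))⁻¹ ^ (d + 1) := by
              rw [Finset.prod_mul_distrib, Finset.prod_const, Finset.card_univ, Fintype.card_fin,
                mul_pow, Finset.prod_ite_eq', if_pos (Finset.mem_univ _), mul_assoc, ← pow_succ]
      · calc (∏ i, if i = l then |qc n (s / d) a - qc n (s / d) (a + 1)|
                else qc n (s / d) (z i))
            ≤ ∏ i : Fin d, ((K * (Real.sqrt (1 + s / d))⁻¹) *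
                (if i = l then (Real.sqrt (1 + s / d))⁻¹ else 1) *
                (if i = i0 then ((1 + s / d) / rho z ^ 2) ^ d else 1)) :=
              Finset.prod_le_prod (fun i _ => hnn i) fun i _ => by
                by_cases hi : i = l
                · rw [if_pos hi, if_pos hi, mul_assoc K, ← hvv]
                  by_cases hi' : i = i0
                  · rw [if_pos hi', hR0, ← hi', hi, ← haa]
                    exact (h3 n _ ha hb _).trans (mul_le_mul_of_nonneg_right
                      (mul_le_mul_of_nonneg_right (by linarith) (by positivity)) (by positivity))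
                  · rw [if_neg hi', mul_one]
                    exact (h2 n _ ha hb _).trans (mul_le_mul_of_nonneg_right (by linarith)
                      (by positivity))
                · rw [if_neg hi, if_neg hi, mul_one]
                  by_cases hi' : i = i0
                  · rw [if_pos hi', hi', hR0]
                    exact (h1 n _ ha hb _).trans (mul_le_mul_of_nonneg_right
                      (mul_le_mul_of_nonneg_right (by linarith) hv) (by positivity))
                  · rw [if_neg hi', mul_one]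
                    exact (h0 n _ ha hb _).trans (mul_le_mul_of_nonneg_right (by linarith) hv)
          _ = K ^ d * ((Real.sqrt (1 + s / d))⁻¹ ^ (d + 1) * ((1 + s / d) / rho z ^ 2) ^ d) := by
              rw [Finset.prod_mul_distrib, Finset.prod_mul_distrib, Finset.prod_const,
                Finset.card_univ, Fintype.card_fin, mul_pow, Finset.prod_ite_eq',
                if_pos (Finset.mem_univ _), Finset.prod_ite_eq', if_pos (Finset.mem_univ _),
                pow_succ]
              ring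

end CRW
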