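import Pool.Agent.Lib.CRW.KF

/-!
# Kernel group, KG: short times, discrete sums (see the header of KF)
-/

open Finset

namespace CRW

private theorem pois_bound (x : ℕ → ℝ) (hx : ∀ r, 0 ≤ x r) (g : ℝ → ℝ) (hg : Continuous g)
    (hs : ∀ s : ℝ, 0 ≤ s → HasSum (fun r : ℕ => Real.exp (-s) * s ^ r / r.factorial * x r) (g s))
    (m : ℕ) (L : ℝ) (hL0 : 0 ≤ L) (hL : ∀ r < m, 2 * ((r : ℝ) + 1) ≤ L) :
    ∑ r ∈ range m, x r ≤ 2 * ∫ s in (0 : ℝ)..L, g s := by
  have hc : ∀ r : ℕ, Continuous fun s : ℝ => Real.exp (-s) * s ^ r / r.factorial := by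
    intro r
    fun_prop
  have h1 : ∑ r ∈ range m, x r ≤
      ∑ r ∈ range m, 2 * ∫ s in (0 : ℝ)..L, Real.exp (-s) * s ^ r / r.factorial * x r := by
    refine Finset.sum_le_sum fun r hr => ?_
    rw [intervalIntegral.integral_mul_const]
    have h2 := pois_cut L r (hL r (Finset.mem_range.1 hr))
    nlinarith [hx r]
  refine h1.trans ?_
  have hc' : ∀ r : ℕ, Continuous fun s : ℝ => Real.exp (-s) * s ^ r / r.factorial * x r :=
    fun r => (hc r).mul continuous_const
  have h4 : ∑ r ∈ range m, ∫ s in (0 : ℝ)..L, Real.exp (-s) * s ^ r / r.factorial * x r =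
      ∫ s in (0 : ℝ)..L, ∑ r ∈ range m, Real.exp (-s) * s ^ r / r.factorial * x r :=
    (intervalIntegral.integral_finsetSum
      (f := fun (r : ℕ) (s : ℝ) => Real.exp (-s) * s ^ r / r.factorial * x r)
      (fun r _ => (hc' r).intervalIntegrable _ _)).symm
  rw [← Finset.mul_sum, h4]
  apply mul_le_mul_of_nonneg_left _ (by norm_num)
  refine intervalIntegral.integral_mono_on hL0 ?_ (hg.intervalIntegrable _ _) ?_
  · exact (continuous_finsetSum _ fun r _ => hc' r).intervalIntegrable _ _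
  · intro s hs'
    refine sum_le_hasSum _ (fun r _ => ?_) (hs s hs'.1)
    have h3 : 0 ≤ s := hs'.1
    exact mul_nonneg (by positivity) (hx r)

private theorem qc_cont (n : ℕ) [NeZero n] (d : ℕ) (a : ZMod n) :
    Continuous fun s : ℝ => qc n (s / d) a := by
  unfold qc
  fun_prop

private theorem prod_cont (n : ℕ) [NeZero n] (d : ℕ) (z : Tor d n) :
    Continuous fun s : ℝ => ∏ i, qc n (s / d) (z i) :=
  continuous_finsetProd _ fun i _ => qc_cont n d (z i)

private theorem cut_ok (n : ℕ) : ∀ r < n ^ 2, 2 * ((r : ℝ) + 1) ≤ 3 * (n : ℝ) ^ 2 := by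
  intro r hr
  have h1 : ((r + 1 : ℕ) : ℝ) ≤ ((n ^ 2 : ℕ) : ℝ) := by exact_mod_cast hr
  push_cast at h1
  have h2 : (0 : ℝ) ≤ (n : ℝ) ^ 2 := by positivity
  linarith

theorem short_sum (d : ℕ) (hd : 3 ≤ d) : ∃ C : ℝ, 1 ≤ C ∧ ∀ n : ℕ, [NeZero n] → 3 ≤ n →
    ∀ z : Tor d n, ∑ r ∈ range (n ^ 2), hk d n r z ≤ C / rho z ^ (d - 2) := by
  obtain ⟨C, hC, hI⟩ := prod_int d hd
  refine ⟨2 * C, by linarith, fun n _ hn z => ?_⟩
  have h1 := pois_bound (fun r => hk d n r z) (fun r => hk_nonneg _ _)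
    (fun s => ∏ i, qc n (s / d) (z i)) (prod_cont n d z)
    (fun s hs => pois_prod d n (by omega) s hs z) (n ^ 2) (3 * (n : ℝ) ^ 2) (by positivity)
    (cut_ok n)
  refine h1.trans ?_
  rw [mul_div_assoc]
  exact mul_le_mul_of_nonneg_left (hI n hn z).1 (by norm_num)

theorem short_grad (d : ℕ) (hd : 3 ≤ d) : ∃ C : ℝ, 1 ≤ C ∧ ∀ n : ℕ, [NeZero n] → 3 ≤ n →
    ∀ (z w : Tor d n), stp d n w ≠ 0 → ∑ r ∈ range (n ^ 2),
      |hk d n r (z + w) - hk d n r z| ≤ C / rho z ^ (d - 1) := by
  obtain ⟨C, hC, hI⟩ := prod_int d hd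
  refine ⟨2 * C, by linarith, fun n _ hn z w hw => ?_⟩
  have hP := fun (s : ℝ) (hs : 0 ≤ s) (y : Tor d n) => pois_prod d n (by omega) s hs y
  have hsum : ∀ s : ℝ, 0 ≤ s → HasSum (fun r : ℕ => Real.exp (-s) * s ^ r / r.factorial *
      |hk d n r (z + w) - hk d n r z|)
      |∏ i, qc n (s / d) ((z + w) i) - ∏ i, qc n (s / d) (z i)| := by
    intro s hs
    rcases hk_grad_sign (by omega) z w hw with h | h
    · have e1 : (fun r : ℕ => Real.exp (-s) * s ^ r / r.factorial *
          |hk d n r (z + w) - hk d n r z|) = fun r : ℕ =>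
          Real.exp (-s) * s ^ r / r.factorial * hk d n r z -
            Real.exp (-s) * s ^ r / r.factorial * hk d n r (z + w) := by
        funext r
        rw [abs_of_nonpos (by linarith [h r])]
        ring
      have h2 := (hP s hs z).sub (hP s hs (z + w))
      have h3 : 0 ≤ ∏ i, qc n (s / d) (z i) - ∏ i, qc n (s / d) ((z + w) i) := by
        refine h2.nonneg fun r => ?_
        rw [← mul_sub]
        exact mul_nonneg (by positivity) (by linarith [h r])
      rw [e1, abs_of_nonpos (by linarith)]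
      rw [neg_sub]
      exact h2
    · have e1 : (fun r : ℕ => Real.exp (-s) * s ^ r / r.factorial *
          |hk d n r (z + w) - hk d n r z|) = fun r : ℕ =>
          Real.exp (-s) * s ^ r / r.factorial * hk d n r (z + w) -
            Real.exp (-s) * s ^ r / r.factorial * hk d n r z := by
        funext r
        rw [abs_of_nonneg (by linarith [h r])]
        ring
      have h2 := (hP s hs (z + w)).sub (hP s hs z)
      have h3 : 0 ≤ ∏ i, qc n (s / d) ((z + w) i) - ∏ i, qc n (s / d) (z i) := by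
        refine h2.nonneg fun r => ?_
        rw [← mul_sub]
        exact mul_nonneg (by positivity) (by linarith [h r])
      rw [e1, abs_of_nonneg h3]
      exact h2
  have h1 := pois_bound (fun r => |hk d n r (z + w) - hk d n r z|) (fun r => abs_nonneg _)
    (fun s => |∏ i, qc n (s / d) ((z + w) i) - ∏ i, qc n (s / d) (z i)|)
    (((prod_cont n d (z + w)).sub (prod_cont n d z)).abs) hsum (n ^ 2) (3 * (n : ℝ) ^ 2)
    (by positivity) (cut_ok n)
  refine h1.trans ?_
  rw [mul_div_assoc]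
  exact mul_le_mul_of_nonneg_left ((hI n hn z).2 w hw) (by norm_num)

end CRW
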