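import Pool.Agent.Lib.CRW.KC

/-!
# Kernel group, KH: long times and the diagonal

`lam ξ = 1 - d⁻¹ ∑ sin²(πξ_i/n) ≤ exp(-(4/d) ∑ ξ_i²/n²)` (`valMinAbs`), `0 ≤ lam` (`lam_nonneg`).
With `hk_inv`: `hk r z ≤ N⁻¹ ∑_ξ lam^r ≤ (n⁻¹ ∑_m exp(-(4r/d) m²/n²))^d ≤ (1/n + C/√r)^d` (`theta_sum`),
which gives `diag` (`(a+b)^d ≤ 2^d (a^d + b^d)`, `r^{-d/2} ≤ 1/(r√r)`).
`long`: `|hk r z - N⁻¹| ≤ N⁻¹ ∑_{ξ≠0} lam^r`, and for `r ≥ n²`, with `α = 4r/(d n²) ≥ 4/d`,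
`∑_{ξ≠0} ∏ e^{-α ξ_i²} ≤ e^{-α/2} ∑_ξ ∏ e^{-α ξ_i²/2} ≤ C e^{-α/2}` (some `|ξ_i| ≥ 1`).
`long_grad`: `|ch ξ (z+w) - ch ξ z| ≤ |ch ξ w - 1| ≤ 7 nrm ξ/n` (`norm_ch_single_sub_one`, `ch_neg`), and
`nrm ξ ∏ e^{-α ξ_i²/2} ≤ C ∏ e^{-αξ_i²/4}`.
-/

open Finset

namespace CRW

private theorem kh_npos (n : ℕ) [NeZero n] : (0 : ℝ) < n := by
  exact_mod_cast Nat.pos_of_ne_zero (NeZero.ne n)

/-- Gaussian sums over the torus -/
private theorem kh_gsum (d : ℕ) : ∃ C : ℝ, 1 ≤ C ∧ ∀ n : ℕ, [NeZero n] → ∀ β : ℝ, 0 < β →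
    ∑ ξ : Tor d n, Real.exp (-(β * ∑ i, ((ξ i).valMinAbs : ℝ) ^ 2)) ≤
      (1 + C / Real.sqrt β) ^ d := by
  obtain ⟨C, hC, h⟩ := theta_sum
  refine ⟨C, hC, fun n _ β hβ => ?_⟩
  have h1 : ∑ ξ : Tor d n, Real.exp (-(β * ∑ i, ((ξ i).valMinAbs : ℝ) ^ 2)) =
      (∑ m : ZMod n, Real.exp (-(β * (m.valMinAbs : ℝ) ^ 2))) ^ d := by
    have h2 : ∀ ξ : Tor d n, Real.exp (-(β * ∑ i, ((ξ i).valMinAbs : ℝ) ^ 2)) =
        ∏ i, Real.exp (-(β * ((ξ i).valMinAbs : ℝ) ^ 2)) := by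
      intro ξ
      rw [← Real.exp_sum, Finset.sum_neg_distrib, Finset.mul_sum]
    simp only [h2]
    have h3 := Finset.prod_univ_sum (fun _ : Fin d => (Finset.univ : Finset (ZMod n)))
      (fun _ m => Real.exp (-(β * (m.valMinAbs : ℝ) ^ 2)))
    rw [Finset.prod_const, Finset.card_univ, Fintype.card_fin, Fintype.piFinset_univ] at h3
    exact h3.symm
  rw [h1]
  exact pow_le_pow_left₀ (Finset.sum_nonneg fun _ _ => (Real.exp_pos _).le) (h n β hβ) d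

private theorem kh_sq {d n : ℕ} (ξ : Tor d n) :
    ∑ i, ((ξ i).valMinAbs : ℝ) ^ 2 ≤ d * (nrm ξ : ℝ) ^ 2 := by
  have h1 : ∀ i ∈ (Finset.univ : Finset (Fin d)), ((ξ i).valMinAbs : ℝ) ^ 2 ≤
      (nrm ξ : ℝ) ^ 2 := by
    intro i hi
    have h2 : (ξ i).valMinAbs.natAbs ≤ nrm ξ :=
      Finset.le_sup (f := fun i => (ξ i).valMinAbs.natAbs) hi
    have h3 : ((ξ i).valMinAbs : ℝ) ^ 2 = (((ξ i).valMinAbs.natAbs : ℕ) : ℝ) ^ 2 := by
      rw [Nat.cast_natAbs, Int.cast_abs, sq_abs]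
    rw [h3]
    exact pow_le_pow_left₀ (Nat.cast_nonneg _) (by exact_mod_cast h2) 2
  refine (Finset.sum_le_sum h1).trans ?_
  rw [Finset.sum_const, Finset.card_univ, Fintype.card_fin, nsmul_eq_mul]

private theorem kh_lam {d : ℕ} (hd : 1 ≤ d) {n : ℕ} [NeZero n] (r : ℕ) (ξ : Tor d n) :
    lam ξ ^ r ≤ Real.exp (-(r * (4 * (nrm ξ : ℝ) ^ 2 / (d * n ^ 2)))) := by
  have h1 := one_sub_lam_ge hd ξ
  have h2 : lam ξ ≤ Real.exp (-(4 * (nrm ξ : ℝ) ^ 2 / (d * n ^ 2))) := by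
    have := Real.add_one_le_exp (-(4 * (nrm ξ : ℝ) ^ 2 / (d * n ^ 2)))
    linarith
  refine (pow_le_pow_left₀ (lam_nonneg hd ξ) h2 r).trans ?_
  rw [← Real.exp_nat_mul]
  apply le_of_eq
  congr 1
  ring

/-- the exponent, split -/
private theorem kh_split {d : ℕ} (hd : 1 ≤ d) {n : ℕ} [NeZero n] (r : ℕ) (ξ : Tor d n)
    {x : ℝ} (hx : 0 ≤ x) :
    Real.exp (-(r * (x * (nrm ξ : ℝ) ^ 2 / (d * n ^ 2)))) ≤
      Real.exp (-(x * r / (d ^ 2 * n ^ 2) * ∑ i, ((ξ i).valMinAbs : ℝ) ^ 2)) := by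
  have hd' : (0 : ℝ) < d := by exact_mod_cast hd
  have hn := kh_npos n
  apply Real.exp_le_exp.2
  have h1 : x * r / (d ^ 2 * n ^ 2) * ∑ i, ((ξ i).valMinAbs : ℝ) ^ 2 ≤
      x * r / (d ^ 2 * n ^ 2) * (d * (nrm ξ : ℝ) ^ 2) :=
    mul_le_mul_of_nonneg_left (kh_sq ξ) (by positivity)
  have h2 : x * r / ((d : ℝ) ^ 2 * n ^ 2) * (d * (nrm ξ : ℝ) ^ 2) =
      r * (x * (nrm ξ : ℝ) ^ 2 / (d * n ^ 2)) := by
    field_simp
  linarith

theorem hk_diag (d : ℕ) (hd : 3 ≤ d) : ∃ C : ℝ, 1 ≤ C ∧ ∀ n : ℕ, [NeZero n] → 3 ≤ n →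
    ∀ (r : ℕ) (z : Tor d n), 1 ≤ r → hk d n r z ≤ C * (1 / (r * Real.sqrt r) + 1 / NN d n) := by
  obtain ⟨C, hC, hG⟩ := kh_gsum d
  have hd1 : 1 ≤ d := by omega
  have hd' : (0 : ℝ) < d := by exact_mod_cast hd1
  refine ⟨2 ^ (d - 1) * (1 + (C * d / 2) ^ d), ?_, ?_⟩
  · have h1 : (1 : ℝ) ≤ 2 ^ (d - 1) := one_le_pow₀ (by norm_num)
    have h2 : 0 ≤ (C * d / 2) ^ d := by positivity
    nlinarith
  intro n _ hn r z hr
  have hn' := kh_npos n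
  have hN : 0 < NN d n := NN_pos
  have hr' : (1 : ℝ) ≤ r := by exact_mod_cast hr
  have hr0 : (0 : ℝ) < r := by linarith
  have hsr : 1 ≤ Real.sqrt r := by
    rw [Real.one_le_sqrt]; exact hr'
  have hsr0 : 0 < Real.sqrt r := by linarith
  set β : ℝ := 4 * r / (d ^ 2 * n ^ 2) with hβ
  have hβ0 : 0 < β := by positivity
  have h1 : hk d n r z ≤ (NN d n)⁻¹ * ∑ ξ : Tor d n, lam ξ ^ r := by
    have h2 := congrArg norm (hk_inv hd1 r z)
    rw [Complex.norm_real, Real.norm_eq_abs, abs_of_nonneg (hk_nonneg r z), norm_mul, norm_inv,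
      Complex.norm_real, Real.norm_eq_abs, abs_of_pos hN] at h2
    rw [h2]
    refine mul_le_mul_of_nonneg_left ((norm_sum_le _ _).trans (Finset.sum_le_sum fun ξ _ => ?_))
      (inv_nonneg.2 hN.le)
    rw [norm_mul, norm_ch, mul_one, norm_pow, Complex.norm_real, Real.norm_eq_abs,
      abs_of_nonneg (lam_nonneg hd1 ξ)]
  have h3 : ∑ ξ : Tor d n, lam ξ ^ r ≤ (1 + C / Real.sqrt β) ^ d := by
    refine le_trans (Finset.sum_le_sum fun ξ _ => ?_) (hG n β hβ0)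
    exact (kh_lam hd1 r ξ).trans (kh_split hd1 r ξ (by norm_num))
  have hsβ : Real.sqrt β = 2 * Real.sqrt r / (d * n) := by
    rw [hβ, Real.sqrt_div (by positivity), Real.sqrt_mul (by norm_num),
      show (d : ℝ) ^ 2 * (n : ℝ) ^ 2 = (d * n) ^ 2 by ring, Real.sqrt_sq (by positivity),
      show (4 : ℝ) = 2 ^ 2 by norm_num, Real.sqrt_sq (by norm_num)]
  have h4 : (NN d n)⁻¹ * (1 + C / Real.sqrt β) ^ d =
      (1 / n + C * d / 2 * (1 / Real.sqrt r)) ^ d := by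
    unfold NN
    rw [← inv_pow, ← mul_pow, hsβ]
    congr 1
    field_simp
  have h5 : (1 / Real.sqrt r) ^ d ≤ 1 / (r * Real.sqrt r) := by
    have h6 : (1 / Real.sqrt r) ^ d ≤ (1 / Real.sqrt r) ^ 3 := by
      refine pow_le_pow_of_le_one (by positivity) ?_ hd
      rw [div_le_one hsr0]; exact hsr
    refine h6.trans (le_of_eq ?_)
    rw [div_pow, one_pow]
    congr 1
    rw [pow_succ, Real.sq_sqrt hr0.le]
  have h7 : (1 / (n : ℝ)) ^ d = 1 / NN d n := by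
    unfold NN
    rw [div_pow, one_pow]
  calc hk d n r z ≤ (NN d n)⁻¹ * ∑ ξ : Tor d n, lam ξ ^ r := h1
    _ ≤ (NN d n)⁻¹ * (1 + C / Real.sqrt β) ^ d :=
      mul_le_mul_of_nonneg_left h3 (inv_nonneg.2 hN.le)
    _ = (1 / n + C * d / 2 * (1 / Real.sqrt r)) ^ d := h4
    _ ≤ 2 ^ (d - 1) * ((1 / n) ^ d + (C * d / 2 * (1 / Real.sqrt r)) ^ d) :=
      add_pow_le (by positivity) (by positivity) d
    _ = 2 ^ (d - 1) * (1 / NN d n + (C * d / 2) ^ d * (1 / Real.sqrt r) ^ d) := by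
      rw [h7, mul_pow]
    _ ≤ 2 ^ (d - 1) * (1 / NN d n + (C * d / 2) ^ d * (1 / (r * Real.sqrt r))) := by
      have : (C * d / 2) ^ d * (1 / Real.sqrt r) ^ d ≤
          (C * d / 2) ^ d * (1 / (r * Real.sqrt r)) :=
        mul_le_mul_of_nonneg_left h5 (by positivity)
      exact mul_le_mul_of_nonneg_left (by linarith) (by positivity)
    _ ≤ 2 ^ (d - 1) * (1 + (C * d / 2) ^ d) * (1 / (r * Real.sqrt r) + 1 / NN d n) := by
      rw [mul_assoc]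
      refine mul_le_mul_of_nonneg_left ?_ (by positivity)
      have e1 : 0 ≤ 1 / (r * Real.sqrt r) := by positivity
      have e2 : 0 ≤ (C * d / 2) ^ d * (1 / NN d n) := by positivity
      nlinarith

/-- `1 + C / √β ≤ 1 + C d` for `β = 2 r / (d² n²)`, `r ≥ n²` -/
private theorem kh_beta {d : ℕ} (hd : 1 ≤ d) {n : ℕ} [NeZero n] {C : ℝ} (hC : 1 ≤ C) {r : ℕ}
    (hr : n ^ 2 ≤ r) :
    0 < 2 * (r : ℝ) / (d ^ 2 * n ^ 2) ∧
      (1 + C / Real.sqrt (2 * (r : ℝ) / (d ^ 2 * n ^ 2))) ^ d ≤ (1 + C * d) ^ d := by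
  have hn := kh_npos n
  have hd' : (0 : ℝ) < d := by exact_mod_cast hd
  have hr' : (n : ℝ) ^ 2 ≤ r := by exact_mod_cast hr
  have hr0 : (0 : ℝ) < r := lt_of_lt_of_le (by positivity) hr'
  have h0 : 0 < 2 * (r : ℝ) / (d ^ 2 * n ^ 2) := by positivity
  refine ⟨h0, ?_⟩
  have h1 : 1 / (d : ℝ) ≤ Real.sqrt (2 * (r : ℝ) / (d ^ 2 * n ^ 2)) := by
    apply Real.le_sqrt_of_sq_le
    rw [div_pow, one_pow, div_le_div_iff₀ (by positivity) (by positivity)]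
    nlinarith [sq_nonneg (d : ℝ), mul_le_mul_of_nonneg_right hr' (sq_nonneg (d : ℝ)),
      mul_nonneg hr0.le (sq_nonneg (d : ℝ))]
  have h2 : C / Real.sqrt (2 * (r : ℝ) / (d ^ 2 * n ^ 2)) ≤ C * d := by
    rw [div_le_iff₀ (Real.sqrt_pos.2 h0)]
    have h3 := mul_le_mul_of_nonneg_left h1 (show 0 ≤ C * d by positivity)
    have h4 : C * d * (1 / (d : ℝ)) = C := by field_simp
    rw [h4] at h3
    exact h3
  refine pow_le_pow_left₀ (by positivity) (by linarith) d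

private theorem kh_nrm {d n : ℕ} [NeZero n] {ξ : Tor d n} (h : ξ ≠ 0) : (1 : ℝ) ≤ nrm ξ := by
  have : nrm ξ ≠ 0 := fun h0 => h (nrm_eq_zero.mp h0)
  exact_mod_cast Nat.one_le_iff_ne_zero.2 this

theorem hk_long (d : ℕ) (hd : 3 ≤ d) : ∃ c C : ℝ, 0 < c ∧ 1 ≤ C ∧
    ∀ n : ℕ, [NeZero n] → 3 ≤ n → ∀ (r : ℕ) (z : Tor d n), n ^ 2 ≤ r →
      |hk d n r z - (NN d n)⁻¹| ≤ C / NN d n * Real.exp (-c * r / n ^ 2) := by
  classical
  obtain ⟨C, hC, hG⟩ := kh_gsum d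
  have hd1 : 1 ≤ d := by omega
  have hd' : (0 : ℝ) < d := by exact_mod_cast hd1
  refine ⟨2 / d, (1 + C * d) ^ d, by positivity, one_le_pow₀ (by nlinarith), ?_⟩
  intro n _ hn r z hr
  have hn' := kh_npos n
  have hN : 0 < NN d n := NN_pos
  obtain ⟨hβ0, hβ⟩ := kh_beta (d := d) hd1 (n := n) hC hr
  have h1 : ((hk d n r z - (NN d n)⁻¹ : ℝ) : ℂ) =
      (NN d n : ℂ)⁻¹ * ∑ ξ ∈ univ.erase (0 : Tor d n), (lam ξ : ℂ) ^ r * ch ξ z := by
    have h2 : (∑ ξ : Tor d n, (lam ξ : ℂ) ^ r * ch ξ z) =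
        1 + ∑ ξ ∈ univ.erase (0 : Tor d n), (lam ξ : ℂ) ^ r * ch ξ z := by
      rw [← Finset.add_sum_erase univ _ (Finset.mem_univ (0 : Tor d n)), lam_zero hd1,
        ch_zero_left]
      simp
    push_cast
    rw [hk_inv hd1 r z, h2]
    ring
  have h3 : |hk d n r z - (NN d n)⁻¹| ≤
      (NN d n)⁻¹ * ∑ ξ ∈ univ.erase (0 : Tor d n), lam ξ ^ r := by
    have h2 := congrArg norm h1
    rw [Complex.norm_real, Real.norm_eq_abs, norm_mul, norm_inv,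
      Complex.norm_real, Real.norm_eq_abs, abs_of_pos hN] at h2
    rw [h2]
    refine mul_le_mul_of_nonneg_left ((norm_sum_le _ _).trans (Finset.sum_le_sum fun ξ _ => ?_))
      (inv_nonneg.2 hN.le)
    rw [norm_mul, norm_ch, mul_one, norm_pow, Complex.norm_real, Real.norm_eq_abs,
      abs_of_nonneg (lam_nonneg hd1 ξ)]
  have h4 : ∀ ξ ∈ univ.erase (0 : Tor d n), lam ξ ^ r ≤ Real.exp (-(2 / d) * r / n ^ 2) *
      Real.exp (-(2 * r / (d ^ 2 * n ^ 2) * ∑ i, ((ξ i).valMinAbs : ℝ) ^ 2)) := by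
    intro ξ hξ
    have hξ0 := kh_nrm (Finset.ne_of_mem_erase hξ)
    have hsq : (1 : ℝ) ≤ (nrm ξ : ℝ) ^ 2 := one_le_pow₀ hξ0
    refine (kh_lam hd1 r ξ).trans ?_
    have e1 : Real.exp (-(r * (4 * (nrm ξ : ℝ) ^ 2 / (d * n ^ 2)))) =
        Real.exp (-(r * (2 * (nrm ξ : ℝ) ^ 2 / (d * n ^ 2)))) *
          Real.exp (-(r * (2 * (nrm ξ : ℝ) ^ 2 / (d * n ^ 2)))) := by
      rw [← Real.exp_add]
      congr 1
      ring
    rw [e1]
    refine mul_le_mul ?_ (kh_split hd1 r ξ (by norm_num)) (Real.exp_pos _).le (Real.exp_pos _).le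
    apply Real.exp_le_exp.2
    have e2 : -(2 / (d : ℝ)) * r / n ^ 2 = -(r * (2 * 1 / (d * n ^ 2))) := by
      field_simp
    rw [e2]
    apply neg_le_neg
    refine mul_le_mul_of_nonneg_left ?_ (Nat.cast_nonneg r)
    exact div_le_div_of_nonneg_right (by linarith) (by positivity)
  have h5 : ∑ ξ ∈ univ.erase (0 : Tor d n), lam ξ ^ r ≤
      Real.exp (-(2 / d) * r / n ^ 2) * (1 + C * d) ^ d := by
    refine (Finset.sum_le_sum h4).trans ?_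
    rw [← Finset.mul_sum]
    refine mul_le_mul_of_nonneg_left ?_ (Real.exp_pos _).le
    refine (Finset.sum_le_sum_of_subset_of_nonneg (Finset.erase_subset _ _)
      fun ξ _ _ => (Real.exp_pos _).le).trans ?_
    exact (hG n _ hβ0).trans hβ
  refine h3.trans ((mul_le_mul_of_nonneg_left h5 (inv_nonneg.2 hN.le)).trans (le_of_eq ?_))
  ring

private theorem kh_step {d n : ℕ} [NeZero n] (hd : 1 ≤ d) (ξ : Tor d n) {w : Tor d n}
    (hw : stp d n w ≠ 0) : ‖ch ξ w - 1‖ ≤ 7 * nrm ξ / n := by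
  have hn := kh_npos n
  by_cases h0 : w = 0
  · rw [h0, ch_zero, sub_self, norm_zero]
    positivity
  by_cases h1 : ∃ i, w = Pi.single i 1
  · obtain ⟨i, rfl⟩ := h1
    exact norm_ch_single_sub_one ξ i
  by_cases h2 : ∃ i, w = -Pi.single i 1
  · obtain ⟨i, rfl⟩ := h2
    rw [ch_neg]
    have h3 : (starRingEnd ℂ) (ch ξ (Pi.single i 1)) - 1 =
        (starRingEnd ℂ) (ch ξ (Pi.single i 1) - 1) := by
      rw [map_sub, map_one]
    rw [h3, RCLike.norm_conj]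
    exact norm_ch_single_sub_one ξ i
  · exfalso
    apply hw
    unfold stp
    rw [if_neg h0, zero_add]
    refine Finset.sum_eq_zero fun i _ => ?_
    rw [if_neg fun h => h1 ⟨i, h⟩, if_neg fun h => h2 ⟨i, h⟩]
    simp

theorem hk_long_grad (d : ℕ) (hd : 3 ≤ d) : ∃ c C : ℝ, 0 < c ∧ 1 ≤ C ∧
    ∀ n : ℕ, [NeZero n] → 3 ≤ n → ∀ (r : ℕ) (z w : Tor d n), n ^ 2 ≤ r → stp d n w ≠ 0 →
      |hk d n r (z + w) - hk d n r z| ≤ C / (n * NN d n) * Real.exp (-c * r / n ^ 2) := by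
  classical
  obtain ⟨C, hC, hG⟩ := kh_gsum d
  have hd1 : 1 ≤ d := by omega
  have hd' : (0 : ℝ) < d := by exact_mod_cast hd1
  have hd'' : (1 : ℝ) ≤ d := by exact_mod_cast hd1
  refine ⟨1 / d, 7 * d * (1 + C * d) ^ d, by positivity, ?_, ?_⟩
  · have : (1 : ℝ) ≤ (1 + C * d) ^ d := one_le_pow₀ (by nlinarith)
    nlinarith
  intro n _ hn r z w hr hw
  have hn' := kh_npos n
  have hN : 0 < NN d n := NN_pos
  have hr' : (n : ℝ) ^ 2 ≤ r := by exact_mod_cast hr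
  obtain ⟨hβ0, hβ⟩ := kh_beta (d := d) hd1 (n := n) hC hr
  have h1 : ((hk d n r (z + w) - hk d n r z : ℝ) : ℂ) =
      (NN d n : ℂ)⁻¹ * ∑ ξ : Tor d n, (lam ξ : ℂ) ^ r * (ch ξ z * (ch ξ w - 1)) := by
    push_cast
    rw [hk_inv hd1 r z, hk_inv hd1 r (z + w), ← mul_sub, ← Finset.sum_sub_distrib]
    congr 1
    refine Finset.sum_congr rfl fun ξ _ => ?_
    rw [ch_add]
    ring
  have h3 : |hk d n r (z + w) - hk d n r z| ≤
      (NN d n)⁻¹ * ∑ ξ : Tor d n, lam ξ ^ r * (7 * nrm ξ / n) := by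
    have h2 := congrArg norm h1
    rw [Complex.norm_real, Real.norm_eq_abs, norm_mul, norm_inv,
      Complex.norm_real, Real.norm_eq_abs, abs_of_pos hN] at h2
    rw [h2]
    refine mul_le_mul_of_nonneg_left ((norm_sum_le _ _).trans (Finset.sum_le_sum fun ξ _ => ?_))
      (inv_nonneg.2 hN.le)
    rw [norm_mul, norm_mul, norm_ch, one_mul, norm_pow, Complex.norm_real, Real.norm_eq_abs,
      abs_of_nonneg (lam_nonneg hd1 ξ)]
    exact mul_le_mul_of_nonneg_left (kh_step hd1 ξ hw) (pow_nonneg (lam_nonneg hd1 ξ) r)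
  have h4 : ∀ ξ : Tor d n, lam ξ ^ r * (7 * nrm ξ / n) ≤
      7 * d / n * (Real.exp (-(1 / d) * r / n ^ 2) *
      Real.exp (-(2 * r / (d ^ 2 * n ^ 2) * ∑ i, ((ξ i).valMinAbs : ℝ) ^ 2))) := by
    intro ξ
    by_cases hξ : ξ = 0
    · rw [hξ, nrm_zero, Nat.cast_zero, mul_zero, zero_div, mul_zero]
      positivity
    have hξ0 := kh_nrm hξ
    have hsq : (1 : ℝ) ≤ (nrm ξ : ℝ) ^ 2 := one_le_pow₀ hξ0
    have e1 : Real.exp (-(r * (4 * (nrm ξ : ℝ) ^ 2 / (d * n ^ 2)))) =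
        Real.exp (-(r * (1 * (nrm ξ : ℝ) ^ 2 / (d * n ^ 2)))) *
          (Real.exp (-(r * (1 * (nrm ξ : ℝ) ^ 2 / (d * n ^ 2)))) *
          Real.exp (-(r * (2 * (nrm ξ : ℝ) ^ 2 / (d * n ^ 2))))) := by
      rw [← Real.exp_add, ← Real.exp_add]
      congr 1
      ring
    have e2 : Real.exp (-(r * (1 * (nrm ξ : ℝ) ^ 2 / (d * n ^ 2)))) * nrm ξ ≤ d := by
      have f1 : (nrm ξ : ℝ) ^ 2 / d ≤ r * (1 * (nrm ξ : ℝ) ^ 2 / (d * n ^ 2)) := by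
        have f2 : r * (1 * (nrm ξ : ℝ) ^ 2 / (d * n ^ 2)) =
            (r / n ^ 2) * ((nrm ξ : ℝ) ^ 2 / d) := by
          field_simp
        rw [f2]
        refine le_mul_of_one_le_left (by positivity) ?_
        rw [one_le_div (by positivity)]
        exact hr'
      have f3 : Real.exp (-(r * (1 * (nrm ξ : ℝ) ^ 2 / (d * n ^ 2)))) ≤
          Real.exp (-((nrm ξ : ℝ) ^ 2 / d)) := Real.exp_le_exp.2 (neg_le_neg f1)
      have f4 : (nrm ξ : ℝ) ^ 2 / d ≤ Real.exp ((nrm ξ : ℝ) ^ 2 / d) := by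
        have := Real.add_one_le_exp ((nrm ξ : ℝ) ^ 2 / d)
        linarith
      have f5 : (nrm ξ : ℝ) ≤ d * Real.exp ((nrm ξ : ℝ) ^ 2 / d) := by
        have f6 : (nrm ξ : ℝ) ≤ (nrm ξ : ℝ) ^ 2 := by nlinarith
        have f7 : (nrm ξ : ℝ) ^ 2 = d * ((nrm ξ : ℝ) ^ 2 / d) := by field_simp
        have f8 := mul_le_mul_of_nonneg_left f4 hd'.le
        linarith
      calc Real.exp (-(r * (1 * (nrm ξ : ℝ) ^ 2 / (d * n ^ 2)))) * nrm ξ ≤
            Real.exp (-((nrm ξ : ℝ) ^ 2 / d)) * (d * Real.exp ((nrm ξ : ℝ) ^ 2 / d)) :=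
            mul_le_mul f3 f5 (by linarith) (Real.exp_pos _).le
        _ = d * (Real.exp (-((nrm ξ : ℝ) ^ 2 / d)) * Real.exp ((nrm ξ : ℝ) ^ 2 / d)) := by ring
        _ = d := by rw [← Real.exp_add, neg_add_cancel, Real.exp_zero, mul_one]
    have e3 : Real.exp (-(r * (1 * (nrm ξ : ℝ) ^ 2 / (d * n ^ 2)))) ≤
        Real.exp (-(1 / d) * r / n ^ 2) := by
      apply Real.exp_le_exp.2
      have f2 : -(1 / (d : ℝ)) * r / n ^ 2 = -(r * (1 * 1 / (d * n ^ 2))) := by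
        field_simp
      rw [f2]
      apply neg_le_neg
      refine mul_le_mul_of_nonneg_left ?_ (Nat.cast_nonneg r)
      exact div_le_div_of_nonneg_right (by linarith) (by positivity)
    have e4 := kh_split hd1 r ξ (x := 2) (by norm_num)
    calc lam ξ ^ r * (7 * nrm ξ / n) ≤
          Real.exp (-(r * (4 * (nrm ξ : ℝ) ^ 2 / (d * n ^ 2)))) * (7 * nrm ξ / n) :=
          mul_le_mul_of_nonneg_right (kh_lam hd1 r ξ) (by positivity)
      _ = 7 / n * ((Real.exp (-(r * (1 * (nrm ξ : ℝ) ^ 2 / (d * n ^ 2)))) * nrm ξ) *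
          (Real.exp (-(r * (1 * (nrm ξ : ℝ) ^ 2 / (d * n ^ 2)))) *
          Real.exp (-(r * (2 * (nrm ξ : ℝ) ^ 2 / (d * n ^ 2)))))) := by
          rw [e1]; ring
      _ ≤ 7 / n * (d * (Real.exp (-(1 / d) * r / n ^ 2) *
          Real.exp (-(2 * r / (d ^ 2 * n ^ 2) * ∑ i, ((ξ i).valMinAbs : ℝ) ^ 2)))) := by
          refine mul_le_mul_of_nonneg_left ?_ (by positivity)
          refine mul_le_mul e2 ?_ (by positivity) hd'.le
          exact mul_le_mul e3 e4 (Real.exp_pos _).le (Real.exp_pos _).le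
      _ = _ := by ring
  have h5 : ∑ ξ : Tor d n, lam ξ ^ r * (7 * nrm ξ / n) ≤
      7 * d / n * (Real.exp (-(1 / d) * r / n ^ 2) * (1 + C * d) ^ d) := by
    refine (Finset.sum_le_sum fun ξ _ => h4 ξ).trans ?_
    rw [← Finset.mul_sum, ← Finset.mul_sum]
    refine mul_le_mul_of_nonneg_left (mul_le_mul_of_nonneg_left ?_ (Real.exp_pos _).le)
      (by positivity)
    exact (hG n _ hβ0).trans hβ
  refine h3.trans ((mul_le_mul_of_nonneg_left h5 (inv_nonneg.2 hN.le)).trans (le_of_eq ?_))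
  field_simp

end CRW
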