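import Pool.Agent.Lib.CRW.PC2
import Pool.Agent.Lib.CRW.PB2

/-!
# Module PD: conditional expectations and the martingale formula for the variance

PROOFS.  `ER_cnd`: induction on `k` (generalizing `t`); `k = 0` is `ER_succ`; step: `ER (t+1+k+1) F = EP (t+1) (cnd k (t+1) F)` and the
definition of `EP (t+1)`, `cnd (k+1)`.
`cnd_lrec`: induction on `k`, `lrec_update_succ` (see the header of Defs: `val a ψ 0 t r b = ψ (upd a t b r)`).
`VR_formula`: let `v t = cnd (M - t) t F`.  `ER (M+1) (F²) = EP M ((cnd 0 M F)²)` and for `t < M`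
`EP (t+1) ((v (t+1))²) - EP t ((v t)²) = EP t (fun η b => Gam (v (t+1) (update η t b)) b)` because
`v t η b = ∑ w, stp w * v (t+1) (update η t b) (b+w)`; telescoping sum; `ER (M+1) F = EP 0 (v 0)`.
-/

open Finset

namespace CRW

variable {d n : ℕ} [NeZero n]

section
variable {E : Type} [AddCommGroup E] [Module ℝ E]

theorem ER_cnd (hd : 1 ≤ d) (t k : ℕ) (F : (ℕ → Tor d n) → E) : ER (t + k + 1) F = EP t (cnd k t F) := by
  induction k generalizing t with
  | zero => exact ER_succ hd t F
  | succ k ih =>
    have e : t + (k + 1) + 1 = t + 1 + k + 1 := by omega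
    rw [e, ih (t + 1)]
    rfl

theorem cnd_add (k t : ℕ) (F G : (ℕ → Tor d n) → E) (η : ℕ → Tor d n) (b : Tor d n) :
    cnd k t (fun η => F η + G η) η b = cnd k t F η b + cnd k t G η b := by
  induction k generalizing t η b with
  | zero => rfl
  | succ k ih =>
    simp only [cnd]
    rw [← Finset.sum_add_distrib]
    refine Finset.sum_congr rfl fun w _ => ?_
    rw [ih, smul_add]

theorem cnd_sum {ι : Type} (s : Finset ι) (k t : ℕ) (F : ι → (ℕ → Tor d n) → E)
    (η : ℕ → Tor d n) (b : Tor d n) :
    cnd k t (fun η => ∑ i ∈ s, F i η) η b = ∑ i ∈ s, cnd k t (F i) η b := by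
  induction k generalizing t η b with
  | zero => rfl
  | succ k ih =>
    simp only [cnd]
    rw [Finset.sum_comm]
    refine Finset.sum_congr rfl fun w _ => ?_
    rw [ih, Finset.smul_sum]

theorem cnd_lrec (a : Fin 2 → Tor d n) (ψ : Rec → E) (k t : ℕ) (x : Tor d n)
    (η : ℕ → Tor d n) (b : Tor d n) :
    cnd k t (fun η => ψ (lrec a η x (t + k + 1))) η b =
      val a ψ k t (lrec a η x t) (b - x) := by
  induction k generalizing t η b with
  | zero =>
    show ψ (lrec a (Function.update η t b) x (t + 0 + 1)) = ψ (upd a t (b - x) (lrec a η x t))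
    rw [add_zero, lrec_update_succ]
  | succ k ih =>
    show (∑ w, stp d n w • cnd k (t + 1) (fun η => ψ (lrec a η x (t + (k + 1) + 1)))
      (Function.update η t b) (b + w)) = ∑ w, stp d n w • pv a ψ k (t + 1)
        (upd a (t + 1) (b - x + w) (upd a t (b - x) (lrec a η x t))) (b - x + w)
    refine Finset.sum_congr rfl fun w _ => ?_
    have e : t + (k + 1) + 1 = t + 1 + k + 1 := by omega
    rw [e, ih (t + 1), lrec_update_succ, show b + w - x = b - x + w by abel]
    rfl

/-- expectation of a function of the record of one pair and of the position at a time `t` -/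
theorem ER_lrec (hd : 1 ≤ d) (a : Fin 2 → Tor d n) (ψ : Rec → E) (x : Tor d n) (t k : ℕ) :
    ER (t + k + 1) (fun η => ψ (lrec a η x (t + k + 1))) =
      EP t fun η b => val a ψ k t (lrec a η x t) (b - x) := by
  rw [ER_cnd hd]
  congr 1
  funext η b
  exact cnd_lrec a ψ k t x η b

private theorem cnd_mul_past (k t s : ℕ) (hs : s < t) (G : (ℕ → Tor d n) → ℂ)
    (g : Tor d n → ℂ) (η : ℕ → Tor d n) (b : Tor d n) :
    cnd k t (fun η => G η * g (η s)) η b = cnd k t G η b * g (η s) := by
  induction k generalizing t η b with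
  | zero =>
    show G (Function.update η t b) * g (Function.update η t b s) = _
    rw [Function.update_of_ne (ne_of_lt hs)]
    rfl
  | succ k ih =>
    simp only [cnd]
    rw [Finset.sum_mul]
    refine Finset.sum_congr rfl fun w _ => ?_
    rw [ih (t + 1) (by omega), Function.update_of_ne (ne_of_lt hs), smul_mul_assoc]

private theorem cnd_mul_pres (k t : ℕ) (G : (ℕ → Tor d n) → ℂ)
    (g : Tor d n → ℂ) (η : ℕ → Tor d n) (b : Tor d n) :
    cnd k t (fun η => G η * g (η t)) η b = cnd k t G η b * g b := by
  cases k with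
  | zero =>
    show G (Function.update η t b) * g (Function.update η t b t) = _
    rw [Function.update_self]
    rfl
  | succ k =>
    simp only [cnd]
    rw [Finset.sum_mul]
    refine Finset.sum_congr rfl fun w _ => ?_
    rw [cnd_mul_past k (t + 1) t (by omega), Function.update_self, smul_mul_assoc]

/-- expectation of a function of the record times a function of the position at time `t` -/
theorem ER_lrec_pos (hd : 1 ≤ d) (a : Fin 2 → Tor d n) (ψ : Rec → ℂ) (g : Tor d n → ℂ) (t k : ℕ) :
    ER (t + k + 1) (fun η => ψ (lrec a η 0 (t + k + 1)) * g (η t)) =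
      EP t fun η b => val a ψ k t (lrec a η 0 t) b * g b := by
  rw [ER_cnd hd]
  congr 1
  funext η b
  rw [cnd_mul_pres k t (fun η => ψ (lrec a η 0 (t + k + 1))) g η b,
    cnd_lrec a ψ k t 0 η b, sub_zero]

end

theorem VR_formula (hd : 1 ≤ d) (M : ℕ) (F : (ℕ → Tor d n) → ℝ) : VR (M + 1) F =
    (EP 0 (fun η b => cnd M 0 F η b ^ 2) - EP 0 (cnd M 0 F) ^ 2) +
      ∑ t ∈ range M, EP t fun η b =>
        Gam (cnd (M - 1 - t) (t + 1) F (Function.update η t b)) b := by
  have key : ∀ m, m ≤ M → EP m (fun η b => cnd (M - m) m F η b ^ 2) =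
      EP 0 (fun η b => cnd M 0 F η b ^ 2) + ∑ t ∈ range m, EP t fun η b =>
        Gam (cnd (M - 1 - t) (t + 1) F (Function.update η t b)) b := by
    intro m
    induction m with
    | zero => intro _; simp
    | succ m ih =>
      intro hm
      rw [Finset.sum_range_succ, ← add_assoc, ← ih (by omega), ← EP_add]
      show EP m (fun η b => ∑ w, stp d n w •
        cnd (M - (m + 1)) (m + 1) F (Function.update η m b) (b + w) ^ 2) = _
      congr 1
      funext η b
      have e1 : M - m = (M - 1 - m) + 1 := by omega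
      have e2 : M - (m + 1) = M - 1 - m := by omega
      rw [e1, e2]
      simp only [cnd, Gam, smul_eq_mul]
      ring
  have h1 : ER (M + 1) F = EP 0 (cnd M 0 F) := by
    have := ER_cnd (d := d) (n := n) hd 0 M F
    rwa [zero_add] at this
  have h2 : ER (M + 1) (fun η => F η ^ 2) = EP M (fun η b => cnd (M - M) M F η b ^ 2) := by
    rw [ER_succ hd, Nat.sub_self]
    rfl
  unfold VR
  rw [h2, h1, key M le_rfl]
  ring

end CRW
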