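import Pool.Agent.Lib.CRW.PC3
import Pool.Agent.Lib.CRW.FO2
import Pool.Agent.Lib.CRW.PD

/-!
# Module L1: THE TWO-SIDED FORMULA

PROOF.  Let `Θ ρ b = ch ξ b • val a φ (H-1-j) j ρ b` (complex).  `ER H (φ(lrec) * ch ξ (η j)) = EP j (fun η b => val .. (lrec a η 0 j) b * ch ξ b)`
(`ER_lrec_pos`) `= NN⁻¹ ∑ b, ch ξ b * rb a (fun ρ => val a φ (H-1-j) j ρ b) j rec0 b` (`EP_reversal`, linearity of `rb`).
`val .. ρ b = vbar .. ρ + ∑ s ≤ H-1-j, ∑ l, (hk s (b - a l) - NN⁻¹) chg (H-1-j-s) (j+s) ρ l` (`val_sub_vbar`).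
(I) `NN⁻¹ ∑ b, ch ξ b * rb a (vbar ..) j rec0 b`: `rb_charge`: `vbar rec0` contributes `0` (`sum_ch`, `ξ ≠ 0`), and
`∑ b, ch ξ b hk (j-i) (b - a l) = lam^(j-i) ch ξ (a l)` (`hk_ch`): these are the terms `i < j`.
(II) `NN⁻¹ ∑ b, ch ξ b ∑ s, ∑ l, (hk s (b - a l) - NN⁻¹) rb a (chg .. · l) j rec0 b` with `rb_sub_mean`:
`rb a (chg · l) j rec0 b = ER j (chg .. (lrec a η 0 j) l) + ∑ i < j, ∑ l', (hk (j-i) (b - a l') - NN⁻¹) rchg a (chg .. · l) i rec0 l'`.
The means give the terms `i = j + s ≥ j` (`∑ b, ch ξ b (hk s (b - a l) - NN⁻¹) = lam^s ch ξ (a l)`).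
The rest: `‖rchg a (chg ..)‖ ≤ 2 * 2 = 4` (`norm_rchg_le`, `norm_chg_le`), 4 pairs `(l, l')`, `cross_fourier` with `s` and `r = j - i` (`1 ≤ r ≤ j`),
`cross_sum`: `≤ 16 NN⁻¹ Bx ξ`.
-/

open Finset

namespace CRW

variable {d n : ℕ} [NeZero n]

private theorem rb_sum {E : Type} [AddCommGroup E] [Module ℝ E] {ι : Type} (S : Finset ι)
    (a : Fin 2 → Tor d n) (ψ : ι → Rec → E) (i : ℕ) (r : Rec) (b : Tor d n) :
    rb a (fun r => ∑ x ∈ S, ψ x r) i r b = ∑ x ∈ S, rb a (ψ x) i r b := by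
  induction i generalizing r b with
  | zero => rfl
  | succ i ih =>
    simp only [rb]
    rw [Finset.sum_comm]
    refine Finset.sum_congr rfl fun w _ => ?_
    rw [ih, Finset.smul_sum]

private theorem rb_mul_right (a : Fin 2 → Tor d n) (ψ : Rec → ℂ) (c : ℂ) (i : ℕ) (r : Rec)
    (b : Tor d n) : rb a (fun r => ψ r * c) i r b = rb a ψ i r b * c := by
  have h := rb_map (LinearMap.mulRight ℝ c) a ψ i r b
  simpa using h

private theorem sum_ch_zero {ξ : Tor d n} (hξ : ξ ≠ 0) : ∑ b, ch ξ b = 0 := by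
  rw [sum_ch, if_neg hξ]

private theorem sum_cent (hd : 1 ≤ d) {ξ : Tor d n} (hξ : ξ ≠ 0) (s : ℕ) (y : Tor d n) :
    ∑ b, ch ξ b * ((hk d n s (b - y) - (NN d n)⁻¹ : ℝ) : ℂ) = (lam ξ : ℂ) ^ s * ch ξ y := by
  have h1 := hk_ch hd s ξ y
  rw [← h1]
  have h2 : ∀ b : Tor d n, ch ξ b * ((hk d n s (b - y) - (NN d n)⁻¹ : ℝ) : ℂ) =
      ch ξ b * (hk d n s (b - y) : ℂ) - ch ξ b * ((NN d n : ℝ) : ℂ)⁻¹ := by
    intro b
    push_cast
    ring
  rw [Finset.sum_congr rfl fun b _ => h2 b, Finset.sum_sub_distrib, ← Finset.sum_mul,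
    sum_ch_zero hξ, zero_mul, sub_zero]

/-- the part of the value function -/
private theorem partI {a : Fin 2 → Tor d n} (ha : a 0 ≠ a 1) (hd : 1 ≤ d) (V : Rec → ℂ)
    {ξ : Tor d n} (hξ : ξ ≠ 0) (j : ℕ) : ∑ b, ch ξ b * rb a V j rec0 b =
      ∑ i ∈ range j, ∑ l, (lam ξ : ℂ) ^ (j - i) * (rchg a V i rec0 l * ch ξ (a l)) := by
  have h1 : ∀ b : Tor d n, ch ξ b * rb a V j rec0 b = ch ξ b * V rec0 +
      ∑ i ∈ range j, ∑ l, (ch ξ b * (hk d n (j - i) (b - a l) : ℂ)) * rchg a V i rec0 l := by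
    intro b
    rw [rb_charge ha hd, mul_add, Finset.mul_sum]
    congr 1
    refine Finset.sum_congr rfl fun i _ => ?_
    rw [Finset.mul_sum]
    refine Finset.sum_congr rfl fun l _ => ?_
    rw [Complex.real_smul]
    ring
  rw [Finset.sum_congr rfl fun b _ => h1 b, Finset.sum_add_distrib, ← Finset.sum_mul,
    sum_ch_zero hξ, zero_mul, zero_add, Finset.sum_comm]
  refine Finset.sum_congr rfl fun i _ => ?_
  rw [Finset.sum_comm]
  refine Finset.sum_congr rfl fun l _ => ?_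
  rw [← Finset.sum_mul, hk_ch hd]
  ring

/-- the exact formula -/
private theorem two_sided_eq {a : Fin 2 → Tor d n} (ha : a 0 ≠ a 1) (hd : 1 ≤ d) (φ : Rec → ℂ)
    {ξ : Tor d n} (hξ : ξ ≠ 0) (j k : ℕ) :
    ∑ b, ch ξ b * rb a (fun ρ => val a φ k j ρ b) j rec0 b =
      (∑ i ∈ range j, ∑ l, (lam ξ : ℂ) ^ (j - i) * (rchg a (vbar a φ k j) i rec0 l * ch ξ (a l))) +
      (∑ s ∈ range (k + 1), ∑ l, (lam ξ : ℂ) ^ s *
        ((ER j fun η => chg a φ (k - s) (j + s) (lrec a η 0 j) l) * ch ξ (a l))) +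
      ∑ s ∈ range (k + 1), ∑ l, ∑ i ∈ range j, ∑ l', (∑ b, ch ξ b *
        (((hk d n s (b - a l) - (NN d n)⁻¹) * (hk d n (j - i) (b - a l') - (NN d n)⁻¹) : ℝ) : ℂ)) *
          rchg a (fun ρ => chg a φ (k - s) (j + s) ρ l) i rec0 l' := by
  have h1 : ∀ b : Tor d n, ch ξ b * rb a (fun ρ => val a φ k j ρ b) j rec0 b =
      ch ξ b * rb a (vbar a φ k j) j rec0 b +
      (∑ s ∈ range (k + 1), ∑ l, (ch ξ b * ((hk d n s (b - a l) - (NN d n)⁻¹ : ℝ) : ℂ)) *
        (ER j fun η => chg a φ (k - s) (j + s) (lrec a η 0 j) l)) +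
      ∑ s ∈ range (k + 1), ∑ l, ∑ i ∈ range j, ∑ l', (ch ξ b *
        (((hk d n s (b - a l) - (NN d n)⁻¹) * (hk d n (j - i) (b - a l') - (NN d n)⁻¹) : ℝ) : ℂ)) *
          rchg a (fun ρ => chg a φ (k - s) (j + s) ρ l) i rec0 l' := by
    intro b
    have e1 : (fun ρ => val a φ k j ρ b) = fun ρ => vbar a φ k j ρ +
        ∑ s ∈ range (k + 1), ∑ l, (hk d n s (b - a l) - (NN d n)⁻¹) •
          chg a φ (k - s) (j + s) ρ l := by
      funext ρ
      rw [← val_sub_vbar ha hd]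
      abel
    rw [e1, rb_add, rb_sum, mul_add, add_assoc]
    congr 1
    rw [Finset.mul_sum, ← Finset.sum_add_distrib]
    refine Finset.sum_congr rfl fun s _ => ?_
    rw [rb_sum, Finset.mul_sum, ← Finset.sum_add_distrib]
    refine Finset.sum_congr rfl fun l _ => ?_
    rw [rb_smul, rb_sub_mean ha hd, Complex.real_smul, mul_add, mul_add]
    congr 1
    · ring
    · rw [Finset.mul_sum, Finset.mul_sum]
      refine Finset.sum_congr rfl fun i _ => ?_
      rw [Finset.mul_sum, Finset.mul_sum]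
      refine Finset.sum_congr rfl fun l' _ => ?_
      rw [Complex.real_smul]
      push_cast
      ring
  rw [Finset.sum_congr rfl fun b _ => h1 b, Finset.sum_add_distrib, Finset.sum_add_distrib,
    partI ha hd _ hξ]
  congr 1
  · congr 1
    rw [Finset.sum_comm]
    refine Finset.sum_congr rfl fun s _ => ?_
    rw [Finset.sum_comm]
    refine Finset.sum_congr rfl fun l _ => ?_
    rw [← Finset.sum_mul, sum_cent hd hξ]
    ring
  · rw [Finset.sum_comm]
    refine Finset.sum_congr rfl fun s _ => ?_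
    rw [Finset.sum_comm]
    refine Finset.sum_congr rfl fun l _ => ?_
    rw [Finset.sum_comm]
    refine Finset.sum_congr rfl fun i _ => ?_
    rw [Finset.sum_comm]
    refine Finset.sum_congr rfl fun l' _ => ?_
    rw [Finset.sum_mul]

private noncomputable def Gc (ξ : Tor d n) (s r : ℕ) : ℝ :=
  (NN d n)⁻¹ * ∑ η : Tor d n, if η = 0 ∨ η = ξ then 0 else lam η ^ s * lam (ξ - η) ^ r

private theorem Gc_nonneg (hd : 1 ≤ d) (ξ : Tor d n) (s r : ℕ) : 0 ≤ Gc ξ s r := by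
  unfold Gc
  refine mul_nonneg (inv_pos.mpr NN_pos).le (Finset.sum_nonneg fun η _ => ?_)
  split_ifs
  · exact le_rfl
  · exact mul_nonneg (pow_nonneg (lam_nonneg hd _) _) (pow_nonneg (lam_nonneg hd _) _)

private theorem err_le {a : Fin 2 → Tor d n} (hd : 1 ≤ d) {φ : Rec → ℂ}
    (hφ : ∀ r, ‖φ r‖ ≤ 1) {ξ : Tor d n} (hξ : ξ ≠ 0) (j k : ℕ) :
    ‖∑ s ∈ range (k + 1), ∑ l, ∑ i ∈ range j, ∑ l', (∑ b, ch ξ b *
        (((hk d n s (b - a l) - (NN d n)⁻¹) * (hk d n (j - i) (b - a l') - (NN d n)⁻¹) : ℝ) : ℂ)) *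
          rchg a (fun ρ => chg a φ (k - s) (j + s) ρ l) i rec0 l'‖ ≤ 16 * Bx ξ := by
  have h1 : ∀ (s : ℕ) (l : Fin 2) (i : ℕ) (l' : Fin 2), ‖(∑ b, ch ξ b *
        (((hk d n s (b - a l) - (NN d n)⁻¹) * (hk d n (j - i) (b - a l') - (NN d n)⁻¹) : ℝ) : ℂ)) *
          rchg a (fun ρ => chg a φ (k - s) (j + s) ρ l) i rec0 l'‖ ≤ Gc ξ s (j - i) * 4 := by
    intro s l i l'
    rw [norm_mul]
    refine mul_le_mul (cross_fourier hd s (j - i) ξ (a l) (a l') hξ) ?_ (norm_nonneg _)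
      (Gc_nonneg hd ξ s (j - i))
    have h2 : ∀ ρ, ‖chg a φ (k - s) (j + s) ρ l‖ ≤ 2 * 1 := fun ρ => norm_chg_le hd a hφ _ _ _ _
    have h3 := norm_rchg_le hd a h2 i rec0 l'
    linarith
  have h2 : ∀ s : ℕ, ‖∑ l : Fin 2, ∑ i ∈ range j, ∑ l' : Fin 2, (∑ b, ch ξ b *
        (((hk d n s (b - a l) - (NN d n)⁻¹) * (hk d n (j - i) (b - a l') - (NN d n)⁻¹) : ℝ) : ℂ)) *
          rchg a (fun ρ => chg a φ (k - s) (j + s) ρ l) i rec0 l'‖ ≤
      16 * ∑ r ∈ range (j + 1), Gc ξ s r := by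
    intro s
    have h3 : ∑ i ∈ range j, Gc ξ s (j - i) ≤ ∑ r ∈ range (j + 1), Gc ξ s r := by
      have h4 : ∑ i ∈ range j, Gc ξ s (j - i) = ∑ i ∈ range j, Gc ξ s (i + 1) := by
        rw [← Finset.sum_range_reflect (fun i => Gc ξ s (i + 1)) j]
        refine Finset.sum_congr rfl fun i hi => ?_
        rw [Finset.mem_range] at hi
        congr 1
        omega
      rw [h4, Finset.sum_range_succ']
      have := Gc_nonneg hd ξ s 0
      linarith
    refine (norm_sum_le _ _).trans ?_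
    calc ∑ l : Fin 2, ‖∑ i ∈ range j, ∑ l' : Fin 2, (∑ b, ch ξ b *
          (((hk d n s (b - a l) - (NN d n)⁻¹) * (hk d n (j - i) (b - a l') - (NN d n)⁻¹) : ℝ) :
            ℂ)) * rchg a (fun ρ => chg a φ (k - s) (j + s) ρ l) i rec0 l'‖
        ≤ ∑ l : Fin 2, ∑ i ∈ range j, ∑ l' : Fin 2, Gc ξ s (j - i) * 4 := by
          refine Finset.sum_le_sum fun l _ => (norm_sum_le _ _).trans ?_
          refine Finset.sum_le_sum fun i _ => (norm_sum_le _ _).trans ?_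
          exact Finset.sum_le_sum fun l' _ => h1 s l i l'
      _ = 16 * ∑ i ∈ range j, Gc ξ s (j - i) := by
          simp only [Finset.sum_const, Finset.card_univ, Fintype.card_fin, nsmul_eq_mul]
          rw [← Finset.mul_sum, ← Finset.sum_mul]
          push_cast
          ring
      _ ≤ _ := by linarith
  refine (norm_sum_le _ _).trans ((Finset.sum_le_sum fun s _ => h2 s).trans ?_)
  rw [← Finset.mul_sum]
  have := cross_sum hd (k + 1) (j + 1) ξ
  have h5 : ∑ s ∈ range (k + 1), ∑ r ∈ range (j + 1), Gc ξ s r ≤ Bx ξ := this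
  linarith

theorem two_sided (hd : 1 ≤ d) (a : Fin 2 → Tor d n) (ha : a 0 ≠ a 1) (φ : Rec → ℂ)
    (hφ : ∀ r, ‖φ r‖ ≤ 1) (ξ : Tor d n) (hξ : ξ ≠ 0) (H j : ℕ) (hj : j < H) :
    ‖ER H (fun η => φ (lrec a η 0 H) * ch ξ (η j)) -
      (NN d n : ℂ)⁻¹ * ∑ i ∈ range H, ∑ l, (lam ξ : ℂ) ^ (i - j + (j - i)) *
        (XX a φ H j i l * ch ξ (a l))‖ ≤ 16 * (NN d n)⁻¹ * Bx ξ := by
  obtain ⟨k, rfl⟩ : ∃ k, H = j + k + 1 := ⟨H - j - 1, by omega⟩
  have hN := NN_pos (d := d) (n := n)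
  have e1 : ER (j + k + 1) (fun η => φ (lrec a η 0 (j + k + 1)) * ch ξ (η j)) =
      (NN d n : ℂ)⁻¹ * ∑ b, ch ξ b * rb a (fun ρ => val a φ k j ρ b) j rec0 b := by
    rw [ER_lrec_pos hd a φ (ch ξ) j k, EP_reversal a (fun ρ b => val a φ k j ρ b * ch ξ b) j,
      Complex.real_smul, Complex.ofReal_inv]
    congr 1
    refine Finset.sum_congr rfl fun b _ => ?_
    rw [rb_mul_right a (fun ρ => val a φ k j ρ b), mul_comm]
  have e2 : ∑ i ∈ range (j + k + 1), ∑ l, (lam ξ : ℂ) ^ (i - j + (j - i)) *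
        (XX a φ (j + k + 1) j i l * ch ξ (a l)) =
      (∑ i ∈ range j, ∑ l, (lam ξ : ℂ) ^ (j - i) * (rchg a (vbar a φ k j) i rec0 l * ch ξ (a l))) +
      (∑ s ∈ range (k + 1), ∑ l, (lam ξ : ℂ) ^ s *
        ((ER j fun η => chg a φ (k - s) (j + s) (lrec a η 0 j) l) * ch ξ (a l))) := by
    rw [add_assoc, Finset.sum_range_add]
    congr 1
    · refine Finset.sum_congr rfl fun i hi => ?_
      rw [Finset.mem_range] at hi
      refine Finset.sum_congr rfl fun l _ => ?_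
      have e3 : i - j + (j - i) = j - i := by omega
      have e4 : j + (k + 1) - 1 - j = k := by omega
      rw [e3, XX, if_pos hi, e4]
    · refine Finset.sum_congr rfl fun s _ => ?_
      refine Finset.sum_congr rfl fun l _ => ?_
      have e3 : j + s - j + (j - (j + s)) = s := by omega
      have e4 : j + (k + 1) - 1 - (j + s) = k - s := by omega
      rw [e3, XX, if_neg (by omega), e4]
  rw [e1, e2, two_sided_eq ha hd φ hξ, ← mul_sub, add_sub_cancel_left, norm_mul, norm_inv,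
    Complex.norm_real, Real.norm_eq_abs, abs_of_pos hN]
  have h1 := err_le (a := a) hd hφ hξ j k
  have h2 := mul_le_mul_of_nonneg_left h1 (inv_pos.mpr hN).le
  refine h2.trans (le_of_eq ?_)
  ring

private theorem norm_vbar_le (hd : 1 ≤ d) {E : Type} [NormedAddCommGroup E] [NormedSpace ℝ E]
    (a : Fin 2 → Tor d n) {φ : Rec → E} {B : ℝ} (hφ : ∀ r, ‖φ r‖ ≤ B) (k t : ℕ) (r : Rec) :
    ‖vbar a φ k t r‖ ≤ B := by
  have hN := NN_pos (d := d) (n := n)
  unfold vbar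
  rw [norm_smul, norm_inv, Real.norm_eq_abs, abs_of_pos hN]
  have h1 : ‖∑ b, val a φ k t r b‖ ≤ NN d n * B := by
    refine (norm_sum_le _ _).trans ?_
    calc ∑ b : Tor d n, ‖val a φ k t r b‖ ≤ ∑ _b : Tor d n, B :=
          Finset.sum_le_sum fun b _ => norm_pv_le_of hd a hφ _ _ _ _
      _ = NN d n * B := by
          rw [Finset.sum_const, Finset.card_univ, nsmul_eq_mul, card_tor]
  calc (NN d n)⁻¹ * ‖∑ b, val a φ k t r b‖ ≤ (NN d n)⁻¹ * (NN d n * B) :=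
        mul_le_mul_of_nonneg_left h1 (inv_pos.mpr hN).le
    _ = B := by
        rw [← mul_assoc, inv_mul_cancel₀ hN.ne', one_mul]

theorem norm_XX_le (hd : 1 ≤ d) {E : Type} [NormedAddCommGroup E] [NormedSpace ℝ E]
    (a : Fin 2 → Tor d n) (φ : Rec → E) {B : ℝ} (hφ : ∀ r, ‖φ r‖ ≤ B) (H j i : ℕ) (l : Fin 2) :
    ‖XX a φ H j i l‖ ≤ 2 * B := by
  unfold XX
  split_ifs
  · exact norm_rchg_le hd a (fun r => norm_vbar_le hd a hφ _ _ r) _ _ _
  · unfold ER
    refine (norm_EP_le _ _).trans ?_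
    calc EP j (fun (η : ℕ → Tor d n) (_ : Tor d n) => ‖chg a φ (H - 1 - i) i (lrec a η 0 j) l‖)
        ≤ EP j (fun (_ : ℕ → Tor d n) (_ : Tor d n) => 2 * B) :=
          EP_mono _ _ _ fun η _ => norm_chg_le hd a hφ _ _ _ _
      _ = 2 * B := EP_const hd _ _

private theorem chg_add {E : Type} [AddCommGroup E] [Module ℝ E] (a : Fin 2 → Tor d n)
    (φ ψ : Rec → E) (k t : ℕ) (r : Rec) (l : Fin 2) :
    chg a (fun r => φ r + ψ r) k t r l = chg a φ k t r l + chg a ψ k t r l := by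
  unfold chg
  rw [pv_add, pv_add]
  abel

private theorem vbar_add {E : Type} [AddCommGroup E] [Module ℝ E] (a : Fin 2 → Tor d n)
    (φ ψ : Rec → E) (k t : ℕ) :
    vbar a (fun r => φ r + ψ r) k t = fun r => vbar a φ k t r + vbar a ψ k t r := by
  funext r
  unfold vbar val
  rw [← smul_add, ← Finset.sum_add_distrib]
  congr 1
  exact Finset.sum_congr rfl fun b _ => pv_add _ _ _ _ _ _ _

theorem XX_add {E : Type} [AddCommGroup E] [Module ℝ E] (a : Fin 2 → Tor d n) (φ ψ : Rec → E)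
    (H j i : ℕ) (l : Fin 2) :
    XX a (fun r => φ r + ψ r) H j i l = XX a φ H j i l + XX a ψ H j i l := by
  unfold XX
  split_ifs
  · rw [vbar_add]
    unfold rchg
    rw [rb_add, rb_add]
    abel
  · unfold ER
    rw [← EP_add]
    congr 1
    funext η _
    exact chg_add _ _ _ _ _ _ _

theorem XX_smul {E : Type} [AddCommGroup E] [Module ℝ E] (a : Fin 2 → Tor d n) (c : ℝ)
    (φ : Rec → E) (H j i : ℕ) (l : Fin 2) :
    XX a (fun r => c • φ r) H j i l = c • XX a φ H j i l := by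
  unfold XX
  split_ifs
  · have h1 : vbar a (fun r => c • φ r) (H - 1 - j) j = fun r => c • vbar a φ (H - 1 - j) j r := by
      funext r
      unfold vbar val
      rw [smul_comm c, Finset.smul_sum (r := c)]
      congr 1
      exact Finset.sum_congr rfl fun b _ => pv_smul _ _ _ _ _ _ _
    rw [h1]
    unfold rchg
    rw [rb_smul, rb_smul, smul_sub]
  · unfold ER
    rw [← EP_smul]
    congr 1
    funext η _
    unfold chg
    beta_reduce
    rw [pv_smul, pv_smul, smul_sub]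

theorem XX_map {E E' : Type} [AddCommGroup E] [Module ℝ E] [AddCommGroup E'] [Module ℝ E']
    (f : E →ₗ[ℝ] E') (a : Fin 2 → Tor d n) (φ : Rec → E) (H j i : ℕ) (l : Fin 2) :
    XX a (fun r => f (φ r)) H j i l = f (XX a φ H j i l) := by
  unfold XX
  split_ifs
  · have h1 : vbar a (fun r => f (φ r)) (H - 1 - j) j = fun r => f (vbar a φ (H - 1 - j) j r) := by
      funext r
      unfold vbar val
      rw [map_smul, map_sum]
      congr 1
      exact Finset.sum_congr rfl fun b _ => pv_map _ _ _ _ _ _ _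
    rw [h1]
    unfold rchg
    rw [rb_map, rb_map, map_sub]
  · unfold ER
    rw [← EP_map]
    congr 1
    funext η _
    unfold chg
    beta_reduce
    rw [pv_map, pv_map, map_sub]

end CRW
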