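import Pool.Agent.Lib.CRW.L1

/-!
# Module L11: the two-sided formula for both walks

PROOF.  For a complex function `φ` on records let `L φ = ER H (fun η => φ (lrec a η 0 H) * ch ξ (η j))` and
`M φ = NN⁻¹ ∑ i, ∑ l, lam^|i-j| XX a φ H j i l * ch ξ (a l)`; for walk 2 `L' φ = ER H (fun η' => φ (lrec a η' 0 H) * ch (-ξ) (η' j'))`, `M'` with `-ξ, j'`
(`ch_neg_left`, `lam_neg`).  `two_sided` scaled (`XX_smul`): if `‖φ‖ ≤ B` then `‖L φ - M φ‖ ≤ 16 B NN⁻¹ Bx ξ`; and `‖M φ‖ ≤ NN⁻¹ * 2/(1-lam) * 2 * 2B`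
`= 8 B NN⁻¹ (1-lam)⁻¹` (`norm_XX_le`, `∑ i, lam^|i-j| ≤ 2/(1-lam)`).  (`Bx (-ξ) = Bx ξ` or apply `Bx_le` to `-ξ`, `nrm_neg`.)
The expectation is `L (fun r => L' (f r ·))`, the main term is `M (fun r => M' (f r ·))` (`XX` is linear: `XX_map`/`XX_add`/`XX_smul` move the finite sums and the
factors `ch (-ξ) (a l')` out; `XX` of a real function composed with the inclusion `ℝ → ℂ`: `XX_map` for `Complex.ofRealLm` as an `ℝ`-linear map).
`L L' - M M' = (L - M) L' + M (L' - M')`: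
`≤ 16 NN⁻¹ Bx * (8 NN⁻¹ (1-lam)⁻¹ + 16 NN⁻¹ Bx) + 8 NN⁻¹ (1-lam)⁻¹ * 16 NN⁻¹ Bx = NN⁻² (256 Bx (1-lam)⁻¹ + 256 Bx²)`.
`Bx ≤ C n/nrm ξ` (`Bx_le`), `(n/nrm ξ)² ≤ 10 (1-lam)⁻¹` (`one_sub_lam_le`), `1 ≤ n/nrm ξ` (`two_nrm_le`; `nrm ξ ≥ 1`): the sum is
`≤ C' NN⁻² (1-lam)⁻¹ n/nrm ξ`.
-/

open Finset

namespace CRW

variable {d : ℕ}

theorem geo_two {x : ℝ} (h0 : 0 ≤ x) (h1 : x < 1) (H j : ℕ) :
    ∑ i ∈ range H, x ^ (i - j + (j - i)) ≤ 2 * (1 / (1 - x)) := by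
  have hg : ∀ N : ℕ, ∑ k ∈ range N, x ^ k ≤ 1 / (1 - x) := by
    intro N
    rw [le_div_iff₀ (by linarith), geom_sum_mul_neg]
    have := pow_nonneg h0 N
    linarith
  have hA : ∑ i ∈ range H, (if i ≤ j then x ^ (j - i) else 0) ≤ 1 / (1 - x) := by
    rw [← Finset.sum_filter]
    refine le_trans ?_ (hg (j + 1))
    have e1 : ∑ i ∈ (range H).filter (fun i => i ≤ j), x ^ (j - i) =
        ∑ k ∈ ((range H).filter (fun i => i ≤ j)).image (fun i => j - i), x ^ k := by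
      rw [Finset.sum_image]
      intro a ha b hb hab
      simp only [coe_filter, mem_range, Set.mem_ofPred_eq] at ha hb
      simp only at hab
      omega
    rw [e1]
    refine Finset.sum_le_sum_of_subset_of_nonneg ?_ (fun k _ _ => pow_nonneg h0 k)
    intro k hk
    rw [Finset.mem_image] at hk
    obtain ⟨i, _, rfl⟩ := hk
    rw [mem_range]
    omega
  have hB : ∑ i ∈ range H, (if j ≤ i then x ^ (i - j) else 0) ≤ 1 / (1 - x) := by
    rw [← Finset.sum_filter]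
    refine le_trans ?_ (hg H)
    have e1 : ∑ i ∈ (range H).filter (fun i => j ≤ i), x ^ (i - j) =
        ∑ k ∈ ((range H).filter (fun i => j ≤ i)).image (fun i => i - j), x ^ k := by
      rw [Finset.sum_image]
      intro a ha b hb hab
      simp only [coe_filter, mem_range, Set.mem_ofPred_eq] at ha hb
      simp only at hab
      omega
    rw [e1]
    refine Finset.sum_le_sum_of_subset_of_nonneg ?_ (fun k _ _ => pow_nonneg h0 k)
    intro k hk
    rw [Finset.mem_image] at hk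
    obtain ⟨i, hi, rfl⟩ := hk
    rw [mem_filter, mem_range] at hi
    rw [mem_range]
    omega
  calc ∑ i ∈ range H, x ^ (i - j + (j - i))
      ≤ ∑ i ∈ range H, ((if i ≤ j then x ^ (j - i) else 0) + (if j ≤ i then x ^ (i - j) else 0)) := by
        refine Finset.sum_le_sum (fun i _ => ?_)
        rcases Nat.le_total i j with h | h
        · rw [if_pos h]
          have e : i - j + (j - i) = j - i := by omega
          rw [e]
          have : 0 ≤ (if j ≤ i then x ^ (i - j) else 0) := by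
            split_ifs
            · exact pow_nonneg h0 _
            · exact le_rfl
          linarith
        · rw [if_pos h]
          have e : i - j + (j - i) = i - j := by omega
          rw [e]
          have : 0 ≤ (if i ≤ j then x ^ (j - i) else 0) := by
            split_ifs
            · exact pow_nonneg h0 _
            · exact le_rfl
          linarith
    _ = _ := Finset.sum_add_distrib
    _ ≤ _ := by linarith

section
variable {n : ℕ} [NeZero n]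

/-- the expectation for one walk -/
noncomputable def LW (a : Fin 2 → Tor d n) (ξ : Tor d n) (H j : ℕ) (φ : Rec → ℂ) : ℂ :=
  ER H (fun η => φ (lrec a η 0 H) * ch ξ (η j))

/-- the main term for one walk -/
noncomputable def MW (a : Fin 2 → Tor d n) (ξ : Tor d n) (H j : ℕ) (φ : Rec → ℂ) : ℂ :=
  (NN d n : ℂ)⁻¹ * ∑ i ∈ range H, ∑ l, (lam ξ : ℂ) ^ (i - j + (j - i)) *
    (XX a φ H j i l * ch ξ (a l))

theorem LW_smul (a : Fin 2 → Tor d n) (ξ : Tor d n) (H j : ℕ) (c : ℝ) (φ : Rec → ℂ) :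
    LW a ξ H j (fun r => c • φ r) = c • LW a ξ H j φ := by
  unfold LW ER
  rw [← EP_smul]
  congr 1
  funext η _
  exact smul_mul_assoc c (φ (lrec a η 0 H)) (ch ξ (η j))

theorem MW_smul (a : Fin 2 → Tor d n) (ξ : Tor d n) (H j : ℕ) (c : ℝ) (φ : Rec → ℂ) :
    MW a ξ H j (fun r => c • φ r) = c • MW a ξ H j φ := by
  unfold MW
  rw [← mul_smul_comm, Finset.smul_sum]
  congr 1
  refine Finset.sum_congr rfl (fun i _ => ?_)
  rw [Finset.smul_sum]
  refine Finset.sum_congr rfl (fun l _ => ?_)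
  rw [XX_smul, smul_mul_assoc, mul_smul_comm]

theorem MW_sub (a : Fin 2 → Tor d n) (ξ : Tor d n) (H j : ℕ) (φ ψ : Rec → ℂ) :
    MW a ξ H j (fun r => φ r - ψ r) = MW a ξ H j φ - MW a ξ H j ψ := by
  have h1 : (fun r => φ r - ψ r) = (fun r => φ r + (-1 : ℝ) • ψ r) := by
    funext r
    rw [neg_one_smul, sub_eq_add_neg]
  have h2 : ∀ (i : ℕ) (l : Fin 2), XX a (fun r => φ r + (-1 : ℝ) • ψ r) H j i l =
      XX a φ H j i l - XX a ψ H j i l := by
    intro i l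
    rw [XX_add a φ (fun r => (-1 : ℝ) • ψ r), XX_smul, neg_one_smul, sub_eq_add_neg]
  rw [h1]
  unfold MW
  simp_rw [h2]
  rw [← mul_sub, ← Finset.sum_sub_distrib]
  congr 1
  refine Finset.sum_congr rfl (fun i _ => ?_)
  rw [← Finset.sum_sub_distrib]
  refine Finset.sum_congr rfl (fun l _ => ?_)
  ring

theorem LW_sub_MW (hd : 1 ≤ d) (a : Fin 2 → Tor d n) (ha : a 0 ≠ a 1) (φ : Rec → ℂ) {B : ℝ}
    (hB : 0 < B) (hφ : ∀ r, ‖φ r‖ ≤ B) (ξ : Tor d n) (hξ : ξ ≠ 0) (H j : ℕ) (hj : j < H) :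
    ‖LW a ξ H j φ - MW a ξ H j φ‖ ≤ B * (16 * (NN d n)⁻¹ * Bx ξ) := by
  have h1 := two_sided hd a ha (fun r => B⁻¹ • φ r) (fun r => by
    rw [norm_smul, Real.norm_of_nonneg (inv_nonneg.2 hB.le), inv_mul_le_iff₀ hB, mul_one]
    exact hφ r) ξ hξ H j hj
  have h2 : ‖LW a ξ H j (fun r => B⁻¹ • φ r) - MW a ξ H j (fun r => B⁻¹ • φ r)‖ ≤
      16 * (NN d n)⁻¹ * Bx ξ := h1
  rw [LW_smul, MW_smul, ← smul_sub, norm_smul, Real.norm_of_nonneg (inv_nonneg.2 hB.le),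
    inv_mul_le_iff₀ hB] at h2
  exact h2

theorem norm_MW_le (hd : 1 ≤ d) (a : Fin 2 → Tor d n) (φ : Rec → ℂ) {B : ℝ}
    (hφ : ∀ r, ‖φ r‖ ≤ B) (ξ : Tor d n) (hξ : ξ ≠ 0) (H j : ℕ) :
    ‖MW a ξ H j φ‖ ≤ 8 * B * (NN d n)⁻¹ * (1 / (1 - lam ξ)) := by
  have hB : 0 ≤ B := (norm_nonneg _).trans (hφ rec0)
  have hN := NN_pos (d := d) (n := n)
  have hl0 := lam_nonneg hd ξ
  have hl1 := lam_lt_one hd hξ
  unfold MW
  rw [norm_mul, norm_inv, Complex.norm_real, Real.norm_of_nonneg hN.le]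
  have h1 : ‖∑ i ∈ range H, ∑ l, (lam ξ : ℂ) ^ (i - j + (j - i)) *
      (XX a φ H j i l * ch ξ (a l))‖ ≤ ∑ i ∈ range H, (4 * B) * lam ξ ^ (i - j + (j - i)) := by
    refine (norm_sum_le _ _).trans (Finset.sum_le_sum (fun i _ => ?_))
    refine (norm_sum_le _ _).trans ?_
    have h2 : ∀ l ∈ (Finset.univ : Finset (Fin 2)), ‖(lam ξ : ℂ) ^ (i - j + (j - i)) *
      (XX a φ H j i l * ch ξ (a l))‖ ≤ (2 * B) * lam ξ ^ (i - j + (j - i)) := by
      intro l _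
      rw [norm_mul, norm_mul, norm_ch, mul_one, norm_pow, Complex.norm_real,
        Real.norm_of_nonneg hl0, mul_comm]
      exact mul_le_mul_of_nonneg_right (norm_XX_le hd a φ hφ H j i l) (pow_nonneg hl0 _)
    refine (Finset.sum_le_sum h2).trans (le_of_eq ?_)
    rw [Finset.sum_const, Finset.card_univ, Fintype.card_fin, nsmul_eq_mul]
    push_cast
    ring
  rw [← Finset.mul_sum] at h1
  have h3 := geo_two hl0 hl1 H j
  have h4 : (4 * B) * ∑ i ∈ range H, lam ξ ^ (i - j + (j - i)) ≤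
      (4 * B) * (2 * (1 / (1 - lam ξ))) := mul_le_mul_of_nonneg_left h3 (by positivity)
  calc (NN d n)⁻¹ * ‖∑ i ∈ range H, ∑ l, (lam ξ : ℂ) ^ (i - j + (j - i)) *
      (XX a φ H j i l * ch ξ (a l))‖ ≤ (NN d n)⁻¹ * ((4 * B) * (2 * (1 / (1 - lam ξ)))) :=
        mul_le_mul_of_nonneg_left (h1.trans h4) (inv_nonneg.2 hN.le)
    _ = _ := by ring

theorem XX_zero {E : Type} [AddCommGroup E] [Module ℝ E] (a : Fin 2 → Tor d n) (H j i : ℕ)
    (l : Fin 2) : XX a (fun _ : Rec => (0 : E)) H j i l = 0 := by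
  have h := XX_smul a (0 : ℝ) (fun _ : Rec => (0 : E)) H j i l
  simpa using h

theorem XX_sum {ι : Type} {E : Type} [AddCommGroup E] [Module ℝ E] (s : Finset ι)
    (a : Fin 2 → Tor d n) (g : ι → Rec → E) (H j i : ℕ) (l : Fin 2) :
    XX a (fun r => ∑ m ∈ s, g m r) H j i l = ∑ m ∈ s, XX a (g m) H j i l := by
  classical
  induction s using Finset.induction_on with
  | empty => simp only [Finset.sum_empty]; exact XX_zero a H j i l
  | insert m s hm ih =>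
    simp only [Finset.sum_insert hm]
    rw [XX_add a (g m) (fun r => ∑ m ∈ s, g m r), ih]

/-- multiplication of real numbers by a complex number -/
noncomputable def mulC (c : ℂ) : ℝ →ₗ[ℝ] ℂ where
  toFun x := c * (x : ℂ)
  map_add' x y := by push_cast; ring
  map_smul' t x := by
    rw [smul_eq_mul, RingHom.id_apply, Complex.real_smul]
    push_cast
    ring

theorem XX_mulC (a : Fin 2 → Tor d n) (c : ℂ) (g : Rec → ℝ) (H j i : ℕ) (l : Fin 2) :
    XX a (fun r => c * (g r : ℂ)) H j i l = c * ((XX a g H j i l : ℝ) : ℂ) :=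
  XX_map (mulC c) a g H j i l

theorem XX_ofReal (a : Fin 2 → Tor d n) (g : Rec → ℝ) (H j i : ℕ) (l : Fin 2) :
    XX a (fun r => (g r : ℂ)) H j i l = ((XX a g H j i l : ℝ) : ℂ) := by
  have h := XX_mulC a 1 g H j i l
  simpa only [one_mul] using h

theorem two_walks_eq (a : Fin 2 → Tor d n) (f : Rec → Rec → ℝ) (ξ : Tor d n) (H j j' : ℕ) :
    (ER H fun η : ℕ → Tor d n => ER H fun η' : ℕ → Tor d n =>
          (f (lrec a η 0 H) (lrec a η' 0 H) : ℂ) *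
            (ch ξ (η j) * (starRingEnd ℂ) (ch ξ (η' j')))) =
      LW a ξ H j (fun r => LW a (-ξ) H j' (fun r' => (f r r' : ℂ))) := by
  unfold LW ER
  congr 1
  funext η _
  have h1 := EP_map (LinearMap.mulRight ℝ (ch ξ (η j))) H
    (fun (η' : ℕ → Tor d n) (_ : Tor d n) =>
      (f (lrec a η 0 H) (lrec a η' 0 H) : ℂ) * ch (-ξ) (η' j'))
  rw [LinearMap.mulRight_apply] at h1
  refine Eq.trans ?_ h1
  beta_reduce
  congr 1
  funext η' _
  rw [LinearMap.mulRight_apply, ch_neg_left]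
  ring

theorem main_eq (a : Fin 2 → Tor d n) (f : Rec → Rec → ℝ) (ξ : Tor d n) (H j j' : ℕ) :
    ((NN d n : ℂ)⁻¹) ^ 2 * ∑ i ∈ range H, ∑ i' ∈ range H,
          ((lam ξ : ℂ) ^ (i - j + (j - i)) * (lam ξ : ℂ) ^ (i' - j' + (j' - i'))) *
            ∑ l, ∑ l', ((XX a (fun r => XX a (fun r' => f r r') H j' i' l') H j i l : ℝ) : ℂ) *
              (ch ξ (a l) * (starRingEnd ℂ) (ch ξ (a l'))) =
      MW a ξ H j (fun r => MW a (-ξ) H j' (fun r' => (f r r' : ℂ))) := by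
  unfold MW
  simp_rw [XX_ofReal, lam_neg]
  have h1 : ∀ (i : ℕ) (l : Fin 2), XX a (fun r => (NN d n : ℂ)⁻¹ * ∑ i' ∈ range H, ∑ l' : Fin 2,
      (lam ξ : ℂ) ^ (i' - j' + (j' - i')) *
        (((XX a (fun r' => f r r') H j' i' l' : ℝ) : ℂ) * ch (-ξ) (a l'))) H j i l =
      ∑ i' ∈ range H, ∑ l' : Fin 2, ((NN d n : ℂ)⁻¹ * ((lam ξ : ℂ) ^ (i' - j' + (j' - i')) *
        ch (-ξ) (a l'))) *
        ((XX a (fun r => XX a (fun r' => f r r') H j' i' l') H j i l : ℝ) : ℂ) := by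
    intro i l
    have e1 : (fun r => (NN d n : ℂ)⁻¹ * ∑ i' ∈ range H, ∑ l' : Fin 2,
      (lam ξ : ℂ) ^ (i' - j' + (j' - i')) *
        (((XX a (fun r' => f r r') H j' i' l' : ℝ) : ℂ) * ch (-ξ) (a l'))) =
      (fun r => ∑ i' ∈ range H, ∑ l' : Fin 2,
        ((NN d n : ℂ)⁻¹ * ((lam ξ : ℂ) ^ (i' - j' + (j' - i')) *
        ch (-ξ) (a l'))) * ((XX a (fun r' => f r r') H j' i' l' : ℝ) : ℂ)) := by
      funext r
      rw [Finset.mul_sum]
      refine Finset.sum_congr rfl (fun i' _ => ?_)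
      rw [Finset.mul_sum]
      refine Finset.sum_congr rfl (fun l' _ => ?_)
      ring
    rw [e1, XX_sum (range H) a (fun i' r => ∑ l' : Fin 2,
        ((NN d n : ℂ)⁻¹ * ((lam ξ : ℂ) ^ (i' - j' + (j' - i')) *
        ch (-ξ) (a l'))) * ((XX a (fun r' => f r r') H j' i' l' : ℝ) : ℂ))]
    refine Finset.sum_congr rfl (fun i' _ => ?_)
    rw [XX_sum Finset.univ a (fun l' r =>
        ((NN d n : ℂ)⁻¹ * ((lam ξ : ℂ) ^ (i' - j' + (j' - i')) *
        ch (-ξ) (a l'))) * ((XX a (fun r' => f r r') H j' i' l' : ℝ) : ℂ))]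
    refine Finset.sum_congr rfl (fun l' _ => ?_)
    exact XX_mulC a _ (fun r => XX a (fun r' => f r r') H j' i' l') H j i l
  simp_rw [h1]
  rw [sq, mul_assoc]
  congr 1
  rw [Finset.mul_sum]
  refine Finset.sum_congr rfl (fun i _ => ?_)
  rw [Finset.mul_sum]
  simp_rw [Finset.mul_sum, Finset.sum_mul, Finset.mul_sum]
  rw [Finset.sum_comm]
  refine Finset.sum_congr rfl (fun l _ => ?_)
  refine Finset.sum_congr rfl (fun i' _ => ?_)
  refine Finset.sum_congr rfl (fun l' _ => ?_)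
  rw [ch_neg_left]
  ring

end

theorem two_walks (hd : 3 ≤ d) : ∃ C' : ℝ, 1 ≤ C' ∧ ∀ (n : ℕ) [NeZero n]
    (a : Fin 2 → Tor d n) (f : Rec → Rec → ℝ) (ξ : Tor d n) (H j j' : ℕ), a 0 ≠ a 1 →
      (∀ r r', |f r r'| ≤ 1) → ξ ≠ 0 → j < H → j' < H →
      ‖(ER H fun η : ℕ → Tor d n => ER H fun η' : ℕ → Tor d n =>
          (f (lrec a η 0 H) (lrec a η' 0 H) : ℂ) *
            (ch ξ (η j) * (starRingEnd ℂ) (ch ξ (η' j')))) -
        ((NN d n : ℂ)⁻¹) ^ 2 * ∑ i ∈ range H, ∑ i' ∈ range H,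
          ((lam ξ : ℂ) ^ (i - j + (j - i)) * (lam ξ : ℂ) ^ (i' - j' + (j' - i'))) *
            ∑ l, ∑ l', ((XX a (fun r => XX a (fun r' => f r r') H j' i' l') H j i l : ℝ) : ℂ) *
              (ch ξ (a l) * (starRingEnd ℂ) (ch ξ (a l')))‖ ≤
        C' * ((NN d n)⁻¹) ^ 2 * (1 / (1 - lam ξ)) * (n / nrm ξ) := by
  obtain ⟨C, hC1, hC⟩ := Bx_le hd
  refine ⟨2816 * C ^ 2, by nlinarith, ?_⟩
  intro n _ a f ξ H j j' ha hf hξ hj hj'
  have hd1 : 1 ≤ d := by omega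
  have hξ' : -ξ ≠ 0 := neg_ne_zero.2 hξ
  have hN := NN_pos (d := d) (n := n)
  have hn : (0 : ℝ) < n := by exact_mod_cast Nat.pos_of_ne_zero (NeZero.ne n)
  have hm1 : 1 ≤ nrm ξ := Nat.pos_of_ne_zero fun h0 => hξ (nrm_eq_zero.mp h0)
  have hm : (0 : ℝ) < nrm ξ := by exact_mod_cast hm1
  have hl0 := lam_nonneg hd1 ξ
  have hl1 := lam_lt_one hd1 hξ
  have hB1 := (hC n ξ hξ).2
  have hB2 := (hC n (-ξ) hξ').2
  rw [nrm_neg] at hB2
  have hB10 := (hC n ξ hξ).1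
  set u : ℝ := 1 / (1 - lam ξ) with hu
  have hu0 : 0 < u := one_div_pos.2 (by linarith)
  set ρ : ℝ := n / nrm ξ with hρ
  have hρ1 : 1 ≤ ρ := by
    rw [hρ, le_div_iff₀ hm, one_mul]
    have h2 := two_nrm_le ξ
    have : nrm ξ ≤ n := by omega
    exact_mod_cast this
  have hβ1 : Bx ξ ≤ C * ρ := by rw [hρ, ← mul_div_assoc]; exact hB1
  have hβ2 : Bx (-ξ) ≤ C * ρ := by rw [hρ, ← mul_div_assoc]; exact hB2
  have hρu : ρ ^ 2 ≤ 10 * u := by
    have h3 := one_sub_lam_le hd1 ξ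
    rw [hρ, hu, div_pow, mul_one_div, div_le_div_iff₀ (by positivity) (by linarith)]
    rw [le_div_iff₀ (by positivity)] at h3
    nlinarith
  rw [two_walks_eq, main_eq]
  set V : ℝ := (NN d n)⁻¹ with hV
  have hV0 : 0 < V := inv_pos.2 hN
  -- second walk
  have hL2 : ∀ r, ‖LW a (-ξ) H j' (fun r' => (f r r' : ℂ)) - MW a (-ξ) H j' (fun r' => (f r r' : ℂ))‖ ≤
      16 * V * (C * ρ) := by
    intro r
    have h4 := LW_sub_MW hd1 a ha (fun r' => (f r r' : ℂ)) one_pos (fun r' => by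
      rw [Complex.norm_real, Real.norm_eq_abs]; exact hf r r') (-ξ) hξ' H j' hj'
    rw [one_mul] at h4
    refine h4.trans ?_
    exact mul_le_mul_of_nonneg_left hβ2 (by positivity)
  have hM2 : ∀ r, ‖MW a (-ξ) H j' (fun r' => (f r r' : ℂ))‖ ≤ 8 * V * u := by
    intro r
    have h4 := norm_MW_le hd1 a (fun r' => (f r r' : ℂ)) (B := 1) (fun r' => by
      rw [Complex.norm_real, Real.norm_eq_abs]; exact hf r r') (-ξ) hξ' H j'
    rw [lam_neg, mul_one] at h4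
    exact h4
  have hL1 : ∀ r, ‖LW a (-ξ) H j' (fun r' => (f r r' : ℂ))‖ ≤ 8 * V * u + 16 * V * (C * ρ) := by
    intro r
    have h5 := norm_add_le (MW a (-ξ) H j' (fun r' => (f r r' : ℂ)))
      (LW a (-ξ) H j' (fun r' => (f r r' : ℂ)) - MW a (-ξ) H j' (fun r' => (f r r' : ℂ)))
    rw [add_sub_cancel] at h5
    exact h5.trans (add_le_add (hM2 r) (hL2 r))
  have hBpos : 0 < 8 * V * u + 16 * V * (C * ρ) := by positivity
  have hA := LW_sub_MW hd1 a ha (fun r => LW a (-ξ) H j' (fun r' => (f r r' : ℂ))) hBpos hL1 ξ hξ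
    H j hj
  have hB := norm_MW_le hd1 a (fun r => LW a (-ξ) H j' (fun r' => (f r r' : ℂ)) -
    MW a (-ξ) H j' (fun r' => (f r r' : ℂ))) hL2 ξ hξ H j
  rw [MW_sub] at hB
  have hfin := norm_add_le (LW a ξ H j (fun r => LW a (-ξ) H j' (fun r' => (f r r' : ℂ))) -
      MW a ξ H j (fun r => LW a (-ξ) H j' (fun r' => (f r r' : ℂ))))
    (MW a ξ H j (fun r => LW a (-ξ) H j' (fun r' => (f r r' : ℂ))) -
      MW a ξ H j (fun r => MW a (-ξ) H j' (fun r' => (f r r' : ℂ))))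
  rw [sub_add_sub_cancel] at hfin
  refine hfin.trans ?_
  have hA' : (8 * V * u + 16 * V * (C * ρ)) * (16 * V * Bx ξ) ≤
      (8 * V * u + 16 * V * (C * ρ)) * (16 * V * (C * ρ)) :=
    mul_le_mul_of_nonneg_left (mul_le_mul_of_nonneg_left hβ1 (by positivity)) hBpos.le
  have h6 := add_le_add (hA.trans hA') hB
  refine h6.trans ?_
  have h7 : (8 * V * u + 16 * V * (C * ρ)) * (16 * V * (C * ρ)) +
      8 * (16 * V * (C * ρ)) * V * u = V ^ 2 * (256 * C * (ρ * u) + 256 * C ^ 2 * ρ ^ 2) := by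
    ring
  have h8 : ρ ^ 2 ≤ 10 * (ρ * u) := by nlinarith
  have h9 : 256 * C * (ρ * u) + 256 * C ^ 2 * ρ ^ 2 ≤ 2816 * C ^ 2 * (ρ * u) := by
    have h10 : 0 < ρ * u := by positivity
    have h11 : C ≤ C ^ 2 := by nlinarith
    have h12 : 256 * C ^ 2 * ρ ^ 2 ≤ 256 * C ^ 2 * (10 * (ρ * u)) :=
      mul_le_mul_of_nonneg_left h8 (by positivity)
    have h13 : 256 * C * (ρ * u) ≤ 256 * C ^ 2 * (ρ * u) :=
      mul_le_mul_of_nonneg_right (by linarith) h10.le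
    linarith
  rw [h7]
  calc V ^ 2 * (256 * C * (ρ * u) + 256 * C ^ 2 * ρ ^ 2) ≤ V ^ 2 * (2816 * C ^ 2 * (ρ * u)) :=
        mul_le_mul_of_nonneg_left h9 (by positivity)
    _ = _ := by ring

end CRW
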