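import Pool.Agent.Lib.CRW.L5

/-!
# Module L6: the mixed charges of the two walks

`DD a f H s₁ s₀` is the response of `f` to an early episode of walk 1 and a later episode of walk 2, `Coarse` says that `f` does not
change if the times before `7 t₀` are replaced by `0` (walk 1), `1` (walk 2), provided walk 1 has no visit in `[3t₀, 7t₀)` and walk 2
none in `[0, 3t₀)`.

PROOF of `mixed`.  `f' r r' = f (kap (7t₀) 0 r) (kap (7t₀) 1 r')`.  `|f - f'| ≤ 2 (1{Win (3t₀) (7t₀) r} + 1{Win 0 (3t₀) r'})`; write `f - f' = g₁ + g₂` with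
`|g₁ r r'| ≤ 2 1{Win (3t₀)(7t₀) r}`, `|g₂ r r'| ≤ 2 1{Win 0 (3t₀) r'}`.  `XX (fun r => XX (g₁ r ·)) `: `|XX (g₁ r ·)| ≤ 4 1{Win .. r}` (`norm_XX_le`), then
`XX_window` for walk 1 with `g = s₀` (`2 i ≤ 5 t₀`: distance `≥ t₀/2 ≥ s₀`).  `g₂`: `|XX (g₂ r ·) i'| ≤ 2 C' (..)` by `XX_window` for walk 2
(`2 i' ≥ 7 t₀`), then `norm_XX_le`.
`f'`: for fixed `r`, `XX_coarse` for walk 2 (`s₁ = 7t₀`, `e₀ = 1`): `∑ l', XX (f' r ·) = Xs (f' r ·) + error`; `norm_XX_le` for walk 1 of the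
error; then `φ r = Xs (fun r' => f (r) (kap (7t₀) 1 r'))` (bounded by `4`), `XX_coarse` for walk 1 with `e₀ = 0`.
Conditions: `7t₀ - i' - s₀ ≥ 7t₀ - 5.5 t₀ - t₀/4 ≥ t₀`; `i, i' ≥ t₀/2 ≥ s₀`; `n^2 ≤ t₀/4`.
`coarse_fA`, `coarse_fB`: case analysis for `cw`: if `r j = some s` with `s < 3t₀` then `r' j` is `none` or `≥ 3t₀`: `cw = 1` before and after; if
`r j` is `none` or `≥ 7t₀` and `r' j = some s'`, `3t₀ ≤ s' < 7t₀`: `cw = 0` before and after (`1 < 7t₀`); otherwise nothing changes.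
-/

open Finset

namespace CRW

variable {d : ℕ}

noncomputable def DD {n : ℕ} [NeZero n] (a : Fin 2 → Tor d n) (f : Rec → Rec → ℝ)
    (H s₁ s₀ : ℕ) : ℝ :=
  Xs a (fun r => Xs a (fun r' => f (kap s₁ 0 r) (kap s₁ 1 r')) H s₁ 1 s₀) H s₁ 0 s₀

def Coarse (f : Rec → Rec → ℝ) (t₀ : ℕ) : Prop :=
  ∀ r r', ¬ Win (3 * t₀) (7 * t₀) r → ¬ Win 0 (3 * t₀) r' →
    f r r' = f (kap (7 * t₀) 0 r) (kap (7 * t₀) 1 r')

private theorem cw_coarse (t₀ : ℕ) (h : 1 ≤ t₀) (o o' : Option ℕ)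
    (h1 : ∀ s, o = some s → s < 3 * t₀ ∨ 7 * t₀ ≤ s) (h2 : ∀ s, o' = some s → 3 * t₀ ≤ s) :
    cw o o' = cw (o.map fun s => if s < 7 * t₀ then 0 else s)
      (o'.map fun s => if s < 7 * t₀ then 1 else s) := by
  cases o with
  | none =>
    cases o' with
    | none => rfl
    | some s' => rfl
  | some s =>
    cases o' with
    | none => rfl
    | some s' =>
      have h3 := h1 s rfl
      have h4 := h2 s' rfl
      simp only [Option.map_some, cw]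
      rcases h3 with h3 | h3
      · rw [if_pos (by omega : s < s'), if_pos (by omega : s < 7 * t₀)]
        by_cases h5 : s' < 7 * t₀
        · rw [if_pos h5]; norm_num
        · rw [if_neg h5, if_pos (by omega)]
      · rw [if_neg (by omega : ¬ s < 7 * t₀)]
        by_cases h5 : s' < 7 * t₀
        · rw [if_pos h5, if_neg (by omega : ¬ s < s'), if_pos (by omega : s' < s),
            if_neg (by omega : ¬ s < 1), if_pos (by omega : 1 < s)]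
        · rw [if_neg h5]

private theorem cw_mem (o o' : Option ℕ) : 0 ≤ cw o o' ∧ cw o o' ≤ 1 := by
  cases o with
  | none =>
    cases o' with
    | none => simp only [cw]; norm_num
    | some s' => simp only [cw]; norm_num
  | some s =>
    cases o' with
    | none => simp only [cw]; norm_num
    | some s' =>
      simp only [cw]
      split_ifs <;> norm_num

private theorem win1 {t₀ : ℕ} {r : Rec} (h : ¬ Win (3 * t₀) (7 * t₀) r) (j : Fin 2) (s : ℕ)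
    (hs : r j = some s) : s < 3 * t₀ ∨ 7 * t₀ ≤ s := by
  by_contra hcon
  push Not at hcon
  exact h ⟨j, s, hs, hcon.1, hcon.2⟩

private theorem win2 {t₀ : ℕ} {r : Rec} (h : ¬ Win 0 (3 * t₀) r) (j : Fin 2) (s : ℕ)
    (hs : r j = some s) : 3 * t₀ ≤ s := by
  by_contra hcon
  push Not at hcon
  exact h ⟨j, s, hs, Nat.zero_le _, hcon⟩

theorem coarse_fA (t₀ : ℕ) (h : 1 ≤ t₀) : Coarse fA t₀ := by
  intro r r' hr hr'
  exact cw_coarse t₀ h (r 0) (r' 0) (win1 hr 0) (win2 hr' 0)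

theorem coarse_fB (t₀ : ℕ) (h : 1 ≤ t₀) : Coarse fB t₀ := by
  intro r r' hr hr'
  have h0 := cw_coarse t₀ h (r 0) (r' 0) (win1 hr 0) (win2 hr' 0)
  have h1 := cw_coarse t₀ h (r 1) (r' 1) (win1 hr 1) (win2 hr' 1)
  unfold fB
  rw [h0, h1]
  rfl

theorem fA_mem (r r' : Rec) : 0 ≤ fA r r' ∧ fA r r' ≤ 1 := cw_mem _ _

theorem fB_mem (r r' : Rec) : 0 ≤ fB r r' ∧ fB r r' ≤ 1 := by
  unfold fB
  obtain ⟨a0, a1⟩ := cw_mem (r 0) (r' 0)
  obtain ⟨b0, b1⟩ := cw_mem (r 1) (r' 1)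
  constructor
  · have h1 := mul_nonneg a0 (sub_nonneg.mpr b1)
    have h2 := mul_nonneg (sub_nonneg.mpr a1) b0
    linarith
  · nlinarith [mul_nonneg a0 b0, mul_nonneg (sub_nonneg.mpr a1) (sub_nonneg.mpr b1)]

section aux
variable {n : ℕ} [NeZero n]

private theorem XX_two {E : Type} [AddCommGroup E] [Module ℝ E] (a : Fin 2 → Tor d n)
    (φ : Fin 2 → Rec → E) (H j i : ℕ) (l : Fin 2) :
    XX a (fun r => ∑ l', φ l' r) H j i l = ∑ l', XX a (φ l') H j i l := by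
  simp only [Fin.sum_univ_two]
  exact XX_add a (φ 0) (φ 1) H j i l

private theorem norm_sum2 (F : Fin 2 → Fin 2 → ℝ) {B : ℝ} (h : ∀ l l', |F l l'| ≤ B) :
    |∑ l, ∑ l', F l l'| ≤ 4 * B := by
  simp only [Fin.sum_univ_two]
  have h00 := abs_le.mp (h 0 0)
  have h01 := abs_le.mp (h 0 1)
  have h10 := abs_le.mp (h 1 0)
  have h11 := abs_le.mp (h 1 1)
  rw [abs_le]
  constructor <;> linarith

private theorem norm_sum1 (F : Fin 2 → ℝ) {B : ℝ} (h : ∀ l, |F l| ≤ B) :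
    |∑ l, F l| ≤ 2 * B := by
  simp only [Fin.sum_univ_two]
  have h0 := abs_le.mp (h 0)
  have h1 := abs_le.mp (h 1)
  rw [abs_le]
  constructor <;> linarith

end aux

private theorem exp_le_aux {κ : ℝ} (hκ : 0 < κ) (n t m : ℕ) (h : t ≤ m) :
    Real.exp (-κ * (m : ℝ) / (n : ℝ) ^ 2) ≤ Real.exp (-κ * (t : ℝ) / (n : ℝ) ^ 2) := by
  apply Real.exp_le_exp.mpr
  have h1 : (t : ℝ) ≤ m := by exact_mod_cast h
  have h2 : -κ * (m : ℝ) ≤ -κ * t := by nlinarith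
  exact div_le_div_of_nonneg_right h2 (sq_nonneg _)

/-- a function which vanishes outside a window: scaling -/
private theorem window_scaled (hd : 3 ≤ d) (C κ : ℝ) : ∃ C' : ℝ, 1 ≤ C' ∧ ∀ (n : ℕ) [NeZero n],
    HKB d n C κ → ∀ (a : Fin 2 → Tor d n) (φ : Rec → ℝ) (B : ℝ) (lo hi g H j i : ℕ) (l : Fin 2),
      0 < B → 1 ≤ g → j < H → i < H → (∀ r, |φ r| ≤ B) → (∀ r, ¬ Win lo hi r → φ r = 0) →
      (∀ s, lo ≤ s → s < hi → i + g ≤ s ∨ s + g ≤ i) →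
      |XX a φ H j i l| ≤ B * (C' * (1 / Real.sqrt g + ((hi - lo : ℕ) : ℝ) / NN d n)) := by
  obtain ⟨C', hC', h⟩ := XX_window hd C κ
  refine ⟨C', hC', ?_⟩
  intro n _ hb a φ B lo hi g H j i l hB hg hj hi' hφ hφ0 hw
  have h1 := h n hb ℝ a (fun r => B⁻¹ • φ r) lo hi g H j i l hg hj hi' ?_ hw
  · rw [XX_smul, Real.norm_eq_abs, smul_eq_mul, abs_mul, abs_of_pos (inv_pos.mpr hB)] at h1
    calc |XX a φ H j i l| = B * (B⁻¹ * |XX a φ H j i l|) := by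
          rw [← mul_assoc, mul_inv_cancel₀ hB.ne', one_mul]
      _ ≤ _ := mul_le_mul_of_nonneg_left h1 hB.le
  · intro r
    rw [Real.norm_eq_abs, smul_eq_mul, abs_mul, abs_of_pos (inv_pos.mpr hB)]
    split_ifs with hr
    · calc B⁻¹ * |φ r| ≤ B⁻¹ * B := mul_le_mul_of_nonneg_left (hφ r) (inv_pos.mpr hB).le
        _ = 1 := inv_mul_cancel₀ hB.ne'
    · rw [hφ0 r hr]; simp

/-- coarse functions: scaling -/
private theorem coarse_scaled (hd : 3 ≤ d) (C κ : ℝ) : ∃ C' : ℝ, 1 ≤ C' ∧ ∀ (n : ℕ) [NeZero n],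
    HKB d n C κ → ∀ (a : Fin 2 → Tor d n) (φ : Rec → ℝ) (B : ℝ), 0 < B → a 0 ≠ a 1 →
      (∀ r, |φ r| ≤ B) → ∀ (H t₀ e₀ s₀ j i : ℕ), 7 * t₀ < H → e₀ < 7 * t₀ → j ≤ 7 * t₀ → 1 ≤ s₀ →
      i + s₀ + n ^ 2 ≤ 7 * t₀ → (i < j → s₀ ≤ i) → i + s₀ + t₀ ≤ 7 * t₀ →
      |(∑ l, XX a (fun r => φ (kap (7 * t₀) e₀ r)) H j i l) -
        Xs a (fun r => φ (kap (7 * t₀) e₀ r)) H (7 * t₀) e₀ s₀| ≤
        B * (C' * (1 / Real.sqrt s₀ + t₀ / NN d n + Real.exp (-κ * t₀ / n ^ 2))) := by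
  obtain ⟨C', hC', h⟩ := XX_coarse hd C κ
  refine ⟨7 * C', by linarith, ?_⟩
  intro n _ hb a φ B hB ha hφ H t₀ e₀ s₀ j i hH he hj hs hi hij ht
  have h1 := h n hb ℝ a (fun r => B⁻¹ • φ r) ha ?_ H (7 * t₀) e₀ s₀ j i hH he hj hs hi hij
  · simp only [XX_smul a B⁻¹ (fun r => φ (kap (7 * t₀) e₀ r)),
      Xs_smul a B⁻¹ (fun r => φ (kap (7 * t₀) e₀ r)), ← Finset.smul_sum, ← smul_sub] at h1
    rw [Real.norm_eq_abs, smul_eq_mul, abs_mul, abs_of_pos (inv_pos.mpr hB)] at h1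
    have h2 : C' * (1 / Real.sqrt s₀ + ((7 * t₀ : ℕ) : ℝ) / NN d n +
        Real.exp (-κ * ((7 * t₀ - i - s₀ : ℕ) : ℝ) / n ^ 2)) ≤
        7 * C' * (1 / Real.sqrt s₀ + t₀ / NN d n + Real.exp (-κ * t₀ / n ^ 2)) := by
      have e1 := exp_le_aux hb.hκ n t₀ (7 * t₀ - i - s₀) (by omega)
      have e2 : 0 ≤ 1 / Real.sqrt (s₀ : ℝ) := by positivity
      have e3 : 0 < Real.exp (-κ * t₀ / (n : ℝ) ^ 2) := Real.exp_pos _
      have e4 : ((7 * t₀ : ℕ) : ℝ) / NN d n = 7 * (t₀ / NN d n) := by push_cast; ring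
      rw [e4, mul_comm (7 : ℝ) C', mul_assoc]
      apply mul_le_mul_of_nonneg_left _ (by linarith)
      linarith
    calc _ = B * (B⁻¹ * |(∑ l, XX a (fun r => φ (kap (7 * t₀) e₀ r)) H j i l) -
        Xs a (fun r => φ (kap (7 * t₀) e₀ r)) H (7 * t₀) e₀ s₀|) := by
          rw [← mul_assoc, mul_inv_cancel₀ hB.ne', one_mul]
      _ ≤ _ := mul_le_mul_of_nonneg_left (h1.trans h2) hB.le
  · intro r
    rw [Real.norm_eq_abs, smul_eq_mul, abs_mul, abs_of_pos (inv_pos.mpr hB)]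
    calc B⁻¹ * |φ r| ≤ B⁻¹ * B := mul_le_mul_of_nonneg_left (hφ r) (inv_pos.mpr hB).le
      _ = 1 := inv_mul_cancel₀ hB.ne'

/-- the part of `f` with a visit in a window -/
private theorem mixed_window (hd : 3 ≤ d) (C κ : ℝ) : ∃ C' : ℝ, 1 ≤ C' ∧
    ∀ (n : ℕ) [NeZero n], HKB d n C κ → ∀ (a : Fin 2 → Tor d n) (g₁ g₂ : Rec → Rec → ℝ)
      (t₀ s₀ H j i j' i' : ℕ), (∀ r r', |g₁ r r'| ≤ 2) → (∀ r r', |g₂ r r'| ≤ 2) →
      (∀ r r', ¬ Win (3 * t₀) (7 * t₀) r → g₁ r r' = 0) →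
      (∀ r r', ¬ Win 0 (3 * t₀) r' → g₂ r r' = 0) → 1 ≤ s₀ → 4 * s₀ ≤ t₀ →
      7 * t₀ < H → t₀ ≤ j → j < 2 * t₀ → 4 * t₀ ≤ j' → j' < 5 * t₀ →
      t₀ ≤ 2 * i → 2 * i ≤ 5 * t₀ → 7 * t₀ ≤ 2 * i' → 2 * i' ≤ 11 * t₀ → ∀ l l',
      |XX a (fun r => XX a (fun r' => g₁ r r' + g₂ r r') H j' i' l') H j i l| ≤
        C' * (1 / Real.sqrt s₀ + t₀ / NN d n) := by
  obtain ⟨C1, hC1, h1⟩ := window_scaled hd C κ
  refine ⟨28 * C1, by linarith, ?_⟩
  intro n _ hb a g₁ g₂ t₀ s₀ H j i j' i' hg1 hg2 hz1 hz2 hs ht hH hj1 hj2 hj3 hj4 hi1 hi2 hi3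
    hi4 l l'
  have e2 : 0 ≤ 1 / Real.sqrt (s₀ : ℝ) := by positivity
  have e3 : 0 ≤ (t₀ : ℝ) / NN d n := div_nonneg (Nat.cast_nonneg _) NN_pos.le
  have hsplit : XX a (fun r => XX a (fun r' => g₁ r r' + g₂ r r') H j' i' l') H j i l =
      XX a (fun r => XX a (fun r' => g₁ r r') H j' i' l') H j i l +
      XX a (fun r => XX a (fun r' => g₂ r r') H j' i' l') H j i l := by
    rw [← XX_add]
    congr 1
    funext r
    exact XX_add a (g₁ r) (g₂ r) H j' i' l'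
  -- g₁
  have b1 : |XX a (fun r => XX a (fun r' => g₁ r r') H j' i' l') H j i l| ≤
      4 * (C1 * (1 / Real.sqrt s₀ + ((7 * t₀ - 3 * t₀ : ℕ) : ℝ) / NN d n)) := by
    refine h1 n hb a _ 4 (3 * t₀) (7 * t₀) s₀ H j i l (by norm_num) hs (by omega) (by omega) ?_ ?_ ?_
    · intro r
      have := norm_XX_le (by omega) a (g₁ r) (B := 2) (fun r' => hg1 r r') H j' i' l'
      rw [Real.norm_eq_abs] at this
      linarith
    · intro r hr
      have : (fun r' => g₁ r r') = fun r' => (0 : ℝ) • (0 : ℝ) := by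
        funext r'; rw [hz1 r r' hr]; simp
      rw [this, XX_smul a (0 : ℝ) (fun _ => (0 : ℝ))]; simp
    · intro s hs1 hs2
      left; omega
  -- g₂
  have b2 : |XX a (fun r => XX a (fun r' => g₂ r r') H j' i' l') H j i l| ≤
      2 * (2 * (C1 * (1 / Real.sqrt s₀ + ((3 * t₀ - 0 : ℕ) : ℝ) / NN d n))) := by
    refine norm_XX_le (E := ℝ) (by omega) a (fun r => XX a (fun r' => g₂ r r') H j' i' l')
      ?_ H j i l
    intro r
    rw [Real.norm_eq_abs]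
    refine h1 n hb a (g₂ r) 2 0 (3 * t₀) s₀ H j' i' l' (by norm_num) hs (by omega) (by omega) ?_ ?_ ?_
    · intro r'; exact hg2 r r'
    · intro r' hr'; exact hz2 r r' hr'
    · intro s hs1 hs2
      right; omega
  rw [hsplit]
  refine (abs_add_le _ _).trans ?_
  have c1 : ((7 * t₀ - 3 * t₀ : ℕ) : ℝ) / NN d n = 4 * (t₀ / NN d n) := by
    rw [show 7 * t₀ - 3 * t₀ = 4 * t₀ by omega]; push_cast; ring
  have c2 : ((3 * t₀ - 0 : ℕ) : ℝ) / NN d n = 3 * (t₀ / NN d n) := by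
    rw [Nat.sub_zero]; push_cast; ring
  rw [c1] at b1
  rw [c2] at b2
  have d1 : C1 * (1 / Real.sqrt s₀ + 4 * (t₀ / NN d n)) ≤
      C1 * (4 * (1 / Real.sqrt s₀ + t₀ / NN d n)) :=
    mul_le_mul_of_nonneg_left (by linarith) (by linarith)
  have d2 : C1 * (1 / Real.sqrt s₀ + 3 * (t₀ / NN d n)) ≤
      C1 * (3 * (1 / Real.sqrt s₀ + t₀ / NN d n)) :=
    mul_le_mul_of_nonneg_left (by linarith) (by linarith)
  have d3 : 28 * C1 * (1 / Real.sqrt s₀ + t₀ / NN d n) =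
      4 * (C1 * (4 * (1 / Real.sqrt s₀ + t₀ / NN d n))) +
      4 * (C1 * (3 * (1 / Real.sqrt s₀ + t₀ / NN d n))) := by ring
  linarith

/-- the coarse part of `f` -/
private theorem mixed_coarse (hd : 3 ≤ d) (C κ : ℝ) : ∃ C' : ℝ, 1 ≤ C' ∧
    ∀ (n : ℕ) [NeZero n], HKB d n C κ → ∀ (a : Fin 2 → Tor d n) (f : Rec → Rec → ℝ)
      (t₀ s₀ H j i j' i' : ℕ), a 0 ≠ a 1 → (∀ r r', |f r r'| ≤ 1) → 1 ≤ s₀ → 4 * s₀ ≤ t₀ →
      4 * n ^ 2 ≤ t₀ → 7 * t₀ < H → t₀ ≤ j → j < 2 * t₀ → 4 * t₀ ≤ j' → j' < 5 * t₀ →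
      t₀ ≤ 2 * i → 2 * i ≤ 5 * t₀ → 7 * t₀ ≤ 2 * i' → 2 * i' ≤ 11 * t₀ →
      |(∑ l, ∑ l', XX a (fun r => XX a (fun r' => f (kap (7 * t₀) 0 r) (kap (7 * t₀) 1 r'))
          H j' i' l') H j i l) - DD a f H (7 * t₀) s₀| ≤
        C' * (1 / Real.sqrt s₀ + t₀ / NN d n + Real.exp (-κ * t₀ / n ^ 2)) := by
  obtain ⟨C2, hC2, h2⟩ := coarse_scaled hd C κ
  refine ⟨8 * C2, by linarith, ?_⟩
  intro n _ hb a f t₀ s₀ H j i j' i' ha hf hs ht hn hH hj1 hj2 hj3 hj4 hi1 hi2 hi3 hi4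
  set ε : ℝ := 1 / Real.sqrt s₀ + t₀ / NN d n + Real.exp (-κ * t₀ / n ^ 2) with hε
  -- the inner response
  set ψ₀ : Rec → ℝ := fun ρ => Xs a (fun r' => f ρ (kap (7 * t₀) 1 r')) H (7 * t₀) 1 s₀ with hψ₀
  have hψB : ∀ ρ, |ψ₀ ρ| ≤ 4 := by
    intro ρ
    have := norm_Xs_le (by omega) a (fun r' => f ρ (kap (7 * t₀) 1 r')) (B := 1)
      (fun r' => hf _ _) H (7 * t₀) 1 s₀
    rw [Real.norm_eq_abs] at this
    linarith
  have hin : ∀ ρ, |(∑ l', XX a (fun r' => f ρ (kap (7 * t₀) 1 r')) H j' i' l') - ψ₀ ρ| ≤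
      C2 * ε := by
    intro ρ
    have := h2 n hb a (f ρ) 1 one_pos ha (hf ρ) H t₀ 1 s₀ j' i' hH (by omega) (by omega) hs
      (by omega) (by omega) (by omega)
    rw [one_mul] at this
    exact this
  have hout := h2 n hb a ψ₀ 4 (by norm_num) ha hψB H t₀ 0 s₀ j i hH (by omega) (by omega) hs
    (by omega) (by omega) (by omega)
  rw [← hε] at hout
  have hDD : DD a f H (7 * t₀) s₀ = Xs a (fun r => ψ₀ (kap (7 * t₀) 0 r)) H (7 * t₀) 0 s₀ := rfl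
  have hsum : (∑ l, ∑ l', XX a (fun r => XX a (fun r' => f (kap (7 * t₀) 0 r)
      (kap (7 * t₀) 1 r')) H j' i' l') H j i l) =
      (∑ l, XX a (fun r => (∑ l', XX a (fun r' => f (kap (7 * t₀) 0 r)
        (kap (7 * t₀) 1 r')) H j' i' l') - ψ₀ (kap (7 * t₀) 0 r)) H j i l) +
      ∑ l, XX a (fun r => ψ₀ (kap (7 * t₀) 0 r)) H j i l := by
    rw [← Finset.sum_add_distrib]
    refine Finset.sum_congr rfl fun l _ => ?_
    rw [← XX_add]
    simp only [sub_add_cancel]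
    exact (XX_two a (fun l' r => XX a (fun r' => f (kap (7 * t₀) 0 r)
        (kap (7 * t₀) 1 r')) H j' i' l') H j i l).symm
  have herr : |∑ l, XX a (fun r => (∑ l', XX a (fun r' => f (kap (7 * t₀) 0 r)
        (kap (7 * t₀) 1 r')) H j' i' l') - ψ₀ (kap (7 * t₀) 0 r)) H j i l| ≤
      2 * (2 * (C2 * ε)) := by
    refine norm_sum1 _ fun l => ?_
    have := norm_XX_le (by omega) a (fun r => (∑ l', XX a (fun r' => f (kap (7 * t₀) 0 r)
        (kap (7 * t₀) 1 r')) H j' i' l') - ψ₀ (kap (7 * t₀) 0 r)) (B := C2 * ε)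
      (fun r => by rw [Real.norm_eq_abs]; exact hin _) H j i l
    rw [Real.norm_eq_abs] at this
    exact this
  rw [hsum, hDD, add_sub_assoc]
  refine (abs_add_le _ _).trans ?_
  have : 8 * C2 * ε = 2 * (2 * (C2 * ε)) + 4 * (C2 * ε) := by ring
  linarith

theorem mixed (hd : 3 ≤ d) (C κ : ℝ) : ∃ C' : ℝ, 1 ≤ C' ∧ ∀ (n : ℕ) [NeZero n],
    HKB d n C κ → ∀ (a : Fin 2 → Tor d n) (f : Rec → Rec → ℝ) (t₀ s₀ H j i j' i' : ℕ),
      a 0 ≠ a 1 → (∀ r r', |f r r'| ≤ 1) → Coarse f t₀ → 1 ≤ s₀ → 4 * s₀ ≤ t₀ →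
      4 * n ^ 2 ≤ t₀ → 7 * t₀ < H → t₀ ≤ j → j < 2 * t₀ → 4 * t₀ ≤ j' → j' < 5 * t₀ →
      t₀ ≤ 2 * i → 2 * i ≤ 5 * t₀ → 7 * t₀ ≤ 2 * i' → 2 * i' ≤ 11 * t₀ →
      |(∑ l, ∑ l', XX a (fun r => XX a (fun r' => f r r') H j' i' l') H j i l) -
        DD a f H (7 * t₀) s₀| ≤
        C' * (1 / Real.sqrt s₀ + t₀ / NN d n + Real.exp (-κ * t₀ / n ^ 2)) := by
  classical
  obtain ⟨C1, hC1, h1⟩ := mixed_window hd C κ
  obtain ⟨C2, hC2, h2⟩ := mixed_coarse hd C κ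
  refine ⟨4 * C1 + C2, by linarith, ?_⟩
  intro n _ hb a f t₀ s₀ H j i j' i' ha hf hco hs ht hn hH hj1 hj2 hj3 hj4 hi1 hi2 hi3 hi4
  have hmain := h2 n hb a f t₀ s₀ H j i j' i' ha hf hs ht hn hH hj1 hj2 hj3 hj4 hi1 hi2 hi3 hi4
  set f' : Rec → Rec → ℝ := fun r r' => f (kap (7 * t₀) 0 r) (kap (7 * t₀) 1 r') with hf'
  set g₁ : Rec → Rec → ℝ := fun r r' =>
    if Win (3 * t₀) (7 * t₀) r then f r r' - f' r r' else 0 with hg₁
  set g₂ : Rec → Rec → ℝ := fun r r' =>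
    if Win (3 * t₀) (7 * t₀) r then 0 else f r r' - f' r r' with hg₂
  have hdiff : ∀ r r', |f r r' - f' r r'| ≤ 2 := by
    intro r r'
    have x1 := abs_le.mp (hf r r')
    have x2 := abs_le.mp (hf (kap (7 * t₀) 0 r) (kap (7 * t₀) 1 r'))
    rw [abs_le]
    constructor <;> simp only [hf'] <;> linarith
  have hwin := h1 n hb a g₁ g₂ t₀ s₀ H j i j' i' ?_ ?_ ?_ ?_ hs ht hH hj1 hj2 hj3 hj4 hi1 hi2
    hi3 hi4
  · have hsplit : ∀ l l', XX a (fun r => XX a (fun r' => f r r') H j' i' l') H j i l =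
        XX a (fun r => XX a (fun r' => g₁ r r' + g₂ r r') H j' i' l') H j i l +
        XX a (fun r => XX a (fun r' => f' r r') H j' i' l') H j i l := by
      intro l l'
      rw [← XX_add]
      congr 1
      funext r
      rw [← XX_add]
      congr 1
      funext r'
      simp only [hg₁, hg₂]
      split_ifs <;> ring
    have hS : (∑ l, ∑ l', XX a (fun r => XX a (fun r' => f r r') H j' i' l') H j i l) -
        DD a f H (7 * t₀) s₀ =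
        (∑ l, ∑ l', XX a (fun r => XX a (fun r' => g₁ r r' + g₂ r r') H j' i' l') H j i l) +
        ((∑ l, ∑ l', XX a (fun r => XX a (fun r' => f' r r') H j' i' l') H j i l) -
          DD a f H (7 * t₀) s₀) := by
      simp only [hsplit, Finset.sum_add_distrib]
      ring
    rw [hS]
    refine (abs_add_le _ _).trans ?_
    have hw := norm_sum2 _ hwin
    have e3 : 0 < Real.exp (-κ * t₀ / (n : ℝ) ^ 2) := Real.exp_pos _
    have e4 : C1 * (1 / Real.sqrt s₀ + t₀ / NN d n) ≤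
        C1 * (1 / Real.sqrt s₀ + t₀ / NN d n + Real.exp (-κ * t₀ / n ^ 2)) :=
      mul_le_mul_of_nonneg_left (by linarith) (by linarith)
    have e5 : (4 * C1 + C2) * (1 / Real.sqrt s₀ + t₀ / NN d n + Real.exp (-κ * t₀ / n ^ 2)) =
        4 * (C1 * (1 / Real.sqrt s₀ + t₀ / NN d n + Real.exp (-κ * t₀ / n ^ 2))) +
        C2 * (1 / Real.sqrt s₀ + t₀ / NN d n + Real.exp (-κ * t₀ / n ^ 2)) := by ring
    linarith
  · intro r r'
    simp only [hg₁]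
    split_ifs
    · exact hdiff r r'
    · simp
  · intro r r'
    simp only [hg₂]
    split_ifs
    · simp
    · exact hdiff r r'
  · intro r r' hr
    simp only [hg₁]
    rw [if_neg hr]
  · intro r r' hr'
    simp only [hg₂]
    split_ifs with hr
    · rfl
    · rw [hco r r' hr hr']
      exact sub_self _

end CRW
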