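import Pool.Agent.Lib.CRW.L11
import Pool.Agent.Lib.CRW.L6

/-!
# Module L12: the covariance for one frequency

PROOF.  `κ' = min κ (2/d)`.  `a = st i`.  By `two_walks` the real part of the expectation is at least the real part of the main term minus
`C NN⁻² (1-lam)⁻¹ n/nrm ξ ≤ 10 C NN⁻² (1-lam)⁻² nrm ξ/n` (`one_sub_lam_le`).
Main term `= NN⁻² ∑ i, ∑ i', lam^|i-j| lam^|i'-j'| ∑ l, ∑ l', XX XX * (ch ξ (a l) conj (ch ξ (a l')))`.
(a) replace `ch ξ (a l) conj (ch ξ (a l'))` by `1`: `‖..-1‖ ≤ 14 nrm ξ/n` (`norm_ch_single_sub_one`, `ch_zero`); `|XX XX| ≤ 4` (`norm_XX_le` twice), four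
pairs `(l,l')`, `∑ i, lam^|i-j| ≤ 2/(1-lam)`: cost `≤ NN⁻² (2/(1-lam))² 16 * 14 nrm ξ/n`.
(b) the terms with `2|i-j| > t₀` or `2|i'-j'| > t₀`: `∑_{2|i-j| > t₀} lam^|i-j| ≤ 2 lam^(t₀/2)/(1-lam)`, and `lam^m ≤ e^(-(1-lam) m) ≤ e^(-4m/(d n^2))`
(`one_sub_lam_ge`, `nrm ξ ≥ 1`, `Real.add_one_le_exp`): cost `≤ NN⁻² (1-lam)⁻² * 2*4*16 e^(-2 t₀/(d n^2))`.
(c) the other terms: `t₀ ≤ 2i ≤ 5t₀`, `7t₀ ≤ 2i' ≤ 11 t₀`, `i, i' < H`: `mixed`: replace `∑ l, ∑ l', XX XX` by `DD`, cost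
`≤ NN⁻² (2/(1-lam))² C'(1/√s₀ + t₀/NN + e^(-κ t₀/n^2))`.
(d) `∑_{2|i-j| ≤ t₀} lam^|i-j| ≥ ∑_{k ≤ t₀/2} lam^k ≥ (1 - e^(-2 t₀/(d n^2)))/(1-lam)` (`k = i - j`, `j + k < H`), similarly for `i'`; as `0 ≤ DD ≤ 16` (`norm_Xs_le` twice) the sum
is `≥ NN⁻² (1-lam)⁻² (DD - 32 e^(-2t₀/(d n^2)))`.
-/

open Finset

namespace CRW

variable {d : ℕ}

private theorem inj_geo {x : ℝ} (h0 : 0 ≤ x) (h1 : x < 1) (S : Finset ℕ) (g : ℕ → ℕ)
    (hg : Set.InjOn g (S : Set ℕ)) : ∑ i ∈ S, x ^ (g i) ≤ 1 / (1 - x) := by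
  have hgeo : ∀ N : ℕ, ∑ k ∈ range N, x ^ k ≤ 1 / (1 - x) := by
    intro N
    rw [le_div_iff₀ (by linarith), geom_sum_mul_neg]
    have := pow_nonneg h0 N
    linarith
  have e1 : ∑ i ∈ S, x ^ (g i) = ∑ k ∈ S.image g, x ^ k := by
    rw [Finset.sum_image hg]
  rw [e1]
  refine le_trans (Finset.sum_le_sum_of_subset_of_nonneg ?_ (fun k _ _ => pow_nonneg h0 k))
    (hgeo ((S.image g).sup id + 1))
  intro k hk
  rw [mem_range]
  have h2 : k ≤ (S.image g).sup id := Finset.le_sup (f := id) hk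
  omega

private theorem good_ge {x : ℝ} (h0 : 0 ≤ x) (h1 : x < 1) (H j t : ℕ) (P : ℕ → Prop)
    [DecidablePred P] (hP : ∀ k, 2 * k ≤ t → P (j + k) ∧ j + k < H) :
    (1 - x ^ (t / 2 + 1)) * (1 / (1 - x)) ≤
      ∑ i ∈ (range H).filter P, x ^ (i - j + (j - i)) := by
  have e1 : (1 - x ^ (t / 2 + 1)) * (1 / (1 - x)) = ∑ k ∈ range (t / 2 + 1), x ^ k := by
    rw [mul_one_div, div_eq_iff (by linarith : 1 - x ≠ 0), geom_sum_mul_neg]
  have e2 : ∑ k ∈ range (t / 2 + 1), x ^ k =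
      ∑ i ∈ (range (t / 2 + 1)).image (fun k => j + k), x ^ (i - j + (j - i)) := by
    rw [Finset.sum_image (fun a _ b _ hab => by simpa using hab)]
    refine Finset.sum_congr rfl (fun k _ => ?_)
    congr 1
    omega
  rw [e1, e2]
  refine Finset.sum_le_sum_of_subset_of_nonneg ?_ (fun k _ _ => pow_nonneg h0 _)
  intro i hi
  rw [Finset.mem_image] at hi
  obtain ⟨k, hk, rfl⟩ := hi
  rw [mem_range] at hk
  rw [mem_filter, mem_range]
  have := hP k (by omega)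
  exact ⟨this.2, this.1⟩

private theorem bad_le {x : ℝ} (h0 : 0 ≤ x) (h1 : x < 1) (H j t : ℕ) (P : ℕ → Prop)
    [DecidablePred P] (hP : ∀ i, ¬ P i → t < 2 * (i - j + (j - i))) :
    ∑ i ∈ (range H).filter (fun i => ¬ P i), x ^ (i - j + (j - i)) ≤
      2 * x ^ (t / 2 + 1) * (1 / (1 - x)) := by
  set m := t / 2 + 1 with hm
  have hA : ∑ i ∈ ((range H).filter (fun i => ¬ P i)).filter (fun i => j ≤ i),
      x ^ (i - j + (j - i)) ≤ x ^ m * (1 / (1 - x)) := by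
    have e1 : ∑ i ∈ ((range H).filter (fun i => ¬ P i)).filter (fun i => j ≤ i),
      x ^ (i - j + (j - i)) = x ^ m *
        ∑ i ∈ ((range H).filter (fun i => ¬ P i)).filter (fun i => j ≤ i), x ^ (i - j - m) := by
      rw [Finset.mul_sum]
      refine Finset.sum_congr rfl (fun i hi => ?_)
      rw [mem_filter, mem_filter] at hi
      have h2 := hP i hi.1.2
      rw [← pow_add]
      congr 1
      omega
    rw [e1]
    refine mul_le_mul_of_nonneg_left (inj_geo h0 h1 _ _ ?_) (pow_nonneg h0 _)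
    intro a ha b hb hab
    rw [mem_coe, mem_filter, mem_filter] at ha hb
    have ha2 := hP a ha.1.2
    have hb2 := hP b hb.1.2
    simp only at hab
    omega
  have hB : ∑ i ∈ ((range H).filter (fun i => ¬ P i)).filter (fun i => ¬ j ≤ i),
      x ^ (i - j + (j - i)) ≤ x ^ m * (1 / (1 - x)) := by
    have e1 : ∑ i ∈ ((range H).filter (fun i => ¬ P i)).filter (fun i => ¬ j ≤ i),
      x ^ (i - j + (j - i)) = x ^ m *
        ∑ i ∈ ((range H).filter (fun i => ¬ P i)).filter (fun i => ¬ j ≤ i), x ^ (j - i - m) := by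
      rw [Finset.mul_sum]
      refine Finset.sum_congr rfl (fun i hi => ?_)
      rw [mem_filter, mem_filter] at hi
      have h2 := hP i hi.1.2
      have h3 := hi.2
      rw [← pow_add]
      congr 1
      omega
    rw [e1]
    refine mul_le_mul_of_nonneg_left (inj_geo h0 h1 _ _ ?_) (pow_nonneg h0 _)
    intro a ha b hb hab
    rw [mem_coe, mem_filter, mem_filter] at ha hb
    have ha2 := hP a ha.1.2
    have hb2 := hP b hb.1.2
    have ha3 := ha.2
    have hb3 := hb.2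
    simp only at hab
    omega
  rw [← Finset.sum_filter_add_sum_filter_not ((range H).filter (fun i => ¬ P i))
    (fun i => j ≤ i)]
  linarith

private theorem dbl (S : Finset ℕ) (w w' : ℕ → ℝ) (hw : ∀ i, 0 ≤ w i) (hw' : ∀ i, 0 ≤ w' i)
    (T : ℕ → ℕ → ℝ) (P P' : ℕ → Prop) [DecidablePred P] [DecidablePred P']
    {D e u δ β : ℝ} (hD : 0 ≤ D) (he : 0 ≤ e) (hu : 0 ≤ u) (hδ : δ ≤ 1) (hβ : 0 ≤ β)
    (hT : ∀ i i', |T i i'| ≤ 16)
    (hg : ∀ i i', P i → P' i' → D - e ≤ T i i')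
    (hW : ∑ i ∈ S, w i ≤ 2 * u) (hW' : ∑ i ∈ S, w' i ≤ 2 * u)
    (hG : (1 - δ) * u ≤ ∑ i ∈ S.filter P, w i) (hG' : (1 - δ) * u ≤ ∑ i ∈ S.filter P', w' i)
    (hB : ∑ i ∈ S.filter (fun i => ¬ P i), w i ≤ β)
    (hB' : ∑ i ∈ S.filter (fun i => ¬ P' i), w' i ≤ β) :
    ((1 - δ) * u) ^ 2 * D - 4 * u ^ 2 * e - 64 * u * β ≤
      ∑ i ∈ S, ∑ i' ∈ S, (w i * w' i') * T i i' := by
  have hpt : ∀ i ∈ S, ∀ i' ∈ S, (w i * w' i') * ((if P i then 1 else 0) * (if P' i' then 1 else 0) *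
      (D - e) - 16 * ((if ¬ P i then 1 else 0) + (if ¬ P' i' then 1 else 0))) ≤
      (w i * w' i') * T i i' := by
    intro i _ i' _
    refine mul_le_mul_of_nonneg_left ?_ (mul_nonneg (hw i) (hw' i'))
    have h1 := (abs_le.1 (hT i i')).1
    by_cases hp : P i
    · by_cases hp' : P' i'
      · simp only [hp, hp', if_true, not_true_eq_false, if_false]
        have := hg i i' hp hp'
        linarith
      · simp only [hp, hp', if_true, not_true_eq_false, if_false, not_false_eq_true]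
        linarith
    · by_cases hp' : P' i'
      · simp only [hp, hp', if_true, not_true_eq_false, if_false, not_false_eq_true]
        linarith
      · simp only [hp, hp', if_true, if_false, not_false_eq_true]
        linarith
  have hsum := Finset.sum_le_sum (fun i hi => Finset.sum_le_sum (hpt i hi))
  refine le_trans ?_ hsum
  set G := ∑ i ∈ S.filter P, w i with hGd
  set G' := ∑ i ∈ S.filter P', w' i with hGd'
  set Bd := ∑ i ∈ S.filter (fun i => ¬ P i), w i with hBd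
  set Bd' := ∑ i ∈ S.filter (fun i => ¬ P' i), w' i with hBd'
  set W := ∑ i ∈ S, w i with hWd
  set W' := ∑ i ∈ S, w' i with hWd'
  have hexp : ∑ i ∈ S, ∑ i' ∈ S, (w i * w' i') * ((if P i then 1 else 0) *
      (if P' i' then 1 else 0) *
      (D - e) - 16 * ((if ¬ P i then 1 else 0) + (if ¬ P' i' then 1 else 0))) =
      (D - e) * (G * G') - 16 * (Bd * W' + W * Bd') := by
    have e1 : G = ∑ i ∈ S, w i * (if P i then 1 else 0) := by
      rw [hGd, Finset.sum_filter]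
      exact Finset.sum_congr rfl (fun i _ => by split_ifs <;> simp)
    have e2 : G' = ∑ i ∈ S, w' i * (if P' i then 1 else 0) := by
      rw [hGd', Finset.sum_filter]
      exact Finset.sum_congr rfl (fun i _ => by split_ifs <;> simp)
    have e3 : Bd = ∑ i ∈ S, w i * (if ¬ P i then 1 else 0) := by
      rw [hBd, Finset.sum_filter]
      exact Finset.sum_congr rfl (fun i _ => by split_ifs <;> simp)
    have e4 : Bd' = ∑ i ∈ S, w' i * (if ¬ P' i then 1 else 0) := by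
      rw [hBd', Finset.sum_filter]
      exact Finset.sum_congr rfl (fun i _ => by split_ifs <;> simp)
    rw [e1, e2, e3, e4, hWd, hWd', Finset.sum_mul_sum, Finset.sum_mul_sum, Finset.sum_mul_sum,
      ← Finset.sum_add_distrib, Finset.mul_sum, Finset.mul_sum, ← Finset.sum_sub_distrib]
    refine Finset.sum_congr rfl (fun i _ => ?_)
    rw [← Finset.sum_add_distrib, Finset.mul_sum, Finset.mul_sum, ← Finset.sum_sub_distrib]
    refine Finset.sum_congr rfl (fun i' _ => ?_)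
    ring
  rw [hexp]
  have hGW : G ≤ W := Finset.sum_le_sum_of_subset_of_nonneg (Finset.filter_subset _ _)
    (fun i _ _ => hw i)
  have hGW' : G' ≤ W' := Finset.sum_le_sum_of_subset_of_nonneg (Finset.filter_subset _ _)
    (fun i _ _ => hw' i)
  have hG0 : 0 ≤ G := Finset.sum_nonneg (fun i _ => hw i)
  have hG0' : 0 ≤ G' := Finset.sum_nonneg (fun i _ => hw' i)
  have hB0 : 0 ≤ Bd := Finset.sum_nonneg (fun i _ => hw i)
  have hB0' : 0 ≤ Bd' := Finset.sum_nonneg (fun i _ => hw' i)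
  have hW0 : 0 ≤ W := hG0.trans hGW
  have hW0' : 0 ≤ W' := hG0'.trans hGW'
  have hx0 : 0 ≤ (1 - δ) * u := mul_nonneg (by linarith) hu
  have h1 : ((1 - δ) * u) ^ 2 ≤ G * G' := by
    rw [sq]; exact mul_le_mul hG hG' hx0 hG0
  have h2 : G * G' ≤ (2 * u) * (2 * u) :=
    mul_le_mul (hGW.trans hW) (hGW'.trans hW') hG0' (by linarith)
  have h3 : Bd * W' ≤ β * (2 * u) := mul_le_mul hB hW' hW0' hβ
  have h4 : W * Bd' ≤ (2 * u) * β := mul_le_mul hW hB' hB0' (by linarith)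
  have h5 := mul_le_mul_of_nonneg_left h1 hD
  have h6 := mul_le_mul_of_nonneg_left h2 he
  nlinarith

theorem cov_xi (hd : 3 ≤ d) (C κ : ℝ) : ∃ C' κ' : ℝ, 1 ≤ C' ∧ 0 < κ' ∧ ∀ (n : ℕ) [NeZero n],
    HKB d n C κ → ∀ (i : Fin d) (f : Rec → Rec → ℝ) (t₀ s₀ H j j' : ℕ) (ξ : Tor d n),
      (∀ r r', |f r r'| ≤ 1) → Coarse f t₀ → 1 ≤ s₀ → 4 * s₀ ≤ t₀ → 4 * n ^ 2 ≤ t₀ →
      7 * t₀ < H → t₀ ≤ j → j < 2 * t₀ → 4 * t₀ ≤ j' → j' < 5 * t₀ → ξ ≠ 0 →
      0 ≤ DD (st (n := n) i) f H (7 * t₀) s₀ →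
      ((NN d n)⁻¹) ^ 2 * (1 / (1 - lam ξ) ^ 2) * (DD (st (n := n) i) f H (7 * t₀) s₀ -
        C' * (1 / Real.sqrt s₀ + t₀ / NN d n + Real.exp (-κ' * t₀ / n ^ 2) + nrm ξ / n)) ≤
        (ER H fun η : ℕ → Tor d n => ER H fun η' : ℕ → Tor d n =>
          (f (lrec (st i) η 0 H) (lrec (st i) η' 0 H) : ℂ) *
            (ch ξ (η j) * (starRingEnd ℂ) (ch ξ (η' j')))).re := by
  obtain ⟨C1, hC1, hTW⟩ := two_walks (d := d) hd
  obtain ⟨C2, hC2, hMX⟩ := mixed hd C κ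
  by_cases hκ : 0 < κ
  swap
  · exact ⟨1, 1, le_rfl, one_pos, fun n _ hb => absurd hb.hκ hκ⟩
  have hd0 : (0 : ℝ) < d := by
    have : 0 < d := by omega
    exact_mod_cast this
  refine ⟨160 + 4 * C2 + 896 + 10 * C1, min κ (2 / d), by linarith, lt_min hκ (by positivity), ?_⟩
  intro n _ hb i f t₀ s₀ H j j' ξ hf hfc hs1 hs4 hn4 hH hj1 hj2 hj'1 hj'2 hξ hDD
  have hd1 : 1 ≤ d := by omega
  have hN := NN_pos (d := d) (n := n)
  have hn : (0 : ℝ) < n := by exact_mod_cast Nat.pos_of_ne_zero (NeZero.ne n)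
  have hm1 : 1 ≤ nrm ξ := Nat.pos_of_ne_zero fun h0 => hξ (nrm_eq_zero.mp h0)
  have hm1' : (1 : ℝ) ≤ nrm ξ := by exact_mod_cast hm1
  have hm : (0 : ℝ) < nrm ξ := by linarith
  have hl0 := lam_nonneg hd1 ξ
  have hl1 := lam_lt_one hd1 hξ
  set u : ℝ := 1 / (1 - lam ξ) with hu
  have hu0 : 0 < u := one_div_pos.2 (by linarith)
  set V : ℝ := (NN d n)⁻¹ with hV
  have hV0 : 0 < V := inv_pos.2 hN
  set δ : ℝ := lam ξ ^ (t₀ / 2 + 1) with hδ
  have hδ0 : 0 ≤ δ := pow_nonneg hl0 _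
  have hδ1 : δ ≤ 1 := pow_le_one₀ hl0 hl1.le
  set D : ℝ := DD (st (n := n) i) f H (7 * t₀) s₀ with hDdef
  have hD16 : D ≤ 16 := by
    have h1 : ∀ r, ‖Xs (st (n := n) i) (fun r' => f (kap (7 * t₀) 0 r) (kap (7 * t₀) 1 r')) H
        (7 * t₀) 1 s₀‖ ≤ 4 * 1 := fun r => norm_Xs_le hd1 _ _ (fun r' => by
          rw [Real.norm_eq_abs]; exact hf _ _) H (7 * t₀) 1 s₀
    have h2 := norm_Xs_le hd1 (st (n := n) i) (fun r => Xs (st (n := n) i)
      (fun r' => f (kap (7 * t₀) 0 r) (kap (7 * t₀) 1 r')) H (7 * t₀) 1 s₀) h1 H (7 * t₀) 0 s₀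
    have h3 : |D| ≤ 4 * (4 * 1) := by rw [← Real.norm_eq_abs]; exact h2
    linarith [le_abs_self D]
  -- abbreviations
  set X : ℕ → ℕ → Fin 2 → Fin 2 → ℝ := fun p q l l' => XX (st (n := n) i)
    (fun r => XX (st (n := n) i) (fun r' => f r r') H j' q l') H j p l with hX
  set w : ℕ → ℝ := fun p => lam ξ ^ (p - j + (j - p)) with hw
  set w' : ℕ → ℝ := fun p => lam ξ ^ (p - j' + (j' - p)) with hw'
  have hw0 : ∀ p, 0 ≤ w p := fun p => pow_nonneg hl0 _
  have hw0' : ∀ p, 0 ≤ w' p := fun p => pow_nonneg hl0 _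
  have hX4 : ∀ p q l l', |X p q l l'| ≤ 4 := by
    intro p q l l'
    have h1 : ∀ r, ‖XX (st (n := n) i) (fun r' => f r r') H j' q l'‖ ≤ 2 * 1 := fun r =>
      norm_XX_le hd1 _ _ (fun r' => by rw [Real.norm_eq_abs]; exact hf _ _) H j' q l'
    have h2 := norm_XX_le hd1 (st (n := n) i) (fun r => XX (st (n := n) i)
      (fun r' => f r r') H j' q l') h1 H j p l
    rw [Real.norm_eq_abs] at h2
    linarith
  set T : ℕ → ℕ → ℝ := fun p q => ∑ l, ∑ l', X p q l l' with hT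
  have hT16 : ∀ p q, |T p q| ≤ 16 := by
    intro p q
    refine (Finset.abs_sum_le_sum_abs _ _).trans ?_
    have h1 : ∀ l ∈ (Finset.univ : Finset (Fin 2)), |∑ l', X p q l l'| ≤ 8 := by
      intro l _
      refine (Finset.abs_sum_le_sum_abs _ _).trans ?_
      refine (Finset.sum_le_sum (fun l' _ => hX4 p q l l')).trans (le_of_eq ?_)
      simp; norm_num
    refine (Finset.sum_le_sum h1).trans (le_of_eq ?_)
    simp; norm_num
  set c : Fin 2 → ℂ := fun l => ch ξ (st (n := n) i l) with hc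
  have hc1 : ∀ l, ‖c l‖ = 1 := fun l => norm_ch _ _
  have hcs : ∀ l, ‖c l - 1‖ ≤ 7 * nrm ξ / n := by
    intro l
    have h0 : (0 : ℝ) ≤ 7 * nrm ξ / n := by positivity
    fin_cases l
    · have : c 0 = 1 := ch_zero ξ
      rw [Fin.zero_eta, this, sub_self, norm_zero]
      exact h0
    · exact norm_ch_single_sub_one ξ i
  have hcc : ∀ l l', ‖c l * (starRingEnd ℂ) (c l') - 1‖ ≤ 14 * nrm ξ / n := by
    intro l l'
    have h1 : c l * (starRingEnd ℂ) (c l') - 1 = c l * ((starRingEnd ℂ) (c l') - 1) + (c l - 1) := by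
      ring
    have h2 : ‖(starRingEnd ℂ) (c l') - 1‖ = ‖c l' - 1‖ := by
      rw [← RCLike.norm_conj (c l' - 1), map_sub, map_one]
    rw [h1]
    refine (norm_add_le _ _).trans ?_
    rw [norm_mul, hc1, one_mul, h2]
    have := add_le_add (hcs l') (hcs l)
    refine this.trans (le_of_eq ?_)
    ring
  -- main term
  set Rr : ℝ := V ^ 2 * ∑ p ∈ range H, ∑ q ∈ range H, (w p * w' q) * T p q with hRr
  set Mn : ℂ := ((NN d n : ℂ)⁻¹) ^ 2 * ∑ p ∈ range H, ∑ q ∈ range H,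
          ((lam ξ : ℂ) ^ (p - j + (j - p)) * (lam ξ : ℂ) ^ (q - j' + (j' - q))) *
            ∑ l, ∑ l', ((XX (st (n := n) i) (fun r => XX (st (n := n) i) (fun r' => f r r')
              H j' q l') H j p l : ℝ) : ℂ) *
              (ch ξ (st (n := n) i l) * (starRingEnd ℂ) (ch ξ (st (n := n) i l'))) with hMn
  have hne : (st (n := n) i) 0 ≠ (st (n := n) i) 1 := st_ne hb.hn i
  have hE := hTW n (st (n := n) i) f ξ H j j' hne hf hξ (by omega) (by omega)
  rw [← hMn] at hE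
  have hW := geo_two hl0 hl1 H j
  have hW' := geo_two hl0 hl1 H j'
  rw [← hu] at hW hW'
  have hMR : ‖Mn - (Rr : ℂ)‖ ≤ V ^ 2 * u ^ 2 * (896 * (nrm ξ / n)) := by
    have e1 : Mn - (Rr : ℂ) = ((V : ℂ)) ^ 2 * ∑ p ∈ range H, ∑ q ∈ range H,
        ((w p * w' q : ℝ) : ℂ) * ∑ l, ∑ l', ((X p q l l' : ℝ) : ℂ) *
          (c l * (starRingEnd ℂ) (c l') - 1) := by
      rw [hMn, hRr, hV]
      push_cast
      rw [← mul_sub, ← Finset.sum_sub_distrib]
      congr 1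
      refine Finset.sum_congr rfl (fun p _ => ?_)
      rw [← Finset.sum_sub_distrib]
      refine Finset.sum_congr rfl (fun q _ => ?_)
      rw [hw, hw', hT]
      push_cast
      rw [← mul_sub, ← Finset.sum_sub_distrib]
      congr 1
      refine Finset.sum_congr rfl (fun l _ => ?_)
      rw [← Finset.sum_sub_distrib]
      refine Finset.sum_congr rfl (fun l' _ => ?_)
      rw [hX, hc]
      ring
    rw [e1, norm_mul, norm_pow, Complex.norm_real, Real.norm_of_nonneg hV0.le, mul_assoc]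
    refine mul_le_mul_of_nonneg_left ?_ (by positivity)
    have h2 : ∀ p ∈ range H, ‖∑ q ∈ range H, ((w p * w' q : ℝ) : ℂ) * ∑ l, ∑ l',
        ((X p q l l' : ℝ) : ℂ) * (c l * (starRingEnd ℂ) (c l') - 1)‖ ≤
        ∑ q ∈ range H, (w p * w' q) * (224 * (nrm ξ / n)) := by
      intro p _
      refine (norm_sum_le _ _).trans (Finset.sum_le_sum (fun q _ => ?_))
      rw [norm_mul, Complex.norm_real, Real.norm_of_nonneg (mul_nonneg (hw0 p) (hw0' q))]
      refine mul_le_mul_of_nonneg_left ?_ (mul_nonneg (hw0 p) (hw0' q))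
      refine (norm_sum_le _ _).trans ?_
      have h3 : ∀ l ∈ (Finset.univ : Finset (Fin 2)), ‖∑ l', ((X p q l l' : ℝ) : ℂ) *
          (c l * (starRingEnd ℂ) (c l') - 1)‖ ≤ 112 * (nrm ξ / n) := by
        intro l _
        refine (norm_sum_le _ _).trans ?_
        have h4 : ∀ l' ∈ (Finset.univ : Finset (Fin 2)), ‖((X p q l l' : ℝ) : ℂ) *
          (c l * (starRingEnd ℂ) (c l') - 1)‖ ≤ 56 * (nrm ξ / n) := by
          intro l' _
          rw [norm_mul, Complex.norm_real, Real.norm_eq_abs]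
          calc |X p q l l'| * ‖c l * (starRingEnd ℂ) (c l') - 1‖ ≤ 4 * (14 * nrm ξ / n) :=
                mul_le_mul (hX4 p q l l') (hcc l l') (norm_nonneg _) (by norm_num)
            _ = _ := by ring
        refine (Finset.sum_le_sum h4).trans (le_of_eq ?_)
        rw [Finset.sum_const, Finset.card_univ, Fintype.card_fin, nsmul_eq_mul]
        push_cast
        ring
      refine (Finset.sum_le_sum h3).trans (le_of_eq ?_)
      rw [Finset.sum_const, Finset.card_univ, Fintype.card_fin, nsmul_eq_mul]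
      push_cast
      ring
    refine (norm_sum_le _ _).trans ((Finset.sum_le_sum h2).trans ?_)
    have h5 : ∑ p ∈ range H, ∑ q ∈ range H, (w p * w' q) * (224 * (nrm ξ / n)) =
        ((∑ p ∈ range H, w p) * ∑ q ∈ range H, w' q) * (224 * (nrm ξ / n)) := by
      rw [Finset.sum_mul_sum, Finset.sum_mul]
      refine Finset.sum_congr rfl (fun p _ => ?_)
      rw [Finset.sum_mul]
    rw [h5]
    have h6 : (∑ p ∈ range H, w p) * ∑ q ∈ range H, w' q ≤ (2 * u) * (2 * u) :=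
      mul_le_mul hW hW' (Finset.sum_nonneg (fun q _ => hw0' q)) (by positivity)
    have h7 := mul_le_mul_of_nonneg_right h6 (by positivity : (0 : ℝ) ≤ 224 * (nrm ξ / n))
    refine h7.trans (le_of_eq ?_)
    ring
  -- lower bound of the real main term
  set ε : ℝ := 1 / Real.sqrt s₀ + t₀ / NN d n + Real.exp (-κ * t₀ / n ^ 2) with hε
  have hε0 : 0 ≤ ε := by positivity
  have hlow : u ^ 2 * (D - 160 * δ - 4 * C2 * ε) ≤
      ∑ p ∈ range H, ∑ q ∈ range H, (w p * w' q) * T p q := by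
    have h1 := dbl (range H) w w' hw0 hw0' T (fun p => t₀ ≤ 2 * p ∧ 2 * p ≤ 5 * t₀)
      (fun q => 7 * t₀ ≤ 2 * q ∧ 2 * q ≤ 11 * t₀) (D := D) (e := C2 * ε) (u := u) (δ := δ)
      (β := 2 * δ * u) hDD (mul_nonneg (by linarith) hε0) hu0.le hδ1 (by positivity) hT16
      (fun p q hp hq => by
        have h2 := hMX n hb (st (n := n) i) f t₀ s₀ H j p j' q hne hf hfc hs1 hs4 hn4 hH hj1 hj2
          hj'1 hj'2 hp.1 hp.2 hq.1 hq.2
        have h3 := (abs_le.1 h2).1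
        have h4 : D - C2 * ε ≤ ∑ l, ∑ l', X p q l l' := by
          rw [hDdef, hε]
          linarith
        exact h4)
      hW hW'
      (good_ge hl0 hl1 H j t₀ _ (fun k hk => by constructor <;> omega))
      (good_ge hl0 hl1 H j' t₀ _ (fun k hk => by constructor <;> omega))
      (bad_le hl0 hl1 H j t₀ _ (fun p hp => by omega))
      (bad_le hl0 hl1 H j' t₀ _ (fun p hp => by omega))
    refine le_trans ?_ h1
    have h8 : D * δ ≤ 16 * δ := mul_le_mul_of_nonneg_right hD16 hδ0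
    have h9 : 0 ≤ δ ^ 2 * D := by positivity
    have h10 : ((1 - δ) * u) ^ 2 * D - 4 * u ^ 2 * (C2 * ε) - 64 * u * (2 * δ * u) -
        u ^ 2 * (D - 160 * δ - 4 * C2 * ε) = u ^ 2 * (δ ^ 2 * D + 2 * (16 * δ - D * δ)) := by ring
    have h11 : 0 ≤ u ^ 2 * (δ ^ 2 * D + 2 * (16 * δ - D * δ)) := by
      apply mul_nonneg (by positivity)
      linarith
    linarith
  -- the geometric factor
  have hδe : δ ≤ Real.exp (-(min κ (2 / d)) * t₀ / n ^ 2) := by
    have h1 : lam ξ ≤ Real.exp (-(1 - lam ξ)) := by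
      have := Real.add_one_le_exp (-(1 - lam ξ))
      linarith
    have h2 : δ ≤ Real.exp (-(1 - lam ξ)) ^ (t₀ / 2 + 1) := pow_le_pow_left₀ hl0 h1 _
    rw [← Real.exp_nat_mul] at h2
    refine h2.trans (Real.exp_le_exp.2 ?_)
    have h3 := one_sub_lam_ge hd1 ξ
    have h4 : (t₀ : ℝ) / 2 ≤ ((t₀ / 2 + 1 : ℕ) : ℝ) := by
      rw [div_le_iff₀ (by norm_num)]
      have : t₀ ≤ (t₀ / 2 + 1) * 2 := by omega
      exact_mod_cast this
    have h5 : 4 / (d * (n : ℝ) ^ 2) ≤ 1 - lam ξ := by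
      refine le_trans ?_ h3
      refine div_le_div_of_nonneg_right ?_ (by positivity)
      nlinarith
    have h6 : 4 / (d * (n : ℝ) ^ 2) * (t₀ / 2) ≤ (1 - lam ξ) * ((t₀ / 2 + 1 : ℕ) : ℝ) :=
      mul_le_mul h5 h4 (by positivity) (by linarith)
    have h7 : min κ (2 / d) * t₀ / n ^ 2 ≤ 4 / (d * (n : ℝ) ^ 2) * (t₀ / 2) := by
      have h8 : min κ (2 / (d : ℝ)) ≤ 2 / d := min_le_right _ _
      have h9 : min κ (2 / (d : ℝ)) * t₀ / n ^ 2 ≤ 2 / d * t₀ / n ^ 2 :=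
        div_le_div_of_nonneg_right (mul_le_mul_of_nonneg_right h8 (Nat.cast_nonneg _))
          (by positivity)
      refine h9.trans (le_of_eq ?_)
      field_simp
      ring
    have h10 : -(min κ (2 / (d : ℝ))) * t₀ / n ^ 2 = -(min κ (2 / d) * t₀ / n ^ 2) := by ring
    rw [h10]
    have h11 : ((t₀ / 2 + 1 : ℕ) : ℝ) * -(1 - lam ξ) = -((1 - lam ξ) * ((t₀ / 2 + 1 : ℕ) : ℝ)) := by
      ring
    rw [h11]
    linarith
  set ε' : ℝ := Real.exp (-(min κ (2 / d)) * t₀ / n ^ 2) with hε'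
  have hεε : ε ≤ 1 / Real.sqrt s₀ + t₀ / NN d n + ε' := by
    rw [hε, hε']
    have h1 : -κ * t₀ / (n : ℝ) ^ 2 ≤ -(min κ (2 / (d : ℝ))) * t₀ / n ^ 2 := by
      refine div_le_div_of_nonneg_right ?_ (by positivity)
      refine mul_le_mul_of_nonneg_right ?_ (Nat.cast_nonneg _)
      exact neg_le_neg (min_le_left _ _)
    have h2 := Real.exp_le_exp.2 h1
    linarith
  -- the error of the two-sided formula
  have hρu : u * (n / nrm ξ) ≤ 10 * u ^ 2 * (nrm ξ / n) := by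
    have h3 := one_sub_lam_le hd1 ξ
    have h4 : (n : ℝ) / nrm ξ ≤ 10 * u * (nrm ξ / n) := by
      rw [hu, div_le_iff₀ hm]
      rw [le_div_iff₀ (by positivity)] at h3
      have h5 : (0 : ℝ) < 1 - lam ξ := by linarith
      have h6 : 10 * (1 / (1 - lam ξ)) * (nrm ξ / n) * nrm ξ =
          10 * (nrm ξ : ℝ) ^ 2 / ((1 - lam ξ) * n) := by
        field_simp
      rw [h6, le_div_iff₀ (by positivity)]
      nlinarith
    calc u * (n / nrm ξ) ≤ u * (10 * u * (nrm ξ / n)) := mul_le_mul_of_nonneg_left h4 hu0.le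
      _ = _ := by ring
  set EE : ℂ := ER H fun η : ℕ → Tor d n => ER H fun η' : ℕ → Tor d n =>
          (f (lrec (st i) η 0 H) (lrec (st i) η' 0 H) : ℂ) *
            (ch ξ (η j) * (starRingEnd ℂ) (ch ξ (η' j'))) with hEE
  have hER : ‖EE - (Rr : ℂ)‖ ≤ V ^ 2 * u ^ 2 * ((10 * C1 + 896) * (nrm ξ / n)) := by
    have h1 := norm_add_le (EE - Mn) (Mn - (Rr : ℂ))
    rw [sub_add_sub_cancel] at h1
    have h2 : C1 * V ^ 2 * u * (n / nrm ξ) ≤ C1 * V ^ 2 * (10 * u ^ 2 * (nrm ξ / n)) := by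
      rw [mul_assoc (C1 * V ^ 2)]
      exact mul_le_mul_of_nonneg_left hρu (by positivity)
    refine h1.trans ((add_le_add (hE.trans h2) hMR).trans (le_of_eq ?_))
    ring
  have hre : Rr - ‖EE - (Rr : ℂ)‖ ≤ EE.re := by
    have h1 := Complex.abs_re_le_norm (EE - (Rr : ℂ))
    rw [Complex.sub_re, Complex.ofReal_re] at h1
    have := (abs_le.1 h1).1
    linarith
  have hRlow : V ^ 2 * (u ^ 2 * (D - 160 * δ - 4 * C2 * ε)) ≤ Rr :=
    mul_le_mul_of_nonneg_left hlow (by positivity)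
  have hu2 : 1 / (1 - lam ξ) ^ 2 = u ^ 2 := by rw [hu, div_pow, one_pow]
  rw [hu2]
  refine le_trans ?_ hre
  have hfin : V ^ 2 * u ^ 2 * (D - 160 * δ - 4 * C2 * ε - (10 * C1 + 896) * (nrm ξ / n)) ≤
      Rr - ‖EE - (Rr : ℂ)‖ := by
    have h1 : V ^ 2 * u ^ 2 * (D - 160 * δ - 4 * C2 * ε - (10 * C1 + 896) * (nrm ξ / n)) =
        V ^ 2 * (u ^ 2 * (D - 160 * δ - 4 * C2 * ε)) -
        V ^ 2 * u ^ 2 * ((10 * C1 + 896) * (nrm ξ / n)) := by ring
    linarith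
  refine le_trans (mul_le_mul_of_nonneg_left ?_ (by positivity)) hfin
  have hs0 : 0 ≤ 1 / Real.sqrt s₀ := by positivity
  have ht0 : 0 ≤ (t₀ : ℝ) / NN d n := by positivity
  have hε'0 : 0 ≤ ε' := Real.exp_nonneg _
  have hmn : 0 ≤ (nrm ξ : ℝ) / n := by positivity
  have h12 : 4 * C2 * ε ≤ 4 * C2 * (1 / Real.sqrt s₀ + t₀ / NN d n + ε') :=
    mul_le_mul_of_nonneg_left hεε (by linarith)
  nlinarith

end CRW
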