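import Pool.Agent.Lib.CRW.EA
import Pool.Agent.Lib.CRW.L12
import Pool.Agent.Lib.CRW.PB2

/-!
# Module L13: the covariance with the test statistic

PROOF of `cov_eq`.  `a = st i`.  Coins: `Tst` does not depend on them; `cavg_pair` (`x + a 0 ≠ x + a 1`, `st_ne`): the average of the term `x` is
`f (lrec a η x H) (lrec a η' x H)`.  For fixed `η'` the function `η ↦ f (lrec a η x H) ρ' * Tst ..` depends only on times `< H` (`5 t₀ ≤ H`), so `ER_shift` for
both walks with the shift `x`: `lrec a (η + x) x H = lrec a η 0 H` (`lrec_shift`), `Tst (η + x) (η' + x) = Tst η η'` (`η j + x - (η' j' + x)`): all terms `x` are equal: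
`E2 = NN * ER ER f(lrec 0, lrec 0) Tst` (`card_tor`).  `ch ξ (η j - η' j') = ch ξ (η j) * conj (ch ξ (η' j'))` (`ch_add`, `ch_neg`); move the finite sums and
the real part (`EP_map`, `Complex.reLm`) outside; `NN * NN⁻¹ = 1`.
PROOF of `cov_lower`: `cov_xi` for every `ξ ∈ XI d n δ` (`nrm ξ/n ≤ δ`), `j ∈ [t₀, 2t₀)`, `j' ∈ [4t₀, 5t₀)`: `t₀²` pairs; the sum of `1/(1-lam ξ)²` is `SX`.
`gA_avg`, `gB_avg`: check the cases of `cw`/`colB` (`some`/`none`, `<`, `=`, `>`) for the two sites, and sum over the four values of the two coins.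
-/

open Finset

namespace CRW

variable {d : ℕ}

/-- is the first site of the pair marked `1`? -/
noncomputable def gA (r r' : Rec) (u : Fin 2 → Bool) : ℝ := if colB (r 0) (r' 0) (u 0) then 1 else 0

/-- do the two sites of the pair have different marks? -/
noncomputable def gB (r r' : Rec) (u : Fin 2 → Bool) : ℝ :=
  if colB (r 0) (r' 0) (u 0) ≠ colB (r 1) (r' 1) (u 1) then 1 else 0

private theorem colB_avg (o o' : Option ℕ) :
    ((if colB o o' true then (1 : ℝ) else 0) + (if colB o o' false then (1 : ℝ) else 0)) / 2 = cw o o' := by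
  cases o with
  | none => cases o' with
    | none => simp [colB, cw]
    | some t => simp [colB, cw]
  | some s => cases o' with
    | none => simp [colB, cw]
    | some t =>
      by_cases h1 : s < t
      · simp [colB, cw, h1]
      · by_cases h2 : t < s
        · simp [colB, cw, h1, h2]
        · simp [colB, cw, h1, h2]

private theorem sum_two_bool (F : (Fin 2 → Bool) → ℝ) :
    ∑ u, F u = F ![true, true] + F ![true, false] + F ![false, true] + F ![false, false] := by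
  have h : (univ : Finset (Fin 2 → Bool)) =
      {![true, true], ![true, false], ![false, true], ![false, false]} := by decide
  rw [h, Finset.sum_insert (by decide), Finset.sum_insert (by decide),
    Finset.sum_insert (by decide), Finset.sum_singleton]
  ring

theorem gA_avg (r r' : Rec) : (∑ u, gA r r' u) / 4 = fA r r' := by
  rw [sum_two_bool]
  unfold gA fA
  rw [← colB_avg]
  simp only [Matrix.cons_val_zero]
  ring

private theorem bool_id (a b c e : Bool) :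
    ((if a ≠ c then (1 : ℝ) else 0) + (if a ≠ e then (1 : ℝ) else 0) +
      (if b ≠ c then (1 : ℝ) else 0) + (if b ≠ e then (1 : ℝ) else 0)) / 4 =
    ((if a then (1 : ℝ) else 0) + (if b then (1 : ℝ) else 0)) / 2 *
      (1 - ((if c then (1 : ℝ) else 0) + (if e then (1 : ℝ) else 0)) / 2) +
      (1 - ((if a then (1 : ℝ) else 0) + (if b then (1 : ℝ) else 0)) / 2) *
        (((if c then (1 : ℝ) else 0) + (if e then (1 : ℝ) else 0)) / 2) := by
  cases a <;> cases b <;> cases c <;> cases e <;> norm_num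

theorem gB_avg (r r' : Rec) : (∑ u, gB r r' u) / 4 = fB r r' := by
  rw [sum_two_bool]
  unfold gB fB
  rw [← colB_avg, ← colB_avg, ← bool_id]
  rfl

section
variable {n : ℕ} [NeZero n] {E : Type} [AddCommGroup E] [Module ℝ E]

/-- double expectation -/
private noncomputable def EE (H : ℕ) (G : (ℕ → Tor d n) → (ℕ → Tor d n) → E) : E :=
  ER H fun η => ER H fun η' => G η η'

private theorem EE_sum (H : ℕ) {ι : Type} (s : Finset ι)
    (G : ι → (ℕ → Tor d n) → (ℕ → Tor d n) → E) :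
    EE H (fun η η' => ∑ i ∈ s, G i η η') = ∑ i ∈ s, EE H (G i) := by
  unfold EE ER
  rw [← EP_sum]
  congr 1
  funext η _
  rw [← EP_sum]

private theorem EE_smul (H : ℕ) (c : ℝ) (G : (ℕ → Tor d n) → (ℕ → Tor d n) → E) :
    EE H (fun η η' => c • G η η') = c • EE H G := by
  unfold EE ER
  rw [← EP_smul]
  congr 1
  funext η _
  rw [← EP_smul]

private theorem EE_map {E' : Type} [AddCommGroup E'] [Module ℝ E'] (f : E →ₗ[ℝ] E') (H : ℕ)
    (G : (ℕ → Tor d n) → (ℕ → Tor d n) → E) :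
    EE H (fun η η' => f (G η η')) = f (EE H G) := by
  unfold EE ER
  rw [← EP_map]
  congr 1
  funext η _
  rw [← EP_map]

private theorem EE_shift (H : ℕ) (G : (ℕ → Tor d n) → (ℕ → Tor d n) → E)
    (hG : ∀ η₁ η₂ η₁' η₂' : ℕ → Tor d n, (∀ s < H, η₁ s = η₂ s) → (∀ s < H, η₁' s = η₂' s) →
      G η₁ η₁' = G η₂ η₂') (x : Tor d n) :
    EE H (fun η η' => G (fun s => η s + x) (fun s => η' s + x)) = EE H G := by
  unfold EE
  have h1 : (fun η : ℕ → Tor d n => ER H fun η' => G (fun s => η s + x) (fun s => η' s + x)) =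
      fun η => ER H fun η' => G (fun s => η s + x) η' := by
    funext η
    exact ER_shift H (fun η' => G (fun s => η s + x) η')
      (fun η₁ η₂ _ h => hG _ _ _ _ (fun _ _ => rfl) h) x
  rw [h1]
  refine ER_shift H (fun η => ER H fun η' => G η η') (fun η₁ η₂ _ h => ?_) x
  show ER H (fun η' => G η₁ η') = ER H (fun η' => G η₂ η')
  congr 1
  funext η'
  exact hG _ _ _ _ h (fun _ _ => rfl)

private theorem Tst_congr (δ : ℝ) (t₀ H : ℕ) (hH : 5 * t₀ ≤ H)
    (η₁ η₂ η₁' η₂' : ℕ → Tor d n) (h : ∀ s < H, η₁ s = η₂ s) (h' : ∀ s < H, η₁' s = η₂' s) :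
    Tst δ t₀ η₁ η₁' = Tst δ t₀ η₂ η₂' := by
  unfold Tst
  congr 1
  refine Finset.sum_congr rfl fun ξ _ => ?_
  congr 1
  refine Finset.sum_congr rfl fun j hj => Finset.sum_congr rfl fun j' hj' => ?_
  rw [mem_Ico] at hj hj'
  rw [h j (by omega), h' j' (by omega)]

private theorem Tst_shift (δ : ℝ) (t₀ : ℕ) (η η' : ℕ → Tor d n) (x : Tor d n) :
    Tst δ t₀ (fun s => η s + x) (fun s => η' s + x) = Tst δ t₀ η η' := by
  unfold Tst
  simp only [add_sub_add_right_eq_sub]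

private theorem cavg_sum_mul {ι : Type} [Fintype ι] (G : ι → (Tor d n → Bool) → ℝ) (T : ℝ) :
    cavg (fun c => (∑ x, G x c) * T) = ∑ x, cavg (G x) * T := by
  unfold cavg
  simp only [Finset.sum_mul, Finset.mul_sum]
  rw [Finset.sum_comm]
  refine Finset.sum_congr rfl fun x _ => Finset.sum_congr rfl fun c _ => ?_
  ring

private theorem Tst_expand (δ : ℝ) (t₀ : ℕ) (η η' : ℕ → Tor d n) (v : ℝ) :
    v * Tst δ t₀ η η' = ∑ ξ ∈ XI d n δ, ∑ j ∈ Ico t₀ (2 * t₀), ∑ j' ∈ Ico (4 * t₀) (5 * t₀),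
      (NN d n)⁻¹ • Complex.reLm ((v : ℂ) * (ch ξ (η j) * (starRingEnd ℂ) (ch ξ (η' j')))) := by
  unfold Tst
  rw [Finset.mul_sum, Finset.mul_sum]
  refine Finset.sum_congr rfl fun ξ _ => ?_
  rw [Complex.re_sum, Finset.mul_sum, Finset.mul_sum]
  refine Finset.sum_congr rfl fun j _ => ?_
  rw [Complex.re_sum, Finset.mul_sum, Finset.mul_sum]
  refine Finset.sum_congr rfl fun j' _ => ?_
  rw [Complex.reLm_coe, Complex.re_ofReal_mul, sub_eq_add_neg, ch_add, ch_neg, smul_eq_mul]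
  ring

end

theorem cov_eq {n : ℕ} [NeZero n] (hn : 3 ≤ n) (i : Fin d) (f : Rec → Rec → ℝ)
    (g : Rec → Rec → (Fin 2 → Bool) → ℝ) (hg : ∀ r r', (∑ u, g r r' u) / 4 = f r r')
    (t₀ H : ℕ) (hH : 5 * t₀ ≤ H) (δ : ℝ) :
    E2 H (fun η η' c => (∑ x, g (lrec (st (n := n) i) η x H) (lrec (st i) η' x H)
      fun j => c (x + st i j)) * Tst δ t₀ η η') =
      ∑ ξ ∈ XI d n δ, ∑ j ∈ Ico t₀ (2 * t₀), ∑ j' ∈ Ico (4 * t₀) (5 * t₀),
        (ER H fun η : ℕ → Tor d n => ER H fun η' : ℕ → Tor d n =>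
          (f (lrec (st i) η 0 H) (lrec (st i) η' 0 H) : ℂ) *
            (ch ξ (η j) * (starRingEnd ℂ) (ch ξ (η' j')))).re := by
  have h1 : E2 H (fun η η' c => (∑ x, g (lrec (st (n := n) i) η x H) (lrec (st i) η' x H)
      fun j => c (x + st i j)) * Tst δ t₀ η η') =
      EE H (fun η η' => ∑ x : Tor d n, f (lrec (st (n := n) i) η x H) (lrec (st i) η' x H) *
        Tst δ t₀ η η') := by
    unfold E2 EE
    congr 1
    funext η
    congr 1
    funext η'
    rw [cavg_sum_mul]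
    refine Finset.sum_congr rfl fun x _ => ?_
    rw [cavg_pair (g (lrec (st (n := n) i) η x H) (lrec (st i) η' x H)) (fun j => x + st i j)
      (fun h => st_ne hn i (add_left_cancel h)), hg]
  rw [h1, EE_sum]
  have h2 : ∀ x : Tor d n, EE H (fun η η' => f (lrec (st (n := n) i) η x H) (lrec (st i) η' x H) *
        Tst δ t₀ η η') = EE H (fun η η' => f (lrec (st (n := n) i) η 0 H) (lrec (st i) η' 0 H) *
        Tst δ t₀ η η') := by
    intro x
    rw [← EE_shift H (fun η η' => f (lrec (st (n := n) i) η x H) (lrec (st i) η' x H) *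
        Tst δ t₀ η η') ?_ x]
    · congr 1
      funext η η'
      have e1 := lrec_shift (st (n := n) i) η 0 x H
      have e2 := lrec_shift (st (n := n) i) η' 0 x H
      rw [zero_add] at e1 e2
      show f (lrec (st i) (fun s => η s + x) x H) (lrec (st i) (fun s => η' s + x) x H) *
        Tst δ t₀ (fun s => η s + x) (fun s => η' s + x) = _
      rw [e1, e2, Tst_shift]
    · intro η₁ η₂ η₁' η₂' h h'
      show f (lrec (st i) η₁ x H) (lrec (st i) η₁' x H) * Tst δ t₀ η₁ η₁' =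
        f (lrec (st i) η₂ x H) (lrec (st i) η₂' x H) * Tst δ t₀ η₂ η₂'
      rw [lrec_congr (st i) x H h, lrec_congr (st i) x H h', Tst_congr δ t₀ H hH _ _ _ _ h h']
  rw [Finset.sum_congr rfl fun x _ => h2 x, Finset.sum_const, card_univ, nsmul_eq_mul, card_tor]
  have h3 : EE H (fun η η' => f (lrec (st (n := n) i) η 0 H) (lrec (st i) η' 0 H) *
        Tst δ t₀ η η') = ∑ ξ ∈ XI d n δ, ∑ j ∈ Ico t₀ (2 * t₀), ∑ j' ∈ Ico (4 * t₀) (5 * t₀),
      (NN d n)⁻¹ * (EE H fun η η' : ℕ → Tor d n =>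
          (f (lrec (st i) η 0 H) (lrec (st i) η' 0 H) : ℂ) *
            (ch ξ (η j) * (starRingEnd ℂ) (ch ξ (η' j')))).re := by
    simp only [Tst_expand]
    rw [EE_sum]
    refine Finset.sum_congr rfl fun ξ _ => ?_
    rw [EE_sum]
    refine Finset.sum_congr rfl fun j _ => ?_
    rw [EE_sum]
    refine Finset.sum_congr rfl fun j' _ => ?_
    rw [EE_smul, EE_map, smul_eq_mul, Complex.reLm_coe]
  rw [h3, Finset.mul_sum]
  refine Finset.sum_congr rfl fun ξ _ => ?_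
  rw [Finset.mul_sum]
  refine Finset.sum_congr rfl fun j _ => ?_
  rw [Finset.mul_sum]
  refine Finset.sum_congr rfl fun j' _ => ?_
  rw [← mul_assoc, mul_inv_cancel₀ NN_pos.ne', one_mul]
  rfl

theorem cov_lower (hd : 3 ≤ d) (C κ : ℝ) : ∃ C' κ' : ℝ, 1 ≤ C' ∧ 0 < κ' ∧
    ∀ (n : ℕ) [NeZero n], HKB d n C κ → ∀ (i : Fin d) (f : Rec → Rec → ℝ)
      (g : Rec → Rec → (Fin 2 → Bool) → ℝ) (t₀ s₀ H : ℕ) (δ : ℝ),
      (∀ r r', (∑ u, g r r' u) / 4 = f r r') →
      (∀ r r', |f r r'| ≤ 1) → Coarse f t₀ → 1 ≤ s₀ → 4 * s₀ ≤ t₀ → 4 * n ^ 2 ≤ t₀ →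
      7 * t₀ < H → 0 < δ → 0 ≤ DD (st (n := n) i) f H (7 * t₀) s₀ →
      (t₀ / NN d n) ^ 2 * SX d n δ * (DD (st (n := n) i) f H (7 * t₀) s₀ -
        C' * (1 / Real.sqrt s₀ + t₀ / NN d n + Real.exp (-κ' * t₀ / n ^ 2) + δ)) ≤
        E2 H (fun η η' c => (∑ x, g (lrec (st (n := n) i) η x H) (lrec (st i) η' x H)
          fun j => c (x + st i j)) * Tst δ t₀ η η') := by
  obtain ⟨C', κ', hC', hκ', h⟩ := cov_xi hd C κ
  refine ⟨C', κ', hC', hκ', ?_⟩
  intro n _ hb i f g t₀ s₀ H δ hg hf hc hs₀ hst hnt hH hδ hDD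
  rw [cov_eq hb.hn i f g hg t₀ H (by omega) δ]
  have hNN : 0 < NN d n := NN_pos
  have hn0 : (0 : ℝ) < n := by
    have := hb.hn
    exact_mod_cast (show 0 < n by omega)
  set D := DD (st (n := n) i) f H (7 * t₀) s₀ with hD
  set W := D - C' * (1 / Real.sqrt s₀ + t₀ / NN d n + Real.exp (-κ' * t₀ / n ^ 2) + δ) with hW
  have key : ∀ ξ ∈ XI d n δ, ((t₀ : ℝ) / NN d n) ^ 2 * (1 / (1 - lam ξ) ^ 2) * W ≤
      ∑ j ∈ Ico t₀ (2 * t₀), ∑ j' ∈ Ico (4 * t₀) (5 * t₀),
        (ER H fun η : ℕ → Tor d n => ER H fun η' : ℕ → Tor d n =>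
          (f (lrec (st i) η 0 H) (lrec (st i) η' 0 H) : ℂ) *
            (ch ξ (η j) * (starRingEnd ℂ) (ch ξ (η' j')))).re := by
    intro ξ hξ
    unfold XI at hξ
    rw [mem_filter] at hξ
    obtain ⟨_, hξ0, hξδ⟩ := hξ
    have hW2 : W ≤ D - C' * (1 / Real.sqrt s₀ + t₀ / NN d n + Real.exp (-κ' * t₀ / n ^ 2) +
        nrm ξ / n) := by
      have h1 : (nrm ξ : ℝ) / n ≤ δ := by
        rw [div_le_iff₀ hn0]
        exact hξδ
      rw [hW]
      have h2 : C' * (1 / Real.sqrt s₀ + t₀ / NN d n + Real.exp (-κ' * t₀ / n ^ 2) +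
        nrm ξ / n) ≤ C' * (1 / Real.sqrt s₀ + t₀ / NN d n + Real.exp (-κ' * t₀ / n ^ 2) + δ) := by
        apply mul_le_mul_of_nonneg_left _ (by linarith)
        linarith
      linarith
    have hpos : 0 ≤ ((NN d n)⁻¹) ^ 2 * (1 / (1 - lam ξ) ^ 2) := by positivity
    have hterm : ∀ j ∈ Ico t₀ (2 * t₀), ∀ j' ∈ Ico (4 * t₀) (5 * t₀),
        ((NN d n)⁻¹) ^ 2 * (1 / (1 - lam ξ) ^ 2) * W ≤
        (ER H fun η : ℕ → Tor d n => ER H fun η' : ℕ → Tor d n =>
          (f (lrec (st i) η 0 H) (lrec (st i) η' 0 H) : ℂ) *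
            (ch ξ (η j) * (starRingEnd ℂ) (ch ξ (η' j')))).re := by
      intro j hj j' hj'
      rw [mem_Ico] at hj hj'
      refine le_trans (mul_le_mul_of_nonneg_left hW2 hpos) ?_
      exact h n hb i f t₀ s₀ H j j' ξ hf hc hs₀ hst hnt hH hj.1 hj.2 hj'.1 hj'.2 hξ0 hDD
    calc ((t₀ : ℝ) / NN d n) ^ 2 * (1 / (1 - lam ξ) ^ 2) * W
        = ∑ j ∈ Ico t₀ (2 * t₀), ∑ j' ∈ Ico (4 * t₀) (5 * t₀),
          ((NN d n)⁻¹) ^ 2 * (1 / (1 - lam ξ) ^ 2) * W := by
          rw [Finset.sum_const, Finset.sum_const, Nat.card_Ico, Nat.card_Ico,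
            show 2 * t₀ - t₀ = t₀ by omega, show 5 * t₀ - 4 * t₀ = t₀ by omega,
            nsmul_eq_mul, nsmul_eq_mul, div_eq_mul_inv]
          ring
      _ ≤ _ := Finset.sum_le_sum fun j hj => Finset.sum_le_sum fun j' hj' => hterm j hj j' hj'
  calc ((t₀ : ℝ) / NN d n) ^ 2 * SX d n δ * W
      = ∑ ξ ∈ XI d n δ, ((t₀ : ℝ) / NN d n) ^ 2 * (1 / (1 - lam ξ) ^ 2) * W := by
        unfold SX
        rw [Finset.mul_sum, Finset.sum_mul]
    _ ≤ _ := Finset.sum_le_sum key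

end CRW
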