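import Pool.Agent.Lib.CRW.PE

/-!
# Module PF: gradient and centred bounds of the value functions

`Dec a ψ B κ'` : `‖pv a ψ k t r b‖ ≤ B e^(-κ' k/N)`.

PROOFS.  `Dec_of_le`: `norm_pv_le_of` (`κ' = 0`).  `Dec_of_inc`: `inc_pv`.
`chg_Dec`: difference of two.
`val_grad`: if `¬ Inc r` both sides are `ψ r` (`val_complete`).  Otherwise `val_charge` twice and subtract:
`‖..‖ ≤ ∑ s ≤ k, ∑ j, |hk s (b + w - a j) - hk s (b - a j)| * 2 B e^(-κ' (k-s)/N)`
`≤ 2 B e^(-κ' k/N) ∑ j, ∑ s, e^(κ s/N) gr s (b - a j)` (`gr_ge`, `0 ≤ κ' ≤ κ`) `≤ 2 B e^(-κ' k/N) * ∑ j, C / rho (b - a j)^(d-1)` and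
`rho b ≤ 2 rho (b - a j)` (`rho_le_two_mul`): factor `2^(d-1)`.
`val_cent`: the same with `val_sub_vbar` and `hb.cent`.
-/

open Finset

namespace CRW

variable {d n : ℕ}

/-- the class of functions of the record whose expectation decays with the number of steps left -/
def Dec {d n : ℕ} [NeZero n] {E : Type} [NormedAddCommGroup E] [NormedSpace ℝ E]
    (a : Fin 2 → Tor d n) (ψ : Rec → E) (B κ' : ℝ) : Prop :=
  ∀ k t r b, ‖pv a ψ k t r b‖ ≤ B * Real.exp (-κ' * k / NN d n)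

theorem Dec_of_le [NeZero n] (hd : 1 ≤ d) {E : Type} [NormedAddCommGroup E] [NormedSpace ℝ E]
    (a : Fin 2 → Tor d n) {ψ : Rec → E} {B : ℝ} (hψ : ∀ r, ‖ψ r‖ ≤ B) : Dec a ψ B 0 := by
  intro k t r b
  have h := norm_pv_le_of hd a hψ k t r b
  simpa using h

theorem Dec_of_inc (hd : 3 ≤ d) (C κ : ℝ) : ∃ C' : ℝ, 1 ≤ C' ∧ ∀ (n : ℕ) [NeZero n],
    HKB d n C κ → ∀ (E : Type) [NormedAddCommGroup E] [NormedSpace ℝ E]
      (a : Fin 2 → Tor d n) (ψ : Rec → E) (B : ℝ), 0 ≤ B → (∀ r, ‖ψ r‖ ≤ B) →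
      (∀ r, ¬ Inc r → ψ r = 0) → Dec a ψ (C' * B) κ := by
  classical
  obtain ⟨C', hC', h⟩ := inc_pv hd C κ
  refine ⟨C', hC', ?_⟩
  intro n _ hb E _ _ a ψ B hB hψ hψ0 k t r b
  have h1 := h n hb a k t r b
  have h2 := norm_pv_le a ψ k t r b
  have h3 := pv_mono a (ψ := fun r => ‖ψ r‖)
    (φ := fun r => B • (if Inc r then (1 : ℝ) else 0)) (by
      intro r
      by_cases hr : Inc r
      · simp only [hr, if_true, smul_eq_mul, mul_one]
        exact hψ r
      · simp only [hψ0 r hr, norm_zero, hr, if_false, smul_eq_mul, mul_zero]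
        exact le_refl _) k t r b
  rw [pv_smul] at h3
  have h4 : pv a (fun ρ => if Inc ρ then (1 : ℝ) else 0) k t r b ≤
      C' * Real.exp (-κ * k / NN d n) := by
    convert h1 using 2
  calc ‖pv a ψ k t r b‖ ≤ B • pv a (fun ρ => if Inc ρ then (1 : ℝ) else 0) k t r b := h2.trans h3
    _ = B * pv a (fun ρ => if Inc ρ then (1 : ℝ) else 0) k t r b := rfl
    _ ≤ B * (C' * Real.exp (-κ * k / NN d n)) := mul_le_mul_of_nonneg_left h4 hB
    _ = C' * B * Real.exp (-κ * k / NN d n) := by ring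

private theorem chg_Dec [NeZero n] {E : Type} [NormedAddCommGroup E] [NormedSpace ℝ E]
    {a : Fin 2 → Tor d n} {ψ : Rec → E} {B κ' : ℝ} (h : Dec a ψ B κ') (k t : ℕ) (r : Rec)
    (j : Fin 2) : ‖chg a ψ k t r j‖ ≤ 2 * B * Real.exp (-κ' * k / NN d n) := by
  unfold chg
  have h1 := h k t (upd a t (a j) r) (a j)
  have h2 := h k t r (a j)
  have h3 := norm_sub_le (pv a ψ k t (upd a t (a j) r) (a j)) (pv a ψ k t r (a j))
  linarith

/-- The sum of the charges with coefficients `c`. -/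
private theorem sum_chg [NeZero n] {E : Type} [NormedAddCommGroup E] [NormedSpace ℝ E]
    {a : Fin 2 → Tor d n} {ψ : Rec → E} {B κ κ' : ℝ} (h0 : 0 ≤ κ') (h1 : κ' ≤ κ)
    (h : Dec a ψ B κ') (k t : ℕ) (r : Rec) (c : ℕ → Fin 2 → ℝ) (D : ℝ)
    (hc : ∀ j, ∑ s ∈ range (k + 1), Real.exp (κ * s / NN d n) * |c s j| ≤ D) :
    ‖∑ s ∈ range (k + 1), ∑ j, c s j • chg a ψ (k - s) (t + s) r j‖ ≤
      4 * B * Real.exp (-κ' * k / NN d n) * D := by
  have hB : 0 ≤ B := by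
    have h2 := h 0 0 r (a 0)
    have h3 : 0 ≤ B * Real.exp (-κ' * (0 : ℕ) / NN d n) := (norm_nonneg _).trans h2
    exact nonneg_of_mul_nonneg_left h3 (Real.exp_pos _)
  have hN : 0 < NN d n := NN_pos
  have hterm : ∀ s ∈ range (k + 1), ‖∑ j, c s j • chg a ψ (k - s) (t + s) r j‖ ≤
      ∑ j : Fin 2, (2 * B * Real.exp (-κ' * k / NN d n)) *
        (Real.exp (κ * s / NN d n) * |c s j|) := by
    intro s hs
    refine (norm_sum_le _ _).trans (sum_le_sum fun j _ => ?_)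
    rw [norm_smul, Real.norm_eq_abs]
    have h3 := chg_Dec h (k - s) (t + s) r j
    have hsk : s ≤ k := by
      have := mem_range.mp hs
      omega
    have h4 : Real.exp (-κ' * ((k - s : ℕ) : ℝ) / NN d n) ≤
        Real.exp (-κ' * k / NN d n) * Real.exp (κ * s / NN d n) := by
      rw [← Real.exp_add]
      apply Real.exp_le_exp.mpr
      rw [Nat.cast_sub hsk, ← add_div]
      apply div_le_div_of_nonneg_right _ hN.le
      have : κ' * (s : ℝ) ≤ κ * s := mul_le_mul_of_nonneg_right h1 (Nat.cast_nonneg s)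
      linarith
    calc |c s j| * ‖chg a ψ (k - s) (t + s) r j‖
        ≤ |c s j| * (2 * B * Real.exp (-κ' * ((k - s : ℕ) : ℝ) / NN d n)) :=
          mul_le_mul_of_nonneg_left h3 (abs_nonneg _)
      _ ≤ |c s j| * (2 * B * (Real.exp (-κ' * k / NN d n) * Real.exp (κ * s / NN d n))) := by
          apply mul_le_mul_of_nonneg_left _ (abs_nonneg _)
          exact mul_le_mul_of_nonneg_left h4 (by linarith)
      _ = (2 * B * Real.exp (-κ' * k / NN d n)) * (Real.exp (κ * s / NN d n) * |c s j|) := by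
          ring
  calc ‖∑ s ∈ range (k + 1), ∑ j, c s j • chg a ψ (k - s) (t + s) r j‖
      ≤ ∑ s ∈ range (k + 1), ∑ j : Fin 2, (2 * B * Real.exp (-κ' * k / NN d n)) *
        (Real.exp (κ * s / NN d n) * |c s j|) := (norm_sum_le _ _).trans (sum_le_sum hterm)
    _ = ∑ j : Fin 2, (2 * B * Real.exp (-κ' * k / NN d n)) *
        ∑ s ∈ range (k + 1), (Real.exp (κ * s / NN d n) * |c s j|) := by
        rw [sum_comm]
        refine sum_congr rfl fun j _ => ?_
        rw [mul_sum]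
    _ ≤ ∑ _j : Fin 2, (2 * B * Real.exp (-κ' * k / NN d n)) * D :=
        sum_le_sum fun j _ => mul_le_mul_of_nonneg_left (hc j)
          (mul_nonneg (by linarith) (Real.exp_pos _).le)
    _ = 4 * B * Real.exp (-κ' * k / NN d n) * D := by
        rw [sum_const, card_univ, Fintype.card_fin]
        simp only [nsmul_eq_mul, Nat.cast_ofNat]
        ring

private theorem rho_pow_le [NeZero n] {a : Tor d n} (ha : nrm a ≤ 1) (b : Tor d n) (m : ℕ)
    {C : ℝ} (hC : 0 ≤ C) : C / rho (b - a) ^ m ≤ C * 2 ^ m / rho b ^ m := by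
  rw [div_le_div_iff₀ (pow_pos (rho_pos _) _) (pow_pos (rho_pos _) _)]
  have h1 : rho b ^ m ≤ (2 * rho (b - a)) ^ m :=
    pow_le_pow_left₀ (rho_pos b).le (rho_le_two_mul ha b) m
  rw [mul_pow] at h1
  calc C * rho b ^ m ≤ C * (2 ^ m * rho (b - a) ^ m) := mul_le_mul_of_nonneg_left h1 hC
    _ = C * 2 ^ m * rho (b - a) ^ m := by ring

open Classical in
theorem val_grad (hd : 3 ≤ d) (C κ : ℝ) : ∃ C' : ℝ, 1 ≤ C' ∧ ∀ (n : ℕ) [NeZero n],
    HKB d n C κ → ∀ (E : Type) [NormedAddCommGroup E] [NormedSpace ℝ E]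
      (a : Fin 2 → Tor d n) (ψ : Rec → E) (B κ' : ℝ), (∀ j, nrm (a j) ≤ 1) → a 0 ≠ a 1 →
      0 ≤ κ' → κ' ≤ κ → Dec a ψ B κ' → ∀ (k t : ℕ) (r : Rec) (b w : Tor d n),
      stp d n w ≠ 0 → ‖val a ψ k t r (b + w) - val a ψ k t r b‖ ≤
        if Inc r then C' * B * Real.exp (-κ' * k / NN d n) / rho b ^ (d - 1) else 0 := by
  refine ⟨4 * (max C 1 * 2 ^ (d - 1)), ?_, ?_⟩
  · have h1 : (1 : ℝ) ≤ max C 1 := le_max_right _ _
    have h2 : (1 : ℝ) ≤ 2 ^ (d - 1) := one_le_pow₀ (by norm_num)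
    nlinarith [mul_le_mul h1 h2 zero_le_one (le_trans zero_le_one h1)]
  intro n _ hb E _ _ a ψ B κ' ha hne h0 h1 hD k t r b w hw
  have hd1 : 1 ≤ d := by omega
  split_ifs with hr
  · have e1 : val a ψ k t r (b + w) - val a ψ k t r b =
        ∑ s ∈ range (k + 1), ∑ j, (hk d n s (b - a j + w) - hk d n s (b - a j)) •
          chg a ψ (k - s) (t + s) r j := by
      rw [val_charge hne hd1, val_charge hne hd1, add_sub_add_left_eq_sub, ← sum_sub_distrib]
      refine sum_congr rfl fun s _ => ?_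
      rw [← sum_sub_distrib]
      refine sum_congr rfl fun j _ => ?_
      rw [sub_smul, add_sub_right_comm]
    rw [e1]
    refine (sum_chg (D := max C 1 * 2 ^ (d - 1) / rho b ^ (d - 1)) h0 h1 hD k t r
      (fun s j => hk d n s (b - a j + w) - hk d n s (b - a j)) ?_).trans (le_of_eq (by ring))
    intro j
    calc ∑ s ∈ range (k + 1), Real.exp (κ * s / NN d n) *
          |hk d n s (b - a j + w) - hk d n s (b - a j)|
        ≤ ∑ s ∈ range (k + 1), Real.exp (κ * s / NN d n) * gr s (b - a j) :=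
          sum_le_sum fun s _ => mul_le_mul_of_nonneg_left (gr_ge s (b - a j) hw)
            (Real.exp_pos _).le
      _ ≤ C / rho (b - a j) ^ (d - 1) := hb.grad (b - a j) (k + 1)
      _ ≤ max C 1 / rho (b - a j) ^ (d - 1) :=
          div_le_div_of_nonneg_right (le_max_left _ _) (pow_pos (rho_pos _) _).le
      _ ≤ max C 1 * 2 ^ (d - 1) / rho b ^ (d - 1) :=
          rho_pow_le (ha j) b (d - 1) (le_trans zero_le_one (le_max_right _ _))
  · rw [val_complete hne hd1 ψ k t hr, val_complete hne hd1 ψ k t hr, sub_self, norm_zero]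

open Classical in
theorem val_cent (hd : 3 ≤ d) (C κ : ℝ) : ∃ C' : ℝ, 1 ≤ C' ∧ ∀ (n : ℕ) [NeZero n],
    HKB d n C κ → ∀ (E : Type) [NormedAddCommGroup E] [NormedSpace ℝ E]
      (a : Fin 2 → Tor d n) (ψ : Rec → E) (B κ' : ℝ), (∀ j, nrm (a j) ≤ 1) → a 0 ≠ a 1 →
      0 ≤ κ' → κ' ≤ κ → Dec a ψ B κ' → ∀ (k t : ℕ) (r : Rec) (b : Tor d n),
      ‖val a ψ k t r b - vbar a ψ k t r‖ ≤
        if Inc r then C' * B * Real.exp (-κ' * k / NN d n) / rho b ^ (d - 2) else 0 := by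
  refine ⟨4 * (max C 1 * 2 ^ (d - 2)), ?_, ?_⟩
  · have h1 : (1 : ℝ) ≤ max C 1 := le_max_right _ _
    have h2 : (1 : ℝ) ≤ 2 ^ (d - 2) := one_le_pow₀ (by norm_num)
    nlinarith [mul_le_mul h1 h2 zero_le_one (le_trans zero_le_one h1)]
  intro n _ hb E _ _ a ψ B κ' ha hne h0 h1 hD k t r b
  have hd1 : 1 ≤ d := by omega
  rw [val_sub_vbar hne hd1]
  split_ifs with hr
  · refine (sum_chg (D := max C 1 * 2 ^ (d - 2) / rho b ^ (d - 2)) h0 h1 hD k t r
      (fun s j => hk d n s (b - a j) - (NN d n)⁻¹) ?_).trans (le_of_eq (by ring))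
    intro j
    calc ∑ s ∈ range (k + 1), Real.exp (κ * s / NN d n) * |hk d n s (b - a j) - (NN d n)⁻¹|
        ≤ C / rho (b - a j) ^ (d - 2) := hb.cent (b - a j) (k + 1)
      _ ≤ max C 1 / rho (b - a j) ^ (d - 2) :=
          div_le_div_of_nonneg_right (le_max_left _ _) (pow_pos (rho_pos _) _).le
      _ ≤ max C 1 * 2 ^ (d - 2) / rho b ^ (d - 2) :=
          rho_pow_le (ha j) b (d - 2) (le_trans zero_le_one (le_max_right _ _))
  · have hr' : ∀ j, r j ≠ none := fun j hj => hr ⟨j, hj⟩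
    rw [sum_eq_zero, norm_zero]
    intro s _
    exact sum_eq_zero fun j _ => by rw [chg_mem hne ψ _ _ (hr' j), smul_zero]

end CRW
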