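import Pool.Agent.Lib.CRW.L1
import Pool.Agent.Lib.CRW.PF

/-!
# Module L2: small probabilities

Elementary estimates for visits in a time window, from `hb.diag`.

PROOFS.  `hk_tail`: `∑_{s ∈ S} hk s z ≤ ∑_{s ≥ g} C (s^(-3/2) + 1/N) ≤ C (3/√g + #S/N)` for a finite set `S` of times `≥ g ≥ 1`
(`∑_{s ≥ g} s^(-3/2) ≤ 3/√g`: `s^(-3/2) ≤ 2 (1/√(s-1) - 1/√s)` for `s ≥ 2`, and the term `s = g ≤ 1/√g`).
`pv_window`: if `|ψ ρ| ≤ 1{ρ has an entry in [lo, hi)}` and `r` has none: union bound over the times `s` in `[lo, hi)`, `t < s ≤ t + k`, and `j`: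
`|pv a ψ k t r b| ≤ ∑ s, ∑ j, hk (s - t) (b - a j)`: induction on `k` (a new entry `s` at `j` appears only if the walk is at `a j` at time `s`), or
`pv_charge` for the function `1{entry in the window}`.
`rb_window`: the same for the reversed walk: `|rb a ψ i r b| ≤ ∑ s ∈ [lo,hi), s < i, ∑ j, hk (i - s) (b - a j)` if `r` has no entry in `[lo,hi)`.
`ER_window`: `≤ 2 (hi - lo)/N`: `P(X_s = a j) = 1/N`.
-/

open Finset

namespace CRW

variable {d : ℕ}

/-- the record has an entry in `[lo, hi)` -/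
def Win (lo hi : ℕ) (r : Rec) : Prop := ∃ j s, r j = some s ∧ lo ≤ s ∧ s < hi

/-- `∑_{s ≥ g} s^(-3/2) ≤ 4 / √g` -/
private theorem sum_pow_aux (g M : ℕ) (hg : 1 ≤ g) (hM : g ≤ M) :
    ∑ s ∈ Ico g M, 1 / ((s : ℝ) * Real.sqrt s) ≤ 4 / Real.sqrt g - 4 / Real.sqrt M := by
  induction M, hM using Nat.le_induction with
  | base => simp
  | succ M hM ih =>
    rw [Finset.sum_Ico_succ_top hM]
    have hM1 : (1 : ℝ) ≤ (M : ℝ) := by exact_mod_cast hg.trans hM
    have hM0 : (0 : ℝ) < (M : ℝ) := by linarith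
    set x := Real.sqrt (M : ℝ) with hx
    set y := Real.sqrt ((M + 1 : ℕ) : ℝ) with hy
    have hx0 : 0 < x := Real.sqrt_pos.2 hM0
    have hy0 : 0 < y := Real.sqrt_pos.2 (by positivity)
    have hxx : x * x = M := Real.mul_self_sqrt hM0.le
    have hyy : y * y = M + 1 := by
      rw [hy, Real.mul_self_sqrt (by positivity)]; push_cast; ring
    have hxy : x ≤ y := Real.sqrt_le_sqrt (by push_cast; linarith)
    have h1 : 1 / ((M : ℝ) * x) ≤ 4 / x - 4 / y := by
      rw [← hxx]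
      have h2 : 4 / x - 4 / y = 4 * (y - x) / (x * y) := by field_simp
      rw [h2, div_le_div_iff₀ (by positivity) (by positivity)]
      have h3 : (y - x) * (y + x) = 1 := by nlinarith
      have h4 : y * (y + x) ≤ 4 * (x * x) := by nlinarith
      have h5 : 1 * (x * y) * (y + x) ≤ 4 * (y - x) * (x * x * x) * (y + x) := by
        have : 4 * (y - x) * (x * x * x) * (y + x) = 4 * (x * x * x) := by
          calc 4 * (y - x) * (x * x * x) * (y + x) = 4 * (x * x * x) * ((y - x) * (y + x)) := by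
                ring
            _ = 4 * (x * x * x) := by rw [h3, mul_one]
        rw [this]
        nlinarith
      exact le_of_mul_le_mul_right h5 (by positivity)
    linarith

private theorem sum_pow_le (S : Finset ℕ) (g : ℕ) (hg : 1 ≤ g) (hS : ∀ s ∈ S, g ≤ s) :
    ∑ s ∈ S, 1 / ((s : ℝ) * Real.sqrt s) ≤ 4 / Real.sqrt g := by
  obtain ⟨M, hM⟩ : ∃ M, ∀ s ∈ S, s < M := ⟨S.sup id + 1, fun s hs =>
    Nat.lt_succ_of_le (Finset.le_sup (f := id) hs)⟩
  have h1 : S ⊆ Ico g (max g M) := fun s hs => by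
    rw [Finset.mem_Ico]
    exact ⟨hS s hs, lt_of_lt_of_le (hM s hs) (le_max_right _ _)⟩
  refine (Finset.sum_le_sum_of_subset_of_nonneg h1 fun s _ _ => by positivity).trans ?_
  refine (sum_pow_aux g (max g M) hg (le_max_left _ _)).trans ?_
  have : 0 ≤ 4 / Real.sqrt ((max g M : ℕ) : ℝ) := by positivity
  linarith

theorem hk_tail (hd : 3 ≤ d) (C κ : ℝ) : ∃ C' : ℝ, 1 ≤ C' ∧ ∀ (n : ℕ) [NeZero n],
    HKB d n C κ → ∀ (z : Tor d n) (S : Finset ℕ) (g : ℕ), 1 ≤ g → (∀ s ∈ S, g ≤ s) →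
      ∑ s ∈ S, hk d n s z ≤ C' * (1 / Real.sqrt g + S.card / NN d n) := by
  refine ⟨4 * max C 1, by linarith [le_max_right C 1], fun n _ hb z S g hg hS => ?_⟩
  have hC : max C 1 = C := max_eq_left hb.hC
  rw [hC]
  have hC0 : 0 ≤ C := by linarith [hb.hC]
  have h1 : ∑ s ∈ S, hk d n s z ≤ ∑ s ∈ S, C * (1 / (s * Real.sqrt s) + 1 / NN d n) :=
    Finset.sum_le_sum fun s hs => hb.diag s z (hg.trans (hS s hs))
  refine h1.trans ?_
  rw [← Finset.mul_sum, Finset.sum_add_distrib, Finset.sum_const, nsmul_eq_mul]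
  have h2 := sum_pow_le S g hg hS
  have hN : 0 < NN d n := NN_pos
  have h3 : 0 ≤ (S.card : ℝ) / NN d n := by positivity
  have h4 : (S.card : ℝ) * (1 / NN d n) = S.card / NN d n := by ring
  rw [h4]
  have h5 : 4 / Real.sqrt (g : ℝ) = 4 * (1 / Real.sqrt g) := by ring
  rw [h5] at h2
  calc C * (∑ s ∈ S, 1 / ((s : ℝ) * Real.sqrt s) + S.card / NN d n)
      ≤ C * (4 * (1 / Real.sqrt g) + 4 * (S.card / NN d n)) := by
        refine mul_le_mul_of_nonneg_left ?_ hC0
        linarith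
    _ = 4 * C * (1 / Real.sqrt g + S.card / NN d n) := by ring

private theorem Win_upd {n : ℕ} [NeZero n] (a : Fin 2 → Tor d n) {lo hi : ℕ} {t : ℕ}
    {b : Tor d n} {r : Rec} (hr : ¬ Win lo hi r) (h : Win lo hi (upd a t b r)) :
    lo ≤ t ∧ t < hi ∧ ∃ j, b = a j := by
  obtain ⟨j, s, h1, h2, h3⟩ := h
  unfold upd at h1
  cases hrj : r j with
  | some x =>
    rw [hrj] at h1
    simp only [Option.orElse_some, Option.some.injEq] at h1
    subst h1
    exact absurd ⟨j, x, hrj, h2, h3⟩ hr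
  | none =>
    rw [hrj] at h1
    simp only [Option.orElse_none] at h1
    split_ifs at h1 with h'
    simp only [Option.some.injEq] at h1
    subst h1
    exact ⟨h2, h3, j, h'⟩

private theorem Win_ov {n : ℕ} [NeZero n] (a : Fin 2 → Tor d n) {lo hi : ℕ} {t : ℕ}
    {b : Tor d n} {r : Rec} (hr : ¬ Win lo hi r) (h : Win lo hi (ov a t b r)) :
    lo ≤ t ∧ t < hi ∧ ∃ j, b = a j := by
  obtain ⟨j, s, h1, h2, h3⟩ := h
  unfold ov at h1
  split_ifs at h1 with h'
  · simp only [Option.some.injEq] at h1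
    subst h1
    exact ⟨h2, h3, j, h'⟩
  · exact absurd ⟨j, s, h1, h2, h3⟩ hr

private theorem hk_zero_ge {n : ℕ} [NeZero n] (a : Fin 2 → Tor d n) {b : Tor d n}
    (h : ∃ j, b = a j) : (1 : ℝ) ≤ ∑ j, hk d n 0 (b - a j) := by
  obtain ⟨l, hl⟩ := h
  have := Finset.single_le_sum (f := fun j => hk d n 0 (b - a j))
    (fun j _ => hk_nonneg _ _) (Finset.mem_univ l)
  refine le_trans ?_ this
  simp [hk, hl]

private theorem sum_stp_hk {n : ℕ} [NeZero n] (b x : Tor d n) (m : ℕ) :
    ∑ w, stp d n w * hk d n m (b + w - x) = hk d n (m + 1) (b - x) := by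
  simp only [hk]
  refine Finset.sum_congr rfl fun w _ => ?_
  rw [show b + w - x = b - x + w by abel]

open Classical in
private theorem one_le_Win {E : Type} [NormedAddCommGroup E] {ψ : Rec → E} {lo hi : ℕ}
    {B : ℝ} (hψ : ∀ r, ‖ψ r‖ ≤ (if Win lo hi r then 1 else 0) + B) (r : Rec) : ‖ψ r‖ ≤ 1 + B := by
  refine (hψ r).trans ?_
  split_ifs <;> linarith

open Classical in
/-- `val` and `pv`, with the time `t` not yet processed -/
private theorem val_window_aux {n : ℕ} [NeZero n] (hd : 1 ≤ d) {E : Type} [NormedAddCommGroup E]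
    [NormedSpace ℝ E] (a : Fin 2 → Tor d n) (ψ : Rec → E) {lo hi : ℕ}
    (hψ : ∀ r, ‖ψ r‖ ≤ if Win lo hi r then 1 else 0) (k t : ℕ)
    (H : ∀ (r : Rec) (b : Tor d n), ¬ Win lo hi r → ‖pv a ψ k t r b‖ ≤
      ∑ s ∈ (Ico lo hi).filter (fun s => t < s ∧ s ≤ t + k), ∑ j, hk d n (s - t) (b - a j))
    (r : Rec) (b : Tor d n) (hr : ¬ Win lo hi r) :
    ‖val a ψ k t r b‖ ≤
      ∑ s ∈ (Ico lo hi).filter (fun s => t ≤ s ∧ s ≤ t + k), ∑ j, hk d n (s - t) (b - a j) := by
  unfold val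
  have hψ' : ∀ r, ‖ψ r‖ ≤ 1 := fun r => (hψ r).trans (by split_ifs <;> norm_num)
  by_cases h : Win lo hi (upd a t b r)
  · obtain ⟨h1, h2, h3⟩ := Win_upd a hr h
    have h4 : t ∈ (Ico lo hi).filter (fun s => t ≤ s ∧ s ≤ t + k) := by
      rw [Finset.mem_filter, Finset.mem_Ico]
      exact ⟨⟨h1, h2⟩, le_refl _, by omega⟩
    refine (norm_pv_le_of hd a hψ' _ _ _ _).trans ?_
    have h5 := Finset.single_le_sum (f := fun s => ∑ j, hk d n (s - t) (b - a j))
      (fun s _ => Finset.sum_nonneg fun j _ => hk_nonneg _ _) h4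
    refine le_trans ?_ h5
    simp only [Nat.sub_self]
    exact hk_zero_ge a h3
  · refine (H _ _ h).trans ?_
    refine Finset.sum_le_sum_of_subset_of_nonneg ?_
      fun s _ _ => Finset.sum_nonneg fun j _ => hk_nonneg _ _
    intro s hs
    rw [Finset.mem_filter] at hs ⊢
    exact ⟨hs.1, hs.2.1.le, hs.2.2⟩

open Classical in
theorem pv_window {n : ℕ} [NeZero n] (hd : 1 ≤ d) {E : Type} [NormedAddCommGroup E]
    [NormedSpace ℝ E] (a : Fin 2 → Tor d n) (ψ : Rec → E) {lo hi : ℕ}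
    (hψ : ∀ r, ‖ψ r‖ ≤ if Win lo hi r then 1 else 0) (k t : ℕ) (r : Rec) (b : Tor d n)
    (hr : ¬ Win lo hi r) : ‖pv a ψ k t r b‖ ≤
      ∑ s ∈ (Ico lo hi).filter (fun s => t < s ∧ s ≤ t + k), ∑ j, hk d n (s - t) (b - a j) := by
  induction k generalizing t r b with
  | zero =>
    simp only [pv]
    refine (hψ r).trans ?_
    rw [if_neg hr]
    exact Finset.sum_nonneg fun s _ => Finset.sum_nonneg fun j _ => hk_nonneg _ _
  | succ k ih =>
    rw [pv_succ]
    have h1 : ∀ w, ‖val a ψ k (t + 1) r (b + w)‖ ≤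
        ∑ s ∈ (Ico lo hi).filter (fun s => t + 1 ≤ s ∧ s ≤ t + 1 + k),
          ∑ j, hk d n (s - (t + 1)) (b + w - a j) := fun w =>
      val_window_aux hd a ψ hψ k (t + 1) (fun r b hr => ih (t + 1) r b hr) r (b + w) hr
    refine (norm_sum_le _ _).trans ?_
    have h2 : ∀ w ∈ (univ : Finset (Tor d n)), ‖stp d n w • val a ψ k (t + 1) r (b + w)‖ ≤
        stp d n w * ∑ s ∈ (Ico lo hi).filter (fun s => t + 1 ≤ s ∧ s ≤ t + 1 + k),
          ∑ j, hk d n (s - (t + 1)) (b + w - a j) := fun w _ => by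
      rw [norm_smul, Real.norm_of_nonneg (stp_nonneg _)]
      exact mul_le_mul_of_nonneg_left (h1 w) (stp_nonneg _)
    refine (Finset.sum_le_sum h2).trans (le_of_eq ?_)
    simp only [Finset.mul_sum]
    rw [Finset.sum_comm]
    have h3 : (Ico lo hi).filter (fun s => t + 1 ≤ s ∧ s ≤ t + 1 + k) =
        (Ico lo hi).filter (fun s => t < s ∧ s ≤ t + (k + 1)) := by
      ext s
      simp only [Finset.mem_filter, Finset.mem_Ico]
      omega
    rw [h3]
    refine Finset.sum_congr rfl fun s hs => ?_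
    rw [Finset.sum_comm]
    refine Finset.sum_congr rfl fun j _ => ?_
    rw [Finset.mem_filter] at hs
    have h4 : s - t = s - (t + 1) + 1 := by omega
    rw [sum_stp_hk, h4]

open Classical in
private theorem val_window {n : ℕ} [NeZero n] (hd : 1 ≤ d) {E : Type} [NormedAddCommGroup E]
    [NormedSpace ℝ E] (a : Fin 2 → Tor d n) (ψ : Rec → E) {lo hi : ℕ}
    (hψ : ∀ r, ‖ψ r‖ ≤ if Win lo hi r then 1 else 0) (k t : ℕ) (r : Rec) (b : Tor d n)
    (hr : ¬ Win lo hi r) : ‖val a ψ k t r b‖ ≤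
      ∑ s ∈ (Ico lo hi).filter (fun s => t ≤ s ∧ s ≤ t + k), ∑ j, hk d n (s - t) (b - a j) :=
  val_window_aux hd a ψ hψ k t (fun r b hr => pv_window hd a ψ hψ k t r b hr) r b hr

open Classical in
theorem rb_window {n : ℕ} [NeZero n] (hd : 1 ≤ d) {E : Type} [NormedAddCommGroup E]
    [NormedSpace ℝ E] (a : Fin 2 → Tor d n) (ψ : Rec → E) {lo hi : ℕ} {B : ℝ}
    (hψ : ∀ r, ‖ψ r‖ ≤ (if Win lo hi r then 1 else 0) + B) (hB : 0 ≤ B) (i : ℕ) (r : Rec)
    (b : Tor d n) (hr : ¬ Win lo hi r) : ‖rb a ψ i r b‖ ≤ B +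
      ∑ s ∈ (Ico lo hi).filter (fun s => s < i), ∑ j, hk d n (i - s) (b - a j) := by
  induction i generalizing r b with
  | zero =>
    simp only [rb]
    refine (hψ r).trans ?_
    rw [if_neg hr]
    have : 0 ≤ ∑ s ∈ (Ico lo hi).filter (fun s => s < 0), ∑ j, hk d n (0 - s) (b - a j) :=
      Finset.sum_nonneg fun s _ => Finset.sum_nonneg fun j _ => hk_nonneg _ _
    linarith
  | succ i ih =>
    simp only [rb]
    have h1 : ∀ w, ‖rb a ψ i (ov a i (b + w) r) (b + w)‖ ≤ B +
        ∑ s ∈ (Ico lo hi).filter (fun s => s < i + 1), ∑ j, hk d n (i - s) (b + w - a j) := by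
      intro w
      by_cases h : Win lo hi (ov a i (b + w) r)
      · obtain ⟨h1, h2, h3⟩ := Win_ov a hr h
        have h4 : i ∈ (Ico lo hi).filter (fun s => s < i + 1) := by
          rw [Finset.mem_filter, Finset.mem_Ico]
          exact ⟨⟨h1, h2⟩, Nat.lt_succ_self _⟩
        refine (norm_rb_le_of hd a (one_le_Win hψ) _ _ _).trans ?_
        have h5 := Finset.single_le_sum (f := fun s => ∑ j, hk d n (i - s) (b + w - a j))
          (fun s _ => Finset.sum_nonneg fun j _ => hk_nonneg _ _) h4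
        have h6 := hk_zero_ge a h3
        simp only [Nat.sub_self] at h5
        linarith
      · refine (ih _ _ h).trans ?_
        have h7 : ∑ s ∈ (Ico lo hi).filter (fun s => s < i), ∑ j, hk d n (i - s) (b + w - a j) ≤
            ∑ s ∈ (Ico lo hi).filter (fun s => s < i + 1), ∑ j, hk d n (i - s) (b + w - a j) := by
          refine Finset.sum_le_sum_of_subset_of_nonneg ?_
            fun s _ _ => Finset.sum_nonneg fun j _ => hk_nonneg _ _
          intro s hs
          rw [Finset.mem_filter] at hs ⊢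
          exact ⟨hs.1, by omega⟩
        linarith
    refine (norm_sum_le _ _).trans ?_
    have h2 : ∀ w ∈ (univ : Finset (Tor d n)), ‖stp d n w • rb a ψ i (ov a i (b + w) r) (b + w)‖ ≤
        stp d n w * B + stp d n w * ∑ s ∈ (Ico lo hi).filter (fun s => s < i + 1),
          ∑ j, hk d n (i - s) (b + w - a j) := fun w _ => by
      rw [norm_smul, Real.norm_of_nonneg (stp_nonneg _), ← mul_add]
      exact mul_le_mul_of_nonneg_left (h1 w) (stp_nonneg _)
    refine (Finset.sum_le_sum h2).trans (le_of_eq ?_)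
    rw [Finset.sum_add_distrib, ← Finset.sum_mul, stp_sum hd, one_mul]
    congr 1
    simp only [Finset.mul_sum]
    rw [Finset.sum_comm]
    refine Finset.sum_congr rfl fun s hs => ?_
    rw [Finset.sum_comm]
    refine Finset.sum_congr rfl fun j _ => ?_
    rw [Finset.mem_filter] at hs
    have h4 : i + 1 - s = i - s + 1 := by omega
    rw [sum_stp_hk, h4]

private theorem hk_sum_sub {n : ℕ} [NeZero n] (hd : 1 ≤ d) (m : ℕ) (x : Tor d n) :
    ∑ b, hk d n m (b - x) = 1 := by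
  rw [← hk_sum (n := n) hd m]
  exact Fintype.sum_equiv (Equiv.subRight x) _ _ fun b => rfl

private theorem sum_win_le {n : ℕ} [NeZero n] (hd : 1 ≤ d) (a : Fin 2 → Tor d n) (lo hi : ℕ)
    (p : ℕ → Prop) [DecidablePred p] (f : ℕ → ℕ) :
    ∑ b, ∑ s ∈ (Ico lo hi).filter p, ∑ j, hk d n (f s) (b - a j) ≤ 2 * ((hi - lo : ℕ) : ℝ) := by
  rw [Finset.sum_comm]
  have h1 : ∀ s ∈ (Ico lo hi).filter p, ∑ b, ∑ j, hk d n (f s) (b - a j) = (2 : ℝ) := by
    intro s _
    rw [Finset.sum_comm]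
    simp only [hk_sum_sub hd]
    simp
  rw [Finset.sum_congr rfl h1, Finset.sum_const, nsmul_eq_mul, mul_comm]
  have h2 : ((Ico lo hi).filter p).card ≤ hi - lo := by
    refine (Finset.card_filter_le _ _).trans ?_
    rw [Nat.card_Ico]
  have h3 : (((Ico lo hi).filter p).card : ℝ) ≤ ((hi - lo : ℕ) : ℝ) := by exact_mod_cast h2
  linarith

open Classical in
theorem ER_window {n : ℕ} [NeZero n] (hd : 1 ≤ d) (a : Fin 2 → Tor d n) (lo hi H : ℕ) :
    ER H (fun η => if Win lo hi (lrec a η 0 H) then (1 : ℝ) else 0) ≤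
      2 * ((hi - lo : ℕ) : ℝ) / NN d n := by
  rw [← rb_mean a (fun r => if Win lo hi r then (1 : ℝ) else 0) H, smul_eq_mul, div_eq_inv_mul]
  have hN : 0 < NN d n := NN_pos
  refine mul_le_mul_of_nonneg_left ?_ (by positivity)
  refine le_trans (Finset.sum_le_sum fun b _ => ?_) (sum_win_le hd a lo hi (fun s => s < H)
    (fun s => H - s))
  have h0 : ¬ Win lo hi rec0 := by
    rintro ⟨j, s, h, _⟩
    exact absurd h (by simp [rec0])
  have h1 := rb_window hd a (fun r => if Win lo hi r then (1 : ℝ) else 0) (lo := lo) (hi := hi)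
    (B := 0) (fun r => by
      rw [add_zero, Real.norm_of_nonneg (by split_ifs <;> norm_num)]) le_rfl H rec0 b h0
  rw [zero_add] at h1
  exact (le_abs_self _).trans h1

private theorem tail_filter {n : ℕ} [NeZero n] {C1 : ℝ}
    (h : ∀ (z : Tor d n) (S : Finset ℕ) (g : ℕ), 1 ≤ g → (∀ s ∈ S, g ≤ s) →
      ∑ s ∈ S, hk d n s z ≤ C1 * (1 / Real.sqrt g + S.card / NN d n)) (hC1 : 0 ≤ C1)
    (a : Fin 2 → Tor d n) (lo hi g : ℕ) (hg : 1 ≤ g) (p : ℕ → Prop) [DecidablePred p]
    (f : ℕ → ℕ) (hf : ∀ s ∈ (Ico lo hi).filter p, g ≤ f s)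
    (hinj : ∀ s ∈ (Ico lo hi).filter p, ∀ s' ∈ (Ico lo hi).filter p, f s = f s' → s = s')
    (b : Tor d n) :
    ∑ s ∈ (Ico lo hi).filter p, ∑ j, hk d n (f s) (b - a j) ≤
      2 * C1 * (1 / Real.sqrt g + ((hi - lo : ℕ) : ℝ) / NN d n) := by
  rw [Finset.sum_comm]
  have h1 : ∀ j ∈ (univ : Finset (Fin 2)), ∑ s ∈ (Ico lo hi).filter p, hk d n (f s) (b - a j) ≤
      C1 * (1 / Real.sqrt g + ((hi - lo : ℕ) : ℝ) / NN d n) := by
    intro j _
    have h2 : ∑ s ∈ ((Ico lo hi).filter p).image f, hk d n s (b - a j) =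
        ∑ s ∈ (Ico lo hi).filter p, hk d n (f s) (b - a j) :=
      Finset.sum_image fun s hs s' hs' e => hinj s hs s' hs' e
    rw [← h2]
    refine (h (b - a j) (((Ico lo hi).filter p).image f) g hg ?_).trans ?_
    · intro s hs
      rw [Finset.mem_image] at hs
      obtain ⟨s', hs', rfl⟩ := hs
      exact hf s' hs'
    · refine mul_le_mul_of_nonneg_left ?_ hC1
      have h3 : (((Ico lo hi).filter p).image f).card ≤ hi - lo := by
        refine Finset.card_image_le.trans ((Finset.card_filter_le _ _).trans ?_)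
        rw [Nat.card_Ico]
      have h4 : ((((Ico lo hi).filter p).image f).card : ℝ) ≤ ((hi - lo : ℕ) : ℝ) := by
        exact_mod_cast h3
      have hN : 0 < NN d n := NN_pos
      have h5 := div_le_div_of_nonneg_right h4 hN.le
      linarith
  refine (Finset.sum_le_sum h1).trans (le_of_eq ?_)
  simp only [Finset.sum_const, Finset.card_univ, Fintype.card_fin, nsmul_eq_mul]
  push_cast
  ring

open Classical in
/-- (B1) the charges of a function of the visits in a window far away from the time `i` -/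
theorem XX_window (hd : 3 ≤ d) (C κ : ℝ) : ∃ C' : ℝ, 1 ≤ C' ∧ ∀ (n : ℕ) [NeZero n],
    HKB d n C κ → ∀ (E : Type) [NormedAddCommGroup E] [NormedSpace ℝ E]
      (a : Fin 2 → Tor d n) (φ : Rec → E) (lo hi g H j i : ℕ) (l : Fin 2), 1 ≤ g → j < H → i < H →
      (∀ r, ‖φ r‖ ≤ if Win lo hi r then 1 else 0) → (∀ s, lo ≤ s → s < hi →
        i + g ≤ s ∨ s + g ≤ i) →
      ‖XX a φ H j i l‖ ≤ C' * (1 / Real.sqrt g + ((hi - lo : ℕ) : ℝ) / NN d n) := by
  obtain ⟨C1, hC1, hT⟩ := hk_tail hd C κ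
  refine ⟨4 * C1 + 4, by linarith, fun n _ hb E _ _ a φ lo hi g H j i l hg hj hi' hφ hw => ?_⟩
  have hT' := hT n hb
  have hd1 : 1 ≤ d := by omega
  have hC0 : 0 ≤ C1 := by linarith
  have hN : 0 < NN d n := NN_pos
  have hφ1 : ∀ r, ‖φ r‖ ≤ 1 := fun r => (hφ r).trans (by split_ifs <;> norm_num)
  have hi0 : ¬ (lo ≤ i ∧ i < hi) := fun h => by
    rcases hw i h.1 h.2 with h | h <;> omega
  set D := 1 / Real.sqrt (g : ℝ) + ((hi - lo : ℕ) : ℝ) / NN d n with hD
  have hDw : ((hi - lo : ℕ) : ℝ) / NN d n ≤ D := by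
    have : 0 ≤ 1 / Real.sqrt (g : ℝ) := by positivity
    rw [hD]; linarith
  have hw0 : 0 ≤ ((hi - lo : ℕ) : ℝ) / NN d n := by positivity
  have hD0 : 0 ≤ D := by positivity
  have h0 : ¬ Win lo hi rec0 := by
    rintro ⟨j, s, h, _⟩
    exact absurd h (by simp [rec0])
  unfold XX
  split_ifs with hij
  · -- the reversed walk
    set B := 2 * ((hi - lo : ℕ) : ℝ) / NN d n with hBdef
    have hB : 0 ≤ B := by positivity
    have hBD : B ≤ 2 * D := by
      have : B = 2 * (((hi - lo : ℕ) : ℝ) / NN d n) := by rw [hBdef]; ring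
      rw [this]; linarith
    have hψ : ∀ r, ‖vbar a φ (H - 1 - j) j r‖ ≤ (if Win lo hi r then 1 else 0) + B := by
      intro r
      unfold vbar
      rw [norm_smul, norm_inv, Real.norm_of_nonneg hN.le]
      by_cases hr : Win lo hi r
      · rw [if_pos hr]
        have h1 : ‖∑ b, val a φ (H - 1 - j) j r b‖ ≤ NN d n := by
          refine (norm_sum_le _ _).trans ?_
          have h2 : ∀ b ∈ (univ : Finset (Tor d n)), ‖val a φ (H - 1 - j) j r b‖ ≤ 1 :=
            fun b _ => norm_pv_le_of hd1 a hφ1 _ _ _ _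
          refine (Finset.sum_le_sum h2).trans (le_of_eq ?_)
          rw [Finset.sum_const, nsmul_eq_mul, mul_one, Finset.card_univ, card_tor]
        have h3 : (NN d n)⁻¹ * ‖∑ b, val a φ (H - 1 - j) j r b‖ ≤ 1 := by
          rw [← inv_mul_cancel₀ hN.ne']
          exact mul_le_mul_of_nonneg_left h1 (by positivity)
        linarith
      · rw [if_neg hr, zero_add, hBdef, div_eq_inv_mul]
        refine mul_le_mul_of_nonneg_left ?_ (by positivity)
        refine (norm_sum_le _ _).trans ?_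
        exact le_trans (Finset.sum_le_sum fun b _ => val_window hd1 a φ hφ _ _ _ _ hr)
          (sum_win_le hd1 a lo hi (fun s => j ≤ s ∧ s ≤ j + (H - 1 - j)) (fun s => s - j))
    have key : ∀ r, ¬ Win lo hi r → ‖rb a (vbar a φ (H - 1 - j) j) i r (a l)‖ ≤
        B + 2 * C1 * D := by
      intro r hr
      refine (rb_window hd1 a _ hψ hB i r (a l) hr).trans ?_
      have := tail_filter hT' hC0 a lo hi g hg (fun s => s < i) (fun s => i - s)
        (fun s hs => by
          rw [Finset.mem_filter, Finset.mem_Ico] at hs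
          rcases hw s hs.1.1 hs.1.2 with h | h <;> omega)
        (fun s hs s' hs' e => by
          rw [Finset.mem_filter, Finset.mem_Ico] at hs hs'
          omega) (a l)
      linarith
    unfold rchg
    refine (norm_sub_le _ _).trans ?_
    have h1 := key (ov a i (a l) rec0) (fun h => by
      obtain ⟨h2, h3, _⟩ := Win_ov a h0 h
      exact hi0 ⟨h2, h3⟩)
    have h2 := key rec0 h0
    nlinarith
  · -- the forward walk
    have key : ∀ r, ‖chg a φ (H - 1 - i) i r l‖ ≤
        2 * (if Win lo hi r then 1 else 0) + 4 * C1 * D := by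
      intro r
      by_cases hr : Win lo hi r
      · rw [if_pos hr]
        have := norm_chg_le hd1 a hφ1 (H - 1 - i) i r l
        have h4 : 0 ≤ 4 * C1 * D := by positivity
        linarith
      · rw [if_neg hr]
        have key2 : ∀ r, ¬ Win lo hi r → ‖pv a φ (H - 1 - i) i r (a l)‖ ≤ 2 * C1 * D := by
          intro r hr
          refine (pv_window hd1 a φ hφ _ _ _ _ hr).trans ?_
          exact tail_filter hT' hC0 a lo hi g hg (fun s => i < s ∧ s ≤ i + (H - 1 - i))
            (fun s => s - i)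
            (fun s hs => by
              rw [Finset.mem_filter, Finset.mem_Ico] at hs
              rcases hw s hs.1.1 hs.1.2 with h | h <;> omega)
            (fun s hs s' hs' e => by
              rw [Finset.mem_filter, Finset.mem_Ico] at hs hs'
              omega) (a l)
        unfold chg
        refine (norm_sub_le _ _).trans ?_
        have h1 := key2 (upd a i (a l) r) (fun h => by
          obtain ⟨h2, h3, _⟩ := Win_upd a hr h
          exact hi0 ⟨h2, h3⟩)
        have h2 := key2 r hr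
        linarith
    have h1 : ‖ER j fun η => chg a φ (H - 1 - i) i (lrec a η 0 j) l‖ ≤
        ER j fun η => ‖chg a φ (H - 1 - i) i (lrec a η 0 j) l‖ := norm_EP_le _ _
    refine h1.trans ?_
    have h2 : (ER j fun η => ‖chg a φ (H - 1 - i) i (lrec a η 0 j) l‖) ≤
        ER j fun η => (2 : ℝ) • (if Win lo hi (lrec a η 0 j) then (1 : ℝ) else 0) + 4 * C1 * D := by
      refine EP_mono _ _ _ fun η _ => ?_
      have := key (lrec a η 0 j)
      simpa using this
    refine h2.trans ?_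
    have h3 : (ER j fun η => (2 : ℝ) • (if Win lo hi (lrec a η 0 j) then (1 : ℝ) else 0) +
        4 * C1 * D) = 2 * (ER j fun η => if Win lo hi (lrec a η 0 j) then (1 : ℝ) else 0) +
        4 * C1 * D := by
      unfold ER
      have h5 := EP_add j (fun (η : ℕ → Tor d n) (_ : Tor d n) =>
        (2 : ℝ) • (if Win lo hi (lrec a η 0 j) then (1 : ℝ) else 0)) (fun _ _ => 4 * C1 * D)
      rw [h5, EP_const hd1]
      have h6 := EP_smul j (2 : ℝ) (fun (η : ℕ → Tor d n) (_ : Tor d n) =>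
        (if Win lo hi (lrec a η 0 j) then (1 : ℝ) else 0))
      rw [smul_eq_mul] at h6
      rw [← h6]
    rw [h3]
    have h7 := ER_window hd1 a lo hi j
    have h8 : 2 * ((hi - lo : ℕ) : ℝ) / NN d n = 2 * (((hi - lo : ℕ) : ℝ) / NN d n) := by ring
    rw [h8] at h7
    nlinarith

end CRW
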