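import Pool.Agent.Lib.CRW.PC3

/-!
# Module L3: functions of the set of visited sites

PROOFS.  `pv_vis`: induction on `k`: `vis (upd a t b r) = vis r ∪ {j | b = a j}`, independent of the time; general statement
for a record `ρ` in place of `rec0`: `pv a (G ∘ vis) k t r b` depends only on `vis r`.
`rb_vis`: `vis (ov a i b r) = vis r ∪ {j | b = a j}`: the same recursion as `pv`.
`pv_vis_trunc`: `pv_steps` with `k₁ = s₀`, `k₂ = k`; `|pv a ψ k t' ρ b' - ψ ρ| ≤ ∑_{s<k} ∑_j hk (s+1) (b' - a j) * 2B` (`pv_charge`, `norm_chg_le`;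
injectivity of `a`); `pvx_pos`, `hk_conv`/`hk_add`: `∑ b', hk s₀ (b' - b) hk (s+1) (b' - a j) = hk (s₀+s+1) (b - a j)`.
`pv_congr_lt`, `rb_congr_lt`: the final record has only the times of `r` and of the steps.
-/

open Finset

namespace CRW

variable {d n : ℕ} [NeZero n] {E : Type} [NormedAddCommGroup E] [NormedSpace ℝ E]

omit [NeZero n] in
private theorem vis_upd (a : Fin 2 → Tor d n) (t : ℕ) (b : Tor d n) (r : Rec) (j : Fin 2) :
    vis (upd a t b r) j = (vis r j || decide (b = a j)) := by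
  unfold vis upd
  by_cases h : b = a j <;> cases hr : r j <;> simp [h]

omit [NeZero n] in
private theorem vis_ov (a : Fin 2 → Tor d n) (t : ℕ) (b : Tor d n) (r : Rec) (j : Fin 2) :
    vis (ov a t b r) j = (vis r j || decide (b = a j)) := by
  unfold vis ov
  by_cases h : b = a j <;> cases hr : r j <;> simp [h]

private theorem pv_vis_aux (a : Fin 2 → Tor d n) (G : (Fin 2 → Bool) → E) (S : Fin 2 → Bool)
    (k : ℕ) : ∀ (t t' : ℕ) (r ρ : Rec) (b : Tor d n), (∀ j, vis r j = (S j || vis ρ j)) →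
      pv a (fun ρ => G (vis ρ)) k t r b = pv a (fun ρ => G fun j => S j || vis ρ j) k t' ρ b := by
  induction k with
  | zero =>
    intro t t' r ρ b h
    simp only [pv]
    congr 1
    funext j
    exact h j
  | succ k ih =>
    intro t t' r ρ b h
    simp only [pv]
    refine Finset.sum_congr rfl fun w _ => ?_
    congr 1
    refine ih _ _ _ _ _ fun j => ?_
    rw [vis_upd, vis_upd, h j, Bool.or_assoc]

private theorem rb_vis_aux (a : Fin 2 → Tor d n) (G : (Fin 2 → Bool) → E) (S : Fin 2 → Bool)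
    (k : ℕ) : ∀ (t' : ℕ) (r ρ : Rec) (b : Tor d n), (∀ j, vis r j = (S j || vis ρ j)) →
      rb a (fun ρ => G (vis ρ)) k r b = pv a (fun ρ => G fun j => S j || vis ρ j) k t' ρ b := by
  induction k with
  | zero =>
    intro t' r ρ b h
    simp only [pv, rb]
    congr 1
    funext j
    exact h j
  | succ k ih =>
    intro t' r ρ b h
    simp only [pv, rb]
    refine Finset.sum_congr rfl fun w _ => ?_
    congr 1
    refine ih _ _ _ _ fun j => ?_
    rw [vis_upd, vis_ov, h j, Bool.or_assoc]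

private theorem vis_rec0 (j : Fin 2) : vis rec0 j = false := rfl

theorem pv_vis (a : Fin 2 → Tor d n) (G : (Fin 2 → Bool) → E) (k t t' : ℕ) (r : Rec)
    (b : Tor d n) : pv a (fun ρ => G (vis ρ)) k t r b =
      pv a (fun ρ => G fun j => vis r j || vis ρ j) k t' rec0 b := by
  refine pv_vis_aux a G (vis r) k t t' r rec0 b fun j => ?_
  rw [vis_rec0, Bool.or_false]

theorem rb_vis (a : Fin 2 → Tor d n) (G : (Fin 2 → Bool) → E) (i t : ℕ) (r : Rec)
    (b : Tor d n) : rb a (fun ρ => G (vis ρ)) i r b =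
      pv a (fun ρ => G fun j => vis r j || vis ρ j) i t rec0 b := by
  refine rb_vis_aux a G (vis r) i t r rec0 b fun j => ?_
  rw [vis_rec0, Bool.or_false]

theorem pv_vis_trunc (hd : 1 ≤ d) (a : Fin 2 → Tor d n) (ha : a 0 ≠ a 1)
    (G : (Fin 2 → Bool) → E) {B : ℝ} (hG : ∀ S, ‖G S‖ ≤ B) (s₀ k t : ℕ) (r : Rec)
    (b : Tor d n) :
    ‖pv a (fun ρ => G (vis ρ)) (s₀ + k) t r b - pv a (fun ρ => G (vis ρ)) s₀ t r b‖ ≤
      2 * B * ∑ s ∈ Ioc s₀ (s₀ + k), ∑ j, hk d n s (b - a j) := by
  have h1 : pv a (fun ρ => G (vis ρ)) s₀ t r b =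
      pvx a (fun r _ => G (vis r)) s₀ t r b := (pvx_rec a _ s₀ t r b).symm
  rw [pv_steps, h1, ← pvx_sub]
  refine (norm_pvx_le _ _ _ _ _ _).trans ?_
  have h2 : ∀ (ρ : Rec) (b' : Tor d n), ‖pv a (fun ρ => G (vis ρ)) k (t + s₀) ρ b' - G (vis ρ)‖ ≤
      2 * B * ∑ s ∈ range k, ∑ j, hk d n (s + 1) (b' - a j) := by
    intro ρ b'
    rw [pv_charge ha hd, add_sub_cancel_left, Finset.mul_sum]
    refine (norm_sum_le _ _).trans (Finset.sum_le_sum fun s _ => ?_)
    rw [Finset.mul_sum]
    refine (norm_sum_le _ _).trans (Finset.sum_le_sum fun j _ => ?_)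
    rw [norm_smul, Real.norm_of_nonneg (hk_nonneg _ _), mul_comm]
    exact mul_le_mul_of_nonneg_right (norm_chg_le hd a (fun r => hG _) _ _ _ _) (hk_nonneg _ _)
  refine (pvx_mono a h2 _ _ _ _).trans ?_
  rw [pvx_pos]
  simp only [smul_eq_mul]
  have h3 : ∑ x, hk d n s₀ (x - b) * (2 * B * ∑ s ∈ range k, ∑ j, hk d n (s + 1) (x - a j)) =
      2 * B * ∑ s ∈ range k, ∑ j, hk d n (s₀ + (s + 1)) (b - a j) := by
    have h3' : ∀ s j, hk d n (s₀ + (s + 1)) (b - a j) =
        ∑ x, hk d n s₀ (x - b) * hk d n (s + 1) (x - a j) := fun s j => (hk_conv _ _ _ _).symm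
    rw [Finset.sum_congr rfl fun s _ => Finset.sum_congr rfl fun j _ => h3' s j]
    simp only [Finset.mul_sum]
    rw [Finset.sum_comm]
    refine Finset.sum_congr rfl fun s _ => ?_
    rw [Finset.sum_comm]
    refine Finset.sum_congr rfl fun j _ => ?_
    refine Finset.sum_congr rfl fun x _ => ?_
    ring
  rw [h3]
  have h4 : Ioc s₀ (s₀ + k) = Ico (s₀ + 1) (s₀ + 1 + k) := by
    ext x; simp only [Finset.mem_Ioc, Finset.mem_Ico]; omega
  rw [h4, Finset.sum_Ico_eq_sum_range]
  have h5 : s₀ + 1 + k - (s₀ + 1) = k := by omega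
  rw [h5]
  refine le_of_eq ?_
  congr 1
  refine Finset.sum_congr rfl fun s _ => ?_
  have h6 : s₀ + (s + 1) = s₀ + 1 + s := by omega
  rw [h6]

/-- all times of the record are `< s₁` -/
def AllLt (s₁ : ℕ) (r : Rec) : Prop := ∀ j s, r j = some s → s < s₁

omit [NeZero n] in
private theorem AllLt_upd (a : Fin 2 → Tor d n) {s₁ t : ℕ} {r : Rec} (hr : AllLt s₁ r)
    (ht : t < s₁) (b : Tor d n) : AllLt s₁ (upd a t b r) := by
  intro j s hs
  unfold upd at hs
  cases h : r j with
  | some x =>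
    rw [h] at hs
    simp only [Option.orElse_some, Option.some.injEq] at hs
    subst hs
    exact hr j _ h
  | none =>
    rw [h] at hs
    simp only [Option.orElse_none] at hs
    split_ifs at hs with h'
    simp only [Option.some.injEq] at hs
    omega

omit [NeZero n] in
private theorem AllLt_ov (a : Fin 2 → Tor d n) {s₁ t : ℕ} {r : Rec} (hr : AllLt s₁ r)
    (ht : t < s₁) (b : Tor d n) : AllLt s₁ (ov a t b r) := by
  intro j s hs
  unfold ov at hs
  split_ifs at hs with h'
  · simp only [Option.some.injEq] at hs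
    omega
  · exact hr j s hs

theorem pv_congr_lt (a : Fin 2 → Tor d n) (ψ ψ' : Rec → E) (s₁ k t : ℕ) (r : Rec)
    (b : Tor d n) (hr : AllLt s₁ r) (ht : t + k < s₁) (h : ∀ ρ, AllLt s₁ ρ → ψ ρ = ψ' ρ) :
    pv a ψ k t r b = pv a ψ' k t r b := by
  induction k generalizing t r b with
  | zero => simp only [pv]; exact h _ hr
  | succ k ih =>
    simp only [pv]
    refine Finset.sum_congr rfl fun w _ => ?_
    congr 1
    exact ih _ _ _ (AllLt_upd a hr (by omega) _) (by omega)

theorem pvx_congr_lt (a : Fin 2 → Tor d n) (Θ Θ' : Rec → Tor d n → E) (s₁ k t : ℕ) (r : Rec)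
    (b : Tor d n) (hr : AllLt s₁ r) (ht : t + k < s₁)
    (h : ∀ ρ b, AllLt s₁ ρ → Θ ρ b = Θ' ρ b) :
    pvx a Θ k t r b = pvx a Θ' k t r b := by
  induction k generalizing t r b with
  | zero => simp only [pvx]; exact h _ _ hr
  | succ k ih =>
    simp only [pvx]
    refine Finset.sum_congr rfl fun w _ => ?_
    congr 1
    exact ih _ _ _ (AllLt_upd a hr (by omega) _) (by omega)

theorem rb_congr_lt (a : Fin 2 → Tor d n) (ψ ψ' : Rec → E) (s₁ i : ℕ) (r : Rec)
    (b : Tor d n) (hr : AllLt s₁ r) (ht : i ≤ s₁) (h : ∀ ρ, AllLt s₁ ρ → ψ ρ = ψ' ρ) :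
    rb a ψ i r b = rb a ψ' i r b := by
  induction i generalizing r b with
  | zero => simp only [rb]; exact h _ hr
  | succ k ih =>
    simp only [rb]
    refine Finset.sum_congr rfl fun w _ => ?_
    congr 1
    exact ih _ _ (AllLt_ov a hr (by omega) _) (by omega)

theorem rb_sub_le (hd : 1 ≤ d) (a : Fin 2 → Tor d n) (ψ ψ' : Rec → E) (s₁ i : ℕ) (r : Rec)
    (b : Tor d n) (hr : AllLt s₁ r) (ht : i ≤ s₁) {B : ℝ}
    (h : ∀ ρ, AllLt s₁ ρ → ‖ψ ρ - ψ' ρ‖ ≤ B) :
    ‖rb a ψ i r b - rb a ψ' i r b‖ ≤ B := by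
  induction i generalizing r b with
  | zero => simp only [rb]; exact h _ hr
  | succ k ih =>
    simp only [rb]
    rw [← Finset.sum_sub_distrib]
    have h1 : ∑ w, stp d n w * B = B := by rw [← Finset.sum_mul, stp_sum hd, one_mul]
    rw [← h1]
    refine (norm_sum_le _ _).trans (Finset.sum_le_sum fun w _ => ?_)
    rw [← smul_sub, norm_smul, Real.norm_of_nonneg (stp_nonneg _)]
    exact mul_le_mul_of_nonneg_left (ih _ _ (AllLt_ov a hr (by omega) _) (by omega))
      (stp_nonneg _)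

omit [NeZero n] in
private theorem upd_rec0_aux (a : Fin 2 → Tor d n) (t : ℕ) (b : Tor d n) (ρ : Rec) :
    (if upd a t b ρ = rec0 then (0 : ℝ) else 1) ≤
      (if ρ = rec0 then (0 : ℝ) else 1) + ∑ l, if b = a l then (1 : ℝ) else 0 := by
  have h0 : 0 ≤ ∑ l, if b = a l then (1 : ℝ) else 0 :=
    Finset.sum_nonneg fun l _ => by split_ifs <;> norm_num
  by_cases h1 : ρ = rec0
  · by_cases h2 : ∃ l, b = a l
    · obtain ⟨l, hl⟩ := h2
      have h3 : (1 : ℝ) ≤ ∑ l, if b = a l then (1 : ℝ) else 0 := by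
        have := Finset.single_le_sum (f := fun l => if b = a l then (1 : ℝ) else 0)
          (fun l _ => by split_ifs <;> norm_num) (Finset.mem_univ l)
        simpa [hl] using this
      rw [if_pos h1]
      split_ifs <;> linarith
    · push Not at h2
      have h3 : upd a t b ρ = rec0 := by
        funext j
        unfold upd
        rw [h1]
        simp [rec0, h2 j]
      rw [if_pos h3, if_pos h1]
      linarith
  · rw [if_neg h1]
    split_ifs <;> linarith

/-- the set of sites visited in a stationary walk of length `j` is usually empty -/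
theorem ER_vis_ne (hd : 1 ≤ d) (a : Fin 2 → Tor d n) (j : ℕ) :
    ER j (fun η => if lrec a η 0 j = rec0 then (0 : ℝ) else 1) ≤ 2 * j / NN d n := by
  induction j with
  | zero =>
    have h : ∀ η : ℕ → Tor d n, lrec a η 0 0 = rec0 := fun η => rfl
    simp only [h, if_true]
    unfold ER
    rw [EP_const hd]
    simp
  | succ j ih =>
    rw [ER_succ hd]
    have h1 : EP j (fun η b => if lrec a (Function.update η j b) 0 (j + 1) = rec0 then (0 : ℝ)
        else 1) ≤ EP j (fun η b => (if lrec a η 0 j = rec0 then (0 : ℝ) else 1) +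
          ∑ l, if b = a l then (1 : ℝ) else 0) := by
      refine EP_mono _ _ _ fun η b => ?_
      rw [lrec_update_succ, sub_zero]
      exact upd_rec0_aux a j b _
    refine h1.trans ?_
    rw [EP_add, EP_unif j hd]
    have h2 : ∑ b : Tor d n, ∑ l, (if b = a l then (1 : ℝ) else 0) = 2 := by
      rw [Finset.sum_comm]
      simp
    rw [h2]
    have h3 : EP j (fun η (_ : Tor d n) => if lrec a η 0 j = rec0 then (0 : ℝ) else 1) ≤
        2 * j / NN d n := ih
    have h4 : (2 : ℝ) * ((j + 1 : ℕ) : ℝ) / NN d n = 2 * j / NN d n + (NN d n)⁻¹ • (2 : ℝ) := by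
      push_cast
      rw [smul_eq_mul]
      ring
    rw [h4]
    linarith

end CRW
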