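import Pool.Agent.Lib.CRW.L3
import Pool.Agent.Lib.CRW.PF

/-!
# Module L4: the value function before the fresh period

`φ' r = φ (kap s₁ e₀ r)`; `v ρ b' = val a φ' (H-1-s₁) s₁ ρ b'`.

PROOFS.  `vbar_fresh`: `val a ψ k s₁ r b'` averaged over `b'` is the expectation of `ψ (cmb r (shifted record of a fresh walk))`: induction as in
`cnd_lrec`/`ER_lrec` with the shift of times: prove
`cnd k t (fun η => ψ (cmb r (shr s₁ (lrec a η 0 (t+k+1))))) η b = val a ψ k (s₁ + t) (cmb r (shr s₁ (lrec a η 0 t))) b`, then `ER_cnd` with `t = 0`.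
`val_coarse`: if `AllLt s₁ ρ` then `v ρ = v (early e₀ (vis ρ))`: `kap s₁ e₀ (final record)` is the same for both; induction on `k` with the
relation `kap s₁ e₀ r = kap s₁ e₀ r'` preserved by `upd` at times `≥ s₁` (`e₀ < s₁`).
`fresh_eq`: `fresh a φ' H s₁ e₀ (vis ρ) = vbar a φ' (H-1-s₁) s₁ ρ`.
`Q_step`: let `D t ρ b = pv a φ' (H-1-t) t ρ b - ∑ b', hk (s₁-t) (b'-b) v ρ b'`.  `t + 1 = s₁`: `D = 0` (`pv_succ`).  `t + 1 < s₁`:
`D t ρ b = ∑ w, stp w (D (t+1) ρ (b+w) + (pv .. (upd (t+1) (b+w) ρ) (b+w) - pv .. ρ (b+w)))` and the last bracket is `0` unless `b + w = a j` and at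
most `2` in norm.  Induction on `s₁ - t`: `‖D t ρ b‖ ≤ 2 ∑_{t < s < s₁} ∑_j hk (s-t) (b - a j)`.
`Q`: `‖∑ b', hk (s₁-t)(b'-b) v b' - NN⁻¹ ∑ b', v b'‖ ≤ ∑ b', |hk - NN⁻¹| ≤ C e^(-κ(s₁-t)/n^2)` (`hb.mix`).
`Q_mean`: average over `b` (time `j` not yet processed): `NN⁻¹ ∑ b` of `Q_step` plus the visit at time `j` itself; `∑ b hk = 1`, so every window
time costs `2 * 2/NN`.
-/

open Finset

namespace CRW

variable {d : ℕ}

private theorem cmb_shr_upd {n : ℕ} (a : Fin 2 → Tor d n) (s₁ t : ℕ) (b : Tor d n) (r ρ : Rec) :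
    cmb r (shr s₁ (upd a t b ρ)) = upd a (s₁ + t) b (cmb r (shr s₁ ρ)) := by
  funext j
  simp only [cmb, shr, upd]
  cases h1 : r j with
  | some s => simp
  | none =>
    cases h2 : ρ j with
    | some s => simp
    | none =>
      by_cases h3 : b = a j
      · simp [h3, add_comm]
      · simp [h3]

private theorem cnd_fresh {n : ℕ} [NeZero n] {E : Type} [NormedAddCommGroup E] [NormedSpace ℝ E]
    (a : Fin 2 → Tor d n) (ψ : Rec → E) (s₁ : ℕ) (r : Rec) (k t : ℕ) (η : ℕ → Tor d n)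
    (b : Tor d n) :
    cnd k t (fun η => ψ (cmb r (shr s₁ (lrec a η 0 (t + k + 1))))) η b =
      val a ψ k (s₁ + t) (cmb r (shr s₁ (lrec a η 0 t))) b := by
  induction k generalizing t η b with
  | zero =>
    show ψ (cmb r (shr s₁ (lrec a (Function.update η t b) 0 (t + 0 + 1)))) =
      ψ (upd a (s₁ + t) b (cmb r (shr s₁ (lrec a η 0 t))))
    rw [add_zero, lrec_update_succ, sub_zero, cmb_shr_upd]
  | succ k ih =>
    show ∑ w, stp d n w • cnd k (t + 1)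
        (fun η => ψ (cmb r (shr s₁ (lrec a η 0 (t + (k + 1) + 1))))) (Function.update η t b)
          (b + w) =
      ∑ w, stp d n w • val a ψ k (s₁ + t + 1)
        (upd a (s₁ + t) b (cmb r (shr s₁ (lrec a η 0 t)))) (b + w)
    refine Finset.sum_congr rfl fun w _ => ?_
    have e : t + (k + 1) + 1 = t + 1 + k + 1 := by omega
    rw [e, ih (t + 1), lrec_update_succ, sub_zero, cmb_shr_upd]
    rfl

theorem vbar_fresh {n : ℕ} [NeZero n] {E : Type} [NormedAddCommGroup E] [NormedSpace ℝ E]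
    (hd : 1 ≤ d) (a : Fin 2 → Tor d n) (ψ : Rec → E) (H s₁ : ℕ) (hH : s₁ < H) (r : Rec) :
    vbar a ψ (H - 1 - s₁) s₁ r =
      ER (H - s₁) fun η => ψ (cmb r (shr s₁ (lrec a η 0 (H - s₁)))) := by
  have e : H - s₁ = 0 + (H - 1 - s₁) + 1 := by omega
  rw [e, ER_cnd hd]
  show (NN d n)⁻¹ • ∑ b, val a ψ (H - 1 - s₁) s₁ r b = (NN d n)⁻¹ • ∑ b,
    cnd (H - 1 - s₁) 0 (fun η => ψ (cmb r (shr s₁ (lrec a η 0 (0 + (H - 1 - s₁) + 1)))))
      (fun _ => 0) b
  congr 1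
  refine Finset.sum_congr rfl fun b _ => ?_
  rw [cnd_fresh, add_zero]
  congr 1
  funext j
  show r j = (r j).orElse fun _ => (Option.map (· + s₁) none)
  cases r j <;> rfl

theorem fresh_eq {n : ℕ} [NeZero n] {E : Type} [NormedAddCommGroup E] [NormedSpace ℝ E]
    (hd : 1 ≤ d) (a : Fin 2 → Tor d n) (φ : Rec → E) (H s₁ e₀ : ℕ) (hH : s₁ < H) (he : e₀ < s₁) (ρ : Rec)
    (hρ : AllLt s₁ ρ) : fresh a (fun r => φ (kap s₁ e₀ r)) H s₁ e₀ (vis ρ) =
      vbar a (fun r => φ (kap s₁ e₀ r)) (H - 1 - s₁) s₁ ρ := by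
  rw [vbar_fresh hd a _ H s₁ hH]
  unfold fresh
  congr 1
  funext η
  show φ (kap s₁ e₀ (cmb (early e₀ (vis ρ)) (shr s₁ (lrec a η 0 (H - s₁))))) =
    φ (kap s₁ e₀ (cmb ρ (shr s₁ (lrec a η 0 (H - s₁)))))
  congr 1
  funext j
  obtain h | ⟨s, h⟩ : ρ j = none ∨ ∃ s, ρ j = some s := by
    cases ρ j with
    | none => exact Or.inl rfl
    | some s => exact Or.inr ⟨s, rfl⟩
  · simp [kap, cmb, early, vis, h]
  · have := hρ j s h
    simp [kap, cmb, early, vis, h, this, he]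

theorem norm_fresh_le {n : ℕ} [NeZero n] (hd : 1 ≤ d) {E : Type} [NormedAddCommGroup E]
    [NormedSpace ℝ E] (a : Fin 2 → Tor d n) (φ : Rec → E) {B : ℝ} (hφ : ∀ r, ‖φ r‖ ≤ B)
    (H s₁ e₀ : ℕ) (S : Fin 2 → Bool) : ‖fresh a φ H s₁ e₀ S‖ ≤ B := by
  unfold fresh ER
  refine (norm_EP_le _ _).trans ?_
  refine (EP_mono _ _ (fun _ _ => B) fun η b => hφ _).trans ?_
  exact le_of_eq (EP_const hd _ B)

/-- effect of the visit at time `t` -/
private theorem val_sub_pv {n : ℕ} [NeZero n] (hd : 1 ≤ d) {E : Type} [NormedAddCommGroup E]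
    [NormedSpace ℝ E] (a : Fin 2 → Tor d n) (φ : Rec → E) (hφ : ∀ r, ‖φ r‖ ≤ 1) (k t : ℕ)
    (ρ : Rec) (b : Tor d n) :
    ‖val a φ k t ρ b - pv a φ k t ρ b‖ ≤ 2 * ∑ j, hk d n 0 (b - a j) := by
  by_cases h : ∃ j, b = a j
  · obtain ⟨j, hj⟩ := h
    have h1 : ‖val a φ k t ρ b - pv a φ k t ρ b‖ ≤ 2 := by
      refine (norm_sub_le _ _).trans ?_
      have h2 := norm_pv_le_of hd a hφ k t (upd a t b ρ) b
      have h3 := norm_pv_le_of hd a hφ k t ρ b
      unfold val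
      linarith
    have h2 : (1 : ℝ) ≤ ∑ j, hk d n 0 (b - a j) := by
      have h3 : hk d n 0 (b - a j) = 1 := by
        show (if b - a j = 0 then (1 : ℝ) else 0) = 1
        rw [if_pos (sub_eq_zero.mpr hj)]
      rw [← h3]
      exact Finset.single_le_sum (f := fun j => hk d n 0 (b - a j))
        (fun j _ => hk_nonneg _ _) (Finset.mem_univ j)
    linarith
  · have h1 : upd a t b ρ = ρ := by
      funext j
      unfold upd
      have h2 : ¬ b = a j := fun h3 => h ⟨j, h3⟩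
      rw [if_neg h2]
      cases ρ j <;> rfl
    unfold val
    rw [h1, sub_self, norm_zero]
    exact mul_nonneg (by norm_num) (Finset.sum_nonneg fun j _ => hk_nonneg _ _)

private theorem hk_zero_fun {n : ℕ} [NeZero n] {E : Type} [AddCommGroup E] [Module ℝ E]
    (a : Tor d n) (G : Tor d n → E) : ∑ b, hk d n 0 (b - a) • G b = G a := by
  rw [Finset.sum_eq_single a]
  · show (if a - a = 0 then (1 : ℝ) else 0) • G a = G a
    rw [if_pos (sub_self a), one_smul]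
  · intro b _ hb
    show (if b - a = 0 then (1 : ℝ) else 0) • G b = 0
    rw [if_neg (sub_ne_zero.mpr hb), zero_smul]
  · exact fun h => absurd (Finset.mem_univ _) h

private theorem hk_step {n : ℕ} [NeZero n] (r : ℕ) (b c : Tor d n) :
    ∑ w, stp d n w * hk d n r (b + w - c) = hk d n (r + 1) (b - c) := by
  show _ = ∑ w, stp d n w * hk d n r (b - c + w)
  refine Finset.sum_congr rfl fun w _ => ?_
  rw [add_sub_right_comm]

private theorem Q_step_aux {n : ℕ} [NeZero n] (hd : 1 ≤ d) {E : Type} [NormedAddCommGroup E]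
    [NormedSpace ℝ E] (a : Fin 2 → Tor d n) (φ : Rec → E) (hφ : ∀ r, ‖φ r‖ ≤ 1)
    (K : ℕ) (ρ : Rec) (m t : ℕ) (b : Tor d n) :
    ‖pv a φ (K + m + 1) t ρ b -
      ∑ b', hk d n (m + 1) (b' - b) • val a φ K (t + 1 + m) ρ b'‖ ≤
      2 * ∑ i ∈ range m, ∑ j, hk d n (i + 1) (b - a j) := by
  induction m generalizing t b with
  | zero =>
    rw [pv_succ, hk_succ_fun]
    simp only [hk_zero_fun, add_zero, sub_self, norm_zero, Finset.range_zero, Finset.sum_empty,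
      mul_zero, le_refl]
  | succ m ih =>
    rw [pv_succ, hk_succ_fun, ← Finset.sum_sub_distrib]
    have h1 : ∀ w, stp d n w • val a φ (K + (m + 1)) (t + 1) ρ (b + w) -
        stp d n w • ∑ b', hk d n (m + 1) (b' - (b + w)) • val a φ K (t + 1 + (m + 1)) ρ b' =
        stp d n w • ((val a φ (K + m + 1) (t + 1) ρ (b + w) -
          pv a φ (K + m + 1) (t + 1) ρ (b + w)) + (pv a φ (K + m + 1) (t + 1) ρ (b + w) -
          ∑ b', hk d n (m + 1) (b' - (b + w)) • val a φ K (t + 1 + 1 + m) ρ b')) := by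
      intro w
      rw [← smul_sub]
      have e1 : t + 1 + (m + 1) = t + 1 + 1 + m := by omega
      rw [e1, show K + (m + 1) = K + m + 1 from rfl]
      congr 1
      abel
    rw [Finset.sum_congr rfl fun w _ => h1 w]
    have h2 : ∀ w, ‖stp d n w • ((val a φ (K + m + 1) (t + 1) ρ (b + w) -
          pv a φ (K + m + 1) (t + 1) ρ (b + w)) + (pv a φ (K + m + 1) (t + 1) ρ (b + w) -
          ∑ b', hk d n (m + 1) (b' - (b + w)) • val a φ K (t + 1 + 1 + m) ρ b'))‖ ≤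
        stp d n w * (2 * ∑ j, hk d n 0 (b + w - a j) +
          2 * ∑ i ∈ range m, ∑ j, hk d n (i + 1) (b + w - a j)) := by
      intro w
      rw [norm_smul, Real.norm_eq_abs, abs_of_nonneg (stp_nonneg w)]
      refine mul_le_mul_of_nonneg_left ?_ (stp_nonneg w)
      exact (norm_add_le _ _).trans (add_le_add (val_sub_pv hd a φ hφ _ _ _ _) (ih _ _))
    refine (norm_sum_le _ _).trans ((Finset.sum_le_sum fun w _ => h2 w).trans ?_)
    apply le_of_eq
    have h3 : ∑ w : Tor d n, stp d n w * (2 * ∑ j, hk d n 0 (b + w - a j)) =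
        2 * ∑ j, hk d n 1 (b - a j) := by
      have h4 : ∀ w : Tor d n, stp d n w * (2 * ∑ j, hk d n 0 (b + w - a j)) =
          ∑ j, 2 * (stp d n w * hk d n 0 (b + w - a j)) := by
        intro w
        rw [Finset.mul_sum, Finset.mul_sum]
        refine Finset.sum_congr rfl fun j _ => ?_
        ring
      rw [Finset.sum_congr rfl fun w _ => h4 w, Finset.sum_comm, Finset.mul_sum]
      refine Finset.sum_congr rfl fun j _ => ?_
      rw [← Finset.mul_sum, hk_step]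
    have h5 : ∑ w : Tor d n, stp d n w *
        (2 * ∑ i ∈ range m, ∑ j, hk d n (i + 1) (b + w - a j)) =
        2 * ∑ i ∈ range m, ∑ j, hk d n (i + 1 + 1) (b - a j) := by
      have h4 : ∀ w : Tor d n, stp d n w *
          (2 * ∑ i ∈ range m, ∑ j, hk d n (i + 1) (b + w - a j)) =
          ∑ i ∈ range m, ∑ j, 2 * (stp d n w * hk d n (i + 1) (b + w - a j)) := by
        intro w
        rw [Finset.mul_sum, Finset.mul_sum]
        refine Finset.sum_congr rfl fun i _ => ?_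
        rw [Finset.mul_sum, Finset.mul_sum]
        refine Finset.sum_congr rfl fun j _ => ?_
        ring
      rw [Finset.sum_congr rfl fun w _ => h4 w, Finset.sum_comm, Finset.mul_sum]
      refine Finset.sum_congr rfl fun i _ => ?_
      rw [Finset.sum_comm, Finset.mul_sum]
      refine Finset.sum_congr rfl fun j _ => ?_
      rw [← Finset.mul_sum, hk_step]
    simp only [mul_add, Finset.sum_add_distrib]
    rw [h3, h5, Finset.sum_range_succ']
    ring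

theorem Q_step {n : ℕ} [NeZero n] (hd : 1 ≤ d) {E : Type} [NormedAddCommGroup E]
    [NormedSpace ℝ E] (a : Fin 2 → Tor d n) (φ : Rec → E) (hφ : ∀ r, ‖φ r‖ ≤ 1)
    (H s₁ t : ℕ) (hH : s₁ < H) (ht : t < s₁) (ρ : Rec) (b : Tor d n) :
    ‖pv a φ (H - 1 - t) t ρ b -
      ∑ b', hk d n (s₁ - t) (b' - b) • val a φ (H - 1 - s₁) s₁ ρ b'‖ ≤
      2 * ∑ s ∈ Ioo t s₁, ∑ j, hk d n (s - t) (b - a j) := by
  have h := Q_step_aux hd a φ hφ (H - 1 - s₁) ρ (s₁ - t - 1) t b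
  have e1 : H - 1 - s₁ + (s₁ - t - 1) + 1 = H - 1 - t := by omega
  have e2 : s₁ - t - 1 + 1 = s₁ - t := by omega
  have e3 : t + 1 + (s₁ - t - 1) = s₁ := by omega
  rw [e1, e2, e3] at h
  have e4 : ∑ s ∈ Ioo t s₁, ∑ j, hk d n (s - t) (b - a j) =
      ∑ i ∈ range (s₁ - t - 1), ∑ j, hk d n (i + 1) (b - a j) := by
    have e5 : Ioo t s₁ = Ico (t + 1) s₁ := by
      ext x
      simp only [Finset.mem_Ioo, Finset.mem_Ico]
      omega
    rw [e5, Finset.sum_Ico_eq_sum_range, Nat.sub_sub]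
    refine Finset.sum_congr rfl fun i _ => ?_
    rw [show t + 1 + i - t = i + 1 by omega]
  rw [e4]
  exact h

theorem Q_lem (hd : 3 ≤ d) (C κ : ℝ) : ∃ C' : ℝ, 1 ≤ C' ∧ ∀ (n : ℕ) [NeZero n], HKB d n C κ →
    ∀ (E : Type) [NormedAddCommGroup E] [NormedSpace ℝ E] (a : Fin 2 → Tor d n) (φ : Rec → E),
      (∀ r, ‖φ r‖ ≤ 1) → ∀ (H s₁ t : ℕ), s₁ < H → t + n ^ 2 ≤ s₁ → ∀ (ρ : Rec) (b : Tor d n),
      ‖pv a φ (H - 1 - t) t ρ b - vbar a φ (H - 1 - s₁) s₁ ρ‖ ≤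
        2 * ∑ s ∈ Ioo t s₁, ∑ j, hk d n (s - t) (b - a j) +
          C' * Real.exp (-κ * ((s₁ - t : ℕ) : ℝ) / n ^ 2) := by
  refine ⟨max C 1, le_max_right _ _, ?_⟩
  intro n _ hb E _ _ a φ hφ H s₁ t hH ht ρ b
  have hd1 : 1 ≤ d := by omega
  have hN : 0 < NN d n := NN_pos
  have hn2 : 0 < n ^ 2 := pow_pos (Nat.pos_of_ne_zero (NeZero.ne n)) 2
  have h1 := Q_step hd1 a φ hφ H s₁ t hH (by omega) ρ b
  have h2 : ‖(∑ b', hk d n (s₁ - t) (b' - b) • val a φ (H - 1 - s₁) s₁ ρ b') -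
      vbar a φ (H - 1 - s₁) s₁ ρ‖ ≤ C * Real.exp (-κ * ((s₁ - t : ℕ) : ℝ) / n ^ 2) := by
    unfold vbar
    rw [Finset.smul_sum, ← Finset.sum_sub_distrib]
    have h3 : ∀ b' : Tor d n, ‖hk d n (s₁ - t) (b' - b) • val a φ (H - 1 - s₁) s₁ ρ b' -
        (NN d n)⁻¹ • val a φ (H - 1 - s₁) s₁ ρ b'‖ ≤
        C / NN d n * Real.exp (-κ * ((s₁ - t : ℕ) : ℝ) / n ^ 2) := by
      intro b'
      rw [← sub_smul, norm_smul, Real.norm_eq_abs]
      have h4 := hb.mix (s₁ - t) (b' - b) (by omega)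
      have h5 : ‖val a φ (H - 1 - s₁) s₁ ρ b'‖ ≤ 1 := norm_pv_le_of hd1 a hφ _ _ _ _
      calc |hk d n (s₁ - t) (b' - b) - (NN d n)⁻¹| * ‖val a φ (H - 1 - s₁) s₁ ρ b'‖ ≤
          |hk d n (s₁ - t) (b' - b) - (NN d n)⁻¹| * 1 :=
            mul_le_mul_of_nonneg_left h5 (abs_nonneg _)
        _ ≤ _ := by rw [mul_one]; exact h4
    refine (norm_sum_le _ _).trans ((Finset.sum_le_sum fun b' _ => h3 b').trans ?_)
    rw [Finset.sum_const, nsmul_eq_mul, Finset.card_univ, card_tor]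
    apply le_of_eq
    field_simp
  have h6 := (norm_sub_le_norm_sub_add_norm_sub (pv a φ (H - 1 - t) t ρ b)
    (∑ b', hk d n (s₁ - t) (b' - b) • val a φ (H - 1 - s₁) s₁ ρ b')
    (vbar a φ (H - 1 - s₁) s₁ ρ)).trans (add_le_add h1 h2)
  refine h6.trans (add_le_add le_rfl ?_)
  exact mul_le_mul_of_nonneg_right (le_max_left _ _) (Real.exp_pos _).le

theorem Q_mean {n : ℕ} [NeZero n] (hd : 1 ≤ d) {E : Type} [NormedAddCommGroup E]
    [NormedSpace ℝ E] (a : Fin 2 → Tor d n) (φ : Rec → E) (hφ : ∀ r, ‖φ r‖ ≤ 1)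
    (H s₁ j : ℕ) (hH : s₁ < H) (hj : j ≤ s₁) (ρ : Rec) :
    ‖vbar a φ (H - 1 - j) j ρ - vbar a φ (H - 1 - s₁) s₁ ρ‖ ≤
      4 * ((s₁ - j : ℕ) : ℝ) / NN d n := by
  have hN : 0 < NN d n := NN_pos
  rcases Nat.eq_or_lt_of_le hj with rfl | hlt
  · simp
  have hhk : ∀ (r : ℕ) (c : Tor d n), ∑ b, hk d n r (b - c) = 1 := by
    intro r c
    rw [← hk_sum (n := n) hd r]
    exact (Equiv.subRight c).sum_comp (hk d n r)
  have hhk' : ∀ (r : ℕ) (c : Tor d n), ∑ b, hk d n r (c - b) = 1 := by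
    intro r c
    rw [← hhk r c]
    refine Finset.sum_congr rfl fun b _ => ?_
    rw [← hk_neg r (b - c), neg_sub]
  have e1 : ∑ b, ∑ b', hk d n (s₁ - j) (b' - b) • val a φ (H - 1 - s₁) s₁ ρ b' =
      ∑ b', val a φ (H - 1 - s₁) s₁ ρ b' := by
    rw [Finset.sum_comm]
    refine Finset.sum_congr rfl fun b' _ => ?_
    rw [← Finset.sum_smul, hhk', one_smul]
  have e2 : vbar a φ (H - 1 - j) j ρ - vbar a φ (H - 1 - s₁) s₁ ρ = (NN d n)⁻¹ •
      ∑ b, ((val a φ (H - 1 - j) j ρ b - pv a φ (H - 1 - j) j ρ b) +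
        (pv a φ (H - 1 - j) j ρ b -
          ∑ b', hk d n (s₁ - j) (b' - b) • val a φ (H - 1 - s₁) s₁ ρ b')) := by
    unfold vbar
    rw [← smul_sub, ← e1, ← Finset.sum_sub_distrib]
    congr 1
    refine Finset.sum_congr rfl fun b _ => ?_
    abel
  rw [e2, norm_smul, Real.norm_eq_abs, abs_of_pos (inv_pos.mpr hN)]
  have h3 : ∀ b : Tor d n, ‖(val a φ (H - 1 - j) j ρ b - pv a φ (H - 1 - j) j ρ b) +
        (pv a φ (H - 1 - j) j ρ b -
          ∑ b', hk d n (s₁ - j) (b' - b) • val a φ (H - 1 - s₁) s₁ ρ b')‖ ≤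
      2 * ∑ l, hk d n 0 (b - a l) + 2 * ∑ s ∈ Ioo j s₁, ∑ l, hk d n (s - j) (b - a l) := by
    intro b
    exact (norm_add_le _ _).trans (add_le_add (val_sub_pv hd a φ hφ _ _ _ _)
      (Q_step hd a φ hφ H s₁ j hH hlt ρ b))
  have h4 : ‖∑ b, ((val a φ (H - 1 - j) j ρ b - pv a φ (H - 1 - j) j ρ b) +
        (pv a φ (H - 1 - j) j ρ b -
          ∑ b', hk d n (s₁ - j) (b' - b) • val a φ (H - 1 - s₁) s₁ ρ b'))‖ ≤
      4 * ((s₁ - j : ℕ) : ℝ) := by
    refine (norm_sum_le _ _).trans ((Finset.sum_le_sum fun b _ => h3 b).trans ?_)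
    rw [Finset.sum_add_distrib, ← Finset.mul_sum, ← Finset.mul_sum, Finset.sum_comm,
      Finset.sum_comm (s := univ) (t := Ioo j s₁)]
    have h5 : ∀ s ∈ Ioo j s₁, ∑ b : Tor d n, ∑ l, hk d n (s - j) (b - a l) = 2 := by
      intro s _
      rw [Finset.sum_comm, Finset.sum_congr rfl fun l _ => hhk (s - j) (a l)]
      simp
    rw [Finset.sum_congr rfl h5, Finset.sum_congr rfl fun l _ => hhk 0 (a l), Finset.sum_const,
      Finset.sum_const, Nat.card_Ioo, Finset.card_univ, Fintype.card_fin]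
    apply le_of_eq
    rw [nsmul_eq_mul, nsmul_eq_mul, Nat.cast_sub (show 1 ≤ s₁ - j by omega)]
    push_cast
    ring
  rw [div_eq_inv_mul]
  exact mul_le_mul_of_nonneg_left h4 (inv_pos.mpr hN).le

end CRW
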