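import Pool.Agent.Lib.CRW.L4
import Pool.Agent.Lib.CRW.L2

/-!
# Module L5: (B2) the charges of coarse functions

Let `φ' r = φ (kap s₁ e₀ r)`, `Φ S = fresh a φ' H s₁ e₀ S`.

PROOF for `i ≥ j`: `XX = ER j (chg a φ' (H-1-i) i (lrec a η 0 j) l)`; replace the record by `rec0` (error `2 * 2j/NN` by `ER_vis_ne`,
`norm_chg_le`).  `chg a φ' k i rec0 l = pv a φ' k i r₁ (a l) - pv a φ' k i rec0 (a l)`, `r₁ = upd a i (a l) rec0`, `k = H-1-i`.  For `r ∈ {r₁, rec0}`:
`pv_steps` with `k₁ = s₀`: `pvx a (fun ρ b => pv a φ' (H-1-(i+s₀)) (i+s₀) ρ b) s₀ i r (a l)`; `Q_lem` at `t = i + s₀` and `fresh_eq`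
(the records have times `≤ i + s₀ < s₁`, `pvx_congr_lt`): replace by `Φ (vis ρ)`; the error is
`pvx (2 ∑_{i+s₀ < s < s₁} ∑_j hk (s-i-s₀)(b - a j)) + C' e^(..)` `= 2 ∑_s ∑_j hk (s - i) (a l - a j) + ..` (`pvx_pos`, `hk_conv`) `≤ C (1/√s₀ + s₁/NN)` (`hk_tail`).
Main part: `pv a (Φ ∘ vis) s₀ i r (a l) = pv a (fun ρ => Φ (vis r ∪ vis ρ)) s₀ 0 rec0 (a l)` (`pv_vis`): the two terms of `Xs`
(`vis r₁ ∪ S = ins l S`).
PROOF for `i < j`: `XX = rchg a V i rec0 l`, `V = vbar a φ' (H-1-j) j`; `Q_mean`, `fresh_eq`: `‖V ρ - Φ (vis ρ)‖ ≤ 4 s₁/NN` for `AllLt s₁ ρ`;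
`rb_sub_le`.  `rb a (Φ ∘ vis) i r (a l) = pv a (fun ρ => Φ (vis r ∪ vis ρ)) i 0 rec0 (a l)` (`rb_vis`), `r = ov a i (a l) rec0` or `rec0`;
`pv_vis_trunc` with `i = s₀ + (i - s₀)` and `hk_tail`.
-/

open Finset

namespace CRW

variable {d : ℕ}

private theorem l5_ER_sub_le {n : ℕ} [NeZero n] (hd : 1 ≤ d) {E : Type} [NormedAddCommGroup E]
    [NormedSpace ℝ E] (a : Fin 2 → Tor d n) (g : Rec → E) (hg : ∀ r, ‖g r‖ ≤ 2) (j : ℕ) :
    ‖(ER j fun η => g (lrec a η 0 j)) - g rec0‖ ≤ 8 * j / NN d n := by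
  classical
  have hN : 0 < NN d n := NN_pos
  have h0 : (ER j fun η => g (lrec a η 0 j)) - g rec0 =
      EP j (fun η _ => g (lrec a η 0 j) - g rec0) := by
    rw [EP_sub j (fun η _ => g (lrec a η 0 j)) (fun _ _ => g rec0), EP_const hd]
    rfl
  rw [h0]
  refine (norm_EP_le j _).trans ?_
  have h1 : EP j (fun η (_ : Tor d n) => ‖g (lrec a η 0 j) - g rec0‖) ≤
      EP j (fun η _ => 4 * if lrec a η 0 j = rec0 then (0 : ℝ) else 1) := by
    refine EP_mono j _ _ fun η _ => ?_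
    by_cases h : lrec a η 0 j = rec0
    · rw [h]; simp
    · rw [if_neg h]
      have := norm_sub_le (g (lrec a η 0 j)) (g rec0)
      linarith [hg (lrec a η 0 j), hg rec0]
  refine h1.trans ?_
  have h2 := EP_smul (n := n) (d := d) j (4 : ℝ)
    (fun η _ => if lrec a η 0 j = rec0 then (0 : ℝ) else 1)
  simp only [smul_eq_mul] at h2
  rw [h2]
  have h3 := ER_vis_ne hd a j
  have h4 : EP j (fun η (_ : Tor d n) => if lrec a η 0 j = rec0 then (0 : ℝ) else 1) ≤
      2 * j / NN d n := h3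
  calc _ ≤ 4 * (2 * j / NN d n) := mul_le_mul_of_nonneg_left h4 (by norm_num)
    _ = _ := by ring

private theorem l5_vis_upd {n : ℕ} [NeZero n] (a : Fin 2 → Tor d n) (ha : a 0 ≠ a 1) (i : ℕ)
    (l : Fin 2) (S : Fin 2 → Bool) :
    (fun j => vis (upd a i (a l) rec0) j || S j) = ins l S := by
  funext j
  have h : (a l = a j) ↔ j = l := by
    constructor
    · intro h
      fin_cases l <;> fin_cases j <;> first | rfl | exact absurd h ha | exact absurd h.symm ha
    · rintro rfl; rfl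
  unfold vis upd ins rec0
  by_cases hj : j = l
  · have : a l = a j := h.2 hj
    simp [this, hj]
  · have : ¬ a l = a j := fun h' => hj (h.1 h')
    simp [this, hj]

private theorem l5_vis_ov {n : ℕ} [NeZero n] (a : Fin 2 → Tor d n) (ha : a 0 ≠ a 1) (i : ℕ)
    (l : Fin 2) (S : Fin 2 → Bool) :
    (fun j => vis (ov a i (a l) rec0) j || S j) = ins l S := by
  funext j
  have h : (a l = a j) ↔ j = l := by
    constructor
    · intro h
      fin_cases l <;> fin_cases j <;> first | rfl | exact absurd h ha | exact absurd h.symm ha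
    · rintro rfl; rfl
  unfold vis ov ins rec0
  by_cases hj : j = l
  · have : a l = a j := h.2 hj
    simp [this, hj]
  · have : ¬ a l = a j := fun h' => hj (h.1 h')
    simp [this, hj]

private theorem l5_vis_rec0 (S : Fin 2 → Bool) : (fun j => vis rec0 j || S j) = S := by
  funext j
  simp [vis, rec0]

private theorem l5_allLt_rec0 (s : ℕ) : AllLt s rec0 := by
  intro j s' h
  simp [rec0] at h

private theorem l5_allLt_upd {n : ℕ} [NeZero n] (a : Fin 2 → Tor d n) {i s : ℕ} (hi : i < s)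
    (b : Tor d n) : AllLt s (upd a i b rec0) := by
  intro j s' h
  unfold upd rec0 at h
  by_cases hb : b = a j
  · simp [hb] at h
    omega
  · simp [hb] at h

private theorem l5_allLt_ov {n : ℕ} [NeZero n] (a : Fin 2 → Tor d n) {i s : ℕ} (hi : i < s)
    (b : Tor d n) : AllLt s (ov a i b rec0) := by
  intro j s' h
  unfold ov rec0 at h
  by_cases hb : b = a j
  · simp [hb] at h
    omega
  · simp [hb] at h

/-- shifted window sums -/
private theorem l5_tail {n : ℕ} [NeZero n] {C2 : ℝ} (hC2 : 0 ≤ C2)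
    (htail : ∀ (z : Tor d n) (S : Finset ℕ) (g : ℕ), 1 ≤ g → (∀ s ∈ S, g ≤ s) →
      ∑ s ∈ S, hk d n s z ≤ C2 * (1 / Real.sqrt g + S.card / NN d n))
    (z : Tor d n) {s₀ t s₁ : ℕ} (hs₀ : 1 ≤ s₀) :
    ∑ s ∈ Ioo t s₁, hk d n (s₀ + (s - t)) z ≤ C2 * (1 / Real.sqrt s₀ + s₁ / NN d n) := by
  have hN : 0 < NN d n := NN_pos
  have hinj : Set.InjOn (fun s => s₀ + (s - t)) (Ioo t s₁ : Finset ℕ) := by
    intro x hx y hy h
    have hx' := Finset.mem_Ioo.1 (Finset.mem_coe.1 hx)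
    have hy' := Finset.mem_Ioo.1 (Finset.mem_coe.1 hy)
    simp only at h
    omega
  have h1 : ∑ s ∈ Ioo t s₁, hk d n (s₀ + (s - t)) z =
      ∑ s ∈ (Ioo t s₁).image (fun s => s₀ + (s - t)), hk d n s z :=
    (Finset.sum_image (f := fun s => hk d n s z) hinj).symm
  rw [h1]
  refine (htail z _ s₀ hs₀ ?_).trans ?_
  · intro s hs
    obtain ⟨x, -, rfl⟩ := Finset.mem_image.1 hs
    omega
  · refine mul_le_mul_of_nonneg_left ?_ hC2
    have h2 : (((Ioo t s₁).image (fun s => s₀ + (s - t))).card : ℝ) ≤ s₁ := by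
      have h3 : ((Ioo t s₁).image (fun s => s₀ + (s - t))).card ≤ s₁ :=
        Finset.card_image_le.trans (by rw [Nat.card_Ioo]; omega)
      exact_mod_cast h3
    have h4 := div_le_div_of_nonneg_right h2 hN.le
    linarith

private theorem l5_fresh_le {n : ℕ} [NeZero n] (hd : 1 ≤ d) {E : Type} [NormedAddCommGroup E]
    [NormedSpace ℝ E] (a : Fin 2 → Tor d n) (φ : Rec → E) {B : ℝ} (hφ : ∀ r, ‖φ r‖ ≤ B)
    (H s₁ e₀ : ℕ) (S : Fin 2 → Bool) : ‖fresh a φ H s₁ e₀ S‖ ≤ B :=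
  norm_fresh_le hd a φ hφ H s₁ e₀ S

theorem XX_coarse (hd : 3 ≤ d) (C κ : ℝ) : ∃ C' : ℝ, 1 ≤ C' ∧ ∀ (n : ℕ) [NeZero n],
    HKB d n C κ → ∀ (E : Type) [NormedAddCommGroup E] [NormedSpace ℝ E]
      (a : Fin 2 → Tor d n) (φ : Rec → E), a 0 ≠ a 1 → (∀ r, ‖φ r‖ ≤ 1) →
      ∀ (H s₁ e₀ s₀ j i : ℕ), s₁ < H → e₀ < s₁ → j ≤ s₁ → 1 ≤ s₀ → i + s₀ + n ^ 2 ≤ s₁ →
      (i < j → s₀ ≤ i) →
      ‖(∑ l, XX a (fun r => φ (kap s₁ e₀ r)) H j i l) -
        Xs a (fun r => φ (kap s₁ e₀ r)) H s₁ e₀ s₀‖ ≤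
        C' * (1 / Real.sqrt s₀ + s₁ / NN d n +
          Real.exp (-κ * ((s₁ - i - s₀ : ℕ) : ℝ) / n ^ 2)) := by
  obtain ⟨C1, hC1, hQ⟩ := Q_lem hd C κ
  obtain ⟨C2, hC2, hT⟩ := hk_tail hd C κ
  refine ⟨16 + 16 * C2 + 4 * C1, by linarith, ?_⟩
  intro n _ hb E _ _ a φ ha hφ H s₁ e₀ s₀ j i hH he hj hs₀ hi hij
  have hd1 : 1 ≤ d := by omega
  have hN : 0 < NN d n := NN_pos
  set φ' : Rec → E := fun r => φ (kap s₁ e₀ r) with hφ'
  have hφ'1 : ∀ r, ‖φ' r‖ ≤ 1 := fun r => hφ _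
  set Φ : (Fin 2 → Bool) → E := fresh a φ' H s₁ e₀ with hΦ
  have hΦ1 : ∀ S, ‖Φ S‖ ≤ 1 := fun S => norm_fresh_le hd1 a φ' hφ'1 H s₁ e₀ S
  have hfr : ∀ ρ, AllLt s₁ ρ → Φ (vis ρ) = vbar a φ' (H - 1 - s₁) s₁ ρ := fun ρ hρ =>
    fresh_eq hd1 a φ H s₁ e₀ hH he ρ hρ
  have htail : ∀ (z : Tor d n) (S : Finset ℕ) (g : ℕ), 1 ≤ g → (∀ s ∈ S, g ≤ s) →
      ∑ s ∈ S, hk d n s z ≤ C2 * (1 / Real.sqrt g + S.card / NN d n) := fun z S g =>
    hT n hb z S g
  have his : i < s₁ := by omega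
  set W : ℝ := 1 / Real.sqrt s₀ + s₁ / NN d n with hW
  have hW0 : 0 ≤ W := by positivity
  set ex : ℝ := Real.exp (-κ * ((s₁ - i - s₀ : ℕ) : ℝ) / n ^ 2) with hex
  have hex0 : 0 ≤ ex := (Real.exp_pos _).le
  have hsN : (s₁ : ℝ) / NN d n ≤ W := by
    have : 0 ≤ 1 / Real.sqrt (s₀ : ℝ) := by positivity
    linarith
  -- one site
  have hone : ∀ l : Fin 2, ‖XX a φ' H j i l -
      (pv a (fun r => Φ (ins l (vis r))) s₀ 0 rec0 (a l) -
        pv a (fun r => Φ (vis r)) s₀ 0 rec0 (a l))‖ ≤ 8 * W + 8 * C2 * W + 2 * C1 * ex := by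
    intro l
    by_cases hlt : i < j
    · -- reversed walk
      have hs₀i := hij hlt
      have hXX : XX a φ' H j i l = rchg a (vbar a φ' (H - 1 - j) j) i rec0 l := by
        unfold XX
        rw [if_pos hlt]
      set V : Rec → E := vbar a φ' (H - 1 - j) j with hV
      have hVd : ∀ ρ, AllLt s₁ ρ → ‖V ρ - Φ (vis ρ)‖ ≤ 4 * (s₁ / NN d n) := by
        intro ρ hρ
        rw [hfr ρ hρ]
        refine (Q_mean hd1 a φ' hφ'1 H s₁ j hH hj ρ).trans ?_
        have h1 : ((s₁ - j : ℕ) : ℝ) ≤ s₁ := by exact_mod_cast Nat.sub_le _ _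
        rw [← mul_div_assoc]
        exact div_le_div_of_nonneg_right (by linarith) hN.le
      have hterm : ∀ r, AllLt s₁ r → ‖rb a V i r (a l) -
          pv a (fun ρ => Φ fun j => vis r j || vis ρ j) s₀ 0 rec0 (a l)‖ ≤
          4 * (s₁ / NN d n) + 4 * (C2 * W) := by
        intro r hr
        have h1 := rb_sub_le hd1 a V (fun ρ => Φ (vis ρ)) s₁ i r (a l) hr his.le hVd
        have h2 : rb a (fun ρ => Φ (vis ρ)) i r (a l) =
            pv a (fun ρ => Φ fun j => vis r j || vis ρ j) i 0 rec0 (a l) := rb_vis a Φ i 0 r (a l)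
        have h3 := pv_vis_trunc hd1 a ha (fun S => Φ fun j => vis r j || S j)
          (B := 1) (fun S => hΦ1 _) s₀ (i - s₀) 0 rec0 (a l)
        have h4 : s₀ + (i - s₀) = i := by omega
        rw [h4] at h3
        have h5 : ∀ j' : Fin 2, ∑ s ∈ Ioc s₀ i, hk d n s (a l - a j') ≤ C2 * W := by
          intro j'
          refine (htail (a l - a j') (Ioc s₀ i) s₀ hs₀ fun s hs => ?_).trans ?_
          · exact (Finset.mem_Ioc.1 hs).1.le
          · refine mul_le_mul_of_nonneg_left ?_ (by linarith)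
            have h6 : ((Ioc s₀ i).card : ℝ) ≤ s₁ := by
              rw [Nat.card_Ioc]
              have : i - s₀ ≤ s₁ := by omega
              exact_mod_cast this
            have := div_le_div_of_nonneg_right h6 hN.le
            linarith
        have h6 : ∑ s ∈ Ioc s₀ i, ∑ j', hk d n s (a l - a j') ≤ 2 * (C2 * W) := by
          rw [Finset.sum_comm]
          calc _ ≤ ∑ _j' : Fin 2, C2 * W := Finset.sum_le_sum fun j' _ => h5 j'
            _ = 2 * (C2 * W) := by simp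
        rw [h2] at h1
        calc ‖rb a V i r (a l) - pv a (fun ρ => Φ fun j => vis r j || vis ρ j) s₀ 0 rec0 (a l)‖
            ≤ ‖rb a V i r (a l) - pv a (fun ρ => Φ fun j => vis r j || vis ρ j) i 0 rec0 (a l)‖ +
              ‖pv a (fun ρ => Φ fun j => vis r j || vis ρ j) i 0 rec0 (a l) -
                pv a (fun ρ => Φ fun j => vis r j || vis ρ j) s₀ 0 rec0 (a l)‖ :=
              norm_sub_le_norm_sub_add_norm_sub _ _ _
          _ ≤ 4 * (s₁ / NN d n) + 4 * (C2 * W) := by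
              refine add_le_add h1 (h3.trans ?_)
              linarith
      have t1 := hterm (ov a i (a l) rec0) (l5_allLt_ov a his _)
      have t2 := hterm rec0 (l5_allLt_rec0 s₁)
      simp only [l5_vis_ov a ha] at t1
      simp only [l5_vis_rec0] at t2
      rw [hXX]
      unfold rchg
      have key : ∀ x y u v : E, x - y - (u - v) = (x - u) - (y - v) := fun x y u v => by abel
      rw [key]
      refine (norm_sub_le _ _).trans ?_
      have : 0 ≤ C1 * ex := by positivity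
      linarith
    · -- forward walk
      have hXX : XX a φ' H j i l = ER j fun η => chg a φ' (H - 1 - i) i (lrec a η 0 j) l := by
        unfold XX
        rw [if_neg hlt]
      have hm : ‖XX a φ' H j i l - chg a φ' (H - 1 - i) i rec0 l‖ ≤ 8 * W := by
        rw [hXX]
        refine (l5_ER_sub_le hd1 a (fun r => chg a φ' (H - 1 - i) i r l) (fun r => ?_) j).trans ?_
        · have := norm_chg_le hd1 a hφ'1 (H - 1 - i) i r l
          linarith
        · have h1 : (j : ℝ) ≤ s₁ := by exact_mod_cast hj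
          have h2 : 8 * (j : ℝ) / NN d n ≤ 8 * (s₁ / NN d n) := by
            rw [← mul_div_assoc]
            exact div_le_div_of_nonneg_right (by linarith) hN.le
          linarith
      have hterm : ∀ r, AllLt s₁ r → ‖pv a φ' (H - 1 - i) i r (a l) -
          pv a (fun ρ => Φ fun j => vis r j || vis ρ j) s₀ 0 rec0 (a l)‖ ≤
          4 * (C2 * W) + C1 * ex := by
        intro r hr
        set t : ℕ := i + s₀ with ht
        have h1 : H - 1 - i = s₀ + (H - 1 - t) := by omega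
        have h2 : pv a φ' (H - 1 - i) i r (a l) =
            pvx a (fun ρ b => pv a φ' (H - 1 - t) t ρ b) s₀ i r (a l) := by
          rw [h1, pv_steps]
        have h3 : pv a (fun ρ => Φ fun j => vis r j || vis ρ j) s₀ 0 rec0 (a l) =
            pvx a (fun ρ _ => vbar a φ' (H - 1 - s₁) s₁ ρ) s₀ i r (a l) := by
          rw [← pv_vis a Φ s₀ i 0 r (a l), ← pvx_rec]
          exact pvx_congr_lt a _ _ s₁ s₀ i r (a l) hr (by
            have : 1 ≤ n ^ 2 := Nat.one_le_pow _ _ (NeZero.pos n)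
            omega) fun ρ b hρ => hfr ρ hρ
        rw [h2, h3, ← pvx_sub]
        refine (norm_pvx_le a _ s₀ i r (a l)).trans ?_
        have hex' : Real.exp (-κ * ((s₁ - t : ℕ) : ℝ) / n ^ 2) = ex := by
          rw [hex, ht, Nat.sub_sub]
        have h4 : ∀ ρ b, ‖pv a φ' (H - 1 - t) t ρ b - vbar a φ' (H - 1 - s₁) s₁ ρ‖ ≤
            2 * ∑ s ∈ Ioo t s₁, ∑ j, hk d n (s - t) (b - a j) + C1 * ex := by
          intro ρ b
          rw [← hex']
          exact hQ n hb E a φ' hφ'1 H s₁ t hH (by omega) ρ b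
        refine (pvx_mono a h4 s₀ i r (a l)).trans ?_
        rw [pvx_pos]
        have h5 : ∑ b', hk d n s₀ (b' - a l) •
            (2 * ∑ s ∈ Ioo t s₁, ∑ j, hk d n (s - t) (b' - a j) + C1 * ex) =
            2 * ∑ j : Fin 2, ∑ s ∈ Ioo t s₁, hk d n (s₀ + (s - t)) (a l - a j) + C1 * ex := by
          have e1 : ∀ b' : Tor d n, hk d n s₀ (b' - a l) •
              (2 * ∑ s ∈ Ioo t s₁, ∑ j, hk d n (s - t) (b' - a j) + C1 * ex) =
              2 * ∑ j : Fin 2, ∑ s ∈ Ioo t s₁,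
                hk d n s₀ (b' - a l) * hk d n (s - t) (b' - a j) +
              C1 * ex * hk d n s₀ (b' - a l) := by
            intro b'
            rw [smul_eq_mul, mul_add, Finset.sum_comm (s := Ioo t s₁)]
            congr 1
            · rw [mul_left_comm, Finset.mul_sum]
              congr 1
              refine Finset.sum_congr rfl fun j _ => ?_
              rw [Finset.mul_sum]
            · ring
          simp_rw [e1]
          rw [Finset.sum_add_distrib, ← Finset.mul_sum, ← Finset.mul_sum]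
          congr 1
          · congr 1
            rw [Finset.sum_comm]
            refine Finset.sum_congr rfl fun j _ => ?_
            rw [Finset.sum_comm]
            refine Finset.sum_congr rfl fun s _ => ?_
            exact hk_conv s₀ (s - t) (a l) (a j)
          · have e2 : ∑ b' : Tor d n, hk d n s₀ (b' - a l) = 1 := by
              rw [← hk_sum (n := n) hd1 s₀]
              exact Equiv.sum_comp (Equiv.subRight (a l)) (hk d n s₀)
            rw [e2, mul_one]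
        rw [h5]
        have h6 : ∑ j : Fin 2, ∑ s ∈ Ioo t s₁, hk d n (s₀ + (s - t)) (a l - a j) ≤
            2 * (C2 * W) := by
          calc _ ≤ ∑ _j : Fin 2, C2 * W := Finset.sum_le_sum fun j _ =>
                l5_tail (by linarith) htail (a l - a j) hs₀
            _ = 2 * (C2 * W) := by simp
        linarith
      have t1 := hterm (upd a i (a l) rec0) (l5_allLt_upd a his _)
      have t2 := hterm rec0 (l5_allLt_rec0 s₁)
      simp only [l5_vis_upd a ha] at t1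
      simp only [l5_vis_rec0] at t2
      have hc : ‖chg a φ' (H - 1 - i) i rec0 l -
          (pv a (fun r => Φ (ins l (vis r))) s₀ 0 rec0 (a l) -
            pv a (fun r => Φ (vis r)) s₀ 0 rec0 (a l))‖ ≤ 8 * (C2 * W) + 2 * (C1 * ex) := by
        unfold chg
        have key : ∀ x y u v : E, x - y - (u - v) = (x - u) - (y - v) := fun x y u v => by abel
        rw [key]
        refine (norm_sub_le _ _).trans ?_
        linarith
      refine (norm_sub_le_norm_sub_add_norm_sub _ (chg a φ' (H - 1 - i) i rec0 l) _).trans ?_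
      linarith
  have hXs : Xs a φ' H s₁ e₀ s₀ = ∑ l, (pv a (fun r => Φ (ins l (vis r))) s₀ 0 rec0 (a l) -
      pv a (fun r => Φ (vis r)) s₀ 0 rec0 (a l)) := rfl
  rw [hXs, ← Finset.sum_sub_distrib]
  refine (norm_sum_le _ _).trans ?_
  calc _ ≤ ∑ _l : Fin 2, (8 * W + 8 * C2 * W + 2 * C1 * ex) :=
        Finset.sum_le_sum fun l _ => hone l
    _ = 16 * W + 16 * C2 * W + 4 * C1 * ex := by
        simp
        ring
    _ ≤ (16 + 16 * C2 + 4 * C1) * (W + ex) := by
        have h1 : 0 ≤ C2 * ex := by positivity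
        have h2 : 0 ≤ C1 * W := by positivity
        nlinarith

theorem norm_Xs_le {n : ℕ} [NeZero n] (hd : 1 ≤ d) {E : Type} [NormedAddCommGroup E]
    [NormedSpace ℝ E] (a : Fin 2 → Tor d n) (φ : Rec → E) {B : ℝ} (hφ : ∀ r, ‖φ r‖ ≤ B)
    (H s₁ e₀ s₀ : ℕ) : ‖Xs a φ H s₁ e₀ s₀‖ ≤ 4 * B := by
  have h1 : ∀ S, ‖fresh a φ H s₁ e₀ S‖ ≤ B := fun S => norm_fresh_le hd a φ hφ H s₁ e₀ S
  unfold Xs
  refine (norm_sum_le _ _).trans ?_
  calc _ ≤ ∑ _l : Fin 2, 2 * B := Finset.sum_le_sum fun l _ => by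
        refine (norm_sub_le _ _).trans ?_
        have h2 := norm_pv_le_of hd a (ψ := fun r => fresh a φ H s₁ e₀ (ins l (vis r)))
          (B := B) (fun r => h1 _) s₀ 0 rec0 (a l)
        have h3 := norm_pv_le_of hd a (ψ := fun r => fresh a φ H s₁ e₀ (vis r))
          (B := B) (fun r => h1 _) s₀ 0 rec0 (a l)
        linarith
    _ = 4 * B := by simp; ring

private theorem l5_fresh_add {n : ℕ} [NeZero n] {E : Type} [AddCommGroup E] [Module ℝ E]
    (a : Fin 2 → Tor d n) (φ ψ : Rec → E) (H s₁ e₀ : ℕ) (S : Fin 2 → Bool) :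
    fresh a (fun r => φ r + ψ r) H s₁ e₀ S = fresh a φ H s₁ e₀ S + fresh a ψ H s₁ e₀ S :=
  EP_add (H - s₁)
    (fun η (_ : Tor d n) => φ (cmb (early e₀ S) (shr s₁ (lrec a η 0 (H - s₁)))))
    (fun η _ => ψ (cmb (early e₀ S) (shr s₁ (lrec a η 0 (H - s₁)))))

private theorem l5_fresh_smul {n : ℕ} [NeZero n] {E : Type} [AddCommGroup E] [Module ℝ E]
    (a : Fin 2 → Tor d n) (c : ℝ) (φ : Rec → E) (H s₁ e₀ : ℕ) (S : Fin 2 → Bool) :
    fresh a (fun r => c • φ r) H s₁ e₀ S = c • fresh a φ H s₁ e₀ S :=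
  EP_smul (H - s₁) c
    (fun η (_ : Tor d n) => φ (cmb (early e₀ S) (shr s₁ (lrec a η 0 (H - s₁)))))

theorem Xs_add {n : ℕ} [NeZero n] {E : Type} [AddCommGroup E] [Module ℝ E]
    (a : Fin 2 → Tor d n) (φ ψ : Rec → E) (H s₁ e₀ s₀ : ℕ) :
    Xs a (fun r => φ r + ψ r) H s₁ e₀ s₀ = Xs a φ H s₁ e₀ s₀ + Xs a ψ H s₁ e₀ s₀ := by
  unfold Xs
  simp only [l5_fresh_add]
  rw [← Finset.sum_add_distrib]
  refine Finset.sum_congr rfl fun l _ => ?_
  rw [pv_add a (fun r => fresh a φ H s₁ e₀ (ins l (vis r)))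
      (fun r => fresh a ψ H s₁ e₀ (ins l (vis r))),
    pv_add a (fun r => fresh a φ H s₁ e₀ (vis r)) (fun r => fresh a ψ H s₁ e₀ (vis r))]
  abel

theorem Xs_smul {n : ℕ} [NeZero n] {E : Type} [AddCommGroup E] [Module ℝ E]
    (a : Fin 2 → Tor d n) (c : ℝ) (φ : Rec → E) (H s₁ e₀ s₀ : ℕ) :
    Xs a (fun r => c • φ r) H s₁ e₀ s₀ = c • Xs a φ H s₁ e₀ s₀ := by
  unfold Xs
  simp only [l5_fresh_smul]
  rw [Finset.smul_sum]
  refine Finset.sum_congr rfl fun l _ => ?_
  rw [pv_smul a c (fun r => fresh a φ H s₁ e₀ (ins l (vis r))),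
    pv_smul a c (fun r => fresh a φ H s₁ e₀ (vis r)), smul_sub]

end CRW
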