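import Pool.Agent.Lib.CRW.L6

/-!
# Module L7: evaluation of the response

`al` = probability that the walk started at a site of the pair does not return to the pair in `s₀` steps, `ga` = probability that the walk
started at `0` does not return to `0`, `be` = probability that the two sites get different marks.

PROOFS.  Let `q l S = pv a (fun ρ => if vis ρ = S then 1 else 0) s₀ 0 rec0 (a l)`; `pv a (fun ρ => G (vis ρ)) s₀ 0 rec0 (a l) = ∑ S, q l S * G S`.
`Xs a φ H s₁ e₀ s₀ = ∑ S, m S * fresh a φ H s₁ e₀ S` with `m S = ∑ l, (∑_{S' : ins l S' = S} q l S' - q l S)`.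
Reflection `z ↦ e_i - z` (`stp_neg`) maps the pair to itself and exchanges the sites: `q 1 S = q 0 (S ∘ swap)`
(`upd a t (e_i - b) (r ∘ swap) = (upd a t b r) ∘ swap`, induction).
With `al = q 0 ∅`, `a1 = q 0 {0}`, `a2 = q 0 {1}`, `a3 = q 0 {0,1}`, `al+a1+a2+a3 = 1`, `ga = al + a2`: `m ∅ = -2 al`, `m {0} = m {1} = al - a2 = 2 al - ga`,
`m {0,1} = 2 a2`.
`DD a f H s₁ s₀ = ∑ S, ∑ S', m S * m S' * F S S'`, `F S S' = ER H' ER H' f (cmb (early 0 S) (shr s₁ ρ)) (cmb (early 1 S') (shr s₁ ρ'))`, `ρ, ρ'` the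
records of two independent fresh walks, `H' = H - s₁` (`kap` changes nothing because `1 < s₁`).
Values for `fA` (`cw` at the site `0`): `1` if `0 ∈ S`; `0` if `0 ∉ S`, `0 ∈ S'`; `1/2` otherwise (`cw x y + cw y x = 1`, `ER_comm`; `cw` is invariant under a
common shift).  So `DD = (∑_{S ∋ 0} m)·0 + (-ga)(1/2)(-ga) = ga²/2` (`∑ m = 0`, `m {0} + m {0,1} = ga`).
Values for `fB`: `S = {0,1}`: `0`; `S = {l}`: `1` if `S'` contains the other site, else `1/2`; `S = ∅`: `S' = {l}`: `1/2`, `S' = {0,1}`: `0`, `S' = ∅`: `be`.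
With `u = m {0}`: `DD = 3u² + 4 a2 u - 4 al u + 4 al² be = 4 al² be - u²`.
-/

open Finset

namespace CRW

variable {d : ℕ}

noncomputable def al {n : ℕ} [NeZero n] (i : Fin d) (s₀ : ℕ) : ℝ :=
  pv (st (n := n) i) (fun ρ => if vis ρ = (fun _ => false) then (1 : ℝ) else 0) s₀ 0 rec0 0

noncomputable def ga {n : ℕ} [NeZero n] (i : Fin d) (s₀ : ℕ) : ℝ :=
  pv (st (n := n) i) (fun ρ => if vis ρ 0 = false then (1 : ℝ) else 0) s₀ 0 rec0 0

noncomputable def be {n : ℕ} [NeZero n] (i : Fin d) (H : ℕ) : ℝ :=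
  ER H fun η : ℕ → Tor d n => ER H fun η' : ℕ → Tor d n =>
    fB (lrec (st i) η 0 H) (lrec (st i) η' 0 H)

theorem al_le_ga {n : ℕ} [NeZero n] (hd : 1 ≤ d) (i : Fin d) (s₀ : ℕ) :
    0 ≤ al (n := n) i s₀ ∧ al (n := n) i s₀ ≤ ga (n := n) i s₀ ∧ ga (n := n) i s₀ ≤ 1 := by
  refine ⟨?_, ?_, ?_⟩
  · refine pv_nonneg _ (fun r => ?_) _ _ _ _
    split_ifs <;> norm_num
  · refine pv_mono _ (fun r => ?_) _ _ _ _
    by_cases h : vis r = fun _ => false
    · rw [if_pos h, if_pos (by rw [h])]
    · rw [if_neg h]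
      split_ifs <;> norm_num
  · have h1 := pv_const (st (n := n) i) hd (1 : ℝ) s₀ 0 rec0 (0 : Tor d n)
    rw [← h1]
    refine pv_mono _ (fun r => ?_) _ _ _ _
    split_ifs <;> norm_num

private theorem ER_const' {n : ℕ} [NeZero n] (hd : 1 ≤ d) (t : ℕ) (c : ℝ) :
    ER t (fun _ : ℕ → Tor d n => c) = c := EP_const hd t c

private theorem ER_mono' {n : ℕ} [NeZero n] (t : ℕ) (F G : (ℕ → Tor d n) → ℝ)
    (h : ∀ η, F η ≤ G η) : ER t F ≤ ER t G := EP_mono t _ _ fun η _ => h η

private theorem ER_add' {n : ℕ} [NeZero n] (t : ℕ) (F G : (ℕ → Tor d n) → ℝ) :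
    ER t (fun η => F η + G η) = ER t F + ER t G := EP_add t (fun η _ => F η) (fun η _ => G η)

private theorem ER_mul' {n : ℕ} [NeZero n] (t : ℕ) (c : ℝ) (F : (ℕ → Tor d n) → ℝ) :
    ER t (fun η => c * F η) = c * ER t F := EP_smul t c (fun η _ => F η)

private theorem ER_sub' {n : ℕ} [NeZero n] (t : ℕ) (F G : (ℕ → Tor d n) → ℝ) :
    ER t (fun η => F η - G η) = ER t F - ER t G := EP_sub t (fun η _ => F η) (fun η _ => G η)

theorem be_mem {n : ℕ} [NeZero n] (hd : 1 ≤ d) (i : Fin d) (H : ℕ) :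
    0 ≤ be (n := n) i H ∧ be (n := n) i H ≤ 1 := by
  unfold be
  constructor
  · rw [← ER_const' (n := n) hd H 0]
    refine ER_mono' _ _ _ fun η => ?_
    rw [← ER_const' (n := n) hd H 0]
    exact ER_mono' _ _ _ fun η' => (fB_mem _ _).1
  · rw [← ER_const' (n := n) hd H 1]
    refine ER_mono' _ _ _ fun η => ?_
    refine le_trans (ER_mono' _ _ _ fun η' => (fB_mem _ _).2) ?_
    rw [ER_const' hd]

/-! ### The reflection of the pair -/

private theorem st_rev {n : ℕ} (i : Fin d) (j : Fin 2) :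
    st (n := n) i (Fin.rev j) = Pi.single i 1 - st i j := by
  fin_cases j <;> simp [st]

private theorem upd_rev {n : ℕ} (i : Fin d) (t : ℕ) (b : Tor d n) (r : Rec) :
    upd (st i) t (Pi.single i 1 - b) (fun j => r (Fin.rev j)) =
      fun j => upd (st i) t b r (Fin.rev j) := by
  funext j
  unfold upd
  have h : (Pi.single i 1 - b = st (n := n) i j) ↔ (b = st i (Fin.rev j)) := by
    rw [st_rev]
    constructor
    · intro h; rw [← h]; abel
    · intro h; rw [h]; abel
  simp only [h]

private theorem pv_rev {n : ℕ} [NeZero n] (i : Fin d) (ψ : Rec → ℝ) (k : ℕ) :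
    ∀ (t : ℕ) (r : Rec) (b : Tor d n),
      pv (st i) ψ k t (fun j => r (Fin.rev j)) (Pi.single i 1 - b) =
        pv (st i) (fun ρ => ψ fun j => ρ (Fin.rev j)) k t r b := by
  induction k with
  | zero => intro t r b; rfl
  | succ k ih =>
    intro t r b
    show ∑ w, stp d n w • pv (st i) ψ k (t + 1)
        (upd (st i) (t + 1) (Pi.single i 1 - b + w) (fun j => r (Fin.rev j)))
        (Pi.single i 1 - b + w) =
      ∑ w, stp d n w • pv (st i) (fun ρ => ψ fun j => ρ (Fin.rev j)) k (t + 1)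
        (upd (st i) (t + 1) (b + w) r) (b + w)
    rw [← Equiv.sum_comp (Equiv.neg (Tor d n))]
    refine Finset.sum_congr rfl fun w _ => ?_
    rw [Equiv.neg_apply, stp_neg,
      show (Pi.single i 1 - b + -w : Tor d n) = Pi.single i 1 - (b + w) by abel, upd_rev, ih]

/-! ### The expansion of `Xs` -/

private theorem pv_four {n : ℕ} [NeZero n] (a : Fin 2 → Tor d n) (G : (Fin 2 → Bool) → ℝ)
    (k t : ℕ) (r : Rec) (b : Tor d n) :
    pv a (fun ρ => G (vis ρ)) k t r b =
      ∑ S : Fin 2 → Bool, G S * pv a (fun ρ => if vis ρ = S then (1 : ℝ) else 0) k t r b := by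
  have h1 := pv_map (d := d) (n := n) (E := (Fin 2 → Bool) → ℝ) (E' := ℝ)
    (∑ S : Fin 2 → Bool, G S • (LinearMap.proj S : ((Fin 2 → Bool) → ℝ) →ₗ[ℝ] ℝ)) a
    (fun ρ => fun S => if vis ρ = S then (1 : ℝ) else 0) k t r b
  have h2 : ∀ S : Fin 2 → Bool, pv a (fun ρ => if vis ρ = S then (1 : ℝ) else 0) k t r b =
      (pv a (fun ρ => fun S => if vis ρ = S then (1 : ℝ) else 0) k t r b : (Fin 2 → Bool) → ℝ) S :=
    fun S => pv_map (d := d) (n := n) (E := (Fin 2 → Bool) → ℝ) (E' := ℝ)
      (LinearMap.proj S) a (fun ρ => fun S => if vis ρ = S then (1 : ℝ) else 0) k t r b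
  have h3 : (fun ρ => G (vis ρ)) = fun ρ : Rec =>
      (∑ S : Fin 2 → Bool, G S • (LinearMap.proj S : ((Fin 2 → Bool) → ℝ) →ₗ[ℝ] ℝ))
        (fun S => if vis ρ = S then (1 : ℝ) else 0) := by
    funext ρ
    simp [LinearMap.sum_apply]
  rw [h3, h1]
  simp only [LinearMap.sum_apply, LinearMap.smul_apply, LinearMap.proj_apply, smul_eq_mul, h2]

private theorem sum_sets (f : (Fin 2 → Bool) → ℝ) :
    ∑ S, f S = f ![false, false] + f ![true, false] + f ![false, true] + f ![true, true] := by
  have h : (Finset.univ : Finset (Fin 2 → Bool)) =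
      {![false, false], ![true, false], ![false, true], ![true, true]} := by decide
  rw [h, Finset.sum_insert (by decide), Finset.sum_insert (by decide),
    Finset.sum_insert (by decide), Finset.sum_singleton]
  ring

private theorem pv_rev_set {n : ℕ} [NeZero n] (i : Fin d) (s₀ : ℕ) (S S' : Fin 2 → Bool)
    (h : ∀ j, S' j = S (Fin.rev j)) :
    pv (st (n := n) i) (fun ρ => if vis ρ = S then (1 : ℝ) else 0) s₀ 0 rec0 (st i 1) =
      pv (st (n := n) i) (fun ρ => if vis ρ = S' then (1 : ℝ) else 0) s₀ 0 rec0 0 := by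
  have h1 := pv_rev (n := n) i (fun ρ => if vis ρ = S then (1 : ℝ) else 0) s₀ 0 rec0 0
  have h2 : (Pi.single i 1 - 0 : Tor d n) = st i 1 := by simp [st]
  rw [h2] at h1
  rw [show (rec0 : Rec) = fun j => rec0 (Fin.rev j) from rfl, h1]
  congr 1
  funext ρ
  refine if_congr ?_ rfl rfl
  constructor
  · intro hS
    funext j
    rw [h, ← hS]
    simp [vis]
  · intro hS
    funext j
    have h3 := congrFun hS (Fin.rev j)
    rw [h, Fin.rev_rev] at h3
    rw [← h3]
    rfl

private theorem Xs_eq {n : ℕ} [NeZero n] (i : Fin d) (φ : Rec → ℝ) (H s₁ e₀ s₀ : ℕ) :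
    Xs (st (n := n) i) φ H s₁ e₀ s₀ =
      -2 * al (n := n) i s₀ * fresh (st (n := n) i) φ H s₁ e₀ ![false, false] +
      (2 * al (n := n) i s₀ - ga (n := n) i s₀) *
        (fresh (st (n := n) i) φ H s₁ e₀ ![true, false] +
          fresh (st (n := n) i) φ H s₁ e₀ ![false, true]) +
      2 * (ga (n := n) i s₀ - al (n := n) i s₀) *
        fresh (st (n := n) i) φ H s₁ e₀ ![true, true] := by
  set Φ := fresh (st (n := n) i) φ H s₁ e₀ with hΦ
  set q : (Fin 2 → Bool) → ℝ := fun S =>
    pv (st (n := n) i) (fun ρ => if vis ρ = S then (1 : ℝ) else 0) s₀ 0 rec0 0 with hq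
  have hal : al (n := n) i s₀ = q ![false, false] := by
    rw [hq]
    simp only
    unfold al
    congr 1
    funext ρ
    refine if_congr ?_ rfl rfl
    rw [show (![false, false] : Fin 2 → Bool) = fun _ => false by
      funext j; fin_cases j <;> rfl]
  have hga : ga (n := n) i s₀ = q ![false, false] + q ![false, true] := by
    unfold ga
    have h1 := pv_four (st (n := n) i) (fun S => if S 0 = false then (1 : ℝ) else 0) s₀ 0 rec0 0
    rw [h1, sum_sets]
    simp [hq]
  have hst0 : st (n := n) i 0 = 0 := by simp [st]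
  have h0 : ∀ G : (Fin 2 → Bool) → ℝ, pv (st (n := n) i) (fun r => G (vis r)) s₀ 0 rec0 (st i 0) =
      G ![false, false] * q ![false, false] + G ![true, false] * q ![true, false] +
        G ![false, true] * q ![false, true] + G ![true, true] * q ![true, true] := by
    intro G
    rw [pv_four, sum_sets, hst0]
  have h1 : ∀ G : (Fin 2 → Bool) → ℝ, pv (st (n := n) i) (fun r => G (vis r)) s₀ 0 rec0 (st i 1) =
      G ![false, false] * q ![false, false] + G ![true, false] * q ![false, true] +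
        G ![false, true] * q ![true, false] + G ![true, true] * q ![true, true] := by
    intro G
    rw [pv_four, sum_sets,
      pv_rev_set i s₀ ![false, false] ![false, false] (by intro j; fin_cases j <;> rfl),
      pv_rev_set i s₀ ![true, false] ![false, true] (by intro j; fin_cases j <;> rfl),
      pv_rev_set i s₀ ![false, true] ![true, false] (by intro j; fin_cases j <;> rfl),
      pv_rev_set i s₀ ![true, true] ![true, true] (by intro j; fin_cases j <;> rfl)]
  have i1 : ins 0 ![false, false] = ![true, false] := by funext j; fin_cases j <;> rfl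
  have i2 : ins 0 ![true, false] = ![true, false] := by funext j; fin_cases j <;> rfl
  have i3 : ins 0 ![false, true] = ![true, true] := by funext j; fin_cases j <;> rfl
  have i4 : ins 0 ![true, true] = ![true, true] := by funext j; fin_cases j <;> rfl
  have j1 : ins 1 ![false, false] = ![false, true] := by funext j; fin_cases j <;> rfl
  have j2 : ins 1 ![true, false] = ![true, true] := by funext j; fin_cases j <;> rfl
  have j3 : ins 1 ![false, true] = ![false, true] := by funext j; fin_cases j <;> rfl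
  have j4 : ins 1 ![true, true] = ![true, true] := by funext j; fin_cases j <;> rfl
  have e1 := h0 (fun S => Φ (ins 0 S))
  have e2 := h0 Φ
  have e3 := h1 (fun S => Φ (ins 1 S))
  have e4 := h1 Φ
  simp only [i1, i2, i3, i4] at e1
  simp only [j1, j2, j3, j4] at e3
  unfold Xs
  rw [Fin.sum_univ_two, ← hΦ, e1, e2, e3, e4, hal, hga]
  ring

/-! ### Values of `cw` -/

private theorem cw_comm (x y : Option ℕ) : cw x y + cw y x = 1 := by
  rcases x with _ | x <;> rcases y with _ | y <;> simp only [cw] <;> try norm_num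
  rcases lt_trichotomy x y with h | h | h
  · rw [if_pos h, if_neg (by omega), if_pos h]; norm_num
  · subst h; simp; norm_num
  · rw [if_neg (by omega), if_pos h, if_pos h]; norm_num

private theorem cw_shift (s : ℕ) (x y : Option ℕ) :
    cw (x.map (· + s)) (y.map (· + s)) = cw x y := by
  rcases x with _ | x <;> rcases y with _ | y <;> simp [cw]

private theorem cw_zero (s : ℕ) (hs : 1 ≤ s) (y : Option ℕ) :
    cw (some 0) (y.map (· + s)) = 1 := by
  rcases y with _ | y
  · simp [cw]
  · simp only [Option.map_some, cw]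
    rw [if_pos (by omega)]

private theorem cw_zero_one : cw (some 0) (some 1) = 1 := by simp [cw]

private theorem cw_one (s : ℕ) (hs : 2 ≤ s) (x : Option ℕ) :
    cw (x.map (· + s)) (some 1) = 0 := by
  rcases x with _ | x
  · simp [cw]
  · simp only [Option.map_some, cw]
    rw [if_neg (by omega), if_pos (by omega)]

private theorem cmb_early (e₀ s : ℕ) (S : Fin 2 → Bool) (ρ : Rec) (j : Fin 2) :
    cmb (early e₀ S) (shr s ρ) j = if S j then some e₀ else (ρ j).map (· + s) := by
  unfold cmb early shr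
  by_cases h : S j = true
  · simp [h]
  · simp [h]

private theorem kap_cmb (s₁ e₀ : ℕ) (_he : e₀ < s₁) (S : Fin 2 → Bool) (ρ : Rec) :
    kap s₁ e₀ (cmb (early e₀ S) (shr s₁ ρ)) = cmb (early e₀ S) (shr s₁ ρ) := by
  funext j
  unfold kap
  rw [cmb_early]
  by_cases h : S j = true
  · simp [h]
  · rcases hρ : ρ j with _ | x
    · simp [h]
    · simp [h]

/-! ### Expectations -/

private theorem half {n : ℕ} [NeZero n] (hd : 1 ≤ d) (a : Fin 2 → Tor d n) (H : ℕ) (j : Fin 2) :
    ER H (fun η : ℕ → Tor d n => ER H fun η' : ℕ → Tor d n =>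
      cw (lrec a η 0 H j) (lrec a η' 0 H j)) = 1 / 2 := by
  have h1 := ER_comm (d := d) (n := n) (E := ℝ) H H
    (fun η η' => cw (lrec a η 0 H j) (lrec a η' 0 H j))
  have h2 : ER H (fun η : ℕ → Tor d n => ER H fun η' : ℕ → Tor d n =>
      cw (lrec a η 0 H j) (lrec a η' 0 H j)) + ER H (fun η : ℕ → Tor d n =>
        ER H fun η' : ℕ → Tor d n => cw (lrec a η' 0 H j) (lrec a η 0 H j)) = 1 := by
    rw [← ER_add']
    simp only [← ER_add', cw_comm, ER_const' hd]
  have h3 : ER H (fun η : ℕ → Tor d n => ER H fun η' : ℕ → Tor d n =>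
      cw (lrec a η 0 H j) (lrec a η' 0 H j)) = ER H (fun η : ℕ → Tor d n =>
        ER H fun η' : ℕ → Tor d n => cw (lrec a η' 0 H j) (lrec a η 0 H j)) := h1
  linarith

private theorem half' {n : ℕ} [NeZero n] (hd : 1 ≤ d) (a : Fin 2 → Tor d n) (H : ℕ) (j : Fin 2) :
    ER H (fun η : ℕ → Tor d n => ER H fun η' : ℕ → Tor d n =>
      (1 - cw (lrec a η 0 H j) (lrec a η' 0 H j))) = 1 / 2 := by
  have h1 := half hd a H j
  simp only [ER_sub', ER_const' hd]
  rw [h1]
  norm_num

/-- the value of `f` at the records with early visits `S`, `S'` -/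
private noncomputable def FF {n : ℕ} [NeZero n] (a : Fin 2 → Tor d n) (f : Rec → Rec → ℝ)
    (H' s₁ : ℕ) (S S' : Fin 2 → Bool) : ℝ :=
  ER H' fun η : ℕ → Tor d n => ER H' fun η' : ℕ → Tor d n =>
    f (cmb (early 0 S) (shr s₁ (lrec a η 0 H'))) (cmb (early 1 S') (shr s₁ (lrec a η' 0 H')))

private theorem DD_eq {n : ℕ} [NeZero n] (i : Fin d) (f : Rec → Rec → ℝ) (H s₁ s₀ : ℕ)
    (h1 : 2 ≤ s₁) (A G : ℝ) (hA : A = al (n := n) i s₀) (hG : G = ga (n := n) i s₀)
    (F : (Fin 2 → Bool) → (Fin 2 → Bool) → ℝ) (hF : F = FF (st (n := n) i) f (H - s₁) s₁) :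
    DD (st (n := n) i) f H s₁ s₀ =
      -2 * A * (-2 * A * F ![false, false] ![false, false] +
        (2 * A - G) * (F ![false, false] ![true, false] + F ![false, false] ![false, true]) +
        2 * (G - A) * F ![false, false] ![true, true]) +
      (2 * A - G) * ((-2 * A * F ![true, false] ![false, false] +
        (2 * A - G) * (F ![true, false] ![true, false] + F ![true, false] ![false, true]) +
        2 * (G - A) * F ![true, false] ![true, true]) +
        (-2 * A * F ![false, true] ![false, false] +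
        (2 * A - G) * (F ![false, true] ![true, false] + F ![false, true] ![false, true]) +
        2 * (G - A) * F ![false, true] ![true, true])) +
      2 * (G - A) * (-2 * A * F ![true, true] ![false, false] +
        (2 * A - G) * (F ![true, true] ![true, false] + F ![true, true] ![false, true]) +
        2 * (G - A) * F ![true, true] ![true, true]) := by
  have hfr : ∀ S : Fin 2 → Bool, fresh (st (n := n) i)
      (fun r => Xs (st (n := n) i) (fun r' => f (kap s₁ 0 r) (kap s₁ 1 r')) H s₁ 1 s₀) H s₁ 0 S =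
      -2 * A * F S ![false, false] + (2 * A - G) * (F S ![true, false] + F S ![false, true]) +
        2 * (G - A) * F S ![true, true] := by
    intro S
    unfold fresh
    simp only [Xs_eq, ← hA, ← hG]
    unfold fresh
    simp only [kap_cmb s₁ 0 (by omega), kap_cmb s₁ 1 (by omega)]
    rw [ER_add', ER_add', ER_mul', ER_mul', ER_mul', ER_add', hF]
    rfl
  unfold DD
  rw [Xs_eq, hfr, hfr, hfr, hfr, ← hA, ← hG]

theorem DD_fA {n : ℕ} [NeZero n] (hd : 1 ≤ d) (hn : 3 ≤ n) (i : Fin d) (H s₁ s₀ : ℕ)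
    (h1 : 2 ≤ s₁) (hH : s₁ < H) :
    DD (st (n := n) i) fA H s₁ s₀ = ga (n := n) i s₀ ^ 2 / 2 := by
  rw [DD_eq i fA H s₁ s₀ h1 _ _ rfl rfl _ rfl]
  have hv : ∀ S S' : Fin 2 → Bool, FF (st (n := n) i) fA (H - s₁) s₁ S S' =
      if S 0 then 1 else if S' 0 then 0 else 1 / 2 := by
    intro S S'
    unfold FF fA
    simp only [cmb_early]
    by_cases hS : S 0 = true
    · simp only [hS, if_true]
      by_cases hS' : S' 0 = true
      · simp only [hS', if_true, cw_zero_one, ER_const' hd]
      · simp only [Bool.not_eq_true] at hS'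
        simp only [hS', Bool.false_eq_true, if_false, cw_zero s₁ (by omega), ER_const' hd]
    · simp only [Bool.not_eq_true] at hS
      simp only [hS, Bool.false_eq_true, if_false]
      by_cases hS' : S' 0 = true
      · simp only [hS', if_true, cw_one s₁ h1, ER_const' hd]
      · simp only [Bool.not_eq_true] at hS'
        simp only [hS', Bool.false_eq_true, if_false, cw_shift]
        exact half hd _ _ _
  simp only [hv]
  simp
  ring

theorem DD_fB {n : ℕ} [NeZero n] (hd : 1 ≤ d) (hn : 3 ≤ n) (i : Fin d) (H s₁ s₀ : ℕ)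
    (h1 : 2 ≤ s₁) (hH : s₁ < H) :
    DD (st (n := n) i) fB H s₁ s₀ = 4 * al (n := n) i s₀ ^ 2 * be (n := n) i (H - s₁) -
      (2 * al (n := n) i s₀ - ga (n := n) i s₀) ^ 2 := by
  rw [DD_eq i fB H s₁ s₀ h1 _ _ rfl rfl _ rfl]
  have b0 : s₁ ≥ 1 := by omega
  have v11 : ∀ S' : Fin 2 → Bool, FF (st (n := n) i) fB (H - s₁) s₁ ![true, true] S' = 0 := by
    intro S'
    unfold FF fB
    simp only [cmb_early]
    rcases h0 : S' 0 <;> rcases h1' : S' 1 <;>
      simp [cw_zero s₁ b0, cw_zero_one, ER_const' hd]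
  have v10 : ∀ S' : Fin 2 → Bool, FF (st (n := n) i) fB (H - s₁) s₁ ![true, false] S' =
      if S' 1 then 1 else 1 / 2 := by
    intro S'
    unfold FF fB
    simp only [cmb_early]
    rcases h0 : S' 0 <;> rcases h1' : S' 1 <;>
      simp [cw_zero s₁ b0, cw_zero_one, cw_one s₁ h1, cw_shift, ER_const' hd]
    all_goals
      have h2 := half' hd (st (n := n) i) (H - s₁) 1
      rw [h2]; norm_num
  have v01 : ∀ S' : Fin 2 → Bool, FF (st (n := n) i) fB (H - s₁) s₁ ![false, true] S' =
      if S' 0 then 1 else 1 / 2 := by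
    intro S'
    unfold FF fB
    simp only [cmb_early]
    rcases h0 : S' 0 <;> rcases h1' : S' 1 <;>
      simp [cw_zero s₁ b0, cw_zero_one, cw_one s₁ h1, cw_shift, ER_const' hd]
    all_goals
      have h2 := half' hd (st (n := n) i) (H - s₁) 0
      rw [h2]; norm_num
  have w00 : FF (st (n := n) i) fB (H - s₁) s₁ ![false, false] ![false, false] =
      be (n := n) i (H - s₁) := by
    unfold FF fB be fB
    simp only [cmb_early]
    simp [cw_shift]
  have w10 : FF (st (n := n) i) fB (H - s₁) s₁ ![false, false] ![true, false] = 1 / 2 := by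
    unfold FF fB
    simp only [cmb_early]
    simp [cw_one s₁ h1, cw_shift]
    have h2 := half hd (st (n := n) i) (H - s₁) 1
    rw [h2]; norm_num
  have w01 : FF (st (n := n) i) fB (H - s₁) s₁ ![false, false] ![false, true] = 1 / 2 := by
    unfold FF fB
    simp only [cmb_early]
    simp [cw_one s₁ h1, cw_shift]
    have h2 := half hd (st (n := n) i) (H - s₁) 0
    rw [h2]; norm_num
  have w11 : FF (st (n := n) i) fB (H - s₁) s₁ ![false, false] ![true, true] = 0 := by
    unfold FF fB
    simp only [cmb_early]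
    simp [cw_one s₁ h1, ER_const' hd]
  simp only [v11, v10, v01, w00, w10, w01, w11]
  simp
  ring

/-- the response of one walk only -/
theorem Xs_fB {n : ℕ} [NeZero n] (hd : 1 ≤ d) (hn : 3 ≤ n) (i : Fin d) (H s₁ s₀ : ℕ)
    (h1 : 2 ≤ s₁) (hH : s₁ < H) :
    Xs (st (n := n) i) (fun r => ER (H - s₁) fun η' : ℕ → Tor d n =>
      fB r (shr s₁ (lrec (st i) η' 0 (H - s₁)))) H s₁ 0 s₀ =
      (2 * al (n := n) i s₀ - ga (n := n) i s₀) - 2 * al (n := n) i s₀ * be (n := n) i (H - s₁) := by
  rw [Xs_eq]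
  have b0 : s₁ ≥ 1 := by omega
  unfold fresh fB be fB
  simp only [cmb_early, shr]
  simp [cw_zero s₁ b0, cw_shift, ER_const' hd]
  have h2 := half' hd (st (n := n) i) (H - s₁) 1
  have h3 := half' hd (st (n := n) i) (H - s₁) 0
  rw [h2, h3]
  ring

end CRW
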