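import Pool.Agent.Lib.CRW.LR
import Pool.Agent.Lib.CRW.L7

/-!
# Module L9: (GREEN) lower bounds for `al` and `2 al - ga`

PROOF.  Write `α k = al i k`, `γ k = ga i k`, `p s = hk s 0`, `q s = hk s e_i`.
(1) Both are nonincreasing in `k`, and between `0` and `1` (more steps, more visits: `pv_succ`/induction, or `pv_steps` with `pv_mono`).
(2) `1 = ∑_{s ≤ k} (p s + q s) α (k-s)`: `val_charge` for `ψ ρ = 1{vis ρ = ∅}`, `t = 0`, `r = rec0`, `b = 0`: the left side is `0` (the visit at time `0` is recorded: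
`vis` is never empty again), `ψ rec0 = 1`, and `chg (k-s) s rec0 j = 0 - pv ψ (k-s) s rec0 (a j) = -α (k-s)` (`pv_vis` for the time `s`, `pv_swap` for `j = 1`);
`hk s (0 - a 0) = p s`, `hk s (0 - a 1) = hk s (-e_i) = q s` (`hk_neg`).
(3) `1 = ∑_{s ≤ k} p s γ (k-s)`: the same with `ψ ρ = 1{vis ρ 0 = false}`; the charge at the site `1` is `0` (recording a visit at `e_i` changes nothing).
Let `G = ∑_{s ≤ s₀} p s`, `H = ∑_{s ≤ s₀} q s`; `1 ≤ G ≤ C`, `0 ≤ H ≤ C` (`hb.green`, `s₀ ≤ n^2`, `rho ≥ 1`; `p 0 = 1`).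
`τ = ∑_{s₀ < s ≤ 2 s₀} (p s + q s) ≤ 2 C' (1/√s₀ + s₀/NN)` (`hk_tail`) is small: `s₀ ≤ n^2/2`, `NN ≥ n^3`.
(4) (2) with `k = 2 s₀`: `1 ≤ (G + H) α s₀ + τ`; so `α s₀ ≥ (1 - τ)/(G+H)`.
(5) (3) with `k = s₀`: `1 ≥ G γ s₀`.
(6) `G - H = 2 (1 - hk (s₀+1) 0) ≥ 1` (`hk_single`: `q s = 2 p (s+1) - p s`, telescoping; `hb.diag` at `s₀ + 1`).
(7) `2α - γ ≥ (G - H - 2τG)/(G(G+H)) ≥ (1 - 2τC)/(2C²) ≥ 1/(4C²)`, `α ≥ 1/(4C)`.  Take `c = 1/(4C²)`, `S0`, `n0` with `τ ≤ 1/(4C)` and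
`hk (s₀+1) 0 ≤ 1/2`.
-/

open Finset

namespace CRW

variable {d : ℕ}

/-- indicator that nothing is visited -/
private noncomputable def Ga (S : Fin 2 → Bool) : ℝ := if S = (fun _ => false) then (1 : ℝ) else 0

/-- indicator that the first site is not visited -/
private noncomputable def Gg (S : Fin 2 → Bool) : ℝ := if S 0 = false then (1 : ℝ) else 0

private theorem al_eq {n : ℕ} [NeZero n] (i : Fin d) (k : ℕ) :
    al (n := n) i k = pv (st (n := n) i) (fun ρ => Ga (vis ρ)) k 0 rec0 0 := rfl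

private theorem ga_eq {n : ℕ} [NeZero n] (i : Fin d) (k : ℕ) :
    ga (n := n) i k = pv (st (n := n) i) (fun ρ => Gg (vis ρ)) k 0 rec0 0 := rfl

private theorem Ga_anti (S T : Fin 2 → Bool) : Ga (fun j => S j || T j) ≤ Ga S := by
  unfold Ga
  by_cases h : S = fun _ => false
  · rw [if_pos h]
    split_ifs <;> norm_num
  · rw [if_neg h, if_neg]
    intro h2
    apply h
    funext j
    have := congrFun h2 j
    simp only [Bool.or_eq_false_iff] at this
    exact this.1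

private theorem Gg_anti (S T : Fin 2 → Bool) : Gg (fun j => S j || T j) ≤ Gg S := by
  unfold Gg
  by_cases h : S 0 = false
  · rw [if_pos h]
    split_ifs <;> norm_num
  · rw [if_neg h, if_neg]
    intro h2
    apply h
    simp only [Bool.or_eq_false_iff] at h2
    exact h2.1

private theorem pv_le_self {n : ℕ} [NeZero n] (hd : 1 ≤ d) (a : Fin 2 → Tor d n)
    (G : (Fin 2 → Bool) → ℝ) (hG : ∀ S T : Fin 2 → Bool, G (fun j => S j || T j) ≤ G S) (k t : ℕ) (r : Rec)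
    (b : Tor d n) : pv a (fun ρ => G (vis ρ)) k t r b ≤ G (vis r) := by
  rw [pv_vis a G k t t r b, ← pv_const a hd (G (vis r)) k t rec0 b]
  exact pv_mono a (fun ρ => hG _ _) k t rec0 b

private theorem pv_anti {n : ℕ} [NeZero n] (hd : 1 ≤ d) (a : Fin 2 → Tor d n)
    (G : (Fin 2 → Bool) → ℝ) (hG : ∀ S T : Fin 2 → Bool, G (fun j => S j || T j) ≤ G S) {k k' : ℕ}
    (hk : k ≤ k') (t : ℕ) (r : Rec) (b : Tor d n) :
    pv a (fun ρ => G (vis ρ)) k' t r b ≤ pv a (fun ρ => G (vis ρ)) k t r b := by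
  obtain ⟨m, rfl⟩ := Nat.exists_eq_add_of_le hk
  rw [pv_steps a _ k m t r b, ← pvx_rec a (fun ρ => G (vis ρ)) k t r b]
  exact pvx_mono a (fun ρ b' => pv_le_self hd a G hG m (t + k) ρ b') k t r b

private theorem pv_shift {n : ℕ} [NeZero n] (a : Fin 2 → Tor d n)
    (G : (Fin 2 → Bool) → ℝ) (k t : ℕ) (b : Tor d n) :
    pv a (fun ρ => G (vis ρ)) k t rec0 b = pv a (fun ρ => G (vis ρ)) k 0 rec0 b := by
  rw [pv_vis a G k t 0 rec0 b]
  congr 1

private theorem pv_kill {n : ℕ} [NeZero n] (hd : 1 ≤ d) (a : Fin 2 → Tor d n)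
    (G : (Fin 2 → Bool) → ℝ) (k t : ℕ) (r : Rec) (b : Tor d n)
    (hG : ∀ T : Fin 2 → Bool, G (fun j => vis r j || T j) = 0) : pv a (fun ρ => G (vis ρ)) k t r b = 0 := by
  rw [pv_vis a G k t t r b]
  have h1 : (fun ρ : Rec => G fun j => vis r j || vis ρ j) = fun _ => 0 := by
    funext ρ
    exact hG _
  rw [h1]
  exact pv_const a hd 0 k t rec0 b

private theorem vis_upd {n : ℕ} (a : Fin 2 → Tor d n) (t : ℕ) (b : Tor d n) (j : Fin 2) :
    vis (upd a t b rec0) j = decide (b = a j) := by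
  show ((none : Option ℕ).orElse fun _ => if b = a j then some t else none).isSome = _
  by_cases h : b = a j <;> simp [h]

/-- renewal equation for `al` -/
private theorem renew_al {n : ℕ} [NeZero n] (hd : 1 ≤ d) (hn : 3 ≤ n) (i : Fin d) (k : ℕ) :
    (1 : ℝ) = ∑ s ∈ range (k + 1), (hk d n s 0 + hk d n s (Pi.single i 1)) *
      al (n := n) i (k - s) := by
  have ha : st (n := n) i 0 ≠ st i 1 := st_ne hn i
  have h := val_charge ha hd (fun ρ => Ga (vis ρ)) k 0 rec0 0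
  have h0 : val (st (n := n) i) (fun ρ => Ga (vis ρ)) k 0 rec0 0 = 0 := by
    refine pv_kill hd _ Ga k 0 _ 0 fun T => ?_
    unfold Ga
    rw [if_neg]
    intro h2
    have := congrFun h2 0
    rw [vis_upd] at this
    simp [st] at this
  have h1 : Ga (vis rec0) = 1 := by
    unfold Ga
    rw [if_pos]
    rfl
  have h2 : ∀ s j, chg (st (n := n) i) (fun ρ => Ga (vis ρ)) (k - s) (0 + s) rec0 j =
      -al (n := n) i (k - s) := by
    intro s j
    unfold chg
    have e1 : pv (st (n := n) i) (fun ρ => Ga (vis ρ)) (k - s) (0 + s)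
        (upd (st (n := n) i) (0 + s) (st i j) rec0) (st i j) = 0 := by
      refine pv_kill hd _ Ga _ _ _ _ fun T => ?_
      unfold Ga
      rw [if_neg]
      intro h2
      have := congrFun h2 j
      rw [vis_upd] at this
      simp at this
    rw [e1, pv_shift, zero_sub, al_eq]
    congr 1
    have hj : j = 0 ∨ j = 1 := by omega
    rcases hj with rfl | rfl
    · rfl
    · have e2 : st (n := n) i 1 = Pi.single i 1 := rfl
      rw [e2, pv_swap i Ga]
      congr 1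
      funext ρ
      unfold Ga
      have e3 : ((fun j => vis ρ (Fin.rev j)) = fun _ => false) ↔ (vis ρ = fun _ => false) := by
        constructor
        · intro h3
          funext j
          have := congrFun h3 (Fin.rev j)
          simpa using this
        · intro h3
          funext j
          rw [h3]
      simp only [e3]
  rw [h0, h1] at h
  have h3 : ∀ s ∈ range (k + 1), ∑ j, hk d n s (0 - st (n := n) i j) •
      chg (st (n := n) i) (fun ρ => Ga (vis ρ)) (k - s) (0 + s) rec0 j =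
      -((hk d n s 0 + hk d n s (Pi.single i 1)) * al (n := n) i (k - s)) := by
    intro s _
    rw [Fin.sum_univ_two, h2, h2]
    have e4 : (0 : Tor d n) - st i 0 = 0 := by simp [st]
    have e5 : (0 : Tor d n) - st i 1 = -Pi.single i 1 := by simp [st]
    rw [e4, e5, hk_neg, smul_eq_mul, smul_eq_mul]
    ring
  rw [Finset.sum_congr rfl h3, Finset.sum_neg_distrib] at h
  linarith

/-- renewal equation for `ga` -/
private theorem renew_ga {n : ℕ} [NeZero n] (hd : 1 ≤ d) (hn : 3 ≤ n) (i : Fin d) (k : ℕ) :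
    (1 : ℝ) = ∑ s ∈ range (k + 1), hk d n s 0 * ga (n := n) i (k - s) := by
  have ha : st (n := n) i 0 ≠ st i 1 := st_ne hn i
  have h := val_charge ha hd (fun ρ => Gg (vis ρ)) k 0 rec0 0
  have h0 : val (st (n := n) i) (fun ρ => Gg (vis ρ)) k 0 rec0 0 = 0 := by
    refine pv_kill hd _ Gg k 0 _ 0 fun T => ?_
    unfold Gg
    rw [if_neg]
    intro h2
    simp only [vis_upd] at h2
    simp [st] at h2
  have h1 : Gg (vis rec0) = 1 := by
    unfold Gg
    rw [if_pos]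
    rfl
  have h20 : ∀ s, chg (st (n := n) i) (fun ρ => Gg (vis ρ)) (k - s) (0 + s) rec0 0 =
      -ga (n := n) i (k - s) := by
    intro s
    unfold chg
    have e1 : pv (st (n := n) i) (fun ρ => Gg (vis ρ)) (k - s) (0 + s)
        (upd (st (n := n) i) (0 + s) (st i 0) rec0) (st i 0) = 0 := by
      refine pv_kill hd _ Gg _ _ _ _ fun T => ?_
      unfold Gg
      rw [if_neg]
      intro h2
      simp only [vis_upd] at h2
      simp at h2
    rw [e1, pv_shift, zero_sub, ga_eq]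
    rfl
  have h21 : ∀ s, chg (st (n := n) i) (fun ρ => Gg (vis ρ)) (k - s) (0 + s) rec0 1 = 0 := by
    intro s
    unfold chg
    rw [pv_vis _ Gg _ _ (0 + s) (upd (st i) (0 + s) (st i 1) rec0), sub_eq_zero]
    congr 1
    funext ρ
    show (if (vis (upd (st i) (0 + s) (st i 1) rec0) 0 || vis ρ 0) = false then (1 : ℝ) else 0) =
      if vis ρ 0 = false then (1 : ℝ) else 0
    rw [vis_upd, decide_eq_false ha.symm, Bool.false_or]
  rw [h0, h1] at h
  have h3 : ∀ s ∈ range (k + 1), ∑ j, hk d n s (0 - st (n := n) i j) •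
      chg (st (n := n) i) (fun ρ => Gg (vis ρ)) (k - s) (0 + s) rec0 j =
      -(hk d n s 0 * ga (n := n) i (k - s)) := by
    intro s _
    rw [Fin.sum_univ_two, h20, h21]
    have e4 : (0 : Tor d n) - st i 0 = 0 := by simp [st]
    rw [e4, smul_eq_mul, smul_zero]
    ring
  rw [Finset.sum_congr rfl h3, Finset.sum_neg_distrib] at h
  linarith

theorem al_lower (hd : 3 ≤ d) (C κ : ℝ) : ∃ c : ℝ, 0 < c ∧ ∃ S0 n0 : ℕ, ∀ (n : ℕ) [NeZero n],
    n0 ≤ n → HKB d n C κ → ∀ (i : Fin d) (s₀ : ℕ), S0 ≤ s₀ → 2 * s₀ ≤ n ^ 2 →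
      c ≤ al (n := n) i s₀ ∧ c ≤ 2 * al (n := n) i s₀ - ga (n := n) i s₀ := by
  obtain ⟨C', hC', htail⟩ := hk_tail hd C κ
  obtain ⟨M, hM⟩ := exists_nat_ge (16 * (max C 1) * C')
  have hC1 : (1 : ℝ) ≤ max C 1 := le_max_right _ _
  refine ⟨1 / (4 * (max C 1) ^ 2), by positivity, M ^ 2, M, ?_⟩
  intro n _ hn hb i s₀ hs hsn
  have hd1 : 1 ≤ d := by omega
  have hCC : max C 1 = C := max_eq_left hb.hC
  rw [hCC] at hM hC1 ⊢
  have hM16 : 16 ≤ (M : ℝ) := by nlinarith
  have hMpos : (0 : ℝ) < M := by linarith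
  have hMC : 16 * C ≤ (M : ℝ) := by nlinarith
  have hnM : (M : ℝ) ≤ n := by exact_mod_cast hn
  have hn0 : (0 : ℝ) < n := by linarith
  have hn1 : (1 : ℝ) ≤ n := by linarith
  have hN : 0 < NN d n := NN_pos
  have hN3 : (n : ℝ) ^ 3 ≤ NN d n := pow_le_pow_right₀ hn1 hd
  have hNn : (n : ℝ) ≤ NN d n := by
    refine le_trans ?_ hN3
    calc (n : ℝ) = n ^ 1 := (pow_one _).symm
      _ ≤ n ^ 3 := pow_le_pow_right₀ hn1 (by norm_num)
  set α : ℕ → ℝ := fun k => al (n := n) i k with hα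
  set γ : ℕ → ℝ := fun k => ga (n := n) i k with hγ
  set p : ℕ → ℝ := fun s => hk d n s (0 : Tor d n) with hp
  set q : ℕ → ℝ := fun s => hk d n s (Pi.single i 1 : Tor d n) with hq
  have hp0 : ∀ s, 0 ≤ p s := fun s => hk_nonneg _ _
  have hq0 : ∀ s, 0 ≤ q s := fun s => hk_nonneg _ _
  have hαanti : ∀ k k', k ≤ k' → α k' ≤ α k := fun k k' h =>
    pv_anti hd1 _ Ga Ga_anti h 0 rec0 0
  have hγanti : ∀ k k', k ≤ k' → γ k' ≤ γ k := fun k k' h =>
    pv_anti hd1 _ Gg Gg_anti h 0 rec0 0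
  have hα1 : ∀ k, α k ≤ 1 := fun k => (al_le_ga hd1 i k).2.1.trans (al_le_ga hd1 i k).2.2
  have hα0 : ∀ k, 0 ≤ α k := fun k => (al_le_ga hd1 i k).1
  set G : ℝ := ∑ s ∈ range (s₀ + 1), p s with hG
  set Hh : ℝ := ∑ s ∈ range (s₀ + 1), q s with hHh
  set τ : ℝ := ∑ s ∈ Ico (s₀ + 1) (2 * s₀ + 1), (p s + q s) with hτ
  -- the sums
  have hGC : G ≤ C := by
    have h1 := hb.green 0
    have h2 : rho (0 : Tor d n) = 1 := by
      unfold rho
      rw [nrm_zero]
      simp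
    rw [h2, one_pow, div_one] at h1
    refine le_trans ?_ h1
    refine Finset.sum_le_sum_of_subset_of_nonneg ?_ fun s _ _ => hp0 s
    intro s hs'
    rw [Finset.mem_range] at hs' ⊢
    omega
  have hG1 : 1 ≤ G := by
    have h1 : p 0 = 1 := by
      show (if (0 : Tor d n) = 0 then (1 : ℝ) else 0) = 1
      rw [if_pos rfl]
    rw [← h1]
    exact Finset.single_le_sum (f := p) (fun s _ => hp0 s) (Finset.mem_range.2 (by omega))
  have hH0 : 0 ≤ Hh := Finset.sum_nonneg fun s _ => hq0 s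
  have hsqrt : (M : ℝ) ≤ Real.sqrt ((s₀ + 1 : ℕ) : ℝ) := by
    apply Real.le_sqrt_of_sq_le
    have : (M : ℝ) ^ 2 ≤ (s₀ : ℝ) := by exact_mod_cast hs
    push_cast
    linarith
  have hsqpos : 0 < Real.sqrt ((s₀ + 1 : ℕ) : ℝ) := lt_of_lt_of_le hMpos hsqrt
  have hτle : τ ≤ 1 / (4 * C) := by
    have h1 := htail n hb 0 (Ico (s₀ + 1) (2 * s₀ + 1)) (s₀ + 1) (by omega)
      (fun s hs' => (Finset.mem_Ico.1 hs').1)
    have h2 := htail n hb (Pi.single i 1) (Ico (s₀ + 1) (2 * s₀ + 1)) (s₀ + 1) (by omega)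
      (fun s hs' => (Finset.mem_Ico.1 hs').1)
    have h3 : τ = ∑ s ∈ Ico (s₀ + 1) (2 * s₀ + 1), hk d n s (0 : Tor d n) +
        ∑ s ∈ Ico (s₀ + 1) (2 * s₀ + 1), hk d n s (Pi.single i 1 : Tor d n) := by
      rw [hτ, Finset.sum_add_distrib]
    have h4 : ((Ico (s₀ + 1) (2 * s₀ + 1)).card : ℝ) / NN d n ≤ 1 / (2 * M) := by
      rw [Nat.card_Ico, show 2 * s₀ + 1 - (s₀ + 1) = s₀ by omega, div_le_div_iff₀ hN (by positivity)]
      have h5 : (2 * s₀ : ℝ) ≤ (n : ℝ) ^ 2 := by exact_mod_cast hsn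
      calc (s₀ : ℝ) * (2 * M) = (2 * s₀) * M := by ring
        _ ≤ (n : ℝ) ^ 2 * n := mul_le_mul h5 hnM hMpos.le (by positivity)
        _ = (n : ℝ) ^ 3 := by ring
        _ ≤ 1 * NN d n := by rw [one_mul]; exact hN3
    have h6 : 1 / Real.sqrt ((s₀ + 1 : ℕ) : ℝ) ≤ 1 / M :=
      one_div_le_one_div_of_le hMpos hsqrt
    have h7 : C' * (1 / Real.sqrt ((s₀ + 1 : ℕ) : ℝ) +
        ((Ico (s₀ + 1) (2 * s₀ + 1)).card : ℝ) / NN d n) ≤ C' * (1 / M + 1 / (2 * M)) :=
      mul_le_mul_of_nonneg_left (add_le_add h6 h4) (by linarith)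
    have h8 : τ ≤ 2 * (C' * (1 / M + 1 / (2 * M))) := by linarith
    have h9 : 2 * (C' * (1 / (M : ℝ) + 1 / (2 * M))) = 3 * C' / M := by
      field_simp
      ring
    rw [h9] at h8
    refine h8.trans ?_
    rw [div_le_div_iff₀ hMpos (by linarith)]
    nlinarith
  have hsp : p (s₀ + 1) ≤ 1 / 2 := by
    have h1 := hb.diag (s₀ + 1) 0 (by omega)
    refine h1.trans ?_
    have h2 : 1 / (((s₀ + 1 : ℕ) : ℝ) * Real.sqrt ((s₀ + 1 : ℕ) : ℝ)) ≤ 1 / M := by
      apply one_div_le_one_div_of_le hMpos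
      refine hsqrt.trans (le_mul_of_one_le_left hsqpos.le ?_)
      exact_mod_cast Nat.succ_le_succ (Nat.zero_le s₀)
    have h3 : 1 / NN d n ≤ 1 / M := one_div_le_one_div_of_le hMpos (hnM.trans hNn)
    calc C * (1 / (((s₀ + 1 : ℕ) : ℝ) * Real.sqrt ((s₀ + 1 : ℕ) : ℝ)) + 1 / NN d n) ≤
          C * (1 / M + 1 / M) := mul_le_mul_of_nonneg_left (add_le_add h2 h3) (by linarith)
      _ = 2 * C / M := by ring
      _ ≤ 1 / 2 := by
        rw [div_le_div_iff₀ hMpos (by norm_num)]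
        linarith
  have hGH : 1 ≤ G - Hh := by
    have h1 : ∀ s, p s - q s = 2 * (p s - p (s + 1)) := by
      intro s
      have h2 := hk_single (n := n) hd1 i s
      have h3 : p (s + 1) = (p s + q s) / 2 := h2
      rw [h3]; ring
    have h4 : G - Hh = 2 * (p 0 - p (s₀ + 1)) := by
      rw [hG, hHh, ← Finset.sum_sub_distrib, Finset.sum_congr rfl fun s _ => h1 s,
        ← Finset.mul_sum, Finset.sum_range_sub']
    have h5 : p 0 = 1 := by
      show (if (0 : Tor d n) = 0 then (1 : ℝ) else 0) = 1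
      rw [if_pos rfl]
    rw [h4, h5]
    linarith
  -- the renewal equations
  have eq1 : 1 ≤ (G + Hh) * α s₀ + τ := by
    have h1 := renew_al hd1 hb.hn i (2 * s₀)
    rw [h1]
    have h2 : range (2 * s₀ + 1) = range (s₀ + 1) ∪ Ico (s₀ + 1) (2 * s₀ + 1) := by
      ext x
      simp only [Finset.mem_union, Finset.mem_range, Finset.mem_Ico]
      omega
    have h3 : Disjoint (range (s₀ + 1)) (Ico (s₀ + 1) (2 * s₀ + 1)) := by
      rw [Finset.disjoint_left]
      intro x hx hx'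
      rw [Finset.mem_range] at hx
      rw [Finset.mem_Ico] at hx'
      omega
    rw [h2, Finset.sum_union h3]
    refine add_le_add ?_ ?_
    · rw [hG, hHh, ← Finset.sum_add_distrib, Finset.sum_mul]
      refine Finset.sum_le_sum fun s hs' => ?_
      rw [Finset.mem_range] at hs'
      exact mul_le_mul_of_nonneg_left (hαanti _ _ (by omega)) (add_nonneg (hp0 s) (hq0 s))
    · refine Finset.sum_le_sum fun s hs' => ?_
      exact mul_le_of_le_one_right (add_nonneg (hp0 s) (hq0 s)) (hα1 _)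
  have eq2 : G * γ s₀ ≤ 1 := by
    have h1 := renew_ga hd1 hb.hn i s₀
    rw [h1, hG, Finset.sum_mul]
    refine Finset.sum_le_sum fun s hs' => ?_
    exact mul_le_mul_of_nonneg_left (hγanti _ _ (Nat.sub_le _ _)) (hp0 s)
  have hGH2 : G + Hh ≤ 2 * C := by linarith
  have hGHpos : 0 < G + Hh := by linarith
  have hCpos : 0 < C := by linarith
  have hτC : τ * (4 * C) ≤ 1 := by
    have h1 := mul_le_mul_of_nonneg_right hτle (show (0 : ℝ) ≤ 4 * C by linarith)
    rwa [one_div_mul_cancel (by positivity)] at h1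
  have hτ14 : τ ≤ 1 / 4 := by
    refine hτle.trans ?_
    apply one_div_le_one_div_of_le (by norm_num)
    linarith
  have hτ0 : 0 ≤ τ := Finset.sum_nonneg fun s _ => add_nonneg (hp0 s) (hq0 s)
  constructor
  · have h1 : 3 / 4 ≤ (2 * C) * α s₀ := by
      have h2 : (G + Hh) * α s₀ ≤ (2 * C) * α s₀ := mul_le_mul_of_nonneg_right hGH2 (hα0 _)
      linarith
    have h3 : 1 / (4 * C ^ 2) ≤ 3 / (8 * C) := by
      rw [div_le_div_iff₀ (by positivity) (by positivity)]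
      nlinarith
    refine h3.trans ?_
    rw [div_le_iff₀ (by positivity)]
    show 3 ≤ α s₀ * (8 * C)
    linarith
  · have h1 : (1 : ℝ) / 2 ≤ (2 * α s₀ - γ s₀) * (G * (G + Hh)) := by
      have h2 : (2 * α s₀ - γ s₀) * (G * (G + Hh)) =
          2 * G * ((G + Hh) * α s₀) - (G * γ s₀) * (G + Hh) := by ring
      have h3 : 2 * G * (1 - τ) ≤ 2 * G * ((G + Hh) * α s₀) :=
        mul_le_mul_of_nonneg_left (by linarith) (by linarith)
      have h4 : (G * γ s₀) * (G + Hh) ≤ 1 * (G + Hh) :=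
        mul_le_mul_of_nonneg_right eq2 hGHpos.le
      have h5 : τ * G ≤ τ * C := mul_le_mul_of_nonneg_left hGC hτ0
      rw [h2]
      nlinarith
    have h6 : G * (G + Hh) ≤ 2 * C ^ 2 := by nlinarith
    have h7 : 0 < 2 * α s₀ - γ s₀ := by
      by_contra hcon
      have h8 : (2 * α s₀ - γ s₀) * (G * (G + Hh)) ≤ 0 :=
        mul_nonpos_of_nonpos_of_nonneg (not_lt.1 hcon) (by positivity)
      linarith
    have h9 : (2 * α s₀ - γ s₀) * (G * (G + Hh)) ≤ (2 * α s₀ - γ s₀) * (2 * C ^ 2) :=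
      mul_le_mul_of_nonneg_left h6 h7.le
    rw [div_le_iff₀ (by positivity)]
    show 1 ≤ (2 * α s₀ - γ s₀) * (4 * C ^ 2)
    linarith

end CRW
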