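import Pool.Agent.Lib.CRW.L3

/-!
# Module LR: symmetries

PROOFS.  `pv_swap`: the reflection `z ↦ e_i - z` maps the pair `st i = (0, e_i)` to itself and exchanges its sites.  By induction on `k`, for records
`r, r'` with `vis r' j = vis r (Fin.rev j)`: `pv (st i) (G ∘ vis) k t r (e_i - b) = pv (st i) (fun ρ => G (fun j => vis ρ (Fin.rev j))) k t r' b`
(`stp_neg`, substitute `w → -w` in the sum over the steps: `e_i - (b + w) = (e_i - b) + (-w)`;
`e_i - b = st i j ↔ b = st i (Fin.rev j)`).  Take `b = 0`.
`hk_perm`: `stp` is invariant under permutations of the coordinates; induction on `r` (reindex the sum over the steps by the permutation,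
an additive automorphism of the torus).
`hk_single`: `hk r (e_i) = hk r (e_j)` (`hk_perm` with `Equiv.swap i j`), `hk r (-e_j) = hk r (e_j)` (`hk_neg`); so
`hk (r+1) 0 = 1/2 hk r 0 + ∑_j 1/(4d) (hk r (e_j) + hk r (-e_j)) = 1/2 hk r 0 + 1/2 hk r (e_i)` (`stp_expand`).
-/

open Finset

namespace CRW

variable {d n : ℕ} [NeZero n]

private theorem st_rev {n : ℕ} (i : Fin d) (j : Fin 2) :
    st (n := n) i (Fin.rev j) = Pi.single i 1 - st i j := by
  fin_cases j <;> simp [st]

private theorem upd_rev {n : ℕ} (i : Fin d) (t : ℕ) (b : Tor d n) (r : Rec) :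
    upd (st i) t (Pi.single i 1 - b) (fun j => r (Fin.rev j)) =
      fun j => upd (st i) t b r (Fin.rev j) := by
  funext j
  unfold upd
  have h : (Pi.single i 1 - b = st (n := n) i j) ↔ (b = st i (Fin.rev j)) := by
    rw [st_rev]
    constructor
    · intro h; rw [← h]; abel
    · intro h; rw [h]; abel
  simp only [h]

private theorem pv_rev {E : Type} [AddCommGroup E] [Module ℝ E] (i : Fin d) (ψ : Rec → E) (k : ℕ) :
    ∀ (t : ℕ) (r : Rec) (b : Tor d n),
      pv (st i) ψ k t (fun j => r (Fin.rev j)) (Pi.single i 1 - b) =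
        pv (st i) (fun ρ => ψ fun j => ρ (Fin.rev j)) k t r b := by
  induction k with
  | zero => intro t r b; rfl
  | succ k ih =>
    intro t r b
    show ∑ w, stp d n w • pv (st i) ψ k (t + 1)
        (upd (st i) (t + 1) (Pi.single i 1 - b + w) fun j => r (Fin.rev j))
        (Pi.single i 1 - b + w) =
      ∑ w, stp d n w • pv (st i) (fun ρ => ψ fun j => ρ (Fin.rev j)) k (t + 1)
        (upd (st i) (t + 1) (b + w) r) (b + w)
    rw [← Equiv.sum_comp (Equiv.neg (Tor d n))]
    refine Finset.sum_congr rfl fun w _ => ?_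
    rw [Equiv.neg_apply, stp_neg]
    have hb : (Pi.single i 1 - b + -w : Tor d n) = Pi.single i 1 - (b + w) := by abel
    rw [hb, upd_rev, ih]

theorem pv_swap {E : Type} [AddCommGroup E] [Module ℝ E] (i : Fin d)
    (G : (Fin 2 → Bool) → E) (k t : ℕ) :
    pv (st (n := n) i) (fun ρ => G (vis ρ)) k t rec0 (Pi.single i 1) =
      pv (st (n := n) i) (fun ρ => G fun j => vis ρ (Fin.rev j)) k t rec0 0 := by
  have h := pv_rev (n := n) i (fun ρ => G (vis ρ)) k t rec0 0
  rw [sub_zero] at h
  exact h

omit [NeZero n] in
private theorem stp_perm (σ : Equiv.Perm (Fin d)) (z : Tor d n) :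
    stp d n (fun i => z (σ i)) = stp d n z := by
  unfold stp
  have h0 : ((fun i => z (σ i)) = (0 : Tor d n)) ↔ z = 0 := by
    constructor
    · intro h
      funext i
      have := congrFun h (σ.symm i)
      simpa using this
    · intro h
      rw [h]
      rfl
  have h1 : ∀ i : Fin d, ((fun j => z (σ j)) = (Pi.single i 1 : Tor d n)) ↔
      z = Pi.single (σ i) 1 := by
    intro i
    constructor
    · intro h
      funext j
      have := congrFun h (σ.symm j)
      simp only [Equiv.apply_symm_apply] at this
      rw [this]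
      by_cases hj : j = σ i
      · subst hj
        rw [Equiv.symm_apply_apply, Pi.single_eq_same, Pi.single_eq_same]
      · rw [Pi.single_eq_of_ne hj, Pi.single_eq_of_ne]
        intro h2
        exact hj (by rw [← h2, Equiv.apply_symm_apply])
    · intro h
      funext j
      rw [h]
      by_cases hj : j = i
      · subst hj
        rw [Pi.single_eq_same, Pi.single_eq_same]
      · rw [Pi.single_eq_of_ne hj, Pi.single_eq_of_ne (fun h2 => hj (σ.injective h2))]
  have h2 : ∀ i : Fin d, ((fun j => z (σ j)) = (-Pi.single i 1 : Tor d n)) ↔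
      z = -Pi.single (σ i) 1 := by
    intro i
    have h3 := h1 i
    constructor
    · intro h
      funext j
      have := congrFun h (σ.symm j)
      simp only [Equiv.apply_symm_apply, Pi.neg_apply] at this
      rw [this, Pi.neg_apply]
      congr 1
      by_cases hj : j = σ i
      · subst hj
        rw [Equiv.symm_apply_apply, Pi.single_eq_same, Pi.single_eq_same]
      · rw [Pi.single_eq_of_ne hj, Pi.single_eq_of_ne]
        intro h2
        exact hj (by rw [← h2, Equiv.apply_symm_apply])
    · intro h
      funext j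
      rw [h, Pi.neg_apply, Pi.neg_apply]
      congr 1
      by_cases hj : j = i
      · subst hj
        rw [Pi.single_eq_same, Pi.single_eq_same]
      · rw [Pi.single_eq_of_ne hj, Pi.single_eq_of_ne (fun h2 => hj (σ.injective h2))]
  simp only [h0, h1, h2]
  congr 1
  exact Equiv.sum_comp σ (fun i => ((if z = Pi.single i 1 then (1 : ℝ) else 0) +
    (if z = -Pi.single i 1 then 1 else 0)) / (4 * (d : ℝ)))

theorem hk_perm (σ : Equiv.Perm (Fin d)) (r : ℕ) (z : Tor d n) :
    hk d n r (fun i => z (σ i)) = hk d n r z := by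
  induction r generalizing z with
  | zero =>
    show (if (fun i => z (σ i)) = (0 : Tor d n) then (1 : ℝ) else 0) = if z = 0 then 1 else 0
    have h0 : ((fun i => z (σ i)) = (0 : Tor d n)) ↔ z = 0 := by
      constructor
      · intro h
        funext i
        have := congrFun h (σ.symm i)
        simpa using this
      · intro h
        rw [h]
        rfl
    simp only [h0]
  | succ r ih =>
    show ∑ w, stp d n w * hk d n r ((fun i => z (σ i)) + w) = ∑ w, stp d n w * hk d n r (z + w)
    let e : Tor d n ≃ Tor d n := Equiv.arrowCongr σ.symm (Equiv.refl _)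
    have he : ∀ w i, e w i = w (σ i) := fun w i => rfl
    rw [← Equiv.sum_comp e]
    refine Finset.sum_congr rfl fun w _ => ?_
    have h1 : e w = fun i => w (σ i) := rfl
    rw [h1, stp_perm, ← ih (z + w)]
    rfl

theorem hk_single (hd : 1 ≤ d) (i : Fin d) (r : ℕ) :
    hk d n (r + 1) 0 = (hk d n r 0 + hk d n r (Pi.single i 1)) / 2 := by
  have h1 : hk d n (r + 1) 0 = ∑ w, stp d n w • hk d n r w := by
    show ∑ w, stp d n w * hk d n r (0 + w) = _
    refine Finset.sum_congr rfl fun w _ => ?_
    rw [zero_add, smul_eq_mul]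
  have h2 : ∀ j : Fin d, hk d n r (Pi.single j 1) = hk d n r (Pi.single i 1) := by
    intro j
    rw [← hk_perm (Equiv.swap i j) r (Pi.single j 1)]
    congr 1
    funext k
    by_cases hk : k = i
    · subst hk
      rw [Equiv.swap_apply_left, Pi.single_eq_same, Pi.single_eq_same]
    · rw [Pi.single_eq_of_ne hk, Pi.single_eq_of_ne]
      intro h3
      apply hk
      have := congrArg (Equiv.swap i j) h3
      rw [Equiv.swap_apply_self, Equiv.swap_apply_right] at this
      exact this
  rw [h1, stp_expand]
  simp only [hk_neg, h2, smul_eq_mul]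
  rw [Finset.sum_const, Finset.card_univ, Fintype.card_fin, nsmul_eq_mul]
  have hd' : (d : ℝ) ≠ 0 := by positivity
  field_simp
  ring

end CRW
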