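import Pool.Agent.Lib.CRW.Defs2

/-!
# The model: two competing random walks paint the torus

`Model d n P`: two walks `X 0`, `X 1` and coins, one for every site, on a probability space, with the right finite dimensional
laws: `pathP T x` is the probability that the lazy simple random walk started from the uniform distribution follows the path
`x 0, ..., x T`; the two walks and the coins are independent, the coins are independent and fair.

`paint X coin t x` is the mark of the site `x` after the steps at times `< t` (`none` = unmarked, `some 0` = marked by the
first walk, `some 1` = marked by the second walk).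
-/

open Finset MeasureTheory

namespace CRW

section
variable {d n : ℕ}

/-- the probability that the lazy random walk with uniform start follows the path `x 0, ..., x T` -/
noncomputable def pathP (T : ℕ) (x : ℕ → Tor d n) : ℝ :=
  (NN d n)⁻¹ * ∏ t ∈ range T, stp d n (x (t + 1) - x t)

/-- two independent lazy random walks on the torus, started from the uniform distribution, and
independent fair coins -/
structure Model (d n : ℕ) [NeZero n] {Ω : Type*} [MeasurableSpace Ω] (P : Measure Ω) where
  X : Fin 2 → ℕ → Ω → Tor d n
  coin : Tor d n → Ω → Bool
  measX : ∀ i t z, MeasurableSet {ω | X i t ω = z}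
  measC : ∀ z, MeasurableSet {ω | coin z ω = true}
  law : ∀ (T : ℕ) (x y : ℕ → Tor d n) (c : Tor d n → Bool),
    P {ω | (∀ t ≤ T, X 0 t ω = x t) ∧ (∀ t ≤ T, X 1 t ω = y t) ∧ ∀ z, coin z ω = c z} =
      ENNReal.ofReal (pathP T x * pathP T y * (1 / 2) ^ Fintype.card (Tor d n))

/-- the marks after the steps at times `< t` -/
def paint (X : Fin 2 → ℕ → Tor d n) (coin : Tor d n → Bool) : ℕ → Tor d n → Option (Fin 2)
  | 0, _ => none
  | t + 1, x => (paint X coin t x).orElse fun _ =>
      if X 0 t = x then
        (if X 1 t = x then (if coin x then some 0 else some 1) else some 0)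
      else if X 1 t = x then some 1 else none

/-- the set of sites marked `i` -/
def marked (X : Fin 2 → ℕ → Tor d n) (coin : Tor d n → Bool) (i : Fin 2) : Set (Tor d n) :=
  {x | ∃ t, paint X coin t x = some i}

/-- neighbours in the torus -/
def Adj (x y : Tor d n) : Prop := ∃ i : Fin d, y = x + Pi.single i 1 ∨ x = y + Pi.single i 1

/-- the interface: the set of edges with one end marked by the first walk and the other one marked
by the second walk -/
def interface (X : Fin 2 → ℕ → Tor d n) (coin : Tor d n → Bool) : Set (Sym2 (Tor d n)) :=
  {e | ∃ x y, Adj x y ∧ x ∈ marked X coin 0 ∧ y ∈ marked X coin 1 ∧ e = s(x, y)}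

end

section
variable {d n : ℕ} [NeZero n] {Ω : Type*} [MeasurableSpace Ω] {P : Measure Ω}

/-- the size of the set painted by the first walk -/
noncomputable def Model.sizeA (M : Model d n P) (ω : Ω) : ℝ :=
  ((marked (fun i t => M.X i t ω) (fun z => M.coin z ω) 0).ncard : ℝ)

/-- the size of the interface -/
noncomputable def Model.sizeB (M : Model d n P) (ω : Ω) : ℝ :=
  ((interface (fun i t => M.X i t ω) (fun z => M.coin z ω)).ncard : ℝ)

end

end CRW
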