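import Pool.Agent.Lib.CRW.PA1

/-!
# Module PA2: the kernels `hk r`

PROOFS.  Inductions on `r`.  `hk_add`: `hk (r+1+s) z = ∑ w, stp w * hk (r+s) (z+w) = ∑ w, stp w ∑ v, hk r v * hk s (z+w+v)`;
substitute `v' = v + w` and use `hk (r+1) v' = ∑ w, stp w * hk r (v' + w) = ∑ w, stp w * hk r (v' - w)` (`stp_neg`).
`hk_conv` from `hk_add` and `hk_neg` by translation.  `hk_support`: `nrm_add_le`, `nrm_step`.
`gr_ge`: one term of the sum.
-/

open Finset

namespace CRW

variable {d n : ℕ} [NeZero n]

private theorem pa2_succ (r : ℕ) (z : Tor d n) :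
    hk d n (r + 1) z = ∑ w, stp d n w * hk d n r (z + w) := rfl

private theorem pa2_zero (z : Tor d n) : hk d n 0 z = if z = 0 then 1 else 0 := rfl

private theorem pa2_sum_neg {E : Type} [AddCommGroup E] (F : Tor d n → E) :
    ∑ w, F (-w) = ∑ w, F w := Equiv.sum_comp (Equiv.neg (Tor d n)) F

private theorem pa2_sum_add {E : Type} [AddCommGroup E] (F : Tor d n → E) (a : Tor d n) :
    ∑ w, F (w + a) = ∑ w, F w := Equiv.sum_comp (Equiv.addRight a) F

theorem hk_nonneg (r : ℕ) (z : Tor d n) : 0 ≤ hk d n r z := by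
  induction r generalizing z with
  | zero =>
    rw [pa2_zero]
    split_ifs
    · exact zero_le_one
    · exact le_rfl
  | succ r ih =>
    rw [pa2_succ]
    exact Finset.sum_nonneg fun w _ => mul_nonneg (stp_nonneg w) (ih _)

theorem hk_sum (hd : 1 ≤ d) (r : ℕ) : ∑ z, hk d n r z = 1 := by
  induction r with
  | zero =>
    simp only [pa2_zero]
    rw [Finset.sum_ite_eq' Finset.univ (0 : Tor d n) (fun _ => (1 : ℝ))]
    simp
  | succ r ih =>
    simp only [pa2_succ]
    rw [Finset.sum_comm]
    have h : ∀ w : Tor d n, ∑ z, stp d n w * hk d n r (z + w) = stp d n w := by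
      intro w
      rw [← Finset.mul_sum, pa2_sum_add (fun z => hk d n r z) w, ih, mul_one]
    rw [Finset.sum_congr rfl fun w _ => h w]
    exact stp_sum hd

theorem hk_le_one (hd : 1 ≤ d) (r : ℕ) (z : Tor d n) : hk d n r z ≤ 1 := by
  rw [← hk_sum (n := n) hd r]
  exact Finset.single_le_sum (f := fun z => hk d n r z) (fun w _ => hk_nonneg r w)
    (Finset.mem_univ z)

theorem hk_neg (r : ℕ) (z : Tor d n) : hk d n r (-z) = hk d n r z := by
  induction r generalizing z with
  | zero =>
    rw [pa2_zero, pa2_zero]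
    simp only [neg_eq_zero]
  | succ r ih =>
    rw [pa2_succ, pa2_succ, ← pa2_sum_neg]
    refine Finset.sum_congr rfl fun w _ => ?_
    rw [stp_neg, ← neg_add, ih]

private theorem pa2_succ' (r : ℕ) (z : Tor d n) :
    hk d n (r + 1) z = ∑ w, stp d n w * hk d n r (z - w) := by
  rw [pa2_succ, ← pa2_sum_neg]
  refine Finset.sum_congr rfl fun w _ => ?_
  rw [stp_neg, sub_eq_add_neg]

theorem hk_add (r s : ℕ) (z : Tor d n) :
    hk d n (r + s) z = ∑ w, hk d n r w * hk d n s (z + w) := by
  induction r generalizing z with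
  | zero =>
    rw [zero_add, Finset.sum_eq_single (0 : Tor d n)]
    · rw [pa2_zero, if_pos rfl, one_mul, add_zero]
    · intro w _ hw
      rw [pa2_zero, if_neg hw, zero_mul]
    · intro h
      exact absurd (Finset.mem_univ _) h
  | succ r ih =>
    have e : r + 1 + s = (r + s) + 1 := by omega
    rw [e, pa2_succ]
    have h1 : ∀ w : Tor d n, stp d n w * hk d n (r + s) (z + w) =
        ∑ v, stp d n w * (hk d n r (v - w) * hk d n s (z + v)) := by
      intro w
      rw [ih, Finset.mul_sum]
      rw [← pa2_sum_add (fun v => stp d n w * (hk d n r (v - w) * hk d n s (z + v))) w]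
      refine Finset.sum_congr rfl fun v _ => ?_
      rw [add_sub_cancel_right, add_assoc z w v, add_comm w v]
    rw [Finset.sum_congr rfl fun w _ => h1 w, Finset.sum_comm]
    refine Finset.sum_congr rfl fun v _ => ?_
    rw [pa2_succ', Finset.sum_mul]
    refine Finset.sum_congr rfl fun w _ => ?_
    rw [mul_assoc]

theorem hk_conv (r s : ℕ) (x y : Tor d n) :
    ∑ b, hk d n r (b - x) * hk d n s (b - y) = hk d n (r + s) (x - y) := by
  rw [hk_add, ← pa2_sum_add (fun b => hk d n r (b - x) * hk d n s (b - y)) x]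
  refine Finset.sum_congr rfl fun w _ => ?_
  rw [add_sub_cancel_right, show w + x - y = x - y + w by abel]

theorem hk_one (z : Tor d n) : hk d n 1 z = stp d n z := by
  rw [show (1 : ℕ) = 0 + 1 from rfl, pa2_succ', Finset.sum_eq_single z]
  · rw [pa2_zero, sub_self, if_pos rfl, mul_one]
  · intro w _ hw
    rw [pa2_zero, if_neg (fun h => hw (sub_eq_zero.1 h).symm), mul_zero]
  · intro h
    exact absurd (Finset.mem_univ _) h

theorem hk_support {r : ℕ} {z : Tor d n} (h : hk d n r z ≠ 0) : nrm z ≤ r := by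
  induction r generalizing z with
  | zero =>
    rw [pa2_zero] at h
    have hz : z = 0 := by
      by_contra hz
      exact h (if_neg hz)
    rw [hz, nrm_zero]
  | succ r ih =>
    rw [pa2_succ] at h
    obtain ⟨w, -, hw⟩ := Finset.exists_ne_zero_of_sum_ne_zero h
    have h1 := ih (right_ne_zero_of_mul hw)
    have h2 := nrm_step (left_ne_zero_of_mul hw)
    have h3 := nrm_add_le (z + w) (-w)
    rw [add_neg_cancel_right, nrm_neg] at h3
    omega

theorem gr_nonneg (r : ℕ) (z : Tor d n) : 0 ≤ gr r z := by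
  unfold gr
  refine Finset.sum_nonneg fun w _ => ?_
  split_ifs
  · exact le_rfl
  · exact abs_nonneg _

theorem gr_ge (r : ℕ) (z : Tor d n) {w : Tor d n} (hw : stp d n w ≠ 0) :
    |hk d n r (z + w) - hk d n r z| ≤ gr r z := by
  unfold gr
  have h := Finset.single_le_sum
    (f := fun w : Tor d n => if stp d n w = 0 then 0 else |hk d n r (z + w) - hk d n r z|)
    (s := Finset.univ) (fun w _ => by
      show (0 : ℝ) ≤ if stp d n w = 0 then 0 else |hk d n r (z + w) - hk d n r z|
      split_ifs
      · exact le_rfl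
      · exact abs_nonneg _) (Finset.mem_univ w)
  simp only [if_neg hw] at h
  exact h

/-- a step of the chain for functions of the position -/
theorem hk_succ_fun {E : Type} [AddCommGroup E] [Module ℝ E] (k : ℕ) (a : Tor d n)
    (G : Tor d n → E) :
    ∑ b, hk d n (k + 1) (b - a) • G b = ∑ w, stp d n w • ∑ b, hk d n k (b - (a + w)) • G b := by
  simp only [Finset.smul_sum]
  rw [Finset.sum_comm]
  refine Finset.sum_congr rfl fun b _ => ?_
  rw [pa2_succ', Finset.sum_smul]
  refine Finset.sum_congr rfl fun w _ => ?_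
  rw [mul_smul, sub_sub]

/-- the same with the last step -/
theorem hk_succ_fun' {E : Type} [AddCommGroup E] [Module ℝ E] (k : ℕ) (a : Tor d n)
    (G : Tor d n → E) :
    ∑ b, hk d n (k + 1) (b - a) • G b = ∑ b, hk d n k (b - a) • ∑ w, stp d n w • G (b + w) := by
  rw [hk_succ_fun]
  have h1 : ∀ w : Tor d n, ∑ b, hk d n k (b - (a + w)) • G b =
      ∑ b, hk d n k (b - a) • G (b + w) := by
    intro w
    rw [← pa2_sum_add (fun b => hk d n k (b - (a + w)) • G b) w]
    refine Finset.sum_congr rfl fun b _ => ?_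
    rw [show b + w - (a + w) = b - a by abel]
  rw [Finset.sum_congr rfl fun w _ => by rw [h1 w]]
  simp only [Finset.smul_sum]
  rw [Finset.sum_comm]
  refine Finset.sum_congr rfl fun b _ => Finset.sum_congr rfl fun w _ => ?_
  rw [smul_comm]

end CRW
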