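import Pool.Agent.Lib.CRW.PA2

/-!
# Module PC1: the charge formula for `pv` and `val`

PROOFS.  `chg_mem`: `upd a t (a j) r = r` if `r j ≠ none` and `a` is injective (the other site is not `a j`).
`val_split`: `val a ψ k t r b = pv a ψ k t r b + ∑ j, (if b = a j then chg a ψ k t r j else 0)`: if `b` is no `a j` then
`upd a t b r = r`; if `b = a j` exactly one term of the sum is present (`a` injective).
`pv_charge`: induction on `k` (generalizing `t`, `b`):
`pv (k+1) t r b = ∑ w, stp w • val k (t+1) r (b+w)` (by definition) and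
`val k (t+1) r (b+w) = pv k (t+1) r (b+w) + ∑ j, (if b+w = a j then chg k (t+1) r j else 0)`;
`∑ w, stp w • (if b + w = a j then 1 else 0) = stp (a j - b) = hk 1 (b - a j)`, and
`∑ w, stp w * hk (s+1) (b + w - a j) = hk (s+2) (b - a j)`.
`val_charge`: `val_split` and `pv_charge` (the term `s = 0` is `hk 0 (b - a j) • chg k t r j`), `Finset.sum_range_succ'`.
`val_complete`: no charge is left (`chg_mem`), or directly by induction.
`pv_comp`: linearity.
-/

open Finset

namespace CRW

variable {d n : ℕ} [NeZero n] {E : Type} [AddCommGroup E] [Module ℝ E]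

omit [NeZero n] in
private theorem upd_self {a : Fin 2 → Tor d n} (t : ℕ) (b : Tor d n) {r : Rec}
    (h : ∀ i, b = a i → r i ≠ none) : upd a t b r = r := by
  funext i
  unfold upd
  by_cases hb : b = a i
  · obtain ⟨s, hs⟩ := Option.ne_none_iff_exists'.1 (h i hb)
    rw [hs]
    rfl
  · rw [if_neg hb]
    cases r i <;> rfl

omit [NeZero n] in
private theorem inj2 {a : Fin 2 → Tor d n} (ha : a 0 ≠ a 1) {i j : Fin 2} (h : a i = a j) :
    i = j := by
  fin_cases i <;> fin_cases j
  · rfl
  · exact absurd h ha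
  · exact absurd h.symm ha
  · rfl

theorem chg_mem {a : Fin 2 → Tor d n} (ha : a 0 ≠ a 1) (ψ : Rec → E) (k t : ℕ) {r : Rec}
    {j : Fin 2} (h : r j ≠ none) : chg a ψ k t r j = 0 := by
  have h1 : upd a t (a j) r = r := upd_self t (a j) fun i hi => by
    rw [← inj2 ha hi]; exact h
  unfold chg
  rw [h1, sub_self]

theorem val_split {a : Fin 2 → Tor d n} (ha : a 0 ≠ a 1) (ψ : Rec → E) (k t : ℕ) (r : Rec)
    (b : Tor d n) : val a ψ k t r b =
      pv a ψ k t r b + ∑ j, if b = a j then chg a ψ k t r j else 0 := by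
  by_cases h : ∃ j, b = a j
  · obtain ⟨j, rfl⟩ := h
    have h1 : (∑ i, if a j = a i then chg a ψ k t r i else 0) = chg a ψ k t r j := by
      rw [Finset.sum_eq_single j]
      · rw [if_pos rfl]
      · intro i _ hij
        rw [if_neg]
        exact fun e => hij (inj2 ha e).symm
      · intro hj
        exact absurd (Finset.mem_univ j) hj
    rw [h1]
    unfold chg val
    rw [add_sub_cancel]
  · have h1 : upd a t b r = r := upd_self t b fun i hi => absurd ⟨i, hi⟩ h
    have h2 : (∑ i, if b = a i then chg a ψ k t r i else 0) = 0 := by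
      refine Finset.sum_eq_zero fun i _ => ?_
      rw [if_neg]
      exact fun e => h ⟨i, e⟩
    rw [h2, add_zero]
    unfold val
    rw [h1]

theorem pv_succ (a : Fin 2 → Tor d n) (ψ : Rec → E) (k t : ℕ) (r : Rec) (b : Tor d n) :
    pv a ψ (k + 1) t r b = ∑ w, stp d n w • val a ψ k (t + 1) r (b + w) := rfl

theorem pv_charge {a : Fin 2 → Tor d n} (ha : a 0 ≠ a 1) (hd : 1 ≤ d) (ψ : Rec → E) (k t : ℕ)
    (r : Rec) (b : Tor d n) : pv a ψ k t r b = ψ r +
      ∑ s ∈ range k, ∑ j, hk d n (s + 1) (b - a j) • chg a ψ (k - 1 - s) (t + 1 + s) r j := by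
  induction k generalizing t b with
  | zero => simp [pv]
  | succ k ih =>
    rw [pv_succ]
    have h1 : ∀ w : Tor d n, stp d n w • val a ψ k (t + 1) r (b + w) =
        stp d n w • ψ r +
          (∑ s ∈ range k, ∑ j, (stp d n w * hk d n (s + 1) (b - a j + w)) •
            chg a ψ (k - 1 - s) (t + 1 + 1 + s) r j) +
          ∑ j, (if b + w = a j then stp d n w else 0) • chg a ψ k (t + 1) r j := by
      intro w
      rw [val_split ha, ih (t + 1) (b + w), smul_add, smul_add, Finset.smul_sum, Finset.smul_sum]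
      congr 1
      · congr 1
        refine Finset.sum_congr rfl fun s _ => ?_
        rw [Finset.smul_sum]
        refine Finset.sum_congr rfl fun j _ => ?_
        rw [smul_smul, show b + w - a j = b - a j + w by abel]
      · refine Finset.sum_congr rfl fun j _ => ?_
        split_ifs <;> simp
    rw [Finset.sum_congr rfl fun w _ => h1 w, Finset.sum_add_distrib, Finset.sum_add_distrib,
      ← Finset.sum_smul, stp_sum hd, one_smul, Finset.sum_range_succ', add_assoc]
    congr 1
    congr 1
    · rw [Finset.sum_comm]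
      refine Finset.sum_congr rfl fun s _ => ?_
      rw [Finset.sum_comm]
      refine Finset.sum_congr rfl fun j _ => ?_
      rw [← Finset.sum_smul]
      have e1 : k + 1 - 1 - (s + 1) = k - 1 - s := by omega
      have e2 : t + 1 + (s + 1) = t + 1 + 1 + s := by omega
      rw [e1, e2]
      rfl
    · rw [Finset.sum_comm]
      refine Finset.sum_congr rfl fun j _ => ?_
      rw [← Finset.sum_smul]
      have e1 : k + 1 - 1 - 0 = k := by omega
      rw [e1, add_zero, zero_add, hk_one]
      congr 1
      have e2 : ∀ w : Tor d n, (if b + w = a j then stp d n w else 0) =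
          if w = a j - b then stp d n w else 0 := by
        intro w
        have : b + w = a j ↔ w = a j - b := by
          rw [eq_sub_iff_add_eq, add_comm]
        simp only [this]
      rw [Finset.sum_congr rfl fun w _ => e2 w, Finset.sum_ite_eq' Finset.univ,
        if_pos (Finset.mem_univ _), ← stp_neg, neg_sub]

theorem val_charge {a : Fin 2 → Tor d n} (ha : a 0 ≠ a 1) (hd : 1 ≤ d) (ψ : Rec → E) (k t : ℕ)
    (r : Rec) (b : Tor d n) : val a ψ k t r b = ψ r +
      ∑ s ∈ range (k + 1), ∑ j, hk d n s (b - a j) • chg a ψ (k - s) (t + s) r j := by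
  rw [val_split ha, pv_charge ha hd, Finset.sum_range_succ', add_assoc]
  congr 1
  congr 1
  · refine Finset.sum_congr rfl fun s _ => ?_
    have e1 : k - (s + 1) = k - 1 - s := by omega
    have e2 : t + (s + 1) = t + 1 + s := by omega
    rw [e1, e2]
  · refine Finset.sum_congr rfl fun j _ => ?_
    have e : hk d n 0 (b - a j) = if b = a j then 1 else 0 := by
      show (if b - a j = 0 then (1 : ℝ) else 0) = _
      simp only [sub_eq_zero]
    rw [e]
    simp only [Nat.sub_zero, add_zero]
    split_ifs <;> simp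

theorem val_complete {a : Fin 2 → Tor d n} (ha : a 0 ≠ a 1) (hd : 1 ≤ d) (ψ : Rec → E)
    (k t : ℕ) {r : Rec} (hr : ¬ Inc r) (b : Tor d n) : val a ψ k t r b = ψ r := by
  rw [val_charge ha hd]
  have h1 : ∀ j, r j ≠ none := fun j e => hr ⟨j, e⟩
  rw [Finset.sum_eq_zero, add_zero]
  intro s _
  refine Finset.sum_eq_zero fun j _ => ?_
  rw [chg_mem ha ψ _ _ (h1 j), smul_zero]

theorem pv_complete {a : Fin 2 → Tor d n} (ha : a 0 ≠ a 1) (hd : 1 ≤ d) (ψ : Rec → E)
    (k t : ℕ) {r : Rec} (hr : ¬ Inc r) (b : Tor d n) : pv a ψ k t r b = ψ r := by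
  rw [pv_charge ha hd]
  have h1 : ∀ j, r j ≠ none := fun j e => hr ⟨j, e⟩
  rw [Finset.sum_eq_zero, add_zero]
  intro s _
  refine Finset.sum_eq_zero fun j _ => ?_
  rw [chg_mem ha ψ _ _ (h1 j), smul_zero]

/-- the mean of `val` over the position, and the centred charge formula -/
theorem val_sub_vbar {a : Fin 2 → Tor d n} (ha : a 0 ≠ a 1) (hd : 1 ≤ d) (ψ : Rec → E)
    (k t : ℕ) (r : Rec) (b : Tor d n) : val a ψ k t r b - vbar a ψ k t r =
      ∑ s ∈ range (k + 1), ∑ j, (hk d n s (b - a j) - (NN d n)⁻¹) •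
        chg a ψ (k - s) (t + s) r j := by
  have hN : NN d n ≠ 0 := ne_of_gt NN_pos
  have h1 : vbar a ψ k t r = ψ r + ∑ s ∈ range (k + 1), ∑ j, (NN d n)⁻¹ •
      chg a ψ (k - s) (t + s) r j := by
    unfold vbar
    rw [Finset.sum_congr rfl fun b _ => val_charge ha hd ψ k t r b, Finset.sum_add_distrib,
      smul_add]
    congr 1
    · rw [Finset.sum_const, Finset.card_univ, ← Nat.cast_smul_eq_nsmul ℝ, card_tor, smul_smul,
        inv_mul_cancel₀ hN, one_smul]
    · rw [Finset.sum_comm, Finset.smul_sum]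
      refine Finset.sum_congr rfl fun s _ => ?_
      rw [Finset.sum_comm, Finset.smul_sum]
      refine Finset.sum_congr rfl fun j _ => ?_
      rw [← Finset.sum_smul]
      have e : ∑ b : Tor d n, hk d n s (b - a j) = 1 := by
        rw [← hk_sum (n := n) hd s]
        exact Fintype.sum_equiv (Equiv.subRight (a j)) _ _ fun b => rfl
      rw [e, one_smul]
  rw [h1, val_charge ha hd]
  rw [add_sub_add_left_eq_sub, ← Finset.sum_sub_distrib]
  refine Finset.sum_congr rfl fun s _ => ?_
  rw [← Finset.sum_sub_distrib]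
  refine Finset.sum_congr rfl fun j _ => ?_
  rw [sub_smul]

theorem pv_add (a : Fin 2 → Tor d n) (ψ φ : Rec → E) (k t : ℕ) (r : Rec) (b : Tor d n) :
    pv a (fun r => ψ r + φ r) k t r b = pv a ψ k t r b + pv a φ k t r b := by
  induction k generalizing t r b with
  | zero => rfl
  | succ k ih =>
    simp only [pv]
    rw [← Finset.sum_add_distrib]
    refine Finset.sum_congr rfl fun w _ => ?_
    rw [ih, smul_add]

theorem pv_smul (a : Fin 2 → Tor d n) (c : ℝ) (ψ : Rec → E) (k t : ℕ) (r : Rec) (b : Tor d n) :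
    pv a (fun r => c • ψ r) k t r b = c • pv a ψ k t r b := by
  induction k generalizing t r b with
  | zero => rfl
  | succ k ih =>
    simp only [pv]
    rw [Finset.smul_sum]
    refine Finset.sum_congr rfl fun w _ => ?_
    rw [ih, smul_comm]

theorem pv_map {E' : Type} [AddCommGroup E'] [Module ℝ E'] (f : E →ₗ[ℝ] E')
    (a : Fin 2 → Tor d n) (ψ : Rec → E) (k t : ℕ) (r : Rec) (b : Tor d n) :
    pv a (fun r => f (ψ r)) k t r b = f (pv a ψ k t r b) := by
  induction k generalizing t r b with
  | zero => rfl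
  | succ k ih =>
    simp only [pv]
    rw [map_sum]
    refine Finset.sum_congr rfl fun w _ => ?_
    rw [ih, map_smul]

theorem pv_const (a : Fin 2 → Tor d n) (hd : 1 ≤ d) (c : E) (k t : ℕ) (r : Rec) (b : Tor d n) :
    pv a (fun _ => c) k t r b = c := by
  induction k generalizing t r b with
  | zero => rfl
  | succ k ih =>
    simp only [pv]
    rw [Finset.sum_congr rfl fun w _ => by rw [ih], ← Finset.sum_smul, stp_sum hd, one_smul]

private theorem pv_sum {ι : Type*} (S : Finset ι) (a : Fin 2 → Tor d n) (ψ : ι → Rec → E)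
    (k t : ℕ) (r : Rec) (b : Tor d n) :
    pv a (fun r => ∑ i ∈ S, ψ i r) k t r b = ∑ i ∈ S, pv a (ψ i) k t r b := by
  induction k generalizing t r b with
  | zero => rfl
  | succ k ih =>
    simp only [pv]
    rw [Finset.sum_comm]
    refine Finset.sum_congr rfl fun w _ => ?_
    rw [ih, Finset.smul_sum]

/-- the two automata commute -/
theorem pv_comm (a a' : Fin 2 → Tor d n) (h : Rec → Rec → E) (k t k' t' : ℕ) (r r' : Rec)
    (b b' : Tor d n) :
    pv a (fun ρ => pv a' (fun ρ' => h ρ ρ') k' t' r' b') k t r b =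
      pv a' (fun ρ' => pv a (fun ρ => h ρ ρ') k t r b) k' t' r' b' := by
  induction k generalizing t r b with
  | zero => rfl
  | succ k ih =>
    simp only [pv]
    rw [pv_sum]
    refine Finset.sum_congr rfl fun w _ => ?_
    rw [ih, pv_smul]

end CRW
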