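import Pool.Agent.Lib.CRW.PC1

/-!
# Module PC2: bounds and monotonicity of `pv`, composition of the times

PROOFS.  `pv_mono`, `norm_pv_le`: induction on `k` (`stp_nonneg`, `stp_sum`).  `norm_chg_le`: difference of two.
`pv_steps`: for `k = k₁ + k₂`, stopping after `k₁` steps needs the position, so it is stated with the joint
expectation `pvx` of (record, position).
`vis_pv`: the set of visited sites of the final record contains the initial one.
-/

open Finset

namespace CRW

variable {d n : ℕ} [NeZero n]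

theorem pv_mono (a : Fin 2 → Tor d n) {ψ φ : Rec → ℝ} (h : ∀ r, ψ r ≤ φ r) (k t : ℕ) (r : Rec)
    (b : Tor d n) : pv a ψ k t r b ≤ pv a φ k t r b := by
  induction k generalizing t r b with
  | zero => exact h r
  | succ k ih =>
    simp only [pv, smul_eq_mul]
    exact Finset.sum_le_sum fun w _ => mul_le_mul_of_nonneg_left (ih _ _ _) (stp_nonneg w)

theorem pv_nonneg (a : Fin 2 → Tor d n) {ψ : Rec → ℝ} (h : ∀ r, 0 ≤ ψ r) (k t : ℕ) (r : Rec)
    (b : Tor d n) : 0 ≤ pv a ψ k t r b := by
  induction k generalizing t r b with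
  | zero => exact h r
  | succ k ih =>
    simp only [pv, smul_eq_mul]
    exact Finset.sum_nonneg fun w _ => mul_nonneg (stp_nonneg w) (ih _ _ _)

theorem norm_pv_le {E : Type} [NormedAddCommGroup E] [NormedSpace ℝ E] (a : Fin 2 → Tor d n)
    (ψ : Rec → E) (k t : ℕ) (r : Rec) (b : Tor d n) :
    ‖pv a ψ k t r b‖ ≤ pv a (fun r => ‖ψ r‖) k t r b := by
  induction k generalizing t r b with
  | zero => exact le_refl _
  | succ k ih =>
    simp only [pv, smul_eq_mul]
    refine (norm_sum_le _ _).trans (Finset.sum_le_sum fun w _ => ?_)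
    rw [norm_smul, Real.norm_of_nonneg (stp_nonneg w)]
    exact mul_le_mul_of_nonneg_left (ih _ _ _) (stp_nonneg w)

theorem norm_pv_le_of {E : Type} [NormedAddCommGroup E] [NormedSpace ℝ E] (hd : 1 ≤ d)
    (a : Fin 2 → Tor d n) {ψ : Rec → E} {B : ℝ} (hψ : ∀ r, ‖ψ r‖ ≤ B) (k t : ℕ) (r : Rec)
    (b : Tor d n) : ‖pv a ψ k t r b‖ ≤ B := by
  induction k generalizing t r b with
  | zero => exact hψ r
  | succ k ih =>
    simp only [pv]
    refine (norm_sum_le _ _).trans ?_
    calc ∑ w, ‖stp d n w • pv a ψ k (t + 1) (upd a (t + 1) (b + w) r) (b + w)‖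
        ≤ ∑ w : Tor d n, stp d n w * B := by
          refine Finset.sum_le_sum fun w _ => ?_
          rw [norm_smul, Real.norm_of_nonneg (stp_nonneg w)]
          exact mul_le_mul_of_nonneg_left (ih _ _ _) (stp_nonneg w)
      _ = B := by rw [← Finset.sum_mul, stp_sum hd, one_mul]

theorem norm_chg_le {E : Type} [NormedAddCommGroup E] [NormedSpace ℝ E] (hd : 1 ≤ d)
    (a : Fin 2 → Tor d n) {ψ : Rec → E} {B : ℝ} (hψ : ∀ r, ‖ψ r‖ ≤ B) (k t : ℕ) (r : Rec)
    (j : Fin 2) : ‖chg a ψ k t r j‖ ≤ 2 * B := by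
  unfold chg
  refine (norm_sub_le _ _).trans ?_
  have h1 := norm_pv_le_of hd a hψ k t (upd a t (a j) r) (a j)
  have h2 := norm_pv_le_of hd a hψ k t r (a j)
  linarith

/-- expectation of a function of the record and of the position after `k` steps -/
noncomputable def pvx {E : Type} [AddCommGroup E] [Module ℝ E] (a : Fin 2 → Tor d n)
    (Θ : Rec → Tor d n → E) : ℕ → ℕ → Rec → Tor d n → E
  | 0, _, r, b => Θ r b
  | k + 1, t, r, b => ∑ w, stp d n w • pvx a Θ k (t + 1) (upd a (t + 1) (b + w) r) (b + w)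

theorem pv_steps {E : Type} [AddCommGroup E] [Module ℝ E] (a : Fin 2 → Tor d n) (ψ : Rec → E)
    (k₁ k₂ t : ℕ) (r : Rec) (b : Tor d n) : pv a ψ (k₁ + k₂) t r b =
      pvx a (fun r b => pv a ψ k₂ (t + k₁) r b) k₁ t r b := by
  induction k₁ generalizing t r b with
  | zero => simp [pvx]
  | succ k ih =>
    rw [show k + 1 + k₂ = (k + k₂) + 1 by omega]
    simp only [pv, pvx]
    refine Finset.sum_congr rfl fun w _ => ?_
    rw [ih, show t + 1 + k = t + (k + 1) by omega]

theorem pvx_pos {E : Type} [AddCommGroup E] [Module ℝ E] (a : Fin 2 → Tor d n)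
    (G : Tor d n → E) (k t : ℕ) (r : Rec) (b : Tor d n) :
    pvx a (fun _ b => G b) k t r b = ∑ b', hk d n k (b' - b) • G b' := by
  induction k generalizing t r b with
  | zero =>
    simp only [pvx, hk, sub_eq_zero, ite_smul, one_smul, zero_smul]
    simp
  | succ k ih =>
    rw [hk_succ_fun]
    simp only [pvx]
    exact Finset.sum_congr rfl fun w _ => by rw [ih]

theorem pvx_rec {E : Type} [AddCommGroup E] [Module ℝ E] (a : Fin 2 → Tor d n)
    (ψ : Rec → E) (k t : ℕ) (r : Rec) (b : Tor d n) :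
    pvx a (fun r _ => ψ r) k t r b = pv a ψ k t r b := by
  induction k generalizing t r b with
  | zero => rfl
  | succ k ih =>
    simp only [pvx, pv]
    exact Finset.sum_congr rfl fun w _ => by rw [ih]

theorem pvx_mono (a : Fin 2 → Tor d n) {Θ Θ' : Rec → Tor d n → ℝ} (h : ∀ r b, Θ r b ≤ Θ' r b)
    (k t : ℕ) (r : Rec) (b : Tor d n) : pvx a Θ k t r b ≤ pvx a Θ' k t r b := by
  induction k generalizing t r b with
  | zero => exact h r b
  | succ k ih =>
    simp only [pvx, smul_eq_mul]
    exact Finset.sum_le_sum fun w _ => mul_le_mul_of_nonneg_left (ih _ _ _) (stp_nonneg w)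

theorem pvx_add {E : Type} [AddCommGroup E] [Module ℝ E] (a : Fin 2 → Tor d n)
    (Θ Θ' : Rec → Tor d n → E) (k t : ℕ) (r : Rec) (b : Tor d n) :
    pvx a (fun r b => Θ r b + Θ' r b) k t r b = pvx a Θ k t r b + pvx a Θ' k t r b := by
  induction k generalizing t r b with
  | zero => rfl
  | succ k ih =>
    simp only [pvx]
    rw [← Finset.sum_add_distrib]
    exact Finset.sum_congr rfl fun w _ => by rw [ih, smul_add]

theorem pvx_sub {E : Type} [AddCommGroup E] [Module ℝ E] (a : Fin 2 → Tor d n)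
    (Θ Θ' : Rec → Tor d n → E) (k t : ℕ) (r : Rec) (b : Tor d n) :
    pvx a (fun r b => Θ r b - Θ' r b) k t r b = pvx a Θ k t r b - pvx a Θ' k t r b := by
  induction k generalizing t r b with
  | zero => rfl
  | succ k ih =>
    simp only [pvx]
    rw [← Finset.sum_sub_distrib]
    exact Finset.sum_congr rfl fun w _ => by rw [ih, smul_sub]

theorem norm_pvx_le {E : Type} [NormedAddCommGroup E] [NormedSpace ℝ E] (a : Fin 2 → Tor d n)
    (Θ : Rec → Tor d n → E) (k t : ℕ) (r : Rec) (b : Tor d n) :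
    ‖pvx a Θ k t r b‖ ≤ pvx a (fun r b => ‖Θ r b‖) k t r b := by
  induction k generalizing t r b with
  | zero => exact le_refl _
  | succ k ih =>
    simp only [pvx, smul_eq_mul]
    refine (norm_sum_le _ _).trans (Finset.sum_le_sum fun w _ => ?_)
    rw [norm_smul, Real.norm_of_nonneg (stp_nonneg w)]
    exact mul_le_mul_of_nonneg_left (ih _ _ _) (stp_nonneg w)

end CRW
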