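import Pool.Agent.Lib.CRW.PC2
import Pool.Agent.Lib.CRW.PB2

/-!
# Module PC3: the reversed walk

PROOFS.  `rb_charge`: as `pv_charge`: let `rq i r b = rb a ψ i (ov a i b r) b`, so
`rb (i+1) r b = ∑ w, stp w • rq i r (b+w)` and `rq i r b = rb i r b + ∑ l, if b = a l then rchg i r l else 0`; induction
on `i`.
`EP_reversal`: prove by induction on `j` the general statement
`EP j (fun η b => Θ (cmb (lrec a η 0 j) r) b) = (NN d n)⁻¹ • ∑ b, rb a (fun ρ => Θ ρ b) j r b`.
`j = 0`: `lrec a η 0 0 = rec0`, `cmb rec0 r = r`.  Step: `EP (j+1) (..) = EP j (fun η b => ∑ w, stp w • Θ (cmb (lrec a (update η j b) 0 (j+1)) r) (b+w))`,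
`lrec a (update η j b) 0 (j+1) = upd a j b (lrec a η 0 j)` and `cmb (upd a j b ρ) r = cmb ρ (ov a j b r)`.
Write `Θ' ρ b = ∑ w, stp w • Θ ρ (b+w)` and apply the induction hypothesis to
`Θ'' (record) (position)`: the record `ov a j b r` depends on the position `b`; split by the value `b'` of the
position: `Θ''_{b'} ρ b = if b = b' then Θ' ρ b' else 0` with `r' = ov a j b' r`, sum over `b'` (`EP_sum`).  Then
`∑ b', rb a (fun ρ => ∑ w, stp w • Θ ρ (b'+w)) j (ov a j b' r) b' = ∑ b, ∑ w, stp w • rb a (Θ · b) j (ov a j (b+w) r) (b+w)`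
(linearity of `rb` in `ψ`, substitute `b = b' + w`, `stp_neg`).
`rb_mean`: `EP_reversal` with `Θ ρ b = ψ ρ`.
-/

open Finset

namespace CRW

variable {d n : ℕ} [NeZero n] {E : Type} [AddCommGroup E] [Module ℝ E]

theorem rb_add (a : Fin 2 → Tor d n) (ψ φ : Rec → E) (i : ℕ) (r : Rec) (b : Tor d n) :
    rb a (fun r => ψ r + φ r) i r b = rb a ψ i r b + rb a φ i r b := by
  induction i generalizing r b with
  | zero => rfl
  | succ i ih =>
    simp only [rb]
    rw [← Finset.sum_add_distrib]
    refine Finset.sum_congr rfl fun w _ => ?_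
    rw [ih, smul_add]

theorem rb_smul (a : Fin 2 → Tor d n) (c : ℝ) (ψ : Rec → E) (i : ℕ) (r : Rec) (b : Tor d n) :
    rb a (fun r => c • ψ r) i r b = c • rb a ψ i r b := by
  induction i generalizing r b with
  | zero => rfl
  | succ i ih =>
    simp only [rb]
    rw [Finset.smul_sum]
    refine Finset.sum_congr rfl fun w _ => ?_
    rw [ih, smul_comm]

theorem rb_map {E' : Type} [AddCommGroup E'] [Module ℝ E'] (f : E →ₗ[ℝ] E')
    (a : Fin 2 → Tor d n) (ψ : Rec → E) (i : ℕ) (r : Rec) (b : Tor d n) :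
    rb a (fun r => f (ψ r)) i r b = f (rb a ψ i r b) := by
  induction i generalizing r b with
  | zero => rfl
  | succ i ih =>
    simp only [rb]
    rw [map_sum]
    refine Finset.sum_congr rfl fun w _ => ?_
    rw [ih, map_smul]

theorem rb_mono (a : Fin 2 → Tor d n) {ψ φ : Rec → ℝ} (h : ∀ r, ψ r ≤ φ r) (i : ℕ) (r : Rec)
    (b : Tor d n) : rb a ψ i r b ≤ rb a φ i r b := by
  induction i generalizing r b with
  | zero => exact h r
  | succ i ih =>
    simp only [rb]
    refine Finset.sum_le_sum fun w _ => ?_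
    exact mul_le_mul_of_nonneg_left (ih _ _) (stp_nonneg w)

theorem norm_rb_le {E : Type} [NormedAddCommGroup E] [NormedSpace ℝ E] (a : Fin 2 → Tor d n)
    (ψ : Rec → E) (i : ℕ) (r : Rec) (b : Tor d n) :
    ‖rb a ψ i r b‖ ≤ rb a (fun r => ‖ψ r‖) i r b := by
  induction i generalizing r b with
  | zero => exact le_rfl
  | succ i ih =>
    simp only [rb]
    refine (norm_sum_le _ _).trans (Finset.sum_le_sum fun w _ => ?_)
    rw [norm_smul, Real.norm_of_nonneg (stp_nonneg w)]
    exact mul_le_mul_of_nonneg_left (ih _ _) (stp_nonneg w)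

theorem norm_rb_le_of {E : Type} [NormedAddCommGroup E] [NormedSpace ℝ E] (hd : 1 ≤ d)
    (a : Fin 2 → Tor d n) {ψ : Rec → E} {B : ℝ} (hψ : ∀ r, ‖ψ r‖ ≤ B) (i : ℕ) (r : Rec)
    (b : Tor d n) : ‖rb a ψ i r b‖ ≤ B := by
  induction i generalizing r b with
  | zero => exact hψ r
  | succ i ih =>
    simp only [rb]
    refine (norm_sum_le _ _).trans ?_
    have h1 : ∀ w ∈ (Finset.univ : Finset (Tor d n)),
        ‖stp d n w • rb a ψ i (ov a i (b + w) r) (b + w)‖ ≤ stp d n w * B := by
      intro w _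
      rw [norm_smul, Real.norm_of_nonneg (stp_nonneg w)]
      exact mul_le_mul_of_nonneg_left (ih _ _) (stp_nonneg w)
    refine (Finset.sum_le_sum h1).trans ?_
    rw [← Finset.sum_mul, stp_sum hd, one_mul]

theorem norm_rchg_le {E : Type} [NormedAddCommGroup E] [NormedSpace ℝ E] (hd : 1 ≤ d)
    (a : Fin 2 → Tor d n) {ψ : Rec → E} {B : ℝ} (hψ : ∀ r, ‖ψ r‖ ≤ B) (i : ℕ) (r : Rec)
    (j : Fin 2) : ‖rchg a ψ i r j‖ ≤ 2 * B := by
  unfold rchg
  refine (norm_sub_le _ _).trans ?_
  have h1 := norm_rb_le_of hd a hψ i (ov a i (a j) r) (a j)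
  have h2 := norm_rb_le_of hd a hψ i r (a j)
  linarith

private theorem rb_split {a : Fin 2 → Tor d n} (ha : a 0 ≠ a 1) (ψ : Rec → E) (j : ℕ)
    (r : Rec) (c : Tor d n) : rb a ψ j (ov a j c r) c = rb a ψ j r c +
      ∑ l, if c = a l then rchg a ψ j r l else 0 := by
  by_cases hc : ∃ l, c = a l
  · obtain ⟨l, rfl⟩ := hc
    have hinj : ∀ l', a l = a l' ↔ l' = l := by
      intro l'
      constructor
      · intro h
        by_contra hne
        fin_cases l <;> fin_cases l' <;> simp_all
      · rintro rfl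
        rfl
    simp only [hinj]
    rw [Finset.sum_ite_eq' Finset.univ l, if_pos (Finset.mem_univ _)]
    unfold rchg
    abel
  · push Not at hc
    have h1 : ov a j c r = r := by
      funext l
      unfold ov
      rw [if_neg (hc l)]
    rw [h1, Finset.sum_eq_zero, add_zero]
    intro l _
    rw [if_neg (hc l)]

theorem rb_charge {a : Fin 2 → Tor d n} (ha : a 0 ≠ a 1) (hd : 1 ≤ d) (ψ : Rec → E) (j : ℕ)
    (r : Rec) (b : Tor d n) : rb a ψ j r b = ψ r +
      ∑ i ∈ range j, ∑ l, hk d n (j - i) (b - a l) • rchg a ψ i r l := by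
  induction j generalizing b with
  | zero => simp [rb]
  | succ j ih =>
    have hsplit : ∀ c : Tor d n, rb a ψ j (ov a j c r) c = rb a ψ j r c +
        ∑ l, if c = a l then rchg a ψ j r l else 0 := rb_split ha ψ j r
    have hstep : rb a ψ (j + 1) r b = ∑ w, stp d n w • rb a ψ j (ov a j (b + w) r) (b + w) := rfl
    rw [hstep]
    have h1 : ∀ w : Tor d n, stp d n w • rb a ψ j (ov a j (b + w) r) (b + w) =
        stp d n w • ψ r + (∑ i ∈ range j, ∑ l, (stp d n w * hk d n (j - i) (b + w - a l)) •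
          rchg a ψ i r l) + ∑ l, (if b + w = a l then stp d n w • rchg a ψ j r l else 0) := by
      intro w
      rw [hsplit, ih, smul_add, smul_add, Finset.smul_sum, Finset.smul_sum]
      congr 2
      · refine Finset.sum_congr rfl fun i _ => ?_
        rw [Finset.smul_sum]
        refine Finset.sum_congr rfl fun l _ => ?_
        rw [smul_smul]
      · funext l
        split_ifs
        · rfl
        · rw [smul_zero]
    rw [Finset.sum_congr rfl fun w _ => h1 w, Finset.sum_add_distrib, Finset.sum_add_distrib,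
      ← Finset.sum_smul, stp_sum hd, one_smul, add_assoc]
    congr 1
    rw [Finset.sum_range_succ]
    congr 1
    · rw [Finset.sum_comm]
      refine Finset.sum_congr rfl fun i hi => ?_
      rw [Finset.sum_comm]
      refine Finset.sum_congr rfl fun l _ => ?_
      rw [← Finset.sum_smul]
      congr 1
      have hji : j + 1 - i = (j - i) + 1 := by
        have := Finset.mem_range.1 hi
        omega
      rw [hji]
      show _ = ∑ w, stp d n w * hk d n (j - i) (b - a l + w)
      refine Finset.sum_congr rfl fun w _ => ?_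
      rw [show b + w - a l = b - a l + w by abel]
    · rw [Finset.sum_comm]
      refine Finset.sum_congr rfl fun l _ => ?_
      have hj1 : j + 1 - j = 1 := by omega
      rw [hj1, hk_one, ← stp_neg, neg_sub]
      rw [Finset.sum_eq_single (a l - b)]
      · rw [if_pos (by abel)]
      · intro w _ hw
        rw [if_neg]
        intro h
        exact hw (by rw [← h]; abel)
      · intro h
        exact absurd (Finset.mem_univ _) h

private theorem rb_zero (a : Fin 2 → Tor d n) (i : ℕ) (r : Rec) (b : Tor d n) :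
    rb a (fun _ => (0 : E)) i r b = 0 := by
  have h := rb_smul (E := E) a 0 (fun _ => (0 : E)) i r b
  simpa using h

private theorem rb_sum {ι : Type} (s : Finset ι) (a : Fin 2 → Tor d n) (ψ : ι → Rec → E) (i : ℕ)
    (r : Rec) (b : Tor d n) :
    rb a (fun r => ∑ k ∈ s, ψ k r) i r b = ∑ k ∈ s, rb a (ψ k) i r b := by
  classical
  induction s using Finset.induction_on with
  | empty => simp only [Finset.sum_empty]; exact rb_zero a i r b
  | insert x s hx ih =>
    simp only [Finset.sum_insert hx]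
    rw [rb_add, ih]

omit [NeZero n] in
private theorem cmb_upd (a : Fin 2 → Tor d n) (t : ℕ) (b : Tor d n) (ρ r : Rec) :
    cmb (upd a t b ρ) r = cmb ρ (ov a t b r) := by
  funext i
  unfold cmb upd ov
  cases ρ i with
  | none =>
    by_cases h : b = a i
    · simp [h]
    · simp [h]
  | some s => rfl

private theorem EP_reversal_aux (a : Fin 2 → Tor d n) (j : ℕ) :
    ∀ (Θ : Rec → Tor d n → E) (r : Rec),
      EP j (fun η b => Θ (cmb (lrec a η 0 j) r) b) =
        (NN d n)⁻¹ • ∑ b, rb a (fun ρ => Θ ρ b) j r b := by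
  induction j with
  | zero =>
    intro Θ r
    simp only [EP, rb]
    rfl
  | succ j ih =>
    intro Θ r
    have h1 : EP (j + 1) (fun η b => Θ (cmb (lrec a η 0 (j + 1)) r) b) =
        EP j (fun η b => ∑ b', if b = b' then
          ∑ w, stp d n w • Θ (cmb (lrec a η 0 j) (ov a j b' r)) (b' + w) else 0) := by
      simp only [EP]
      congr 1
      funext η b
      rw [Finset.sum_ite_eq Finset.univ b, if_pos (Finset.mem_univ _)]
      refine Finset.sum_congr rfl fun w _ => ?_
      rw [lrec_update_succ, sub_zero, cmb_upd]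
    rw [h1]
    have h2 := EP_sum (E := E) j (Finset.univ : Finset (Tor d n)) (fun b' η b => if b = b' then
          ∑ w, stp d n w • Θ (cmb (lrec a η 0 j) (ov a j b' r)) (b' + w) else 0)
    rw [h2]
    have h3 : ∀ b' : Tor d n, EP j (fun η b => if b = b' then
          ∑ w, stp d n w • Θ (cmb (lrec a η 0 j) (ov a j b' r)) (b' + w) else 0) =
        (NN d n)⁻¹ • ∑ w, stp d n w • rb a (fun ρ => Θ ρ (b' + w)) j (ov a j b' r) b' := by
      intro b'
      rw [ih (fun ρ b => if b = b' then ∑ w, stp d n w • Θ ρ (b' + w) else 0) (ov a j b' r)]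
      congr 1
      rw [Finset.sum_eq_single b']
      · simp only [if_true]
        rw [rb_sum]
        refine Finset.sum_congr rfl fun w _ => ?_
        rw [rb_smul]
      · intro b _ hb
        simp only [if_neg hb]
        exact rb_zero a j _ b
      · intro h
        exact absurd (Finset.mem_univ _) h
    rw [Finset.sum_congr rfl fun b' _ => h3 b', ← Finset.smul_sum]
    congr 1
    simp only [rb]
    rw [Finset.sum_comm]
    have h4 : ∀ w : Tor d n,
        ∑ b', stp d n w • rb a (fun ρ => Θ ρ (b' + w)) j (ov a j b' r) b' =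
        ∑ b, stp d n (-w) • rb a (fun ρ => Θ ρ b) j (ov a j (b + -w) r) (b + -w) := by
      intro w
      refine Fintype.sum_equiv (Equiv.addRight w) _ _ (fun b' => ?_)
      simp only [Equiv.coe_addRight, add_neg_cancel_right, stp_neg]
    rw [Finset.sum_congr rfl fun w _ => h4 w, Finset.sum_comm]
    refine Finset.sum_congr rfl fun b _ => ?_
    exact Fintype.sum_equiv (Equiv.neg _) _ _ (fun w => rfl)

theorem EP_reversal (a : Fin 2 → Tor d n) (Θ : Rec → Tor d n → E) (j : ℕ) :
    EP j (fun η b => Θ (lrec a η 0 j) b) =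
      (NN d n)⁻¹ • ∑ b, rb a (fun ρ => Θ ρ b) j rec0 b := by
  have h := EP_reversal_aux a j Θ rec0
  have h2 : ∀ ρ : Rec, cmb ρ rec0 = ρ := by
    intro ρ
    funext i
    unfold cmb rec0
    cases ρ i <;> rfl
  simp only [h2] at h
  exact h

theorem rb_mean (a : Fin 2 → Tor d n) (ψ : Rec → E) (j : ℕ) :
    (NN d n)⁻¹ • ∑ b, rb a ψ j rec0 b = ER j fun η => ψ (lrec a η 0 j) := by
  exact (EP_reversal a (fun ρ _ => ψ ρ) j).symm

/-- centred charge formula for the reversed walk -/
theorem rb_sub_mean {a : Fin 2 → Tor d n} (ha : a 0 ≠ a 1) (hd : 1 ≤ d) (ψ : Rec → E) (j : ℕ)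
    (b : Tor d n) : rb a ψ j rec0 b = (ER j fun η => ψ (lrec a η 0 j)) +
      ∑ i ∈ range j, ∑ l, (hk d n (j - i) (b - a l) - (NN d n)⁻¹) • rchg a ψ i rec0 l := by
  rw [← rb_mean, rb_charge ha hd ψ j rec0 b]
  have h1 : ∑ c, rb a ψ j rec0 c = (NN d n) • ψ rec0 +
      ∑ i ∈ range j, ∑ l, rchg a ψ i rec0 l := by
    rw [Finset.sum_congr rfl fun c _ => rb_charge ha hd ψ j rec0 c, Finset.sum_add_distrib,
      Finset.sum_const, Finset.card_univ, ← card_tor, Nat.cast_smul_eq_nsmul ℝ]
    congr 1
    rw [Finset.sum_comm]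
    refine Finset.sum_congr rfl fun i _ => ?_
    rw [Finset.sum_comm]
    refine Finset.sum_congr rfl fun l _ => ?_
    rw [← Finset.sum_smul]
    have h2 : ∑ c, hk d n (j - i) (c - a l) = ∑ c, hk d n (j - i) c :=
      Fintype.sum_equiv (Equiv.subRight (a l)) _ _ (fun c => rfl)
    rw [h2, hk_sum hd, one_smul]
  rw [h1, smul_add, smul_smul, inv_mul_cancel₀ (ne_of_gt NN_pos), one_smul, add_assoc]
  congr 1
  rw [Finset.smul_sum, ← Finset.sum_add_distrib]
  refine Finset.sum_congr rfl fun i _ => ?_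
  rw [Finset.smul_sum, ← Finset.sum_add_distrib]
  refine Finset.sum_congr rfl fun l _ => ?_
  rw [← add_smul]
  congr 1
  ring

end CRW
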