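import Pool.Agent.Lib.CRW.PD
import Pool.Agent.Lib.CRW.PC3

/-!
# Module PE: the decay of the probability that the record is incomplete

PROOFS.  `nv_mono`: fewer steps, larger probability.  `inc_pv`: if `r j = none`, the final record `ρ` has
`ρ j = none` with probability `pv a (1{ρ j = none}) k t r b = ∑ w, stp w * nv (k-1) (b + w - a j)` for `k ≥ 1` (`= 1` for
`k = 0`), by induction on `k`; with `hb.decay` this is `≤ C e^(-κ (k-1)/N) ≤ 3 C e^(-κ k/N)` (`κ ≤ 1`, `1 ≤ N`,
`Real.exp_one_lt_d9`).  If `Inc` holds for the final record then some `j` has `ρ j = none` (and `r j = none`): sum over `j`.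
`ER_inc`: `ER_lrec` with `t = 0`, `vbar`: `ER (k+1) 1{Inc} = N⁻¹ ∑ b, val a 1{Inc} k 0 rec0 (b - x)`; `val = pv` at an updated record.
`EP_inc`: let `s' = t - n^2` (so `s' ≤ s`) if `n^2 ≤ t`: `1{Inc (lrec s)} ≤ 1{Inc (lrec s')}`, `EP_dens` with
`g = 1{Inc (lrec a η x s')} * G b`, `ER_inc`, `e^(-κ s'/N) ≤ e^(κ) e^(-κ t/N)` as `n^2 ≤ N`.  If `t < n^2`: bound the indicator by
`1`, `EP_unif`, `e^(-κ t/N) ≥ e^(-1)`.
-/

open Finset

namespace CRW

variable {d : ℕ}

/-- the indicator of `ρ j = none` -/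
private noncomputable def peI (j : Fin 2) (ρ : Rec) : ℝ := if ρ j = none then 1 else 0

private theorem peI_nonneg (j : Fin 2) (ρ : Rec) : 0 ≤ peI j ρ := by
  unfold peI
  split_ifs <;> norm_num

private theorem pe_pv_some {n : ℕ} [NeZero n] (a : Fin 2 → Tor d n) (j : Fin 2) (k t : ℕ)
    (r : Rec) (hr : r j ≠ none) (b : Tor d n) : pv a (peI j) k t r b = 0 := by
  induction k generalizing t r b with
  | zero =>
    rw [pv, peI, if_neg hr]
  | succ k ih =>
    rw [pv]
    refine Finset.sum_eq_zero fun w _ => ?_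
    obtain ⟨s, hs⟩ := Option.ne_none_iff_exists'.1 hr
    rw [ih (t + 1) _ (by simp [upd, hs]), smul_zero]

private theorem pe_pv_none {n : ℕ} [NeZero n] (a : Fin 2 → Tor d n) (j : Fin 2) (k t : ℕ)
    (r : Rec) (hr : r j = none) (b : Tor d n) :
    pv a (peI j) (k + 1) t r b = ∑ w, stp d n w * nv d n k (b + w - a j) := by
  induction k generalizing t r b with
  | zero =>
    rw [pv]
    refine Finset.sum_congr rfl fun w _ => ?_
    rw [pv, nv, smul_eq_mul]
    congr 1
    by_cases h : b + w = a j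
    · rw [if_pos (sub_eq_zero.2 h), peI, if_neg (by simp [upd, hr, h])]
    · rw [if_neg (sub_ne_zero.2 h), peI, if_pos (by simp [upd, hr, h])]
  | succ k ih =>
    rw [pv]
    refine Finset.sum_congr rfl fun w _ => ?_
    rw [smul_eq_mul]
    congr 1
    by_cases h : b + w = a j
    · rw [pe_pv_some a j _ _ _ (by simp [upd, hr, h]), nv, if_pos (sub_eq_zero.2 h)]
    · rw [ih _ _ (by simp [upd, hr, h]), nv, if_neg (sub_ne_zero.2 h)]
      refine Finset.sum_congr rfl fun v _ => ?_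
      rw [show b + w + v - a j = b + w - a j + v by abel]

private theorem pe_NN {n : ℕ} [NeZero n] : 1 ≤ NN d n := by
  unfold NN
  exact one_le_pow₀ (by exact_mod_cast NeZero.one_le)

private theorem pe_exp {κ N : ℝ} (_h1 : 0 < κ) (h2 : κ ≤ 1) (hN : 1 ≤ N) (k : ℕ) :
    Real.exp (-κ * k / N) ≤ 3 * Real.exp (-κ * ((k + 1 : ℕ) : ℝ) / N) := by
  have e : Real.exp (-κ * k / N) = Real.exp (κ / N) * Real.exp (-κ * ((k + 1 : ℕ) : ℝ) / N) := by
    rw [← Real.exp_add]
    congr 1
    push_cast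
    ring
  have h3 : κ / N ≤ 1 := by
    rw [div_le_one (by linarith)]
    linarith
  have h4 : Real.exp (κ / N) ≤ 3 :=
    (Real.exp_le_exp.2 h3).trans (by linarith [Real.exp_one_lt_d9])
  rw [e]
  exact mul_le_mul_of_nonneg_right h4 (Real.exp_pos _).le

private theorem pe_one (hd : 3 ≤ d) {C κ : ℝ} {n : ℕ} [NeZero n] (hb : HKB d n C κ)
    (a : Fin 2 → Tor d n) (j : Fin 2) (k t : ℕ) (r : Rec) (b : Tor d n) :
    pv a (peI j) k t r b ≤ 3 * C * Real.exp (-κ * k / NN d n) := by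
  have hC := hb.hC
  have hpos : 0 ≤ 3 * C * Real.exp (-κ * k / NN d n) := by positivity
  by_cases hr : r j = none
  · rcases k with _ | k
    · rw [pv, peI, if_pos hr]
      simp only [Nat.cast_zero, mul_zero, zero_div, Real.exp_zero, mul_one]
      linarith
    · rw [pe_pv_none a j k t r hr]
      calc ∑ w, stp d n w * nv d n k (b + w - a j)
          ≤ ∑ w, stp d n w * (C * Real.exp (-κ * k / NN d n)) :=
            Finset.sum_le_sum fun w _ =>
              mul_le_mul_of_nonneg_left (hb.decay _ _) (stp_nonneg w)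
        _ = C * Real.exp (-κ * k / NN d n) := by
            rw [← Finset.sum_mul, stp_sum (by omega), one_mul]
        _ ≤ C * (3 * Real.exp (-κ * ((k + 1 : ℕ) : ℝ) / NN d n)) :=
            mul_le_mul_of_nonneg_left (pe_exp hb.hκ hb.hκ1 pe_NN k) (by linarith)
        _ = _ := by ring
  · rw [pe_pv_some a j k t r hr]
    exact hpos

open Classical in
theorem inc_pv (hd : 3 ≤ d) (C κ : ℝ) : ∃ C' : ℝ, 1 ≤ C' ∧ ∀ (n : ℕ) [NeZero n], HKB d n C κ →
    ∀ (a : Fin 2 → Tor d n) (k t : ℕ) (r : Rec) (b : Tor d n),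
      pv a (fun ρ => if Inc ρ then (1 : ℝ) else 0) k t r b ≤
        C' * Real.exp (-κ * k / NN d n) := by
  refine ⟨6 * max C 1, by linarith [le_max_right C 1], fun n _ hb a k t r b => ?_⟩
  have h1 : pv a (fun ρ => if Inc ρ then (1 : ℝ) else 0) k t r b ≤
      pv a (fun ρ => peI 0 ρ + peI 1 ρ) k t r b := by
    refine pv_mono a (fun ρ => ?_) k t r b
    split_ifs with h
    · obtain ⟨j, hj⟩ := h
      fin_cases j
      · have h2 : peI 0 ρ = 1 := if_pos hj
        linarith [peI_nonneg 1 ρ]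
      · have h2 : peI 1 ρ = 1 := if_pos hj
        linarith [peI_nonneg 0 ρ]
    · exact add_nonneg (peI_nonneg 0 ρ) (peI_nonneg 1 ρ)
  rw [pv_add] at h1
  have h2 := pe_one hd hb a 0 k t r b
  have h3 := pe_one hd hb a 1 k t r b
  have h4 : C * Real.exp (-κ * k / NN d n) ≤ max C 1 * Real.exp (-κ * k / NN d n) :=
    mul_le_mul_of_nonneg_right (le_max_left _ _) (Real.exp_pos _).le
  linarith

open Classical in
theorem ER_inc (hd : 3 ≤ d) (C κ : ℝ) : ∃ C' : ℝ, 1 ≤ C' ∧ ∀ (n : ℕ) [NeZero n], HKB d n C κ →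
    ∀ (a : Fin 2 → Tor d n) (x : Tor d n) (s : ℕ),
      ER s (fun η => if Inc (lrec a η x s) then (1 : ℝ) else 0) ≤
        C' * Real.exp (-κ * s / NN d n) := by
  obtain ⟨C1, hC1, H⟩ := inc_pv hd C κ
  refine ⟨3 * C1, by linarith, fun n _ hb a x s => ?_⟩
  rcases s with _ | k
  · have h1 : ER 0 (fun η => if Inc (lrec a η x 0) then (1 : ℝ) else 0) ≤
        EP 0 (fun (_ : ℕ → Tor d n) (_ : Tor d n) => (1 : ℝ)) := by
      unfold ER
      refine EP_mono 0 _ _ fun η b => ?_
      beta_reduce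
      split_ifs <;> norm_num
    rw [EP_const (by omega)] at h1
    simp only [Nat.cast_zero, mul_zero, zero_div, Real.exp_zero, mul_one]
    linarith
  · have h1 := ER_lrec (by omega) a (fun ρ => if Inc ρ then (1 : ℝ) else 0) x 0 k
    rw [zero_add] at h1
    rw [h1]
    have h2 : (EP 0 fun η b => val a (fun ρ => if Inc ρ then (1 : ℝ) else 0) k 0
        (lrec a η x 0) (b - x)) ≤
        EP 0 (fun (_ : ℕ → Tor d n) (_ : Tor d n) => C1 * Real.exp (-κ * k / NN d n)) := by
      refine EP_mono 0 _ _ fun η b => ?_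
      exact H n hb a k 0 _ _
    rw [EP_const (by omega)] at h2
    refine h2.trans ?_
    calc C1 * Real.exp (-κ * k / NN d n)
        ≤ C1 * (3 * Real.exp (-κ * ((k + 1 : ℕ) : ℝ) / NN d n)) :=
          mul_le_mul_of_nonneg_left (pe_exp hb.hκ hb.hκ1 pe_NN k) (by linarith)
      _ = _ := by ring

private theorem pe_inc_mono {n : ℕ} (a : Fin 2 → Tor d n) (η : ℕ → Tor d n) (x : Tor d n)
    {s s' : ℕ} (h : s' ≤ s) (hi : Inc (lrec a η x s)) : Inc (lrec a η x s') := by
  obtain ⟨j, hj⟩ := hi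
  exact ⟨j, frec_eq_none.2 fun u hu => frec_eq_none.1 hj u (hu.trans_le h)⟩

open Classical in
theorem EP_inc (hd : 3 ≤ d) (C κ : ℝ) : ∃ C' : ℝ, 1 ≤ C' ∧ ∀ (n : ℕ) [NeZero n], HKB d n C κ →
    ∀ (a : Fin 2 → Tor d n) (x : Tor d n) (s t : ℕ) (G : Tor d n → ℝ), (∀ b, 0 ≤ G b) →
      s ≤ t → t ≤ s + n ^ 2 →
      EP t (fun η b => (if Inc (lrec a η x s) then (1 : ℝ) else 0) * G b) ≤
        C' / NN d n * Real.exp (-κ * t / NN d n) * ∑ b, G b := by
  obtain ⟨C1, hC1, H⟩ := ER_inc hd C κ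
  have hm : (1 : ℝ) ≤ max C 1 := le_max_right _ _
  refine ⟨3 * (max C 1 * C1), by nlinarith, fun n _ hb a x s t G hG hst hts => ?_⟩
  have hN : 0 < NN d n := lt_of_lt_of_le one_pos pe_NN
  have hS : 0 ≤ ∑ b, G b := Finset.sum_nonneg fun b _ => hG b
  have hC := hb.hC
  have hκ := hb.hκ
  have hκ1 := hb.hκ1
  have hn2 : ((n : ℝ) ^ 2) / NN d n ≤ 1 := by
    rw [div_le_one hN]
    exact sq_le_NN (by omega)
  have hexp : ∀ u v : ℕ, v ≤ u + n ^ 2 →
      Real.exp (-κ * u / NN d n) ≤ 3 * Real.exp (-κ * v / NN d n) := by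
    intro u v huv
    have e : Real.exp (-κ * u / NN d n) =
        Real.exp (κ * ((v : ℝ) - u) / NN d n) * Real.exp (-κ * v / NN d n) := by
      rw [← Real.exp_add]
      congr 1
      ring
    have h1 : κ * ((v : ℝ) - u) / NN d n ≤ 1 := by
      have h2 : (v : ℝ) - u ≤ (n : ℝ) ^ 2 := by
        have : (v : ℝ) ≤ (u : ℝ) + (n : ℝ) ^ 2 := by exact_mod_cast huv
        linarith
      calc κ * ((v : ℝ) - u) / NN d n ≤ κ * (n : ℝ) ^ 2 / NN d n := by gcongr
        _ = κ * ((n : ℝ) ^ 2 / NN d n) := by ring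
        _ ≤ 1 * 1 := by gcongr
        _ = 1 := one_mul 1
    rw [e]
    exact mul_le_mul_of_nonneg_right
      ((Real.exp_le_exp.2 h1).trans (by linarith [Real.exp_one_lt_d9])) (Real.exp_pos _).le
  rcases le_or_gt (n ^ 2) t with htn | htn
  · obtain ⟨s', rfl⟩ := Nat.exists_eq_add_of_le' htn
    have hs' : s' ≤ s := by omega
    have h1 : EP (s' + n ^ 2) (fun η b => (if Inc (lrec a η x s) then (1 : ℝ) else 0) * G b) ≤
        EP (s' + n ^ 2) (fun η b => (if Inc (lrec a η x s') then (1 : ℝ) else 0) * G b) := by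
      refine EP_mono _ _ _ fun η b => ?_
      refine mul_le_mul_of_nonneg_right ?_ (hG b)
      by_cases h : Inc (lrec a η x s)
      · rw [if_pos h, if_pos (pe_inc_mono a η x hs' h)]
      · rw [if_neg h]
        split_ifs <;> norm_num
    have h2 := EP_dens hd hb (s := s') (t := s' + n ^ 2) le_rfl
      (fun η b => (if Inc (lrec a η x s') then (1 : ℝ) else 0) * G b)
      (fun η η' b hη => by simp only [lrec_congr a x s' hη])
      (fun η b => mul_nonneg (by split_ifs <;> norm_num) (hG b))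
    have h3 : (ER s' fun η => ∑ b, (if Inc (lrec a η x s') then (1 : ℝ) else 0) * G b) =
        (∑ b, G b) * ER s' (fun η => if Inc (lrec a η x s') then (1 : ℝ) else 0) := by
      unfold ER
      have h4 := EP_smul s' (∑ b, G b)
        (fun (η : ℕ → Tor d n) (_ : Tor d n) => if Inc (lrec a η x s') then (1 : ℝ) else 0)
      rw [smul_eq_mul] at h4
      rw [← h4]
      congr 1
      funext η b
      beta_reduce
      rw [smul_eq_mul, ← Finset.mul_sum, mul_comm]
    rw [h3] at h2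
    have h5 := H n hb a x s'
    have h6 := hexp s' (s' + n ^ 2) le_rfl
    calc _ ≤ _ := h1
      _ ≤ _ := h2
      _ ≤ C / NN d n * ((∑ b, G b) * (C1 * (3 * Real.exp (-κ * ((s' + n ^ 2 : ℕ) : ℝ) / NN d n)))) := by
          gcongr
          exact h5.trans (mul_le_mul_of_nonneg_left h6 (by linarith))
      _ ≤ max C 1 / NN d n *
          ((∑ b, G b) * (C1 * (3 * Real.exp (-κ * ((s' + n ^ 2 : ℕ) : ℝ) / NN d n)))) := by
          gcongr
          exact le_max_left _ _
      _ = _ := by ring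
  · have h1 : EP t (fun η b => (if Inc (lrec a η x s) then (1 : ℝ) else 0) * G b) ≤
        EP t (fun (_ : ℕ → Tor d n) b => G b) := by
      refine EP_mono _ _ _ fun η b => ?_
      have h2 : (if Inc (lrec a η x s) then (1 : ℝ) else 0) ≤ 1 := by split_ifs <;> norm_num
      calc _ ≤ 1 * G b := mul_le_mul_of_nonneg_right h2 (hG b)
        _ = G b := one_mul _
    rw [EP_unif t (by omega), smul_eq_mul] at h1
    have h6 := hexp 0 t (by omega)
    simp only [Nat.cast_zero, mul_zero, zero_div, Real.exp_zero] at h6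
    have h7 : 1 ≤ max C 1 * C1 := by nlinarith
    calc _ ≤ _ := h1
      _ = 1 * ((NN d n)⁻¹ * ∑ b, G b) := (one_mul _).symm
      _ ≤ ((max C 1 * C1) * (3 * Real.exp (-κ * t / NN d n))) * ((NN d n)⁻¹ * ∑ b, G b) := by
          refine mul_le_mul_of_nonneg_right ?_ (by positivity)
          calc (1 : ℝ) = 1 * 1 := (one_mul 1).symm
            _ ≤ _ := mul_le_mul h7 h6 zero_le_one (by linarith)
      _ = _ := by ring

end CRW
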