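import Pool.Agent.Lib.CRW.PF
import Pool.Agent.Lib.CRW.TS

/-!
# Module TV1: the remainder of the hybrid argument

PROOF.  Let `V w = val a (fun r => h' ..) ..`.  Write for steps `w, w'`
`Ψ w w' = val a (fun ρ => val a (fun ρ' => h ρ ρ') k t r' (b - z + w')) k t r (b + w)`.
With weights `p w = stp w` (sum 1):
`∑ w, p w Ψ w w - ∑ w, ∑ w', p w p w' Ψ w w' = 1/2 ∑ w, ∑ w', p w p w' (Ψ w w + Ψ w' w' - Ψ w w' - Ψ w' w)` and the bracket is
`(val at b+w - val at b+w') of θ`, `θ ρ = val a (h ρ) k t r' (b-z+w) - val a (h ρ) k t r' (b-z+w')` (linearity of `val` in `ψ`).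
`|θ ρ| ≤ 2 C' B₂` by `val_grad` for `h ρ` (triangle through `b - z`), where
`B₂ = B e^(-κ' k/N) / rho (b-z)^(d-1)` if `Inc r'`, else `0` (both `w`, `w'` are steps, otherwise the term is `0`);
if `h ρ ρ' = 0` for `¬ Inc ρ` then also `θ ρ = 0` for `¬ Inc ρ`.  So `θ` is bounded by `2 C' B₂`, resp. also vanishes for complete
records, hence in the class `Dec` with `B = 2 C' B₂ * C''` (`Dec_of_le`, `Dec_of_inc`), and `val_grad` again (triangle through `b`).
First statement (`κ' = 0`, `B = 1`): `|h| ≤ 1`.  Second (`κ' = κ`): in addition `h r r' = 0` unless both are `Inc`.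
-/

open Finset

namespace CRW

variable {d : ℕ}

private theorem val_sub {n : ℕ} [NeZero n] (a : Fin 2 → Tor d n) (ψ φ : Rec → ℝ) (k t : ℕ)
    (r : Rec) (b : Tor d n) :
    val a (fun r => ψ r - φ r) k t r b = val a ψ k t r b - val a φ k t r b := by
  unfold val
  have h1 := pv_add a ψ (fun r => (-1 : ℝ) • φ r) k t (upd a t b r) b
  rw [pv_smul] at h1
  have h2 : (fun r => ψ r - φ r) = fun r => ψ r + (-1 : ℝ) • φ r := by
    funext r
    simp [sub_eq_add_neg]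
  rw [h2, h1]
  simp [sub_eq_add_neg]

/-- symmetrisation -/
private theorem hybrid_core {n : ℕ} [NeZero n] (hd : 1 ≤ d) (Ψ : Tor d n → Tor d n → ℝ) (D : ℝ)
    (hD : ∀ w w', stp d n w ≠ 0 → stp d n w' ≠ 0 → |Ψ w w + Ψ w' w' - Ψ w w' - Ψ w' w| ≤ 2 * D) :
    |(∑ w, stp d n w * Ψ w w) - ∑ w, ∑ w', stp d n w * (stp d n w' * Ψ w w')| ≤ D := by
  have hs : ∑ w : Tor d n, stp d n w = 1 := stp_sum hd
  have e1 : ∑ w, ∑ w', stp d n w * (stp d n w' * Ψ w w) = ∑ w, stp d n w * Ψ w w := by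
    refine Finset.sum_congr rfl fun w _ => ?_
    rw [← Finset.mul_sum, ← Finset.sum_mul, hs, one_mul]
  have e2 : ∑ w, ∑ w', stp d n w * (stp d n w' * Ψ w' w') = ∑ w, stp d n w * Ψ w w := by
    rw [Finset.sum_comm]
    refine Finset.sum_congr rfl fun w _ => ?_
    rw [← Finset.sum_mul, hs, one_mul]
  have e3 : ∑ w, ∑ w', stp d n w * (stp d n w' * Ψ w' w) =
      ∑ w, ∑ w', stp d n w * (stp d n w' * Ψ w w') := by
    rw [Finset.sum_comm]
    exact Finset.sum_congr rfl fun w _ => Finset.sum_congr rfl fun w' _ => by ring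
  have e4 : ∑ w, ∑ w', stp d n w * (stp d n w' * (Ψ w w + Ψ w' w' - Ψ w w' - Ψ w' w)) =
      2 * ((∑ w, stp d n w * Ψ w w) - ∑ w, ∑ w', stp d n w * (stp d n w' * Ψ w w')) := by
    have : ∀ w w' : Tor d n, stp d n w * (stp d n w' * (Ψ w w + Ψ w' w' - Ψ w w' - Ψ w' w)) =
        stp d n w * (stp d n w' * Ψ w w) + stp d n w * (stp d n w' * Ψ w' w') -
          stp d n w * (stp d n w' * Ψ w w') - stp d n w * (stp d n w' * Ψ w' w) := by
      intro w w'
      ring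
    simp only [this, Finset.sum_add_distrib, Finset.sum_sub_distrib]
    rw [e1, e2, e3]
    ring
  have h0 : ∀ w w' : Tor d n, |stp d n w * (stp d n w' * (Ψ w w + Ψ w' w' - Ψ w w' - Ψ w' w))| ≤
      stp d n w * (stp d n w' * (2 * D)) := by
    intro w w'
    rw [abs_mul, abs_mul, abs_of_nonneg (stp_nonneg w), abs_of_nonneg (stp_nonneg w')]
    by_cases hw : stp d n w = 0
    · rw [hw, zero_mul, zero_mul]
    by_cases hw' : stp d n w' = 0
    · rw [hw', zero_mul, zero_mul]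
    exact mul_le_mul_of_nonneg_left (mul_le_mul_of_nonneg_left (hD w w' hw hw') (stp_nonneg w'))
      (stp_nonneg w)
  have e5 : ∑ w : Tor d n, ∑ w' : Tor d n, stp d n w * (stp d n w' * (2 * D)) = 2 * D := by
    have : ∀ w : Tor d n, ∑ w' : Tor d n, stp d n w * (stp d n w' * (2 * D)) =
        stp d n w * (2 * D) := by
      intro w
      rw [← Finset.mul_sum, ← Finset.sum_mul, hs, one_mul]
    rw [Finset.sum_congr rfl fun w _ => this w, ← Finset.sum_mul, hs, one_mul]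
  have h1 : |∑ w, ∑ w', stp d n w * (stp d n w' * (Ψ w w + Ψ w' w' - Ψ w w' - Ψ w' w))| ≤
      2 * D := by
    rw [← e5]
    refine (Finset.abs_sum_le_sum_abs _ _).trans (Finset.sum_le_sum fun w _ => ?_)
    exact (Finset.abs_sum_le_sum_abs _ _).trans (Finset.sum_le_sum fun w' _ => h0 w w')
  rw [e4, abs_mul, abs_of_pos (by norm_num : (0 : ℝ) < 2)] at h1
  linarith

open Classical in
/-- common part: `h ρ` and the differences `θ` are in classes `Dec` -/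
private theorem hybrid_aux {n : ℕ} [NeZero n] (hd : 3 ≤ d) {C κ C₁ : ℝ} (hb : HKB d n C κ)
    (H1 : ∀ (E : Type) [NormedAddCommGroup E] [NormedSpace ℝ E]
      (a : Fin 2 → Tor d n) (ψ : Rec → E) (B κ' : ℝ), (∀ j, nrm (a j) ≤ 1) → a 0 ≠ a 1 →
      0 ≤ κ' → κ' ≤ κ → Dec a ψ B κ' → ∀ (k t : ℕ) (r : Rec) (b w : Tor d n),
      stp d n w ≠ 0 → ‖val a ψ k t r (b + w) - val a ψ k t r b‖ ≤
        if Inc r then C₁ * B * Real.exp (-κ' * k / NN d n) / rho b ^ (d - 1) else 0)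
    (a : Fin 2 → Tor d n) (h : Rec → Rec → ℝ) (ha : ∀ j, nrm (a j) ≤ 1) (hne : a 0 ≠ a 1)
    (κ' : ℝ) (hκ' : 0 ≤ κ') (hκ'' : κ' ≤ κ) (B K : ℝ) (hB : ∀ ρ, Dec a (fun ρ' => h ρ ρ') B κ')
    (k t : ℕ) (r r' : Rec) (b z : Tor d n)
    (hθ : ∀ (X : ℝ) (θ : Rec → ℝ), (∀ ρ, |θ ρ| ≤ X) →
      (∀ ρ, (∀ ρ', h ρ ρ' = 0) → θ ρ = 0) → Dec a θ (K * X) κ') :
    |(∑ w, stp d n w * val a (fun ρ => val a (fun ρ' => h ρ ρ') k t r' (b - z + w)) k t r
          (b + w)) - ∑ w, ∑ w', stp d n w * (stp d n w' *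
          val a (fun ρ => val a (fun ρ' => h ρ ρ') k t r' (b - z + w')) k t r (b + w))| ≤
        if Inc r ∧ Inc r' then 2 * C₁ ^ 2 * K * B * (Real.exp (-κ' * k / NN d n)) ^ 2 /
          (rho b ^ (d - 1) * rho (b - z) ^ (d - 1)) else 0 := by
  set X : ℝ := if Inc r' then C₁ * B * Real.exp (-κ' * k / NN d n) / rho (b - z) ^ (d - 1) else 0
    with hX
  have hX1 : ∀ w, stp d n w ≠ 0 → ∀ ρ, |val a (fun ρ' => h ρ ρ') k t r' (b - z + w) -
      val a (fun ρ' => h ρ ρ') k t r' (b - z)| ≤ X := by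
    intro w hw ρ
    exact H1 ℝ a (fun ρ' => h ρ ρ') B κ' ha hne hκ' hκ'' (hB ρ) k t r' (b - z) w hw
  have key : ∀ w w', stp d n w ≠ 0 → stp d n w' ≠ 0 →
      |val a (fun ρ => val a (fun ρ' => h ρ ρ') k t r' (b - z + w)) k t r (b + w) +
        val a (fun ρ => val a (fun ρ' => h ρ ρ') k t r' (b - z + w')) k t r (b + w') -
        val a (fun ρ => val a (fun ρ' => h ρ ρ') k t r' (b - z + w')) k t r (b + w) -
        val a (fun ρ => val a (fun ρ' => h ρ ρ') k t r' (b - z + w)) k t r (b + w')| ≤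
      2 * (if Inc r then C₁ * (K * (2 * X)) * Real.exp (-κ' * k / NN d n) / rho b ^ (d - 1)
        else 0) := by
    intro w w' hw hw'
    have e1 := val_sub a (fun ρ => val a (fun ρ' => h ρ ρ') k t r' (b - z + w))
      (fun ρ => val a (fun ρ' => h ρ ρ') k t r' (b - z + w')) k t r (b + w)
    have e2 := val_sub a (fun ρ => val a (fun ρ' => h ρ ρ') k t r' (b - z + w))
      (fun ρ => val a (fun ρ' => h ρ ρ') k t r' (b - z + w')) k t r (b + w')
    set θ : Rec → ℝ := fun ρ => val a (fun ρ' => h ρ ρ') k t r' (b - z + w) -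
      val a (fun ρ' => h ρ ρ') k t r' (b - z + w') with hθdef
    have hθ1 : ∀ ρ, |θ ρ| ≤ 2 * X := by
      intro ρ
      have h1 := hX1 w hw ρ
      have h2 := hX1 w' hw' ρ
      rw [abs_le] at h1 h2 ⊢
      constructor <;> simp only [hθdef] <;> linarith [h1.1, h1.2, h2.1, h2.2]
    have hθ2 : ∀ ρ, (∀ ρ', h ρ ρ' = 0) → θ ρ = 0 := by
      intro ρ hρ
      have h1 : (fun ρ' => h ρ ρ') = fun _ => (0 : ℝ) := funext hρ
      have h2 : ∀ y, val a (fun ρ' => h ρ ρ') k t r' y = 0 := by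
        intro y
        rw [h1]
        exact pv_const a (by omega) 0 k t _ y
      simp only [hθdef, h2, sub_self]
    have hD := hθ (2 * X) θ hθ1 hθ2
    have h3 := H1 ℝ a θ (K * (2 * X)) κ' ha hne hκ' hκ'' hD k t r b w hw
    have h4 := H1 ℝ a θ (K * (2 * X)) κ' ha hne hκ' hκ'' hD k t r b w' hw'
    rw [Real.norm_eq_abs] at h3 h4
    have e3 : val a (fun ρ => val a (fun ρ' => h ρ ρ') k t r' (b - z + w)) k t r (b + w) +
        val a (fun ρ => val a (fun ρ' => h ρ ρ') k t r' (b - z + w')) k t r (b + w') -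
        val a (fun ρ => val a (fun ρ' => h ρ ρ') k t r' (b - z + w')) k t r (b + w) -
        val a (fun ρ => val a (fun ρ' => h ρ ρ') k t r' (b - z + w)) k t r (b + w') =
        val a θ k t r (b + w) - val a θ k t r (b + w') := by
      rw [e1, e2]
      ring
    rw [e3]
    rw [abs_le] at h3 h4 ⊢
    constructor <;> linarith [h3.1, h3.2, h4.1, h4.2]
  refine (hybrid_core (by omega) (fun w w' => val a (fun ρ => val a (fun ρ' => h ρ ρ') k t r'
    (b - z + w')) k t r (b + w)) _ key).trans (le_of_eq ?_)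
  by_cases h1 : Inc r
  · by_cases h2 : Inc r'
    · rw [if_pos h1, if_pos ⟨h1, h2⟩, hX, if_pos h2]
      have p1 := pow_pos (rho_pos b) (d - 1)
      have p2 := pow_pos (rho_pos (b - z)) (d - 1)
      field_simp
    · rw [if_pos h1, if_neg (fun h => h2 h.2), hX, if_neg h2]
      simp
  · rw [if_neg h1, if_neg (fun h => h1 h.1)]

open Classical in
/-- no decay -/
theorem hybrid_rem (hd : 3 ≤ d) (C κ : ℝ) : ∃ C' : ℝ, 1 ≤ C' ∧ ∀ (n : ℕ) [NeZero n],
    HKB d n C κ → ∀ (a : Fin 2 → Tor d n) (h : Rec → Rec → ℝ), (∀ j, nrm (a j) ≤ 1) →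
      a 0 ≠ a 1 → (∀ r r', |h r r'| ≤ 1) → ∀ (k t : ℕ) (r r' : Rec) (b z : Tor d n),
      |(∑ w, stp d n w * val a (fun ρ => val a (fun ρ' => h ρ ρ') k t r' (b - z + w)) k t r
          (b + w)) - ∑ w, ∑ w', stp d n w * (stp d n w' *
          val a (fun ρ => val a (fun ρ' => h ρ ρ') k t r' (b - z + w')) k t r (b + w))| ≤
        if Inc r ∧ Inc r' then C' / (rho b ^ (d - 1) * rho (b - z) ^ (d - 1)) else 0 := by
  obtain ⟨C₁, hC₁, H1⟩ := val_grad hd C κ
  refine ⟨2 * C₁ ^ 2, by nlinarith, fun n _ hb a h ha hne hh k t r r' b z => ?_⟩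
  refine (hybrid_aux hd hb (H1 n hb) a h ha hne 0 le_rfl hb.hκ.le 1 1
    (fun ρ => Dec_of_le (by omega) a fun r => hh ρ r) k t r r' b z
    (fun X θ hX _ => ?_)).trans (le_of_eq ?_)
  · rw [one_mul]
    exact Dec_of_le (by omega) a hX
  · congr 1
    simp

open Classical in
/-- with decay -/
theorem hybrid_rem' (hd : 3 ≤ d) (C κ : ℝ) : ∃ C' : ℝ, 1 ≤ C' ∧ ∀ (n : ℕ) [NeZero n],
    HKB d n C κ → ∀ (a : Fin 2 → Tor d n) (h : Rec → Rec → ℝ), (∀ j, nrm (a j) ≤ 1) →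
      a 0 ≠ a 1 → (∀ r r', |h r r'| ≤ 1) → (∀ r r', ¬ (Inc r ∧ Inc r') → h r r' = 0) →
      ∀ (k t : ℕ) (r r' : Rec) (b z : Tor d n),
      |(∑ w, stp d n w * val a (fun ρ => val a (fun ρ' => h ρ ρ') k t r' (b - z + w)) k t r
          (b + w)) - ∑ w, ∑ w', stp d n w * (stp d n w' *
          val a (fun ρ => val a (fun ρ' => h ρ ρ') k t r' (b - z + w')) k t r (b + w))| ≤
        if Inc r ∧ Inc r' then C' * Real.exp (-2 * κ * k / NN d n) /
          (rho b ^ (d - 1) * rho (b - z) ^ (d - 1)) else 0 := by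
  obtain ⟨C₁, hC₁, H1⟩ := val_grad hd C κ
  obtain ⟨C₂, hC₂, H2⟩ := Dec_of_inc hd C κ
  refine ⟨2 * C₁ ^ 2 * C₂ * (C₂ * 1), ?_, fun n _ hb a h ha hne hh hh0 k t r r' b z => ?_⟩
  · have h1 : 1 ≤ C₁ ^ 2 := one_le_pow₀ hC₁
    have h2 : 1 ≤ C₂ * (C₂ * 1) := by nlinarith
    nlinarith
  refine (hybrid_aux hd hb (H1 n hb) a h ha hne κ hb.hκ.le le_rfl (C₂ * 1) C₂
    (fun ρ => H2 n hb ℝ a (fun ρ' => h ρ ρ') 1 zero_le_one (fun r => hh ρ r)
      (fun r hr => hh0 ρ r fun h => hr h.2)) k t r r' b z (fun X θ hX hθ0 => ?_)).trans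
        (le_of_eq ?_)
  · have hX0 : 0 ≤ X := (abs_nonneg _).trans (hX rec0)
    exact H2 n hb ℝ a θ X hX0 hX fun ρ hρ => hθ0 ρ fun ρ' => hh0 ρ ρ' fun h => hρ h.1
  · have he : Real.exp (-2 * κ * k / NN d n) = Real.exp (-κ * k / NN d n) ^ 2 := by
      rw [← Real.exp_nat_mul]
      congr 1
      push_cast
      ring
    rw [he]

end CRW
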