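import Pool.Agent.Lib.CRW.TV1

/-!
# Module TV2: the hybrid argument

`pvS` : the same walk is watched at the pair `0` (record `r`) and at the pair `z` (record `r'`).

PROOFS.  `pvS_ER`: `ER (M+1)` of `h (lrec 0) (lrec z)` is the mean over `b` of `pvS M 0` at the processed empty records:
as `ER_cnd`, `cnd_lrec`: prove by induction on `k` that `cnd k t (fun η => h (lrec a η 0 (t+k+1)) (lrec a η z (t+k+1))) η b`
`= pvS a h z k t (upd a t b (lrec a η 0 t)) (upd a t (b - z) (lrec a η z t)) b`.
`hybrid_iter`: let `Δ k t r r' b = pvS k t r r' b - pv (pv h ..(b - z)) k t r b` (records processed at time `t`).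
`Δ (k+1) t r r' b = ∑ w, stp w Δ k (t+1) (upd (t+1) (b+w) r) (upd (t+1) (b+w-z) r') (b+w) + Rem`, where `Rem` is exactly the
expression bounded in `hybrid_rem` at time `t+1` (`pv_succ`; `b + w - z = b - z + w`; `pv` of a sum).  Induction on `k`:
`|Δ k t r r' b| ≤ ∑ i < k, pvS (1{Inc, Inc} weight with position) ..`, where `pvG W i t r r' b` is the expectation after `i` steps
of `1{Inc r, Inc r'} W(position)`.
-/

open Finset

namespace CRW

variable {d n : ℕ} [NeZero n]

/-- the same walk watched at `0` and at `z`; time `t` processed, `k` more steps -/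
noncomputable def pvS (a : Fin 2 → Tor d n) (h : Rec → Rec → ℝ) (z : Tor d n) :
    ℕ → ℕ → Rec → Rec → Tor d n → ℝ
  | 0, _, r, r', _ => h r r'
  | k + 1, t, r, r', b => ∑ w, stp d n w * pvS a h z k (t + 1) (upd a (t + 1) (b + w) r)
      (upd a (t + 1) (b + w - z) r') (b + w)

open Classical in
/-- expectation of `1{both records incomplete} * W (position)` after `i` steps -/
noncomputable def pvG (a : Fin 2 → Tor d n) (W : Tor d n → ℝ) (z : Tor d n) :
    ℕ → ℕ → Rec → Rec → Tor d n → ℝ
  | 0, _, r, r', b => if Inc r ∧ Inc r' then W b else 0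
  | k + 1, t, r, r', b => ∑ w, stp d n w * pvG a W z k (t + 1) (upd a (t + 1) (b + w) r)
      (upd a (t + 1) (b + w - z) r') (b + w)

private theorem cnd_pvS (a : Fin 2 → Tor d n) (h : Rec → Rec → ℝ) (z : Tor d n) (k : ℕ) :
    ∀ (t : ℕ) (η : ℕ → Tor d n) (b : Tor d n),
    cnd k t (fun η => h (lrec a η 0 (t + k + 1)) (lrec a η z (t + k + 1))) η b =
      pvS a h z k t (upd a t b (lrec a η 0 t)) (upd a t (b - z) (lrec a η z t)) b := by
  induction k with
  | zero =>
    intro t η b
    simp only [cnd, pvS, Nat.add_zero, lrec_update_succ, sub_zero]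
  | succ k ih =>
    intro t η b
    simp only [cnd, pvS, smul_eq_mul]
    refine Finset.sum_congr rfl fun w _ => ?_
    have e : t + (k + 1) + 1 = (t + 1) + k + 1 := by ring
    rw [e, ih (t + 1) (Function.update η t b) (b + w), lrec_update_succ, lrec_update_succ,
      sub_zero]

theorem pvS_ER (hd : 1 ≤ d) (a : Fin 2 → Tor d n) (h : Rec → Rec → ℝ) (z : Tor d n) (M : ℕ) :
    ER (M + 1) (fun η => h (lrec a η 0 (M + 1)) (lrec a η z (M + 1))) =
      (NN d n)⁻¹ * ∑ b, pvS a h z M 0 (upd a 0 b rec0) (upd a 0 (b - z) rec0) b := by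
  have h1 := ER_cnd hd 0 M (fun η : ℕ → Tor d n => h (lrec a η 0 (M + 1)) (lrec a η z (M + 1)))
  rw [Nat.zero_add] at h1
  rw [h1]
  simp only [EP, smul_eq_mul]
  congr 1
  refine Finset.sum_congr rfl fun b _ => ?_
  have h2 := cnd_pvS a h z M 0 (fun _ => 0) b
  rw [Nat.zero_add] at h2
  rw [h2]
  rfl

open Classical in
private theorem pvG_EP' (a : Fin 2 → Tor d n) (W : Tor d n → ℝ) (z : Tor d n) (i : ℕ) :
    ∀ t : ℕ, EP (t + i) (fun η b => if Inc (lrec a (Function.update η (t + i) b) 0 (t + i + 1)) ∧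
        Inc (lrec a (Function.update η (t + i) b) z (t + i + 1)) then W b else 0) =
      EP t fun η b => pvG a W z i t (upd a t b (lrec a η 0 t)) (upd a t (b - z) (lrec a η z t)) b := by
  induction i with
  | zero =>
    intro t
    simp only [pvG, Nat.add_zero, lrec_update_succ, sub_zero]
  | succ i ih =>
    intro t
    have e : t + (i + 1) = (t + 1) + i := by ring
    rw [e, ih (t + 1)]
    simp only [EP, pvG, smul_eq_mul, lrec_update_succ, sub_zero]

open Classical in
theorem pvG_EP (a : Fin 2 → Tor d n) (W : Tor d n → ℝ) (z : Tor d n) (i : ℕ) :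
    (NN d n)⁻¹ * ∑ b, pvG a W z i 0 (upd a 0 b rec0) (upd a 0 (b - z) rec0) b =
      EP i fun η b => if Inc (lrec a (Function.update η i b) 0 (i + 1)) ∧
        Inc (lrec a (Function.update η i b) z (i + 1)) then W b else 0 := by
  have h := pvG_EP' a W z i 0
  rw [Nat.zero_add] at h
  rw [h]
  rfl

private theorem pv_zero_fun (a : Fin 2 → Tor d n) (k t : ℕ) (r : Rec) (b : Tor d n) :
    pv a (fun _ => (0 : ℝ)) k t r b = 0 := by
  have h := pv_smul a (0 : ℝ) (fun _ : Rec => (0 : ℝ)) k t r b
  simpa using h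

private theorem pv_sum_smul {ι : Type} (a : Fin 2 → Tor d n) (s : Finset ι) (c : ι → ℝ)
    (g : ι → Rec → ℝ) (k t : ℕ) (r : Rec) (b : Tor d n) :
    pv a (fun ρ => ∑ i ∈ s, c i * g i ρ) k t r b = ∑ i ∈ s, c i * pv a (g i) k t r b := by
  classical
  induction s using Finset.induction_on with
  | empty => simpa using pv_zero_fun a k t r b
  | insert i s hi ih =>
    simp only [Finset.sum_insert hi]
    rw [pv_add, ih]
    have := pv_smul a (c i) (g i) k t r b
    simp only [smul_eq_mul] at this
    rw [this]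

private theorem pvG_zero_time (a : Fin 2 → Tor d n) (W : Tor d n → ℝ) (z : Tor d n)
    (t t' : ℕ) (r r' : Rec) (b : Tor d n) :
    pvG a W z 0 t r r' b = pvG a W z 0 t' r r' b := by
  simp only [pvG]

/-- the hybrid inequality: `ε k` bounds the remainder with `k` steps left, in units of `W` -/
theorem hybrid_iter (a : Fin 2 → Tor d n) (h : Rec → Rec → ℝ) (z : Tor d n)
    (W : Tor d n → ℝ) (ε : ℕ → ℝ)
    (hrem : ∀ (k t : ℕ) (r r' : Rec) (b : Tor d n),
      |(∑ w, stp d n w * val a (fun ρ => val a (fun ρ' => h ρ ρ') k t r' (b - z + w)) k t r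
          (b + w)) - ∑ w, ∑ w', stp d n w * (stp d n w' *
          val a (fun ρ => val a (fun ρ' => h ρ ρ') k t r' (b - z + w')) k t r (b + w))| ≤
        ε k * pvG a W z 0 t r r' b) (k t : ℕ) (r r' : Rec) (b : Tor d n) :
    |pvS a h z k t r r' b - pv a (fun ρ => pv a (fun ρ' => h ρ ρ') k t r' (b - z)) k t r b| ≤
      ∑ i ∈ range k, ε (k - 1 - i) * pvG a W z i t r r' b := by
  induction k generalizing t r r' b with
  | zero => simp [pvS, pv]
  | succ k ih =>
    have hpp : pv a (fun ρ => pv a (fun ρ' => h ρ ρ') (k + 1) t r' (b - z)) (k + 1) t r b =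
        ∑ w, ∑ w', stp d n w * (stp d n w' *
          val a (fun ρ => val a (fun ρ' => h ρ ρ') k (t + 1) r' (b - z + w')) k (t + 1) r
            (b + w)) := by
      rw [pv_succ]
      refine Finset.sum_congr rfl fun w _ => ?_
      rw [smul_eq_mul, ← Finset.mul_sum]
      congr 1
      have e1 : (fun ρ => pv a (fun ρ' => h ρ ρ') (k + 1) t r' (b - z)) = fun ρ =>
          ∑ w', stp d n w' * val a (fun ρ' => h ρ ρ') k (t + 1) r' (b - z + w') := by
        funext ρ
        rw [pv_succ]
        simp only [smul_eq_mul]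
      rw [e1]
      unfold val
      exact pv_sum_smul a univ (stp d n)
        (fun w' ρ => pv a (fun ρ' => h ρ ρ') k (t + 1) (upd a (t + 1) (b - z + w') r')
          (b - z + w')) k (t + 1) _ (b + w)
    rw [hpp]
    set Ψ : Tor d n → Tor d n → ℝ := fun w w' =>
      val a (fun ρ => val a (fun ρ' => h ρ ρ') k (t + 1) r' (b - z + w')) k (t + 1) r (b + w)
      with hΨ
    have hr := hrem k (t + 1) r r' b
    have hsplit : pvS a h z (k + 1) t r r' b - ∑ w, ∑ w', stp d n w * (stp d n w' * Ψ w w') =
        (∑ w, stp d n w * (pvS a h z k (t + 1) (upd a (t + 1) (b + w) r)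
          (upd a (t + 1) (b + w - z) r') (b + w) - Ψ w w)) +
        ((∑ w, stp d n w * Ψ w w) - ∑ w, ∑ w', stp d n w * (stp d n w' * Ψ w w')) := by
      simp only [pvS, mul_sub, Finset.sum_sub_distrib]
      ring
    rw [hsplit]
    refine (abs_add_le _ _).trans ?_
    have h1 : |∑ w, stp d n w * (pvS a h z k (t + 1) (upd a (t + 1) (b + w) r)
          (upd a (t + 1) (b + w - z) r') (b + w) - Ψ w w)| ≤
        ∑ i ∈ range k, ε (k - 1 - i) * pvG a W z (i + 1) t r r' b := by
      refine (Finset.abs_sum_le_sum_abs _ _).trans ?_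
      have h2 : ∀ w ∈ (univ : Finset (Tor d n)),
          |stp d n w * (pvS a h z k (t + 1) (upd a (t + 1) (b + w) r)
          (upd a (t + 1) (b + w - z) r') (b + w) - Ψ w w)| ≤
          stp d n w * ∑ i ∈ range k, ε (k - 1 - i) * pvG a W z i (t + 1)
            (upd a (t + 1) (b + w) r) (upd a (t + 1) (b + w - z) r') (b + w) := by
        intro w _
        rw [abs_mul, abs_of_nonneg (stp_nonneg w)]
        refine mul_le_mul_of_nonneg_left ?_ (stp_nonneg w)
        have h3 := ih (t + 1) (upd a (t + 1) (b + w) r) (upd a (t + 1) (b + w - z) r') (b + w)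
        have e2 : b + w - z = b - z + w := by abel
        rw [e2] at h3 ⊢
        exact h3
      refine (Finset.sum_le_sum h2).trans (le_of_eq ?_)
      simp only [Finset.mul_sum, pvG]
      rw [Finset.sum_comm]
      refine Finset.sum_congr rfl fun i _ => Finset.sum_congr rfl fun w _ => ?_
      ring
    rw [Finset.sum_range_succ']
    have e3 : ∀ i ∈ range k, ε (k + 1 - 1 - (i + 1)) * pvG a W z (i + 1) t r r' b =
        ε (k - 1 - i) * pvG a W z (i + 1) t r r' b := by
      intro i _
      have : k + 1 - 1 - (i + 1) = k - 1 - i := by omega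
      rw [this]
    rw [Finset.sum_congr rfl e3]
    refine add_le_add h1 ?_
    rw [pvG_zero_time a W z t (t + 1)]
    simpa using hr

end CRW
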