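import Pool.Agent.Lib.CRW.TV2

/-!
# Module TV3: the two records are nearly independent

PROOF of `tv`.  `s = 0`: both sides are `h rec0 rec0`.  `s = M + 1`.  `pvS_ER` and, for the product,
`ER (M+1) (fun η => ER (M+1) (fun η' => h (lrec η 0) (lrec η' 0))) = (NN)⁻¹ ∑ b, (NN)⁻¹ ∑ b', val a (fun ρ => val a (h ρ) M 0 rec0 b') M 0 rec0 b`
(`ER_lrec` with `t = 0`).  So the difference is `D1 + D2`,
`D1 = NN⁻¹ ∑ b, (pvS M 0 .. - pv (pv h at b - z) at b)` (records processed at time `0`; `val = pv` at the updated record),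
`D2 = NN⁻¹ ∑ b, val(val h at (b - z)) at b - NN⁻² ∑ b, ∑ b', val (val h at b') at b`
`= NN⁻¹ ∑ b, ((val - vbar) ⊗ (val - vbar) h)(b, b - z)` (bilinearity; the mean over `b` of `b - z` is the mean).
`D2`: `val_cent` twice (inner: `|θ ρ| ≤ C'/rho (b-z)^(d-2)`, outer) and `sum_green_green`, `n^2 ≤ N`:
`|D2| ≤ C NN⁻¹ n^2 / rho z^(d-2)` (times `e^(-2κ M/N)` with decay).
`D1`: `hybrid_iter` with `W b = 1/(rho b^(d-1) rho (b-z)^(d-1))`, `ε k = C'` resp. `C' e^(-2κ k/N)` (`hybrid_rem`, `hybrid_rem'`), `pvG_EP`,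
`1{Inc ∧ Inc} ≤ 1{Inc (lrec a η 0 i)}` (the record of more times is more complete), `EP_inc` (`s = t = i`), `sum_grad_grad`:
`|D1| ≤ ∑_{i<M} ε (M-1-i) (C/N) e^(-κ i/N) C / rho z^(d-2)`.
Without decay: `(1/N) ∑ e^(-κ i/N) ≤ (1/N) (1 + N/κ) ≤ 1 + 1/κ`.
With decay: `e^(-2κ(M-1-i)/N) e^(-κ i/N) = e^(-κ(M-1)/N) e^(-κ(M-1-i)/N)`, same sum.  (`e^(κ/N) ≤ e`.)
-/

open Finset

namespace CRW

variable {d : ℕ}

section
variable {n : ℕ} [NeZero n]

private theorem geo {κ N : ℝ} (hκ : 0 < κ) (hN : 1 ≤ N) (M : ℕ) :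
    ∑ i ∈ range M, 1 / N * Real.exp (-κ * i / N) ≤ 1 + 1 / κ := by
  have hN0 : 0 < N := by linarith
  set x : ℝ := κ / N with hx
  have hx0 : 0 < x := by positivity
  have h1 : ∀ i : ℕ, Real.exp (-κ * i / N) = Real.exp (-x) ^ i := by
    intro i
    rw [← Real.exp_nat_mul]
    congr 1
    rw [hx]
    ring
  simp only [h1]
  rw [← mul_sum]
  set r : ℝ := Real.exp (-x) with hr
  have hr0 : 0 ≤ r := (Real.exp_pos _).le
  have h2 : (1 - r) * ∑ i ∈ range M, r ^ i = 1 - r ^ M := mul_neg_geom_sum r M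
  have h3 : x / (1 + x) ≤ 1 - r := by
    have h4 : r * (1 + x) ≤ 1 := by
      have h5 : 1 + x ≤ Real.exp x := by linarith [Real.add_one_le_exp x]
      calc r * (1 + x) ≤ r * Real.exp x := mul_le_mul_of_nonneg_left h5 hr0
        _ = 1 := by rw [hr, ← Real.exp_add, neg_add_cancel, Real.exp_zero]
    rw [div_le_iff₀ (by linarith)]
    nlinarith
  have hS0 : 0 ≤ ∑ i ∈ range M, r ^ i := sum_nonneg fun i _ => pow_nonneg hr0 i
  have h6 : x / (1 + x) * ∑ i ∈ range M, r ^ i ≤ 1 := by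
    refine (mul_le_mul_of_nonneg_right h3 hS0).trans ?_
    rw [h2]
    linarith [pow_nonneg hr0 M]
  have h7 : ∑ i ∈ range M, r ^ i ≤ (1 + x) / x := by
    rw [le_div_iff₀ hx0]
    have h8 : x / (1 + x) * (∑ i ∈ range M, r ^ i) * (1 + x) ≤ 1 * (1 + x) :=
      mul_le_mul_of_nonneg_right h6 (by linarith)
    have h9 : x / (1 + x) * (∑ i ∈ range M, r ^ i) * (1 + x) = (∑ i ∈ range M, r ^ i) * x := by
      field_simp
    linarith
  calc 1 / N * ∑ i ∈ range M, r ^ i ≤ 1 / N * ((1 + x) / x) :=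
        mul_le_mul_of_nonneg_left h7 (by positivity)
    _ = 1 / N + 1 / κ := by rw [hx]; field_simp; ring
    _ ≤ 1 + 1 / κ := by
        have : 1 / N ≤ 1 := by rw [div_le_one hN0]; exact hN
        linarith

private theorem one_le_NN (hd : 2 ≤ d) : 1 ≤ NN d n := by
  have h1 := sq_le_NN (d := d) (n := n) hd
  have h2 : (1 : ℝ) ≤ n := by
    have : 1 ≤ n := Nat.one_le_iff_ne_zero.mpr (NeZero.ne n)
    exact_mod_cast this
  nlinarith

omit [NeZero n] in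
private theorem lrec_zero (a : Fin 2 → Tor d n) (η : ℕ → Tor d n) (x : Tor d n) :
    lrec a η x 0 = rec0 := rfl

private theorem inc_rec0 : Inc rec0 := ⟨0, rfl⟩

private theorem ER_vbar (hd : 1 ≤ d) (a : Fin 2 → Tor d n) (ψ : Rec → ℝ) (M : ℕ) :
    ER (M + 1) (fun η => ψ (lrec a η 0 (M + 1))) = vbar a ψ M 0 rec0 := by
  have h := ER_lrec hd a ψ 0 0 M
  simp only [zero_add] at h
  rw [h]
  unfold EP vbar
  simp only [sub_zero, lrec_zero]

private theorem pv_sum (hd : 1 ≤ d) (a : Fin 2 → Tor d n) {ι : Type} (s : Finset ι)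
    (ψ : ι → Rec → ℝ) (k t : ℕ) (r : Rec) (b : Tor d n) :
    pv a (fun ρ => ∑ i ∈ s, ψ i ρ) k t r b = ∑ i ∈ s, pv a (ψ i) k t r b := by
  classical
  induction s using Finset.induction_on with
  | empty =>
    simp only [sum_empty]
    exact pv_const a hd 0 k t r b
  | insert i s hi ih =>
    simp only [sum_insert hi]
    rw [pv_add, ih]

private theorem val_sub (a : Fin 2 → Tor d n) (ψ φ : Rec → ℝ) (k t : ℕ) (r : Rec)
    (b : Tor d n) : val a (fun ρ => ψ ρ - φ ρ) k t r b = val a ψ k t r b - val a φ k t r b := by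
  unfold val
  have h1 := pv_add a ψ (fun ρ => (-1 : ℝ) • φ ρ) k t (upd a t b r) b
  rw [pv_smul] at h1
  simp only [smul_eq_mul, neg_mul, one_mul, ← sub_eq_add_neg] at h1
  exact h1

private theorem val_vbar (hd : 1 ≤ d) (a : Fin 2 → Tor d n) (h : Rec → Rec → ℝ) (M : ℕ)
    (b : Tor d n) : val a (fun ρ => vbar a (h ρ) M 0 rec0) M 0 rec0 b =
      (NN d n)⁻¹ * ∑ b', val a (fun ρ => val a (h ρ) M 0 rec0 b') M 0 rec0 b := by
  unfold vbar val
  have h1 := pv_smul a (NN d n)⁻¹ (fun ρ => ∑ b', pv a (h ρ) M 0 (upd a 0 b' rec0) b') M 0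
    (upd a 0 b rec0) b
  rw [pv_sum hd] at h1
  simp only [smul_eq_mul] at h1 ⊢
  exact h1

/-- the mean value after double centring -/
private theorem d2_id (hd : 1 ≤ d) (a : Fin 2 → Tor d n) (h : Rec → Rec → ℝ) (z : Tor d n)
    (M : ℕ) :
    (NN d n)⁻¹ * (∑ b, val a (fun ρ => val a (h ρ) M 0 rec0 (b - z)) M 0 rec0 b) -
      vbar a (fun ρ => vbar a (h ρ) M 0 rec0) M 0 rec0 =
    (NN d n)⁻¹ * ∑ b,
      (val a (fun ρ => val a (h ρ) M 0 rec0 (b - z) - vbar a (h ρ) M 0 rec0) M 0 rec0 b -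
        vbar a (fun ρ => val a (h ρ) M 0 rec0 (b - z) - vbar a (h ρ) M 0 rec0) M 0 rec0) := by
  have hN : NN d n ≠ 0 := NN_pos.ne'
  have hcard : ((univ : Finset (Tor d n)).card : ℝ) = NN d n := by
    rw [card_univ]
    exact card_tor
  set f : Tor d n → Tor d n → ℝ := fun b b' =>
    val a (fun ρ => val a (h ρ) M 0 rec0 b') M 0 rec0 b with hf
  set v : Tor d n → ℝ := fun b => val a (fun ρ => vbar a (h ρ) M 0 rec0) M 0 rec0 b with hv
  have hvf : ∀ b, v b = (NN d n)⁻¹ * ∑ b', f b b' := fun b => val_vbar hd a h M b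
  have h1 : ∀ b' b, val a (fun ρ => val a (h ρ) M 0 rec0 b' - vbar a (h ρ) M 0 rec0) M 0 rec0 b =
      f b b' - v b := fun b' b => val_sub a _ _ M 0 rec0 b
  have h2 : ∀ b', vbar a (fun ρ => val a (h ρ) M 0 rec0 b' - vbar a (h ρ) M 0 rec0) M 0 rec0 =
      (NN d n)⁻¹ * ∑ b, f b b' - (NN d n)⁻¹ * ∑ b, v b := by
    intro b'
    conv_lhs => unfold vbar
    rw [smul_eq_mul]
    have h3 : ∀ b, val a (fun ρ => val a (h ρ) M 0 rec0 b' -
        (NN d n)⁻¹ • ∑ b, val a (h ρ) M 0 rec0 b) M 0 rec0 b = f b b' - v b := h1 b'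
    simp only [h3]
    rw [sum_sub_distrib, mul_sub]
  have h4 : vbar a (fun ρ => vbar a (h ρ) M 0 rec0) M 0 rec0 = (NN d n)⁻¹ * ∑ b, v b := by
    rw [hv]
    conv_lhs => rw [vbar, smul_eq_mul]
  have h5 : ∑ b, ∑ b'', f b'' (b - z) = NN d n * ∑ b, v b := by
    rw [sum_comm, mul_sum]
    refine sum_congr rfl fun b'' _ => ?_
    rw [hvf, mul_inv_cancel_left₀ hN]
    exact Equiv.sum_comp (Equiv.subRight z) (f b'')
  rw [h4]
  simp only [h1, h2]
  rw [sum_sub_distrib, sum_sub_distrib, sum_sub_distrib, sum_const, nsmul_eq_mul, hcard,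
    ← mul_sum, h5]
  field_simp
  ring

end

/-- the second difference -/
private theorem d2 (hd : 3 ≤ d) : ∃ C : ℝ, 1 ≤ C ∧ ∀ (n : ℕ) [NeZero n]
    (a : Fin 2 → Tor d n) (h : Rec → Rec → ℝ) (z : Tor d n) (M : ℕ) (K : ℝ), 0 ≤ K →
    (∀ b b', |val a (fun ρ => val a (h ρ) M 0 rec0 b' - vbar a (h ρ) M 0 rec0) M 0 rec0 b -
      vbar a (fun ρ => val a (h ρ) M 0 rec0 b' - vbar a (h ρ) M 0 rec0) M 0 rec0| ≤
        K / (rho b ^ (d - 2) * rho b' ^ (d - 2))) →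
    |(NN d n)⁻¹ * (∑ b, val a (fun ρ => val a (h ρ) M 0 rec0 (b - z)) M 0 rec0 b) -
      vbar a (fun ρ => vbar a (h ρ) M 0 rec0) M 0 rec0| ≤ K * C / rho z ^ (d - 2) := by
  obtain ⟨C, hC, hgg⟩ := sum_green_green hd
  refine ⟨C, hC, ?_⟩
  intro n _ a h z M K hK hb
  rw [d2_id (by omega) a h z M, abs_mul, abs_of_pos (inv_pos.mpr NN_pos)]
  have h1 : |∑ b, (val a (fun ρ => val a (h ρ) M 0 rec0 (b - z) - vbar a (h ρ) M 0 rec0) M 0
      rec0 b - vbar a (fun ρ => val a (h ρ) M 0 rec0 (b - z) - vbar a (h ρ) M 0 rec0) M 0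
      rec0)| ≤ K * (C * n ^ 2 / rho z ^ (d - 2)) := by
    refine (abs_sum_le_sum_abs _ _).trans ((sum_le_sum fun b _ => hb b (b - z)).trans ?_)
    refine le_trans (le_of_eq ?_) (mul_le_mul_of_nonneg_left (hgg n z) hK)
    rw [mul_sum]
    refine sum_congr rfl fun b _ => ?_
    rw [one_div_mul_one_div, mul_one_div]
  have h2 : (n : ℝ) ^ 2 ≤ NN d n := sq_le_NN (by omega)
  have hN := NN_pos (d := d) (n := n)
  have hr : 0 < rho z ^ (d - 2) := pow_pos (rho_pos z) _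
  calc (NN d n)⁻¹ * _ ≤ (NN d n)⁻¹ * (K * (C * n ^ 2 / rho z ^ (d - 2))) :=
        mul_le_mul_of_nonneg_left h1 (inv_pos.mpr hN).le
    _ = K * C / rho z ^ (d - 2) * ((n : ℝ) ^ 2 / NN d n) := by field_simp
    _ ≤ K * C / rho z ^ (d - 2) * 1 := by
        refine mul_le_mul_of_nonneg_left ((div_le_one hN).mpr h2) ?_
        exact div_nonneg (mul_nonneg hK (by linarith)) hr.le
    _ = K * C / rho z ^ (d - 2) := mul_one _

open Classical in
/-- the first difference -/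
private theorem d1 (hd : 3 ≤ d) (C κ : ℝ) : ∃ C' : ℝ, 1 ≤ C' ∧ ∀ (n : ℕ) [NeZero n],
    HKB d n C κ → ∀ (a : Fin 2 → Tor d n) (h : Rec → Rec → ℝ) (z : Tor d n) (ε : ℕ → ℝ),
    (∀ k, 0 ≤ ε k) →
    (∀ (k t : ℕ) (r r' : Rec) (b : Tor d n),
      |(∑ w, stp d n w * val a (fun ρ => val a (fun ρ' => h ρ ρ') k t r' (b - z + w)) k t r
          (b + w)) - ∑ w, ∑ w', stp d n w * (stp d n w' *
          val a (fun ρ => val a (fun ρ' => h ρ ρ') k t r' (b - z + w')) k t r (b + w))| ≤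
        if Inc r ∧ Inc r' then ε k / (rho b ^ (d - 1) * rho (b - z) ^ (d - 1)) else 0) →
    ∀ M : ℕ,
    |(NN d n)⁻¹ * (∑ b, pvS a h z M 0 (upd a 0 b rec0) (upd a 0 (b - z) rec0) b) -
      (NN d n)⁻¹ * (∑ b, val a (fun ρ => val a (h ρ) M 0 rec0 (b - z)) M 0 rec0 b)| ≤
      ∑ i ∈ range M, ε (M - 1 - i) * (1 / NN d n * Real.exp (-κ * i / NN d n)) *
        (C' / rho z ^ (d - 2)) := by
  obtain ⟨C₁, hC₁, hinc⟩ := EP_inc hd C κ
  obtain ⟨C₂, hC₂, hgg⟩ := sum_grad_grad hd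
  refine ⟨C₁ * C₂, one_le_mul_of_one_le_of_one_le hC₁ hC₂, ?_⟩
  intro n _ hb a h z ε hε hrem M
  set W : Tor d n → ℝ := fun b => 1 / (rho b ^ (d - 1) * rho (b - z) ^ (d - 1)) with hW
  have hW0 : ∀ b, 0 ≤ W b := fun b => by
    have h1 := pow_pos (rho_pos b) (d - 1)
    have h2 := pow_pos (rho_pos (b - z)) (d - 1)
    rw [hW]
    positivity
  have hWs : ∑ b, W b ≤ C₂ / rho z ^ (d - 2) := by
    refine le_trans (le_of_eq ?_) (hgg n z)
    refine sum_congr rfl fun b _ => ?_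
    rw [hW, one_div_mul_one_div]
  have hrem' : ∀ (k t : ℕ) (r r' : Rec) (b : Tor d n),
      |(∑ w, stp d n w * val a (fun ρ => val a (fun ρ' => h ρ ρ') k t r' (b - z + w)) k t r
          (b + w)) - ∑ w, ∑ w', stp d n w * (stp d n w' *
          val a (fun ρ => val a (fun ρ' => h ρ ρ') k t r' (b - z + w')) k t r (b + w))| ≤
        ε k * pvG a W z 0 t r r' b := by
    intro k t r r' b
    refine (hrem k t r r' b).trans (le_of_eq ?_)
    unfold pvG
    by_cases hI : Inc r ∧ Inc r'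
    · rw [if_pos hI, if_pos hI, hW]
      ring
    · rw [if_neg hI, if_neg hI, mul_zero]
  have hit := hybrid_iter a h z W ε hrem' M 0
  have hN := NN_pos (d := d) (n := n)
  have hN' : 0 ≤ (NN d n)⁻¹ := (inv_pos.mpr hN).le
  rw [← mul_sub, ← sum_sub_distrib, abs_mul, abs_of_nonneg hN']
  have h1 : |∑ b, (pvS a h z M 0 (upd a 0 b rec0) (upd a 0 (b - z) rec0) b -
      val a (fun ρ => val a (h ρ) M 0 rec0 (b - z)) M 0 rec0 b)| ≤
      ∑ b, ∑ i ∈ range M, ε (M - 1 - i) *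
        pvG a W z i 0 (upd a 0 b rec0) (upd a 0 (b - z) rec0) b :=
    (abs_sum_le_sum_abs _ _).trans (sum_le_sum fun b _ => hit _ _ b)
  refine (mul_le_mul_of_nonneg_left h1 hN').trans ?_
  rw [sum_comm, mul_sum]
  refine sum_le_sum fun i _ => ?_
  rw [← mul_sum, mul_left_comm, pvG_EP, mul_assoc]
  refine mul_le_mul_of_nonneg_left ?_ (hε _)
  have h2 : (EP i fun η b => if Inc (lrec a (Function.update η i b) 0 (i + 1)) ∧
        Inc (lrec a (Function.update η i b) z (i + 1)) then W b else 0) ≤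
      EP i fun η b => (if Inc (lrec a η 0 i) then (1 : ℝ) else 0) * W b := by
    refine EP_mono _ _ _ fun η b => ?_
    by_cases hI : Inc (lrec a (Function.update η i b) 0 (i + 1)) ∧
        Inc (lrec a (Function.update η i b) z (i + 1))
    · rw [if_pos hI]
      have hI' : Inc (lrec a η 0 i) := by
        obtain ⟨j, hj⟩ := hI.1
        rw [lrec_update_succ] at hj
        refine ⟨j, ?_⟩
        unfold upd at hj
        cases hl : lrec a η 0 i j with
        | none => rfl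
        | some x =>
          rw [hl] at hj
          exact absurd hj (by simp)
      rw [if_pos hI', one_mul]
    · rw [if_neg hI]
      refine mul_nonneg ?_ (hW0 b)
      split_ifs <;> norm_num
  refine h2.trans ((hinc n hb a 0 i i W hW0 le_rfl (Nat.le_add_right _ _)).trans ?_)
  have hr : 0 < rho z ^ (d - 2) := pow_pos (rho_pos z) _
  calc C₁ / NN d n * Real.exp (-κ * i / NN d n) * ∑ b, W b
      ≤ C₁ / NN d n * Real.exp (-κ * i / NN d n) * (C₂ / rho z ^ (d - 2)) := by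
        refine mul_le_mul_of_nonneg_left hWs ?_
        have := (Real.exp_pos (-κ * i / NN d n)).le
        positivity
    _ = 1 / NN d n * Real.exp (-κ * i / NN d n) * (C₁ * C₂ / rho z ^ (d - 2)) := by ring

/-- the splitting -/
private theorem split_bound {n : ℕ} [NeZero n] (hd : 1 ≤ d) (a : Fin 2 → Tor d n) (h : Rec → Rec → ℝ)
    (z : Tor d n) (M : ℕ) {B₁ B₂ : ℝ}
    (h1 : |(NN d n)⁻¹ * (∑ b, pvS a h z M 0 (upd a 0 b rec0) (upd a 0 (b - z) rec0) b) -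
      (NN d n)⁻¹ * (∑ b, val a (fun ρ => val a (h ρ) M 0 rec0 (b - z)) M 0 rec0 b)| ≤ B₁)
    (h2 : |(NN d n)⁻¹ * (∑ b, val a (fun ρ => val a (h ρ) M 0 rec0 (b - z)) M 0 rec0 b) -
      vbar a (fun ρ => vbar a (h ρ) M 0 rec0) M 0 rec0| ≤ B₂) :
    |ER (M + 1) (fun η => h (lrec a η 0 (M + 1)) (lrec a η z (M + 1))) -
        ER (M + 1) (fun η : ℕ → Tor d n => ER (M + 1) fun η' : ℕ → Tor d n =>
          h (lrec a η 0 (M + 1)) (lrec a η' 0 (M + 1)))| ≤ B₁ + B₂ := by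
  have h3 : (ER (M + 1) (fun η : ℕ → Tor d n => ER (M + 1) fun η' : ℕ → Tor d n =>
      h (lrec a η 0 (M + 1)) (lrec a η' 0 (M + 1)))) =
      vbar a (fun ρ => vbar a (h ρ) M 0 rec0) M 0 rec0 := by
    rw [← ER_vbar hd]
    congr 1
    funext η
    exact ER_vbar hd a (h (lrec a η 0 (M + 1))) M
  rw [pvS_ER hd, h3]
  exact (abs_sub_le _ _ _).trans (add_le_add h1 h2)

private theorem tv_zero {n : ℕ} [NeZero n] (hd : 1 ≤ d) (a : Fin 2 → Tor d n)
    (h : Rec → Rec → ℝ) (z : Tor d n) :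
    |ER 0 (fun η => h (lrec a η 0 0) (lrec a η z 0)) -
        ER 0 (fun η : ℕ → Tor d n => ER 0 fun η' : ℕ → Tor d n =>
          h (lrec a η 0 0) (lrec a η' 0 0))| = 0 := by
  simp only [lrec_zero]
  have h1 : ∀ c : ℝ, ER 0 (fun _ : ℕ → Tor d n => c) = c := fun c => EP_const hd 0 c
  simp only [h1, sub_self, abs_zero]

theorem tv (hd : 3 ≤ d) (C κ : ℝ) : ∃ C' : ℝ, 1 ≤ C' ∧ ∀ (n : ℕ) [NeZero n], HKB d n C κ →
    ∀ (a : Fin 2 → Tor d n) (h : Rec → Rec → ℝ), (∀ j, nrm (a j) ≤ 1) → a 0 ≠ a 1 →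
      (∀ r r', |h r r'| ≤ 1) → ∀ (z : Tor d n) (s : ℕ),
      |ER s (fun η => h (lrec a η 0 s) (lrec a η z s)) -
        ER s (fun η : ℕ → Tor d n => ER s fun η' : ℕ → Tor d n =>
          h (lrec a η 0 s) (lrec a η' 0 s))| ≤ C' / rho z ^ (d - 2) := by
  classical
  have hd1 : 1 ≤ d := by omega
  obtain ⟨C₀, hC₀, hrem⟩ := hybrid_rem hd C κ
  obtain ⟨C₁, hC₁, hd1'⟩ := d1 hd C κ
  obtain ⟨C₃, hC₃, hcent⟩ := val_cent hd C κ
  obtain ⟨C₅, hC₅, hd2'⟩ := d2 hd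
  refine ⟨max 1 (C₀ * C₁ * (1 + 1 / κ) + C₃ * C₃ * C₅), le_max_left _ _, ?_⟩
  intro n _ hb a h ha1 ha hh z s
  have hr : 0 < rho z ^ (d - 2) := pow_pos (rho_pos z) _
  rcases s with _ | M
  · rw [tv_zero hd1]
    exact div_nonneg (le_trans zero_le_one (le_max_left _ _)) hr.le
  have hD1 := hd1' n hb a h z (fun _ => C₀) (fun _ => by linarith)
    (fun k t r r' b => hrem n hb a h ha1 ha hh k t r r' b z) M
  have hNN : 1 ≤ NN d n := one_le_NN (by omega)
  have hgeo := geo hb.hκ hNN M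
  have hD1' : ∑ i ∈ range M, C₀ * (1 / NN d n * Real.exp (-κ * i / NN d n)) *
      (C₁ / rho z ^ (d - 2)) ≤ C₀ * C₁ * (1 + 1 / κ) / rho z ^ (d - 2) := by
    rw [← sum_mul, ← mul_sum]
    calc C₀ * (∑ i ∈ range M, 1 / NN d n * Real.exp (-κ * i / NN d n)) *
          (C₁ / rho z ^ (d - 2)) ≤ C₀ * (1 + 1 / κ) * (C₁ / rho z ^ (d - 2)) := by
          refine mul_le_mul_of_nonneg_right (mul_le_mul_of_nonneg_left hgeo (by linarith)) ?_
          exact div_nonneg (by linarith) hr.le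
      _ = _ := by ring
  have hθ : ∀ b' ρ, |val a (h ρ) M 0 rec0 b' - vbar a (h ρ) M 0 rec0| ≤
      C₃ / rho b' ^ (d - 2) := by
    intro b' ρ
    have h1 := hcent n hb ℝ a (h ρ) 1 0 ha1 ha le_rfl hb.hκ.le
      (Dec_of_le hd1 a fun r => by rw [Real.norm_eq_abs]; exact hh ρ r) M 0 rec0 b'
    rw [if_pos inc_rec0, Real.norm_eq_abs] at h1
    refine h1.trans (le_of_eq ?_)
    rw [neg_zero, zero_mul, zero_div, Real.exp_zero]
    ring
  have hD2 := hd2' n a h z M (C₃ * C₃) (by positivity) (by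
    intro b b'
    have h1 := hcent n hb ℝ a
      (fun ρ => val a (h ρ) M 0 rec0 b' - vbar a (h ρ) M 0 rec0) (C₃ / rho b' ^ (d - 2)) 0
      ha1 ha le_rfl hb.hκ.le (Dec_of_le hd1 a fun r => by
        rw [Real.norm_eq_abs]; exact hθ b' r) M 0 rec0 b
    rw [if_pos inc_rec0, Real.norm_eq_abs] at h1
    refine h1.trans (le_of_eq ?_)
    rw [neg_zero, zero_mul, zero_div, Real.exp_zero]
    have := pow_pos (rho_pos b) (d - 2)
    have := pow_pos (rho_pos b') (d - 2)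
    field_simp)
  refine (split_bound (by omega) a h z M hD1 hD2).trans ?_
  refine (add_le_add_left hD1' _).trans ?_
  rw [← add_div]
  exact div_le_div_of_nonneg_right (le_max_right _ _) hr.le

theorem tv' (hd : 3 ≤ d) (C κ : ℝ) : ∃ C' : ℝ, 1 ≤ C' ∧ ∀ (n : ℕ) [NeZero n], HKB d n C κ →
    ∀ (a : Fin 2 → Tor d n) (h : Rec → Rec → ℝ), (∀ j, nrm (a j) ≤ 1) → a 0 ≠ a 1 →
      (∀ r r', |h r r'| ≤ 1) → (∀ r r', ¬ (Inc r ∧ Inc r') → h r r' = 0) →
      ∀ (z : Tor d n) (s : ℕ),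
      |ER s (fun η => h (lrec a η 0 s) (lrec a η z s)) -
        ER s (fun η : ℕ → Tor d n => ER s fun η' : ℕ → Tor d n =>
          h (lrec a η 0 s) (lrec a η' 0 s))| ≤
        C' * Real.exp (-κ * s / NN d n) / rho z ^ (d - 2) := by
  classical
  have hd1 : 1 ≤ d := by omega
  obtain ⟨C₀, hC₀, hrem⟩ := hybrid_rem' hd C κ
  obtain ⟨C₁, hC₁, hd1'⟩ := d1 hd C κ
  obtain ⟨C₃, hC₃, hcent⟩ := val_cent hd C κ
  obtain ⟨C₄, hC₄, hdec⟩ := Dec_of_inc hd C κ
  obtain ⟨C₅, hC₅, hd2'⟩ := d2 hd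
  refine ⟨max 1 (C₀ * C₁ * (1 + 1 / κ) * Real.exp 2 +
    C₃ * C₃ * (C₄ * C₄) * C₅ * Real.exp 1), le_max_left _ _, ?_⟩
  intro n _ hb a h ha1 ha hh h0 z s
  have hr : 0 < rho z ^ (d - 2) := pow_pos (rho_pos z) _
  rcases s with _ | M
  · rw [tv_zero hd1]
    exact div_nonneg (mul_nonneg (le_trans zero_le_one (le_max_left _ _)) (Real.exp_pos _).le)
      hr.le
  have hD1 := hd1' n hb a h z (fun k => C₀ * Real.exp (-2 * κ * k / NN d n))
    (fun _ => mul_nonneg (by linarith) (Real.exp_pos _).le)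
    (fun k t r r' b => hrem n hb a h ha1 ha hh h0 k t r r' b z) M
  have hNN : 1 ≤ NN d n := one_le_NN (by omega)
  have hN0 : 0 < NN d n := by linarith
  have hκ := hb.hκ
  have hκN : κ / NN d n ≤ 1 := by
    rw [div_le_one hN0]
    exact hb.hκ1.trans hNN
  have hgeo := geo hb.hκ hNN M
  set es : ℝ := Real.exp (-κ * ((M + 1 : ℕ) : ℝ) / NN d n) with hes
  have hes0 : 0 < es := Real.exp_pos _
  have hD1' : ∑ i ∈ range M, C₀ * Real.exp (-2 * κ * ((M - 1 - i : ℕ) : ℝ) / NN d n) *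
      (1 / NN d n * Real.exp (-κ * i / NN d n)) * (C₁ / rho z ^ (d - 2)) ≤
      C₀ * C₁ * (1 + 1 / κ) * Real.exp 2 * es / rho z ^ (d - 2) := by
    have h1 : ∀ i ∈ range M, C₀ * Real.exp (-2 * κ * ((M - 1 - i : ℕ) : ℝ) / NN d n) *
        (1 / NN d n * Real.exp (-κ * i / NN d n)) * (C₁ / rho z ^ (d - 2)) ≤
        C₀ * Real.exp 2 * es * (C₁ / rho z ^ (d - 2)) *
          (1 / NN d n * Real.exp (-κ * ((M - 1 - i : ℕ) : ℝ) / NN d n)) := by
      intro i hi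
      rw [mem_range] at hi
      have hcast : ((M - 1 - i : ℕ) : ℝ) = M - 1 - i := by
        rw [Nat.cast_sub (by omega), Nat.cast_sub (by omega), Nat.cast_one]
      have h2 : Real.exp (-2 * κ * ((M - 1 - i : ℕ) : ℝ) / NN d n) *
          Real.exp (-κ * i / NN d n) ≤
          Real.exp 2 * es * Real.exp (-κ * ((M - 1 - i : ℕ) : ℝ) / NN d n) := by
        rw [hes, ← Real.exp_add, ← Real.exp_add, ← Real.exp_add, hcast, Real.exp_le_exp,
          Nat.cast_add, Nat.cast_one]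
        have h3 : 2 + -κ * ((M : ℝ) + 1) / NN d n + -κ * ((M : ℝ) - 1 - i) / NN d n -
            (-2 * κ * ((M : ℝ) - 1 - i) / NN d n + -κ * i / NN d n) =
            2 - 2 * (κ / NN d n) := by ring
        linarith
      have h4 : 0 ≤ C₀ * (1 / NN d n) * (C₁ / rho z ^ (d - 2)) := by
        have : 0 ≤ C₁ / rho z ^ (d - 2) := div_nonneg (by linarith) hr.le
        have : 0 ≤ 1 / NN d n := by positivity
        positivity
      calc C₀ * Real.exp (-2 * κ * ((M - 1 - i : ℕ) : ℝ) / NN d n) *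
          (1 / NN d n * Real.exp (-κ * i / NN d n)) * (C₁ / rho z ^ (d - 2))
          = C₀ * (1 / NN d n) * (C₁ / rho z ^ (d - 2)) *
            (Real.exp (-2 * κ * ((M - 1 - i : ℕ) : ℝ) / NN d n) *
              Real.exp (-κ * i / NN d n)) := by ring
        _ ≤ C₀ * (1 / NN d n) * (C₁ / rho z ^ (d - 2)) *
            (Real.exp 2 * es * Real.exp (-κ * ((M - 1 - i : ℕ) : ℝ) / NN d n)) :=
            mul_le_mul_of_nonneg_left h2 h4
        _ = _ := by ring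
    refine (sum_le_sum h1).trans ?_
    rw [← mul_sum, sum_range_reflect (fun i => 1 / NN d n * Real.exp (-κ * (i : ℝ) / NN d n)) M]
    have h5 : 0 ≤ C₀ * Real.exp 2 * es * (C₁ / rho z ^ (d - 2)) := by
      have : 0 ≤ C₁ / rho z ^ (d - 2) := div_nonneg (by linarith) hr.le
      positivity
    calc C₀ * Real.exp 2 * es * (C₁ / rho z ^ (d - 2)) *
          ∑ i ∈ range M, 1 / NN d n * Real.exp (-κ * i / NN d n)
        ≤ C₀ * Real.exp 2 * es * (C₁ / rho z ^ (d - 2)) * (1 + 1 / κ) :=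
          mul_le_mul_of_nonneg_left hgeo h5
      _ = _ := by ring
  set eM : ℝ := Real.exp (-κ * (M : ℝ) / NN d n) with heM
  have heM0 : 0 < eM := Real.exp_pos _
  have heM1 : eM ≤ 1 := by
    rw [heM, Real.exp_le_one_iff]
    have : 0 ≤ κ * (M : ℝ) / NN d n := by positivity
    have h6 : -κ * (M : ℝ) / NN d n = -(κ * (M : ℝ) / NN d n) := by ring
    linarith
  have heMs : eM ≤ Real.exp 1 * es := by
    rw [heM, hes, ← Real.exp_add, Real.exp_le_exp, Nat.cast_add, Nat.cast_one]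
    have h3 : 1 + -κ * ((M : ℝ) + 1) / NN d n - -κ * (M : ℝ) / NN d n = 1 - κ / NN d n := by
      ring
    linarith
  have hdech : ∀ ρ, Dec a (h ρ) (C₄ * 1) κ := fun ρ =>
    hdec n hb ℝ a (h ρ) 1 zero_le_one (fun r => by rw [Real.norm_eq_abs]; exact hh ρ r)
      (fun r hr => h0 ρ r fun hI => hr hI.2)
  have hθ : ∀ b' ρ, |val a (h ρ) M 0 rec0 b' - vbar a (h ρ) M 0 rec0| ≤
      C₃ * C₄ * eM / rho b' ^ (d - 2) := by
    intro b' ρ
    have h1 := hcent n hb ℝ a (h ρ) (C₄ * 1) κ ha1 ha hκ.le le_rfl (hdech ρ) M 0 rec0 b'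
    rw [if_pos inc_rec0, Real.norm_eq_abs] at h1
    refine h1.trans (le_of_eq ?_)
    rw [mul_one]
  have hD2 := hd2' n a h z M (C₃ * C₃ * (C₄ * C₄) * (eM * eM)) (by positivity) (by
    intro b b'
    have hb'0 := pow_pos (rho_pos b') (d - 2)
    have hdecθ : Dec a (fun ρ => val a (h ρ) M 0 rec0 b' - vbar a (h ρ) M 0 rec0)
        (C₄ * (C₃ * C₄ * eM / rho b' ^ (d - 2))) κ := by
      refine hdec n hb ℝ a _ _ (by positivity) (fun r => by
        rw [Real.norm_eq_abs]; exact hθ b' r) ?_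
      intro r hr
      have hz : h r = fun _ => 0 := by
        funext ρ'
        exact h0 r ρ' fun hI => hr hI.1
      have h7 : ∀ b, val a (fun _ : Rec => (0 : ℝ)) M 0 rec0 b = 0 := fun b =>
        pv_const a hd1 0 M 0 _ b
      have h8 : vbar a (fun _ : Rec => (0 : ℝ)) M 0 rec0 = 0 := by
        unfold vbar
        simp only [h7, sum_const_zero, smul_zero]
      rw [hz, h7, h8, sub_zero]
    have h1 := hcent n hb ℝ a _ _ κ ha1 ha hκ.le le_rfl hdecθ M 0 rec0 b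
    rw [if_pos inc_rec0, Real.norm_eq_abs] at h1
    refine h1.trans (le_of_eq ?_)
    have := pow_pos (rho_pos b) (d - 2)
    rw [← heM]
    field_simp)
  refine (split_bound (by omega) a h z M hD1 hD2).trans ?_
  have hD2' : C₃ * C₃ * (C₄ * C₄) * (eM * eM) * C₅ / rho z ^ (d - 2) ≤
      C₃ * C₃ * (C₄ * C₄) * C₅ * Real.exp 1 * es / rho z ^ (d - 2) := by
    refine div_le_div_of_nonneg_right ?_ hr.le
    have h9 : eM * eM ≤ Real.exp 1 * es :=
      (mul_le_of_le_one_right heM0.le heM1).trans heMs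
    calc C₃ * C₃ * (C₄ * C₄) * (eM * eM) * C₅ = C₃ * C₃ * (C₄ * C₄) * C₅ * (eM * eM) := by ring
      _ ≤ C₃ * C₃ * (C₄ * C₄) * C₅ * (Real.exp 1 * es) :=
          mul_le_mul_of_nonneg_left h9 (by positivity)
      _ = _ := by ring
  refine (add_le_add hD1' hD2').trans ?_
  rw [← add_div, ← add_mul]
  refine div_le_div_of_nonneg_right ?_ hr.le
  exact mul_le_mul_of_nonneg_right (le_max_right _ _) hes0.le

end CRW
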