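import Pool.Agent.Lib.CRW.GA
import Pool.Agent.Lib.CRW.PF
import Pool.Agent.Lib.CRW.TS

/-!
# Module U1: the interaction kernels of two value functions

For `ψ, ψ'` bounded by one and records `r, r'` put `K z = ∑ b, GamB (val at (ψ, r)) (val at (ψ', r'), shifted by z) b`.

PROOFS.  `KK_le`: `val_grad` with `κ' = 0`, `B = 1` (`Dec_of_le`) for both functions: `g = C'/rho b^(d-1)`,
`g' = C' / rho (b - z)^(d-1)` (zero if the record is complete); `GamB_le`; `sum_grad_grad`.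
`KK_sum`: `∑ z, GamB V (V' (· - z)) b = GamB V (fun x => ∑ z, V' (x - z)) b` (`GamB_sum_right`) and `∑ z, V' (x - z)` is a constant;
`GamB_const`.
`K0_le`: `val_cent` for both and `sum_green_green`.
`K0_sum`: `∑ z, (V' (b - z) - mean) = 0`.
-/

open Finset

namespace CRW

variable {d : ℕ}

/-- the interaction kernel -/
noncomputable def KK {n : ℕ} [NeZero n] (a : Fin 2 → Tor d n) (ψ ψ' : Rec → ℝ) (k t : ℕ)
    (r r' : Rec) (z : Tor d n) : ℝ :=
  ∑ b, GamB (val a ψ k t r) (fun x => val a ψ' k t r' (x - z)) b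

/-- the interaction kernel at the initial time -/
noncomputable def K0 {n : ℕ} [NeZero n] (a : Fin 2 → Tor d n) (ψ ψ' : Rec → ℝ) (k t : ℕ)
    (r r' : Rec) (z : Tor d n) : ℝ :=
  ∑ b, (val a ψ k t r b - vbar a ψ k t r) * (val a ψ' k t r' (b - z) - vbar a ψ' k t r')

private theorem sum_shift {n : ℕ} [NeZero n] (f : Tor d n → ℝ) (x : Tor d n) :
    ∑ z, f (x - z) = ∑ z, f z :=
  (Equiv.subLeft x).sum_comp f

open Classical in
theorem KK_le (hd : 3 ≤ d) (C κ : ℝ) : ∃ C' : ℝ, 1 ≤ C' ∧ ∀ (n : ℕ) [NeZero n], HKB d n C κ →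
    ∀ (a : Fin 2 → Tor d n) (ψ ψ' : Rec → ℝ), (∀ j, nrm (a j) ≤ 1) → a 0 ≠ a 1 →
      (∀ r, |ψ r| ≤ 1) → (∀ r, |ψ' r| ≤ 1) → ∀ (k t : ℕ) (r r' : Rec) (z : Tor d n),
      |KK a ψ ψ' k t r r' z| ≤ if Inc r ∧ Inc r' then C' / rho z ^ (d - 2) else 0 := by
  obtain ⟨C1, hC1, h1⟩ := val_grad hd C κ
  obtain ⟨C2, hC2, h2⟩ := sum_grad_grad hd
  refine ⟨2 * C1 ^ 2 * C2, ?_, ?_⟩
  · have h3 : (1 : ℝ) ≤ C1 ^ 2 := one_le_pow₀ hC1
    nlinarith
  intro n _ hb a ψ ψ' ha hne hψ hψ' k t r r' z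
  have hd1 : 1 ≤ d := by omega
  have hg : ∀ (φ : Rec → ℝ), (∀ r, |φ r| ≤ 1) → ∀ (ρ : Rec) (b w : Tor d n), stp d n w ≠ 0 →
      |val a φ k t ρ (b + w) - val a φ k t ρ b| ≤
        if Inc ρ then C1 * (1 / rho b ^ (d - 1)) else 0 := by
    intro φ hφ ρ b w hw
    have h4 := h1 n hb ℝ a φ 1 0 ha hne le_rfl hb.hκ.le
      (Dec_of_le hd1 a (fun r => by rw [Real.norm_eq_abs]; exact hφ r)) k t ρ b w hw
    rw [Real.norm_eq_abs] at h4
    refine h4.trans (le_of_eq ?_)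
    split_ifs
    · simp only [neg_zero, zero_mul, zero_div, Real.exp_zero, mul_one]
      ring
    · rfl
  have hb1 : ∀ b : Tor d n, |GamB (val a ψ k t r) (fun x => val a ψ' k t r' (x - z)) b| ≤
      2 * ((if Inc r then C1 * (1 / rho b ^ (d - 1)) else 0) *
        (if Inc r' then C1 * (1 / rho (b - z) ^ (d - 1)) else 0)) := by
    intro b
    have hpos : ∀ (ρ : Rec) (y : Tor d n),
        0 ≤ (if Inc ρ then C1 * (1 / rho y ^ (d - 1)) else 0) := by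
      intro ρ y
      split_ifs
      · exact mul_nonneg (by linarith) (one_div_nonneg.mpr (pow_pos (rho_pos _) _).le)
      · exact le_rfl
    refine GamB_le hd1 _ _ b (hpos r b) (hpos r' (b - z)) (fun w hw => hg ψ hψ r b w hw) ?_
    intro w hw
    have h5 := hg ψ' hψ' r' (b - z) w hw
    show |val a ψ' k t r' (b + w - z) - val a ψ' k t r' (b - z)| ≤ _
    rw [add_sub_right_comm]
    exact h5
  unfold KK
  refine (abs_sum_le_sum_abs _ _).trans ((sum_le_sum fun b _ => hb1 b).trans ?_)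
  by_cases hr : Inc r <;> by_cases hr' : Inc r'
  · simp only [hr, hr', if_true, and_self]
    calc ∑ b : Tor d n, 2 * (C1 * (1 / rho b ^ (d - 1)) * (C1 * (1 / rho (b - z) ^ (d - 1))))
        = 2 * C1 ^ 2 * ∑ b : Tor d n, 1 / rho b ^ (d - 1) * (1 / rho (b - z) ^ (d - 1)) := by
          rw [mul_sum]
          exact sum_congr rfl fun b _ => by ring
      _ ≤ 2 * C1 ^ 2 * (C2 / rho z ^ (d - 2)) :=
          mul_le_mul_of_nonneg_left (h2 n z) (by positivity)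
      _ = 2 * C1 ^ 2 * C2 / rho z ^ (d - 2) := by ring
  · simp [hr, hr']
  · simp [hr, hr']
  · simp [hr, hr']

theorem KK_sum (hd : 1 ≤ d) {n : ℕ} [NeZero n] (a : Fin 2 → Tor d n) (ψ ψ' : Rec → ℝ)
    (k t : ℕ) (r r' : Rec) : ∑ z, KK a ψ ψ' k t r r' z = 0 := by
  unfold KK
  rw [sum_comm]
  refine sum_eq_zero fun b _ => ?_
  rw [← GamB_sum_right]
  have h : (fun x => ∑ z, val a ψ' k t r' (x - z)) = fun _ => ∑ z, val a ψ' k t r' z := by
    funext x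
    exact sum_shift (val a ψ' k t r') x
  rw [h]
  exact GamB_const hd _ _ b

open Classical in
theorem K0_le (hd : 3 ≤ d) (C κ : ℝ) : ∃ C' : ℝ, 1 ≤ C' ∧ ∀ (n : ℕ) [NeZero n], HKB d n C κ →
    ∀ (a : Fin 2 → Tor d n) (ψ ψ' : Rec → ℝ), (∀ j, nrm (a j) ≤ 1) → a 0 ≠ a 1 →
      (∀ r, |ψ r| ≤ 1) → (∀ r, |ψ' r| ≤ 1) → ∀ (k t : ℕ) (r r' : Rec) (z : Tor d n),
      |K0 a ψ ψ' k t r r' z| ≤ if Inc r ∧ Inc r' then C' * n ^ 2 / rho z ^ (d - 2) else 0 := by
  obtain ⟨C1, hC1, h1⟩ := val_cent hd C κ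
  obtain ⟨C2, hC2, h2⟩ := sum_green_green hd
  refine ⟨C1 ^ 2 * C2, ?_, ?_⟩
  · have h3 : (1 : ℝ) ≤ C1 ^ 2 := one_le_pow₀ hC1
    nlinarith
  intro n _ hb a ψ ψ' ha hne hψ hψ' k t r r' z
  have hd1 : 1 ≤ d := by omega
  have hg : ∀ (φ : Rec → ℝ), (∀ r, |φ r| ≤ 1) → ∀ (ρ : Rec) (b : Tor d n),
      |val a φ k t ρ b - vbar a φ k t ρ| ≤
        if Inc ρ then C1 * (1 / rho b ^ (d - 2)) else 0 := by
    intro φ hφ ρ b
    have h4 := h1 n hb ℝ a φ 1 0 ha hne le_rfl hb.hκ.le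
      (Dec_of_le hd1 a (fun r => by rw [Real.norm_eq_abs]; exact hφ r)) k t ρ b
    rw [Real.norm_eq_abs] at h4
    refine h4.trans (le_of_eq ?_)
    split_ifs
    · simp only [neg_zero, zero_mul, zero_div, Real.exp_zero, mul_one]
      ring
    · rfl
  have hpos : ∀ (ρ : Rec) (y : Tor d n),
      0 ≤ (if Inc ρ then C1 * (1 / rho y ^ (d - 2)) else 0) := by
    intro ρ y
    split_ifs
    · exact mul_nonneg (by linarith) (one_div_nonneg.mpr (pow_pos (rho_pos _) _).le)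
    · exact le_rfl
  unfold K0
  refine (abs_sum_le_sum_abs _ _).trans ((sum_le_sum fun b _ => (by
    rw [abs_mul]
    exact mul_le_mul (hg ψ hψ r b) (hg ψ' hψ' r' (b - z)) (abs_nonneg _) (hpos r b) :
      |(val a ψ k t r b - vbar a ψ k t r) * (val a ψ' k t r' (b - z) - vbar a ψ' k t r')| ≤
        (if Inc r then C1 * (1 / rho b ^ (d - 2)) else 0) *
          (if Inc r' then C1 * (1 / rho (b - z) ^ (d - 2)) else 0))).trans ?_)
  by_cases hr : Inc r <;> by_cases hr' : Inc r'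
  · simp only [hr, hr', if_true, and_self]
    calc ∑ b : Tor d n, C1 * (1 / rho b ^ (d - 2)) * (C1 * (1 / rho (b - z) ^ (d - 2)))
        = C1 ^ 2 * ∑ b : Tor d n, 1 / rho b ^ (d - 2) * (1 / rho (b - z) ^ (d - 2)) := by
          rw [mul_sum]
          exact sum_congr rfl fun b _ => by ring
      _ ≤ C1 ^ 2 * (C2 * n ^ 2 / rho z ^ (d - 2)) :=
          mul_le_mul_of_nonneg_left (h2 n z) (by positivity)
      _ = C1 ^ 2 * C2 * n ^ 2 / rho z ^ (d - 2) := by ring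
  · simp [hr, hr']
  · simp [hr, hr']
  · simp [hr, hr']

theorem K0_sum {n : ℕ} [NeZero n] (a : Fin 2 → Tor d n) (ψ ψ' : Rec → ℝ)
    (k t : ℕ) (r r' : Rec) : ∑ z, K0 a ψ ψ' k t r r' z = 0 := by
  unfold K0
  rw [sum_comm]
  refine sum_eq_zero fun b _ => ?_
  rw [← mul_sum]
  have h : ∑ z, (val a ψ' k t r' (b - z) - vbar a ψ' k t r') = 0 := by
    rw [sum_sub_distrib, sum_shift (val a ψ' k t r') b, sum_const, card_univ, nsmul_eq_mul,
      card_tor]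
    unfold vbar
    rw [smul_eq_mul, ← mul_assoc, mul_inv_cancel₀ (NN_pos (d := d) (n := n)).ne', one_mul,
      sub_self]
  rw [h, mul_zero]

end CRW
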