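import Pool.Agent.Lib.CRW.U1
import Pool.Agent.Lib.CRW.TV3

/-!
# Module U2: a double sum over all pairs of sites

`Φ (u, r) (u', r') z` is a kernel with `|Φ| ≤ 1{Inc r, Inc r'} D / rho z^(d-2)` and `∑ z, Φ D D' z = 0`.

PROOF.  By `env.shift` and `ER_shift` (`lrec_shift`) the expectation of the term `(x, y)` depends only on `z = y - x`:
`env.E (fun w => ER s (fun η => Φ (w x, lrec a η x s) (w y, lrec a η y s) (y - x)))`
`= env.E (fun w => ER s (fun η => Φ (w 0, lrec a η 0 s) (w z, lrec a η z s) z)) =: e z` (apply the shift by `x`: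
first the walk, for fixed `w`: `lrec a (η + x) x = lrec a η 0`, `lrec a (η+x) y = lrec a η (y-x)`; then the environment
`w ↦ w (· + x)`).  So the double sum is `NN * ∑ z, e z` (`card_tor`).
Let `G u u' = ER s (fun η => ER s (fun η' => Φ (u, lrec a η 0 s) (u', lrec a η' 0 s) z))`.  For fixed `w`, by `tv'` for
`h r r' = Φ (w 0, r) (w z, r') z * rho z^(d-2) / D`: `|ER s (Φ(..lrec 0..lrec z)) - G (w 0) (w z)| ≤ (D/rho z^(d-2)) C' e^(-κ s/N) / rho z^(d-2)`.
`|G| ≤ (D/rho z^(d-2)) P(Inc)^2 ≤ (D/rho z^(d-2)) C'^2 e^(-2κ s/N)` (`ER_inc`), so `env.tv`: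
`|E G (w 0) (w z) - E E' G (w 0) (w' 0)| ≤ C2/rho z^(d-2) * (D/rho z^(d-2)) C'^2 e^(-κ s/N)`.
Finally `∑ z, env.E (fun w => env.E (fun w' => G_z (w 0) (w' 0))) = env.E env.E ER ER ∑ z Φ .. = 0`.
Altogether `|double sum| ≤ NN * ∑ z, C'' (1 + C2) D e^(-κ s/N) / rho z^(2(d-2))`.
(`env.E` of a finite sum: from `add`; absolute values: `mono`.)
-/

open Finset

namespace CRW

variable {d : ℕ}

private theorem Env.zero {n : ℕ} [NeZero n] {Dat : Type} {C2 : ℝ} (env : Env d n Dat C2) :
    env.E (fun _ => 0) = 0 := by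
  have h := env.smul 0 (fun _ => 1)
  simpa using h

theorem Env.sum {n : ℕ} [NeZero n] {Dat : Type} {C2 : ℝ} (env : Env d n Dat C2) {ι : Type}
    (s : Finset ι) (g : ι → (Tor d n → Dat) → ℝ) :
    env.E (fun w => ∑ i ∈ s, g i w) = ∑ i ∈ s, env.E (g i) := by
  classical
  induction s using Finset.induction_on with
  | empty =>
    simp only [Finset.sum_empty]
    exact Env.zero env
  | insert i s hi ih =>
    simp only [Finset.sum_insert hi]
    rw [env.add, ih]

theorem Env.abs_le {n : ℕ} [NeZero n] {Dat : Type} {C2 : ℝ} (env : Env d n Dat C2)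
    (g : (Tor d n → Dat) → ℝ) (B : ℝ) (h : ∀ w, |g w| ≤ B) : |env.E g| ≤ B := by
  have hc : ∀ c : ℝ, env.E (fun _ => c) = c := by
    intro c
    have h1 := env.smul c (fun _ => 1)
    rw [env.one, mul_one] at h1
    simpa using h1
  rw [_root_.abs_le]
  constructor
  · have := env.mono (fun _ => -B) g fun w => (_root_.abs_le.mp (h w)).1
    rwa [hc] at this
  · have := env.mono g (fun _ => B) fun w => (_root_.abs_le.mp (h w)).2
    rwa [hc] at this

private theorem Env.sub {n : ℕ} [NeZero n] {Dat : Type} {C2 : ℝ} (env : Env d n Dat C2)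
    (f g : (Tor d n → Dat) → ℝ) : env.E (fun w => f w - g w) = env.E f - env.E g := by
  have h1 := env.smul (-1) g
  have h2 := env.add f (fun w => -1 * g w)
  rw [h1] at h2
  rw [show (fun w => f w - g w) = fun w => f w + -1 * g w by
    funext w; ring, h2]
  ring

private theorem ER_mul {n : ℕ} [NeZero n] (t : ℕ) (c : ℝ) (F : (ℕ → Tor d n) → ℝ) :
    ER t (fun η => c * F η) = c * ER t F := by
  have h := EP_smul t c (fun η (_ : Tor d n) => F η)
  exact h

private theorem ER_sum' {n : ℕ} [NeZero n] {ι : Type} (t : ℕ) (s : Finset ι)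
    (F : ι → (ℕ → Tor d n) → ℝ) :
    ER t (fun η => ∑ i ∈ s, F i η) = ∑ i ∈ s, ER t (F i) :=
  EP_sum t s (fun i η (_ : Tor d n) => F i η)

private theorem ER_mono' {n : ℕ} [NeZero n] (t : ℕ) (F G : (ℕ → Tor d n) → ℝ)
    (h : ∀ η, F η ≤ G η) : ER t F ≤ ER t G :=
  EP_mono t _ _ fun η _ => h η

private theorem abs_ER_le {n : ℕ} [NeZero n] (t : ℕ) (F : (ℕ → Tor d n) → ℝ) :
    |ER t F| ≤ ER t fun η => |F η| := by
  have h := norm_EP_le t (fun η (_ : Tor d n) => F η)
  simp only [Real.norm_eq_abs] at h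
  exact h

open Classical in
/-- `tv'` with a bound `B` -/
private theorem tvB {C1 κ : ℝ} {n : ℕ} [NeZero n] (a : Fin 2 → Tor d n)
    (htv : ∀ (h : Rec → Rec → ℝ),
      (∀ r r', |h r r'| ≤ 1) → (∀ r r', ¬ (Inc r ∧ Inc r') → h r r' = 0) →
      ∀ (z : Tor d n) (s : ℕ),
      |ER s (fun η => h (lrec a η 0 s) (lrec a η z s)) -
        ER s (fun η : ℕ → Tor d n => ER s fun η' : ℕ → Tor d n =>
          h (lrec a η 0 s) (lrec a η' 0 s))| ≤
        C1 * Real.exp (-κ * s / NN d n) / rho z ^ (d - 2))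
    (f : Rec → Rec → ℝ) (B : ℝ) (hB : 0 ≤ B)
    (hf : ∀ r r', |f r r'| ≤ if Inc r ∧ Inc r' then B else 0) (z : Tor d n) (s : ℕ) :
      |ER s (fun η => f (lrec a η 0 s) (lrec a η z s)) -
        ER s (fun η : ℕ → Tor d n => ER s fun η' : ℕ → Tor d n =>
          f (lrec a η 0 s) (lrec a η' 0 s))| ≤
        B * (C1 * Real.exp (-κ * s / NN d n) / rho z ^ (d - 2)) := by
  have hfB : ∀ r r', |f r r'| ≤ B := by
    intro r r'
    refine (hf r r').trans ?_
    split_ifs
    · exact le_rfl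
    · exact hB
  have hBf : ∀ r r', f r r' = B * (f r r' / B) := by
    intro r r'
    refine (mul_div_cancel_of_imp' ?_).symm
    intro h0
    have := hfB r r'
    rw [h0] at this
    exact abs_nonpos_iff.mp this
  have h0 : ∀ r r', ¬ (Inc r ∧ Inc r') → f r r' = 0 := by
    intro r r' h
    have h1 := hf r r'
    rw [if_neg h] at h1
    exact abs_nonpos_iff.mp h1
  have hm := htv (fun r r' => f r r' / B) (by
    intro r r'
    rw [abs_div, abs_of_nonneg hB]
    exact div_le_one_of_le₀ (hfB r r') hB) (by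
    intro r r' h
    rw [h0 r r' h, zero_div]) z s
  have e1 : ER s (fun η => f (lrec a η 0 s) (lrec a η z s)) =
      B * ER s (fun η => (fun r r' => f r r' / B) (lrec a η 0 s) (lrec a η z s)) := by
    rw [← ER_mul]
    congr 1
    funext η
    exact hBf _ _
  have e2 : ER s (fun η : ℕ → Tor d n => ER s fun η' : ℕ → Tor d n =>
          f (lrec a η 0 s) (lrec a η' 0 s)) =
      B * ER s (fun η : ℕ → Tor d n => ER s fun η' : ℕ → Tor d n =>
          (fun r r' => f r r' / B) (lrec a η 0 s) (lrec a η' 0 s)) := by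
    rw [← ER_mul]
    congr 1
    funext η
    rw [← ER_mul]
    congr 1
    funext η'
    exact hBf _ _
  rw [e1, e2, ← mul_sub, abs_mul, abs_of_nonneg hB]
  exact mul_le_mul_of_nonneg_left hm hB

open Classical in
private theorem GB {C3 κ : ℝ} {n : ℕ} [NeZero n] (a : Fin 2 → Tor d n) (s : ℕ)
    (hinc : ER s (fun η => if Inc (lrec a η 0 s) then (1 : ℝ) else 0) ≤
        C3 * Real.exp (-κ * s / NN d n))
    (f : Rec → Rec → ℝ) (B : ℝ) (hB : 0 ≤ B)
    (hf : ∀ r r', |f r r'| ≤ if Inc r ∧ Inc r' then B else 0) :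
    |ER s (fun η : ℕ → Tor d n => ER s fun η' : ℕ → Tor d n =>
          f (lrec a η 0 s) (lrec a η' 0 s))| ≤ B * (C3 * Real.exp (-κ * s / NN d n)) ^ 2 := by
  set P : ℝ := ER s (fun η => if Inc (lrec a η 0 s) then (1 : ℝ) else 0) with hP
  have hP0 : 0 ≤ P := by
    refine EP_nonneg s _ fun η b => ?_
    show (0 : ℝ) ≤ if Inc (lrec a η 0 s) then (1 : ℝ) else 0
    split_ifs <;> norm_num
  have h1 : |ER s (fun η : ℕ → Tor d n => ER s fun η' : ℕ → Tor d n =>
          f (lrec a η 0 s) (lrec a η' 0 s))| ≤ B * (P * P) := by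
    refine (abs_ER_le _ _).trans ?_
    have h2 : ∀ η : ℕ → Tor d n, |ER s fun η' : ℕ → Tor d n =>
        f (lrec a η 0 s) (lrec a η' 0 s)| ≤
        (B * P) * (if Inc (lrec a η 0 s) then (1 : ℝ) else 0) := by
      intro η
      refine (abs_ER_le _ _).trans ?_
      have h3 : ∀ η' : ℕ → Tor d n, |f (lrec a η 0 s) (lrec a η' 0 s)| ≤
          (B * (if Inc (lrec a η 0 s) then (1 : ℝ) else 0)) *
            (if Inc (lrec a η' 0 s) then (1 : ℝ) else 0) := by
        intro η'
        refine (hf _ _).trans ?_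
        by_cases h4 : Inc (lrec a η 0 s) <;> by_cases h5 : Inc (lrec a η' 0 s) <;>
          simp [h4, h5]
      refine (ER_mono' s _ _ h3).trans ?_
      rw [ER_mul, ← hP]
      exact le_of_eq (by ring)
    refine (ER_mono' s _ _ h2).trans ?_
    rw [ER_mul, ← hP]
    exact le_of_eq (by ring)
  refine h1.trans (mul_le_mul_of_nonneg_left ?_ hB)
  rw [sq]
  exact mul_self_le_mul_self hP0 hinc

open Classical in
theorem double_sum (hd : 3 ≤ d) (C κ C2 : ℝ) : ∃ C' : ℝ, 1 ≤ C' ∧ ∀ (n : ℕ) [NeZero n],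
    HKB d n C κ → ∀ (a : Fin 2 → Tor d n), (∀ j, nrm (a j) ≤ 1) → a 0 ≠ a 1 →
      ∀ (Dat : Type) (env : Env d n Dat C2) (D : ℝ) (Φ : Dat → Rec → Dat → Rec → Tor d n → ℝ),
      0 ≤ D →
      (∀ u r u' r' z, |Φ u r u' r' z| ≤ if Inc r ∧ Inc r' then D / rho z ^ (d - 2) else 0) →
      (∀ u r u' r', ∑ z, Φ u r u' r' z = 0) → ∀ s : ℕ,
      |env.E fun w => ER s fun η => ∑ x, ∑ y,
        Φ (w x) (lrec a η x s) (w y) (lrec a η y s) (y - x)| ≤
        C' * D * NN d n * S4 d n * Real.exp (-κ * s / NN d n) := by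
  obtain ⟨C1, hC1, htv⟩ := tv' (d := d) hd C κ
  obtain ⟨C3, hC3, hinc⟩ := ER_inc (d := d) hd C κ
  refine ⟨C1 + C3 ^ 2 * |C2|, ?_, ?_⟩
  · have : 0 ≤ C3 ^ 2 * |C2| := by positivity
    linarith
  intro n _ hb a ha1 ha Dat env D Φ hD hΦ hΦ0 s
  have hN : 0 < NN d n := NN_pos
  set e : ℝ := Real.exp (-κ * s / NN d n) with he
  have he0 : 0 < e := Real.exp_pos _
  have he1 : e ≤ 1 := by
    rw [he, Real.exp_le_one_iff]
    apply div_nonpos_of_nonpos_of_nonneg _ hN.le
    have : 0 ≤ κ * s := mul_nonneg hb.hκ.le (Nat.cast_nonneg _)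
    linarith
  -- the term of a pair
  set ex : Tor d n → ℝ := fun z => env.E fun w => ER s fun η =>
    Φ (w 0) (lrec a η 0 s) (w z) (lrec a η z s) z with hex
  set G : Tor d n → Dat → Dat → ℝ := fun z u u' => ER s fun η : ℕ → Tor d n =>
    ER s fun η' : ℕ → Tor d n => Φ u (lrec a η 0 s) u' (lrec a η' 0 s) z with hG
  have step1 : (env.E fun w => ER s fun η => ∑ x, ∑ y,
        Φ (w x) (lrec a η x s) (w y) (lrec a η y s) (y - x)) = ∑ x, ∑ y, ex (y - x) := by
    have h1 : (fun w : Tor d n → Dat => ER s fun η => ∑ x, ∑ y,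
        Φ (w x) (lrec a η x s) (w y) (lrec a η y s) (y - x)) =
        fun w => ∑ x, ∑ y, ER s fun η =>
          Φ (w x) (lrec a η x s) (w y) (lrec a η y s) (y - x) := by
      funext w
      rw [ER_sum']
      refine Finset.sum_congr rfl fun x _ => ?_
      rw [ER_sum']
    rw [h1, Env.sum]
    refine Finset.sum_congr rfl fun x _ => ?_
    rw [Env.sum]
    refine Finset.sum_congr rfl fun y _ => ?_
    have h2 : (fun w : Tor d n → Dat => ER s fun η =>
          Φ (w x) (lrec a η x s) (w y) (lrec a η y s) (y - x)) =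
        fun w => ER s fun η =>
          Φ (w x) (lrec a η 0 s) (w y) (lrec a η (y - x) s) (y - x) := by
      funext w
      have h3 := ER_shift s (fun η => Φ (w x) (lrec a η x s) (w y) (lrec a η y s) (y - x))
        (by
          intro η η' b hηη
          simp only
          rw [lrec_congr a x s hηη, lrec_congr a y s hηη]) x
      rw [← h3]
      congr 1
      funext η
      have h4 := lrec_shift a η 0 x s
      have h5 := lrec_shift a η (y - x) x s
      rw [zero_add] at h4
      rw [sub_add_cancel] at h5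
      rw [h4, h5]
    rw [h2]
    have h6 := env.shift x (fun w => ER s fun η =>
      Φ (w 0) (lrec a η 0 s) (w (y - x)) (lrec a η (y - x) s) (y - x))
    rw [hex]
    simp only at h6 ⊢
    rw [← h6]
    simp only [zero_add, sub_add_cancel]
  have step3 : ∑ x : Tor d n, ∑ y, ex (y - x) = NN d n * ∑ z, ex z := by
    have h1 : ∀ x : Tor d n, ∑ y, ex (y - x) = ∑ z, ex z := fun x =>
      (Equiv.subRight x).sum_comp ex
    rw [Finset.sum_congr rfl fun x _ => h1 x, Finset.sum_const, nsmul_eq_mul, Finset.card_univ,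
      card_tor]
  have hBz : ∀ z : Tor d n, 0 ≤ D / rho z ^ (d - 2) := fun z =>
    div_nonneg hD (pow_nonneg (rho_pos z).le _)
  have stepA : ∀ z : Tor d n, |ex z - env.E fun w => G z (w 0) (w z)| ≤
      D / rho z ^ (d - 2) * (C1 * e / rho z ^ (d - 2)) := by
    intro z
    rw [hex]
    simp only
    rw [← Env.sub]
    refine Env.abs_le env _ _ fun w => ?_
    exact tvB a (fun h h1 h2 z s => htv n hb a h ha1 ha h1 h2 z s)
      (fun r r' => Φ (w 0) r (w z) r' z) _ (hBz z) (fun r r' => hΦ _ _ _ _ _) z s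
  have stepB : ∀ z : Tor d n, ∀ u u', |G z u u'| ≤ D / rho z ^ (d - 2) * (C3 * e) ^ 2 := by
    intro z u u'
    exact GB a s (hinc n hb a 0 s) (fun r r' => Φ u r u' r' z) _ (hBz z)
      (fun r r' => hΦ _ _ _ _ _)
  have stepC : ∀ z : Tor d n, |(env.E fun w => G z (w 0) (w z)) -
      env.E fun w => env.E fun w' => G z (w 0) (w' 0)| ≤
      D / rho z ^ (d - 2) * (C3 * e) ^ 2 * (|C2| / rho z ^ (d - 2)) := by
    intro z
    set B' : ℝ := D / rho z ^ (d - 2) * (C3 * e) ^ 2 with hB'
    have hB'0 : 0 ≤ B' := mul_nonneg (hBz z) (sq_nonneg _)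
    have hGB : ∀ u u', G z u u' = B' * (G z u u' / B') := by
      intro u u'
      refine (mul_div_cancel_of_imp' ?_).symm
      intro h0
      have := stepB z u u'
      rw [← hB', h0] at this
      exact abs_nonpos_iff.mp this
    have h1 := env.tv z (fun u u' => G z u u' / B') (by
      intro u u'
      rw [abs_div, abs_of_nonneg hB'0]
      exact div_le_one_of_le₀ (stepB z u u') hB'0)
    have e1 : (env.E fun w => G z (w 0) (w z)) =
        B' * env.E fun w => G z (w 0) (w z) / B' := by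
      rw [← env.smul]
      congr 1
      funext w
      exact hGB _ _
    have e2 : (env.E fun w => env.E fun w' => G z (w 0) (w' 0)) =
        B' * env.E fun w => env.E fun w' => G z (w 0) (w' 0) / B' := by
      rw [← env.smul]
      congr 1
      funext w
      rw [← env.smul]
      congr 1
      funext w'
      exact hGB _ _
    rw [e1, e2, ← mul_sub, abs_mul, abs_of_nonneg hB'0]
    refine mul_le_mul_of_nonneg_left (h1.trans ?_) hB'0
    exact div_le_div_of_nonneg_right (le_abs_self _) (pow_nonneg (rho_pos z).le _)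
  have stepD : ∑ z, (env.E fun w => env.E fun w' => G z (w 0) (w' 0)) = 0 := by
    have h1 : ∀ u u', ∑ z, G z u u' = 0 := by
      intro u u'
      rw [hG]
      simp only
      rw [← ER_sum']
      have h2 : (fun η : ℕ → Tor d n => ∑ z, ER s fun η' : ℕ → Tor d n =>
          Φ u (lrec a η 0 s) u' (lrec a η' 0 s) z) = fun _ => 0 := by
        funext η
        rw [← ER_sum']
        have h3 : (fun η' : ℕ → Tor d n => ∑ z, Φ u (lrec a η 0 s) u' (lrec a η' 0 s) z) =
            fun _ => 0 := by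
          funext η'
          exact hΦ0 _ _ _ _
        rw [h3]
        exact EP_const (by omega) s (0 : ℝ)
      rw [h2]
      exact EP_const (by omega) s (0 : ℝ)
    rw [← Env.sum]
    have h4 : (fun w : Tor d n → Dat => ∑ z, env.E fun w' => G z (w 0) (w' 0)) = fun _ => 0 := by
      funext w
      rw [← Env.sum]
      have h5 : (fun w' : Tor d n → Dat => ∑ z, G z (w 0) (w' 0)) = fun _ => 0 := by
        funext w'
        exact h1 _ _
      rw [h5]
      exact Env.zero env
    rw [h4]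
    exact Env.zero env
  rw [step1, step3, abs_mul, abs_of_pos hN]
  have hfin : |∑ z, ex z| ≤ ∑ z : Tor d n, (C1 + C3 ^ 2 * |C2|) * D * e * (1 / rho z ^ (2 * (d - 2))) := by
    have h1 : ∑ z, ex z = ∑ z, (ex z - env.E fun w => env.E fun w' => G z (w 0) (w' 0)) := by
      rw [Finset.sum_sub_distrib, stepD, sub_zero]
    rw [h1]
    refine (Finset.abs_sum_le_sum_abs _ _).trans (Finset.sum_le_sum fun z _ => ?_)
    have h2 := (abs_sub_le (ex z) (env.E fun w => G z (w 0) (w z))
      (env.E fun w => env.E fun w' => G z (w 0) (w' 0))).trans (add_le_add (stepA z) (stepC z))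
    refine h2.trans ?_
    have hρ : 0 < rho z ^ (d - 2) := pow_pos (rho_pos z) _
    have h3 : rho z ^ (2 * (d - 2)) = rho z ^ (d - 2) * rho z ^ (d - 2) := by
      rw [two_mul, pow_add]
    rw [h3]
    have h4 : D / rho z ^ (d - 2) * (C1 * e / rho z ^ (d - 2)) +
        D / rho z ^ (d - 2) * (C3 * e) ^ 2 * (|C2| / rho z ^ (d - 2)) =
        (C1 * D * e + C3 ^ 2 * |C2| * D * (e * e)) *
          (1 / (rho z ^ (d - 2) * rho z ^ (d - 2))) := by
      field_simp
    rw [h4]
    refine mul_le_mul_of_nonneg_right ?_ (by positivity)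
    have h5 : e * e ≤ e := by nlinarith
    have h6 : C3 ^ 2 * |C2| * D * (e * e) ≤ C3 ^ 2 * |C2| * D * e :=
      mul_le_mul_of_nonneg_left h5 (by positivity)
    calc C1 * D * e + C3 ^ 2 * |C2| * D * (e * e) ≤ C1 * D * e + C3 ^ 2 * |C2| * D * e := by
          linarith
      _ = _ := by ring
  rw [← Finset.mul_sum] at hfin
  calc NN d n * |∑ z, ex z| ≤ NN d n * ((C1 + C3 ^ 2 * |C2|) * D * e *
        ∑ z : Tor d n, 1 / rho z ^ (2 * (d - 2))) := mul_le_mul_of_nonneg_left hfin hN.le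
    _ = _ := by
      unfold S4
      ring

end CRW
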