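import Pool.Agent.Lib.CRW.U2

/-!
# Module U3: the part with the old records, and the initial term

PROOFS.  `main_term`: `∑ b, Gam (HH ..) b = ∑ x, ∑ y, KK a (φ (w x)) (φ (w y)) k t (lrec x) (lrec y) (y - x)`: `Gam_sum`, and
`∑ b, GamB (V_x (· - x)) (V_y (· - y)) b = ∑ b, GamB V_x (V_y (· - (y - x))) b` (`GamB_shift`, translate `b`).  Then `double_sum` with
`Φ u r u' r' z = KK a (φ u) (φ u') k t r r' z` (`KK_le`, `KK_sum`).
`init_term`: `HH a φ w k t 0 η b` does not depend on `η` (`lrec .. 0 = rec0`).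
`NN⁻¹ ∑ b, (∑ x, V_x (b - x))^2 - (NN⁻¹ ∑ b, ∑ x, V_x (b-x))^2 = NN⁻¹ ∑ b, (∑ x, (V_x (b - x) - mean V_x))^2`
`= NN⁻¹ ∑ x, ∑ y, K0 a (φ (w x)) (φ (w y)) k t rec0 rec0 (y - x)`; `double_sum` with `s = 0` (`ER 0 F = F 0`: `EP_const`), `D = C' n^2`,
`NN⁻¹ n^2 ≤ 1`.
-/

open Finset

namespace CRW

variable {d : ℕ}

private theorem u3_gam {n : ℕ} [NeZero n] (a : Fin 2 → Tor d n) {Dat : Type}
    (φ : Dat → Rec → ℝ) (w : Tor d n → Dat) (k t s : ℕ) (η : ℕ → Tor d n) :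
    ∑ b, Gam (HH a φ w k t s η) b = ∑ x, ∑ y,
      KK a (φ (w x)) (φ (w y)) k t (lrec a η x s) (lrec a η y s) (y - x) := by
  have h1 : ∀ b, Gam (HH a φ w k t s η) b = ∑ x, ∑ y,
      GamB (fun u => val a (φ (w x)) k t (lrec a η x s) (u - x))
        (fun u => val a (φ (w y)) k t (lrec a η y s) (u - y)) b := by
    intro b
    exact Gam_sum univ (fun x u => val a (φ (w x)) k t (lrec a η x s) (u - x)) b
  simp_rw [h1]
  rw [Finset.sum_comm]
  refine Finset.sum_congr rfl fun x _ => ?_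
  rw [Finset.sum_comm]
  refine Finset.sum_congr rfl fun y _ => ?_
  unfold KK
  rw [← Equiv.sum_comp (Equiv.subRight x) (fun b =>
    GamB (val a (φ (w x)) k t (lrec a η x s))
      (fun u => val a (φ (w y)) k t (lrec a η y s) (u - (y - x))) b)]
  refine Finset.sum_congr rfl fun b _ => ?_
  have h2 := GamB_shift (val a (φ (w x)) k t (lrec a η x s))
    (fun u => val a (φ (w y)) k t (lrec a η y s) (u - (y - x))) x b
  rw [Equiv.subRight_apply, ← h2]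
  congr 1
  funext u
  congr 1
  abel

theorem main_term (hd : 3 ≤ d) (C κ C2 : ℝ) : ∃ C' : ℝ, 1 ≤ C' ∧ ∀ (n : ℕ) [NeZero n],
    HKB d n C κ → ∀ (a : Fin 2 → Tor d n), (∀ j, nrm (a j) ≤ 1) → a 0 ≠ a 1 →
      ∀ (Dat : Type) (env : Env d n Dat C2) (φ : Dat → Rec → ℝ), (∀ u r, |φ u r| ≤ 1) →
      ∀ k t s : ℕ, env.E (fun w => ER s fun η => ∑ b, Gam (HH a φ w k t s η) b) ≤
        C' * NN d n * S4 d n * Real.exp (-κ * s / NN d n) := by
  classical
  obtain ⟨C1, hC1, h1⟩ := double_sum hd C κ C2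
  obtain ⟨C3, hC3, h3⟩ := KK_le hd C κ
  refine ⟨C1 * C3, one_le_mul_of_one_le_of_one_le hC1 hC3, ?_⟩
  intro n _ hb a ha1 ha Dat env φ hφ k t s
  have h4 := h1 n hb a ha1 ha Dat env C3
    (fun u r u' r' z => KK a (φ u) (φ u') k t r r' z) (by linarith)
    (fun u r u' r' z => h3 n hb a (φ u) (φ u') ha1 ha (hφ u) (hφ u') k t r r' z)
    (fun u r u' r' => KK_sum (by omega) a (φ u) (φ u') k t r r') s
  simp_rw [u3_gam]
  exact (le_abs_self _).trans h4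

private theorem u3_init {n : ℕ} [NeZero n] (a : Fin 2 → Tor d n) {Dat : Type}
    (φ : Dat → Rec → ℝ) (w : Tor d n → Dat) (k t : ℕ) :
    EP 0 (fun η b => HH a φ w k t 0 η b ^ 2) - EP 0 (HH a φ w k t 0) ^ 2 =
      (NN d n)⁻¹ * ∑ x, ∑ y, K0 a (φ (w x)) (φ (w y)) k t rec0 rec0 (y - x) := by
  have hN : 0 < NN d n := NN_pos
  set V : Tor d n → Tor d n → ℝ := fun x => val a (φ (w x)) k t rec0 with hV
  set m : Tor d n → ℝ := fun x => vbar a (φ (w x)) k t rec0 with hm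
  set S : Tor d n → ℝ := fun b => ∑ x, V x (b - x) with hS
  have hHH : HH a φ w k t 0 (fun _ => 0) = S := rfl
  have e1 : EP 0 (fun η b => HH a φ w k t 0 η b ^ 2) = (NN d n)⁻¹ * ∑ b, S b ^ 2 := rfl
  have e2 : EP 0 (HH a φ w k t 0) = (NN d n)⁻¹ * ∑ b, S b := rfl
  have hmx : ∀ x, ∑ b, V x b = NN d n * m x := by
    intro x
    have : m x = (NN d n)⁻¹ * ∑ b, V x b := rfl
    rw [this]
    field_simp
  have hSs : ∑ b, S b = NN d n * ∑ x, m x := by
    rw [hS]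
    rw [Finset.sum_comm, Finset.mul_sum]
    refine Finset.sum_congr rfl fun x _ => ?_
    rw [← hmx x]
    exact Equiv.sum_comp (Equiv.subRight x) (V x)
  have hcard : ∑ _b : Tor d n, (1 : ℝ) = NN d n := by
    rw [Finset.sum_const, Finset.card_univ, nsmul_eq_mul, mul_one]
    exact card_tor
  have e3 : ∑ b, (S b - ∑ x, m x) ^ 2 = ∑ b, S b ^ 2 - NN d n * (∑ x, m x) ^ 2 := by
    have : ∀ b, (S b - ∑ x, m x) ^ 2 = S b ^ 2 - 2 * (∑ x, m x) * S b +
        (∑ x, m x) ^ 2 * 1 := fun b => by ring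
    simp_rw [this]
    rw [Finset.sum_add_distrib, Finset.sum_sub_distrib, ← Finset.mul_sum, ← Finset.mul_sum,
      hcard, hSs]
    ring
  have e4 : ∑ b, (S b - ∑ x, m x) ^ 2 =
      ∑ x, ∑ y, K0 a (φ (w x)) (φ (w y)) k t rec0 rec0 (y - x) := by
    have h1 : ∀ b, (S b - ∑ x, m x) ^ 2 =
        ∑ x, ∑ y, (V x (b - x) - m x) * (V y (b - y) - m y) := by
      intro b
      have : S b - ∑ x, m x = ∑ x, (V x (b - x) - m x) := by
        rw [Finset.sum_sub_distrib]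
      rw [this, sq, Finset.sum_mul_sum]
    simp_rw [h1]
    rw [Finset.sum_comm]
    refine Finset.sum_congr rfl fun x _ => ?_
    rw [Finset.sum_comm]
    refine Finset.sum_congr rfl fun y _ => ?_
    have h2 : K0 a (φ (w x)) (φ (w y)) k t rec0 rec0 (y - x) =
        ∑ b, (V x b - m x) * (V y (b - (y - x)) - m y) := rfl
    rw [h2, ← Equiv.sum_comp (Equiv.subRight x) (fun b =>
      (V x b - m x) * (V y (b - (y - x)) - m y))]
    refine Finset.sum_congr rfl fun b _ => ?_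
    have h3 : b - x - (y - x) = b - y := by abel
    simp only [Equiv.subRight_apply, h3]
  rw [e1, e2, hSs, ← e4, e3]
  field_simp

theorem init_term (hd : 3 ≤ d) (C κ C2 : ℝ) : ∃ C' : ℝ, 1 ≤ C' ∧ ∀ (n : ℕ) [NeZero n],
    HKB d n C κ → ∀ (a : Fin 2 → Tor d n), (∀ j, nrm (a j) ≤ 1) → a 0 ≠ a 1 →
      ∀ (Dat : Type) (env : Env d n Dat C2) (φ : Dat → Rec → ℝ), (∀ u r, |φ u r| ≤ 1) →
      ∀ k t : ℕ, env.E (fun w => EP 0 (fun η b => HH a φ w k t 0 η b ^ 2) -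
        EP 0 (HH a φ w k t 0) ^ 2) ≤ C' * NN d n * S4 d n := by
  classical
  obtain ⟨C1, hC1, h1⟩ := double_sum hd C κ C2
  obtain ⟨C3, hC3, h3⟩ := K0_le hd C κ
  refine ⟨C1 * C3, one_le_mul_of_one_le_of_one_le hC1 hC3, ?_⟩
  intro n _ hb a ha1 ha Dat env φ hφ k t
  have hN : 0 < NN d n := NN_pos
  have hS : 1 ≤ S4 d n := one_le_S4 n
  have hnN : (n : ℝ) ^ 2 ≤ NN d n := sq_le_NN (by omega)
  have h4 := h1 n hb a ha1 ha Dat env (C3 * n ^ 2)
    (fun u r u' r' z => K0 a (φ u) (φ u') k t r r' z) (by positivity)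
    (fun u r u' r' z => h3 n hb a (φ u) (φ u') ha1 ha (hφ u) (hφ u') k t r r' z)
    (fun u r u' r' => K0_sum a (φ u) (φ u') k t r r') 0
  have h5 : (fun w : Tor d n → Dat => ER 0 fun η : ℕ → Tor d n => ∑ x, ∑ y,
      K0 a (φ (w x)) (φ (w y)) k t (lrec a η x 0) (lrec a η y 0) (y - x)) =
      fun w => ∑ x, ∑ y, K0 a (φ (w x)) (φ (w y)) k t rec0 rec0 (y - x) := by
    funext w
    exact EP_const (n := n) (by omega : 1 ≤ d) 0
      (∑ x, ∑ y, K0 a (φ (w x)) (φ (w y)) k t rec0 rec0 (y - x))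
  rw [h5] at h4
  have h6 : (fun w : Tor d n → Dat => EP 0 (fun η b => HH a φ w k t 0 η b ^ 2) -
      EP 0 (HH a φ w k t 0) ^ 2) = fun w => (NN d n)⁻¹ *
        ∑ x, ∑ y, K0 a (φ (w x)) (φ (w y)) k t rec0 rec0 (y - x) := by
    funext w
    exact u3_init a φ w k t
  rw [h6, env.smul]
  have h7 := (le_abs_self _).trans h4
  have h8 : Real.exp (-κ * ((0 : ℕ) : ℝ) / NN d n) = 1 := by simp
  rw [h8, mul_one] at h7
  calc _ ≤ (NN d n)⁻¹ * (C1 * (C3 * n ^ 2) * NN d n * S4 d n) :=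
        mul_le_mul_of_nonneg_left h7 (inv_nonneg.2 hN.le)
    _ = C1 * C3 * S4 d n * n ^ 2 := by field_simp
    _ ≤ C1 * C3 * S4 d n * NN d n := mul_le_mul_of_nonneg_left hnN (by positivity)
    _ = C1 * C3 * NN d n * S4 d n := by ring

end CRW
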