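import Pool.Agent.Lib.CRW.PF
import Pool.Agent.Lib.CRW.TS

/-!
# Module U4: the second moment of the recent visits

`recent a s t η b g` is the sum over the times `r` in `[s, t]` (with the position `b` at time `t`) and `j` of
`1{the pair X_r - a j is incomplete at time s} g (X_t - X_r + a j)`.

PROOF.  Let `X r = η r` for `r < t`, `X t = b`.  The square is at most `2 ∑_{s ≤ r ≤ r' ≤ t} ∑_{j,j'} 1{Inc at X_r - a j} g(X_t - X_r + a j)`
`* g (X_t - X_r' + a j')`.
Fix `r, r', j, j'`.  Claim: `EP t` of this product is `EP r (fun η b => 1{Inc (lrec a η (b - a j) s)}) * y`, where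
`y = ∑ u, hk (r'-r) u * ∑ v, hk (t - r') v * (g (u+v+a j) * g (v + a j'))`:
`EP_time` from `r'` to `t` and from `r` to `r'` (the function is local; then the sum over the increments does not depend on the position).
The first factor is `≤ C' e^(-κ t/N)`: if `n^2 ≤ s`: `1{Inc at s} ≤ 1{Inc at s - n^2}`, `EP_dens` (`r ≥ s`), `∑ b, ER (s-n^2) 1{Inc (lrec (b - a j))}`
`≤ NN C' e^(-κ (s-n^2)/N)` (`ER_inc`) and `t ≤ s + n^2`, `n^2 ≤ N`.  If `s < n^2` then `t ≤ 2 n^2 ≤ 2 N` and the bound is trivial.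
Sum over `r ≤ r'` of `y`: with `G z = ∑_{r ≤ n^2} hk r z ≤ C / rho z^(d-2)` (`hb.green`; `t - r', r' - r ≤ n^2`), `g ≤ B/rho^(d-1)` and
`rho z ≤ 2 rho (z + a j)`: `∑ y ≤ ∑ v, G v * (2^(d-1) B/rho v^(d-1)) * ∑ u, G u * 2^(d-1) B / rho (u+v)^(d-1) ≤ C B^2 L^2`,
`L = ∑ z, 1/rho z^(2d-3)` (`sum_conv` for the inner sum, and `rho^(2-d) rho^(1-d) = rho^(3-2d)` for the outer one); `L_sq`.
-/

open Finset

namespace CRW

variable {d : ℕ}

open Classical in
/-- weighted recent visits -/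
noncomputable def recent {n : ℕ} [NeZero n] (a : Fin 2 → Tor d n) (g : Tor d n → ℝ)
    (s t : ℕ) (η : ℕ → Tor d n) (b : Tor d n) : ℝ :=
  ∑ r ∈ Icc s t, ∑ j, (if Inc (lrec a η ((Function.update η t b) r - a j) s) then (1 : ℝ) else 0)
    * g (b - (Function.update η t b) r + a j)

section
variable {n : ℕ} [NeZero n]

/-- the path is used only up to time `r`, and the final position -/
private theorem EP_mid (r k : ℕ) (F : (ℕ → Tor d n) → Tor d n → ℝ)
    (hF : ∀ θ θ' b, (∀ s ≤ r, θ s = θ' s) → F θ b = F θ' b) :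
    EP (r + k) (fun η b => F (Function.update η (r + k) b) b) =
      EP r fun η x => ∑ b, hk d n k (b - x) * F (Function.update η r x) b := by
  cases k with
  | zero =>
    refine EP_congr _ _ _ fun η x _ => ?_
    have h1 : ∀ b, hk d n 0 (b - x) * F (Function.update η r x) b =
        if b = x then F (Function.update η r x) b else 0 := by
      intro b
      unfold hk
      by_cases hb : b = x
      · rw [if_pos (sub_eq_zero.mpr hb), if_pos hb, one_mul]
      · rw [if_neg (sub_ne_zero.mpr hb), if_neg hb, zero_mul]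
    rw [sum_congr rfl fun b _ => h1 b, sum_ite_eq' univ x, if_pos (mem_univ x)]
    rfl
  | succ k =>
    have h1 : EP (r + (k + 1)) (fun η b => F (Function.update η (r + (k + 1)) b) b) =
        EP (r + 1 + k) F := by
      rw [show r + (k + 1) = r + 1 + k by omega]
      refine EP_congr _ _ _ fun η b _ => ?_
      refine hF _ _ _ fun s hs => ?_
      rw [Function.update_of_ne (by omega)]
    have hloc : Loc (r + 1) F := fun η η' b h => hF _ _ _ fun s hs => h s (by omega)
    rw [h1, EP_time (r + 1) k F hloc]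
    show EP r (fun η b => ∑ w, stp d n w • ∑ b', hk d n k (b' - (b + w)) •
      F (Function.update η r b) b') = _
    congr 1
    funext η x
    rw [← hk_succ_fun k x (F (Function.update η r x))]
    rfl

private theorem sq_sum_le (A : ℕ → ℝ) (s t : ℕ) (hst : s ≤ t) :
    (∑ r ∈ Icc s t, A r) ^ 2 ≤ 2 * ∑ r' ∈ Icc s t, ∑ r ∈ Icc s r', A r * A r' := by
  induction t, hst using Nat.le_induction with
  | base =>
    simp only [Icc_self, sum_singleton]
    nlinarith [sq_nonneg (A s)]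
  | succ t hst ih =>
    rw [sum_Icc_succ_top (by omega), sum_Icc_succ_top (by omega),
      sum_Icc_succ_top (f := fun r => A r * A (t + 1)) (by omega), ← sum_mul]
    nlinarith [sq_nonneg (A (t + 1))]

private theorem sum_hk_le {C κ : ℝ} (hb : HKB d n C κ) {s r' : ℕ} (h : r' ≤ s + n ^ 2)
    (u : Tor d n) : ∑ r ∈ Icc s r', hk d n (r' - r) u ≤ C / rho u ^ (d - 2) := by
  refine le_trans ?_ (hb.green u)
  have hinj : Set.InjOn (fun r => r' - r) (Icc s r' : Set ℕ) := by
    intro x hx y hy hxy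
    rw [mem_coe, mem_Icc] at hx hy
    simp only at hxy
    omega
  rw [← sum_image (f := fun k => hk d n k u) (g := fun r => r' - r) hinj]
  refine sum_le_sum_of_subset_of_nonneg ?_ fun k _ _ => hk_nonneg k u
  intro k hk
  rw [mem_image] at hk
  obtain ⟨r, hr, rfl⟩ := hk
  rw [mem_Icc] at hr
  rw [mem_range]
  omega

/-- the sum of the kernels -/
private noncomputable def yy (a : Fin 2 → Tor d n) (g : Tor d n → ℝ) (k k' : ℕ)
    (j j' : Fin 2) : ℝ :=
  ∑ u, hk d n k u * ∑ v, hk d n k' v * (g (u + v + a j) * g (v + a j'))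

private theorem yy_sum {C κ : ℝ} (hb : HKB d n C κ) (hd : 3 ≤ d) (a : Fin 2 → Tor d n)
    (g : Tor d n → ℝ) (B : ℝ) (ha : ∀ j, nrm (a j) ≤ 1)
    (hg : ∀ z, 0 ≤ g z ∧ g z ≤ B / rho z ^ (d - 1)) (s t : ℕ)
    (hts : t ≤ s + n ^ 2) (j j' : Fin 2) :
    ∑ r' ∈ Icc s t, ∑ r ∈ Icc s r', yy a g (r' - r) (t - r') j j' ≤
      2 * (C * (2 ^ (d - 1) * B)) ^ 2 * (∑ z : Tor d n, 1 / rho z ^ (2 * d - 3)) ^ 2 := by
  have hC : 0 ≤ C := by linarith [hb.hC]
  have hB : 0 ≤ B := by
    have h1 := hg 0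
    have h2 := h1.1.trans h1.2
    have h3 := pow_pos (rho_pos (0 : Tor d n)) (d - 1)
    by_contra hcon
    push Not at hcon
    have : B / rho (0 : Tor d n) ^ (d - 1) < 0 := div_neg_of_neg_of_pos hcon h3
    linarith
  have hgj : ∀ (z : Tor d n) (j : Fin 2), g (z + a j) ≤ 2 ^ (d - 1) * B / rho z ^ (d - 1) := by
    intro z j
    refine (hg _).2.trans ?_
    have h1 : rho z ≤ 2 * rho (z + a j) := by
      have h2 := rho_le_two_mul (a := -a j) (by rw [nrm_neg]; exact ha j) z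
      rwa [sub_neg_eq_add] at h2
    have h3 : rho z ^ (d - 1) ≤ (2 * rho (z + a j)) ^ (d - 1) :=
      pow_le_pow_left₀ (rho_pos z).le h1 _
    rw [mul_pow] at h3
    have h4 := pow_pos (rho_pos z) (d - 1)
    have h5 := pow_pos (rho_pos (z + a j)) (d - 1)
    rw [div_le_div_iff₀ h5 h4]
    calc B * rho z ^ (d - 1) ≤ B * (2 ^ (d - 1) * rho (z + a j) ^ (d - 1)) :=
          mul_le_mul_of_nonneg_left h3 hB
      _ = _ := by ring
  have hg0 : ∀ z, 0 ≤ g z := fun z => (hg z).1
  have hΦ0 : ∀ k' u, 0 ≤ ∑ v, hk d n k' v * (g (u + v + a j) * g (v + a j')) := fun k' u =>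
    sum_nonneg fun v _ => mul_nonneg (hk_nonneg _ _) (mul_nonneg (hg0 _) (hg0 _))
  -- sum over `r`
  have h1 : ∀ r' ∈ Icc s t, ∑ r ∈ Icc s r', yy a g (r' - r) (t - r') j j' ≤
      ∑ u, C / rho u ^ (d - 2) * ∑ v, hk d n (t - r') v * (g (u + v + a j) * g (v + a j')) := by
    intro r' hr'
    rw [mem_Icc] at hr'
    unfold yy
    rw [sum_comm]
    refine sum_le_sum fun u _ => ?_
    rw [← sum_mul]
    exact mul_le_mul_of_nonneg_right (sum_hk_le hb (by omega) u) (hΦ0 _ _)
  refine (sum_le_sum h1).trans ?_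
  rw [sum_comm]
  -- sum over `r'`
  have h2 : ∀ u : Tor d n, ∑ r' ∈ Icc s t, C / rho u ^ (d - 2) *
      ∑ v, hk d n (t - r') v * (g (u + v + a j) * g (v + a j')) ≤
      C / rho u ^ (d - 2) * ∑ v, C / rho v ^ (d - 2) *
        (2 ^ (d - 1) * B / rho (u + v) ^ (d - 1) * (2 ^ (d - 1) * B / rho v ^ (d - 1))) := by
    intro u
    rw [← mul_sum]
    refine mul_le_mul_of_nonneg_left ?_ (div_nonneg hC (pow_pos (rho_pos u) _).le)
    rw [sum_comm]
    refine sum_le_sum fun v _ => ?_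
    rw [← sum_mul]
    refine mul_le_mul (sum_hk_le hb hts v) ?_ (mul_nonneg (hg0 _) (hg0 _))
      (div_nonneg hC (pow_pos (rho_pos v) _).le)
    exact mul_le_mul (hgj _ _) (hgj _ _) (hg0 _) (div_nonneg (by positivity)
      (pow_pos (rho_pos _) _).le)
  refine (sum_le_sum fun u _ => h2 u).trans ?_
  set L : ℝ := ∑ z : Tor d n, 1 / rho z ^ (2 * d - 3) with hL
  have h3 : ∑ u : Tor d n, C / rho u ^ (d - 2) * ∑ v : Tor d n, C / rho v ^ (d - 2) *
      (2 ^ (d - 1) * B / rho (u + v) ^ (d - 1) * (2 ^ (d - 1) * B / rho v ^ (d - 1))) =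
      (C * (2 ^ (d - 1) * B)) ^ 2 * ∑ v : Tor d n, 1 / rho v ^ (2 * d - 3) *
        ∑ u : Tor d n, 1 / rho u ^ (d - 2) * (1 / rho (u + v) ^ (d - 1)) := by
    simp only [mul_sum]
    rw [sum_comm]
    refine sum_congr rfl fun v _ => sum_congr rfl fun u _ => ?_
    have e1 : rho v ^ (2 * d - 3) = rho v ^ (d - 2) * rho v ^ (d - 1) := by
      rw [← pow_add]
      congr 1
      omega
    have := pow_pos (rho_pos v) (d - 2)
    have := pow_pos (rho_pos v) (d - 1)
    have := pow_pos (rho_pos u) (d - 2)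
    have := pow_pos (rho_pos (u + v)) (d - 1)
    rw [e1]
    field_simp
  rw [h3]
  have h4 : ∀ v : Tor d n, ∑ u : Tor d n, 1 / rho u ^ (d - 2) * (1 / rho (u + v) ^ (d - 1)) ≤
      2 * L := by
    intro v
    refine le_trans (le_of_eq ?_) (sum_conv hd n v)
    refine Fintype.sum_equiv (Equiv.addRight v) _ _ fun u => ?_
    simp only [Equiv.coe_addRight, add_sub_cancel_right]
  have hL0 : ∀ v : Tor d n, 0 ≤ 1 / rho v ^ (2 * d - 3) := fun v =>
    div_nonneg zero_le_one (pow_pos (rho_pos v) _).le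
  calc (C * (2 ^ (d - 1) * B)) ^ 2 * ∑ v : Tor d n, 1 / rho v ^ (2 * d - 3) *
        ∑ u : Tor d n, 1 / rho u ^ (d - 2) * (1 / rho (u + v) ^ (d - 1))
      ≤ (C * (2 ^ (d - 1) * B)) ^ 2 * ∑ v : Tor d n, 1 / rho v ^ (2 * d - 3) * (2 * L) := by
        refine mul_le_mul_of_nonneg_left (sum_le_sum fun v _ => ?_) (sq_nonneg _)
        exact mul_le_mul_of_nonneg_left (h4 v) (hL0 v)
    _ = 2 * (C * (2 ^ (d - 1) * B)) ^ 2 * L ^ 2 := by
        rw [← sum_mul, ← hL]
        ring

open Classical in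
/-- the probability that the pair at the present position is incomplete -/
private noncomputable def pinc (a : Fin 2 → Tor d n) (s r : ℕ) (j : Fin 2) : ℝ :=
  EP r fun η x => if Inc (lrec a η (x - a j) s) then (1 : ℝ) else 0

open Classical in
private noncomputable def term (a : Fin 2 → Tor d n) (g : Tor d n → ℝ) (s r r' : ℕ)
    (j j' : Fin 2) (θ : ℕ → Tor d n) (b : Tor d n) : ℝ :=
  (if Inc (lrec a θ (θ r - a j) s) then (1 : ℝ) else 0) *
    (g (b - θ r + a j) * g (b - θ r' + a j'))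

private theorem EP_term (a : Fin 2 → Tor d n) (g : Tor d n → ℝ) {s r r' t : ℕ} (hsr : s ≤ r)
    (hrr : r ≤ r') (hrt : r' ≤ t) (j j' : Fin 2) :
    EP t (fun η b => term a g s r r' j j' (Function.update η t b) b) =
      pinc a s r j * yy a g (r' - r) (t - r') j j' := by
  classical
  obtain ⟨k', rfl⟩ := Nat.exists_eq_add_of_le hrt
  rw [EP_mid r' k' (term a g s r r' j j') (by
    intro θ θ' b h
    unfold term
    rw [h r hrr, h r' le_rfl, lrec_congr a (θ' r - a j) s fun q hq => h q (by omega)])]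
  obtain ⟨k, rfl⟩ := Nat.exists_eq_add_of_le hrr
  set Φ : Tor d n → ℝ := fun u => ∑ v, hk d n k' v * (g (u + v + a j) * g (v + a j')) with hΦ
  have h1 : ∀ (η : ℕ → Tor d n) (x : Tor d n),
      ∑ b, hk d n k' (b - x) * term a g s r (r + k) j j' (Function.update η (r + k) x) b =
      (fun (θ : ℕ → Tor d n) (x : Tor d n) =>
        (if Inc (lrec a θ (θ r - a j) s) then (1 : ℝ) else 0) * Φ (x - θ r))
        (Function.update η (r + k) x) x := by
    intro η x
    set θ := Function.update η (r + k) x with hθ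
    have hx : θ (r + k) = x := by rw [hθ, Function.update_self]
    show _ = (if Inc (lrec a θ (θ r - a j) s) then (1 : ℝ) else 0) * Φ (x - θ r)
    rw [hΦ]
    simp only
    rw [mul_sum]
    refine Fintype.sum_equiv (Equiv.subRight x) _ _ fun b => ?_
    unfold term
    rw [hx]
    simp only [Equiv.subRight_apply]
    rw [show x - θ r + (b - x) + a j = b - θ r + a j by abel]
    ring
  simp only [h1]
  rw [EP_mid r k (fun (θ : ℕ → Tor d n) (x : Tor d n) =>
        (if Inc (lrec a θ (θ r - a j) s) then (1 : ℝ) else 0) * Φ (x - θ r)) (by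
    intro θ θ' b h
    rw [h r le_rfl, lrec_congr a (θ' r - a j) s fun q hq => h q (by omega)])]
  have h2 : ∀ (η : ℕ → Tor d n) (x : Tor d n),
      ∑ b, hk d n k (b - x) * ((fun (θ : ℕ → Tor d n) (x : Tor d n) =>
        (if Inc (lrec a θ (θ r - a j) s) then (1 : ℝ) else 0) * Φ (x - θ r))
          (Function.update η r x) b) =
      yy a g k k' j j' • (if Inc (lrec a η (x - a j) s) then (1 : ℝ) else 0) := by
    intro η x
    simp only [Function.update_self]
    rw [lrec_congr a (η := Function.update η r x) (η' := η) (x - a j) s fun q hq =>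
      Function.update_of_ne (by omega) _ _]
    unfold yy
    rw [smul_eq_mul, sum_mul]
    refine Fintype.sum_equiv (Equiv.subRight x) _ _ fun b => ?_
    simp only [Equiv.subRight_apply, hΦ]
    ring
  simp only [h2]
  rw [EP_smul]
  unfold pinc
  rw [smul_eq_mul, mul_comm]
  congr 1
  rw [show r + k - r = k by omega, show r + k + k' - (r + k) = k' by omega]

end

private theorem pinc_le (hd : 3 ≤ d) (C κ : ℝ) : ∃ C' : ℝ, 1 ≤ C' ∧ ∀ (n : ℕ) [NeZero n],
    HKB d n C κ → ∀ (a : Fin 2 → Tor d n) (s r t : ℕ) (j : Fin 2), s ≤ r → t ≤ s + n ^ 2 →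
      pinc a s r j ≤ C' * Real.exp (-κ * t / NN d n) := by
  classical
  have hd1 : 1 ≤ d := by omega
  obtain ⟨C₁, hC₁, hinc⟩ := ER_inc hd C κ
  refine ⟨max 1 (C * C₁) * Real.exp 2, one_le_mul_of_one_le_of_one_le (le_max_left _ _)
    (Real.one_le_exp (by norm_num)), ?_⟩
  intro n _ hb a s r t j hsr hts
  have hN := NN_pos (d := d) (n := n)
  have hκ := hb.hκ
  have hκ1 := hb.hκ1
  have hC0 : 0 ≤ C := by linarith [hb.hC]
  have hn2 : (n : ℝ) ^ 2 ≤ NN d n := sq_le_NN (by omega)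
  have hq : (n : ℝ) ^ 2 / NN d n ≤ 1 := (div_le_one hN).mpr hn2
  have hq0 : 0 ≤ (n : ℝ) ^ 2 / NN d n := by positivity
  have hκq : κ * ((n : ℝ) ^ 2 / NN d n) ≤ 1 := by
    calc κ * ((n : ℝ) ^ 2 / NN d n) ≤ 1 * 1 := mul_le_mul hκ1 hq hq0 zero_le_one
      _ = 1 := one_mul 1
  unfold pinc
  by_cases hs : n ^ 2 ≤ s
  · obtain ⟨s', rfl⟩ := Nat.exists_eq_add_of_le' hs
    have h1 : (EP r fun η x => if Inc (lrec a η (x - a j) (s' + n ^ 2)) then (1 : ℝ) else 0) ≤
        EP r fun η x => if Inc (lrec a η (x - a j) s') then (1 : ℝ) else 0 := by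
      refine EP_mono _ _ _ fun η x => ?_
      by_cases hI : Inc (lrec a η (x - a j) (s' + n ^ 2))
      · rw [if_pos hI]
        have hI' : Inc (lrec a η (x - a j) s') := by
          obtain ⟨i, hi⟩ := hI
          refine ⟨i, ?_⟩
          change frec η (x - a j + a i) s' = none
          change frec η (x - a j + a i) (s' + n ^ 2) = none at hi
          rw [frec_eq_none] at hi ⊢
          exact fun q hq => hi q (by omega)
        rw [if_pos hI']
      · rw [if_neg hI]
        split_ifs <;> norm_num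
    refine h1.trans ?_
    have h2 := EP_dens hd hb (s := s') (t := r) (by omega)
      (fun η x => if Inc (lrec a η (x - a j) s') then (1 : ℝ) else 0) (by
        intro η η' b h
        simp only
        rw [lrec_congr a (b - a j) s' h]) (fun η b => by
        split_ifs <;> norm_num)
    refine h2.trans ?_
    have h3 : (ER s' fun η : ℕ → Tor d n =>
        ∑ b : Tor d n, if Inc (lrec a η (b - a j) s') then (1 : ℝ) else 0) ≤
        NN d n * (C₁ * Real.exp (-κ * s' / NN d n)) := by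
      unfold ER
      rw [EP_sum]
      refine (sum_le_sum fun b _ => hinc n hb a (b - a j) s').trans ?_
      rw [sum_const, nsmul_eq_mul, card_univ, card_tor]
    refine (mul_le_mul_of_nonneg_left h3 (by positivity)).trans ?_
    have h4 : Real.exp (-κ * s' / NN d n) ≤ Real.exp 2 * Real.exp (-κ * t / NN d n) := by
      rw [← Real.exp_add, Real.exp_le_exp]
      have h5 : (t : ℝ) ≤ s' + n ^ 2 + n ^ 2 := by exact_mod_cast hts
      have h6 : κ * (t / NN d n) ≤ κ * (s' / NN d n) + 2 * (κ * ((n : ℝ) ^ 2 / NN d n)) := by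
        have h7 : (t : ℝ) / NN d n ≤ (s' + n ^ 2 + n ^ 2) / NN d n :=
          div_le_div_of_nonneg_right h5 hN.le
        have h8 := mul_le_mul_of_nonneg_left h7 hκ.le
        refine h8.trans (le_of_eq ?_)
        ring
      have e1 : -κ * (s' : ℝ) / NN d n = -(κ * (s' / NN d n)) := by ring
      have e2 : -κ * (t : ℝ) / NN d n = -(κ * (t / NN d n)) := by ring
      rw [e1, e2]
      linarith
    calc C / NN d n * (NN d n * (C₁ * Real.exp (-κ * s' / NN d n)))
        = C * C₁ * Real.exp (-κ * s' / NN d n) := by field_simp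
      _ ≤ max 1 (C * C₁) * (Real.exp 2 * Real.exp (-κ * t / NN d n)) :=
          mul_le_mul (le_max_right _ _) h4 (Real.exp_pos _).le
            (le_trans zero_le_one (le_max_left _ _))
      _ = _ := by ring
  · push Not at hs
    have h1 : (EP r fun η x => if Inc (lrec a η (x - a j) s) then (1 : ℝ) else 0) ≤ 1 := by
      have h2 := EP_mono r (fun η x => if Inc (lrec a η (x - a j) s) then (1 : ℝ) else 0)
        (fun _ _ => 1) (fun η x => by split_ifs <;> norm_num)
      rwa [EP_const hd1] at h2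
    refine h1.trans ?_
    have h3 : (1 : ℝ) ≤ Real.exp 2 * Real.exp (-κ * t / NN d n) := by
      rw [← Real.exp_add]
      refine Real.one_le_exp ?_
      have h4 : (t : ℝ) ≤ n ^ 2 + n ^ 2 := by
        have : t ≤ n ^ 2 + n ^ 2 := by omega
        exact_mod_cast this
      have h5 : (t : ℝ) / NN d n ≤ (n ^ 2 + n ^ 2) / NN d n := div_le_div_of_nonneg_right h4 hN.le
      have h6 := mul_le_mul_of_nonneg_left h5 hκ.le
      have e2 : -κ * (t : ℝ) / NN d n = -(κ * (t / NN d n)) := by ring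
      have e3 : κ * (((n : ℝ) ^ 2 + n ^ 2) / NN d n) = 2 * (κ * ((n : ℝ) ^ 2 / NN d n)) := by ring
      rw [e2]
      rw [e3] at h6
      linarith
    calc (1 : ℝ) ≤ Real.exp 2 * Real.exp (-κ * t / NN d n) := h3
      _ ≤ max 1 (C * C₁) * (Real.exp 2 * Real.exp (-κ * t / NN d n)) :=
          le_mul_of_one_le_left (by positivity) (le_max_left _ _)
      _ = _ := by ring

theorem recent_sq (hd : 3 ≤ d) (C κ : ℝ) : ∃ C' : ℝ, 1 ≤ C' ∧ ∀ (n : ℕ) [NeZero n],
    HKB d n C κ → ∀ (a : Fin 2 → Tor d n) (g : Tor d n → ℝ) (B : ℝ), (∀ j, nrm (a j) ≤ 1) →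
      (∀ z, 0 ≤ g z ∧ g z ≤ B / rho z ^ (d - 1)) → ∀ s t : ℕ, s ≤ t → t ≤ s + n ^ 2 →
      EP t (fun η b => recent a g s t η b ^ 2) ≤
        C' * B ^ 2 * S4 d n * Real.exp (-κ * t / NN d n) := by
  classical
  obtain ⟨C₁, hC₁, hp⟩ := pinc_le hd C κ
  obtain ⟨C₂, hC₂, hL⟩ := L_sq hd
  refine ⟨max 1 (2 * C₁ * (4 * (2 * (C * 2 ^ (d - 1)) ^ 2 * C₂))), le_max_left _ _, ?_⟩
  intro n _ hb a g B ha hg s t hst hts
  have hg0 : ∀ z, 0 ≤ g z := fun z => (hg z).1
  set e : ℝ := Real.exp (-κ * t / NN d n) with he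
  have he0 : 0 < e := Real.exp_pos _
  have hterm0 : ∀ r r' j j' (θ : ℕ → Tor d n) b, 0 ≤ term a g s r r' j j' θ b := by
    intro r r' j j' θ b
    unfold term
    refine mul_nonneg ?_ (mul_nonneg (hg0 _) (hg0 _))
    split_ifs <;> norm_num
  -- pointwise bound of the square
  have hpt : ∀ (η : ℕ → Tor d n) (b : Tor d n), recent a g s t η b ^ 2 ≤
      (2 : ℝ) • ∑ r' ∈ Icc s t, ∑ r ∈ Icc s r', ∑ j, ∑ j',
        term a g s r r' j j' (Function.update η t b) b := by
    intro η b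
    set θ := Function.update η t b with hθ
    have hlr : ∀ x, lrec a η x s = lrec a θ x s := fun x =>
      lrec_congr a x s fun q hq => by rw [hθ, Function.update_of_ne (by omega)]
    unfold recent
    rw [← hθ, smul_eq_mul]
    refine (sq_sum_le _ s t hst).trans ?_
    refine mul_le_mul_of_nonneg_left ?_ (by norm_num)
    refine sum_le_sum fun r' _ => sum_le_sum fun r _ => ?_
    rw [sum_mul_sum]
    refine sum_le_sum fun j _ => sum_le_sum fun j' _ => ?_
    unfold term
    rw [hlr, hlr]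
    have h1 : (if Inc (lrec a θ (θ r' - a j') s) then (1 : ℝ) else 0) ≤ 1 := by
      split_ifs <;> norm_num
    have h2 : 0 ≤ (if Inc (lrec a θ (θ r - a j) s) then (1 : ℝ) else 0) := by
      split_ifs <;> norm_num
    have h3 := hg0 (b - θ r + a j)
    have h4 := hg0 (b - θ r' + a j')
    calc (if Inc (lrec a θ (θ r - a j) s) then (1 : ℝ) else 0) * g (b - θ r + a j) *
          ((if Inc (lrec a θ (θ r' - a j') s) then (1 : ℝ) else 0) * g (b - θ r' + a j'))
        = (if Inc (lrec a θ (θ r' - a j') s) then (1 : ℝ) else 0) *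
          ((if Inc (lrec a θ (θ r - a j) s) then (1 : ℝ) else 0) *
            (g (b - θ r + a j) * g (b - θ r' + a j'))) := by ring
      _ ≤ 1 * ((if Inc (lrec a θ (θ r - a j) s) then (1 : ℝ) else 0) *
            (g (b - θ r + a j) * g (b - θ r' + a j'))) :=
          mul_le_mul_of_nonneg_right h1 (mul_nonneg h2 (mul_nonneg h3 h4))
      _ = _ := one_mul _
  refine (EP_mono _ _ _ hpt).trans ?_
  rw [EP_smul, smul_eq_mul, EP_sum]
  have hyy0 : ∀ k k' j j', 0 ≤ yy a g k k' j j' := fun k k' j j' =>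
    sum_nonneg fun u _ => mul_nonneg (hk_nonneg _ _)
      (sum_nonneg fun v _ => mul_nonneg (hk_nonneg _ _) (mul_nonneg (hg0 _) (hg0 _)))
  have h5 : ∀ r' ∈ Icc s t, (EP t fun (η : ℕ → Tor d n) (b : Tor d n) =>
      ∑ r ∈ Icc s r', ∑ j, ∑ j', term a g s r r' j j' (Function.update η t b) b) ≤
      ∑ r ∈ Icc s r', ∑ j, ∑ j', C₁ * e * yy a g (r' - r) (t - r') j j' := by
    intro r' hr'
    rw [mem_Icc] at hr'
    rw [EP_sum]
    refine sum_le_sum fun r hr => ?_
    rw [mem_Icc] at hr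
    rw [EP_sum]
    refine sum_le_sum fun j _ => ?_
    rw [EP_sum]
    refine sum_le_sum fun j' _ => ?_
    rw [EP_term a g hr.1 hr.2 hr'.2 j j']
    exact mul_le_mul_of_nonneg_right (hp n hb a s r t j hr.1 hts) (hyy0 _ _ _ _)
  refine (mul_le_mul_of_nonneg_left (sum_le_sum h5) (by norm_num)).trans ?_
  have h6 : ∑ r' ∈ Icc s t, ∑ r ∈ Icc s r', ∑ j, ∑ j', C₁ * e * yy a g (r' - r) (t - r') j j' =
      C₁ * e * ∑ j, ∑ j', ∑ r' ∈ Icc s t, ∑ r ∈ Icc s r', yy a g (r' - r) (t - r') j j' := by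
    simp only [← mul_sum]
    congr 1
    have h7 : ∀ r', ∑ r ∈ Icc s r', ∑ j, ∑ j', yy a g (r' - r) (t - r') j j' =
        ∑ j, ∑ j', ∑ r ∈ Icc s r', yy a g (r' - r) (t - r') j j' := by
      intro r'
      rw [sum_comm]
      refine sum_congr rfl fun j _ => ?_
      rw [sum_comm]
    simp only [h7]
    rw [sum_comm]
    refine sum_congr rfl fun j _ => ?_
    rw [sum_comm]
  rw [h6]
  set K : ℝ := 2 * (C * (2 ^ (d - 1) * B)) ^ 2 *
    (∑ z : Tor d n, 1 / rho z ^ (2 * d - 3)) ^ 2 with hK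
  have h8 : ∑ j, ∑ j', ∑ r' ∈ Icc s t, ∑ r ∈ Icc s r', yy a g (r' - r) (t - r') j j' ≤
      4 * K := by
    refine (sum_le_sum fun j _ => sum_le_sum fun j' _ =>
      yy_sum hb hd a g B ha hg s t hts j j').trans (le_of_eq ?_)
    rw [← hK]
    simp only [sum_const, card_univ, Fintype.card_fin, nsmul_eq_mul]
    norm_num
    ring
  have h9 : K ≤ 2 * (C * 2 ^ (d - 1)) ^ 2 * C₂ * (B ^ 2 * S4 d n) := by
    rw [hK]
    calc 2 * (C * (2 ^ (d - 1) * B)) ^ 2 * (∑ z : Tor d n, 1 / rho z ^ (2 * d - 3)) ^ 2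
        ≤ 2 * (C * (2 ^ (d - 1) * B)) ^ 2 * (C₂ * S4 d n) :=
          mul_le_mul_of_nonneg_left (hL n) (by positivity)
      _ = _ := by ring
  have hS : 0 ≤ S4 d n := le_trans zero_le_one (one_le_S4 n)
  have hC₁e : 0 ≤ C₁ * e := mul_nonneg (by linarith) he0.le
  calc 2 * (C₁ * e * ∑ j, ∑ j', ∑ r' ∈ Icc s t, ∑ r ∈ Icc s r',
        yy a g (r' - r) (t - r') j j')
      ≤ 2 * (C₁ * e * (4 * (2 * (C * 2 ^ (d - 1)) ^ 2 * C₂ * (B ^ 2 * S4 d n)))) := by
        refine mul_le_mul_of_nonneg_left (mul_le_mul_of_nonneg_left (h8.trans ?_) hC₁e)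
          (by norm_num)
        exact mul_le_mul_of_nonneg_left h9 (by norm_num)
    _ = 2 * C₁ * (4 * (2 * (C * 2 ^ (d - 1)) ^ 2 * C₂)) * (B ^ 2 * S4 d n * e) := by ring
    _ ≤ max 1 (2 * C₁ * (4 * (2 * (C * 2 ^ (d - 1)) ^ 2 * C₂))) * (B ^ 2 * S4 d n * e) := by
        refine mul_le_mul_of_nonneg_right (le_max_right _ _) ?_
        positivity
    _ = _ := by ring

end CRW
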