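import Pool.Agent.Lib.CRW.U3
import Pool.Agent.Lib.CRW.U4

/-!
# Module U5: the part with the recent visits

PROOF.  `H'' = ∑ x, (val a (φ (w x)) k (t+1) r_x (· - x) - val a (φ (w x)) k (t+1) r_x' (· - x))`, `r_x = lrec a (update η t b) x (t+1)`,
`r_x' = lrec a η x s`.  For a step `v`: `|H'' (b + v) - H'' b| ≤ ∑ x, 1{r_x ≠ r_x'} 1{Inc r_x'} 2 C' / rho (b - x)^(d-1)` (`val_grad` with
`κ' = 0`, `B = 1`, for both functions at `b - x`; if `r_x' = r_x` the term is `0`; if `r_x'` is complete then `r_x = r_x'`; and
`Inc r_x` is not needed).  If `r_x ≠ r_x'` then the walk visits `x + a j` for some `j` at some time `r ∈ [s, t]`, i.e. `x = X_r - a j`.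
So `|H'' (b+v) - H'' b| ≤ recent a g s t η b` with `g z = 2 C'/rho z^(d-1)` (`b - x = b - X_r + a j`).
`Gam_le`, `EP_mono`, `recent_sq`.
-/

open Finset

namespace CRW

variable {d : ℕ}

private theorem frec_stable {n : ℕ} (η : ℕ → Tor d n) (x : Tor d n) {s t : ℕ} (h : s ≤ t)
    (hs : ∀ r, s ≤ r → r < t → η r ≠ x) : frec η x t = frec η x s := by
  induction t, h using Nat.le_induction with
  | base => rfl
  | succ t hst ih =>
    have h1 := ih fun r h1 h2 => hs r h1 (by omega)
    have h2 : η t ≠ x := hs t hst (by omega)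
    show (frec η x t).orElse (fun _ => if η t = x then some t else none) = _
    rw [h1, if_neg h2]
    cases frec η x s <;> rfl

private theorem frec_some_stable {n : ℕ} (η : ℕ → Tor d n) (x : Tor d n) {s t r : ℕ} (h : s ≤ t)
    (hs : frec η x s = some r) : frec η x t = some r := by
  induction t, h using Nat.le_induction with
  | base => exact hs
  | succ t hst ih =>
    show (frec η x t).orElse (fun _ => if η t = x then some t else none) = _
    rw [ih]
    rfl

/-- the record changes only if some site of the pair is visited in between, and it was incomplete -/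
private theorem lrec_change {n : ℕ} [NeZero n] (a : Fin 2 → Tor d n) (η : ℕ → Tor d n)
    (b x : Tor d n) {s t : ℕ} (hst : s ≤ t)
    (h : lrec a (Function.update η t b) x (t + 1) ≠ lrec a η x s) :
    Inc (lrec a η x s) ∧ ∃ r ∈ Icc s t, ∃ j, x = (Function.update η t b) r - a j := by
  have e0 : ∀ j, frec η (x + a j) s = frec (Function.update η t b) (x + a j) s := by
    intro j
    refine frec_congr _ _ fun r hr => ?_
    rw [Function.update_of_ne (by omega)]
  constructor
  · by_contra hI
    apply h
    funext j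
    have h1 : lrec a η x s j ≠ none := fun h2 => hI ⟨j, h2⟩
    obtain ⟨r, hr⟩ := Option.ne_none_iff_exists'.1 h1
    have hr' : frec η (x + a j) s = some r := hr
    rw [hr]
    rw [e0] at hr'
    exact frec_some_stable _ _ (by omega) hr'
  · by_contra hcon
    apply h
    funext j
    show frec (Function.update η t b) (x + a j) (t + 1) = frec η (x + a j) s
    rw [e0]
    refine frec_stable _ _ (by omega) fun r h1 h2 h3 => hcon ⟨r, mem_Icc.2 ⟨h1, by omega⟩, j, ?_⟩
    rw [h3]
    abel

theorem recent_term (hd : 3 ≤ d) (C κ : ℝ) : ∃ C' : ℝ, 1 ≤ C' ∧ ∀ (n : ℕ) [NeZero n],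
    HKB d n C κ → ∀ (a : Fin 2 → Tor d n), (∀ j, nrm (a j) ≤ 1) → a 0 ≠ a 1 →
      ∀ (Dat : Type) (φ : Dat → Rec → ℝ) (w : Tor d n → Dat), (∀ u r, |φ u r| ≤ 1) →
      ∀ k s t : ℕ, s ≤ t → t ≤ s + n ^ 2 →
      EP t (fun η b => Gam (fun b' =>
        HH a φ w k (t + 1) (t + 1) (Function.update η t b) b' - HH a φ w k (t + 1) s η b') b) ≤
        C' * S4 d n * Real.exp (-κ * t / NN d n) := by
  obtain ⟨C1, hC1, H1⟩ := val_grad hd C κ
  obtain ⟨C2, hC2, H2⟩ := recent_sq hd C κ
  refine ⟨2 * C2 * (2 * C1) ^ 2, ?_, ?_⟩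
  · have h1 : 1 ≤ C1 ^ 2 := one_le_pow₀ hC1
    have h2 : 1 ≤ C2 * C1 ^ 2 := one_le_mul_of_one_le_of_one_le hC2 h1
    nlinarith
  intro n _ hb a ha ha01 Dat φ w hφ k s t hst htn
  obtain ⟨g, hg⟩ : ∃ g : Tor d n → ℝ, g = fun z => 2 * C1 / rho z ^ (d - 1) := ⟨_, rfl⟩
  have hg0 : ∀ z, 0 ≤ g z := by
    intro z; rw [hg]
    exact div_nonneg (by linarith) (pow_nonneg (rho_pos z).le _)
  have hgB : ∀ z, 0 ≤ g z ∧ g z ≤ 2 * C1 / rho z ^ (d - 1) := fun z => ⟨hg0 z, by rw [hg]⟩
  have hrec := H2 n hb a g (2 * C1) ha hgB s t hst htn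
  -- gradient of one value function
  have hgrad : ∀ (x : Tor d n) (r : Rec) (b v : Tor d n), stp d n v ≠ 0 →
      |val a (φ (w x)) k (t + 1) r (b + v) - val a (φ (w x)) k (t + 1) r b| ≤
        C1 / rho b ^ (d - 1) := by
    intro x r b v hv
    have h1 := H1 n hb ℝ a (φ (w x)) 1 0 ha ha01 le_rfl hb.hκ.le
      (Dec_of_le (by omega) a fun r => by rw [Real.norm_eq_abs]; exact hφ _ r) k (t + 1) r b v hv
    rw [Real.norm_eq_abs] at h1
    refine h1.trans ?_
    have h2 : 0 ≤ C1 / rho b ^ (d - 1) := div_nonneg (by linarith) (pow_nonneg (rho_pos b).le _)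
    split_ifs
    · simp
    · exact h2
  have key : ∀ (η : ℕ → Tor d n) (b : Tor d n), Gam (fun b' =>
      HH a φ w k (t + 1) (t + 1) (Function.update η t b) b' - HH a φ w k (t + 1) s η b') b ≤
      2 * recent a g s t η b ^ 2 := by
    intro η b
    have hrn : 0 ≤ recent a g s t η b := by
      unfold recent
      refine sum_nonneg fun r _ => sum_nonneg fun j _ => mul_nonneg ?_ (hg0 _)
      split_ifs <;> norm_num
    refine Gam_le (by omega) _ b hrn fun v hv => ?_
    -- the difference as a sum over the sites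
    have e1 : (HH a φ w k (t + 1) (t + 1) (Function.update η t b) (b + v) -
        HH a φ w k (t + 1) s η (b + v)) -
        (HH a φ w k (t + 1) (t + 1) (Function.update η t b) b - HH a φ w k (t + 1) s η b) =
        ∑ x, ((val a (φ (w x)) k (t + 1) (lrec a (Function.update η t b) x (t + 1)) (b - x + v) -
            val a (φ (w x)) k (t + 1) (lrec a (Function.update η t b) x (t + 1)) (b - x)) -
          (val a (φ (w x)) k (t + 1) (lrec a η x s) (b - x + v) -
            val a (φ (w x)) k (t + 1) (lrec a η x s) (b - x))) := by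
      unfold HH
      rw [← sum_sub_distrib, ← sum_sub_distrib, ← sum_sub_distrib]
      refine sum_congr rfl fun x _ => ?_
      have : b + v - x = b - x + v := by abel
      rw [this]
      ring
    rw [e1]
    refine (abs_sum_le_sum_abs _ _).trans ?_
    classical
    have e2 : ∀ x, |(val a (φ (w x)) k (t + 1) (lrec a (Function.update η t b) x (t + 1))
          (b - x + v) -
            val a (φ (w x)) k (t + 1) (lrec a (Function.update η t b) x (t + 1)) (b - x)) -
          (val a (φ (w x)) k (t + 1) (lrec a η x s) (b - x + v) -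
            val a (φ (w x)) k (t + 1) (lrec a η x s) (b - x))| ≤
        ∑ r ∈ Icc s t, ∑ j, (if x = (Function.update η t b) r - a j then
          (if Inc (lrec a η x s) then (1 : ℝ) else 0) * g (b - x) else 0) := by
      intro x
      have hnn : ∀ (r : ℕ) (j : Fin 2), 0 ≤ (if x = (Function.update η t b) r - a j then
          (if Inc (lrec a η x s) then (1 : ℝ) else 0) * g (b - x) else 0) := by
        intro r j
        split_ifs
        · rw [one_mul]; exact hg0 _
        · rw [zero_mul]
        · exact le_rfl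
      by_cases hx : lrec a (Function.update η t b) x (t + 1) = lrec a η x s
      · rw [hx, sub_self, abs_zero]
        exact sum_nonneg fun r _ => sum_nonneg fun j _ => hnn r j
      · obtain ⟨hI, r, hr, j, hj⟩ := lrec_change a η b x hst hx
        have h3 := hgrad x (lrec a (Function.update η t b) x (t + 1)) (b - x) v hv
        have h4 := hgrad x (lrec a η x s) (b - x) v hv
        have h5 : g (b - x) = C1 / rho (b - x) ^ (d - 1) + C1 / rho (b - x) ^ (d - 1) := by
          rw [hg]; ring
        refine (abs_sub _ _).trans ((add_le_add h3 h4).trans ?_)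
        rw [← h5]
        have h6 : g (b - x) = (if x = (Function.update η t b) r - a j then
          (if Inc (lrec a η x s) then (1 : ℝ) else 0) * g (b - x) else 0) := by
          rw [if_pos hj, if_pos hI, one_mul]
        refine (le_of_eq h6).trans ?_
        refine (single_le_sum (f := fun j => (if x = (Function.update η t b) r - a j then
          (if Inc (lrec a η x s) then (1 : ℝ) else 0) * g (b - x) else 0))
          (fun j _ => hnn r j) (mem_univ j)).trans ?_
        exact single_le_sum (f := fun r => ∑ j, (if x = (Function.update η t b) r - a j then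
          (if Inc (lrec a η x s) then (1 : ℝ) else 0) * g (b - x) else 0))
          (fun r _ => sum_nonneg fun j _ => hnn r j) hr
    refine (sum_le_sum fun x _ => e2 x).trans (le_of_eq ?_)
    rw [sum_comm]
    unfold recent
    refine sum_congr rfl fun r _ => ?_
    rw [sum_comm]
    refine sum_congr rfl fun j _ => ?_
    rw [sum_ite_eq' univ ((Function.update η t b) r - a j), if_pos (mem_univ _)]
    have : b - ((Function.update η t b) r - a j) = b - (Function.update η t b) r + a j := by abel
    rw [this]
  calc EP t (fun η b => Gam (fun b' =>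
        HH a φ w k (t + 1) (t + 1) (Function.update η t b) b' - HH a φ w k (t + 1) s η b') b)
      ≤ EP t (fun η b => (2 : ℝ) • recent a g s t η b ^ 2) :=
        EP_mono t _ _ fun η b => by rw [smul_eq_mul]; exact key η b
    _ = (2 : ℝ) • EP t (fun η b => recent a g s t η b ^ 2) := EP_smul t 2 _
    _ ≤ 2 * (C2 * (2 * C1) ^ 2 * S4 d n * Real.exp (-κ * t / NN d n)) := by
        rw [smul_eq_mul]
        exact mul_le_mul_of_nonneg_left hrec (by norm_num)
    _ = 2 * C2 * (2 * C1) ^ 2 * S4 d n * Real.exp (-κ * t / NN d n) := by ring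

end CRW
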