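import Pool.Agent.Lib.CRW.U5

/-!
# Module U6: THEOREM U1, the variance for one walk in an environment

PROOF.  `H = 0`: `VR 0 F = 0` (`EP_const`).  `H = M + 1`: `VR_formula` with `F η = ∑ x, φ (w x) (lrec a η x (M+1))`;
`cnd (M-1-t) (t+1) F (update η t b) b' = HH a φ w (M-1-t) (t+1) (t+1) (update η t b) b'` (`cnd_sum`, `cnd_lrec`) and
`cnd M 0 F η b = HH a φ w M 0 0 η b`.
First bracket: `init_term`.  For `t < M` let `s = t - n^2` (natural subtraction); `Gam V ≤ 2 Gam V' + 2 Gam (V - V')` (`Gam_add_le`) with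
`V' = HH a φ w (M-1-t) (t+1) s η`.  `recent_term` for `V - V'`.  For `V'`: if `n^2 ≤ t`: `EP_dens` (`Gam_nonneg`; `V'` is local for `s`) and
`main_term`: `≤ (C/N) C' N S4 e^(-κ s/N) ≤ 3 C C' S4 e^(-κ t/N)`.  If `t < n^2` then `s = 0`, `V'` does not depend on `η`, `EP_unif` (through
`EP_congr`: `lrec .. 0 = rec0`) and `main_term` with `s = 0`.
Sum over `t`: `∑_t e^(-κ t/N) ≤ 1 + N/κ` and `n^2 ≤ N` terms with `t < n^2`.  Everything is `≤ C' N S4`.
(`env.E` of the sum: `Env.sum`, `add`.)
-/

open Finset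

namespace CRW

variable {d : ℕ}

private theorem u6_HH_congr {n : ℕ} [NeZero n] (a : Fin 2 → Tor d n) {Dat : Type}
    (φ : Dat → Rec → ℝ) (w : Tor d n → Dat) (k t s : ℕ) {η η' : ℕ → Tor d n}
    (h : ∀ r < s, η r = η' r) : HH a φ w k t s η = HH a φ w k t s η' := by
  funext b
  unfold HH
  refine Finset.sum_congr rfl fun x _ => ?_
  rw [lrec_congr a x s h]

private theorem u6_VR {n : ℕ} [NeZero n] (hd : 1 ≤ d) (a : Fin 2 → Tor d n) {Dat : Type}
    (φ : Dat → Rec → ℝ) (w : Tor d n → Dat) (M : ℕ) :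
    VR (M + 1) (fun η => ∑ x, φ (w x) (lrec a η x (M + 1))) =
      (EP 0 (fun η b => HH a φ w M 0 0 η b ^ 2) - EP 0 (HH a φ w M 0 0) ^ 2) +
        ∑ t ∈ range M, EP t fun η b =>
          Gam (fun b' => HH a φ w (M - 1 - t) (t + 1) (t + 1) (Function.update η t b) b') b := by
  rw [VR_formula hd]
  have h0 : cnd M 0 (fun η => ∑ x, φ (w x) (lrec a η x (M + 1))) = HH a φ w M 0 0 := by
    funext η b
    rw [cnd_sum]
    unfold HH
    refine Finset.sum_congr rfl fun x _ => ?_
    have := cnd_lrec a (φ (w x)) M 0 x η b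
    rwa [Nat.zero_add] at this
  congr 1
  · rw [h0]
  · refine Finset.sum_congr rfl fun t ht => ?_
    have htM : t < M := Finset.mem_range.1 ht
    congr 1
    funext η b
    congr 1
    funext b'
    rw [cnd_sum]
    unfold HH
    refine Finset.sum_congr rfl fun x _ => ?_
    have h1 := cnd_lrec a (φ (w x)) (M - 1 - t) (t + 1) x (Function.update η t b) b'
    have h2 : t + 1 + (M - 1 - t) + 1 = M + 1 := by omega
    rw [h2] at h1
    exact h1

private theorem u6_geom {x : ℝ} (hx : 0 < x) (M : ℕ) :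
    ∑ t ∈ range M, Real.exp (-x * t) ≤ 1 + 1 / x := by
  have h1 : ∀ t : ℕ, Real.exp (-x * t) = Real.exp (-x) ^ t := by
    intro t
    rw [← Real.exp_nat_mul]
    congr 1
    ring
  simp_rw [h1]
  have h2 : Real.exp (-x) < 1 := by
    rw [Real.exp_lt_one_iff]
    linarith
  have h3 : 0 < Real.exp (-x) := Real.exp_pos _
  have h4 : ∑ t ∈ range M, Real.exp (-x) ^ t ≤ (1 - Real.exp (-x))⁻¹ := by
    rw [geom_sum_eq h2.ne]
    have h5 : 0 < 1 - Real.exp (-x) := by linarith
    rw [← neg_div_neg_eq, neg_sub, neg_sub, div_eq_mul_inv]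
    have h6 : 0 < (1 - Real.exp (-x))⁻¹ := inv_pos.2 h5
    have h7 : 0 ≤ Real.exp (-x) ^ M := by positivity
    nlinarith
  refine h4.trans ?_
  have h5 : Real.exp (-x) ≤ (1 + x)⁻¹ := by
    rw [Real.exp_neg]
    exact inv_anti₀ (by linarith) (by linarith [Real.add_one_le_exp x])
  have h6 : x / (1 + x) ≤ 1 - Real.exp (-x) := by
    have : x / (1 + x) = 1 - (1 + x)⁻¹ := by field_simp; ring
    rw [this]
    linarith
  have h7 : 0 < x / (1 + x) := by positivity
  refine (inv_anti₀ h7 h6).trans (le_of_eq ?_)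
  field_simp
  ring

private theorem u6_E_const {n : ℕ} [NeZero n] {Dat : Type} {C2 : ℝ} (env : Env d n Dat C2)
    (c : ℝ) : env.E (fun _ => c) = c := by
  have := env.smul c (fun _ => 1)
  simpa [env.one] using this

theorem one_walk_variance (hd : 3 ≤ d) (C κ C2 : ℝ) : ∃ C' : ℝ, 1 ≤ C' ∧ ∀ (n : ℕ) [NeZero n],
    HKB d n C κ → ∀ (a : Fin 2 → Tor d n), (∀ j, nrm (a j) ≤ 1) → a 0 ≠ a 1 →
      ∀ (Dat : Type) (env : Env d n Dat C2) (φ : Dat → Rec → ℝ), (∀ u r, |φ u r| ≤ 1) →
      ∀ H : ℕ, env.E (fun w => VR H fun η => ∑ x, φ (w x) (lrec a η x H)) ≤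
        C' * NN d n * S4 d n := by
  obtain ⟨Cm, hCm, hmain⟩ := main_term hd C κ C2
  obtain ⟨Ci, hCi, hinit⟩ := init_term hd C κ C2
  obtain ⟨Cr, hCr, hrec⟩ := recent_term hd C κ
  refine ⟨max 1 (Ci + (6 * C * Cm + 2 * Cr) * (1 + 1 / κ)), le_max_left _ _, ?_⟩
  intro n _ hb a ha1 ha Dat env φ hφ H
  have hN : 0 < NN d n := NN_pos
  have hS : 1 ≤ S4 d n := one_le_S4 n
  have hC := hb.hC
  have hκ := hb.hκ
  have hκ1 := hb.hκ1
  have hd1 : 1 ≤ d := by omega
  have hnN : (n : ℝ) ^ 2 ≤ NN d n := sq_le_NN (by omega)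
  have hn1 : (1 : ℝ) ≤ (n : ℝ) ^ 2 := by
    have : (1 : ℝ) ≤ n := by exact_mod_cast (NeZero.pos n)
    nlinarith
  have hN1 : 1 ≤ NN d n := hn1.trans hnN
  rcases Nat.eq_zero_or_pos H with rfl | hH
  · have h0 : (fun w : Tor d n → Dat => VR 0 fun η => ∑ x, φ (w x) (lrec a η x 0)) =
        fun _ => 0 := by
      funext w
      show EP 0 (fun (_ : ℕ → Tor d n) _ => (∑ x, φ (w x) rec0) ^ 2) -
        EP 0 (fun (_ : ℕ → Tor d n) _ => ∑ x, φ (w x) rec0) ^ 2 = 0
      rw [EP_const hd1, EP_const hd1]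
      ring
    rw [h0, u6_E_const]
    positivity
  obtain ⟨M, rfl⟩ : ∃ M, H = M + 1 := ⟨H - 1, by omega⟩
  -- the bound for one time
  have key : ∀ t, ∀ k, env.E (fun w => EP t fun η b =>
      Gam (fun b' => HH a φ w k (t + 1) (t + 1) (Function.update η t b) b') b) ≤
      (6 * C * Cm + 2 * Cr) * S4 d n * Real.exp (-κ * t / NN d n) := by
    intro t k
    set s : ℕ := t - n ^ 2 with hs
    have hst : s ≤ t := Nat.sub_le _ _
    have hts : t ≤ s + n ^ 2 := by omega
    -- the part with the old records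
    have hold : env.E (fun w => EP t fun η b => Gam (HH a φ w k (t + 1) s η) b) ≤
        3 * C * Cm * S4 d n * Real.exp (-κ * t / NN d n) := by
      have hm := hmain n hb a ha1 ha Dat env φ hφ k (t + 1) s
      by_cases hnt : n ^ 2 ≤ t
      · have h1 : ∀ w : Tor d n → Dat, EP t (fun η b => Gam (HH a φ w k (t + 1) s η) b) ≤
            C / NN d n * ER s fun η => ∑ b, Gam (HH a φ w k (t + 1) s η) b := by
          intro w
          refine EP_dens hd hb (by omega) _ ?_ ?_
          · intro η η' b h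
            show Gam (HH a φ w k (t + 1) s η) b = Gam (HH a φ w k (t + 1) s η') b
            rw [u6_HH_congr a φ w k (t + 1) s h]
          · intro η b
            exact Gam_nonneg hd1 _ _
        have h2 := env.mono _ _ h1
        rw [env.smul] at h2
        have h3 : Real.exp (-κ * s / NN d n) ≤ 3 * Real.exp (-κ * t / NN d n) := by
          have h4 : -κ * (s : ℝ) / NN d n ≤ 1 + -κ * (t : ℝ) / NN d n := by
            have h5 : (t : ℝ) ≤ s + (n : ℝ) ^ 2 := by exact_mod_cast hts
            have h6 : κ * (t : ℝ) ≤ κ * s + NN d n := by nlinarith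
            have h7 : 1 + -κ * (t : ℝ) / NN d n = (NN d n + -κ * t) / NN d n := by
              field_simp
            rw [h7]
            exact div_le_div_of_nonneg_right (by linarith) hN.le
          calc Real.exp (-κ * s / NN d n) ≤ Real.exp (1 + -κ * (t : ℝ) / NN d n) :=
                Real.exp_le_exp.2 h4
            _ = Real.exp 1 * Real.exp (-κ * (t : ℝ) / NN d n) := Real.exp_add _ _
            _ ≤ 3 * Real.exp (-κ * t / NN d n) := by
                refine mul_le_mul_of_nonneg_right ?_ (Real.exp_pos _).le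
                linarith [Real.exp_one_lt_d9]
        calc env.E (fun w => EP t fun η b => Gam (HH a φ w k (t + 1) s η) b)
            ≤ C / NN d n * env.E (fun w => ER s fun η => ∑ b, Gam (HH a φ w k (t + 1) s η) b) := h2
          _ ≤ C / NN d n * (Cm * NN d n * S4 d n * Real.exp (-κ * s / NN d n)) :=
              mul_le_mul_of_nonneg_left hm (by positivity)
          _ = C * Cm * S4 d n * Real.exp (-κ * s / NN d n) := by field_simp
          _ ≤ C * Cm * S4 d n * (3 * Real.exp (-κ * t / NN d n)) :=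
              mul_le_mul_of_nonneg_left h3 (by positivity)
          _ = 3 * C * Cm * S4 d n * Real.exp (-κ * t / NN d n) := by ring
      · have hs0 : s = 0 := by omega
        rw [hs0] at hm ⊢
        have h1 : ∀ w : Tor d n → Dat, EP t (fun η b => Gam (HH a φ w k (t + 1) 0 η) b) =
            (NN d n)⁻¹ * ER 0 fun η => ∑ b, Gam (HH a φ w k (t + 1) 0 η) b := by
          intro w
          have h2 : ∀ η : ℕ → Tor d n, HH a φ w k (t + 1) 0 η =
              HH a φ w k (t + 1) 0 (fun _ => 0) := fun η =>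
            u6_HH_congr a φ w k (t + 1) 0 fun r hr => absurd hr (Nat.not_lt_zero r)
          have h3 : (fun (η : ℕ → Tor d n) b => Gam (HH a φ w k (t + 1) 0 η) b) =
              fun _ b => Gam (HH a φ w k (t + 1) 0 (fun _ => 0)) b := by
            funext η b
            rw [h2 η]
          have h4 : ER 0 (fun η : ℕ → Tor d n => ∑ b, Gam (HH a φ w k (t + 1) 0 η) b) =
              ∑ b, Gam (HH a φ w k (t + 1) 0 (fun _ => 0)) b := by
            have h5 : (fun η : ℕ → Tor d n => ∑ b, Gam (HH a φ w k (t + 1) 0 η) b) =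
                fun _ => ∑ b, Gam (HH a φ w k (t + 1) 0 (fun _ => 0)) b := by
              funext η
              rw [h2 η]
            rw [h5]
            exact EP_const hd1 0 _
          rw [h3, h4, EP_unif t hd1]
          rfl
        have h2 : env.E (fun w => EP t fun η b => Gam (HH a φ w k (t + 1) 0 η) b) =
            (NN d n)⁻¹ * env.E (fun w => ER 0 fun η => ∑ b, Gam (HH a φ w k (t + 1) 0 η) b) := by
          rw [← env.smul]
          congr 1
          funext w
          exact h1 w
        rw [h2]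
        have h3 : 1 ≤ 3 * Real.exp (-κ * t / NN d n) := by
          have h4 : -1 ≤ -κ * (t : ℝ) / NN d n := by
            have h5 : (t : ℝ) ≤ (n : ℝ) ^ 2 := by
              have : t ≤ n ^ 2 := by omega
              exact_mod_cast this
            have h0t : (0 : ℝ) ≤ t := Nat.cast_nonneg t
            rw [le_div_iff₀ hN]
            nlinarith
          have h5 : Real.exp (-1) ≤ Real.exp (-κ * (t : ℝ) / NN d n) := Real.exp_le_exp.2 h4
          have h6 : 1 ≤ 3 * Real.exp (-1) := by
            rw [Real.exp_neg, ← div_eq_mul_inv, le_div_iff₀ (Real.exp_pos 1)]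
            linarith [Real.exp_one_lt_d9]
          linarith
        have h4 : Real.exp (-κ * ((0 : ℕ) : ℝ) / NN d n) = 1 := by simp
        rw [h4, mul_one] at hm
        calc (NN d n)⁻¹ * env.E (fun w => ER 0 fun η => ∑ b, Gam (HH a φ w k (t + 1) 0 η) b)
            ≤ (NN d n)⁻¹ * (Cm * NN d n * S4 d n) :=
              mul_le_mul_of_nonneg_left hm (inv_nonneg.2 hN.le)
          _ = Cm * S4 d n := by field_simp
          _ ≤ C * Cm * S4 d n := by
              have : 0 ≤ Cm * S4 d n := by positivity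
              nlinarith
          _ ≤ C * Cm * S4 d n * (3 * Real.exp (-κ * t / NN d n)) :=
              le_mul_of_one_le_right (by positivity) h3
          _ = 3 * C * Cm * S4 d n * Real.exp (-κ * t / NN d n) := by ring
    have hpt : ∀ w : Tor d n → Dat, EP t (fun η b =>
        Gam (fun b' => HH a φ w k (t + 1) (t + 1) (Function.update η t b) b') b) ≤
        2 * EP t (fun η b => Gam (HH a φ w k (t + 1) s η) b) +
          2 * (Cr * S4 d n * Real.exp (-κ * t / NN d n)) := by
      intro w
      have h1 := hrec n hb a ha1 ha Dat φ w hφ k s t hst hts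
      set g1 : (ℕ → Tor d n) → Tor d n → ℝ := fun η b => Gam (HH a φ w k (t + 1) s η) b with hg1
      set g2 : (ℕ → Tor d n) → Tor d n → ℝ := fun η b => Gam (fun b' =>
        HH a φ w k (t + 1) (t + 1) (Function.update η t b) b' - HH a φ w k (t + 1) s η b') b
        with hg2
      have h2 : EP t (fun η b =>
          Gam (fun b' => HH a φ w k (t + 1) (t + 1) (Function.update η t b) b') b) ≤
          EP t (fun η b => 2 * g1 η b + 2 * g2 η b) := by
        refine EP_mono t _ _ fun η b => ?_
        have h3 := Gam_add_le hd1 (HH a φ w k (t + 1) s η) (fun b' =>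
          HH a φ w k (t + 1) (t + 1) (Function.update η t b) b' - HH a φ w k (t + 1) s η b') b
        simp only [add_sub_cancel] at h3
        exact h3
      have h3 : EP t (fun η b => 2 * g1 η b + 2 * g2 η b) = 2 * EP t g1 + 2 * EP t g2 := by
        rw [EP_add t (fun η b => 2 * g1 η b) (fun η b => 2 * g2 η b)]
        have e1 := EP_smul t (2 : ℝ) g1
        have e2 := EP_smul t (2 : ℝ) g2
        simp only [smul_eq_mul] at e1 e2
        rw [e1, e2]
      rw [h3] at h2
      linarith
    have h5 := env.mono _ _ hpt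
    rw [env.add, env.smul, u6_E_const] at h5
    calc _ ≤ _ := h5
      _ ≤ 2 * (3 * C * Cm * S4 d n * Real.exp (-κ * t / NN d n)) +
          2 * (Cr * S4 d n * Real.exp (-κ * t / NN d n)) := by linarith
      _ = (6 * C * Cm + 2 * Cr) * S4 d n * Real.exp (-κ * t / NN d n) := by ring
  have hVR : (fun w : Tor d n → Dat => VR (M + 1) fun η => ∑ x, φ (w x) (lrec a η x (M + 1))) =
      fun w => (EP 0 (fun η b => HH a φ w M 0 0 η b ^ 2) - EP 0 (HH a φ w M 0 0) ^ 2) +
        ∑ t ∈ range M, EP t fun η b =>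
          Gam (fun b' => HH a φ w (M - 1 - t) (t + 1) (t + 1) (Function.update η t b) b') b := by
    funext w
    exact u6_VR hd1 a φ w M
  rw [hVR, env.add, env.sum]
  have h1 := hinit n hb a ha1 ha Dat env φ hφ M 0
  have h2 : ∑ t ∈ range M, env.E (fun w => EP t fun η b =>
      Gam (fun b' => HH a φ w (M - 1 - t) (t + 1) (t + 1) (Function.update η t b) b') b) ≤
      (6 * C * Cm + 2 * Cr) * S4 d n * (NN d n * (1 + 1 / κ)) := by
    calc _ ≤ ∑ t ∈ range M, (6 * C * Cm + 2 * Cr) * S4 d n * Real.exp (-κ * t / NN d n) :=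
          Finset.sum_le_sum fun t _ => key t (M - 1 - t)
      _ = (6 * C * Cm + 2 * Cr) * S4 d n * ∑ t ∈ range M, Real.exp (-(κ / NN d n) * t) := by
          rw [Finset.mul_sum]
          refine Finset.sum_congr rfl fun t _ => ?_
          congr 2
          ring
      _ ≤ (6 * C * Cm + 2 * Cr) * S4 d n * (1 + 1 / (κ / NN d n)) :=
          mul_le_mul_of_nonneg_left (u6_geom (by positivity) M) (by positivity)
      _ ≤ (6 * C * Cm + 2 * Cr) * S4 d n * (NN d n * (1 + 1 / κ)) := by
          refine mul_le_mul_of_nonneg_left ?_ (by positivity)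
          have : 1 / (κ / NN d n) = NN d n * (1 / κ) := by field_simp
          rw [this]
          linarith
  calc _ ≤ Ci * NN d n * S4 d n + (6 * C * Cm + 2 * Cr) * S4 d n * (NN d n * (1 + 1 / κ)) :=
        add_le_add h1 h2
    _ = (Ci + (6 * C * Cm + 2 * Cr) * (1 + 1 / κ)) * (NN d n * S4 d n) := by ring
    _ ≤ max 1 (Ci + (6 * C * Cm + 2 * Cr) * (1 + 1 / κ)) * (NN d n * S4 d n) :=
        mul_le_mul_of_nonneg_right (le_max_right _ _) (by positivity)
    _ = _ := by ring

end CRW
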